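import Pool.Agent.Mg.Xd20a68.Ga7920e
import Pool.Agent.Mg.Fd20a68.Gf90942

section

/-! The second half of the dense case: definitions and interface. -/

set_option autoImplicit false
set_option linter.unusedSectionVars false
set_option linter.unusedVariables false
open Finset
open scoped Classical

namespace Pool.Agent.MP_d20a68_co.T

open Pool.Agent.MP_d20a68_co.Poly

section General

variable {V Lv : Type} [Fintype V] [Fintype Lv] {k R : ℕ}

/-- A level assignment that is symmetric and cut by the sides of its level. -/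
def Val (m : Fin k → V → V) (σ : Lv → V → Bool) (lam : Fin k → V → Lv) : Prop :=
  (∀ c v, lam c (m c v) = lam c v) ∧ ∀ c v, σ (lam c v) v ≠ σ (lam c v) (m c v)

/-- The edges of `Mv` at level `l` whose end on side `true` has label `a`, the other label `b`. -/
noncomputable def cA (m : Fin k → V → V) (lab : V → Fin R) (σ : Lv → V → Bool)
    (Mv : Fin k → V → Prop) (lam : Fin k → V → Lv) (l : Lv) (a b : Fin R) : ℕ :=
  nd fun c v => Mv c v ∧ lam c v = l ∧ σ l v = true ∧ lab v = a ∧ lab (m c v) = b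

/-- The missing degree at a level. -/
noncomputable def res (y : Lv → ℕ) (lam : Fin k → V → Lv) (l : Lv) (v : V) : ℤ :=
  (y l : ℤ) - ((cnt fun c => lam c v = l : ℕ) : ℤ)

/-- The signed sum of `f` over a block, for the sides `τ`. -/
noncomputable def sgs (lab : V → Fin R) (fl : Fin R → Fin R) (τ : V → Bool) (f : V → ℤ)
    (a : Fin R) : ℤ :=
  ∑ v ∈ univ.filter (fun v => lab v = a ∧ τ v = true), f v -
    ∑ v ∈ univ.filter (fun v => lab v = fl a ∧ τ v = false), f v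

/-- The signed sum of `f` over a block refined by the sides `τ₀`. -/
noncomputable def sgs2 (lab : V → Fin R) (fl : Fin R → Fin R) (τ τ₀ : V → Bool) (f : V → ℤ)
    (a : Fin R) (β : Bool) : ℤ :=
  ∑ v ∈ univ.filter (fun v => lab v = a ∧ τ v = true ∧ τ₀ v = β), f v -
    ∑ v ∈ univ.filter (fun v => lab v = fl a ∧ τ v = false ∧ τ₀ v = !β), f v

/-- The refined block of a vertex. -/
def cls2 (lab : V → Fin R) (fl : Fin R → Fin R) (τ τ₀ : V → Bool) (v : V) : Fin R × Bool :=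
  if τ v = true then (lab v, τ₀ v) else (fl (lab v), !τ₀ v)

/-- The indicator of a proposition. -/
noncomputable def ind (P : Prop) : ℝ := if P then 1 else 0

end General

/-- The data of the second half. -/
structure Dat (V Lv : Type) (k R : ℕ) where
  m : Fin k → V → V
  lab : V → Fin R
  fl : Fin R → Fin R
  poor : Fin R → Fin R → Prop
  r : Fin R → Fin R → Prop
  z : Lv
  h : Lv
  σ : Lv → V → Bool
  y : Lv → ℕ
  Lt : Finset V
  Fx : Fin k → V → Prop
  l0 : Fin k → V → Lv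

namespace Dat

variable {V Lv : Type} [Fintype V] [Fintype Lv] {k R : ℕ} (D : Dat V Lv k R)

/-- Inside darts. -/
def Ins (c : Fin k) (v : V) : Prop := D.lab (D.m c v) = D.fl (D.lab v)

/-- The dart is cut by the sides of level `l`. -/
def Cut (l : Lv) (c : Fin k) (v : V) : Prop := D.σ l v ≠ D.σ l (D.m c v)

/-- The type of a dart. -/
def Ty (a b : Fin R) (c : Fin k) (v : V) : Prop := D.lab v = a ∧ D.lab (D.m c v) = b

/-- The sides of the two ends at level `l` are `s` and `s'`. -/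
def Sd (l : Lv) (s s' : Bool) (c : Fin k) (v : V) : Prop := D.σ l v = s ∧ D.σ l (D.m c v) = s'

/-- Exactly one end lies in `U`. -/
def Xr (U : Finset V) (c : Fin k) (v : V) : Prop := v ∈ U ↔ D.m c v ∉ U

/-- Rich cross types. -/
def Rich (a b : Fin R) : Prop := ¬ D.poor a b ∧ b ≠ D.fl a

/-- Movable inside darts. -/
def MI (c : Fin k) (v : V) : Prop := ¬ D.Fx c v ∧ D.Ins c v

/-- Movable cross darts. -/
def MC (c : Fin k) (v : V) : Prop := ¬ D.Fx c v ∧ ¬ D.Ins c v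

/-- Movable inside darts with both ends on side `true` of the level `z`. -/
def MA (c : Fin k) (v : V) : Prop := D.MI c v ∧ D.Sd D.z true true c v

/-- All darts of a type. -/
noncomputable def N (a b : Fin R) : ℕ := NN D.m D.lab a b

/-- The movable darts of a type. -/
noncomputable def NM (a b : Fin R) : ℕ := nd fun c v => ¬ D.Fx c v ∧ D.Ty a b c v

/-- The movable darts of a rich cross type. -/
noncomputable def NR (a b : Fin R) : ℕ := if D.Rich a b then D.NM a b else 0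

/-- The six sides seen by a dart. -/
def bits (l : Lv) (c : Fin k) (v : V) : (Bool × Bool × Bool) × (Bool × Bool × Bool) :=
  ((D.σ l v, D.σ D.z v, D.σ D.h v), (D.σ l (D.m c v), D.σ D.z (D.m c v), D.σ D.h (D.m c v)))

/-- The share that is placed directly. -/
noncomputable def kap (μ : ℝ) (c : Fin k) (v : V) : ℝ := if D.Ins c v then 1 - μ else 1

/-- The probability of the level `h`. -/
noncomputable def xh (μ : ℝ) (c : Fin k) (v : V) : ℝ :=
  2 * D.kap μ c v * D.y D.h / k * ind (D.Cut D.h c v)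

/-- The probability of the level `z`, with the tags. -/
noncomputable def xz (μ : ℝ) (c : Fin k) (v : V) : ℝ :=
  (2 - 2 * D.kap μ c v * (k - D.y D.z) / k) * ind (D.Cut D.z c v)

/-- The probability of the tag `l`. -/
noncomputable def xt (μ : ℝ) (c : Fin k) (v : V) (l : Lv) : ℝ :=
  8 * μ * D.y l / k * ind (D.Ins c v ∧ D.Cut D.z c v ∧ D.Cut l c v ∧ l ≠ D.z)

/-- The weight of the small levels that cut a dart. -/
noncomputable def Ye (c : Fin k) (v : V) : ℝ := ∑ l ∈ small D.z D.h, D.y l * ind (D.Cut l c v)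

/-- The probabilities: `inl l` is the level `l`, and `inr l` is the level `z` with the tag `l`. -/
noncomputable def prob (μ : ℝ) (c : Fin k) (v : V) (ω : Lv ⊕ Lv) : ℝ :=
  if D.Fx c v then ind (ω = Sum.inl (D.l0 c v)) else
    Sum.elim (fun l => if l = D.h then D.xh μ c v else
      if l = D.z then D.xz μ c v - ∑ l', D.xt μ c v l' else
        (1 - D.xz μ c v - D.xh μ c v) * (D.y l * ind (D.Cut l c v)) / D.Ye c v)
      (fun l => D.xt μ c v l) ω

/-- The level of a dart after the rounding. -/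
def lamOf (om : Fin k → V → Lv ⊕ Lv) (c : Fin k) (v : V) : Lv :=
  Sum.elim id (fun _ => D.z) (om c v)

/-- The net that the movable cross edges have to carry. -/
noncomputable def gI (l : Lv) (a : Fin R) : ℤ :=
  sgs D.lab D.fl (D.σ l) (fun v => (D.y l : ℤ) - ((cnt fun c => D.Fx c v ∧ D.l0 c v = l : ℕ) : ℤ)) a

/-- The standing hypotheses. -/
structure Hyp (C : ℕ) (φ η ν : ℝ) (u B S Lp : ℕ) : Prop where
  card : Fintype.card V ≤ C * k
  sc : Sc k u
  u16 : 16 ≤ u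
  fac : Fac D.m
  blk : Blk D.m D.lab D.fl φ
  typ : Typ D.m D.lab D.fl D.poor D.r S Lp
  pre : Pre D.m D.lab D.fl D.poor D.r D.z D.h D.σ D.y D.Lt D.Fx D.l0 u ν η B
  φ0 : 0 < φ
  η0 : 0 < η
  ν0 : 0 < ν
  ν1 : ν ≤ 1 / 10 ^ 4
  Lp1 : 1 ≤ Lp
  BLp : (B : ℝ) ≤ ν * Lp

/-- What is known about the probabilities. -/
structure PF (μ ν : ℝ) : Prop where
  sym : ∀ c v, D.prob μ c (D.m c v) = D.prob μ c v
  nn : ∀ c v ω, 0 ≤ D.prob μ c v ω
  one : ∀ c v, ∑ ω, D.prob μ c v ω = 1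
  fx : ∀ c v ω, 0 < D.prob μ c v ω → D.Fx c v → ω = Sum.inl (D.l0 c v)
  cutl : ∀ c v l, 0 < D.prob μ c v (Sum.inl l) → D.Cut l c v
  tag : ∀ c v l, 0 < D.prob μ c v (Sum.inr l) → D.MI c v ∧ D.Cut D.z c v ∧ D.Cut l c v ∧ l ≠ D.z
  app : ∀ c v, ¬ D.Fx c v → ∀ l ∈ small D.z D.h, |D.prob μ c v (Sum.inl l) -
    (1 - D.xz μ c v - D.xh μ c v) * (2 * D.y l / ((k : ℝ) - D.y D.z - D.y D.h)) *
      ind (D.Cut l c v)| ≤ 4 * ν * D.y l / k

/-- The raw output of the rounding. -/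
structure Acc (μ ν' : ℝ) (u : ℕ) (om : Fin k → V → Lv ⊕ Lv) : Prop where
  sym : ∀ c v, om c (D.m c v) = om c v
  pos : ∀ c v, 0 < D.prob μ c v (om c v)
  aI : ∀ v ω, |(cnt fun c => D.MI c v ∧ om c v = ω : ℝ) -
    ∑ c ∈ univ.filter (fun c => D.MI c v), D.prob μ c v ω| ≤ ν' * u ^ 6
  aC : ∀ v ω, |(cnt fun c => D.MC c v ∧ om c v = ω : ℝ) -
    ∑ c ∈ univ.filter (fun c => D.MC c v), D.prob μ c v ω| ≤ ν' * u ^ 6
  a2 : ∀ a b l (P : Finset ((Bool × Bool × Bool) × (Bool × Bool × Bool))) ω,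
    |(nd fun c v => (¬ D.Fx c v ∧ D.Ty a b c v ∧ D.bits l c v ∈ P) ∧ om c v = ω : ℝ) -
      ∑ e ∈ univ.filter (fun e : Fin k × V =>
        ¬ D.Fx e.1 e.2 ∧ D.Ty a b e.1 e.2 ∧ D.bits l e.1 e.2 ∈ P), D.prob μ e.1 e.2 ω| ≤
      ν' * u ^ 6 * (D.N a b + k) / k
  a3 : ∀ l (U : Finset V), ∑ e ∈ univ.filter (fun e : Fin k × V =>
      ¬ D.Fx e.1 e.2 ∧ D.σ l e.2 = true ∧ D.Xr U e.1 e.2), D.prob μ e.1 e.2 (Sum.inr l) -
      ν' * u ^ 6 * U.card ≤
    (nd fun c v => (¬ D.Fx c v ∧ D.σ l v = true ∧ D.Xr U c v) ∧ om c v = Sum.inr l : ℝ)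

/-- Equidistribution on the movable darts. -/
structure EqM (ν : ℝ) : Prop where
  hI : ∀ v ∈ D.Lt, ∀ l ∈ small D.z D.h, ∀ s s0 s1 : Bool,
    |8 * (cnt fun c => D.MI c v ∧ D.σ l (D.m c v) = s ∧ D.σ D.z (D.m c v) = s0 ∧
      D.σ D.h (D.m c v) = s1 : ℝ) - (cnt fun c => D.MI c v : ℝ)| ≤ (R + 9) * ν * k
  hC : ∀ v ∈ D.Lt, ∀ l ∈ small D.z D.h, ∀ s s0 s1 : Bool,
    |8 * (cnt fun c => D.MC c v ∧ D.σ l (D.m c v) = s ∧ D.σ D.z (D.m c v) = s0 ∧
      D.σ D.h (D.m c v) = s1 : ℝ) - (cnt fun c => D.MC c v : ℝ)| ≤ (R + 9) * ν * k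
  q : ∀ a b, ¬ D.poor a b → ∀ l ∈ small D.z D.h, ∀ x,
    |64 * (nd fun c v => ¬ D.Fx c v ∧ D.Ty a b c v ∧ D.bits l c v = x : ℝ) - D.NM a b| ≤
      65 * ν * D.N a b
  nm : ∀ a b, ¬ D.poor a b → (1 - ν) * D.N a b ≤ D.NM a b ∧ D.NM a b ≤ D.N a b
  sm : (small D.z D.h).Nonempty

/-- The basic properties of the rounding. -/
structure RD0 (om : Fin k → V → Lv ⊕ Lv) : Prop where
  sym : ∀ c v, om c (D.m c v) = om c v
  fx : ∀ c v, D.Fx c v → om c v = Sum.inl (D.l0 c v)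
  cutl : ∀ c v l, om c v = Sum.inl l → D.Cut l c v
  tag : ∀ c v l, om c v = Sum.inr l → D.MI c v ∧ D.Cut D.z c v ∧ D.Cut l c v ∧ l ≠ D.z

/-- Degrees after the rounding. -/
structure RD1 (μ ν₁ : ℝ) (om : Fin k → V → Lv ⊕ Lv) : Prop where
  dI : ∀ v ∈ D.Lt, ∀ l, l ≠ D.z → |(cnt fun c => D.MI c v ∧ om c v = Sum.inl l : ℝ) -
    (1 - μ) * D.y l * (cnt fun c => D.MI c v : ℝ) / k| ≤ ν₁ * D.y l
  dC : ∀ v ∈ D.Lt, ∀ l, |(cnt fun c => D.MC c v ∧ om c v = Sum.inl l : ℝ) -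
    D.y l * (cnt fun c => D.MC c v : ℝ) / k| ≤ ν₁ * D.y l
  dT : ∀ v ∈ D.Lt, ∀ l, l ≠ D.z → |(cnt fun c => om c v = Sum.inr l : ℝ) -
    2 * μ * D.y l * (cnt fun c => D.MI c v : ℝ) / k| ≤ ν₁ * D.y l

/-- Counts of rich cross types after the rounding. -/
structure RD2 (ν₁ : ℝ) (om : Fin k → V → Lv ⊕ Lv) : Prop where
  cn : ∀ a b, D.Rich a b → ∀ l, |(cA D.m D.lab D.σ D.MC (D.lamOf om) l a b : ℝ) -
    D.y l * D.NM a b / (2 * k)| ≤ ν₁ * D.y l * D.N a b / k

/-- Movable edges for the first stage. -/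
structure RD3 (om : Fin k → V → Lv ⊕ Lv) : Prop where
  av1 : ∀ a b, D.Rich a b → ∀ l, l ≠ D.h → 1 / 20 * (D.y l : ℝ) * D.N a b / k ≤
    (nd fun c v => D.MC c v ∧ D.lamOf om c v = l ∧ D.Ty a b c v ∧ D.Sd l true false c v ∧
      D.Sd D.h true false c v : ℝ)
  av2 : ∀ a b, D.Rich a b → ∀ l, l ≠ D.h → ∀ s : Bool, 1 / 20 * (D.y D.h : ℝ) * D.N a b / k ≤
    (nd fun c v => D.MC c v ∧ D.lamOf om c v = D.h ∧ D.Ty a b c v ∧ D.Sd l true false c v ∧
      D.Sd D.h s (!s) c v : ℝ)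

/-- Movable edges for the second stage. -/
structure RD4 (om : Fin k → V → Lv ⊕ Lv) : Prop where
  av3 : ∀ a, ∀ l ∈ small D.z D.h, 1 / 100 * (D.y l : ℝ) * D.N a (D.fl a) / k ≤
    (nd fun c v => D.MA c v ∧ D.lamOf om c v = l ∧ D.Ty a (D.fl a) c v ∧
      D.Sd l true false c v ∧ D.Sd D.h true false c v : ℝ)
  av4 : ∀ a, ∀ l ∈ small D.z D.h, ∀ s : Bool, 1 / 100 * (D.y D.h : ℝ) * D.N a (D.fl a) / k ≤
    (nd fun c v => D.MA c v ∧ D.lamOf om c v = D.h ∧ D.Ty a (D.fl a) c v ∧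
      D.Sd l true false c v ∧ D.Sd D.h s (!s) c v : ℝ)

/-- Boundaries in the tagged graphs. -/
structure RD5 (μ ν₁ : ℝ) (om : Fin k → V → Lv ⊕ Lv) : Prop where
  ex : ∀ l, l ≠ D.z → ∀ U : Finset V, 8 * μ * D.y l / k *
      (nd fun c v => D.MI c v ∧ D.Cut D.z c v ∧ D.Sd l true false c v ∧ D.Xr U c v : ℝ) -
      ν₁ * D.y l * U.card ≤
    (nd fun c v => om c v = Sum.inr l ∧ D.σ l v = true ∧ D.Xr U c v : ℝ)

/-- An assignment obtained from the rounding by moving few movable, untagged edges. -/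
structure Near (om : Fin k → V → Lv ⊕ Lv) (lam : Fin k → V → Lv) (a a' : ℝ) : Prop where
  val : Val D.m D.σ lam
  fx : ∀ c v, D.Fx c v → lam c v = D.l0 c v
  tag : ∀ c v l, om c v = Sum.inr l → lam c v = D.z
  nI : ∀ v l, l ≠ D.z → |(cnt fun c => D.MI c v ∧ lam c v = l : ℝ) -
    (cnt fun c => D.MI c v ∧ om c v = Sum.inl l : ℝ)| ≤ a * D.y l
  nC : ∀ v l, |(cnt fun c => D.MC c v ∧ lam c v = l : ℝ) -
    (cnt fun c => D.MC c v ∧ om c v = Sum.inl l : ℝ)| ≤ a' * D.y l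

/-- The missing degrees are half the tagged degrees. -/
structure ResOk (om : Fin k → V → Lv ⊕ Lv) (lam : Fin k → V → Lv) (e : ℝ) : Prop where
  app : ∀ v ∈ D.Lt, ∀ l, l ≠ D.z →
    |2 * (res D.y lam l v : ℝ) - (cnt fun c => om c v = Sum.inr l : ℝ)| ≤ e * D.y l
  out : ∀ v, v ∉ D.Lt → ∀ l, res D.y lam l v = 0

/-- Expansion inside the refined blocks. -/
def ExpG (Γ : ℝ) : Prop :=
  ∀ l, l ≠ D.z → ∀ (κ : Fin R × Bool) (U : Finset V),
    (∀ v ∈ U, cls2 D.lab D.fl (D.σ l) (D.σ D.z) v = κ) →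
    2 * U.card ≤ (cnt fun v => cls2 D.lab D.fl (D.σ l) (D.σ D.z) v = κ) →
    Γ * U.card ≤ (nd fun c v => D.Ins c v ∧ D.Cut D.z c v ∧ D.Sd l true false c v ∧ D.Xr U c v : ℝ)

end Dat

/-- The statement `P` holds for all data that satisfy the standing hypotheses. -/
def AllD (P : ∀ (V Lv : Type) [Fintype V] [Fintype Lv] (k R : ℕ), Dat V Lv k R →
    ℕ → ℝ → ℝ → ℝ → ℕ → ℕ → ℕ → Prop) : Prop :=
  ∀ (V Lv : Type) [Fintype V] [Fintype Lv] (k R : ℕ) (D : Dat V Lv k R) (C : ℕ) (φ η ν : ℝ)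
    (u B S Lp : ℕ), D.Hyp C φ η ν u B S Lp → P V Lv k R D C φ η ν u B Lp

/-! ### Interface: moving and filling -/

/-- The arithmetic plan of a stage. -/
def PlanP : Prop :=
  ∀ (Lv L : Type) [Fintype Lv] [Fintype L] (h : Lv) (Ls : Finset Lv) (y : Lv → ℕ) (k : ℕ)
    (act : L → L → Prop) (N : L → L → ℝ) (δ : Lv → L → L → ℤ) (ε : ℝ), h ∉ Ls → 0 < k → 0 < ε →
    (∀ a b, act a b → act b a) → (∀ a b, N a b = N b a) →
    (∀ l a b, ¬ act a b → δ l a b = 0) → (∀ l a b, l ∉ Ls → l ≠ h → δ l a b = 0) →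
    (∀ a b, ∑ l, (δ l a b + δ l b a) = 0) →
    (∀ a b, act a b → ∀ l ∈ Ls, |(δ l a b : ℝ)| ≤ ε * y l * N a b / k ∧ 1 ≤ ε * y l * N a b / k) →
    (∀ a b, act a b → |(δ h a b : ℝ)| ≤ ε * N a b) → ∑ l ∈ Ls, y l ≤ k → k ≤ 2 * ∑ l ∈ Ls, y l →
    ∃ n1 n2 n3 : Lv → L → L → ℕ,
      (∀ l a b, l ∉ Ls ∨ ¬ act a b → n1 l a b = 0 ∧ n2 l a b = 0 ∧ n3 l a b = 0) ∧
      (∀ l ∈ Ls, ∀ a b, δ l a b = (n2 l a b : ℤ) + n3 l a b - n1 l a b) ∧
      (∀ a b, δ h a b = ∑ l, ((n1 l a b : ℤ) - n2 l a b - n3 l b a)) ∧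
      ∀ l ∈ Ls, ∀ a b, act a b →
        ((n1 l a b + n2 l a b + n3 l a b : ℕ) : ℝ) ≤ 11 * ε * y l * N a b / k

/-- Changing the levels of chosen edges. -/
def ApplyP : Prop :=
  ∀ (E J Lv : Type) [Fintype E] [Fintype J] (φ : E → E) (lam : E → Lv) (pick : J → E)
    (dst : J → Lv), (∀ d, φ (φ d) = d) → (∀ d, φ d ≠ d) → (∀ d, lam (φ d) = lam d) →
    (∀ j j', pick j = pick j' ∨ pick j = φ (pick j') → j = j') →
    ∃ lam' : E → Lv, (∀ d, lam' (φ d) = lam' d) ∧ (∀ j, lam' (pick j) = dst j) ∧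
      (∀ d, (∀ j, d ≠ pick j ∧ d ≠ φ (pick j)) → lam' d = lam d) ∧
      ∀ Q : E → Lv → Prop, ((cnt fun d => Q d (lam' d) : ℕ) : ℤ) = (cnt fun d => Q d (lam d) : ℕ) +
        (cnt fun j => Q (pick j) (dst j) : ℕ) + (cnt fun j => Q (φ (pick j)) (dst j) : ℕ) -
        (cnt fun j => Q (pick j) (lam (pick j)) : ℕ) -
        (cnt fun j => Q (φ (pick j)) (lam (pick j)) : ℕ)

/-- One stage of moves through the hub `h`. -/
def StageP : Prop :=
  ∀ (V Lv : Type) [Fintype V] [Fintype Lv] (k R : ℕ) (D : Dat V Lv k R) (Mv : Fin k → V → Prop)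
    (lam : Fin k → V → Lv) (Ls : Finset Lv) (act : Fin R → Fin R → Prop) (N : Fin R → Fin R → ℝ)
    (δ : Lv → Fin R → Fin R → ℤ) (ε α ρ η : ℝ), Fac D.m → Val D.m D.σ lam →
    (∀ c v, Mv c v → Mv c (D.m c v)) → D.h ∉ Ls → 0 < k → 0 < ε → 0 < ρ → ρ ≤ 1 → 0 < η → η ≤ 1 →
    1000 * ε ≤ α * ρ * η → (∀ a b, act a b → act b a) → (∀ a b, N a b = N b a) →
    (∀ l a b, ¬ act a b → δ l a b = 0) → (∀ l a b, l ∉ Ls → l ≠ D.h → δ l a b = 0) →
    (∀ a b, ∑ l, (δ l a b + δ l b a) = 0) →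
    (∀ a b, act a b → ∀ l ∈ Ls,
      |(δ l a b : ℝ)| ≤ ε * D.y l * N a b / k ∧ 1 ≤ ε * D.y l * N a b / k) →
    (∀ a b, act a b → |(δ D.h a b : ℝ)| ≤ ε * N a b) → ∑ l ∈ Ls, D.y l ≤ k →
    k ≤ 2 * ∑ l ∈ Ls, D.y l → η * k ≤ D.y D.h → (∀ l, 2 ≤ ρ * D.y l) →
    (∀ v, ∀ l ∈ insert D.h Ls, (cnt fun c => Mv c v ∧ lam c v = l) ≤ 2 * D.y l) →
    (∀ a b, act a b → ∀ l ∈ Ls, α * D.y l * N a b / k ≤
      (nd fun c v => Mv c v ∧ lam c v = l ∧ D.Ty a b c v ∧ D.Sd l true false c v ∧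
        D.Sd D.h true false c v : ℝ)) →
    (∀ a b, act a b → ∀ l ∈ Ls, ∀ s : Bool, α * D.y D.h * N a b / k ≤
      (nd fun c v => Mv c v ∧ lam c v = D.h ∧ D.Ty a b c v ∧ D.Sd l true false c v ∧
        D.Sd D.h s (!s) c v : ℝ)) →
    ∃ lam' : Fin k → V → Lv, Val D.m D.σ lam' ∧ (∀ c v, ¬ Mv c v → lam' c v = lam c v) ∧
      (∀ l a b, (cA D.m D.lab D.σ Mv lam' l a b : ℤ) = cA D.m D.lab D.σ Mv lam l a b + δ l a b) ∧
      ∀ v l, |(cnt fun c => Mv c v ∧ lam' c v = l : ℝ) - (cnt fun c => Mv c v ∧ lam c v = l : ℝ)| ≤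
        (R : ℝ) ^ 2 * ρ * D.y l

/-- Prescribed degrees in an expanding bipartite set of darts. -/
def FillP : Prop :=
  ∀ (V K : Type) [Fintype V] (k : ℕ) (m : Fin k → V → V) (X : Fin k → V → Prop) (τ : V → Bool)
    (cls : V → K) (Lt : Finset V) (f : V → ℕ) (H : ℝ), Fac m → 0 ≤ H →
    (∀ c v, X c v → X c (m c v) ∧ τ v ≠ τ (m c v) ∧ cls (m c v) = cls v ∧ v ∈ Lt) →
    (∀ v, v ∉ Lt → f v = 0) →
    (∀ κ, ∑ v ∈ univ.filter (fun v => cls v = κ ∧ τ v = true), f v =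
      ∑ v ∈ univ.filter (fun v => cls v = κ ∧ τ v = false), f v) →
    (∀ v ∈ Lt, |2 * (f v : ℝ) - (cnt fun c => X c v : ℝ)| ≤ H) →
    (∀ κ (U : Finset V), (∀ v ∈ U, v ∈ Lt ∧ cls v = κ) →
      2 * U.card ≤ (cnt fun v => v ∈ Lt ∧ cls v = κ) →
      H * U.card ≤ (nd fun c v => X c v ∧ τ v = true ∧ (v ∈ U ↔ m c v ∉ U) : ℝ)) →
    ∃ F : Fin k → V → Prop, (∀ c v, F c v → X c v ∧ F c (m c v)) ∧
      ∀ v, (cnt fun c => F c v) = f v

/-! ### Interface: the rounding -/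

/-- Inside degrees. -/
def DegP : Prop := AllD fun V Lv _ _ k R D C φ η ν u B Lp =>
  (∀ v, φ * k / 4 ≤ (cnt fun c => D.Ins c v : ℝ)) ∧
  (∀ v ∈ D.Lt, (cnt fun c => D.Fx c v : ℝ) ≤ ν * k) ∧ η ≤ 1 / 16 ∧
  (∀ a, D.N a (D.fl a) = 0 ∨ (φ * k / 4) ^ 2 ≤ D.N a (D.fl a)) ∧
  (∀ a, D.N a (D.fl a) = 0 → ∀ v, D.lab v ≠ a ∧ D.lab v ≠ D.fl a) ∧
  (∀ a b, D.N a b = D.N b a) ∧ ((nd D.Fx : ℕ) ≤ B * k)

/-- The probabilities. -/
def ProbP : Prop := AllD fun V Lv _ _ k R D C φ η ν u B Lp => D.PF (η / 4) ν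

/-- The rounding. -/
def AccP : Prop :=
  ∀ (C R : ℕ) (ν' : ℝ), 0 < ν' → ∃ U : ℕ, ∀ (V Lv : Type) [Fintype V] [Fintype Lv] (k : ℕ)
    (D : Dat V Lv k R) (φ η ν : ℝ) (u B S Lp : ℕ), D.Hyp C φ η ν u B S Lp → U ≤ u →
    ∀ μ : ℝ, D.PF μ ν → ∃ om, D.Acc μ ν' u om

/-- Equidistribution on movable darts. -/
def EqMP : Prop := AllD fun V Lv _ _ k R D C φ η ν u B Lp => D.EqM ν

/-- The inside degrees after the rounding. -/
def Rd1aP : Prop := AllD fun V Lv _ _ k R D C φ η ν u B Lp =>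
  ∀ (ν' ν₁ : ℝ) (om : Fin k → V → Lv ⊕ Lv), D.PF (η / 4) ν → D.EqM ν → D.Acc (η / 4) ν' u om →
    0 ≤ ν' → (2 * R + 30) * ν + ν' ≤ ν₁ →
    ∀ v ∈ D.Lt, ∀ l, l ≠ D.z → |(cnt fun c => D.MI c v ∧ om c v = Sum.inl l : ℝ) -
      (1 - η / 4) * D.y l * (cnt fun c => D.MI c v : ℝ) / k| ≤ ν₁ * D.y l

/-- The cross degrees after the rounding. -/
def Rd1bP : Prop := AllD fun V Lv _ _ k R D C φ η ν u B Lp =>
  ∀ (ν' ν₁ : ℝ) (om : Fin k → V → Lv ⊕ Lv), D.PF (η / 4) ν → D.EqM ν → D.Acc (η / 4) ν' u om →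
    0 ≤ ν' → (2 * R + 30) * ν + ν' ≤ ν₁ →
    ∀ v ∈ D.Lt, ∀ l, |(cnt fun c => D.MC c v ∧ om c v = Sum.inl l : ℝ) -
      D.y l * (cnt fun c => D.MC c v : ℝ) / k| ≤ ν₁ * D.y l

/-- The tagged degrees after the rounding. -/
def Rd1cP : Prop := AllD fun V Lv _ _ k R D C φ η ν u B Lp =>
  ∀ (ν' ν₁ : ℝ) (om : Fin k → V → Lv ⊕ Lv), D.PF (η / 4) ν → D.EqM ν → D.Acc (η / 4) ν' u om →
    0 ≤ ν' → (2 * R + 30) * ν + ν' ≤ ν₁ →
    ∀ v ∈ D.Lt, ∀ l, l ≠ D.z → |(cnt fun c => om c v = Sum.inr l : ℝ) -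
      2 * (η / 4) * D.y l * (cnt fun c => D.MI c v : ℝ) / k| ≤ ν₁ * D.y l

/-- Counts of rich types. -/
def Rd2P : Prop := AllD fun V Lv _ _ k R D C φ η ν u B Lp =>
  ∀ (ν' ν₁ : ℝ) (om : Fin k → V → Lv ⊕ Lv), D.PF (η / 4) ν → D.EqM ν → D.Acc (η / 4) ν' u om →
    D.RD0 om → 0 ≤ ν' → 50 * ν + 2 * ν' ≤ ν₁ → D.RD2 ν₁ om

/-- Movable edges, first stage. -/
def Rd3P : Prop := AllD fun V Lv _ _ k R D C φ η ν u B Lp =>
  ∀ (ν' : ℝ) (om : Fin k → V → Lv ⊕ Lv), D.PF (η / 4) ν → D.EqM ν → D.Acc (η / 4) ν' u om →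
    D.RD0 om → 0 ≤ ν' → ν' ≤ 1 / 10 ^ 4 → D.RD3 om

/-- Movable edges, second stage. -/
def Rd4P : Prop := AllD fun V Lv _ _ k R D C φ η ν u B Lp =>
  ∀ (ν' : ℝ) (om : Fin k → V → Lv ⊕ Lv), D.PF (η / 4) ν → D.EqM ν → D.Acc (η / 4) ν' u om →
    D.RD0 om → 0 ≤ ν' → ν' ≤ 1 / 10 ^ 4 → D.RD4 om

/-- Basic properties and tagged boundaries. -/
def Rd05P : Prop := AllD fun V Lv _ _ k R D C φ η ν u B Lp =>
  ∀ (ν' ν₁ : ℝ) (om : Fin k → V → Lv ⊕ Lv), D.PF (η / 4) ν → D.Acc (η / 4) ν' u om →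
    0 ≤ ν' → ν' ≤ ν₁ → D.RD0 om ∧ D.RD5 (η / 4) ν₁ om

/-! ### Interface: the two stages -/

/-- The nets vanish on closed sets of labels. -/
def G1P : Prop := AllD fun V Lv _ _ k R D C φ η ν u B Lp =>
  ∀ l (K : Finset (Fin R)), (∀ a b, D.Rich a b → (a ∈ K ↔ D.fl b ∈ K)) → ∑ a ∈ K, D.gI l a = 0

/-- The nets are close to the proportional share. -/
def G2P : Prop := AllD fun V Lv _ _ k R D C φ η ν u B Lp =>
  ∀ l a, |2 * (k : ℤ) * D.gI l a -
    D.y l * (∑ b, (D.NR a b : ℤ) - ∑ b, (D.NR (D.fl a) b : ℤ))| ≤ 2 * k * (3 * B : ℕ) * D.y l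

/-- Sums of the nets over all levels. -/
def G3P : Prop := AllD fun V Lv _ _ k R D C φ η ν u B Lp =>
  (∀ a b, D.NR a b = D.NR b a) ∧ (∀ a, Even (D.NR a a)) ∧
  (∀ a, ∑ l, (D.gI l a - D.gI l (D.fl a)) = ∑ b, (D.NR a b : ℤ) - ∑ b, (D.NR (D.fl a) b : ℤ)) ∧
  ∀ a, D.fl a = a → Even (∑ l, D.gI l a + ∑ b, (D.NR a b : ℤ))

/-- The deficit of a block in terms of the movable cross edges. -/
def DfcP : Prop := AllD fun V Lv _ _ k R D C φ η ν u B Lp =>
  ∀ lam : Fin k → V → Lv, Val D.m D.σ lam → (∀ c v, D.Fx c v → lam c v = D.l0 c v) →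
    (∀ l a, sgs D.lab D.fl (D.σ l) (res D.y lam l) a = D.gI l a -
      (∑ b, (cA D.m D.lab D.σ D.MC lam l a b : ℤ) -
        ∑ a', (cA D.m D.lab D.σ D.MC lam l a' (D.fl a) : ℤ))) ∧
    (∀ l a b, ¬ D.Rich a b → cA D.m D.lab D.σ D.MC lam l a b = 0) ∧
    ∀ a b, ∑ l, (cA D.m D.lab D.σ D.MC lam l a b + cA D.m D.lab D.σ D.MC lam l b a) = D.NR a b

/-- The first stage: every level becomes balanced on every block. -/
def Stage1P : Prop :=
  ∀ R B : ℕ, ∃ M : ℕ, ∀ (V Lv : Type) [Fintype V] [Fintype Lv] (k : ℕ) (D : Dat V Lv k R) (C : ℕ)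
    (φ η ν : ℝ) (u S Lp : ℕ), D.Hyp C φ η ν u B S Lp →
    ∀ (μ ν₁ ρ : ℝ) (om : Fin k → V → Lv ⊕ Lv), D.RD0 om → D.RD1 μ ν₁ om → D.RD2 ν₁ om →
      D.RD3 om → 0 < ν₁ → ν₁ ≤ 1 → 0 < ρ → ρ ≤ 1 → 40000 * ν₁ ≤ ρ * η → (M : ℝ) + 1 ≤ ν₁ * Lp →
      2 ≤ ρ * u ^ 6 →
      ∃ lam, D.Near om lam 0 (R ^ 2 * ρ) ∧ (∀ c v, D.Ins c v → lam c v = D.lamOf om c v) ∧
        ∀ l a, sgs D.lab D.fl (D.σ l) (res D.y lam l) a = 0

/-- The missing degrees. -/
def ResP : Prop := AllD fun V Lv _ _ k R D C φ η ν u B Lp =>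
  ∀ (μ ν₁ a a' : ℝ) (om : Fin k → V → Lv ⊕ Lv) (lam : Fin k → V → Lv), D.RD0 om →
    D.RD1 μ ν₁ om → D.Near om lam a a' → 0 ≤ μ → μ ≤ 1 →
    D.ResOk om lam (4 * ν + 5 * ν₁ + 2 * a + 2 * a') ∧
    (8 * ν ≤ φ → 2 * ν + 2 * ν₁ + a + a' ≤ μ * φ / 8 →
      ∀ v l, l ≠ D.z → 0 ≤ res D.y lam l v)

/-- The sum of the refined deficits. -/
def Id2P : Prop :=
  ∀ (V Lv : Type) [Fintype V] [Fintype Lv] (k R : ℕ) (D : Dat V Lv k R) (lam : Fin k → V → Lv),
    (∀ a, D.fl (D.fl a) = a) → ∑ l, D.y l = k →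
    (∀ l a, sgs D.lab D.fl (D.σ l) (res D.y lam l) a = 0) →
    ∀ a, ∑ l ∈ univ.erase D.z, (sgs2 D.lab D.fl (D.σ l) (D.σ D.z) (res D.y lam l) a true +
      sgs2 D.lab D.fl (D.σ l) (D.σ D.z) (res D.y lam l) (D.fl a) true) = 0

/-- The refined deficits are small. -/
def Bd2P : Prop := AllD fun V Lv _ _ k R D C φ η ν u B Lp =>
  ∀ (e : ℝ) (om : Fin k → V → Lv ⊕ Lv) (lam : Fin k → V → Lv), D.RD0 om → D.ResOk om lam e →
    0 ≤ e → ∀ l, l ≠ D.z → ∀ a β,
      |(sgs2 D.lab D.fl (D.σ l) (D.σ D.z) (res D.y lam l) a β : ℝ)| ≤ C * k * e * D.y l / 2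

/-- The change of the deficits under moves of the second stage. -/
def Dfc2P : Prop :=
  ∀ (V Lv : Type) [Fintype V] [Fintype Lv] (k R : ℕ) (D : Dat V Lv k R)
    (lam lam' : Fin k → V → Lv), Fac D.m → (∀ a, D.fl (D.fl a) = a) →
    (∀ c v, D.Fx c v → D.Fx c (D.m c v)) → Val D.m D.σ lam → Val D.m D.σ lam' →
    (∀ c v, ¬ D.MA c v → lam' c v = lam c v) → ∀ l a,
      sgs D.lab D.fl (D.σ l) (res D.y lam' l) a = sgs D.lab D.fl (D.σ l) (res D.y lam l) a ∧
      sgs2 D.lab D.fl (D.σ l) (D.σ D.z) (res D.y lam' l) a true =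
        sgs2 D.lab D.fl (D.σ l) (D.σ D.z) (res D.y lam l) a true -
          ((cA D.m D.lab D.σ D.MA lam' l a (D.fl a) : ℤ) - cA D.m D.lab D.σ D.MA lam l a (D.fl a))

/-- The second stage: the levels other than `z` become balanced on the refined blocks. -/
def Stage2P : Prop := AllD fun V Lv _ _ k R D C φ η ν u B Lp =>
  ∀ (μ ν₁ a' e ρ : ℝ) (om : Fin k → V → Lv ⊕ Lv) (lam : Fin k → V → Lv), D.RD0 om →
    D.RD1 μ ν₁ om → D.RD4 om → D.Near om lam 0 a' →
    (∀ c v, D.Ins c v → lam c v = D.lamOf om c v) →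
    (∀ l a, sgs D.lab D.fl (D.σ l) (res D.y lam l) a = 0) → D.ResOk om lam e →
    0 ≤ μ → μ ≤ 1 → ν₁ ≤ 1 → 0 < e → 0 < ρ → ρ ≤ 1 →
    10 ^ 5 * (8 * (C + 1) * e / φ ^ 2) ≤ ρ * η → 1 ≤ 8 * (C + 1) * e / φ ^ 2 * Lp →
    2 ≤ ρ * u ^ 6 →
    ∃ lam', D.Near om lam' (R ^ 2 * ρ) a' ∧ ∀ l, l ≠ D.z → ∀ a β,
      sgs2 D.lab D.fl (D.σ l) (D.σ D.z) (res D.y lam' l) a β = 0

/-- Expansion inside the refined blocks. -/
def ExpGP : Prop := AllD fun V Lv _ _ k R D C φ η ν u B Lp =>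
  8 * ν ≤ φ → 2 ^ 31 * (C : ℝ) ^ 2 * ν ≤ φ ^ 5 → D.ExpG (φ ^ 5 / (2 ^ 34 * (C + 1)) * k)

/-- Filling all levels. -/
def FinalP : Prop := AllD fun V Lv _ _ k R D C φ η ν u B Lp =>
  ∀ (μ ν₁ a a' γ : ℝ) (om : Fin k → V → Lv ⊕ Lv) (lam : Fin k → V → Lv), D.RD0 om →
    D.RD5 μ ν₁ om → D.Near om lam a a' → D.ResOk om lam (4 * μ * γ) →
    (∀ v l, l ≠ D.z → 0 ≤ res D.y lam l v) →
    (∀ l, l ≠ D.z → ∀ a β, sgs2 D.lab D.fl (D.σ l) (D.σ D.z) (res D.y lam l) a β = 0) →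
    D.ExpG (γ * k) → 0 ≤ μ → 0 ≤ γ → 4 * ν ≤ γ → ν₁ ≤ 2 * μ * γ → Spl D.m D.σ D.y

/-! ### Interface: blocks, regularisation, lists -/

/-- The darts of the double cover between different classes. -/
noncomputable def crs {V : Type} [Fintype V] {k : ℕ} (m : Fin k → V → V)
    (r : V × Bool → V × Bool → Prop) : ℕ :=
  cnt fun e : Fin k × V × Bool => ¬ r e.2 (m e.1 e.2.1, !e.2.2)

/-- The properties of a minimal equivalence relation on the double cover. -/
structure MinR {V : Type} [Fintype V] {k : ℕ} (m : Fin k → V → V)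
    (r : V × Bool → V × Bool → Prop) (φ₀ : ℝ) : Prop where
  eqv : Equivalence r
  sw : ∀ x y : V × Bool, r x y → r (x.1, !x.2) (y.1, !y.2)
  tot : (crs m r : ℝ) ≤ φ₀ * (2 * Fintype.card V) ^ 2
  ref : ∀ (x : V × Bool) (Z : Finset (V × Bool)), (∀ w ∈ Z, r x w) →
    φ₀ / 2 * Z.card * (cnt fun w => r x w ∧ w ∉ Z : ℝ) ≤
      (cnt fun e : Fin k × V × Bool =>
        e.2 ∈ Z ∧ r x (m e.1 e.2.1, !e.2.2) ∧ (m e.1 e.2.1, !e.2.2) ∉ Z : ℝ)
  mov : ∀ v w, (cnt fun c => r (w, true) (m c v, false) : ℝ) ≤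
    (cnt fun c => r (v, true) (m c v, false) : ℝ) + 2 * φ₀ * Fintype.card V

/-- A minimal relation exists. -/
def BlkMinP : Prop :=
  ∀ (V : Type) [Fintype V] (k : ℕ) (m : Fin k → V → V) (φ₀ : ℝ), Fac m → 0 ≤ φ₀ →
    ∃ r, MinR m r φ₀

/-- All its classes are large. -/
def BlkBigP : Prop :=
  ∀ (V : Type) [Fintype V] (k C : ℕ) (m : Fin k → V → V) (r : V × Bool → V × Bool → Prop),
    Fac m → 1 ≤ C → Fintype.card V ≤ C * k → MinR m r (1 / (60 * (C : ℝ) ^ 3)) →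
    ∀ x, k ≤ 2 * cnt fun w => r x w

/-- From classes to labels. -/
def BlkLabP : Prop :=
  ∀ (V : Type) [Fintype V] (k C : ℕ) (m : Fin k → V → V) (r : V × Bool → V × Bool → Prop)
    (φ₀ : ℝ), Fac m → Fintype.card V ≤ C * k → MinR m r φ₀ → (∀ x, k ≤ 2 * cnt fun w => r x w) →
    ∃ (lab : V → Fin (4 * C)) (fl : Fin (4 * C) → Fin (4 * C)), Blk m lab fl (φ₀ / 2)

/-- Every edge colourable graph lies in a one-factorised graph of about the same size. -/
def RegP : Prop :=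
  ∀ (V : Type) [Fintype V] (G : SimpleGraph V) (k : ℕ),
    (∃ f : G.edgeSet → Fin k, ∀ e₁ e₂ : G.edgeSet, e₁ ≠ e₂ →
      (∃ v : V, v ∈ e₁.1 ∧ v ∈ e₂.1) → f e₁ ≠ f e₂) →
    ∃ (W : Type) (_ : Fintype W) (m : Fin k → W → W) (ι : V → W), Fac m ∧
      Fintype.card W ≤ 4 * (Fintype.card V + 2 * k + 1) ∧ Function.Injective ι ∧
      ∀ u v, G.Adj u v → adj m (ι u) (ι v)

/-- From a splitting to a colouring from the lists. -/
def FinP : Prop :=
  ∀ (V W : Type) [Fintype V] [Fintype W] (G : SimpleGraph V) (k : ℕ) (m : Fin k → W → W)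
    (ι : V → W) (q : ℕ) (p : Fin q → ℕ), Fac m → Function.Injective ι →
    (∀ u v, G.Adj u v → adj m (ι u) (ι v)) → Dec m p →
    ∀ (cl : ℕ → Fin q) (L : G.edgeSet → Finset ℕ),
      (∀ e i, p i ≤ ((L e).filter (fun x => cl x = i)).card) →
      ∃ f : G.edgeSet → ℕ, (∀ e, f e ∈ L e) ∧
        ∀ e₁ e₂ : G.edgeSet, e₁ ≠ e₂ → (∃ v : V, v ∈ e₁.1 ∧ v ∈ e₂.1) → f e₁ ≠ f e₂

end Pool.Agent.MP_d20a68_co.T

end

section

/-! Basic counting lemmas for the second half. -/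

set_option autoImplicit false
set_option linter.unusedSectionVars false
set_option linter.unusedVariables false
open Finset
open scoped Classical

namespace Pool.Agent.MP_d20a68_co.T

open Pool.Agent.MP_d20a68_co.Poly

section Cnt

variable {α β : Type} [Fintype α] [Fintype β]

lemma cntS_eq (P : α → Prop) [DecidablePred P] : cnt P = (univ.filter P).card := by
  unfold cnt; congr

lemma cntS_congr {P Q : α → Prop} (h : ∀ x, P x ↔ Q x) : cnt P = cnt Q := by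
  rw [show P = Q from funext fun x => propext (h x)]

lemma cntS_mono {P Q : α → Prop} (h : ∀ x, P x → Q x) : cnt P ≤ cnt Q :=
  card_le_card fun x hx => mem_filter.2 ⟨mem_univ _, h x (mem_filter.1 hx).2⟩

lemma cntS_le_card (P : α → Prop) : cnt P ≤ Fintype.card α := card_le_univ _

lemma cntS_true : cnt (fun _ : α => True) = Fintype.card α := by simp [cnt]

lemma cntS_zero {P : α → Prop} (h : ∀ x, ¬ P x) : cnt P = 0 := by simp [cnt, h]

lemma cntS_eq_zero {P : α → Prop} : cnt P = 0 ↔ ∀ x, ¬ P x := by simp [cnt]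

lemma cntS_split (P Q : α → Prop) :
    cnt P = cnt (fun x => P x ∧ Q x) + cnt (fun x => P x ∧ ¬ Q x) := by
  unfold cnt
  rw [← card_filter_add_card_filter_not (s := univ.filter P) Q, filter_filter, filter_filter]
  congr

lemma cntS_or {P Q : α → Prop} (h : ∀ x, P x → ¬ Q x) :
    cnt (fun x => P x ∨ Q x) = cnt P + cnt Q := by
  rw [cntS_split (fun x => P x ∨ Q x) P]
  congr 1
  · exact cntS_congr fun x => by tauto
  · exact cntS_congr fun x => by have := h x; tauto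

lemma cntS_or_le (P Q : α → Prop) : cnt (fun x => P x ∨ Q x) ≤ cnt P + cnt Q := by
  rw [cntS_split (fun x => P x ∨ Q x) P]
  exact add_le_add (cntS_mono fun x h => h.2) (cntS_mono fun x h => h.1.resolve_left h.2)

lemma cntS_sum (P : α → Prop) : cnt P = ∑ x, if P x then 1 else 0 := by
  unfold cnt; rw [card_filter]

lemma cntS_real (P : α → Prop) : (cnt P : ℝ) = ∑ x, ind (P x) := by
  rw [cntS_sum]; push_cast; rfl

lemma cntS_fiber (P : α → Prop) (f : α → β) : cnt P = ∑ b, cnt fun x => P x ∧ f x = b := by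
  simp only [cntS_sum]
  rw [sum_comm]
  refine sum_congr rfl fun x _ => ?_
  by_cases h : P x <;> simp [h]

lemma cntS_fiber_in {γ : Type} (P : α → Prop) (f : α → γ) (S : Finset γ) :
    cnt (fun x => P x ∧ f x ∈ S) = ∑ b ∈ S, cnt fun x => P x ∧ f x = b := by
  simp only [cntS_sum]
  rw [sum_comm]
  refine sum_congr rfl fun x _ => ?_
  by_cases h : P x <;> by_cases h' : f x ∈ S <;> simp [h, h']

lemma cntS_equiv (e : α ≃ β) (P : β → Prop) : cnt (fun x => P (e x)) = cnt P := by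
  simp only [cntS_sum]
  exact Equiv.sum_comp e fun y => if P y then 1 else 0

lemma cntS_invol (f : α → α) (hf : ∀ x, f (f x) = x) (P : α → Prop) :
    cnt (fun x => P (f x)) = cnt P :=
  cntS_equiv (Function.Involutive.toPerm f hf) P

lemma cntS_le_of_inj {P : α → Prop} {Q : β → Prop} (f : α → β) (h : ∀ x, P x → Q (f x))
    (hi : ∀ x y, P x → P y → f x = f y → x = y) : cnt P ≤ cnt Q :=
  card_le_card_of_injOn f (fun x hx => by
      simpa using h x (by simpa using hx))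
    fun x hx y hy e => hi x y (by simpa using hx) (by simpa using hy) e

lemma cntS_even {P : α → Prop} (f : α → α) (hf : ∀ x, f (f x) = x) (hn : ∀ x, f x ≠ x)
    (hP : ∀ x, P x → P (f x)) : Even (cnt P) := by
  have h1 : ∑ x ∈ univ.filter P, (1 : ZMod 2) = 0 :=
    sum_involution (fun x _ => f x) (fun _ _ => by decide) (fun x _ _ => hn x)
      (fun x hx => mem_filter.2 ⟨mem_univ _, hP x (mem_filter.1 hx).2⟩) fun x _ => hf x
  rw [sum_const, nsmul_eq_mul, mul_one] at h1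
  exact (ZMod.natCast_eq_zero_iff_even).1 h1

lemma indS_nonneg (P : Prop) : 0 ≤ ind P := by unfold ind; split_ifs <;> norm_num
lemma indS_le_one (P : Prop) : ind P ≤ 1 := by unfold ind; split_ifs <;> norm_num
lemma indS_pos {P : Prop} (h : P) : ind P = 1 := if_pos h
lemma indS_neg {P : Prop} (h : ¬ P) : ind P = 0 := if_neg h

end Cnt

variable {V : Type} [Fintype V] {k : ℕ} {m : Fin k → V → V}

lemma ndS_sum (P : Fin k → V → Prop) : nd P = ∑ v, cnt fun c => P c v := by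
  unfold nd
  simp only [cntS_sum]
  rw [Fintype.sum_prod_type, sum_comm]

lemma ndS_sum_in (P : Fin k → V → Prop) (Q : V → Prop) [DecidablePred Q] :
    nd (fun c v => Q v ∧ P c v) = ∑ v ∈ univ.filter Q, cnt fun c => P c v := by
  rw [ndS_sum, sum_filter]
  refine sum_congr rfl fun v _ => ?_
  by_cases h : Q v
  · simp only [h, true_and, if_true]
  · simp only [h, false_and, if_false]; exact cntS_zero fun _ => id

lemma ndS_congr {P Q : Fin k → V → Prop} (h : ∀ c v, P c v ↔ Q c v) : nd P = nd Q :=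
  cntS_congr fun e => h e.1 e.2

lemma ndS_mono {P Q : Fin k → V → Prop} (h : ∀ c v, P c v → Q c v) : nd P ≤ nd Q :=
  cntS_mono fun e => h e.1 e.2

lemma ndS_mate (hf : Fac m) (P : Fin k → V → Prop) : nd (fun c v => P c (m c v)) = nd P :=
  cntS_invol (fun e : Fin k × V => (e.1, m e.1 e.2)) (fun e => by simp only [hf.inv])
    fun e => P e.1 e.2

lemma cntS_le_k (P : Fin k → Prop) : cnt P ≤ k := by simpa using cntS_le_card P

lemma cntS_adj (hf : Fac m) (v : V) (Q : V → Prop) :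
    (cnt fun w => adj m v w ∧ Q w) = cnt fun c => Q (m c v) := by
  refine le_antisymm ?_ (cntS_le_of_inj (fun c => m c v) (fun c h => ⟨⟨c, rfl⟩, h⟩)
    fun c c' _ _ e => hf.inj c c' v e)
  rw [cntS_eq, cntS_eq]
  refine card_le_card_of_surjOn (fun c => m c v) fun w hw => ?_
  obtain ⟨⟨c, rfl⟩, h⟩ := (mem_filter.1 (mem_coe.1 hw)).2
  exact ⟨c, mem_coe.2 (mem_filter.2 ⟨mem_univ _, h⟩), rfl⟩

lemma adjS_symm (hf : Fac m) {u v : V} (h : adj m u v) : adj m v u := by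
  obtain ⟨c, rfl⟩ := h
  exact ⟨c, hf.inv c u⟩

lemma eeS_eb (hf : Fac m) (X Y : Finset V) : ee (adj m) X Y = eb m X Y := by
  unfold ee eb nd
  rw [cntS_eq]
  symm
  refine card_bij (fun e _ => (e.2, m e.1 e.2)) (fun e he => ?_) (fun e _ e' _ h => ?_)
    fun x hx => ?_
  · have := (mem_filter.1 he).2
    exact mem_filter.2 ⟨mem_product.2 this, ⟨e.1, rfl⟩⟩
  · obtain ⟨h1, h2⟩ := Prod.mk.inj h
    exact Prod.ext (hf.inj _ _ e.2 (by rw [h2, h1])) h1
  · obtain ⟨h1, c, h2⟩ := mem_filter.1 hx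
    exact ⟨(c, x.1), mem_filter.2 ⟨mem_univ _, (mem_product.1 h1).1,
      by rw [show m c x.1 = x.2 from h2]; exact (mem_product.1 h1).2⟩, Prod.ext rfl h2⟩

namespace Dat.Hyp

variable {Lv : Type} [Fintype Lv] {R : ℕ} {D : Dat V Lv k R} {C : ℕ} {φ η ν : ℝ} {u B S Lp : ℕ}

lemma kbig (H : D.Hyp C φ η ν u B S Lp) : 16 ^ 8 ≤ k := (Nat.pow_le_pow_left H.u16 8).trans H.sc.1

lemma kpos (H : D.Hyp C φ η ν u B S Lp) : (0 : ℝ) < k := by
  have := H.kbig
  exact_mod_cast (by omega : 0 < k)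

lemma ypos (H : D.Hyp C φ η ν u B S Lp) (l : Lv) : 1 ≤ D.y l :=
  (Nat.one_le_pow _ _ (by have := H.u16; omega)).trans (H.pre.ylo l)

lemma u6 (H : D.Hyp C φ η ν u B S Lp) (l : Lv) : (u : ℝ) ^ 6 ≤ D.y l := by
  exact_mod_cast H.pre.ylo l

lemma yhi (H : D.Hyp C φ η ν u B S Lp) (l : Lv) : 16 * (D.y l : ℝ) ≤ k := by
  exact_mod_cast H.pre.yhi l

lemma fx_mate (H : D.Hyp C φ η ν u B S Lp) (c : Fin k) (v : V) : D.Fx c (D.m c v) ↔ D.Fx c v :=
  ⟨fun h => by have := H.pre.cl _ _ h; rwa [H.fac.inv] at this, H.pre.cl c v⟩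

lemma ins_mate (H : D.Hyp C φ η ν u B S Lp) (c : Fin k) (v : V) :
    D.Ins c (D.m c v) ↔ D.Ins c v := by
  unfold Dat.Ins
  rw [H.fac.inv]
  exact ⟨fun h => by rw [h, H.typ.inv], fun h => by rw [h, H.typ.inv]⟩

lemma cut_mate (H : D.Hyp C φ η ν u B S Lp) (l : Lv) (c : Fin k) (v : V) :
    D.Cut l c (D.m c v) ↔ D.Cut l c v := by
  unfold Dat.Cut
  rw [H.fac.inv]
  exact ne_comm

lemma lt_of_mv (H : D.Hyp C φ η ν u B S Lp) {c : Fin k} {v : V} (h : ¬ D.Fx c v) : v ∈ D.Lt := by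
  by_contra hv
  exact h (H.pre.hfx v hv c)

lemma eta_le (H : D.Hyp C φ η ν u B S Lp) : η ≤ 1 / 16 := by
  have h1 := H.pre.yz
  have h2 := H.yhi D.z
  have h3 := H.kpos
  nlinarith

lemma sum_small (H : D.Hyp C φ η ν u B S Lp) :
    ∑ l ∈ small D.z D.h, (D.y l : ℝ) = k - D.y D.z - D.y D.h := by
  have h1 : (∑ l, (D.y l : ℝ)) = k := by exact_mod_cast H.pre.sumy
  have h2 : small D.z D.h = (univ.erase D.z).erase D.h := by
    ext l; simp [small, and_comm]
  rw [h2, ← h1, ← add_sum_erase univ _ (mem_univ D.z),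
    ← add_sum_erase (univ.erase D.z) _ (mem_erase.2 ⟨H.pre.zh.symm, mem_univ D.h⟩)]
  ring

end Dat.Hyp

end Pool.Agent.MP_d20a68_co.T

end

section

/-! Weighted sums over equidistributed cells. -/

set_option autoImplicit false
set_option linter.unusedSectionVars false
set_option linter.unusedVariables false
open Finset
open scoped Classical

namespace Pool.Agent.MP_d20a68_co.T

open Pool.Agent.MP_d20a68_co.Poly

lemma sumS_cells {α X : Type} [Fintype α] [Fintype X] (P : α → Prop) [DecidablePred P] (b : α → X)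
    (w : X → ℝ) :
    ∑ e ∈ univ.filter P, w (b e) = ∑ x, w x * (cnt fun e => P e ∧ b e = x : ℝ) := by
  simp only [cntS_real, mul_sum]
  rw [sum_comm, sum_filter]
  refine sum_congr rfl fun e _ => ?_
  by_cases h : P e
  · rw [if_pos h, sum_eq_single (b e) (fun x _ hx => by
      rw [indS_neg fun h' => hx h'.2.symm, mul_zero]) (by simp), indS_pos ⟨h, rfl⟩, mul_one]
  · rw [if_neg h]
    exact (sum_eq_zero fun x _ => by rw [indS_neg fun h' => h h'.1, mul_zero]).symm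

lemma cellS {α X : Type} [Fintype α] [Fintype X] (P : α → Prop) [DecidablePred P] (b : α → X)
    (w : X → ℝ) (n M ε : ℝ) (hn : 0 < n)
    (h : ∀ x, |n * (cnt fun e => P e ∧ b e = x : ℝ) - M| ≤ ε) :
    |∑ e ∈ univ.filter P, w (b e) - M / n * ∑ x, w x| ≤ ε / n * ∑ x, |w x| := by
  rw [sumS_cells, mul_sum, mul_sum, ← sum_sub_distrib]
  refine (abs_sum_le_sum_abs _ _).trans (sum_le_sum fun x _ => ?_)
  have e : w x * (cnt fun e => P e ∧ b e = x : ℝ) - M / n * w x =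
      (n * (cnt fun e => P e ∧ b e = x : ℝ) - M) / n * w x := by field_simp
  rw [e, abs_mul, abs_div, abs_of_pos hn]
  exact mul_le_mul_of_nonneg_right (div_le_div_of_nonneg_right (h x) hn.le) (abs_nonneg _)

namespace Dat

variable {V Lv : Type} [Fintype V] [Fintype Lv] {k R : ℕ} (D : Dat V Lv k R) (μ : ℝ) {c : Fin k}
  {v : V}

lemma prob_h (h : ¬ D.Fx c v) : D.prob μ c v (Sum.inl D.h) = D.xh μ c v := by
  simp [Dat.prob, h]

lemma prob_z (h : ¬ D.Fx c v) (hz : D.z ≠ D.h) :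
    D.prob μ c v (Sum.inl D.z) = D.xz μ c v - ∑ l, D.xt μ c v l := by
  simp [Dat.prob, h, hz]

lemma prob_tag (h : ¬ D.Fx c v) (l : Lv) : D.prob μ c v (Sum.inr l) = D.xt μ c v l := by
  simp [Dat.prob, h]

lemma prob_small (h : ¬ D.Fx c v) {l : Lv} (hl : l ∈ small D.z D.h) :
    D.prob μ c v (Sum.inl l) =
      (1 - D.xz μ c v - D.xh μ c v) * (D.y l * ind (D.Cut l c v)) / D.Ye c v := by
  have := (mem_filter.1 hl).2
  simp [Dat.prob, h, this.1, this.2]

lemma xt_cross (h : ¬ D.Ins c v) (l : Lv) : D.xt μ c v l = 0 := by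
  unfold Dat.xt
  rw [indS_neg fun h' => h h'.1, mul_zero]

end Dat

end Pool.Agent.MP_d20a68_co.T

end

section

set_option autoImplicit false
open Finset
open scoped Classical

namespace Pool.Agent.MP_d20a68_co.T

open Pool.Agent.MP_d20a68_co.Poly

theorem planS (hS : SplitP) : PlanP := by
  intro Lv L _ _ h Ls y k act N δ ε hh hk hε ha hN h0 h1 h2 h3 h4 h5 h6
  obtain ⟨E, hE⟩ : ∃ E : L → L → ℤ, ∀ a b, E a b = ∑ l, δ l a b := ⟨_, fun _ _ => rfl⟩
  have E1 : ∀ a b, E b a = -E a b := fun a b => by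
    have := h2 a b
    rw [sum_add_distrib, ← hE, ← hE] at this
    omega
  have E2 : ∀ a b, E a b = δ h a b + ∑ l ∈ Ls, δ l a b := fun a b => by
    rw [hE, ← sum_insert (f := fun l => δ l a b) hh]
    exact (sum_subset (subset_univ _) fun l _ hl => h1 l a b
      (fun e => hl (mem_insert_of_mem e)) fun e => hl (e ▸ mem_insert_self _ _)).symm
  choose n n1 n2 using fun a b => hS Lv Ls y (E a b).toNat (by omega)
  obtain ⟨m, hm⟩ : ∃ m : Lv → L → L → ℕ, ∀ l a b,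
      m l a b = if l ∈ Ls ∧ act a b then n a b l else 0 := ⟨_, fun _ _ _ => rfl⟩
  have m1 : ∀ a b, ∑ l, (m l a b : ℤ) = (E a b).toNat := fun a b => by
    rw [← Nat.cast_sum]
    congr 1
    by_cases h : act a b
    · simp only [hm, h, and_true, sum_ite_mem, univ_inter, n1]
    · simp [hm, h, hE, h0 _ a b h]
  refine ⟨fun l a b => if l ∈ Ls then (-δ l a b).toNat + m l a b else 0,
    fun l a b => if l ∈ Ls then (δ l a b).toNat else 0, m, fun l a b hl => ?_,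
    fun l hl a b => ?_, fun a b => ?_, fun l hl a b hab => ?_⟩
  · rcases hl with hl | hl
    · simp [hm, hl]
    · simp [hm, hl, h0 l a b hl]
  · simp only [if_pos hl]
    omega
  · have : ∀ l, (((if l ∈ Ls then (-δ l a b).toNat + m l a b else 0 : ℕ) : ℤ) -
        ((if l ∈ Ls then (δ l a b).toNat else 0 : ℕ) : ℤ) - m l b a) =
        m l a b - m l b a - if l ∈ Ls then δ l a b else 0 := fun l => by
      by_cases hl : l ∈ Ls
      · simp only [if_pos hl]
        omega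
      · simp [hm, hl]
    simp only [this, sum_sub_distrib, m1, sum_ite_mem, univ_inter]
    have := E1 a b
    have := E2 a b
    omega
  · obtain ⟨c, hc⟩ : ∃ c, c = ε * N a b / k := ⟨_, rfl⟩
    have k0 : (0 : ℝ) < k := by exact_mod_cast hk
    have e : ∀ l, ε * y l * N a b / k = c * y l := fun l => by rw [hc]; ring
    have ek : ε * N a b = c * k := by rw [hc]; field_simp
    obtain ⟨b1, b2⟩ := h3 a b hab l hl
    rw [e] at b1 b2
    have y0 : (0 : ℝ) ≤ y l := Nat.cast_nonneg _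
    have c0 : 0 ≤ c := by
      by_contra hn
      nlinarith
    obtain ⟨W, hW⟩ : ∃ W : ℝ, W = ((∑ l ∈ Ls, y l : ℕ) : ℝ) := ⟨_, rfl⟩
    have W1 : W ≤ k := by rw [hW]; exact_mod_cast h5
    have W2 : (k : ℝ) ≤ 2 * W := by rw [hW]; exact_mod_cast h6
    have X1 : (E a b : ℝ) ≤ 4 * c * W := by
      have s : ∑ l ∈ Ls, (δ l a b : ℝ) ≤ c * W := by
        rw [hW, Nat.cast_sum, mul_sum]
        exact sum_le_sum fun l hl => e l ▸ (le_abs_self _).trans (h3 a b hab l hl).1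
      have := (le_abs_self _).trans (h4 a b hab)
      rw [E2]
      push_cast
      nlinarith
    have X2 : (((E a b).toNat : ℕ) : ℝ) ≤ 4 * c * W := by
      rcases le_total 0 (E a b) with h | h
      · rw [← Int.cast_natCast, Int.toNat_of_nonneg h]; exact X1
      · rw [Int.toNat_eq_zero.2 h, Nat.cast_zero]
        have : 0 ≤ W := by linarith
        positivity
    have b3 : (n a b l : ℝ) * W ≤ ((E a b).toNat : ℝ) * y l + W := by
      rw [hW]; exact_mod_cast n2 a b l hl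
    have b4 : (n a b l : ℝ) ≤ 4 * c * y l + 1 := by
      refine le_of_mul_le_mul_right (b3.trans ?_) (show 0 < W by linarith)
      nlinarith
    have b5 : (((-δ l a b).toNat + (δ l a b).toNat : ℕ) : ℝ) = |(δ l a b : ℝ)| := by
      rw [← Int.cast_natCast, ← Int.cast_abs]
      congr 1
      rcases abs_cases (δ l a b) with h | h <;> omega
    have e' : 11 * ε * y l * N a b / k = 11 * (c * y l) := by rw [hc]; ring
    simp only [hm, hl, hab, and_self, if_true, e']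
    push_cast at b5 ⊢
    linarith

end Pool.Agent.MP_d20a68_co.T

end

section

/-! Changing the levels of chosen edges. -/

set_option autoImplicit false
set_option linter.unusedSectionVars false
set_option linter.unusedVariables false
open Finset
open scoped Classical

namespace Pool.Agent.MP_d20a68_co.T

open Pool.Agent.MP_d20a68_co.Poly

lemma img_SApply {E J : Type} [Fintype E] [Fintype J] (f : J → E) (hf : Function.Injective f)
    (P : E → Prop) : (cnt fun j => P (f j)) = cnt fun d => (∃ j, d = f j) ∧ P d := by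
  unfold cnt
  refine card_bij (fun j _ => f j) (fun j hj => ?_) (fun j _ j' _ h => hf h) fun d hd => ?_
  · simp only [mem_filter, mem_univ, true_and] at hj ⊢
    exact ⟨⟨j, rfl⟩, hj⟩
  · simp only [mem_filter, mem_univ, true_and] at hd ⊢
    obtain ⟨⟨j, rfl⟩, h⟩ := hd
    exact ⟨j, h, rfl⟩

lemma three_SApply {E : Type} [Fintype E] (P A B : E → Prop) (h : ∀ d, A d → ¬ B d) :
    cnt P = (cnt fun d => (¬ A d ∧ ¬ B d) ∧ P d) + (cnt fun d => A d ∧ P d) +
      cnt fun d => B d ∧ P d := by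
  unfold cnt
  simp only [card_filter, ← sum_add_distrib]
  refine sum_congr rfl fun d _ => ?_
  have := h d
  by_cases h1 : A d <;> by_cases h2 : B d <;> by_cases h3 : P d <;> simp_all

theorem applyS : ApplyP := by
  intro E J Lv _ _ φ lam pick dst h1 h2 h3 h4
  have i1 : Function.Injective pick := fun j j' h => h4 j j' (Or.inl h)
  have i2 : Function.Injective fun j => φ (pick j) := fun j j' h => i1 (by
    have := congrArg φ h
    simpa only [h1] using this)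
  have dj : ∀ d, (∃ j, d = pick j) → ¬ ∃ j, d = φ (pick j) := by
    rintro _ ⟨j, rfl⟩ ⟨j', h⟩
    obtain rfl := h4 j j' (Or.inr h)
    exact h2 _ h.symm
  have un : ∀ d j j', (d = pick j ∨ d = φ (pick j)) → (d = pick j' ∨ d = φ (pick j')) →
      j = j' := by
    rintro d j j' (rfl | rfl) (h | h)
    · exact i1 h
    · exact h4 _ _ (Or.inr h)
    · exact (h4 _ _ (Or.inr h.symm)).symm
    · exact i2 h
  obtain ⟨lam', a1, a2⟩ : ∃ lam' : E → Lv,
      (∀ d j, (d = pick j ∨ d = φ (pick j)) → lam' d = dst j) ∧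
        ∀ d, (¬ ∃ j, d = pick j ∨ d = φ (pick j)) → lam' d = lam d :=
    ⟨fun d => if h : ∃ j, d = pick j ∨ d = φ (pick j) then dst h.choose else lam d,
      fun d j h => by
        have h' : ∃ j, d = pick j ∨ d = φ (pick j) := ⟨j, h⟩
        simp only [dif_pos h']
        rw [un d _ j h'.choose_spec h],
      fun d h => by simp only [dif_neg h]⟩
  have fl : ∀ d j, (d = pick j ∨ d = φ (pick j)) → (φ d = pick j ∨ φ d = φ (pick j)) := by
    rintro d j (rfl | rfl)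
    · exact Or.inr rfl
    · exact Or.inl (h1 _)
  refine ⟨lam', fun d => ?_, fun j => a1 _ j (Or.inl rfl), fun d h => a2 d ?_, fun Q => ?_⟩
  · by_cases h : ∃ j, d = pick j ∨ d = φ (pick j)
    · obtain ⟨j, h⟩ := h
      rw [a1 d j h, a1 _ j (fl d j h)]
    · rw [a2 d h, a2 (φ d) fun ⟨j, hj⟩ => h ⟨j, by simpa only [h1] using fl _ j hj⟩, h3]
  · rintro ⟨j, hj | hj⟩
    exacts [(h j).1 hj, (h j).2 hj]
  · have e1 := three_SApply (fun d => Q d (lam' d)) _ _ dj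
    have e2 := three_SApply (fun d => Q d (lam d)) _ _ dj
    rw [← img_SApply pick i1, ← img_SApply _ i2] at e1 e2
    have e3 : (cnt fun d => ((¬ ∃ j, d = pick j) ∧ ¬ ∃ j, d = φ (pick j)) ∧ Q d (lam' d)) =
        cnt fun d => ((¬ ∃ j, d = pick j) ∧ ¬ ∃ j, d = φ (pick j)) ∧ Q d (lam d) := by
      congr 1
      funext d
      refine propext (and_congr_right fun h => ?_)
      rw [a2 d fun ⟨j, hj⟩ => hj.elim (fun e => h.1 ⟨j, e⟩) fun e => h.2 ⟨j, e⟩]
    have e4 : ∀ j, lam' (pick j) = dst j := fun j => a1 _ j (Or.inl rfl)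
    have e5 : ∀ j, lam' (φ (pick j)) = dst j := fun j => a1 _ j (Or.inr rfl)
    simp only [e4, e5, h3] at e1 e2
    omega

end Pool.Agent.MP_d20a68_co.T

end

section

/-! Basic properties of the rounding and the boundaries in the tagged graphs. -/

set_option autoImplicit false
set_option linter.unusedSectionVars false
set_option linter.unusedVariables false
open Finset
open scoped Classical

namespace Pool.Agent.MP_d20a68_co.T

open Pool.Agent.MP_d20a68_co.Poly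

lemma sum_SRd05 {V Lv : Type} [Fintype V] [Fintype Lv] {k R : ℕ} (D : Dat V Lv k R) (μ : ℝ)
    (l : Lv) (hl : l ≠ D.z) (U : Finset V) :
    ∑ e ∈ univ.filter (fun e : Fin k × V =>
      ¬ D.Fx e.1 e.2 ∧ D.σ l e.2 = true ∧ D.Xr U e.1 e.2), D.prob μ e.1 e.2 (Sum.inr l) =
    8 * μ * D.y l / k *
      (nd fun c v => D.MI c v ∧ D.Cut D.z c v ∧ D.Sd l true false c v ∧ D.Xr U c v : ℝ) := by
  unfold nd
  rw [sum_filter, cntS_real, mul_sum]
  refine sum_congr rfl fun e _ => ?_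
  by_cases h : ¬ D.Fx e.1 e.2 ∧ D.σ l e.2 = true ∧ D.Xr U e.1 e.2
  · rw [if_pos h, D.prob_tag μ h.1 l]
    unfold Dat.xt
    congr 2
    refine propext ⟨fun h' => ⟨⟨h.1, h'.1⟩, h'.2.1, ⟨h.2.1, ?_⟩, h.2.2⟩,
      fun h' => ⟨h'.1.2, h'.2.1, ?_, hl⟩⟩
    · have h3 : D.σ l e.2 ≠ D.σ l (D.m e.1 e.2) := h'.2.2.1
      rw [h.2.1] at h3
      exact Bool.eq_false_iff.2 fun h4 => h3 h4.symm
    · show D.σ l e.2 ≠ D.σ l (D.m e.1 e.2)
      rw [h'.2.2.1.1, h'.2.2.1.2]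
      decide
  · rw [if_neg h, indS_neg fun h' => h ⟨h'.1.1, h'.2.2.1.1, h'.2.2.2⟩, mul_zero]

theorem rd05S : Rd05P := by
  intro V Lv _ _ k R D C φ η ν u B S Lp H ν' ν₁ om hP hA h0 h1
  refine ⟨⟨hA.sym, fun c v hf => hP.fx c v _ (hA.pos c v) hf,
    fun c v l e => hP.cutl c v l (e ▸ hA.pos c v),
    fun c v l e => hP.tag c v l (e ▸ hA.pos c v)⟩, ⟨fun l hl U => ?_⟩⟩
  have h2 := hA.a3 l U
  rw [sum_SRd05 D (η / 4) l hl U] at h2
  have h3 : (nd fun c v => (¬ D.Fx c v ∧ D.σ l v = true ∧ D.Xr U c v) ∧ om c v = Sum.inr l : ℝ) ≤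
      (nd fun c v => om c v = Sum.inr l ∧ D.σ l v = true ∧ D.Xr U c v : ℝ) := by
    refine Nat.cast_le.2 (ndS_mono fun c v h => ?_)
    exact ⟨h.2, h.1.2.1, h.1.2.2⟩
  have h4 : ν' * (u : ℝ) ^ 6 ≤ ν₁ * D.y l :=
    mul_le_mul h1 (H.u6 l) (by positivity) (h0.trans h1)
  have h5 : ν' * (u : ℝ) ^ 6 * U.card ≤ ν₁ * D.y l * U.card :=
    mul_le_mul_of_nonneg_right h4 (Nat.cast_nonneg _)
  linarith

end Pool.Agent.MP_d20a68_co.T

end

section

/-! The nets vanish on closed sets of labels. -/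

set_option autoImplicit false
set_option linter.unusedSectionVars false
set_option linter.unusedVariables false
open Finset
open scoped Classical

namespace Pool.Agent.MP_d20a68_co.T

open Pool.Agent.MP_d20a68_co.Poly

lemma sgs_sum_SG1 {V : Type} [Fintype V] {R : ℕ} (lab : V → Fin R) (fl : Fin R → Fin R)
    (hfl : ∀ a, fl (fl a) = a) (τ : V → Bool) (f : V → ℤ) (K : Finset (Fin R)) :
    ∑ a ∈ K, sgs lab fl τ f a =
      ∑ v, (if τ v then (if lab v ∈ K then 1 else 0) else -(if fl (lab v) ∈ K then 1 else 0)) *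
        f v := by
  simp only [sgs, sum_filter, ← sum_sub_distrib]
  rw [sum_comm]
  refine sum_congr rfl fun v _ => ?_
  have h1 : ∀ a, lab v = fl a ↔ fl (lab v) = a := fun a =>
    ⟨fun h => by rw [h, hfl], fun h => by rw [← h, hfl]⟩
  cases hτ : τ v
  · simp only [h1]
    by_cases hK : fl (lab v) ∈ K
    · simp [hK]
    · simp [hK]
  · by_cases hK : lab v ∈ K
    · simp [hK]
    · simp [hK]

lemma closed_sum_SG1 {α : Type} [Fintype α] (r : α → α → Prop) (hr : Equivalence r) (g : α → ℤ)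
    (hg : ∀ a, ∑ b ∈ univ.filter (r a), g b = 0) (K : Finset α)
    (hK : ∀ a b, r a b → a ∈ K → b ∈ K) : ∑ a ∈ K, g a = 0 := by
  induction K using Finset.strongInduction with
  | H K ih =>
    rcases K.eq_empty_or_nonempty with rfl | ⟨a, ha⟩
    · simp
    have hsub : univ.filter (r a) ⊆ K := fun b hb => hK a b (mem_filter.1 hb).2 ha
    rw [← sum_sdiff hsub, hg a, add_zero]
    refine ih _ (sdiff_ssubset hsub ⟨a, mem_filter.2 ⟨mem_univ _, hr.refl a⟩⟩) ?_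
    intro x y hxy hx
    rw [mem_sdiff] at hx ⊢
    refine ⟨hK x y hxy hx.1, fun hy => hx.2 ?_⟩
    exact mem_filter.2 ⟨mem_univ _, hr.trans (mem_filter.1 hy).2 (hr.symm hxy)⟩

lemma dart_sum_SG1 {V : Type} [Fintype V] {k : ℕ} (P : Fin k → V → Prop) (w : V → ℤ) :
    ∑ e ∈ univ.filter (fun e : Fin k × V => P e.1 e.2), w e.2 =
      ∑ v, w v * ((cnt fun c => P c v : ℕ) : ℤ) := by
  rw [sum_filter, Fintype.sum_prod_type, sum_comm]
  refine sum_congr rfl fun v _ => ?_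
  rw [← sum_filter (s := univ) (p := fun c => P c v) (f := fun _ => w v), sum_const, cnt,
    nsmul_eq_mul, mul_comm]

theorem g1S : G1P := by
  intro V Lv _ _ k R D C φ η ν u B S Lp H l K hK
  refine closed_sum_SG1 D.r H.typ.eqv _ (fun a => ?_) K ?_
  · have h1 := H.pre.clu l a
    have h2 := dart_sum_SG1 (fun c v => D.Fx c v ∧ D.l0 c v = l)
      (fun v => nu D.r D.fl a (D.lab v) (D.σ l v))
    simp only [Dat.gI]
    rw [sgs_sum_SG1 _ _ H.typ.inv]
    have h3 : ∀ v, (if D.σ l v then (if D.lab v ∈ univ.filter (D.r a) then (1 : ℤ) else 0) else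
        -(if D.fl (D.lab v) ∈ univ.filter (D.r a) then 1 else 0)) =
        nu D.r D.fl a (D.lab v) (D.σ l v) := fun v => by simp [nu]
    simp only [h3, mul_sub, sum_sub_distrib]
    rw [← h2, ← sum_mul, mul_comm, h1]
    convert sub_self _
  · have key : ∀ x y, Relation.EqvGen (fun x y => ¬ D.poor x (D.fl y)) x y → (x ∈ K ↔ y ∈ K) := by
      intro x y h
      induction h with
      | rel x y h =>
        by_cases hxy : D.fl y = D.fl x
        · have : y = x := by rw [← H.typ.inv y, hxy, H.typ.inv]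
          rw [this]
        · have := hK x (D.fl y) ⟨h, hxy⟩
          rwa [H.typ.inv] at this
      | refl x => rfl
      | symm x y _ ih => exact ih.symm
      | trans x y z _ _ ih1 ih2 => exact ih1.trans ih2
    intro a b hab ha
    exact (key a b (H.typ.gen a b hab)).1 ha

end Pool.Agent.MP_d20a68_co.T

end

section

/-! The missing degrees. -/

set_option autoImplicit false
set_option linter.unusedSectionVars false
set_option linter.unusedVariables false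
open Finset
open scoped Classical

namespace Pool.Agent.MP_d20a68_co.T

open Pool.Agent.MP_d20a68_co.Poly

variable {V Lv : Type} [Fintype V] [Fintype Lv] {k R : ℕ} {D : Dat V Lv k R}

lemma three_SRes (D : Dat V Lv k R) (v : V) (P : Fin k → Prop) :
    (cnt P : ℝ) = (cnt fun c => D.Fx c v ∧ P c : ℝ) + (cnt fun c => D.MI c v ∧ P c : ℝ) +
      (cnt fun c => D.MC c v ∧ P c : ℝ) := by
  simp only [cntS_real, ← sum_add_distrib]
  refine sum_congr rfl fun c _ => ?_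
  by_cases h1 : D.Fx c v <;> by_cases h2 : D.Ins c v <;> by_cases h3 : P c <;>
    simp [ind, Dat.MI, Dat.MC, h1, h2, h3]

lemma key_SRes {C : ℕ} {φ η ν : ℝ} {u B S Lp : ℕ} (H : D.Hyp C φ η ν u B S Lp) {μ ν₁ a a' : ℝ}
    {om : Fin k → V → Lv ⊕ Lv} {lam : Fin k → V → Lv} (h1 : D.RD1 μ ν₁ om)
    (hn : D.Near om lam a a') {v : V} (hv : v ∈ D.Lt)
    (hF : (cnt fun c => D.Fx c v : ℝ) ≤ ν * k) {l : Lv} (hl : l ≠ D.z) :
    |(res D.y lam l v : ℝ) - μ * (D.y l * (cnt fun c => D.MI c v : ℝ) / k)| ≤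
      (ν + 2 * ν₁ + a + a') * D.y l := by
  have hk := H.kpos
  have hy : (0 : ℝ) ≤ D.y l := Nat.cast_nonneg _
  have e1 := three_SRes D v fun c => lam c v = l
  have e2 := three_SRes D v fun _ => True
  rw [cntS_true, Fintype.card_fin] at e2
  simp only [and_true] at e2
  rw [cntS_congr (P := fun c => D.Fx c v ∧ lam c v = l) (Q := fun c => D.Fx c v ∧ D.l0 c v = l)
    fun c => and_congr_right fun g => by rw [hn.fx c v g]] at e1
  have f1 := H.pre.load v hv l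
  have f0 : (0 : ℝ) ≤ (cnt fun c => D.Fx c v ∧ D.l0 c v = l : ℝ) := Nat.cast_nonneg _
  have a1 := abs_le.1 (hn.nI v l hl)
  have a2 := abs_le.1 (hn.nC v l)
  have a3 := abs_le.1 (h1.dI v hv l hl)
  have a4 := abs_le.1 (h1.dC v hv l)
  have g0 : (0 : ℝ) ≤ D.y l * (cnt fun c => D.Fx c v : ℝ) / k := by positivity
  have g1 : D.y l * (cnt fun c => D.Fx c v : ℝ) / k ≤ ν * D.y l := by
    rw [div_le_iff₀ hk]
    nlinarith [mul_le_mul_of_nonneg_left hF hy]
  have g2 : D.y l * (cnt fun c => D.Fx c v : ℝ) / k + D.y l * (cnt fun c => D.MI c v : ℝ) / k +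
      D.y l * (cnt fun c => D.MC c v : ℝ) / k = D.y l := by
    rw [← add_div, ← add_div, ← mul_add, ← mul_add, ← e2, mul_div_assoc, div_self hk.ne', mul_one]
  have g3 : (1 - μ) * D.y l * (cnt fun c => D.MI c v : ℝ) / k =
      D.y l * (cnt fun c => D.MI c v : ℝ) / k - μ * (D.y l * (cnt fun c => D.MI c v : ℝ) / k) := by
    ring
  rw [g3] at a3
  unfold res
  push_cast
  rw [e1, abs_le]
  constructor <;> linarith [a1.1, a1.2, a2.1, a2.2, a3.1, a3.2, a4.1, a4.2]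

theorem resS (hD : DegP) : ResP := by
  intro V Lv _ _ k R D C φ η ν u B S Lp H μ ν₁ a a' om lam h0 h1 hn m0 m1
  obtain ⟨d1, d2, -⟩ := hD V Lv k R D C φ η ν u B S Lp H
  have hk := H.kpos
  have hν := H.ν0
  have out : ∀ v, v ∉ D.Lt → ∀ l, res D.y lam l v = 0 := fun v hv l => by
    rw [res, cntS_congr (P := fun c => lam c v = l) (Q := fun c => D.l0 c v = l)
      fun c => by rw [hn.fx c v (H.pre.hfx v hv c)], H.pre.hdeg v hv l, sub_self]
  refine ⟨⟨fun v hv l hl => ?_, out⟩, fun b1 b2 v l hl => ?_⟩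
  · have e1 := abs_le.1 (key_SRes H h1 hn hv (d2 v hv) hl)
    have e2 := abs_le.1 (h1.dT v hv l hl)
    have e3 : 2 * μ * D.y l * (cnt fun c => D.MI c v : ℝ) / k =
        2 * (μ * (D.y l * (cnt fun c => D.MI c v : ℝ) / k)) := by ring
    have e4 : 0 ≤ ν * D.y l := by positivity
    rw [e3] at e2
    rw [abs_le]
    constructor <;> linarith [e1.1, e1.2, e2.1, e2.2]
  by_cases hv : v ∈ D.Lt
  swap
  · exact (out v hv l).ge
  have hy : (0 : ℝ) ≤ D.y l := Nat.cast_nonneg _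
  have e1 := (abs_le.1 (key_SRes H h1 hn hv (d2 v hv) hl)).1
  have e2 : (cnt fun c => D.Ins c v : ℝ) ≤
      (cnt fun c => D.Fx c v : ℝ) + (cnt fun c => D.MI c v : ℝ) := by
    exact_mod_cast (cntS_mono fun c g => (em (D.Fx c v)).imp id fun g' => ⟨g', g⟩).trans
      (cntS_or_le (fun c => D.Fx c v) fun c => D.MI c v)
  have e3 : φ / 8 * k ≤ (cnt fun c => D.MI c v : ℝ) := by
    nlinarith [d1 v, d2 v hv, mul_le_mul_of_nonneg_right b1 hk.le]
  have e4 : φ / 8 * D.y l ≤ D.y l * (cnt fun c => D.MI c v : ℝ) / k := by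
    rw [le_div_iff₀ hk]
    nlinarith [mul_le_mul_of_nonneg_left e3 hy]
  have e5 := mul_le_mul_of_nonneg_left e4 m0
  have e6 := mul_le_mul_of_nonneg_right b2 hy
  have e7 : 0 ≤ ν * D.y l := by positivity
  have e8 : (0 : ℝ) ≤ (res D.y lam l v : ℝ) := by nlinarith
  exact_mod_cast e8

end Pool.Agent.MP_d20a68_co.T

end

section

/-! An identity for the refined deficits. -/

set_option autoImplicit false
set_option linter.unusedSectionVars false
set_option linter.unusedVariables false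
open Finset
open scoped Classical

namespace Pool.Agent.MP_d20a68_co.T

open Pool.Agent.MP_d20a68_co.Poly

variable {V Lv : Type} [Fintype V] [Fintype Lv] {k R : ℕ}

/-- The weight of a vertex. -/
noncomputable def wt_SId2 (lab : V → Fin R) (fl : Fin R → Fin R) (τ : V → Bool) (a : Fin R)
    (v : V) : ℤ := ((if lab v = a then 1 else 0) + if lab v = fl a then 1 else 0) * sgz (τ v)

lemma res_SId2 (y : Lv → ℕ) (lam : Fin k → V → Lv) (hy : ∑ l, y l = k) (v : V) :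
    ∑ l, res y lam l v = 0 := by
  have h1 := cntS_fiber (fun _ : Fin k => True) (fun c => lam c v)
  have h2 : (cnt fun _ : Fin k => True) = k := by simp [cnt]
  simp only [true_and] at h1
  unfold res
  rw [sum_sub_distrib, ← Nat.cast_sum, ← Nat.cast_sum, hy, ← h1, h2, sub_self]

lemma sgs_SId2 (lab : V → Fin R) (fl : Fin R → Fin R) (τ : V → Bool) (f : V → ℤ) (a : Fin R)
    (ha : fl (fl a) = a) :
    sgs lab fl τ f a + sgs lab fl τ f (fl a) = ∑ v, wt_SId2 lab fl τ a v * f v := by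
  unfold sgs wt_SId2
  simp only [sum_filter, ha, ← sum_sub_distrib, ← sum_add_distrib]
  refine sum_congr rfl fun v _ => ?_
  cases τ v <;> simp only [sgz, Bool.false_eq_true, Bool.true_eq_false, and_true, and_false,
    if_true, if_false] <;> split_ifs <;> ring

lemma sgs2_SId2 (lab : V → Fin R) (fl : Fin R → Fin R) (τ τ₀ : V → Bool) (f : V → ℤ) (a : Fin R)
    (ha : fl (fl a) = a) :
    2 * (sgs2 lab fl τ τ₀ f a true + sgs2 lab fl τ τ₀ f (fl a) true) =
      ∑ v, wt_SId2 lab fl τ₀ a v * f v + ∑ v, wt_SId2 lab fl τ a v * f v := by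
  unfold sgs2 wt_SId2
  simp only [sum_filter, ha, ← sum_sub_distrib, ← sum_add_distrib, mul_sum]
  refine sum_congr rfl fun v _ => ?_
  cases τ v <;> cases τ₀ v <;> simp only [sgz, Bool.false_eq_true, Bool.true_eq_false, and_true,
    and_false, and_self, Bool.not_true, if_true, if_false] <;> split_ifs <;> ring

theorem id2S : Id2P := by
  intro V Lv _ _ k R D lam hfl hy hs a
  have h1 : ∑ l, ∑ v, wt_SId2 D.lab D.fl (D.σ D.z) a v * res D.y lam l v = 0 := by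
    rw [sum_comm]
    exact sum_eq_zero fun v _ => by rw [← mul_sum, res_SId2 D.y lam hy, mul_zero]
  have h2 : ∀ l, ∑ v, wt_SId2 D.lab D.fl (D.σ l) a v * res D.y lam l v = 0 := fun l => by
    rw [← sgs_SId2 _ _ _ _ _ (hfl a), hs, hs, add_zero]
  rw [← sum_erase_add _ _ (mem_univ D.z), h2, add_zero] at h1
  refine (mul_eq_zero.1 ?_).resolve_left (two_ne_zero (α := ℤ))
  rw [mul_sum, ← h1]
  exact sum_congr rfl fun l _ => by rw [sgs2_SId2 _ _ _ _ _ _ (hfl a), h2, add_zero]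

end Pool.Agent.MP_d20a68_co.T

end

section

/-! The refined deficits are small. -/

set_option autoImplicit false
set_option linter.unusedSectionVars false
set_option linter.unusedVariables false
open Finset
open scoped Classical

namespace Pool.Agent.MP_d20a68_co.T

open Pool.Agent.MP_d20a68_co.Poly

theorem bool_SBd2 {x y b : Bool} (h : x ≠ y) : x = b ↔ y = !b := by
  cases x <;> cases y <;> cases b <;> simp_all

theorem abs_SBd2 {V : Type} [Fintype V] (A B : Finset V) (hd : Disjoint A B) (f g : V → ℝ)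
    (t : ℝ) (ht : 0 ≤ t) (h : ∀ v, |2 * f v - g v| ≤ t) (hs : ∑ v ∈ A, g v = ∑ v ∈ B, g v) :
    |∑ v ∈ A, f v - ∑ v ∈ B, f v| ≤ Fintype.card V * t / 2 := by
  have h1 : ∀ S : Finset V, |2 * ∑ v ∈ S, f v - ∑ v ∈ S, g v| ≤ S.card * t := fun S => by
    rw [mul_sum, ← sum_sub_distrib]
    refine (abs_sum_le_sum_abs _ _).trans ?_
    refine (sum_le_sum fun v _ => h v).trans ?_
    rw [sum_const, nsmul_eq_mul]
  have h2 : (A.card : ℝ) + B.card ≤ Fintype.card V := by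
    have := card_le_univ (A ∪ B)
    rw [card_union_of_disjoint hd] at this
    exact_mod_cast this
  have h3 := abs_le.1 (h1 A)
  have h4 := abs_le.1 (h1 B)
  have h5 := mul_le_mul_of_nonneg_right h2 ht
  rw [abs_le]
  constructor <;> nlinarith [h3.1, h3.2, h4.1, h4.2]

theorem bd2S : Bd2P := by
  intro V Lv _ _ k R D C φ η ν u B S Lp H e om lam h0 hr he l hl a β
  have hy : (0 : ℝ) ≤ D.y l := Nat.cast_nonneg _
  have h1 : ∀ v, |2 * (res D.y lam l v : ℝ) - (cnt fun c => om c v = Sum.inr l : ℝ)| ≤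
      e * D.y l := fun v => by
    by_cases hv : v ∈ D.Lt
    · exact hr.app v hv l hl
    · rw [hr.out v hv l, cntS_zero fun c hc => hv (H.lt_of_mv (h0.tag c v l hc).1.1)]
      simpa using mul_nonneg he hy
  have h2 : ∑ v ∈ univ.filter (fun v => D.lab v = a ∧ D.σ l v = true ∧ D.σ D.z v = β),
      (cnt fun c => om c v = Sum.inr l) =
      ∑ v ∈ univ.filter (fun v => D.lab v = D.fl a ∧ D.σ l v = false ∧ D.σ D.z v = !β),
      (cnt fun c => om c v = Sum.inr l) := by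
    rw [← ndS_sum_in (fun c v => om c v = Sum.inr l), ← ndS_sum_in (fun c v => om c v = Sum.inr l),
      ← ndS_mate H.fac (fun c v => (D.lab v = D.fl a ∧ D.σ l v = false ∧ D.σ D.z v = !β) ∧
        om c v = Sum.inr l)]
    refine ndS_congr fun c v => ?_
    rw [h0.sym]
    refine and_congr_left fun hc => ?_
    obtain ⟨⟨-, hi⟩, hz, hc', -⟩ := h0.tag c v l hc
    have hi' : D.lab (D.m c v) = D.fl (D.lab v) := hi
    refine and_congr ?_ (and_congr (bool_SBd2 hc') (bool_SBd2 hz))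
    rw [hi']
    exact ⟨fun h => by rw [h], fun h => by rw [← H.typ.inv (D.lab v), h, H.typ.inv]⟩
  have h3 := abs_SBd2 (univ.filter (fun v => D.lab v = a ∧ D.σ l v = true ∧ D.σ D.z v = β))
    (univ.filter (fun v => D.lab v = D.fl a ∧ D.σ l v = false ∧ D.σ D.z v = !β))
    (disjoint_filter.2 fun v _ h h' => by simp [h.2.1] at h')
    (fun v => (res D.y lam l v : ℝ)) (fun v => (cnt fun c => om c v = Sum.inr l : ℝ))
    (e * D.y l) (mul_nonneg he hy) h1 (by exact_mod_cast h2)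
  have h4 : (Fintype.card V : ℝ) ≤ C * k := by exact_mod_cast H.card
  have h5 := mul_le_mul_of_nonneg_right h4 (mul_nonneg he hy)
  unfold sgs2
  push_cast
  refine h3.trans ?_
  linarith

end Pool.Agent.MP_d20a68_co.T

end

section

/-! The change of the deficits under moves of the second stage. -/

set_option autoImplicit false
set_option linter.unusedSectionVars false
set_option linter.unusedVariables false
open Finset
open scoped Classical

namespace Pool.Agent.MP_d20a68_co.T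

open Pool.Agent.MP_d20a68_co.Poly

section

variable {V Lv : Type} [Fintype V] [Fintype Lv] {k R : ℕ}

lemma sum_SDfc2 (y : Lv → ℕ) (M : Fin k → V → Prop) {lam lam' : Fin k → V → Lv}
    (h : ∀ c v, ¬ M c v → lam' c v = lam c v) (l : Lv) (Q : V → Prop) [DecidablePred Q] :
    ∑ v ∈ univ.filter Q, res y lam' l v = ∑ v ∈ univ.filter Q, res y lam l v +
      (nd fun c v => Q v ∧ lam c v = l ∧ M c v : ℕ) -
      (nd fun c v => Q v ∧ lam' c v = l ∧ M c v : ℕ) := by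
  rw [ndS_sum_in (fun c v => lam c v = l ∧ M c v), ndS_sum_in (fun c v => lam' c v = l ∧ M c v),
    Nat.cast_sum, Nat.cast_sum, ← sum_add_distrib, ← sum_sub_distrib]
  refine sum_congr rfl fun v _ => ?_
  have h1 := cntS_split (fun c => lam c v = l) fun c => M c v
  have h2 := cntS_split (fun c => lam' c v = l) fun c => M c v
  have h3 : (cnt fun c => lam' c v = l ∧ ¬ M c v) = cnt fun c => lam c v = l ∧ ¬ M c v :=
    cntS_congr fun c => and_congr_left fun hc => by rw [h c v hc]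
  unfold res
  omega

variable {D : Dat V Lv k R}

lemma ma_SDfc2 (hf : Fac D.m) (hfl : ∀ a, D.fl (D.fl a) = a)
    (hx : ∀ c v, D.Fx c v → D.Fx c (D.m c v)) {c : Fin k} {v : V} (h : D.MA c v) :
    D.MA c (D.m c v) := by
  obtain ⟨⟨h1, h2⟩, h3, h4⟩ := h
  refine ⟨⟨fun e => h1 ?_, ?_⟩, h4, ?_⟩
  · have := hx _ _ e
    rwa [hf.inv] at this
  · unfold Dat.Ins at h2 ⊢
    rw [hf.inv, h2, hfl]
  · rwa [hf.inv]

lemma mate_SDfc2 (hf : Fac D.m) (hfl : ∀ a, D.fl (D.fl a) = a)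
    (hx : ∀ c v, D.Fx c v → D.Fx c (D.m c v)) {mu : Fin k → V → Lv} (hv : Val D.m D.σ mu) (l : Lv)
    (a : Fin R) : (nd fun c v => (D.lab v = D.fl a ∧ D.σ l v = false) ∧ mu c v = l ∧ D.MA c v) =
      nd fun c v => (D.lab v = a ∧ D.σ l v = true) ∧ mu c v = l ∧ D.MA c v := by
  rw [← ndS_mate hf]
  refine ndS_congr fun c v => ⟨?_, ?_⟩
  · rintro ⟨⟨h1, h2⟩, h3, h4⟩
    have h5 := ma_SDfc2 hf hfl hx h4
    rw [hf.inv] at h5
    rw [hv.1] at h3
    have h6 := hv.2 c v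
    have h7 : D.lab (D.m c v) = D.fl (D.lab v) := h5.1.2
    rw [h3, h2] at h6
    refine ⟨⟨?_, by simpa using h6⟩, h3, h5⟩
    rw [← hfl (D.lab v), ← h7, h1, hfl]
  · rintro ⟨⟨h1, h2⟩, h3, h4⟩
    have h6 := hv.2 c v
    have h7 : D.lab (D.m c v) = D.fl (D.lab v) := h4.1.2
    rw [h3, h2] at h6
    exact ⟨⟨by rw [h7, h1], by simpa using h6.symm⟩, by rw [hv.1, h3], ma_SDfc2 hf hfl hx h4⟩

lemma ca_SDfc2 (mu : Fin k → V → Lv) (l : Lv) (a : Fin R) :
    (nd fun c v => (D.lab v = a ∧ D.σ l v = true ∧ D.σ D.z v = true) ∧ mu c v = l ∧ D.MA c v) =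
      cA D.m D.lab D.σ D.MA mu l a (D.fl a) :=
  ndS_congr fun c v => ⟨fun h => ⟨h.2.2, h.2.1, h.1.2.1, h.1.1, h.1.1 ▸ h.2.2.1.2⟩,
    fun h => ⟨⟨h.2.2.2.1, h.2.2.1, h.1.2.1⟩, h.2.1, h.1⟩⟩

lemma zero_SDfc2 (mu : Fin k → V → Lv) (l : Lv) (a : Fin R) :
    (nd fun c v => (D.lab v = D.fl a ∧ D.σ l v = false ∧ D.σ D.z v = !true) ∧ mu c v = l ∧
      D.MA c v) = 0 :=
  cntS_zero fun e h => by
    have h1 := h.1.2.2
    rw [h.2.2.2.1] at h1
    simp at h1

end

theorem dfc2S : Dfc2P := by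
  intro V Lv _ _ k R D lam lam' hf hfl hx hv hv' h l a
  constructor
  · unfold sgs
    rw [sum_SDfc2 D.y D.MA h, sum_SDfc2 D.y D.MA h, mate_SDfc2 hf hfl hx hv,
      mate_SDfc2 hf hfl hx hv']
    ring
  · unfold sgs2
    rw [sum_SDfc2 D.y D.MA h, sum_SDfc2 D.y D.MA h, ca_SDfc2, ca_SDfc2, zero_SDfc2, zero_SDfc2]
    push_cast
    ring

end Pool.Agent.MP_d20a68_co.T

end

section

/-! Regularisation of an edge coloured graph. -/

set_option autoImplicit false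
set_option linter.unusedSectionVars false
set_option linter.unusedVariables false
open Finset
open scoped Classical

namespace Pool.Agent.MP_d20a68_co.T

open Pool.Agent.MP_d20a68_co.Poly

/-- the partner function on four copies -/
noncomputable def mm_SReg {Z : Type} [AddCommGroup Z] (g : Z → Z) (a : Z) :
    Z × Bool × Bool → Z × Bool × Bool
  | (x, false, false) => if g x = x then (x + a, true, false) else (g x, false, false)
  | (x, false, true) => if g x = x then (x + a + a, true, true) else (g x, false, true)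
  | (y, true, false) => if g (y - a) = y - a then (y - a, false, false) else (y + a, true, true)
  | (s, true, true) => if g (s - a - a) = s - a - a then (s - a - a, false, true)
      else (s - a, true, false)

lemma fac_SReg {Z : Type} [AddCommGroup Z] [Fintype Z] {k : ℕ} (g : Fin k → Z → Z) (a : Fin k → Z)
    (hg : ∀ c x, g c (g c x) = x) (hc : ∀ c c' x, g c x ≠ x → g c x = g c' x → c = c')
    (ha : ∀ c c', a c + a c = a c' + a c' → c = c') : Fac fun c => mm_SReg (g c) (a c) := by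
  have ha' : ∀ c c', a c = a c' → c = c' := fun c c' h => ha c c' (by rw [h])
  refine ⟨fun c v => ?_, fun c v => ?_, fun c c' v h => ?_⟩
  · rcases v with ⟨x, _ | _, _ | _⟩
    · by_cases h : g c x = x
      · simp [mm_SReg, h]
      · simp [mm_SReg, h, hg, Ne.symm h]
    · by_cases h : g c x = x
      · simp [mm_SReg, h]
      · simp [mm_SReg, h, hg, Ne.symm h]
    · by_cases h : g c (x - a c) = x - a c <;> simp [mm_SReg, h]
    · by_cases h : g c (x - a c - a c) = x - a c - a c <;> simp [mm_SReg, h]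
  · rcases v with ⟨x, _ | _, _ | _⟩ <;> simp only [mm_SReg] <;> split_ifs with h <;> simp [h]
  · rcases v with ⟨x, _ | _, _ | _⟩ <;> simp only [mm_SReg] at h <;> split_ifs at h with h1 h2 h2 <;>
      simp only [Prod.mk.injEq, and_true, Bool.true_eq_false, Bool.false_eq_true, and_false,
        false_and, add_assoc, sub_sub, add_right_inj, sub_right_inj] at h
    · exact ha' _ _ h
    · exact hc _ _ _ h1 h
    · exact ha _ _ h
    · exact hc _ _ _ h1 h
    · exact ha' _ _ h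
    · exact ha' _ _ h
    · exact ha _ _ h
    · exact ha' _ _ h

lemma rel_SReg {Z K : Type} (r : K → Z → Z → Prop) (h1 : ∀ c x y, r c x y → r c y x)
    (h2 : ∀ c x y y', r c x y → r c x y' → y = y') (h3 : ∀ c c' x y, r c x y → r c' x y → c = c') :
    ∃ g : K → Z → Z, (∀ c x, g c (g c x) = x) ∧
      (∀ c c' x, g c x ≠ x → g c x = g c' x → c = c') ∧ ∀ c x y, r c x y → g c x = y := by
  have h4 : ∀ c x, ∃ y, (∀ y', r c x y' → y = y') ∧ (y ≠ x → r c x y) := by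
    intro c x
    by_cases h : ∃ y, r c x y
    · obtain ⟨y, hy⟩ := h
      exact ⟨y, fun y' => h2 c x y y' hy, fun _ => hy⟩
    · exact ⟨x, fun y' hy => absurd ⟨y', hy⟩ h, fun e => absurd rfl e⟩
  choose g h5 h6 using h4
  refine ⟨g, fun c x => ?_, fun c c' x h e => h3 c c' x _ (h6 c x h) ?_, h5⟩
  · by_cases h : g c x = x
    · rw [h, h]
    · exact h5 c _ x (h1 c _ _ (h6 c x h))
  · rw [e] at h ⊢
    exact h6 c' x h

theorem regS : RegP := by
  rintro V _ G k ⟨f, hf⟩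
  obtain ⟨e⟩ : Nonempty (V ↪ ZMod (Fintype.card V + 2 * k + 1)) :=
    Function.Embedding.nonempty_of_card_le (by rw [ZMod.card]; omega)
  obtain ⟨g, g1, g2, g3⟩ := rel_SReg
    (fun (c : Fin k) x y => ∃ (v w : V) (h : G.Adj v w), x = e v ∧ y = e w ∧ f ⟨s(v, w), h⟩ = c)
    (by
      rintro c _ _ ⟨v, w, h, rfl, rfl, rfl⟩
      exact ⟨w, v, h.symm, rfl, rfl, congrArg f (Subtype.ext Sym2.eq_swap)⟩)
    (by
      rintro c _ _ _ ⟨v, w, h, rfl, rfl, rfl⟩ ⟨v', w', h', e1, rfl, e2⟩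
      obtain rfl := e.injective e1
      by_contra hn
      refine hf _ _ (fun e3 => hn ?_) ⟨v, Sym2.mem_mk_left _ _, Sym2.mem_mk_left _ _⟩ e2
      rw [Sym2.congr_right.1 (congrArg Subtype.val e3)])
    (by
      rintro c c' _ _ ⟨v, w, h, rfl, rfl, rfl⟩ ⟨v', w', h', e1, e2, rfl⟩
      obtain rfl := e.injective e1
      obtain rfl := e.injective e2
      rfl)
  refine ⟨ZMod (Fintype.card V + 2 * k + 1) × Bool × Bool, inferInstance,
    fun c => mm_SReg (g c) (c.1 : ZMod _), fun v => (e v, false, false),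
    fac_SReg g _ g1 g2 fun c c' h => ?_, ?_, fun v w h => e.injective (congrArg Prod.fst h),
    fun v w h => ⟨f ⟨s(v, w), h⟩, ?_⟩⟩
  · have h1 := congrArg ZMod.val h
    rw [← Nat.cast_add, ← Nat.cast_add, ZMod.val_cast_of_lt (by omega),
      ZMod.val_cast_of_lt (by omega)] at h1
    exact Fin.ext (by omega)
  · simp only [Fintype.card_prod, ZMod.card, Fintype.card_bool]
    omega
  · have h1 := g3 _ _ _ ⟨v, w, h, rfl, rfl, rfl⟩
    have h2 : e w ≠ e v := fun h2 => h.ne' (e.injective h2)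
    simp only [mm_SReg, h1, if_neg h2]

end Pool.Agent.MP_d20a68_co.T

end

section

/-! From a splitting to a colouring from the lists. -/

set_option autoImplicit false
set_option linter.unusedSectionVars false
set_option linter.unusedVariables false
open Finset
open scoped Classical

namespace Pool.Agent.MP_d20a68_co.T

open Pool.Agent.MP_d20a68_co.Poly

/-- The edges of a level. -/
def lev_SFin {V W Lv : Type} {k : ℕ} (G : SimpleGraph V) (m : Fin k → W → W) (ι : V → W)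
    (lam : Fin k → W → Lv) (hm : ∀ c v, m c (m c v) = v) (hl : ∀ c v, lam c (m c v) = lam c v)
    (l : Lv) : SimpleGraph V where
  Adj u v := G.Adj u v ∧ ∃ c, m c (ι u) = ι v ∧ lam c (ι u) = l
  symm := ⟨fun u v h => by
    obtain ⟨h, c, h1, h2⟩ := h
    exact ⟨h.symm, c, by rw [← h1, hm], by rw [← h1, hl, h2]⟩⟩
  loopless := ⟨fun _ h => h.1.ne rfl⟩

theorem finS : FinP := by
  intro V W _ _ G k m ι q p hm hι hG hD cl L hL
  obtain ⟨Lv, _, σ, y, ⟨grp, hy⟩, lam, l1, l2, l3⟩ := hD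
  have key : ∀ l, ColL G cl L (lev_SFin G m ι lam hm.inv l1 l) (univ.filter fun i => grp i = l) := by
    intro l
    obtain ⟨f, f1, f2⟩ := galvinP5 (y l) (lev_SFin G m ι lam hm.inv l1 l) (fun v => σ l (ι v))
      (by
        rintro u v ⟨-, c, h1, h2⟩
        have := l2 c (ι u)
        rwa [h1, h2] at this)
      (fun u => by
        rw [← l3 l (ι u), dg, cnt, ← card_image_of_injective _ hι]
        refine le_trans (card_le_card fun w hw => ?_) (card_image_le (f := fun c => m c (ι u)))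
        obtain ⟨v, hv, rfl⟩ := mem_image.1 hw
        obtain ⟨-, c, h1, h2⟩ := mem_nb.1 hv
        exact mem_image.2 ⟨c, mem_filter.2 ⟨mem_univ _, h2⟩, h1⟩)
      (fun u v => (lst G L u v).filter fun x => cl x ∈ univ.filter fun i => grp i = l)
      (fun u v _ => by rw [lst_symm])
      fun u v huv => (hy l).le.trans (card_lstP5 G p cl L hL _ huv.1)
    exact ⟨f, f1, fun u v huv => mem_filter.1 (f2 u v huv)⟩
  choose f f1 f2 using key
  have ex : ∀ u v, G.Adj u v → ∃ l, (lev_SFin G m ι lam hm.inv l1 l).Adj u v := fun u v h => by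
    obtain ⟨c, hc⟩ := hG u v h
    exact ⟨_, h, c, hc, rfl⟩
  have un : ∀ u v l l', (lev_SFin G m ι lam hm.inv l1 l).Adj u v →
      (lev_SFin G m ι lam hm.inv l1 l').Adj u v → l = l' := by
    rintro u v l l' ⟨-, c, h1, h2⟩ ⟨-, c', h1', h2'⟩
    rw [← h2, ← h2', hm.inj c c' _ (h1.trans h1'.symm)]
  choose lv hlv using ex
  refine of_colL G cl L univ ⟨fun u v => if h : G.Adj u v then f (lv u v h) u v else 0,
    ⟨fun u v h => ?_, fun u v w h h' hne => ?_⟩, fun u v h => ?_⟩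
  · simp only [dif_pos h, dif_pos h.symm]
    rw [un v u _ _ (hlv v u h.symm) (hlv u v h).symm]
    exact (f1 _).symm u v (hlv u v h)
  · simp only [dif_pos h, dif_pos h']
    intro e
    have a1 := (mem_filter.1 (f2 _ u v (hlv u v h)).2).2
    have a2 := (mem_filter.1 (f2 _ u w (hlv u w h')).2).2
    rw [e, a2] at a1
    have a3 := hlv u w h'
    rw [a1] at a3 e
    exact (f1 _).ne u v w (hlv u v h) a3 hne e
  · simp only [dif_pos h]
    exact ⟨(f2 _ u v (hlv u v h)).1, mem_univ _⟩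

end Pool.Agent.MP_d20a68_co.T

end
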