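import Pool.Agent.Mg.Xd20a68.Ge7e6f2
import Pool.Agent.Mg.Xd20a68.G7633c2

section

set_option autoImplicit false
open Finset
open scoped Classical

namespace Pool.Agent.MP_d20a68_co.T

open Pool.Agent.MP_d20a68_co.Poly

theorem hoef_FRound {Λ : Type} [Fintype Λ] (x y : Λ → ℝ) (hx : ∀ l, 0 ≤ x l)
    (h1 : ∑ l, x l = 1) (hy : ∀ l, 0 ≤ y l ∧ y l ≤ 1) (a : ℝ) :
    ∑ l, x l * Real.exp (a * (y l - ∑ l', x l' * y l')) ≤ Real.exp (a ^ 2 / 8) := by
  let _ : MeasurableSpace Λ := ⊤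
  have : MeasurableSingletonClass Λ := ⟨fun _ => trivial⟩
  let p : PMF Λ := PMF.ofFintype (fun l => ENNReal.ofReal (x l)) (by
    rw [← ENNReal.ofReal_sum_of_nonneg fun l _ => hx l, h1, ENNReal.ofReal_one])
  have hp : ∀ g : Λ → ℝ, ∫ l, g l ∂p.toMeasure = ∑ l, x l * g l := by
    intro g
    rw [PMF.integral_eq_sum]
    refine Finset.sum_congr rfl fun l _ => ?_
    rw [PMF.ofFintype_apply, ENNReal.toReal_ofReal (hx l), smul_eq_mul]
  have h := (ProbabilityTheory.hasSubgaussianMGF_of_mem_Icc (μ := p.toMeasure) (X := y)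
    (a := 0) (b := 1) (measurable_from_top.aemeasurable)
    (Filter.Eventually.of_forall fun l => hy l)).mgf_le a
  rw [ProbabilityTheory.mgf, hp, hp] at h
  refine h.trans (le_of_eq ?_)
  congr 1
  simp only [sub_zero, nnnorm_one, NNReal.coe_pow, NNReal.coe_div, NNReal.coe_one,
    NNReal.coe_ofNat]
  ring

theorem mgf_FRound {E Λ : Type} [Fintype E] [Fintype Λ] (x g : E → Λ → ℝ) (N : Finset E)
    (n : ℝ) (hx : ∀ e l, 0 ≤ x e l) (h1 : ∀ e, ∑ l, x e l = 1)
    (hg : ∀ e l, 0 ≤ g e l ∧ g e l ≤ 1) (hN : ∀ e, e ∉ N → ∀ l, g e l = 0)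
    (hn : (N.card : ℝ) ≤ n) (a : ℝ) :
    ∑ lam : E → Λ, (∏ e, x e (lam e)) *
      Real.exp (a * (∑ e, g e (lam e) - ∑ e, ∑ l, x e l * g e l)) ≤ Real.exp (a ^ 2 * n / 8) := by
  have e1 : ∑ lam : E → Λ, (∏ e, x e (lam e)) *
      Real.exp (a * (∑ e, g e (lam e) - ∑ e, ∑ l, x e l * g e l)) =
      ∏ e, ∑ l, x e l * Real.exp (a * (g e l - ∑ l', x e l' * g e l')) := by
    rw [Finset.prod_univ_sum, Fintype.piFinset_univ]
    refine Finset.sum_congr rfl fun lam _ => ?_
    rw [Finset.prod_mul_distrib, ← Real.exp_sum, ← Finset.mul_sum, Finset.sum_sub_distrib]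
  have e2 : ∀ e, ∑ l, x e l * Real.exp (a * (g e l - ∑ l', x e l' * g e l')) ≤
      Real.exp (if e ∈ N then a ^ 2 / 8 else 0) := by
    intro e
    split_ifs with he
    · exact hoef_FRound (x e) (g e) (hx e) (h1 e) (hg e) a
    · simp [hN e he, h1 e]
  rw [e1]
  refine (Finset.prod_le_prod (fun e _ => Finset.sum_nonneg fun l _ =>
    mul_nonneg (hx e l) (Real.exp_pos _).le) fun e _ => e2 e).trans ?_
  rw [← Real.exp_sum, Real.exp_le_exp, Finset.sum_ite_mem, Finset.univ_inter, Finset.sum_const,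
    nsmul_eq_mul]
  nlinarith [sq_nonneg a]

theorem roundP : RoundP := by
  intro E Λ J _ _ _ x f N n t hx h1 hf hN hn ht hs
  obtain ⟨D, hD⟩ : ∃ D : J → (E → Λ) → ℝ, ∀ j lam,
      D j lam = ∑ e, f j e (lam e) - ∑ e, ∑ l, x e l * f j e l := ⟨_, fun _ _ => rfl⟩
  obtain ⟨W, hW⟩ : ∃ W : (E → Λ) → ℝ, ∀ lam, W lam = ∏ e, x e (lam e) := ⟨_, fun _ => rfl⟩
  obtain ⟨a, ha⟩ : ∃ a : J → ℝ, ∀ j, a j = 4 * t j / n j := ⟨_, fun _ => rfl⟩
  have ha0 : ∀ j, 0 ≤ a j := fun j => by
    rw [ha]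
    exact div_nonneg (mul_nonneg (by norm_num) (ht j)) (hn j).1.le
  have hW1 : ∑ lam, W lam = 1 := by
    simp only [hW]
    rw [← Fintype.piFinset_univ, ← Finset.prod_univ_sum (fun _ : E => (univ : Finset Λ)) x]
    simp [h1]
  have hm : ∀ j (b : ℝ), b ^ 2 = a j ^ 2 →
      ∑ lam, W lam * Real.exp (b * D j lam - a j * t j) ≤ Real.exp (-(2 * t j ^ 2 / n j)) := by
    intro j b hb
    have h2 := mgf_FRound x (f j) (N j) (n j) hx h1 (hf j) (hN j) (hn j).2 b
    have e1 : ∑ lam, W lam * Real.exp (b * D j lam - a j * t j) =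
        (∑ lam : E → Λ, (∏ e, x e (lam e)) *
          Real.exp (b * (∑ e, f j e (lam e) - ∑ e, ∑ l, x e l * f j e l))) *
          Real.exp (-(a j * t j)) := by
      rw [Finset.sum_mul]
      refine Finset.sum_congr rfl fun lam _ => ?_
      rw [hW, hD, sub_eq_add_neg, Real.exp_add, mul_assoc]
    rw [e1]
    refine (mul_le_mul_of_nonneg_right h2 (Real.exp_pos _).le).trans (le_of_eq ?_)
    rw [← Real.exp_add, hb, ha]
    congr 1
    have := (hn j).1.ne'
    field_simp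
    ring
  have hlt : ∑ lam, W lam * ∑ j, (Real.exp (a j * D j lam - a j * t j) +
      Real.exp (-a j * D j lam - a j * t j)) < ∑ lam, W lam := by
    rw [hW1]
    refine lt_of_le_of_lt ?_ hs
    simp only [Finset.mul_sum]
    rw [Finset.sum_comm]
    refine Finset.sum_le_sum fun j _ => ?_
    simp only [mul_add]
    rw [Finset.sum_add_distrib, two_mul]
    exact add_le_add (hm j _ rfl) (hm j _ (neg_sq _))
  obtain ⟨lam, -, hl⟩ := Finset.exists_lt_of_sum_lt hlt
  have hW0 : 0 ≤ W lam := by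
    rw [hW]
    exact Finset.prod_nonneg fun e _ => hx e _
  have hWp : 0 < W lam := by
    rcases hW0.eq_or_lt with h | h
    · rw [← h, zero_mul] at hl
      exact absurd hl (lt_irrefl _)
    · exact h
  have hΦ := (mul_lt_iff_lt_one_right hWp).1 hl
  refine ⟨lam, fun e => ?_, fun j => ?_⟩
  · rcases (hx e (lam e)).eq_or_lt with h | h
    · rw [hW, Finset.prod_eq_zero (Finset.mem_univ e) h.symm] at hWp
      exact absurd hWp (lt_irrefl _)
    · exact h
  · have h2 := (Finset.single_le_sum (f := fun j => Real.exp (a j * D j lam - a j * t j) +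
      Real.exp (-a j * D j lam - a j * t j))
      (fun j _ => add_nonneg (Real.exp_pos _).le (Real.exp_pos _).le)
      (Finset.mem_univ j)).trans_lt hΦ
    have p1 := Real.exp_pos (a j * D j lam - a j * t j)
    have p2 := Real.exp_pos (-a j * D j lam - a j * t j)
    have h3 : a j * D j lam - a j * t j < 0 := Real.exp_lt_one_iff.1 (by linarith)
    have h4 : -a j * D j lam - a j * t j < 0 := Real.exp_lt_one_iff.1 (by linarith)
    have h5 := ha0 j
    rw [← hD, abs_le]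
    constructor
    · by_contra h
      nlinarith [not_le.1 h]
    · by_contra h
      nlinarith [not_le.1 h]

end Pool.Agent.MP_d20a68_co.T

end

section

/-! Orientations of the virtual colours that fit the patterns of one spread group. -/

set_option autoImplicit false
set_option linter.unusedSectionVars false
set_option linter.unusedVariables false
open Finset
open scoped Classical

namespace Pool.Agent.MP_d20a68_co.T

open Pool.Agent.MP_d20a68_co.Poly

theorem avoid_FEss {V : Type} {k M : ℕ} (E : Fin k → Finset V) (S X : Finset V)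
    (P : Finset (Fin k)) (t : ℝ) (ht : 0 ≤ t) (htM : t * (M + 1) ≤ 1 / 2) (hP : P.Nonempty)
    (hX : X.card ≤ M) (hsp : ∀ w, w ∉ S → (cnt fun c => c ∈ P ∧ w ∈ E c : ℝ) ≤ t * P.card) :
    ∃ c ∈ P, ∀ w ∈ X, w ∈ E c → w ∈ S := by
  by_contra hc
  push Not at hc
  have hsub : P ⊆ (X.filter fun w => w ∉ S).biUnion
      fun w => univ.filter fun c => c ∈ P ∧ w ∈ E c := by
    intro c hcP
    obtain ⟨w, hw, h1, h2⟩ := hc c hcP
    exact mem_biUnion.2 ⟨w, mem_filter.2 ⟨hw, h2⟩, mem_filter.2 ⟨mem_univ _, hcP, h1⟩⟩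
  have h1 := (card_le_card hsub).trans card_biUnion_le
  have h2 : (P.card : ℝ) ≤ ∑ w ∈ X.filter (fun w => w ∉ S),
      ((univ.filter fun c => c ∈ P ∧ w ∈ E c).card : ℝ) := by exact_mod_cast h1
  have h3 : ∑ w ∈ X.filter (fun w => w ∉ S),
      ((univ.filter fun c => c ∈ P ∧ w ∈ E c).card : ℝ) ≤
      ∑ w ∈ X.filter (fun w => w ∉ S), t * P.card := by
    refine sum_le_sum fun w hw => ?_
    have e : (univ.filter fun c => c ∈ P ∧ w ∈ E c).card = cnt fun c => c ∈ P ∧ w ∈ E c := by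
      unfold cnt; congr
    rw [e]
    exact hsp w (mem_filter.1 hw).2
  rw [sum_const, nsmul_eq_mul] at h3
  have h4 : (((X.filter fun w => w ∉ S).card : ℕ) : ℝ) ≤ M := by
    exact_mod_cast (card_filter_le _ _).trans hX
  have h5 : (0 : ℝ) < P.card := by exact_mod_cast hP.card_pos
  have h6 := mul_le_mul_of_nonneg_right h4 (mul_nonneg ht h5.le)
  nlinarith [mul_nonneg ht h5.le]

theorem essP (hS : SpreadP) (hP : PatP) (hH : ShareP) : EssP := by
  intro R M
  obtain ⟨T, hT, hP⟩ := hP R M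
  refine ⟨T, hT, fun τ hτ => ?_⟩
  obtain ⟨t, ht0, htτ, htM⟩ : ∃ t : ℝ, 0 < t ∧ t ≤ τ ∧ t * (M + 1) ≤ 1 / 2 := by
    refine ⟨min τ (1 / (2 * (M + 1))), lt_min hτ (by positivity), min_le_left _ _, ?_⟩
    have h : (0 : ℝ) < M + 1 := by positivity
    calc min τ (1 / (2 * (M + 1))) * (M + 1) ≤ 1 / (2 * (M + 1)) * (M + 1) :=
          mul_le_mul_of_nonneg_right (min_le_right _ _) h.le
      _ = 1 / 2 := by field_simp
  have h2T : (1 : ℝ) ≤ 2 ^ T := one_le_pow₀ (by norm_num)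
  have ht1 : t ≤ 1 := by nlinarith [(Nat.cast_nonneg M : (0 : ℝ) ≤ M)]
  have ht' : 0 < t / 2 ^ T := by positivity
  refine ⟨(t / 2 ^ T) ^ M / 2 ^ T, by positivity, fun k V _ lab fl r E e hk hR hE => ?_⟩
  obtain ⟨S, hSc, hSb, hSs⟩ := hS V k M E (t / 2 ^ T) ht' ((div_le_self ht0.le h2T).trans ht1) hk
    fun c => (hE c).2
  obtain ⟨F, hF⟩ : ∃ F : Finset (Fin k), F = univ.filter fun c => S ⊆ E c := ⟨_, rfl⟩
  have hFc : (cnt fun c => S ⊆ E c) = F.card := by rw [hF]; unfold cnt; congr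
  rw [hFc] at hSb
  simp only [hFc] at hSs
  have hk' : (0 : ℝ) < k := by exact_mod_cast hk
  have hF0 : (0 : ℝ) < F.card := lt_of_lt_of_le (by positivity) hSb
  obtain ⟨P, hPF, hPc, g, nt, hg⟩ := hP k V lab fl r E e S F hSc
    (card_pos.1 (by exact_mod_cast hF0)) hE
  have hPc' : (F.card : ℝ) ≤ 2 ^ T * P.card := by exact_mod_cast hPc
  have hP0 : (0 : ℝ) < P.card := by
    by_contra h
    have := mul_nonpos_of_nonneg_of_nonpos (zero_le_one.trans h2T) (not_lt.1 h)
    linarith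
  have hsub : ∀ c ∈ P, S ⊆ E c := fun c hc => by
    have := hPF hc
    rw [hF] at this
    exact (mem_filter.1 this).2
  have hsp : ∀ w, w ∉ S → (cnt fun c => c ∈ P ∧ w ∈ E c : ℝ) ≤ t * P.card := fun w hw => by
    have h1 : (cnt fun c => c ∈ P ∧ w ∈ E c) ≤ cnt fun c => S ⊆ E c ∧ w ∈ E c := by
      unfold cnt
      refine card_le_card fun c hc => ?_
      simp only [mem_filter, mem_univ, true_and] at hc ⊢
      exact ⟨hsub c hc.1, hc.2⟩
    have h2 : (cnt fun c => c ∈ P ∧ w ∈ E c : ℝ) ≤ cnt fun c => S ⊆ E c ∧ w ∈ E c := by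
      exact_mod_cast h1
    refine h2.trans ((hSs w hw).trans ?_)
    calc t / 2 ^ T * F.card ≤ t / 2 ^ T * (2 ^ T * P.card) :=
          mul_le_mul_of_nonneg_left hPc' ht'.le
      _ = t * P.card := by field_simp
  obtain ⟨ok, hok⟩ : ∃ ok : Fin k → Fin T → (V → Bool) → Prop, ∀ c o s, ok c o s ↔
      (∀ v ∈ E c, s (e c v) = !s v) ∧ (∀ v ∈ E c, v ∈ S → s v = g o v) ∧
        ∀ a, ∑ v ∈ E c, nu r fl a (lab v) (s v) = nt o a := ⟨_, fun _ _ _ => Iff.rfl⟩
  have hch : ∀ c o, ∃ s : V → Bool, (∃ s', ok c o s') → ok c o s := fun c o => by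
    by_cases h : ∃ s', ok c o s'
    · obtain ⟨s, hs⟩ := h
      exact ⟨s, fun _ => hs⟩
    · exact ⟨fun _ => true, fun h' => absurd h' h⟩
  choose s hs using hch
  refine ⟨S, g, nt, s, fun c o => ∃ s', ok c o s', P, hSc, fun c => (hE c).1.cl, fun c => ?_,
    fun c hc o => ?_, hsub, fun c o h => ((hok _ _ _).1 (hs c o h)).1,
    fun c o h => ((hok _ _ _).1 (hs c o h)).2.1, fun c o h => ((hok _ _ _).1 (hs c o h)).2.2,
    ?_, fun w hw => (hsp w hw).trans (mul_le_mul_of_nonneg_right htτ hP0.le)⟩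
  · obtain ⟨c', hc', hav⟩ := avoid_FEss E S (E c) P t ht0.le htM
      (card_pos.1 (by exact_mod_cast hP0)) (hE c).2 hsp
    obtain ⟨s₁, s₂, a1, a2, a3, a4⟩ := hH R V lab fl r (E c) (E c') (e c) (e c') hR
      (hE c).1 (hE c').1
    obtain ⟨o, b1, b2⟩ := (hg c' hc').2 s₂ a2
    exact ⟨o, s₁, (hok _ _ _).2 ⟨a1, fun v hv hvS => (a3 v hv (hsub c' hc' hvS)).trans (b1 v hvS),
      fun a => (a4 a).trans (b2 a)⟩⟩
  · obtain ⟨s', a1, a2, a3⟩ := (hg c hc).1 o
    exact ⟨s', (hok _ _ _).2 ⟨a1, fun v _ hv => a2 v hv, a3⟩⟩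
  · rw [div_mul_eq_mul_div, div_le_iff₀ (by positivity)]
    linarith

end Pool.Agent.MP_d20a68_co.T

end

section

set_option autoImplicit false
open Finset
open scoped Classical

namespace Pool.Agent.MP_d20a68_co.T

open Pool.Agent.MP_d20a68_co.Poly

theorem sampP (hR : RoundP) : SampP := by
  intro Ω I _ _ Gd A u ε hG hu hε hA hs
  have hg : (0 : ℝ) < Gd.card := by exact_mod_cast hG.card_pos
  have hu' : (0 : ℝ) < u := by exact_mod_cast hu
  have hx : ∀ f : Ω → ℝ, ∑ l, (if l ∈ Gd then (1 : ℝ) / Gd.card else 0) * f l =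
      (∑ a ∈ Gd, f a) / Gd.card := by
    intro f
    simp only [ite_mul, zero_mul]
    rw [← Finset.sum_filter, Finset.filter_mem_eq_inter, Finset.univ_inter, Finset.sum_div]
    exact Finset.sum_congr rfl fun a _ => by ring
  obtain ⟨lam, h1, h2⟩ := hR (Fin u) Ω I (fun _ a => if a ∈ Gd then 1 / Gd.card else 0)
    (fun i _ a => (1 + A i a) / 2) (fun _ => univ) (fun _ => u) (fun _ => ε * u / 2)
    (fun e l => by split_ifs <;> positivity)
    (fun e => by
      have := hx fun _ => 1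
      simp only [mul_one, sum_const, nsmul_eq_mul] at this
      rw [this, div_self hg.ne'])
    (fun i e l => by
      have := abs_le.1 (hA i l)
      constructor <;> linarith [this.1, this.2])
    (fun i e he => absurd (mem_univ e) he) (fun i => ⟨hu', by simp⟩) (fun i => by positivity)
    (by
      have e : -(2 * (ε * u / 2) ^ 2 / u) = -(ε ^ 2 * u / 2) := by field_simp
      rw [sum_const, nsmul_eq_mul, card_univ, e]
      linarith)
  refine ⟨lam, fun j => ?_, fun i => ?_⟩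
  · by_contra h
    have := h1 j
    rw [if_neg h] at this
    exact lt_irrefl _ this
  · have h3 := h2 i
    have e : ∑ e, (1 + A i (lam e)) / 2 - ∑ e : Fin u, ∑ l,
        (if l ∈ Gd then (1 : ℝ) / Gd.card else 0) * ((1 + A i l) / 2) =
        (∑ j, A i (lam j) - u * ((∑ a ∈ Gd, A i a) / Gd.card)) / 2 := by
      rw [hx]
      simp only [← Finset.sum_div, sum_add_distrib, sum_const, card_univ, Fintype.card_fin,
        nsmul_eq_mul, mul_one]
      field_simp
      ring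
    rw [e, abs_div, abs_two] at h3
    linarith

theorem slotP (hS : SampP) : SlotP := by
  intro C p0 ν hp hν
  set ε := min (p0 / 2) (ν * p0 / 4) with hεd
  have hε : 0 < ε := lt_min (by positivity) (by positivity)
  have hε1 : ε ≤ p0 / 2 := min_le_left _ _
  have hε2 : ε ≤ ν * p0 / 4 := min_le_right _ _
  obtain ⟨U, hU⟩ := ev_exp (2 * ((1 + C ^ 2) * 256 ^ 3)) (ε ^ 2 / 2) (1 / 2) 24 (by positivity)
    (by norm_num)
  refine ⟨U + 1, fun u hu k hk V Ω _ _ E Lt Gd σ cm hV hΩ h1 h2 => ?_⟩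
  have hu0 : 0 < u := by omega
  have hu' : (0 : ℝ) < u := by exact_mod_cast hu0
  have hk0 : 0 < k := lt_of_lt_of_le (by positivity) hk.1
  have hO : (0 : ℝ) < Fintype.card Ω := by exact_mod_cast Fintype.card_pos
  have hg1 : p0 * Fintype.card Ω ≤ Gd.card :=
    (h1 ⟨0, hk0⟩).trans (by exact_mod_cast card_filter_le _ _)
  have hg : (0 : ℝ) < Gd.card := lt_of_lt_of_le (by positivity) hg1
  have hg2 : (Gd.card : ℝ) ≤ Fintype.card Ω := by exact_mod_cast card_le_univ Gd
  have hI : Fintype.card (Fin k ⊕ Fin k × V × V) ≤ (1 + C ^ 2) * 256 ^ 3 * u ^ 24 := by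
    simp only [Fintype.card_sum, Fintype.card_prod, Fintype.card_fin]
    have a1 : k ≤ k ^ 3 := Nat.le_self_pow (by norm_num) k
    have a2 : Fintype.card V * Fintype.card V ≤ C * k * (C * k) := Nat.mul_le_mul hV hV
    have a3 : k ^ 3 ≤ (256 * u ^ 8) ^ 3 := Nat.pow_le_pow_left hk.2 3
    calc _ ≤ k ^ 3 + k * (C * k * (C * k)) := Nat.add_le_add a1 (Nat.mul_le_mul_left _ a2)
      _ = (1 + C ^ 2) * k ^ 3 := by ring
      _ ≤ (1 + C ^ 2) * (256 * u ^ 8) ^ 3 := Nat.mul_le_mul_left _ a3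
      _ = _ := by ring
  obtain ⟨ω, hω, hA⟩ := hS Ω (Fin k ⊕ Fin k × V × V) Gd
    (fun i a => Sum.elim (fun c => if cm c a then (1 : ℝ) else 0)
      (fun d : Fin k × V × V => if cm d.1 a then sg (σ a d.2.1) * sg (σ a d.2.2) else 0) i) u ε
    (card_pos.1 (by exact_mod_cast hg)) hu0 hε
    (by
      rintro (c | d) a
      · simp only [Sum.elim_inl]
        split_ifs <;> simp
      · simp only [Sum.elim_inr]
        split_ifs <;> simp [abs_mul, abs_sg])
    (by
      have a1 := hU u (by omega)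
      have a2 : (Fintype.card (Fin k ⊕ Fin k × V × V) : ℝ) ≤
          (1 + (C : ℝ) ^ 2) * 256 ^ 3 * (u : ℝ) ^ 24 := by exact_mod_cast hI
      have e : -(ε ^ 2 * u / 2) = -(ε ^ 2 / 2 * u) := by ring
      rw [e]
      have a3 := mul_le_mul_of_nonneg_right a2 (Real.exp_pos (-(ε ^ 2 / 2 * u))).le
      linarith)
  have hn : ∀ c, p0 / 2 * u ≤ (cnt fun j => cm c (ω j) : ℝ) := by
    intro c
    have a1 := (abs_le.1 (hA (Sum.inl c))).1
    simp only [Sum.elim_inl, sum_boole] at a1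
    have a2 : p0 ≤ ((Gd.filter fun ω => cm c ω).card : ℝ) / Gd.card := by
      rw [le_div_iff₀ hg]
      exact (mul_le_mul_of_nonneg_left hg2 hp.le).trans (h1 c)
    have a3 := mul_le_mul_of_nonneg_left a2 hu'.le
    have a4 := mul_le_mul_of_nonneg_right hε1 hu'.le
    unfold cnt
    linarith
  refine ⟨ω, hω, hn, fun c y hy hy' v hv => ?_⟩
  have a1 := hA (Sum.inr (c, y, v))
  simp only [Sum.elim_inr] at a1
  rw [← sum_filter, ← sum_filter] at a1
  have a2 : |(u : ℝ) * ((∑ a ∈ Gd.filter (fun a => cm c a), sg (σ a y) * sg (σ a v)) / Gd.card)| ≤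
      u * (ν * p0 / 4) := by
    rw [abs_mul, abs_of_pos hu', abs_div, abs_of_pos hg]
    refine mul_le_mul_of_nonneg_left ?_ hu'.le
    rw [div_le_iff₀ hg]
    refine (h2 c y hy hy' v hv).trans ?_
    have := mul_le_mul_of_nonneg_left hg1 (show 0 ≤ ν * p0 / 4 by positivity)
    linarith
  have a3 := mul_le_mul_of_nonneg_right hε2 hu'.le
  have a4 := mul_le_mul_of_nonneg_left (hn c) hν.le
  have a5 := abs_sub_abs_le_abs_sub
    (∑ j ∈ univ.filter (fun j => cm c (ω j)), sg (σ (ω j) y) * sg (σ (ω j) v))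
    ((u : ℝ) * ((∑ a ∈ Gd.filter (fun a => cm c a), sg (σ a y) * sg (σ a v)) / Gd.card))
  linarith

end Pool.Agent.MP_d20a68_co.T

end

section

/-! Flips: choosing the flipped sets, and the number of atypical vertices. -/

set_option autoImplicit false
set_option linter.unusedSectionVars false
set_option linter.unusedVariables false
open Finset
open scoped Classical

namespace Pool.Agent.MP_d20a68_co.T

open Pool.Agent.MP_d20a68_co.Poly

theorem even_FFsel {V : Type} (X : Finset V) (σ : V → Bool) :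
    Even (∑ v ∈ X, sgz (σ v) - (X.card : ℤ)) := by
  have e : ∑ v ∈ X, sgz (σ v) - (X.card : ℤ) = ∑ v ∈ X, (sgz (σ v) - 1) := by
    rw [sum_sub_distrib]
    simp
  rw [e]
  refine even_sum _ fun v _ => ?_
  cases σ v <;> simp [sgz]

theorem fselP (hD : DselP) : FselP := by
  intro R n V Lv _ _ lab σ Ok tg hev hbd hbig
  have hex : ∀ i : Lv × Fin R, ∃ e : ℤ, ∑ v ∈ Vl lab i.2, sgz (σ i.1 v) - tg i.1 i.2 = 2 * e := by
    rintro ⟨l, b⟩
    obtain ⟨e1, h1⟩ := even_FFsel (Vl lab b) (σ l)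
    obtain ⟨e2, h2⟩ := hev l b
    exact ⟨e1 - e2, by simp only; linarith⟩
  choose e he using hex
  have hn : ∀ i, (e i).natAbs ≤ n := fun i => by
    have h := hbd i.1 i.2
    rw [he i, abs_le] at h
    push_cast at h
    omega
  obtain ⟨B, hB, hdis⟩ := hD (Lv × Fin R) V
    (fun i => univ.filter fun v => v ∈ Ok i.1 ∧ lab v = i.2 ∧ σ i.1 v = decide (0 < e i))
    (fun i => (e i).natAbs) (fun i => by
      rcases hbig i.1 i.2 with ⟨h0, h1⟩ | h
      · left
        have h := he i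
        rw [h0, h1, sum_empty] at h
        omega
      · right
        refine le_trans ?_ ((h (decide (0 < e i))).trans (le_of_eq ?_))
        · refine (sum_le_sum fun j _ => hn j).trans (le_of_eq ?_)
          simp
        · unfold cnt
          congr)
  have hmem : ∀ i, ∀ v ∈ B i, v ∈ Ok i.1 ∧ lab v = i.2 ∧ σ i.1 v = decide (0 < e i) :=
    fun i v hv => (mem_filter.1 ((hB i).1 hv)).2
  refine ⟨fun l => univ.biUnion fun b => B (l, b), fun l => ⟨fun v hv => ?_, ?_⟩,
    fun l l' hl => ?_, fun l b => ?_⟩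
  · obtain ⟨b, -, hb⟩ := mem_biUnion.1 hv
    exact (hmem _ v hb).1
  · refine card_biUnion_le.trans ((sum_le_sum (g := fun _ => n) fun b _ => ?_).trans (le_of_eq ?_))
    · rw [(hB _).2]
      exact hn _
    · simp
  · rw [disjoint_biUnion_left]
    intro b _
    rw [disjoint_biUnion_right]
    intro b' _
    exact hdis _ _ fun h => hl (congrArg Prod.fst h)
  · have hs : B (l, b) ⊆ Vl lab b := fun v hv => mem_filter.2 ⟨mem_univ _, (hmem _ v hv).2.1⟩
    have h1 : ∀ v ∈ Vl lab b, sgz (flp (univ.biUnion fun b => B (l, b)) (σ l) v) =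
        sgz (σ l v) - if v ∈ B (l, b) then 2 * sgz (decide (0 < e (l, b))) else 0 := by
      intro v hv
      have hv' : lab v = b := (mem_filter.1 hv).2
      by_cases hvB : v ∈ B (l, b)
      · have h2 : σ l v = decide (0 < e (l, b)) := (hmem _ v hvB).2.2
        rw [if_pos hvB, flp, if_pos (mem_biUnion.2 ⟨b, mem_univ _, hvB⟩), ← h2]
        cases σ l v <;> simp [sgz]
      · rw [if_neg hvB, flp, if_neg, sub_zero]
        intro hc
        obtain ⟨b', -, hb'⟩ := mem_biUnion.1 hc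
        have h3 : lab v = b' := (hmem _ v hb').2.1
        exact hvB (hv' ▸ h3 ▸ hb')
    rw [sum_congr rfl h1, sum_sub_distrib, sum_ite_mem, inter_eq_right.2 hs, sum_const, (hB _).2]
    have h := he (l, b)
    simp only at h
    simp only [nsmul_eq_mul, sgz]
    by_cases h0 : 0 < e (l, b)
    · simp only [h0, decide_true, if_true]
      simp only [sgz] at h
      omega
    · simp only [h0, decide_false]
      simp only [sgz] at h
      simp only [Bool.false_eq_true, if_false]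
      omega

theorem sum_FFsel {k R : ℕ} {V : Type} [Fintype V] (m : Fin k → V → V) (lab : V → Fin R)
    (a b : Fin R) (W : Finset V) (hW : ∀ v ∈ W, lab v = a) :
    ∑ v ∈ W, (cnt fun c => lab (m c v) = b) ≤ NN m lab a b := by
  have e : ∑ v ∈ W, (cnt fun c => lab (m c v) = b) =
      (univ.filter fun d : Fin k × V => d.2 ∈ W ∧ lab (m d.1 d.2) = b).card := by
    rw [card_filter, Fintype.sum_prod_type, sum_comm]
    simp only [cnt, card_filter]
    rw [← sum_subset (subset_univ W)]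
    · refine sum_congr rfl fun v hv => sum_congr rfl fun c _ => ?_
      simp [hv]
    · intro v _ hv
      simp [hv]
  rw [e]
  unfold NN nd cnt
  refine card_le_card fun d hd => ?_
  simp only [mem_filter, mem_univ, true_and] at hd ⊢
  exact ⟨hW _ hd.1, hd.2⟩

theorem ftypP : FtypP := by
  intro k R K V _ m lab a
  let W : Fin R → Finset V := fun b => univ.filter fun v =>
    lab v = a ∧ K * NN m lab a b < (cnt fun c => lab (m c v) = b) * k
  have h1 : (cnt fun v => lab v = a ∧ ¬ Tpc m lab K v) ≤ ∑ b, (W b).card := by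
    refine le_trans (card_le_card ?_) (card_biUnion_le (s := univ) (t := W))
    intro v hv
    simp only [mem_filter, mem_univ, true_and] at hv
    obtain ⟨hv1, hv2⟩ := hv
    unfold Tpc at hv2
    push Not at hv2
    obtain ⟨b, hb⟩ := hv2
    exact mem_biUnion.2 ⟨b, mem_univ _, mem_filter.2 ⟨mem_univ _, hv1, hv1 ▸ hb⟩⟩
  have h2 : ∀ b, (W b).card * K ≤ k := fun b => by
    have s1 := sum_FFsel m lab a b (W b) fun v hv => (mem_filter.1 hv).2.1
    have s2 : (W b).card * (K * NN m lab a b + 1) ≤ NN m lab a b * k := by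
      refine le_trans ?_ (Nat.mul_le_mul_right k s1)
      rw [sum_mul, ← smul_eq_mul, ← sum_const]
      exact sum_le_sum fun v hv => (mem_filter.1 hv).2.2
    rcases Nat.eq_zero_or_pos (NN m lab a b) with h0 | h0
    · rw [h0] at s2
      have : (W b).card = 0 := by omega
      rw [this]
      omega
    · refine Nat.le_of_mul_le_mul_left ?_ h0
      nlinarith
  calc _ ≤ (∑ b, (W b).card) * K := Nat.mul_le_mul_right K h1
    _ = ∑ b, (W b).card * K := sum_mul _ _ _
    _ ≤ ∑ _b : Fin R, k := sum_le_sum fun b _ => h2 b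
    _ = R * k := by simp

end Pool.Agent.MP_d20a68_co.T

end

section

/-! Every level halves the neighbourhoods; weights of the levels that do not cut given pairs. -/

set_option autoImplicit false
set_option linter.unusedSectionVars false
set_option linter.unusedVariables false
open Finset
open scoped Classical

namespace Pool.Agent.MP_d20a68_co.T

open Pool.Agent.MP_d20a68_co.Poly

/-- The indicator of a proposition. -/
noncomputable def ind_FHone (p : Prop) : ℝ := if p then 1 else 0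

theorem pos_FHone {p : Prop} (h : p) : ind_FHone p = 1 := if_pos h

theorem neg_FHone {p : Prop} (h : ¬ p) : ind_FHone p = 0 := if_neg h

theorem nn_FHone (p : Prop) : 0 ≤ ind_FHone p := by
  unfold ind_FHone
  split_ifs <;> norm_num

theorem cnt_FHone {α : Type} [Fintype α] (P : α → Prop) :
    (cnt P : ℝ) = ∑ a, ind_FHone (P a) := by
  rw [cnt, card_filter]
  push_cast
  rfl

theorem adj_FHone {k : ℕ} {V : Type} [Fintype V] {m : Fin k → V → V} (hm : Fac m) (x : V)
    (P : V → Prop) :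
    (cnt fun c => P (m c x)) = cnt fun w => adj m x w ∧ adj m x w ∧ P w := by
  unfold cnt
  refine card_bij (fun c _ => m c x) ?_ ?_ ?_
  · intro c hc
    simp only [mem_filter, mem_univ, true_and] at hc ⊢
    exact ⟨⟨c, rfl⟩, ⟨c, rfl⟩, hc⟩
  · intro c _ c' _ e
    exact hm.inj c c' x e
  · intro w hw
    simp only [mem_filter, mem_univ, true_and] at hw ⊢
    obtain ⟨⟨c, rfl⟩, -, h⟩ := hw
    exact ⟨c, h, rfl⟩

theorem four_FHone {V : Type} [Fintype V] (Q : V → Prop) (f g : V → Bool)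
    (P : Bool → Bool → V → Prop) (hP : ∀ a b w, P a b w ↔ Q w ∧ f w = a ∧ g w = b) {n t : ℝ}
    (hb : ∀ a b, |8 * (cnt (P a b) : ℝ) - n| ≤ t) : |2 * (cnt Q : ℝ) - n| ≤ t := by
  have e : (cnt Q : ℝ) = cnt (P true true) + cnt (P true false) + cnt (P false true) +
      cnt (P false false) := by
    simp only [cnt_FHone, ← sum_add_distrib, hP]
    refine sum_congr rfl fun w _ => ?_
    by_cases h : Q w <;> cases f w <;> cases g w <;> simp [h, ind_FHone]
  have h1 := abs_le.1 (hb true true)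
  have h2 := abs_le.1 (hb true false)
  have h3 := abs_le.1 (hb false true)
  have h4 := abs_le.1 (hb false false)
  rw [e, abs_le]
  constructor <;> linarith [h1.1, h1.2, h2.1, h2.2, h3.1, h3.2, h4.1, h4.2]

theorem honeP : HoneP := by
  intro k R V Lv _ _ m lab poor z h σ ν hm hs H l x b s
  obtain ⟨l', hl'⟩ := hs
  rw [adj_FHone hm x fun w => lab w = b ∧ σ l w = s, adj_FHone hm x fun w => lab w = b]
  by_cases h1 : l = z
  · subst h1
    exact four_FHone _ (σ l') (σ h) _ (fun _ _ _ => by tauto)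
      fun a c => H.h3 l' hl' x x b a s c
  by_cases h2 : l = h
  · subst h2
    exact four_FHone _ (σ l') (σ z) _ (fun _ _ _ => by tauto)
      fun a c => H.h3 l' hl' x x b a c s
  exact four_FHone _ (σ z) (σ h) _ (fun _ _ _ => by tauto)
    fun a c => H.h3 l (mem_filter.2 ⟨mem_univ _, h1, h2⟩) x x b s a c

theorem med_FHone {k : ℕ} {V Lv : Type} [Fintype V] [Fintype Lv] (E : Fin k → Finset V)
    (z h : Lv) (lc : Fin k → Lv) (w : V) (κ : ℝ)
    (hκ : ∀ l, (cnt fun c => lc c = l : ℝ) ≤ κ * k) (T : Finset Lv) (f : Lv → ℝ) (d : ℝ)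
    (hd : 0 ≤ d) (h1 : ∀ l ∈ T, 1 ≤ (1 + f l) * d) (h0 : ∀ l, 0 ≤ (1 + f l) * d) :
    ((∑ l ∈ T, cnt fun c => lc c = l ∧ w ∉ E c : ℕ) : ℝ) ≤
      ((cnt fun c => w ∉ E c : ℝ) + ∑ c ∈ univ.filter (fun c => lc c ∈ small z h ∧
        ∀ w', some w = some w' → w' ∉ E c), f (lc c)) * d + 2 * κ * k := by
  have e1 := hκ z
  have e2 := hκ h
  refine le_trans ?_ (add_le_add le_rfl (show (cnt fun c => lc c = z : ℝ) +
    (cnt fun c => lc c = h : ℝ) ≤ 2 * κ * k by linarith))
  push_cast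
  simp only [cnt_FHone]
  rw [sum_comm, sum_filter, ← sum_add_distrib, sum_mul, ← sum_add_distrib, ← sum_add_distrib]
  refine sum_le_sum fun c _ => ?_
  have n1 := nn_FHone (lc c = z)
  have n2 := nn_FHone (lc c = h)
  by_cases hw : w ∈ E c
  · have e : ¬ (lc c ∈ small z h ∧ ∀ w', some w = some w' → w' ∉ E c) :=
      fun g => g.2 w rfl hw
    rw [if_neg e, neg_FHone (not_not.2 hw),
      sum_eq_zero fun l _ => neg_FHone (p := lc c = l ∧ w ∉ E c) fun g => g.2 hw]
    linarith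
  have e3 : ∑ l ∈ T, ind_FHone (lc c = l ∧ w ∉ E c) = ind_FHone (lc c ∈ T) := by
    simp [hw, ind_FHone]
  rw [e3, pos_FHone hw]
  by_cases hs : lc c ∈ small z h
  · rw [if_pos (show lc c ∈ small z h ∧ ∀ w', some w = some w' → w' ∉ E c from
      ⟨hs, fun w' e => Option.some.inj e ▸ hw⟩)]
    have e4 : ind_FHone (lc c ∈ T) ≤ (1 + f (lc c)) * d := by
      by_cases g : lc c ∈ T
      · rw [pos_FHone g]
        exact h1 _ g
      · rw [neg_FHone g]
        exact h0 _
    linarith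
  · rw [if_neg (show ¬ (lc c ∈ small z h ∧ ∀ w', some w = some w' → w' ∉ E c) from
      fun g => hs g.1)]
    have e4 : ind_FHone (lc c ∈ T) ≤ 1 := by
      unfold ind_FHone
      split_ifs <;> norm_num
    by_cases g : lc c = z
    · rw [pos_FHone g]
      linarith
    · rw [pos_FHone (by_contra fun g' => hs (mem_filter.2 ⟨mem_univ _, g, g'⟩) : lc c = h)]
      linarith

theorem medWP : MedWP := by
  intro k V Lv _ _ E z h σ lc w x x' ν κ hκ c1
  refine ⟨?_, fun c2 c3 => ?_⟩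
  · refine (med_FHone E z h lc w κ hκ _ (fun l => sg (σ l x) * sg (σ l w)) (1 / 2)
      (by norm_num) (fun l hl => ?_) fun l => ?_).trans ?_
    · rw [(mem_filter.1 hl).2]
      cases σ l x <;> norm_num [sg]
    · cases σ l x <;> cases σ l w <;> norm_num [sg]
    · have g := (abs_le.1 c1).2
      unfold cor at g
      linarith
  · refine (med_FHone E z h lc w κ hκ _ (fun l => sg (σ l x) * sg (σ l w) +
      sg (σ l x') * sg (σ l w) + sg (σ l x) * sg (σ l x')) (1 / 4)
      (by norm_num) (fun l hl => ?_) fun l => ?_).trans ?_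
    · rw [← (mem_filter.1 hl).2.1, ← (mem_filter.1 hl).2.2]
      cases σ l w <;> norm_num [sg]
    · cases σ l x <;> cases σ l w <;> cases σ l x' <;> norm_num [sg]
    · have g1 := (abs_le.1 c1).2
      have g2 := (abs_le.1 c2).2
      have g3 := (abs_le.1 c3).2
      unfold cor at g1 g2 g3
      rw [sum_add_distrib, sum_add_distrib]
      linarith

end Pool.Agent.MP_d20a68_co.T

end

section

/-! A minimal equivalence relation on the double cover exists. -/

set_option autoImplicit false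
set_option linter.unusedSectionVars false
set_option linter.unusedVariables false
open Finset
open scoped Classical

namespace Pool.Agent.MP_d20a68_co.T

open Pool.Agent.MP_d20a68_co.Poly

lemma prod_SBlkMin {α β : Type} [Fintype α] [Fintype β] (P : α → Prop) (Q : β → Prop) :
    cnt (fun p : α × β => P p.1 ∧ Q p.2) = cnt P * cnt Q := by
  unfold cnt
  rw [← card_product]
  congr 1
  ext p
  simp

lemma mem_SBlkMin {α : Type} [Fintype α] (Z : Finset α) : cnt (fun a => a ∈ Z) = Z.card := by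
  unfold cnt
  congr 1
  ext a
  simp

variable {V : Type} [Fintype V] {k : ℕ} {m : Fin k → V → V}

/-- The number of related pairs. -/
noncomputable def pr_SBlkMin (r : V × Bool → V × Bool → Prop) : ℕ :=
  cnt fun p : (V × Bool) × V × Bool => r p.1 p.2

/-- The admissible relations. -/
def Adm_SBlkMin (r : V × Bool → V × Bool → Prop) : Prop :=
  Equivalence r ∧ ∀ x y : V × Bool, r x y → r (x.1, !x.2) (y.1, !y.2)

lemma tau_SBlkMin (hf : Fac m) (P : Fin k × V × Bool → Prop) :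
    cnt (fun e : Fin k × V × Bool => P (e.1, m e.1 e.2.1, !e.2.2)) = cnt P :=
  cntS_invol (fun e : Fin k × V × Bool => (e.1, m e.1 e.2.1, !e.2.2))
    (fun e => by simp only [hf.inv, Bool.not_not]) P

lemma sig_SBlkMin (P : Fin k × V × Bool → Prop) :
    cnt (fun e : Fin k × V × Bool => P (e.1, e.2.1, !e.2.2)) = cnt P :=
  cntS_invol (fun e : Fin k × V × Bool => (e.1, e.2.1, !e.2.2))
    (fun e => by simp only [Bool.not_not]) P

/-- The refinement by a set. -/
def ref_SBlkMin (r : V × Bool → V × Bool → Prop) (Z : Finset (V × Bool)) (a b : V × Bool) : Prop :=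
  r a b ∧ (a ∈ Z ↔ b ∈ Z) ∧ ((a.1, !a.2) ∈ Z ↔ (b.1, !b.2) ∈ Z)

variable {r : V × Bool → V × Bool → Prop}

lemma refAdm_SBlkMin (h : Adm_SBlkMin r) (Z : Finset (V × Bool)) :
    Adm_SBlkMin (ref_SBlkMin r Z) := by
  refine ⟨⟨fun a => ⟨h.1.refl a, Iff.rfl, Iff.rfl⟩,
    fun e => ⟨h.1.symm e.1, e.2.1.symm, e.2.2.symm⟩,
    fun e e' => ⟨h.1.trans e.1 e'.1, e.2.1.trans e'.2.1, e.2.2.trans e'.2.2⟩⟩, fun x y e => ?_⟩
  refine ⟨h.2 x y e.1, e.2.2, ?_⟩
  simp only [Bool.not_not]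
  exact e.2.1

lemma refPr_SBlkMin (h : Adm_SBlkMin r) {x : V × Bool} {Z : Finset (V × Bool)}
    (hZ : ∀ w ∈ Z, r x w) :
    pr_SBlkMin (ref_SBlkMin r Z) + 2 * (Z.card * cnt fun w => r x w ∧ w ∉ Z) ≤ pr_SBlkMin r := by
  have e1 := prod_SBlkMin (fun a => a ∈ Z) fun w => r x w ∧ w ∉ Z
  have e2 := prod_SBlkMin (fun w => r x w ∧ w ∉ Z) fun a => a ∈ Z
  rw [mem_SBlkMin] at e1 e2
  have e3 := cntS_or (P := fun p : (V × Bool) × V × Bool => p.1 ∈ Z ∧ r x p.2 ∧ p.2 ∉ Z)
    (Q := fun p => (r x p.1 ∧ p.1 ∉ Z) ∧ p.2 ∈ Z) fun p a b => b.1.2 a.1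
  have e4 := cntS_or (P := fun p : (V × Bool) × V × Bool => ref_SBlkMin r Z p.1 p.2)
    (Q := fun p => (p.1 ∈ Z ∧ r x p.2 ∧ p.2 ∉ Z) ∨ (r x p.1 ∧ p.1 ∉ Z) ∧ p.2 ∈ Z)
    fun p a b => b.elim (fun b => b.2.2 (a.2.1.1 b.1)) fun b => b.1.2 (a.2.1.2 b.2)
  have e5 := cntS_mono (P := fun p : (V × Bool) × V × Bool => ref_SBlkMin r Z p.1 p.2 ∨
      (p.1 ∈ Z ∧ r x p.2 ∧ p.2 ∉ Z) ∨ (r x p.1 ∧ p.1 ∉ Z) ∧ p.2 ∈ Z) (Q := fun p => r p.1 p.2)
    fun p a => a.elim (fun a => a.1) fun b =>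
      b.elim (fun b => h.1.trans (h.1.symm (hZ _ b.1)) b.2.1)
        fun b => h.1.trans (h.1.symm b.1.1) (hZ _ b.2)
  rw [e4, e3, e1, e2, mul_comm _ Z.card] at e5
  unfold pr_SBlkMin
  omega

lemma refCrs_SBlkMin (hf : Fac m) (h : Adm_SBlkMin r) {x : V × Bool} {Z : Finset (V × Bool)}
    (hZ : ∀ w ∈ Z, r x w) :
    crs m (ref_SBlkMin r Z) ≤ crs m r + 4 * cnt fun e : Fin k × V × Bool =>
      e.2 ∈ Z ∧ r x (m e.1 e.2.1, !e.2.2) ∧ (m e.1 e.2.1, !e.2.2) ∉ Z := by
  obtain ⟨P, hP⟩ : ∃ P : Fin k × V × Bool → Prop, P = fun e =>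
    e.2 ∈ Z ∧ r x (m e.1 e.2.1, !e.2.2) ∧ (m e.1 e.2.1, !e.2.2) ∉ Z := ⟨_, rfl⟩
  rw [← hP]
  have e1 := tau_SBlkMin hf P
  have e2 := sig_SBlkMin P
  have e3 := tau_SBlkMin hf fun e => P (e.1, e.2.1, !e.2.2)
  have e4 := cntS_mono (P := fun e : Fin k × V × Bool =>
      ¬ ref_SBlkMin r Z e.2 (m e.1 e.2.1, !e.2.2))
    (Q := fun e => ¬ r e.2 (m e.1 e.2.1, !e.2.2) ∨ (P e ∨ P (e.1, m e.1 e.2.1, !e.2.2)) ∨
      (P (e.1, e.2.1, !e.2.2) ∨ P (e.1, m e.1 e.2.1, !!e.2.2))) (by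
    rintro ⟨c, a, b⟩ hn
    by_cases h0 : r (a, b) (m c a, !b)
    · right
      have h1 := h.2 _ _ h0
      simp only [hP, hf.inv, Bool.not_not, ref_SBlkMin] at hn h1 ⊢
      by_cases z1 : (a, b) ∈ Z <;> by_cases z2 : (m c a, !b) ∈ Z
      · right
        by_cases z3 : (a, !b) ∈ Z
        · exact Or.inl ⟨z3, h.1.trans (hZ _ z3) h1, fun z4 => hn ⟨h0, by tauto, by tauto⟩⟩
        · have z4 : (m c a, b) ∈ Z := by
            by_contra z4
            exact hn ⟨h0, by tauto, by tauto⟩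
          exact Or.inr ⟨z4, h.1.trans (hZ _ z4) (h.1.symm h1), z3⟩
      · exact Or.inl (Or.inl ⟨z1, h.1.trans (hZ _ z1) h0, z2⟩)
      · exact Or.inl (Or.inr ⟨z2, h.1.trans (hZ _ z2) (h.1.symm h0), z1⟩)
      · right
        by_cases z3 : (a, !b) ∈ Z
        · exact Or.inl ⟨z3, h.1.trans (hZ _ z3) h1, fun z4 => hn ⟨h0, by tauto, by tauto⟩⟩
        · have z4 : (m c a, b) ∈ Z := by
            by_contra z4
            exact hn ⟨h0, by tauto, by tauto⟩
          exact Or.inr ⟨z4, h.1.trans (hZ _ z4) (h.1.symm h1), z3⟩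
    · exact Or.inl h0)
  have e5 := cntS_or_le (fun e : Fin k × V × Bool => ¬ r e.2 (m e.1 e.2.1, !e.2.2))
    fun e => (P e ∨ P (e.1, m e.1 e.2.1, !e.2.2)) ∨
      (P (e.1, e.2.1, !e.2.2) ∨ P (e.1, m e.1 e.2.1, !!e.2.2))
  have e6 := cntS_or_le (fun e : Fin k × V × Bool => P e ∨ P (e.1, m e.1 e.2.1, !e.2.2))
    fun e => P (e.1, e.2.1, !e.2.2) ∨ P (e.1, m e.1 e.2.1, !!e.2.2)
  have e7 := cntS_or_le P fun e => P (e.1, m e.1 e.2.1, !e.2.2)
  have e8 := cntS_or_le (fun e : Fin k × V × Bool => P (e.1, e.2.1, !e.2.2))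
    fun e => P (e.1, m e.1 e.2.1, !!e.2.2)
  unfold crs
  simp only at e3
  omega

/-- Moving the vertex `v` to the place of `w`. -/
noncomputable def pi_SBlkMin (v w : V) (x : V × Bool) : V × Bool :=
  if x.1 = v then (w, x.2) else x

lemma movAdm_SBlkMin (h : Adm_SBlkMin r) (v w : V) :
    Adm_SBlkMin fun a b => r (pi_SBlkMin v w a) (pi_SBlkMin v w b) := by
  have key : ∀ a : V × Bool, pi_SBlkMin v w (a.1, !a.2) =
      ((pi_SBlkMin v w a).1, !(pi_SBlkMin v w a).2) := fun a => by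
    unfold pi_SBlkMin
    split_ifs <;> rfl
  refine ⟨⟨fun a => h.1.refl _, fun e => h.1.symm e, fun e e' => h.1.trans e e'⟩, fun x y e => ?_⟩
  show r (pi_SBlkMin v w (x.1, !x.2)) (pi_SBlkMin v w (y.1, !y.2))
  rw [key, key]
  exact h.2 _ _ e

lemma movPr_SBlkMin (r : V × Bool → V × Bool → Prop) (v w : V) :
    pr_SBlkMin (fun a b => r (pi_SBlkMin v w a) (pi_SBlkMin v w b)) ≤
      pr_SBlkMin r + 8 * Fintype.card V := by
  have e0 : cnt (fun _ : Bool × V × Bool => True) = 4 * Fintype.card V := by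
    rw [cntS_true]
    simp only [Fintype.card_prod, Fintype.card_bool]
    omega
  have e1 := cntS_le_of_inj (P := fun p : (V × Bool) × V × Bool => p.1.1 = v)
    (Q := fun _ : Bool × V × Bool => True) (fun p => (p.1.2, p.2)) (fun _ _ => trivial)
    fun p q a b e => Prod.ext (Prod.ext (a.trans b.symm) (Prod.ext_iff.1 e).1)
      (Prod.ext_iff.1 e).2
  have e2 := cntS_le_of_inj (P := fun p : (V × Bool) × V × Bool => p.2.1 = v)
    (Q := fun _ : Bool × V × Bool => True) (fun p => (p.2.2, p.1)) (fun _ _ => trivial)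
    fun p q a b e => Prod.ext (congrArg Prod.snd e)
      (Prod.ext (a.trans b.symm) (congrArg Prod.fst e))
  have e3 := cntS_or_le (fun p : (V × Bool) × V × Bool => p.1.1 = v) fun p => p.2.1 = v
  have e4 := cntS_or_le (fun p : (V × Bool) × V × Bool => r p.1 p.2)
    fun p => p.1.1 = v ∨ p.2.1 = v
  have e5 := cntS_mono
    (P := fun p : (V × Bool) × V × Bool => r (pi_SBlkMin v w p.1) (pi_SBlkMin v w p.2))
    (Q := fun p => r p.1 p.2 ∨ p.1.1 = v ∨ p.2.1 = v) fun p a => by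
      by_cases h1 : p.1.1 = v
      · exact Or.inr (Or.inl h1)
      · by_cases h2 : p.2.1 = v
        · exact Or.inr (Or.inr h2)
        · rw [pi_SBlkMin, pi_SBlkMin, if_neg h1, if_neg h2] at a
          exact Or.inl a
  simp only [pr_SBlkMin]
  omega

lemma four_SBlkMin (hf : Fac m) (h : Adm_SBlkMin r) (v : V) :
    cnt (fun e : Fin k × V × Bool => ¬ r e.2 (m e.1 e.2.1, !e.2.2) ∧
      (e.2.1 = v ∨ m e.1 e.2.1 = v)) + 4 * cnt (fun c => r (v, true) (m c v, false)) = 4 * k := by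
  obtain ⟨Q, hQ⟩ : ∃ Q : Fin k × V × Bool → Prop, Q = fun e =>
    ¬ r e.2 (m e.1 e.2.1, !e.2.2) ∧ e.2.1 = v := ⟨_, rfl⟩
  have e1 := tau_SBlkMin hf Q
  have e2 := cntS_or (P := Q) (Q := fun e => Q (e.1, m e.1 e.2.1, !e.2.2)) (by
    rintro ⟨c, a, b⟩ h1 h2
    rw [hQ] at h1 h2
    exact hf.ne c a (h2.2.trans h1.2.symm))
  have e3 := cntS_congr (P := fun e : Fin k × V × Bool => ¬ r e.2 (m e.1 e.2.1, !e.2.2) ∧
      (e.2.1 = v ∨ m e.1 e.2.1 = v)) (Q := fun e => Q e ∨ Q (e.1, m e.1 e.2.1, !e.2.2)) (by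
    rintro ⟨c, a, b⟩
    have h1 : r (m c a, !b) (a, b) ↔ r (a, b) (m c a, !b) := ⟨h.1.symm, h.1.symm⟩
    simp only [hQ, hf.inv, Bool.not_not, h1]
    tauto)
  have e4 := cntS_split Q fun e => e.2.2 = true
  have e5 := sig_SBlkMin fun e => Q e ∧ e.2.2 = true
  have e6 := cntS_congr (P := fun e : Fin k × V × Bool => Q e ∧ ¬ e.2.2 = true)
    (Q := fun e => Q (e.1, e.2.1, !e.2.2) ∧ (!e.2.2) = true) (by
    rintro ⟨c, a, b⟩
    have h1 : r (a, true) (m c a, false) ↔ r (a, false) (m c a, true) :=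
      ⟨h.2 _ _, h.2 _ _⟩
    cases b <;> simp [hQ, h1])
  have e7 : cnt (fun e : Fin k × V × Bool => Q e ∧ e.2.2 = true) =
      cnt fun c => ¬ r (v, true) (m c v, false) := by
    refine le_antisymm (cntS_le_of_inj Prod.fst ?_ ?_)
      (cntS_le_of_inj (fun c => (c, v, true)) ?_ fun c c' _ _ e => congrArg Prod.fst e)
    · rintro ⟨c, a, b⟩ ⟨h1, h2⟩
      rw [hQ] at h1
      obtain ⟨h1, h3⟩ := h1
      simp only at h1 h2 h3
      subst h2 h3
      exact h1
    · rintro ⟨c, a, b⟩ ⟨c', a', b'⟩ ⟨h1, h2⟩ ⟨h3, h4⟩ e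
      rw [hQ] at h1 h3
      exact Prod.ext e (Prod.ext (h1.2.trans h3.2.symm) (h2.trans h4.symm))
    · intro c hc
      rw [hQ]
      exact ⟨⟨hc, rfl⟩, rfl⟩
  have e8 := cntS_split (fun _ : Fin k => True) fun c => r (v, true) (m c v, false)
  rw [cntS_true, Fintype.card_fin] at e8
  simp only [true_and] at e8 e5
  omega

lemma movCrs_SBlkMin (hf : Fac m) (h : Adm_SBlkMin r) (v w : V) :
    crs m (fun a b => r (pi_SBlkMin v w a) (pi_SBlkMin v w b)) +
      4 * cnt (fun c => r (w, true) (m c v, false)) =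
      crs m r + 4 * cnt (fun c => r (v, true) (m c v, false)) := by
  have e1 := four_SBlkMin hf h v
  have e2 := four_SBlkMin hf (movAdm_SBlkMin h v w) v
  have e3 := cntS_congr
    (P := fun c => r (pi_SBlkMin v w (v, true)) (pi_SBlkMin v w (m c v, false)))
    (Q := fun c => r (w, true) (m c v, false)) fun c => by
      rw [pi_SBlkMin, pi_SBlkMin, if_pos rfl, if_neg (hf.ne c v)]
  have e4 := cntS_split (fun e : Fin k × V × Bool => ¬ r e.2 (m e.1 e.2.1, !e.2.2))
    fun e => e.2.1 = v ∨ m e.1 e.2.1 = v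
  have e5 := cntS_split (fun e : Fin k × V × Bool =>
    ¬ r (pi_SBlkMin v w e.2) (pi_SBlkMin v w (m e.1 e.2.1, !e.2.2)))
    fun e => e.2.1 = v ∨ m e.1 e.2.1 = v
  have e6 := cntS_congr (P := fun e : Fin k × V × Bool =>
      ¬ r (pi_SBlkMin v w e.2) (pi_SBlkMin v w (m e.1 e.2.1, !e.2.2)) ∧
        ¬ (e.2.1 = v ∨ m e.1 e.2.1 = v))
    (Q := fun e => ¬ r e.2 (m e.1 e.2.1, !e.2.2) ∧ ¬ (e.2.1 = v ∨ m e.1 e.2.1 = v)) fun e =>
      and_congr_left fun a => by
        rw [pi_SBlkMin, pi_SBlkMin, if_neg fun b => a (Or.inl b), if_neg fun b => a (Or.inr b)]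
  simp only [crs]
  omega

theorem blkMinS : BlkMinP := by
  intro V _ k m φ₀ hf hφ
  have hT : Adm_SBlkMin fun _ _ : V × Bool => True :=
    ⟨⟨fun _ => trivial, fun _ => trivial, fun _ _ => trivial⟩, fun _ _ _ => trivial⟩
  obtain ⟨r, hr, hmin⟩ := Set.exists_min_image {r : V × Bool → V × Bool → Prop | Adm_SBlkMin r}
    (fun r => (crs m r : ℝ) + φ₀ * pr_SBlkMin r) (Set.toFinite _) ⟨_, hT⟩
  have hr : Adm_SBlkMin r := hr
  refine ⟨r, hr.1, hr.2, ?_, fun x Z hZ => ?_, fun v w => ?_⟩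
  · have h1 := hmin _ hT
    have h2 : crs m (fun _ _ : V × Bool => True) = 0 := cntS_zero fun _ h => h trivial
    have h3 : (pr_SBlkMin (fun _ _ : V × Bool => True) : ℝ) = (2 * Fintype.card V) ^ 2 := by
      rw [pr_SBlkMin, cntS_true]
      simp only [Fintype.card_prod, Fintype.card_bool]
      push_cast
      ring
    have h4 : 0 ≤ φ₀ * pr_SBlkMin r := mul_nonneg hφ (Nat.cast_nonneg _)
    simp only [h2, h3, Nat.cast_zero, zero_add] at h1
    linarith
  · have h1 := hmin _ (refAdm_SBlkMin hr Z)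
    have h2 := (Nat.cast_le (α := ℝ)).2 (refPr_SBlkMin hr hZ)
    have h3 := (Nat.cast_le (α := ℝ)).2 (refCrs_SBlkMin hf hr hZ)
    push_cast at h2 h3
    have h4 := mul_le_mul_of_nonneg_left h2 hφ
    linarith
  · have h1 := hmin _ (movAdm_SBlkMin hr v w)
    have h2 := (Nat.cast_le (α := ℝ)).2 (movPr_SBlkMin r v w)
    have h3 := congrArg (Nat.cast : ℕ → ℝ) (movCrs_SBlkMin hf hr v w)
    push_cast at h2 h3
    have h4 := mul_le_mul_of_nonneg_left h2 hφ
    linarith

end Pool.Agent.MP_d20a68_co.T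

end

section

/-! The classes of a minimal equivalence relation on the double cover are large. -/

set_option autoImplicit false
open Finset
open scoped Classical

namespace Pool.Agent.MP_d20a68_co.T

open Pool.Agent.MP_d20a68_co.Poly

lemma num_SBlkBig {k C n b g a φ X : ℝ} (hk : 0 < k) (hC : 1 ≤ C) (hn0 : 0 ≤ n) (hn : n ≤ C * k)
    (hφ : φ * (60 * C ^ 3) = 1) (hφ0 : 0 ≤ φ) (hb0 : 0 ≤ b) (ha : 0 ≤ a) (h1 : b * k ≤ 4 * X)
    (h2 : X ≤ φ * (2 * n) ^ 2) (h3 : k ≤ g + b) (h4 : 3 * k * g ≤ 4 * (n * (a + 2 * φ * n))) :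
    b < a := by
  have hC0 : 0 < C := by linarith
  have e1 : n ^ 2 ≤ (C * k) ^ 2 := pow_le_pow_left₀ hn0 hn 2
  have e2 : φ * n ^ 2 * (60 * C) ≤ k ^ 2 := by
    calc φ * n ^ 2 * (60 * C) ≤ φ * (C * k) ^ 2 * (60 * C) := by gcongr
      _ = φ * (60 * C ^ 3) * k ^ 2 := by ring
      _ = k ^ 2 := by rw [hφ, one_mul]
  have e3 : 0 ≤ φ * n ^ 2 := by positivity
  have e4 : φ * n ^ 2 * 60 ≤ k ^ 2 := by nlinarith
  have e5 : 15 * C * b ≤ 4 * k := by
    refine le_of_mul_le_mul_right ?_ hk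
    have : b * k * C ≤ 16 * (φ * n ^ 2) * C := mul_le_mul_of_nonneg_right (by linarith) hC0.le
    linarith
  have e6 : 15 * b ≤ 4 * k := by linarith [mul_le_mul_of_nonneg_right hC hb0]
  have e7 : n * a ≤ C * k * a := mul_le_mul_of_nonneg_right hn ha
  have e8 : 31 * k ≤ 60 * C * a := by
    refine le_of_mul_le_mul_right ?_ hk
    have : k * (11 * k) ≤ k * (15 * g) := mul_le_mul_of_nonneg_left (by linarith) hk.le
    linarith
  refine lt_of_mul_lt_mul_left (a := 60 * C) ?_ (by linarith)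
  linarith

theorem blkBigS : BlkBigP := by
  intro V _ k C m r hm hC hV H x
  rcases Nat.eq_zero_or_pos k with rfl | hk
  · exact Nat.zero_le _
  obtain ⟨v, s⟩ := x
  obtain ⟨A, hA⟩ : ∃ A : V → ℕ, ∀ u, A u = cnt fun c => r (u, true) (m c u, false) :=
    ⟨_, fun _ => rfl⟩
  have h1 : ∀ u, A u ≤ cnt fun w => r (w, true) (u, false) := fun u => by
    rw [hA]
    exact cntS_le_of_inj (fun c => m c u) (fun c h => H.eqv.symm (H.sw _ _ h))
      fun c c' _ _ e => hm.inj c c' u e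
  have h2 : (cnt fun u => 4 * A u < 3 * k) * k ≤ 4 * crs m r := by
    have e1 : (cnt fun e : Fin k × V => ¬ r (e.2, true) (m e.1 e.2, false)) ≤ crs m r :=
      cntS_le_of_inj (fun e => (e.1, e.2, true)) (fun _ h => h) fun e e' _ _ h =>
        Prod.ext (congrArg Prod.fst h :) (congrArg (fun y => y.2.1) h :)
    refine le_trans ?_ (Nat.mul_le_mul_left 4 e1)
    rw [cntS_fiber _ Prod.snd, cntS_sum, sum_mul, mul_sum]
    refine sum_le_sum fun u _ => ?_
    have e2 := cntS_split (fun _ : Fin k => True) fun c => r (u, true) (m c u, false)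
    have e3 : (cnt fun c => True ∧ ¬ r (u, true) (m c u, false)) ≤
        cnt fun e : Fin k × V => ¬ r (e.2, true) (m e.1 e.2, false) ∧ e.2 = u :=
      cntS_le_of_inj (fun c => (c, u)) (fun _ h => ⟨h.2, rfl⟩) fun _ _ _ _ h => congrArg Prod.fst h
    rw [cntS_true, Fintype.card_fin, cntS_congr fun c => (true_and _).to_iff, ← hA] at e2
    split_ifs <;> omega
  have h3 : (cnt fun c => 4 * A (m c v) < 3 * k) ≤ cnt fun u => 4 * A u < 3 * k :=
    cntS_le_of_inj (fun c => m c v) (fun _ h => h) fun c c' _ _ e => hm.inj c c' v e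
  have h4 := cntS_split (fun _ : Fin k => True) fun c => 4 * A (m c v) < 3 * k
  simp only [cntS_true, Fintype.card_fin, true_and] at h4
  have h5 : 3 * k * (cnt fun c => ¬ 4 * A (m c v) < 3 * k) ≤
      4 * ∑ w, cnt fun c => r (w, true) (m c v, false) := by
    have e1 : ∑ w, (cnt fun c => r (w, true) (m c v, false)) =
        ∑ c, cnt fun w => r (w, true) (m c v, false) := by
      simp only [cntS_sum]
      exact sum_comm
    rw [e1, cntS_sum, mul_sum, mul_sum]
    refine sum_le_sum fun c _ => ?_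
    have := h1 (m c v)
    split_ifs <;> omega
  have h6 : ((∑ w, cnt fun c => r (w, true) (m c v, false) : ℕ) : ℝ) ≤
      Fintype.card V * (A v + 2 * (1 / (60 * (C : ℝ) ^ 3)) * Fintype.card V) := by
    rw [Nat.cast_sum, hA, ← nsmul_eq_mul, ← card_univ]
    exact sum_le_card_nsmul _ _ _ fun w _ => H.mov v w
  have hC' : (1 : ℝ) ≤ C := by exact_mod_cast hC
  have h7 : (cnt fun u => 4 * A u < 3 * k) < A v := by
    have e1 : (3 * k * (cnt fun c => ¬ 4 * A (m c v) < 3 * k) : ℝ) ≤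
      4 * ((∑ w, cnt fun c => r (w, true) (m c v, false) : ℕ) : ℝ) := by exact_mod_cast h5
    exact_mod_cast num_SBlkBig (k := k) (X := crs m r) (b := cnt fun u => 4 * A u < 3 * k)
      (g := cnt fun c => ¬ 4 * A (m c v) < 3 * k) (by exact_mod_cast hk) hC' (Nat.cast_nonneg _)
      (by exact_mod_cast hV) (by field_simp) (by positivity) (Nat.cast_nonneg _) (Nat.cast_nonneg _)
      (by exact_mod_cast h2) H.tot (by exact_mod_cast (by omega)) (e1.trans (by linarith))
  obtain ⟨c, hc, hg⟩ : ∃ c, r (v, true) (m c v, false) ∧ 3 * k ≤ 4 * A (m c v) := by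
    by_contra hcon
    push Not at hcon
    have := cntS_mono hcon
    rw [← hA] at this
    omega
  have h8 : (cnt fun w => r (w, true) (m c v, false)) ≤ cnt fun w => r (v, s) w := by
    refine cntS_le_of_inj (fun w => (w, s)) (fun w h => ?_) fun _ _ _ _ h => congrArg Prod.fst h
    have e1 := H.eqv.trans hc (H.eqv.symm h)
    cases s
    exacts [H.sw _ _ e1, e1]
  have := h1 (m c v)
  omega

end Pool.Agent.MP_d20a68_co.T

end
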