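import Pool.Agent.Mg.Xd20a68.Ge7e6f2
import Pool.Agent.Mg.Xd20a68.G7633c2

section

/-! A small exchange between two matchings that keeps the invariants. -/

set_option autoImplicit false
open Finset
open scoped Classical

namespace Pool.Agent.MP_d20a68_co.T

open Pool.Agent.MP_d20a68_co.Poly

/-- The difference of the sums over the two sets. -/
noncomputable def df_FSwap {V : Type} (E₁ E₂ : Finset V) (g : V → ℤ) (O : Finset V) : ℤ :=
  ∑ v ∈ O, ((if v ∈ E₁ then g v else 0) - if v ∈ E₂ then g v else 0)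

lemma df_eq_FSwap {V : Type} (E₁ E₂ : Finset V) (g : V → ℤ) (O : Finset V) :
    df_FSwap E₁ E₂ g O = ∑ v ∈ E₁ ∩ O, g v - ∑ v ∈ E₂ ∩ O, g v := by
  unfold df_FSwap
  rw [sum_sub_distrib, sum_ite_mem, sum_ite_mem, inter_comm O, inter_comm O]

lemma df_sum_FSwap {V : Type} [Fintype V] (E₁ E₂ : Finset V) (g : V → ℤ) {K : V → Finset V}
    (h2 : ∀ x, ∀ y ∈ K x, K y = K x) {J : Finset (Finset V)} (hJ : J ⊆ univ.image K) :
    ∑ O ∈ J, df_FSwap E₁ E₂ g O = df_FSwap E₁ E₂ g (J.biUnion id) := by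
  unfold df_FSwap
  rw [sum_biUnion]
  · rfl
  · intro O hO O' hO' hne
    obtain ⟨x, -, rfl⟩ := mem_image.1 (hJ hO)
    obtain ⟨x', -, rfl⟩ := mem_image.1 (hJ hO')
    refine disjoint_left.2 fun y hy hy' => hne ?_
    exact (h2 x y hy).symm.trans (h2 x' y hy')

lemma df_le_FSwap {V : Type} [Fintype V] (E₁ E₂ : Finset V) {g : V → ℤ} (hg : ∀ v, |g v| ≤ 1)
    {O : Finset V} {P : V → Prop} (hP : ∀ v, ¬ P v → v ∈ E₁ ∧ v ∈ E₂)
    (h : (cnt fun y => y ∈ O ∧ P y) ≤ 2) : |df_FSwap E₁ E₂ g O| ≤ 2 := by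
  unfold df_FSwap
  refine (abs_sum_le_sum_abs _ _).trans ?_
  have h1 : ∀ v ∈ O, |(if v ∈ E₁ then g v else 0) - if v ∈ E₂ then g v else 0| ≤
      if P v then 1 else 0 := by
    intro v _
    have h3 := hg v
    by_cases hv : P v
    · rw [if_pos hv]
      split_ifs <;> simp [h3]
    · rw [if_neg hv, if_pos (hP v hv).1, if_pos (hP v hv).2]
      simp
  refine (sum_le_sum h1).trans ?_
  rw [sum_boole]
  have h4 : (O.filter P).card = cnt fun y => y ∈ O ∧ P y := by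
    unfold cnt
    congr 1
    ext y
    simp
  rw [h4]
  exact_mod_cast h

/-- Truncation. -/
def cl_FSwap (x : ℤ) : Finset.Icc (-2 : ℤ) 2 := ⟨max (-2) (min 2 x), by simp⟩

lemma cl_eq_FSwap {x : ℤ} (h : |x| ≤ 2) : (cl_FSwap x : ℤ) = x := by
  have := abs_le.1 h
  simp only [cl_FSwap]
  omega

lemma cnt_sum_FSwap {V : Type} [Fintype V] (E : Finset V) (P : V → Prop) :
    ∑ v ∈ E, (if P v then 1 else 0 : ℤ) = (cnt fun v => v ∈ E ∧ P v : ℕ) := by
  rw [sum_boole]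
  unfold cnt
  congr 2
  ext y
  simp

lemma cnt_add_FSwap {V : Type} [Fintype V] (E : Finset V) (P : V → Prop) :
    (cnt fun v => v ∈ E ∧ P v) + (cnt fun v => v ∉ E ∧ P v) = cnt P := by
  unfold cnt
  rw [← card_filter_add_card_filter_not (s := univ.filter P) (fun v => v ∈ E)]
  congr 2 <;> ext y <;> simp [and_comm]

lemma inv_FSwap {V : Type} {E : Finset V} {e : V → V} (h1 : ∀ v ∈ E, e v ∈ E)
    (h2 : ∀ v ∈ E, e (e v) = v) (v : V) :
    (fun v => if v ∈ E then e v else v) ((fun v => if v ∈ E then e v else v) v) = v := by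
  by_cases hv : v ∈ E
  · simp [hv, h1 v hv, h2 v hv]
  · simp [hv]

theorem swapP (hZ : ZsP) (hO : OrbP) : SwapP := by
  intro R
  obtain ⟨D, hD⟩ := hZ ((Fin R → Finset.Icc (-2 : ℤ) 2) × (Fin R → ZMod 2))
    ((Fin R → ℤ) × (Fin R → ZMod 2)) fun n => (fun a => (n.1 a : ℤ), n.2)
  refine ⟨2 * D, fun V _ lab fl r E₁ E₂ e₁ e₂ M₁ M₂ hlt => ?_⟩
  obtain ⟨K, k1, k2, k3, k4⟩ := hO V (fun v => if v ∈ E₁ then e₁ v else v)
    (fun v => if v ∈ E₂ then e₂ v else v) (inv_FSwap M₁.cl M₁.inv) (inv_FSwap M₂.cl M₂.inv)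
  have hb : ∀ g : V → ℤ, (∀ v, |g v| ≤ 1) → ∀ O ∈ univ.image K, |df_FSwap E₁ E₂ g O| ≤ 2 := by
    intro g hg O hO
    obtain ⟨x, -, rfl⟩ := mem_image.1 hO
    refine df_le_FSwap E₁ E₂ hg (fun v hv => ?_) (k4 x)
    rw [not_or] at hv
    exact ⟨by_contra fun h => hv.1 (if_neg h), by_contra fun h => hv.2 (if_neg h)⟩
  have hu : (univ.image K).biUnion id = univ := by
    refine eq_univ_of_forall fun x => mem_biUnion.2 ⟨K x, mem_image_of_mem _ (mem_univ _), k1 x⟩
  have hdl : ∀ a v, |dl r fl a (lab v)| ≤ 1 := by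
    intro a v
    unfold dl
    split_ifs <;> simp
  let ty : Finset V → (Fin R → Finset.Icc (-2 : ℤ) 2) × (Fin R → ZMod 2) := fun O =>
    (fun a => cl_FSwap (df_FSwap E₁ E₂ (fun v => dl r fl a (lab v)) O),
      fun a => ((df_FSwap E₁ E₂ (fun v => if orb r fl a (lab v) then 1 else 0) O : ℤ) : ZMod 2))
  have key : ∀ J ⊆ univ.image K, ∑ O ∈ J, ((fun a => ((ty O).1 a : ℤ), (ty O).2) :
      (Fin R → ℤ) × (Fin R → ZMod 2)) =
      (fun a => df_FSwap E₁ E₂ (fun v => dl r fl a (lab v)) (J.biUnion id),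
        fun a => ((df_FSwap E₁ E₂ (fun v => if orb r fl a (lab v) then 1 else 0)
          (J.biUnion id) : ℤ) : ZMod 2)) := by
    intro J hJ
    ext a
    · rw [Prod.fst_sum, Finset.sum_apply]
      dsimp only
      rw [← df_sum_FSwap _ _ _ k2 hJ]
      exact sum_congr rfl fun O hO => cl_eq_FSwap (hb _ (hdl a) O (hJ hO))
    · rw [Prod.snd_sum, Finset.sum_apply]
      dsimp only
      rw [← df_sum_FSwap _ _ _ k2 hJ, Int.cast_sum]
  obtain ⟨J, hJ, j1, j2, j3⟩ := hD (Finset V) (univ.image K) ty (df_FSwap E₁ E₂ fun _ => 1)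
    (by
      rw [key _ subset_rfl, hu]
      ext a
      · simp only [df_eq_FSwap, inter_univ, M₁.dif, M₂.dif, sub_self, Prod.fst_zero, Pi.zero_apply]
      · have p1 := M₁.par a
        have p2 := M₂.par a
        have q1 := cnt_add_FSwap E₁ fun v => orb r fl a (lab v)
        have q2 := cnt_add_FSwap E₂ fun v => orb r fl a (lab v)
        simp only [df_eq_FSwap, inter_univ, cnt_sum_FSwap, Prod.snd_zero, Pi.zero_apply]
        rw [ZMod.intCast_zmod_eq_zero_iff_dvd]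
        rw [Nat.even_iff] at p1 p2
        omega)
    (by
      rw [df_sum_FSwap _ _ _ k2 subset_rfl, hu, df_eq_FSwap]
      simp only [inter_univ, sum_const, nsmul_eq_mul, mul_one]
      omega)
  rw [key J hJ] at j2
  have j4 : ∑ O ∈ J, df_FSwap E₁ E₂ (fun _ => 1) O ≤ J.card * 2 := by
    have := sum_le_card_nsmul J (df_FSwap E₁ E₂ fun _ => 1) 2 fun O hO =>
      (le_abs_self _).trans (hb _ (fun _ => by simp) O (hJ hO))
    simpa using this
  rw [df_sum_FSwap _ _ _ k2 hJ, df_eq_FSwap] at j3 j4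
  simp only [sum_const, nsmul_eq_mul, mul_one] at j3 j4
  have hcl : ∀ v ∈ J.biUnion id, (if v ∈ E₁ then e₁ v else v) ∈ J.biUnion id ∧
      (if v ∈ E₂ then e₂ v else v) ∈ J.biUnion id := by
    intro v hv
    obtain ⟨O, hO, hvO⟩ := mem_biUnion.1 hv
    obtain ⟨x, -, rfl⟩ := mem_image.1 (hJ hO)
    exact ⟨mem_biUnion.2 ⟨_, hO, (k3 x v hvO).1⟩, mem_biUnion.2 ⟨_, hO, (k3 x v hvO).2⟩⟩
  refine ⟨J.biUnion id, fun v hv h => ?_, fun v hv h => ?_, by omega, by omega, fun a => ?_,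
    fun a => ?_⟩
  · have := (hcl v hv).1
    rwa [if_pos h] at this
  · have := (hcl v hv).2
    rwa [if_pos h] at this
  · have := congrFun (congrArg Prod.fst j2) a
    simp only [df_eq_FSwap, Prod.fst_zero, Pi.zero_apply] at this
    exact sub_eq_zero.1 this
  · have := congrFun (congrArg Prod.snd j2) a
    simp only [df_eq_FSwap, cnt_sum_FSwap, Prod.snd_zero, Pi.zero_apply] at this
    rw [ZMod.intCast_zmod_eq_zero_iff_dvd] at this
    rw [Nat.even_iff]
    omega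

end Pool.Agent.MP_d20a68_co.T

end

section

/-! Flipping few typical vertices keeps the joint equidistribution. -/

set_option autoImplicit false
set_option linter.unusedSectionVars false
set_option linter.unusedVariables false
open Finset
open scoped Classical

namespace Pool.Agent.MP_d20a68_co.T

open Pool.Agent.MP_d20a68_co.Poly

theorem cnt_le_FFrob {α : Type} [Fintype α] {P P' W : α → Prop} (h : ∀ x, P x → P' x ∨ W x) :
    cnt P ≤ cnt P' + cnt W := by
  unfold cnt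
  refine le_trans (card_le_card ?_) (card_union_le _ _)
  intro x hx
  simp only [mem_filter, mem_univ, true_and, mem_union] at hx ⊢
  exact h x hx

theorem cnt_abs_FFrob {α : Type} [Fintype α] {P P' W : α → Prop}
    (h : ∀ x, ¬ W x → (P x ↔ P' x)) : |(cnt P : ℝ) - cnt P'| ≤ cnt W := by
  have h1 : cnt P ≤ cnt P' + cnt W := cnt_le_FFrob fun x hx => by
    by_cases hw : W x
    · exact Or.inr hw
    · exact Or.inl ((h x hw).1 hx)
  have h2 : cnt P' ≤ cnt P + cnt W := cnt_le_FFrob fun x hx => by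
    by_cases hw : W x
    · exact Or.inr hw
    · exact Or.inl ((h x hw).2 hx)
  have h1' : (cnt P : ℝ) ≤ cnt P' + cnt W := by exact_mod_cast h1
  have h2' : (cnt P' : ℝ) ≤ cnt P + cnt W := by exact_mod_cast h2
  rw [abs_le]
  constructor <;> linarith

theorem cnt_mem_FFrob {α : Type} [Fintype α] (G : Finset α) : (cnt fun x => x ∈ G) = G.card := by
  unfold cnt
  congr 1
  ext x
  simp

variable {V : Type} [Fintype V] {k R : ℕ}

theorem nd_swap_FFrob {m : Fin k → V → V} (hm : Fac m) (P : Fin k → V → Prop) :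
    nd P = nd fun c v => P c (m c v) := by
  unfold nd cnt
  refine card_bij' (fun e _ => (e.1, m e.1 e.2)) (fun e _ => (e.1, m e.1 e.2)) ?_ ?_ ?_ ?_
  · intro e he
    simp only [mem_filter, mem_univ, true_and] at he ⊢
    rwa [hm.inv]
  · intro e he
    simp only [mem_filter, mem_univ, true_and] at he ⊢
    exact he
  · intro e _
    simp only [hm.inv]
  · intro e _
    simp only [hm.inv]

theorem NN_swap_FFrob {m : Fin k → V → V} (hm : Fac m) (lab : V → Fin R) (a b : Fin R) :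
    NN m lab a b = NN m lab b a := by
  unfold NN
  rw [nd_swap_FFrob hm]
  congr 1
  funext c v
  rw [hm.inv, and_comm]

theorem nd_typ_FFrob (m : Fin k → V → V) (lab : V → Fin R) (K : ℕ) (G : Finset V)
    (hG : ∀ v ∈ G, Tpc m lab K v) (a b : Fin R) :
    (nd fun c v => (lab v = a ∧ lab (m c v) = b) ∧ v ∈ G) * k ≤ G.card * (K * NN m lab a b) := by
  have h1 : (nd fun c v => (lab v = a ∧ lab (m c v) = b) ∧ v ∈ G) ≤
      ∑ v ∈ G.filter (fun v => lab v = a), cnt fun c => lab (m c v) = b := by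
    unfold nd cnt
    refine le_trans (card_le_card (t := (G.filter (fun v => lab v = a)).biUnion
      fun v => (univ.filter fun c => lab (m c v) = b).image fun c => (c, v)) ?_)
      (le_trans card_biUnion_le (sum_le_sum fun v _ =>
        le_trans card_image_le (le_of_eq (by congr))))
    intro e he
    simp only [mem_filter, mem_univ, true_and, mem_biUnion, mem_image] at he ⊢
    exact ⟨e.2, ⟨he.2, he.1.1⟩, e.1, he.1.2, rfl⟩
  refine le_trans (Nat.mul_le_mul_right k h1) ?_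
  rw [sum_mul]
  refine le_trans (sum_le_card_nsmul _ _ (K * NN m lab a b) fun v hv => ?_) ?_
  · rw [mem_filter] at hv
    have := hG v hv.1 b
    rwa [hv.2] at this
  · rw [smul_eq_mul]
    exact Nat.mul_le_mul_right _ (card_filter_le _ _)

theorem nd_both_FFrob {m : Fin k → V → V} (hm : Fac m) (lab : V → Fin R) (K : ℕ) (G : Finset V)
    (hG : ∀ v ∈ G, Tpc m lab K v) (a b : Fin R) :
    (nd fun c v => (lab v = a ∧ lab (m c v) = b) ∧ (v ∈ G ∨ m c v ∈ G)) * k ≤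
      2 * (G.card * (K * NN m lab a b)) := by
  have h1 := nd_typ_FFrob m lab K G hG a b
  have h2 := nd_typ_FFrob m lab K G hG b a
  rw [nd_swap_FFrob hm, NN_swap_FFrob hm lab b a] at h2
  have h3 : (nd fun c v => (lab v = a ∧ lab (m c v) = b) ∧ (v ∈ G ∨ m c v ∈ G)) ≤
      (nd fun c v => (lab v = a ∧ lab (m c v) = b) ∧ v ∈ G) +
        nd fun c v => (lab (m c v) = b ∧ lab (m c (m c v)) = a) ∧ m c v ∈ G := by
    refine cnt_le_FFrob fun e he => ?_
    rcases he with ⟨he, h | h⟩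
    · exact Or.inl ⟨he, h⟩
    · exact Or.inr ⟨⟨he.2, by rw [hm.inv]; exact he.1⟩, h⟩
  refine le_trans (Nat.mul_le_mul_right k h3) ?_
  rw [add_mul, two_mul]
  exact Nat.add_le_add h1 h2

theorem flp_out_FFrob {F : Finset V} (σ : V → Bool) {v : V} (h : v ∉ F) : flp F σ v = σ v := by
  simp only [flp, if_neg h]

theorem frobP : FrobP := by
  intro k R K f V Lv _ _ m lab poor z h σ F ν hm hk he hf ht h24 h384
  have hG : ∀ l, ((F l ∪ F z ∪ F h).card : ℝ) ≤ 3 * f := fun l => by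
    have h1 := card_union_le (F l ∪ F z) (F h)
    have h2 := card_union_le (F l) (F z)
    have h3 : (F l ∪ F z ∪ F h).card ≤ 3 * f := by
      have := hf l
      have := hf z
      have := hf h
      omega
    exact_mod_cast h3
  have hout : ∀ l v, v ∉ F l ∪ F z ∪ F h →
      flp (F l) (σ l) v = σ l v ∧ flp (F z) (σ z) v = σ z v ∧ flp (F h) (σ h) v = σ h v :=
    fun l v hv => by
      simp only [mem_union, not_or] at hv
      exact ⟨flp_out_FFrob _ hv.1.1, flp_out_FFrob _ hv.1.2, flp_out_FFrob _ hv.2⟩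
  refine ⟨fun l hl x x' b s s0 s1 => ?_, fun l hl o a b hab s s0 s1 s' s0' s1' => ?_⟩
  · have e1 := he.h3 l hl x x' b s s0 s1
    have e2 := cnt_abs_FFrob
      (P := fun w => adj m x w ∧ adj m x' w ∧ lab w = b ∧ flp (F l) (σ l) w = s ∧
        flp (F z) (σ z) w = s0 ∧ flp (F h) (σ h) w = s1)
      (P' := fun w => adj m x w ∧ adj m x' w ∧ lab w = b ∧ σ l w = s ∧ σ z w = s0 ∧ σ h w = s1)
      (W := fun w => w ∈ F l ∪ F z ∪ F h) fun w hw => by
        obtain ⟨a1, a2, a3⟩ := hout l w hw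
        rw [a1, a2, a3]
    rw [cnt_mem_FFrob] at e2
    have e3 := hG l
    rw [abs_le] at e1 e2 ⊢
    constructor <;> linarith [e1.1, e1.2, e2.1, e2.2]
  · have e1 := he.q6 l hl o a b hab s s0 s1 s' s0' s1'
    have e2 := cnt_abs_FFrob
      (P := fun e : Fin k × V => (od m o e.1 e.2 ∧ lab e.2 = a ∧ lab (m e.1 e.2) = b) ∧
        (flp (F l) (σ l) e.2 = s ∧ flp (F z) (σ z) e.2 = s0 ∧ flp (F h) (σ h) e.2 = s1) ∧
        (flp (F l) (σ l) (m e.1 e.2) = s' ∧ flp (F z) (σ z) (m e.1 e.2) = s0' ∧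
          flp (F h) (σ h) (m e.1 e.2) = s1'))
      (P' := fun e : Fin k × V => (od m o e.1 e.2 ∧ lab e.2 = a ∧ lab (m e.1 e.2) = b) ∧
        (σ l e.2 = s ∧ σ z e.2 = s0 ∧ σ h e.2 = s1) ∧
        (σ l (m e.1 e.2) = s' ∧ σ z (m e.1 e.2) = s0' ∧ σ h (m e.1 e.2) = s1'))
      (W := fun e : Fin k × V => (lab e.2 = a ∧ lab (m e.1 e.2) = b) ∧
        (e.2 ∈ F l ∪ F z ∪ F h ∨ m e.1 e.2 ∈ F l ∪ F z ∪ F h)) fun e hw => by
        by_cases hab : lab e.2 = a ∧ lab (m e.1 e.2) = b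
        · have hw' := fun hh => hw ⟨hab, hh⟩
          obtain ⟨a1, a2, a3⟩ := hout l e.2 fun hh => hw' (Or.inl hh)
          obtain ⟨b1, b2, b3⟩ := hout l (m e.1 e.2) fun hh => hw' (Or.inr hh)
          rw [a1, a2, a3, b1, b2, b3]
        · exact ⟨fun hh => absurd hh.1.2 hab, fun hh => absurd hh.1.2 hab⟩
    have e3 := nd_both_FFrob hm lab K (F l ∪ F z ∪ F h) (fun v hv => by
      simp only [mem_union] at hv
      rcases hv with (hv | hv) | hv <;> exact ht _ v hv) a b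
    have e4 := (Nat.cast_le (α := ℝ)).2 e3
    push_cast at e4
    have hk' : (0 : ℝ) < k := by exact_mod_cast hk
    have hN : (0 : ℝ) ≤ NN m lab a b := Nat.cast_nonneg _
    have hK : (0 : ℝ) ≤ K := Nat.cast_nonneg _
    have e5 : 64 * (nd fun c v => (lab v = a ∧ lab (m c v) = b) ∧
        (v ∈ F l ∪ F z ∪ F h ∨ m c v ∈ F l ∪ F z ∪ F h) : ℝ) ≤ ν * NN m lab a b := by
      refine le_of_mul_le_mul_right ?_ hk'
      have e6 := mul_le_mul_of_nonneg_right (hG l) (mul_nonneg hK hN)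
      have e7 := mul_le_mul_of_nonneg_right h384 hN
      nlinarith
    unfold nd at e1 e5 ⊢
    rw [abs_le] at e1 e2 ⊢
    constructor <;> linarith [e1.1, e1.2, e2.1, e2.2]

end Pool.Agent.MP_d20a68_co.T

end

section

/-! Counts of rich cross types after the rounding. -/

set_option autoImplicit false
set_option linter.unusedSectionVars false
set_option linter.unusedVariables false
open Finset
open scoped Classical

namespace Pool.Agent.MP_d20a68_co.T

open Pool.Agent.MP_d20a68_co.Poly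

variable {V Lv : Type} [Fintype V] [Fintype Lv] {k R : ℕ} {D : Dat V Lv k R} {C : ℕ}
  {φ η ν ν' ν₁ μ : ℝ} {u B S Lp : ℕ} {om : Fin k → V → Lv ⊕ Lv} {a b : Fin R}

lemma cross_SRd2 (hr : D.Rich a b) {c : Fin k} {v : V} (h : D.Ty a b c v) : ¬ D.Ins c v :=
  fun h' => hr.2 (by rw [← h.1, ← h.2]; exact h')

lemma key_SRd2 (H : D.Hyp C φ η ν u B S Lp) (E : D.EqM ν) (A : D.Acc μ ν' u om) (Z : D.RD0 om)
    (h0 : 0 ≤ ν') (h1 : 50 * ν + 2 * ν' ≤ ν₁) (hr : D.Rich a b) (l : Lv) {l' : Lv}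
    (hl : l' ∈ small D.z D.h) (p : (Bool × Bool × Bool) × (Bool × Bool × Bool) → Bool)
    (hp : ∀ c v, p (D.bits l' c v) = D.σ l v)
    (w : (Bool × Bool × Bool) × (Bool × Bool × Bool) → ℝ) (w0 : ∀ x, 0 ≤ w x)
    (ws : ∑ x, ind (p x = true) * w x = 32 * D.y l / k)
    (hw : ∀ c v, ¬ D.Fx c v → ¬ D.Ins c v →
      |D.prob μ c v (Sum.inl l) - w (D.bits l' c v)| ≤ 4 * ν * D.y l / k) :
    |(cA D.m D.lab D.σ D.MC (D.lamOf om) l a b : ℝ) - D.y l * D.NM a b / (2 * k)| ≤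
      ν₁ * D.y l * D.N a b / k := by
  have kp := H.kpos
  have ν0 := H.ν0
  have y0 : (0 : ℝ) ≤ D.y l := Nat.cast_nonneg _
  have e1 : cA D.m D.lab D.σ D.MC (D.lamOf om) l a b = nd fun c v => (¬ D.Fx c v ∧ D.Ty a b c v ∧
      D.bits l' c v ∈ univ.filter fun x => p x = true) ∧ om c v = Sum.inl l := by
    refine ndS_congr fun c v => ?_
    simp only [mem_filter, mem_univ, true_and, hp]
    constructor
    · rintro ⟨h2, h3, h4, h5⟩
      refine ⟨⟨h2.1, h5, h4⟩, ?_⟩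
      unfold Dat.lamOf at h3
      rcases h : om c v with x | x
      · rw [h] at h3
        exact congrArg Sum.inl h3
      · exact absurd (Z.tag c v x h).1.2 h2.2
    · rintro ⟨⟨h2, h3, h4⟩, h5⟩
      exact ⟨⟨h2, cross_SRd2 hr h3⟩, by rw [Dat.lamOf, h5]; rfl, h4, h3⟩
  have a2 := A.a2 a b l' (univ.filter fun x => p x = true) (Sum.inl l)
  rw [← e1] at a2
  have c1 := cellS (fun e : Fin k × V => ¬ D.Fx e.1 e.2 ∧ D.Ty a b e.1 e.2)
    (fun e => D.bits l' e.1 e.2) (fun x => ind (p x = true) * w x) 64 (D.NM a b)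
    (65 * ν * D.N a b) (by norm_num) fun x => by
      rw [cntS_congr fun e => and_assoc]
      exact E.q a b hr.1 l' hl x
  simp only [abs_of_nonneg (mul_nonneg (indS_nonneg _) (w0 _)), ws] at c1
  have c2 : |∑ e ∈ univ.filter (fun e : Fin k × V => ¬ D.Fx e.1 e.2 ∧ D.Ty a b e.1 e.2 ∧
      D.bits l' e.1 e.2 ∈ univ.filter fun x => p x = true), D.prob μ e.1 e.2 (Sum.inl l) -
      ∑ e ∈ univ.filter (fun e : Fin k × V => ¬ D.Fx e.1 e.2 ∧ D.Ty a b e.1 e.2),
        ind (p (D.bits l' e.1 e.2) = true) * w (D.bits l' e.1 e.2)| ≤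
      D.NM a b * (4 * ν * D.y l / k) := by
    have e2 : ∑ e ∈ univ.filter (fun e : Fin k × V => ¬ D.Fx e.1 e.2 ∧ D.Ty a b e.1 e.2 ∧
        D.bits l' e.1 e.2 ∈ univ.filter fun x => p x = true), D.prob μ e.1 e.2 (Sum.inl l) =
        ∑ e ∈ univ.filter (fun e : Fin k × V => ¬ D.Fx e.1 e.2 ∧ D.Ty a b e.1 e.2),
          ind (p (D.bits l' e.1 e.2) = true) * D.prob μ e.1 e.2 (Sum.inl l) := by
      rw [sum_filter, sum_filter]
      refine sum_congr rfl fun e _ => ?_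
      by_cases g : p (D.bits l' e.1 e.2) = true <;> simp [g, ind]
    rw [e2, ← sum_sub_distrib, Dat.NM, nd, cntS_eq, ← nsmul_eq_mul]
    refine (abs_sum_le_sum_abs _ _).trans (sum_le_card_nsmul _ _ _ fun e he => ?_)
    have g := (mem_filter.1 he).2
    rw [← mul_sub, abs_mul, abs_of_nonneg (indS_nonneg _)]
    exact (mul_le_of_le_one_left (abs_nonneg _) (indS_le_one _)).trans
      (hw _ _ g.1 (cross_SRd2 hr g.2))
  have n1 : (D.NM a b : ℝ) ≤ D.N a b := by exact_mod_cast (E.nm a b hr.1).2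
  have n2 : (k : ℝ) ≤ D.N a b := by
    have := (Nat.mul_le_mul_right k H.Lp1).trans (H.typ.rich a b hr.1 hr.2)
    rw [one_mul] at this
    exact_mod_cast this
  have b1 : ν' * u ^ 6 * (D.N a b + k) / k ≤ 2 * ν' * (D.y l * D.N a b / k) := by
    rw [← mul_div_assoc]
    refine div_le_div_of_nonneg_right ?_ kp.le
    calc _ ≤ ν' * D.y l * (D.N a b + D.N a b) := by gcongr; exact H.u6 l
      _ = _ := by ring
  have b2 : D.NM a b * (4 * ν * D.y l / k) ≤ 4 * ν * (D.y l * D.N a b / k) :=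
    (mul_le_mul_of_nonneg_right n1 (by positivity)).trans_eq (by ring)
  have b3 : 65 * ν * D.N a b / 64 * (32 * D.y l / k) = 65 / 2 * ν * (D.y l * D.N a b / k) := by
    ring
  have b4 : (D.NM a b : ℝ) / 64 * (32 * D.y l / k) = D.y l * D.NM a b / (2 * k) := by
    field_simp
    ring
  have b5 : (0 : ℝ) ≤ D.y l * D.N a b / k := by positivity
  rw [b3, b4] at c1
  rw [mul_assoc, mul_div_assoc ν₁]
  have t1 := abs_le.1 (a2.trans b1)
  have t2 := abs_le.1 (c2.trans b2)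
  have t3 := abs_le.1 c1
  have t4 := mul_le_mul_of_nonneg_right h1 b5
  have t5 := mul_nonneg ν0.le b5
  rw [abs_le]
  constructor <;> nlinarith

lemma xh_SRd2 {c : Fin k} {v : V} (h : ¬ D.Ins c v) :
    D.xh μ c v = 2 * D.y D.h / k * ind (D.Cut D.h c v) := by
  rw [Dat.xh, Dat.kap, if_neg h, mul_one]

lemma xz_SRd2 (hk : (0 : ℝ) < k) {c : Fin k} {v : V} (h : ¬ D.Ins c v) :
    D.xz μ c v = 2 * D.y D.z / k * ind (D.Cut D.z c v) := by
  rw [Dat.xz, Dat.kap, if_neg h]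
  congr 1
  field_simp
  ring

theorem rd2S : Rd2P := by
  intro V Lv _ _ k R D C φ η ν u B S Lp H ν' ν₁ om P E A Z h0 h1
  refine ⟨fun a b hr l => ?_⟩
  obtain ⟨l', hl'⟩ := E.sm
  have kp := H.kpos
  have ν0 := H.ν0
  by_cases hh : l = D.h
  · subst hh
    refine key_SRd2 H E A Z h0 h1 hr _ hl' (fun x => x.1.2.2) (fun _ _ => rfl)
      (fun x => 2 * D.y D.h / k * ind (x.1.2.2 ≠ x.2.2.2))
      (fun x => mul_nonneg (by positivity) (indS_nonneg _)) ?_ fun c v g g' => ?_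
    · simp [Fintype.sum_prod_type, ind]
      ring
    · rw [D.prob_h _ g, xh_SRd2 g']
      exact (abs_nonpos_iff.2 (sub_self _)).trans (by positivity)
  by_cases hz : l = D.z
  · subst hz
    refine key_SRd2 H E A Z h0 h1 hr _ hl' (fun x => x.1.2.1) (fun _ _ => rfl)
      (fun x => 2 * D.y D.z / k * ind (x.1.2.1 ≠ x.2.2.1))
      (fun x => mul_nonneg (by positivity) (indS_nonneg _)) ?_ fun c v g g' => ?_
    · simp [Fintype.sum_prod_type, ind]
      ring
    · rw [D.prob_z _ g hh, xz_SRd2 kp g', sum_eq_zero fun l _ => D.xt_cross _ g' l, sub_zero]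
      exact (abs_nonpos_iff.2 (sub_self _)).trans (by positivity)
  have hl : l ∈ small D.z D.h := mem_filter.2 ⟨mem_univ _, hz, hh⟩
  have yz := H.yhi D.z
  have yh := H.yhi D.h
  have ys : (0 : ℝ) < k - D.y D.z - D.y D.h := by linarith
  have az : 2 * (D.y D.z : ℝ) / k ≤ 1 / 2 := by rw [div_le_iff₀ kp]; linarith
  have ah : 2 * (D.y D.h : ℝ) / k ≤ 1 / 2 := by rw [div_le_iff₀ kp]; linarith
  refine key_SRd2 H E A Z h0 h1 hr _ hl (fun x => x.1.1) (fun _ _ => rfl)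
    (fun x => (1 - 2 * D.y D.z / k * ind (x.1.2.1 ≠ x.2.2.1) -
      2 * D.y D.h / k * ind (x.1.2.2 ≠ x.2.2.2)) * (2 * D.y l / ((k : ℝ) - D.y D.z - D.y D.h)) *
      ind (x.1.1 ≠ x.2.1))
    (fun x => mul_nonneg (mul_nonneg ?_ (by positivity)) (indS_nonneg _)) ?_ fun c v g g' => ?_
  · have s1 := mul_le_of_le_one_right (show (0 : ℝ) ≤ 2 * D.y D.z / k by positivity)
      (indS_le_one (x.1.2.1 ≠ x.2.2.1))
    have s2 := mul_le_of_le_one_right (show (0 : ℝ) ≤ 2 * D.y D.h / k by positivity)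
      (indS_le_one (x.1.2.2 ≠ x.2.2.2))
    linarith
  · simp [Fintype.sum_prod_type, ind]
    field_simp
    ring
  · have := P.app c v g l hl
    rw [xh_SRd2 g', xz_SRd2 kp g'] at this
    exact this

end Pool.Agent.MP_d20a68_co.T

end

section

/-! Movable edges for the first stage. -/

set_option autoImplicit false
set_option linter.unusedSectionVars false
set_option linter.unusedVariables false
open Finset
open scoped Classical

namespace Pool.Agent.MP_d20a68_co.T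

open Pool.Agent.MP_d20a68_co.Poly

variable {V Lv : Type} [Fintype V] [Fintype Lv] {k R : ℕ} {D : Dat V Lv k R} {C : ℕ}
  {φ η ν : ℝ} {u B S Lp : ℕ}

lemma sel_SRd3 (hE : D.EqM ν) (l : Lv) (hl : l ≠ D.h) (s : Bool) :
    ∃ l' ∈ small D.z D.h, ∃ P : Finset ((Bool × Bool × Bool) × (Bool × Bool × Bool)),
      P.card = 4 ∧ ∀ c v, D.bits l' c v ∈ P → D.Sd l true false c v ∧ D.Sd D.h s (!s) c v := by
  by_cases hz : l = D.z
  · obtain ⟨l', hl'⟩ := hE.sm
    refine ⟨l', hl', (univ ×ˢ univ).image fun p : Bool × Bool => ((p.1, true, s), (p.2, false, !s)),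
      by cases s <;> decide, fun c v h => ?_⟩
    obtain ⟨p, -, hp⟩ := mem_image.1 h
    simp only [Dat.bits, Prod.mk.injEq] at hp
    subst hz
    exact ⟨⟨hp.1.2.1.symm, hp.2.2.1.symm⟩, hp.1.2.2.symm, hp.2.2.2.symm⟩
  · refine ⟨l, by simp [small, hz, hl],
      (univ ×ˢ univ).image fun p : Bool × Bool => ((true, p.1, s), (false, p.2, !s)),
      by cases s <;> decide, fun c v h => ?_⟩
    obtain ⟨p, -, hp⟩ := mem_image.1 h
    simp only [Dat.bits, Prod.mk.injEq] at hp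
    exact ⟨⟨hp.1.1.symm, hp.2.1.symm⟩, hp.1.2.2.symm, hp.2.2.2.symm⟩

lemma nins_SRd3 {a b : Fin R} (hr : D.Rich a b) {c : Fin k} {v : V} (ht : D.Ty a b c v) :
    ¬ D.Ins c v := fun h => hr.2 (by rw [← ht.1, ← ht.2]; exact h)

lemma cut_SRd3 {l : Lv} {s : Bool} {c : Fin k} {v : V} (h : D.Sd l s (!s) c v) : D.Cut l c v := by
  unfold Dat.Cut
  rw [h.1, h.2]
  cases s <;> simp

lemma prob_SRd3 (H : D.Hyp C φ η ν u B S Lp) {μ : ℝ} (hP : D.PF μ ν) {c : Fin k} {v : V}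
    (hf : ¬ D.Fx c v) (hi : ¬ D.Ins c v) (l : Lv) (hc : D.Cut l c v) :
    7 / 5 * ((D.y l : ℝ) / k) ≤ D.prob μ c v (Sum.inl l) := by
  have hk := H.kpos
  have hkap : D.kap μ c v = 1 := if_neg hi
  have hy : (0 : ℝ) ≤ (D.y l : ℝ) / k := by positivity
  have exh : D.xh μ c v = 2 * ((D.y D.h : ℝ) / k) * ind (D.Cut D.h c v) := by
    unfold Dat.xh; rw [hkap]; ring
  have exz : D.xz μ c v = 2 * ((D.y D.z : ℝ) / k) * ind (D.Cut D.z c v) := by
    unfold Dat.xz; rw [hkap]; congr 1; field_simp; ring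
  by_cases h1 : l = D.h
  · subst h1
    rw [D.prob_h μ hf, exh, indS_pos hc]
    linarith
  by_cases h2 : l = D.z
  · subst h2
    rw [D.prob_z μ hf H.pre.zh, exz, indS_pos hc,
      sum_eq_zero fun l' _ => D.xt_cross μ hi l']
    linarith
  have hs : l ∈ small D.z D.h := by simp [small, h1, h2]
  have ha := (abs_le.1 (hP.app c v hf l hs)).1
  rw [indS_pos hc, mul_one] at ha
  have hb : ∀ l' (p : Prop), 2 * ((D.y l' : ℝ) / k) * ind p ≤ 1 / 8 := fun l' p => by
    have h3 : (D.y l' : ℝ) / k ≤ 1 / 16 := by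
      rw [div_le_iff₀ hk]; have := H.yhi l'; linarith
    have h4 : (0 : ℝ) ≤ (D.y l' : ℝ) / k := by positivity
    have := indS_le_one p
    have := indS_nonneg p
    nlinarith
  have h5 : 3 / 4 ≤ 1 - D.xz μ c v - D.xh μ c v := by
    rw [exh, exz]
    have := hb D.h (D.Cut D.h c v)
    have := hb D.z (D.Cut D.z c v)
    linarith
  have hz := H.yhi D.z
  have hh := H.yhi D.h
  have hz0 : (0 : ℝ) ≤ D.y D.z := Nat.cast_nonneg _
  have hh0 : (0 : ℝ) ≤ D.y D.h := Nat.cast_nonneg _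
  have h6 : 2 * ((D.y l : ℝ) / k) ≤ 2 * D.y l / ((k : ℝ) - D.y D.z - D.y D.h) := by
    rw [← mul_div_assoc]
    exact div_le_div_of_nonneg_left (by positivity) (by linarith) (by linarith)
  have h7 := mul_le_mul h5 h6 (by positivity) (by linarith)
  have h8 : 4 * ν * D.y l / k = 4 * ν * ((D.y l : ℝ) / k) := by ring
  have h9 : ν * ((D.y l : ℝ) / k) ≤ 1 / 10 ^ 4 * ((D.y l : ℝ) / k) :=
    mul_le_mul_of_nonneg_right H.ν1 hy
  linarith

lemma core_SRd3 (H : D.Hyp C φ η ν u B S Lp) {μ ν' : ℝ} {om : Fin k → V → Lv ⊕ Lv}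
    (hP : D.PF μ ν) (hE : D.EqM ν) (hA : D.Acc μ ν' u om) (h0 : 0 ≤ ν') (h1 : ν' ≤ 1 / 10 ^ 4)
    {a b : Fin R} (hr : D.Rich a b) {l' : Lv} (hl' : l' ∈ small D.z D.h)
    (P : Finset ((Bool × Bool × Bool) × (Bool × Bool × Bool))) (hc : P.card = 4) (l : Lv)
    (hcut : ∀ c v, D.bits l' c v ∈ P → D.Cut l c v) :
    1 / 20 * (D.y l : ℝ) * D.N a b / k ≤
      (nd fun c v => (¬ D.Fx c v ∧ D.Ty a b c v ∧ D.bits l' c v ∈ P) ∧ om c v = Sum.inl l : ℝ) := by
  have hk := H.kpos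
  have hN : (k : ℝ) ≤ D.N a b := by
    have h2 := H.typ.rich a b hr.1 hr.2
    have h3 : k ≤ D.N a b := le_trans (Nat.le_mul_of_pos_left k H.Lp1) h2
    exact_mod_cast h3
  have ha := (abs_le.1 (hA.a2 a b l' P (Sum.inl l))).1
  set Y := (D.y l : ℝ) / k with hY
  have hY0 : 0 ≤ Y := by positivity
  have herr : ν' * u ^ 6 * (D.N a b + k) / k ≤ 2 / 10 ^ 4 * (Y * D.N a b) := by
    have h2 : ν' * u ^ 6 ≤ 1 / 10 ^ 4 * D.y l := mul_le_mul h1 (H.u6 l) (by positivity) (by norm_num)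
    have h3 : ν' * u ^ 6 * (D.N a b + k) ≤ 1 / 10 ^ 4 * D.y l * (2 * D.N a b) :=
      mul_le_mul h2 (by linarith) (by positivity) (by positivity)
    exact (div_le_div_of_nonneg_right h3 hk.le).trans_eq (by rw [hY]; ring)
  set F := univ.filter (fun e : Fin k × V =>
    ¬ D.Fx e.1 e.2 ∧ D.Ty a b e.1 e.2 ∧ D.bits l' e.1 e.2 ∈ P) with hF
  have hsum : F.card • (7 / 5 * Y) ≤ ∑ e ∈ F, D.prob μ e.1 e.2 (Sum.inl l) := by
    refine card_nsmul_le_sum _ _ _ fun e he => ?_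
    have h2 := (mem_filter.1 he).2
    exact prob_SRd3 H hP h2.1 (nins_SRd3 hr h2.2.1) l (hcut _ _ h2.2.2)
  rw [nsmul_eq_mul] at hsum
  have hcard : (F.card : ℝ) = ∑ x ∈ P,
      (nd fun c v => ¬ D.Fx c v ∧ D.Ty a b c v ∧ D.bits l' c v = x : ℝ) := by
    have h2 := cntS_fiber_in (fun e : Fin k × V => ¬ D.Fx e.1 e.2 ∧ D.Ty a b e.1 e.2)
      (fun e => D.bits l' e.1 e.2) P
    have h3 : F.card = cnt fun e : Fin k × V =>
        (¬ D.Fx e.1 e.2 ∧ D.Ty a b e.1 e.2) ∧ D.bits l' e.1 e.2 ∈ P := by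
      rw [hF, ← cntS_eq]
      exact cntS_congr fun e => and_assoc.symm
    rw [h3, h2]
    push_cast
    refine sum_congr rfl fun x _ => ?_
    congr 1
    exact cntS_congr fun e => and_assoc
  have hlow : P.card • ((D.NM a b - 65 * ν * D.N a b) / 64) ≤ (F.card : ℝ) := by
    rw [hcard]
    refine card_nsmul_le_sum _ _ _ fun x _ => ?_
    have := (abs_le.1 (hE.q a b hr.1 l' hl' x)).1
    linarith
  rw [hc, nsmul_eq_mul] at hlow
  have hm := (hE.nm a b hr.1).1
  have hN0 : (0 : ℝ) ≤ D.N a b := Nat.cast_nonneg _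
  have hν : ν * D.N a b ≤ 1 / 10 ^ 4 * D.N a b := mul_le_mul_of_nonneg_right H.ν1 hN0
  have hFc : 1 / 17 * (D.N a b : ℝ) ≤ F.card := by push_cast at hlow; linarith
  have h4 := mul_le_mul_of_nonneg_right hFc hY0
  have h5 : 1 / 20 * (D.y l : ℝ) * D.N a b / k = 1 / 20 * (Y * D.N a b) := by rw [hY]; ring
  have h6 : 0 ≤ Y * D.N a b := mul_nonneg hY0 hN0
  rw [h5]
  nlinarith

theorem rd3S : Rd3P := by
  intro V Lv _ _ k R D C φ η ν u B S Lp H ν' om hP hE hA h0 hν0 hν1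
  constructor
  · intro a b hr l hl
    obtain ⟨l', hl', P, hc, hs⟩ := sel_SRd3 hE l hl true
    refine (core_SRd3 H hP hE hA hν0 hν1 hr hl' P hc l
      fun c v h => cut_SRd3 (s := true) (hs c v h).1).trans (Nat.cast_le.2 (ndS_mono ?_))
    rintro c v ⟨⟨h1, h2, h3⟩, h4⟩
    exact ⟨⟨h1, nins_SRd3 hr h2⟩, by simp [Dat.lamOf, h4], h2, hs c v h3⟩
  · intro a b hr l hl s
    obtain ⟨l', hl', P, hc, hs⟩ := sel_SRd3 hE l hl s
    refine (core_SRd3 H hP hE hA hν0 hν1 hr hl' P hc D.h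
      fun c v h => cut_SRd3 (hs c v h).2).trans (Nat.cast_le.2 (ndS_mono ?_))
    rintro c v ⟨⟨h1, h2, h3⟩, h4⟩
    exact ⟨⟨h1, nins_SRd3 hr h2⟩, by simp [Dat.lamOf, h4], h2, hs c v h3⟩

end Pool.Agent.MP_d20a68_co.T

end

section

/-! Movable edges for the second stage. -/

set_option autoImplicit false
set_option linter.unusedSectionVars false
set_option linter.unusedVariables false
open Finset
open scoped Classical

namespace Pool.Agent.MP_d20a68_co.T

open Pool.Agent.MP_d20a68_co.Poly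

lemma core_SRd4 {V Lv : Type} [Fintype V] [Fintype Lv] {k R : ℕ} {D : Dat V Lv k R} {C : ℕ}
    {φ η ν : ℝ} {u B S Lp : ℕ} (H : D.Hyp C φ η ν u B S Lp) {μ ν' : ℝ}
    {om : Fin k → V → Lv ⊕ Lv} (hE : D.EqM ν) (hA : D.Acc μ ν' u om) (h0 : 0 ≤ ν')
    (h1 : ν' ≤ 1 / 10 ^ 4) (a : Fin R) {l : Lv} (hl : l ∈ small D.z D.h)
    (x : (Bool × Bool × Bool) × (Bool × Bool × Bool)) (ω : Lv ⊕ Lv) (Y : ℝ)
    (hY : (u : ℝ) ^ 6 ≤ Y)
    (hp : ∀ c v, ¬ D.Fx c v → D.Ty a (D.fl a) c v → D.bits l c v = x →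
      17 / 10 * (Y / k) ≤ D.prob μ c v ω) :
    1 / 100 * Y * D.N a (D.fl a) / k ≤
      (nd fun c v => (¬ D.Fx c v ∧ D.Ty a (D.fl a) c v ∧ D.bits l c v = x) ∧ om c v = ω : ℝ) := by
  have hk := H.kpos
  have hnp := H.typ.pin a
  have hY0 : 0 ≤ Y := le_trans (by positivity) hY
  rcases H.typ.big a (D.fl a) hnp with hN | hN
  · have : D.N a (D.fl a) = 0 := hN
    rw [this]
    simp
  have hNk : (k : ℝ) ≤ D.N a (D.fl a) := by
    have h2 : k ≤ D.N a (D.fl a) := le_trans (Nat.le_mul_of_pos_left k H.Lp1) hN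
    exact_mod_cast h2
  have hq := (abs_le.1 (hE.q a (D.fl a) hnp l hl x)).1
  have hm := (hE.nm a (D.fl a) hnp).1
  have ha := (abs_le.1 (hA.a2 a (D.fl a) l {x} ω)).1
  have e1 : (nd fun c v => (¬ D.Fx c v ∧ D.Ty a (D.fl a) c v ∧
      D.bits l c v ∈ ({x} : Finset _)) ∧ om c v = ω) =
      nd fun c v => (¬ D.Fx c v ∧ D.Ty a (D.fl a) c v ∧ D.bits l c v = x) ∧ om c v = ω :=
    ndS_congr fun c v => by rw [mem_singleton]
  rw [e1] at ha
  have hs : (nd fun c v => ¬ D.Fx c v ∧ D.Ty a (D.fl a) c v ∧ D.bits l c v = x : ℝ) *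
      (17 / 10 * (Y / k)) ≤ ∑ e ∈ univ.filter (fun e : Fin k × V =>
        ¬ D.Fx e.1 e.2 ∧ D.Ty a (D.fl a) e.1 e.2 ∧ D.bits l e.1 e.2 ∈ ({x} : Finset _)),
        D.prob μ e.1 e.2 ω := by
    have h3 := card_nsmul_le_sum (univ.filter (fun e : Fin k × V =>
        ¬ D.Fx e.1 e.2 ∧ D.Ty a (D.fl a) e.1 e.2 ∧ D.bits l e.1 e.2 ∈ ({x} : Finset _)))
      (fun e => D.prob μ e.1 e.2 ω) (17 / 10 * (Y / k)) fun e he => by
        obtain ⟨h4, h5, h6⟩ := (mem_filter.1 he).2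
        exact hp _ _ h4 h5 (mem_singleton.1 h6)
    rw [nsmul_eq_mul, ← cntS_eq] at h3
    refine le_trans (le_of_eq ?_) h3
    congr 2
    exact cntS_congr fun e => by rw [mem_singleton]
  set N : ℝ := (D.N a (D.fl a) : ℝ) with hNdef
  set M : ℝ := (nd fun c v => ¬ D.Fx c v ∧ D.Ty a (D.fl a) c v ∧ D.bits l c v = x : ℝ) with hM
  have hν0 := H.ν0
  have hν1 := H.ν1
  have hN0 : 0 ≤ N := by linarith
  have hT : 0 ≤ Y / k := by positivity
  have hMN : N / 65 ≤ M := by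
    have : ν * N ≤ 1 / 10 ^ 4 * N := mul_le_mul_of_nonneg_right hν1 hN0
    nlinarith
  have herr : ν' * u ^ 6 * (N + k) / k ≤ 2 / 10 ^ 4 * N * (Y / k) := by
    have h7 : ν' * u ^ 6 ≤ 1 / 10 ^ 4 * Y := mul_le_mul h1 hY (by positivity) (by norm_num)
    have h8 : ν' * u ^ 6 * (N + k) ≤ 1 / 10 ^ 4 * Y * (N + N) :=
      mul_le_mul h7 (by linarith) (by positivity) (by positivity)
    calc ν' * u ^ 6 * (N + k) / k ≤ 1 / 10 ^ 4 * Y * (N + N) / k :=
          div_le_div_of_nonneg_right h8 hk.le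
      _ = 2 / 10 ^ 4 * N * (Y / k) := by ring
  have h9 : N / 65 * (17 / 10 * (Y / k)) ≤ M * (17 / 10 * (Y / k)) :=
    mul_le_mul_of_nonneg_right hMN (by positivity)
  have h10 : 0 ≤ N * (Y / k) := mul_nonneg hN0 hT
  have e2 : 1 / 100 * Y * N / k = 1 / 100 * (N * (Y / k)) := by ring
  rw [e2]
  nlinarith

theorem rd4S : Rd4P := by
  intro V Lv _ _ k R D C φ η ν u B S Lp H ν' om hP hE hA h0 hν0 hν1
  have hk := H.kpos
  have hη := H.eta_le
  have hη0 := H.η0
  have hn0 := H.ν0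
  have hn1 := H.ν1
  refine ⟨fun a l hl => ?_, fun a l hl s => ?_⟩
  · refine (core_SRd4 H hE hA hν0 hν1 a hl ((true, true, true), (false, true, false))
      (Sum.inl l) (D.y l) (H.u6 l) fun c v hf ht hb => ?_).trans ?_
    · simp only [Dat.bits, Prod.mk.injEq] at hb
      obtain ⟨⟨b1, b2, b3⟩, b4, b5, b6⟩ := hb
      have hI : D.Ins c v := by
        unfold Dat.Ins
        rw [ht.1, ht.2]
      have hz : D.xz (η / 4) c v = 0 := by
        unfold Dat.xz
        rw [indS_neg (by unfold Dat.Cut; rw [b2, b5]; simp), mul_zero]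
      have hc : D.Cut l c v := by
        unfold Dat.Cut
        rw [b1, b4]
        simp
      have hyh := H.yhi D.h
      have hyz := H.yhi D.z
      have hyh0 : (0 : ℝ) ≤ D.y D.h := Nat.cast_nonneg _
      have hyz0 : (0 : ℝ) ≤ D.y D.z := Nat.cast_nonneg _
      have hyl0 : (0 : ℝ) ≤ D.y l := Nat.cast_nonneg _
      have hh : D.xh (η / 4) c v ≤ 1 / 8 := by
        unfold Dat.xh Dat.kap
        rw [if_pos hI, indS_pos (by unfold Dat.Cut; rw [b3, b6]; simp), mul_one,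
          div_le_iff₀ hk]
        nlinarith
      have h3 := (abs_le.1 (hP.app c v hf l hl)).1
      rw [hz, indS_pos hc, mul_one] at h3
      have hK : (0 : ℝ) < (k : ℝ) - D.y D.z - D.y D.h := by linarith
      have h4 : 2 * (D.y l : ℝ) / k ≤ 2 * D.y l / ((k : ℝ) - D.y D.z - D.y D.h) :=
        div_le_div_of_nonneg_left (by positivity) hK (by linarith)
      have hT : (0 : ℝ) ≤ D.y l / k := by positivity
      have h5 : 7 / 8 * (2 * (D.y l : ℝ) / k) ≤
          (1 - 0 - D.xh (η / 4) c v) * (2 * D.y l / ((k : ℝ) - D.y D.z - D.y D.h)) :=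
        mul_le_mul (by linarith) h4 (by positivity) (by linarith)
      have e1 : 7 / 8 * (2 * (D.y l : ℝ) / k) = 7 / 4 * (D.y l / k) := by ring
      have e2 : 4 * ν * (D.y l : ℝ) / k = 4 * (ν * (D.y l / k)) := by ring
      have h6 : ν * ((D.y l : ℝ) / k) ≤ 1 / 10 ^ 4 * (D.y l / k) :=
        mul_le_mul_of_nonneg_right hn1 hT
      linarith
    · refine Nat.cast_le.2 (ndS_mono fun c v h => ?_)
      obtain ⟨⟨hf, ht, hb⟩, ho⟩ := h
      simp only [Dat.bits, Prod.mk.injEq] at hb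
      obtain ⟨⟨b1, b2, b3⟩, b4, b5, b6⟩ := hb
      refine ⟨⟨⟨hf, ?_⟩, b2, b5⟩, ?_, ht, ⟨b1, b4⟩, b3, b6⟩
      · unfold Dat.Ins
        rw [ht.1, ht.2]
      · unfold Dat.lamOf
        rw [ho]
        rfl
  · refine (core_SRd4 H hE hA hν0 hν1 a hl ((true, true, s), (false, true, !s))
      (Sum.inl D.h) (D.y D.h) (H.u6 D.h) fun c v hf ht hb => ?_).trans ?_
    · simp only [Dat.bits, Prod.mk.injEq] at hb
      obtain ⟨⟨b1, b2, b3⟩, b4, b5, b6⟩ := hb
      have hI : D.Ins c v := by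
        unfold Dat.Ins
        rw [ht.1, ht.2]
      rw [D.prob_h _ hf]
      unfold Dat.xh Dat.kap
      rw [if_pos hI, indS_pos (by unfold Dat.Cut; rw [b3, b6]; cases s <;> simp), mul_one]
      have hT : (0 : ℝ) ≤ D.y D.h / k := by positivity
      have e1 : 2 * (1 - η / 4) * (D.y D.h : ℝ) / k = 2 * (1 - η / 4) * (D.y D.h / k) := by ring
      rw [e1]
      exact mul_le_mul_of_nonneg_right (by linarith) hT
    · refine Nat.cast_le.2 (ndS_mono fun c v h => ?_)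
      obtain ⟨⟨hf, ht, hb⟩, ho⟩ := h
      simp only [Dat.bits, Prod.mk.injEq] at hb
      obtain ⟨⟨b1, b2, b3⟩, b4, b5, b6⟩ := hb
      refine ⟨⟨⟨hf, ?_⟩, b2, b5⟩, ?_, ht, ⟨b1, b4⟩, b3, b6⟩
      · unfold Dat.Ins
        rw [ht.1, ht.2]
      · unfold Dat.lamOf
        rw [ho]
        rfl

end Pool.Agent.MP_d20a68_co.T

end

section

/-! The second stage of moves. -/

set_option autoImplicit false
set_option linter.unusedSectionVars false
set_option linter.unusedVariables false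
open Finset
open scoped Classical

namespace Pool.Agent.MP_d20a68_co.T

open Pool.Agent.MP_d20a68_co.Poly

lemma sgs_add_SStage2 {V : Type} [Fintype V] {R : ℕ} (lab : V → Fin R) (fl : Fin R → Fin R)
    (τ τ₀ : V → Bool) (f : V → ℤ) (a : Fin R) :
    sgs2 lab fl τ τ₀ f a true + sgs2 lab fl τ τ₀ f a false = sgs lab fl τ f a := by
  unfold sgs2 sgs
  simp only [sum_filter, ← sum_sub_distrib, ← sum_add_distrib]
  refine sum_congr rfl fun v _ => ?_
  cases τ v <;> cases τ₀ v <;> simp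

theorem stage2S (hS : StageP) (hD : DegP) (h1 : Id2P) (h2 : Bd2P) (h3 : Dfc2P) : Stage2P := by
  intro V Lv _ _ k R D C φ η ν u B S Lp H μ ν₁ a' e ρ om lam r0 r1 r4 nr hins hbal hres μ0 μ1 ν1
    e0 ρ0 ρ1 hε hLp hu
  obtain ⟨-, -, -, d4, d5, d6, -⟩ := hD V Lv k R D C φ η ν u B S Lp H
  have hbd := h2 V Lv k R D C φ η ν u B S Lp H e om lam r0 hres e0.le
  have hid := h1 V Lv k R D lam H.typ.inv H.pre.sumy hbal
  have kp := H.kpos
  have φ0 := H.φ0
  have hC : (0 : ℝ) ≤ C := Nat.cast_nonneg C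
  have hzh : D.h ≠ D.z := H.pre.zh.symm
  obtain ⟨ε, hεd⟩ : ∃ ε : ℝ, ε = 8 * (C + 1) * e / φ ^ 2 := ⟨_, rfl⟩
  rw [← hεd] at hε hLp
  have ε0 : 0 < ε := by rw [hεd]; positivity
  have hN : ∀ a, D.N a (D.fl a) ≠ 0 → (C + 1) * e * k ^ 2 / 2 ≤ ε * D.N a (D.fl a) := fun a ha => by
    have h4 := mul_le_mul_of_nonneg_left ((d4 a).resolve_left ha) ε0.le
    have h5 : ε * (φ * k / 4) ^ 2 = (C + 1) * e * k ^ 2 / 2 := by rw [hεd]; field_simp; ring
    rwa [h5] at h4
  have hN' : ∀ a, D.N a (D.fl a) ≠ 0 → (k : ℝ) ≤ ε * D.N a (D.fl a) := fun a ha => by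
    have h4 : (Lp : ℝ) * k ≤ D.N a (D.fl a) := by
      exact_mod_cast (H.typ.big a (D.fl a) (H.typ.pin a)).resolve_left ha
    have h5 := mul_le_mul_of_nonneg_left h4 ε0.le
    have h6 := mul_le_mul_of_nonneg_right hLp kp.le
    nlinarith
  have hsm : ∀ l, l ∈ small D.z D.h ↔ l ≠ D.z ∧ l ≠ D.h := fun l => by simp [small]
  have hnd : ∀ (l : Lv) (Q : Fin k → V → Prop),
      (nd fun c v => D.MA c v ∧ D.lamOf om c v = l ∧ Q c v) =
        nd fun c v => D.MA c v ∧ lam c v = l ∧ Q c v := fun l Q =>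
    ndS_congr fun c v => and_congr_right fun h => by rw [hins c v h.1.2]
  obtain ⟨lam', hv, hsame, hcA, hcnt⟩ := hS V Lv k R D D.MA lam (small D.z D.h)
    (fun a b => b = D.fl a ∧ D.N a (D.fl a) ≠ 0) (fun a b => (D.N a b : ℝ))
    (fun l a b => if b = D.fl a ∧ l ≠ D.z then
      sgs2 D.lab D.fl (D.σ l) (D.σ D.z) (res D.y lam l) a true else 0) ε (1 / 100) ρ η
    H.fac nr.val
    (fun c v h => ⟨⟨fun hf => h.1.1 ((H.fx_mate c v).1 hf), (H.ins_mate c v).2 h.1.2⟩,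
      h.2.2, by rw [H.fac.inv]; exact h.2.1⟩)
    (fun h => ((hsm _).1 h).2 rfl) (by exact_mod_cast kp) ε0 ρ0 ρ1 H.η0
    (H.eta_le.trans (by norm_num)) (by linarith)
    (by
      rintro a b ⟨rfl, h⟩
      exact ⟨(H.typ.inv a).symm, by rwa [H.typ.inv, d6]⟩)
    (fun a b => by rw [d6])
    (fun l a b h => by
      split_ifs with hb
      · have h0 := d5 a (by_contra fun h0 => h ⟨hb.1, h0⟩)
        unfold sgs2
        rw [sum_eq_zero fun v hv => absurd (mem_filter.1 hv).2.1 (h0 v).1,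
          sum_eq_zero fun v hv => absurd (mem_filter.1 hv).2.1 (h0 v).2, sub_self]
      · rfl)
    (fun l a b h h' => if_neg fun hb => h ((hsm l).2 ⟨hb.2, h'⟩))
    (fun a b => by
      by_cases hb : b = D.fl a
      · subst hb
        rw [← sum_erase (a := D.z) univ (by simp)]
        refine Eq.trans (sum_congr (by congr) fun l hl => ?_) (hid a)
        rw [if_pos ⟨rfl, (mem_erase.1 hl).1⟩, if_pos ⟨(H.typ.inv a).symm, (mem_erase.1 hl).1⟩]
      · refine sum_eq_zero fun l _ => ?_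
        rw [if_neg fun h => hb h.1, if_neg fun h => hb (by rw [h.1, H.typ.inv]), add_zero])
    (by
      rintro a b ⟨rfl, ha⟩ l hl
      have hz := ((hsm l).1 hl).1
      have y1 : (1 : ℝ) ≤ D.y l := by exact_mod_cast H.ypos l
      have h4 := hN a ha
      have h5 := hN' a ha
      rw [if_pos ⟨rfl, hz⟩]
      refine ⟨(hbd l hz a true).trans ?_, ?_⟩
      · rw [le_div_iff₀ kp]
        have h6 := mul_le_mul_of_nonneg_left h4 (by linarith : (0 : ℝ) ≤ D.y l)
        have h7 : 0 ≤ (D.y l : ℝ) * (e * k ^ 2) := by positivity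
        nlinarith
      · rw [le_div_iff₀ kp]
        nlinarith)
    (by
      rintro a b ⟨rfl, ha⟩
      have h4 := hN a ha
      have h5 := H.yhi D.h
      rw [if_pos ⟨rfl, hzh⟩]
      refine (hbd _ hzh a true).trans (le_trans ?_ h4)
      have h6 : (D.y D.h : ℝ) ≤ k := by linarith [(Nat.cast_nonneg (D.y D.h) : (0 : ℝ) ≤ _)]
      have h7 := mul_le_mul_of_nonneg_left h6 (by positivity : (0 : ℝ) ≤ C * k * e)
      have h8 : 0 ≤ e * (k : ℝ) ^ 2 := by positivity
      nlinarith)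
    (by
      have h4 := H.sum_small
      have h5 : (∑ l ∈ small D.z D.h, (D.y l : ℝ)) ≤ k := by
        linarith [(Nat.cast_nonneg (D.y D.h) : (0 : ℝ) ≤ _), (Nat.cast_nonneg (D.y D.z) : (0 : ℝ) ≤ _)]
      exact_mod_cast h5)
    (by
      have h4 := H.sum_small
      have h5 : (k : ℝ) ≤ 2 * ∑ l ∈ small D.z D.h, (D.y l : ℝ) := by
        linarith [H.yhi D.h, H.yhi D.z]
      exact_mod_cast h5)
    H.pre.yh (fun l => hu.trans (mul_le_mul_of_nonneg_left (H.u6 l) ρ0.le))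
    (fun v l hl => by
      have hz : l ≠ D.z := by
        rcases mem_insert.1 hl with h | h
        · exact h ▸ hzh
        · exact ((hsm l).1 h).1
      refine (cntS_mono (Q := fun c => D.MI c v ∧ lam c v = l) fun c h => ⟨h.1.1, h.2⟩).trans ?_
      by_cases hv : v ∈ D.Lt
      · have h4 := (abs_le.1 (nr.nI v l hz)).2
        have h5 := (abs_le.1 (r1.dI v hv l hz)).2
        have y0 : (0 : ℝ) ≤ D.y l := Nat.cast_nonneg _
        have h6 : (cnt fun c => D.MI c v : ℝ) ≤ k := by exact_mod_cast cntS_le_k _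
        have h7 : (1 - μ) * D.y l * (cnt fun c => D.MI c v : ℝ) / k ≤ D.y l := by
          rw [div_le_iff₀ kp]
          exact mul_le_mul (by nlinarith) h6 (Nat.cast_nonneg _) y0
        have h8 : (cnt fun c => D.MI c v ∧ lam c v = l : ℝ) ≤ 2 * D.y l := by nlinarith
        exact_mod_cast h8
      · rw [cntS_zero fun c h => h.1.1 (H.pre.hfx v hv c)]
        exact Nat.zero_le _)
    (by
      rintro a b ⟨rfl, -⟩ l hl
      rw [← hnd]
      exact r4.av3 a l hl)
    (by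
      rintro a b ⟨rfl, -⟩ l hl s
      rw [← hnd]
      exact r4.av4 a l hl s)
  refine ⟨lam', ⟨hv, fun c v h => ?_, fun c v l h => ?_, fun v l hz => ?_, fun v l => ?_⟩,
    fun l hz a β => ?_⟩
  · rw [hsame c v fun h' => h'.1.1 h, nr.fx c v h]
  · rw [hsame c v fun h' => (r0.tag c v l h).2.1 (h'.2.1.trans h'.2.2.symm), nr.tag c v l h]
  · have h4 := abs_le.1 (nr.nI v l hz)
    have h5 := abs_le.1 (hcnt v l)
    have key : ∀ f : Fin k → V → Lv, (∀ c v, ¬ D.MA c v → f c v = lam c v) →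
        (cnt fun c => D.MI c v ∧ f c v = l : ℝ) = (cnt fun c => D.MA c v ∧ f c v = l : ℝ) +
          (cnt fun c => (D.MI c v ∧ lam c v = l) ∧ ¬ D.MA c v : ℝ) := fun f hf => by
      rw [cntS_split (fun c => D.MI c v ∧ f c v = l) fun c => D.MA c v, Nat.cast_add]
      congr 2
      · exact cntS_congr fun c => ⟨fun h => ⟨h.2, h.1.2⟩, fun h => ⟨⟨h.1.1, h.2⟩, h.1⟩⟩
      · exact cntS_congr fun c => and_congr_left fun h => by rw [hf c v h]
    have h6 := key lam' hsame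
    have h7 := key lam fun _ _ _ => rfl
    rw [abs_le]
    constructor <;> linarith [h4.1, h4.2, h5.1, h5.2]
  · rw [cntS_congr (Q := fun c => D.MC c v ∧ lam c v = l) fun c =>
      and_congr_right fun h => by rw [hsame c v fun h' => h.2 h'.1.2]]
    exact nr.nC v l
  · obtain ⟨h4, h5⟩ := h3 V Lv k R D lam lam' H.fac H.typ.inv H.pre.cl nr.val hv hsame l a
    have h6 := hcA l a (D.fl a)
    rw [if_pos ⟨rfl, hz⟩] at h6
    have h7 := sgs_add_SStage2 D.lab D.fl (D.σ l) (D.σ D.z) (res D.y lam' l) a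
    rw [h4, hbal] at h7
    cases β <;> linarith

end Pool.Agent.MP_d20a68_co.T

end

section

set_option autoImplicit false
open Finset
open scoped Classical

namespace Pool.Agent.MP_d20a68_co.T

open Pool.Agent.MP_d20a68_co.Poly

theorem cf_SExpG {α : Type} [Fintype α] (Z : Finset α) (p : α → Prop) [DecidablePred p] :
    (Z.filter p).card = cnt fun w => w ∈ Z ∧ p w := by
  rw [cntS_eq]
  congr 1
  ext w
  simp

theorem two_SExpG {α : Type} [Fintype α] {Q Q1 Q2 : α → Prop} {N e : ℝ} (h1 : ∀ x, Q1 x → Q x)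
    (h2 : ∀ x, Q2 x → Q x) (hd : ∀ x, Q1 x → ¬ Q2 x) (a1 : |8 * (cnt Q1 : ℝ) - N| ≤ e)
    (a2 : |8 * (cnt Q2 : ℝ) - N| ≤ e) : N ≤ 4 * cnt Q + e := by
  have h : cnt Q1 + cnt Q2 ≤ cnt Q :=
    (cntS_or hd).ge.trans (cntS_mono fun x h => h.elim (h1 x) (h2 x))
  have h' : (cnt Q1 : ℝ) + cnt Q2 ≤ cnt Q := by exact_mod_cast h
  have := (abs_le.1 a1).1
  have := (abs_le.1 a2).1
  linarith

theorem expGS (hI : InhP) (hD : DegP) : ExpGP := by
  intro V Lv _ _ k R D C φ η ν u B S' Lp H h8 h31 l hl ⟨a, β⟩ U hU hc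
  have hk := H.kpos
  have φ0 := H.φ0
  have ν0 := H.ν0
  have c0 : (0 : ℝ) ≤ C := Nat.cast_nonneg _
  have hd := (hD V Lv k R D C φ η ν u B S' Lp H).1
  rcases U.eq_empty_or_nonempty with rfl | ⟨v0, -⟩
  · simp
  have φ4 : φ ≤ 4 := by
    have h1 : (cnt fun c => D.Ins c v0 : ℝ) ≤ k := Nat.cast_le.2 (cntS_le_k _)
    have := hd v0
    nlinarith
  obtain ⟨W, hW⟩ : ∃ W : Fin R → Bool → Bool → Finset V,
      ∀ b s s0 w, w ∈ W b s s0 ↔ D.lab w = b ∧ D.σ l w = s ∧ D.σ D.z w = s0 :=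
    ⟨fun b s s0 => univ.filter fun w => D.lab w = b ∧ D.σ l w = s ∧ D.σ D.z w = s0, by simp⟩
  have hV : ∀ b w, w ∈ Vl D.lab b ↔ D.lab w = b := fun b w => by simp [Vl]
  have key : ∀ x x' b s s0, (cnt fun w => w ∈ Vl D.lab b ∧ adj D.m x w ∧ adj D.m x' w : ℝ) ≤
      4 * (cnt fun w => w ∈ W b s s0 ∧ adj D.m x w ∧ adj D.m x' w : ℝ) + ν * k := by
    intro x x' b s s0
    rw [cntS_congr (Q := fun w => adj D.m x w ∧ adj D.m x' w ∧ D.lab w = b) fun w => by
      rw [hV]; tauto]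
    by_cases e : l = D.h
    · obtain ⟨l', hl'⟩ : (small D.z D.h).Nonempty := by
        refine nonempty_iff_ne_empty.2 fun e => ?_
        have h1 := H.sum_small
        have h2 := H.yhi D.z
        have h3 := H.yhi D.h
        rw [e, sum_empty] at h1
        linarith
      refine two_SExpG (fun w => ?_) (fun w => ?_) (fun w h1 h2 => ?_)
        (H.pre.eq3.h3 l' hl' x x' b true s0 s) (H.pre.eq3.h3 l' hl' x x' b false s0 s)
      · rw [hW, e]; tauto
      · rw [hW, e]; tauto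
      · exact Bool.noConfusion (h1.2.2.2.1.symm.trans h2.2.2.2.1)
    · have hl' : l ∈ small D.z D.h := mem_filter.2 ⟨mem_univ _, hl, e⟩
      refine two_SExpG (fun w => ?_) (fun w => ?_) (fun w h1 h2 => ?_)
        (H.pre.eq3.h3 l hl' x x' b s s0 true) (H.pre.eq3.h3 l hl' x x' b s s0 false)
      · rw [hW]; tauto
      · rw [hW]; tauto
      · exact Bool.noConfusion (h1.2.2.2.2.2.symm.trans h2.2.2.2.2.2)
  have deg : ∀ x b s s0, b = D.fl (D.lab x) →
      φ * k / 32 ≤ (cnt fun w => w ∈ W b s s0 ∧ adj D.m x w : ℝ) := by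
    intro x b s s0 e
    have h1 := key x x b s s0
    simp only [and_self] at h1
    rw [cntS_congr (Q := fun w => adj D.m x w ∧ D.lab w = D.fl (D.lab x)) fun w => by
      rw [hV, e, and_comm], cntS_adj H.fac] at h1
    have h2 : φ * k / 4 ≤ _ := (hd x).trans h1
    nlinarith
  have hn : ∀ Z : Finset V, (Z.card : ℝ) ≤ C * k := fun Z => by
    exact_mod_cast (card_le_univ Z).trans H.card
  have hS : U.filter (fun v => D.σ l v = true) ⊆ W a true β := fun v hv => by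
    obtain ⟨h1, h2⟩ := mem_filter.1 hv
    have h3 := hU v h1
    rw [cls2, if_pos h2, Prod.mk.injEq] at h3
    exact (hW _ _ _ _).2 ⟨h3.1, h2, h3.2⟩
  have hQ : ∀ v, ¬ D.σ l v = true → cls2 D.lab D.fl (D.σ l) (D.σ D.z) v = (a, β) →
      v ∈ W (D.fl a) false (!β) := fun v h2 h3 => by
    rw [cls2, if_neg h2, Prod.mk.injEq] at h3
    exact (hW _ _ _ _).2 ⟨by rw [← h3.1, H.typ.inv], eq_false_of_ne_true h2, by
      rw [← h3.2, Bool.not_not]⟩
  have hT : U.filter (fun v => ¬ D.σ l v = true) ⊆ W (D.fl a) false (!β) := fun v hv =>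
    hQ v (mem_filter.1 hv).2 (hU v (mem_filter.1 hv).1)
  have e1 := card_filter_add_card_filter_not (s := U) fun v => D.σ l v = true
  have e2 : (cnt fun v => cls2 D.lab D.fl (D.σ l) (D.σ D.z) v = (a, β)) ≤
      (W a true β).card + (W (D.fl a) false (!β)).card := by
    rw [cntS_eq]
    refine le_trans (card_le_card fun v hv => ?_) (card_union_le _ _)
    have h3 := (mem_filter.1 hv).2
    by_cases h2 : D.σ l v = true
    · rw [cls2, if_pos h2, Prod.mk.injEq] at h3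
      exact mem_union_left _ ((hW _ _ _ _).2 ⟨h3.1, h2, h3.2⟩)
    · exact mem_union_right _ (hQ v h2 h3)
  have e3 := card_sdiff_add_card_eq_card hS
  have e4 := card_sdiff_add_card_eq_card hT
  have p3 : φ ^ 3 ≤ 4 ^ 3 := pow_le_pow_left₀ φ0.le φ4 3
  have p4 : φ ^ 4 ≤ 4 ^ 4 := pow_le_pow_left₀ φ0.le φ4 4
  have main := hI V (adj D.m) (Vl D.lab a) (Vl D.lab (D.fl a)) (W a true β) (W (D.fl a) false (!β))
    k (φ * k / 32) (ν * k) (C * k) φ (φ ^ 5 * k ^ 2 / 2 ^ 33) (φ ^ 5 / (2 ^ 34 * (C + 1)) * k)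
    (fun _ _ => adjS_symm H.fac) (fun w h => (hV _ _).2 ((hW _ _ _ _).1 h).1)
    (fun w h => (hV _ _).2 ((hW _ _ _ _).1 h).1) (by positivity) (by positivity) φ0.le
    (by positivity)
    (fun v => by
      rw [cf_SExpG, cntS_congr fun w => and_comm, cntS_adj H.fac]
      exact Nat.cast_le.2 (cntS_le_k _))
    (hn _) (hn _)
    (fun x hx => by
      rw [cf_SExpG]
      exact deg _ _ _ _ (by rw [(hV _ _).1 hx]))
    (fun x hx => by
      rw [cf_SExpG]
      exact deg _ _ _ _ (by rw [(hV _ _).1 hx, H.typ.inv]))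
    (fun x _ x' _ => by
      rw [cf_SExpG, cf_SExpG]
      exact key _ _ _ _ _)
    (fun x _ x' _ => by
      rw [cf_SExpG, cf_SExpG]
      exact key _ _ _ _ _)
    (fun X hX Y hY => by
      rw [eeS_eb H.fac, eeS_eb H.fac]
      exact_mod_cast H.blk.exp a X hX Y hY)
    (by
      have := mul_le_mul_of_nonneg_right p3 (by positivity : 0 ≤ (φ * k) ^ 2)
      nlinarith [sq_nonneg (φ * k)])
    (by
      have := mul_le_mul_of_nonneg_right h31 (by positivity : 0 ≤ (k : ℝ) ^ 4)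
      have : 0 ≤ φ ^ 5 * (k : ℝ) ^ 4 := by positivity
      nlinarith)
    (by
      have h1 : φ ^ 5 / (2 ^ 34 * (C + 1)) ≤ φ / 64 := by
        rw [div_le_iff₀ (by positivity)]
        nlinarith [mul_nonneg φ0.le c0]
      nlinarith)
    (by
      have h1 : C * (φ ^ 5 / (2 ^ 34 * (C + 1))) ≤ φ ^ 5 / 2 ^ 34 := by
        rw [← mul_div_assoc, div_le_div_iff₀ (by positivity) (by positivity)]
        nlinarith [pow_pos φ0 5]
      nlinarith [mul_le_mul_of_nonneg_right h1 (sq_nonneg (k : ℝ))])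
    _ hS _ hT (by omega)
  rw [← Nat.cast_add, e1, eeS_eb H.fac, eeS_eb H.fac, ← Nat.cast_add] at main
  refine main.trans (Nat.cast_le.2 ((cntS_or fun d h1 h2 => (mem_sdiff.1 h2.1).2 h1.1).ge.trans
    (cntS_mono fun ⟨c, v⟩ h => ?_)))
  have f : ∀ {v w}, v ∈ W a true β → w ∈ W (D.fl a) false (!β) → D.lab w = D.fl (D.lab v) ∧
      D.σ D.z v ≠ D.σ D.z w ∧ D.σ l v = true ∧ D.σ l w = false := fun h1 h2 => by
    rw [hW] at h1 h2
    rw [h1.1, h1.2.2, h2.2.2]
    exact ⟨h2.1, (Bool.not_ne_self β).symm, h1.2.1, h2.2.1⟩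
  rcases h with ⟨h1, h2⟩ | ⟨h1, h2⟩
  · obtain ⟨h3, h4⟩ := mem_sdiff.1 h2
    obtain ⟨f1, f2, f3, f4⟩ := f (hS h1) h3
    exact ⟨f1, f2, ⟨f3, f4⟩, iff_of_true (mem_filter.1 h1).1
      fun h5 => h4 (mem_filter.2 ⟨h5, by simp [f4]⟩)⟩
  · obtain ⟨h3, h4⟩ := mem_sdiff.1 h1
    obtain ⟨f1, f2, f3, f4⟩ := f h3 (hT h2)
    exact ⟨f1, f2, ⟨f3, f4⟩, iff_of_false (fun h5 => h4 (mem_filter.2 ⟨h5, f3⟩))
      (not_not.2 (mem_filter.1 h2).1)⟩

end Pool.Agent.MP_d20a68_co.T

end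

section

/-! Labelled blocks from a minimal equivalence on the double cover. -/

set_option autoImplicit false
set_option linter.unusedSectionVars false
set_option linter.unusedVariables false
open Finset
open scoped Classical

namespace Pool.Agent.MP_d20a68_co.T

open Pool.Agent.MP_d20a68_co.Poly

lemma side_SBlkLab {V : Type} [Fintype V] (P : V × Bool → Prop) :
    cnt P = cnt (fun v => P (v, true)) + cnt (fun v => P (v, false)) := by
  simp only [cntS_sum]
  rw [Fintype.sum_prod_type, ← sum_add_distrib]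
  exact sum_congr rfl fun v _ => Fintype.sum_bool _

lemma side3_SBlkLab {V : Type} [Fintype V] {k : ℕ} (P : Fin k × V × Bool → Prop) :
    cnt P = nd (fun c v => P (c, v, true)) + nd (fun c v => P (c, v, false)) := by
  unfold nd
  rw [← cntS_equiv (Equiv.prodAssoc (Fin k) V Bool) P, side_SBlkLab]
  rfl

lemma mem_SBlkLab {V : Type} [Fintype V] (S : Finset V) : cnt (fun v => v ∈ S) = S.card := by
  unfold cnt
  congr 1
  ext v
  simp

lemma vl_SBlkLab {V : Type} [Fintype V] {R : ℕ} (lab : V → Fin R) (a : Fin R) (v : V) :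
    v ∈ Vl lab a ↔ lab v = a := by
  simp [Vl]

/-- The blocks from the labels. -/
lemma blk_SBlkLab {V : Type} [Fintype V] {k R : ℕ} {m : Fin k → V → V}
    {r : V × Bool → V × Bool → Prop} {φ₀ : ℝ} (hf : Fac m) (H : MinR m r φ₀)
    (hb : ∀ x, k ≤ 2 * cnt fun w => r x w) (lab : V → Fin R) (fl : Fin R → Fin R)
    (hi : ∀ a, fl (fl a) = a)
    (K : ∀ a, (∃ x, (∀ w, r x (w, true) ↔ lab w = a) ∧ ∀ w, r x (w, false) ↔ lab w = fl a) ∨
      ((∀ w, lab w ≠ a) ∧ ∀ w, lab w ≠ fl a)) : Blk m lab fl (φ₀ / 2) := by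
  refine ⟨hi, fun v => ?_, fun a S hS T hT => ?_⟩
  · rcases K (lab v) with ⟨x, h1, h2⟩ | ⟨h, _⟩
    · have := hb x
      rw [side_SBlkLab] at this
      rw [← mem_SBlkLab, ← mem_SBlkLab]
      convert this using 3
      · exact cntS_congr fun w => by rw [vl_SBlkLab, h1]
      · exact cntS_congr fun w => by rw [vl_SBlkLab, h2]
    · exact absurd rfl (h v)
  · rcases K a with ⟨x, h1, h2⟩ | ⟨h1, h2⟩
    · obtain ⟨Z, hZ⟩ : ∃ Z : Finset (V × Bool), ∀ w, w ∈ Z ↔
          (w.2 = true ∧ w.1 ∈ S) ∨ (w.2 = false ∧ w.1 ∈ T) :=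
        ⟨univ.filter fun w => (w.2 = true ∧ w.1 ∈ S) ∨ (w.2 = false ∧ w.1 ∈ T), fun w => by simp⟩
      have z1 : ∀ v, (v, true) ∈ Z ↔ v ∈ S := fun v => by simp [hZ]
      have z2 : ∀ v, (v, false) ∈ Z ↔ v ∈ T := fun v => by simp [hZ]
      have hr := H.ref x Z (by
        rintro ⟨v, b⟩ hw
        cases b
        · exact (h2 v).2 ((vl_SBlkLab _ _ _).1 (hT ((z2 v).1 hw)))
        · exact (h1 v).2 ((vl_SBlkLab _ _ _).1 (hS ((z1 v).1 hw))))
      have e1 : Z.card = S.card + T.card := by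
        rw [← mem_SBlkLab, side_SBlkLab, ← mem_SBlkLab S, ← mem_SBlkLab T]
        rw [cntS_congr z1, cntS_congr z2]
      have e2 : (cnt fun w => r x w ∧ w ∉ Z) =
          (Vl lab a \ S).card + (Vl lab (fl a) \ T).card := by
        rw [side_SBlkLab, ← mem_SBlkLab (Vl lab a \ S), ← mem_SBlkLab (Vl lab (fl a) \ T)]
        congr 1
        · exact cntS_congr fun v => by rw [mem_sdiff, vl_SBlkLab, h1, z1]
        · exact cntS_congr fun v => by rw [mem_sdiff, vl_SBlkLab, h2, z2]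
      have e3 : (cnt fun e : Fin k × V × Bool =>
          e.2 ∈ Z ∧ r x (m e.1 e.2.1, !e.2.2) ∧ (m e.1 e.2.1, !e.2.2) ∉ Z) =
          eb m S (Vl lab (fl a) \ T) + eb m (Vl lab a \ S) T := by
        rw [side3_SBlkLab]
        unfold eb
        congr 1
        · refine ndS_congr fun c v => ?_
          show (v, true) ∈ Z ∧ r x (m c v, false) ∧ (m c v, false) ∉ Z ↔ _
          rw [mem_sdiff, vl_SBlkLab, h2, z1, z2]
        · rw [← ndS_mate hf]
          refine ndS_congr fun c v => ?_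
          show (m c v, false) ∈ Z ∧ r x (m c (m c v), true) ∧ (m c (m c v), true) ∉ Z ↔ _
          rw [hf.inv, mem_sdiff, vl_SBlkLab, h1, z1, z2]
          tauto
      rw [e1, e2, e3] at hr
      exact hr
    · have hS0 : S = ∅ := eq_empty_of_forall_notMem fun v hv =>
        h1 v ((vl_SBlkLab _ _ _).1 (hS hv))
      have hT0 : T = ∅ := eq_empty_of_forall_notMem fun v hv =>
        h2 v ((vl_SBlkLab _ _ _).1 (hT hv))
      subst hS0 hT0
      simp only [card_empty, add_zero, Nat.cast_zero, mul_zero, zero_mul]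
      exact Nat.cast_nonneg _

theorem blkLabS : BlkLabP := by
  intro V _ k C m r φ₀ hf hn H hb
  let st : Setoid (V × Bool) := ⟨r, H.eqv⟩
  let Q : Type := Quotient st
  let mk : V × Bool → Q := Quotient.mk st
  have hmk : ∀ x y, mk x = mk y ↔ r x y := fun x y => Quotient.eq
  have hsur : ∀ q : Q, ∃ x, mk x = q := fun q => Quotient.exists_rep q
  let _ : Fintype Q := Fintype.ofSurjective mk hsur
  have hcard : Fintype.card Q ≤ 4 * C := by
    rcases Nat.eq_zero_or_pos k with h0 | h0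
    · have h1 : Fintype.card Q ≤ Fintype.card (V × Bool) := Fintype.card_le_of_surjective mk hsur
      rw [Fintype.card_prod] at h1
      have h2 : Fintype.card V = 0 := by rw [h0] at hn; omega
      rw [h2] at h1
      omega
    · have h1 : cnt (fun _ : V × Bool => True) = ∑ q : Q, cnt fun x => True ∧ mk x = q :=
        cntS_fiber _ mk
      rw [cntS_true, Fintype.card_prod, Fintype.card_bool] at h1
      have h2 : ∀ q : Q, k ≤ 2 * cnt fun x => True ∧ mk x = q := fun q => by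
        obtain ⟨y, rfl⟩ := hsur q
        rw [cntS_congr (Q := fun w => r y w) fun x => by
          rw [true_and, eq_comm, hmk]]
        exact hb y
      have h3 : ∑ _q : Q, k ≤ ∑ q : Q, 2 * cnt fun x => True ∧ mk x = q :=
        sum_le_sum fun q _ => h2 q
      rw [← mul_sum, ← h1, sum_const, card_univ, smul_eq_mul] at h3
      have h4 : Fintype.card Q * k ≤ 4 * C * k := by nlinarith
      exact Nat.le_of_mul_le_mul_right h4 h0
  obtain ⟨i⟩ : Nonempty (Q ↪ Fin (4 * C)) :=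
    Function.Embedding.nonempty_of_card_le (by simpa using hcard)
  let s : Q → Q := Quotient.map (fun x : V × Bool => (x.1, !x.2)) fun x y h => H.sw x y h
  have hs : ∀ x : V × Bool, s (mk x) = mk (x.1, !x.2) := fun x => rfl
  have hss : ∀ q, s (s q) = q := fun q => by
    obtain ⟨x, rfl⟩ := hsur q
    rw [hs, hs]
    simp
  let fl : Fin (4 * C) → Fin (4 * C) := fun a => if h : ∃ q, i q = a then i (s h.choose) else a
  have hfl : ∀ q, fl (i q) = i (s q) := fun q => by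
    have h : ∃ q', i q' = i q := ⟨q, rfl⟩
    show (if h : ∃ q', i q' = i q then i (s h.choose) else i q) = _
    rw [dif_pos h, i.injective h.choose_spec]
  have hfl' : ∀ a, (¬ ∃ q, i q = a) → fl a = a := fun a h => dif_neg h
  refine ⟨fun v => i (mk (v, true)), fl, blk_SBlkLab hf H hb _ fl (fun a => ?_) fun a => ?_⟩
  · by_cases h : ∃ q, i q = a
    · obtain ⟨q, rfl⟩ := h
      rw [hfl, hfl, hss]
    · rw [hfl' a h, hfl' a h]
  · by_cases h : ∃ q, i q = a
    · obtain ⟨q, rfl⟩ := h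
      obtain ⟨x, rfl⟩ := hsur q
      refine Or.inl ⟨x, fun w => ?_, fun w => ?_⟩
      · rw [i.injective.eq_iff, eq_comm, hmk]
      · rw [hfl, i.injective.eq_iff, hs, eq_comm, hmk]
        refine ⟨fun h => H.sw _ _ h, fun h => ?_⟩
        have := H.sw _ _ h
        simpa using this
    · rw [hfl' a h]
      exact Or.inr ⟨fun w e => h ⟨_, e⟩, fun w e => h ⟨_, e⟩⟩

end Pool.Agent.MP_d20a68_co.T

end
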