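import Pool.Agent.Mg.Xd20a68.Ge7e6f2
import Pool.Agent.Mg.Xd20a68.G7633c2

section

/-! A random labelling quarters all refined types. -/

set_option autoImplicit false
set_option linter.unusedSectionVars false
set_option linter.unusedVariables false
open Finset
open scoped Classical

namespace Pool.Agent.MP_d20a68_co.T

open Pool.Agent.MP_d20a68_co.Poly

variable {V : Type} [Fintype V] {k : ℕ}

/-- The number of ends of the dart `e` at the vertex `i`. -/
noncomputable def en_FCubeB (m : Fin k → V → V) (e : Fin k × V) (i : V) : ℝ :=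
  (if e.2 = i then 1 else 0) + if m e.1 e.2 = i then 1 else 0

lemma en0_FCubeB (m : Fin k → V → V) (e : Fin k × V) (i : V) : 0 ≤ en_FCubeB m e i := by
  unfold en_FCubeB
  split_ifs <;> norm_num

lemma en1_FCubeB {m : Fin k → V → V} {e : Fin k × V} {i : V} (h : e.2 = i ∨ m e.1 e.2 = i) :
    1 ≤ en_FCubeB m e i := by
  unfold en_FCubeB
  split_ifs <;> first | tauto | norm_num

lemma en2_FCubeB {m : Fin k → V → V} (hm : Fac m) (D : Finset (Fin k × V)) (i : V) :
    ∑ e ∈ D, en_FCubeB m e i ≤ 2 * k := by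
  refine (sum_le_sum_of_subset_of_nonneg (subset_univ D) fun e _ _ => en0_FCubeB m e i).trans ?_
  have h : ∀ c v, m c v = i ↔ v = m c i := fun c v =>
    ⟨fun e => by rw [← e, hm.inv], fun e => by rw [e, hm.inv]⟩
  simp only [en_FCubeB, Fintype.sum_prod_type, h, sum_add_distrib, sum_ite_eq', mem_univ, if_true,
    sum_const, card_univ, Fintype.card_fin, nsmul_eq_mul]
  linarith

lemma core_FCubeB (hA : AgreeP) {m : Fin k → V → V} (hm : Fac m) (D : Finset (Fin k × V))
    {N Lp M : ℕ} {ν : ℝ} (hν : 0 < ν) (S : Finset V) (g : V → Bool) (s s' : Bool)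
    (hS : S.card ≤ M) (hN : D.card ≤ N) (hL : N = 0 ∨ Lp * k ≤ N) (hM : 16 * (M : ℝ) ≤ ν * Lp) :
    pr (fun ε : V → Bool => ν * N < |4 * (∑ e ∈ D, if ovr S g ε e.2 = s ∧
      ovr S g ε (m e.1 e.2) = s' then (1 : ℝ) else 0) - D.card|) ≤
      2 * Real.exp (-(ν ^ 2 / 128 * Lp)) := by
  rcases D.eq_empty_or_nonempty with rfl | hD
  · rw [pr_false fun ε => by simpa using by positivity]
    positivity
  have hN0 : 0 < N := hD.card_pos.trans_le hN
  have hk : (0 : ℝ) < k := by exact_mod_cast hD.choose.1.pos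
  have hN1 : (0 : ℝ) < N := by exact_mod_cast hN0
  have hN2 : (D.card : ℝ) ≤ N := by exact_mod_cast hN
  have hL1 : (Lp : ℝ) * k ≤ N := by exact_mod_cast hL.resolve_left hN0.ne'
  have hS1 : (S.card : ℝ) ≤ M := by exact_mod_cast hS
  set I : Fin k × V → (V → Bool) → ℝ := fun e ε =>
    if ovr S g ε e.2 = s ∧ ovr S g ε (m e.1 e.2) = s' then (1 : ℝ) else 0 with hI
  set f : (V → Bool) → ℝ := fun ε => ∑ e ∈ D, I e ε with hf
  have I0 : ∀ e ε, 0 ≤ I e ε ∧ I e ε ≤ 1 := fun e ε => by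
    simp only [hI]
    split_ifs <;> norm_num
  have lip : ∀ i (ω ω' : V → Bool), (∀ j, j ≠ i → ω j = ω' j) →
      |f ω - f ω'| ≤ ∑ e ∈ D, en_FCubeB m e i := by
    intro i ω ω' h
    rw [hf, ← sum_sub_distrib]
    refine (abs_sum_le_sum_abs _ _).trans (sum_le_sum fun e _ => ?_)
    by_cases h1 : e.2 = i ∨ m e.1 e.2 = i
    · refine le_trans (abs_le.2 ⟨?_, ?_⟩) (en1_FCubeB h1) <;>
        linarith [(I0 e ω).1, (I0 e ω).2, (I0 e ω').1, (I0 e ω').2]
    · rw [not_or] at h1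
      have e1 : ovr S g ω e.2 = ovr S g ω' e.2 := by simp only [ovr, h _ h1.1]
      have e2 : ovr S g ω (m e.1 e.2) = ovr S g ω' (m e.1 e.2) := by simp only [ovr, h _ h1.2]
      simp only [hI, e1, e2, sub_self, abs_zero]
      exact en0_FCubeB m e i
  have sq : ∑ i, (∑ e ∈ D, en_FCubeB m e i) ^ 2 ≤ 4 * k * N := by
    have h1 : ∑ i, ∑ e ∈ D, en_FCubeB m e i = 2 * D.card := by
      rw [sum_comm]
      simp only [en_FCubeB, sum_add_distrib, sum_ite_eq, mem_univ, if_true, sum_const,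
        nsmul_eq_mul]
      ring
    calc _ ≤ ∑ i, 2 * k * ∑ e ∈ D, en_FCubeB m e i := sum_le_sum fun i _ => by
          rw [sq]
          exact mul_le_mul_of_nonneg_right (en2_FCubeB hm D i)
            (sum_nonneg fun e _ => en0_FCubeB m e i)
      _ ≤ _ := by rw [← mul_sum, h1]; nlinarith
  have mn : |4 * mean f - D.card| ≤ ν * N / 2 := by
    have h1 : ∀ e : Fin k × V, |4 * mean (I e) - 1| ≤ 4 * ∑ i ∈ S, en_FCubeB m e i := by
      intro e
      by_cases h : e.2 ∈ S ∨ m e.1 e.2 ∈ S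
      · have h2 : 1 ≤ ∑ i ∈ S, en_FCubeB m e i := by
          rcases h with h | h
          · exact (en1_FCubeB (Or.inl rfl)).trans (single_le_sum (fun i _ => en0_FCubeB m e i) h)
          · exact (en1_FCubeB (Or.inr rfl)).trans (single_le_sum (fun i _ => en0_FCubeB m e i) h)
        have h3 := mean_nonneg fun ε => (I0 e ε).1
        have h4 := (mean_mono fun ε => (I0 e ε).2).trans_eq (mean_const 1)
        rw [abs_le]
        constructor <;> linarith
      · rw [not_or] at h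
        have h2 := hA V {e.2, m e.1 e.2} fun v => if v = e.2 then s else s'
        rw [card_pair (hm.ne _ _).symm] at h2
        have h3 : mean (I e) = (1 / 2 : ℝ) ^ 2 := by
          rw [← h2, pr]
          congr 1
          funext ε
          simp [hI, ovr, h.1, h.2, hm.ne]
        rw [h3]
        norm_num
        exact sum_nonneg fun i _ => en0_FCubeB m e i
    have h2 : 4 * mean f - D.card = ∑ e ∈ D, (4 * mean (I e) - 1) := by
      rw [hf, mean_sum, sum_sub_distrib, mul_sum, sum_const, nsmul_one]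
    have h3 : ∑ i ∈ S, ∑ e ∈ D, en_FCubeB m e i ≤ S.card * (2 * k) := by
      rw [← nsmul_eq_mul]
      exact sum_le_card_nsmul _ _ _ fun i _ => en2_FCubeB hm D i
    rw [h2]
    refine (abs_sum_le_sum_abs _ _).trans ((sum_le_sum fun e _ => h1 e).trans ?_)
    rw [← mul_sum, sum_comm]
    have h4 := mul_le_mul_of_nonneg_right hM hk.le
    have h5 := mul_le_mul_of_nonneg_left hL1 hν.le
    have h6 := mul_le_mul_of_nonneg_right hS1 hk.le
    nlinarith
  have hQ : (0 : ℝ) < 4 * k * N := by positivity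
  have ht : 0 ≤ ν * N / 8 := by positivity
  have p1 := mcd V f _ _ _ hQ ht lip sq
  have p2 := mcd V (fun ε => -f ε) _ _ _ hQ ht (fun i ω ω' h => by
    rw [neg_sub_neg, abs_sub_comm]
    exact lip i ω ω' h) sq
  have ex : Real.exp (-(2 * (ν * N / 8) ^ 2 / (4 * k * N))) ≤
      Real.exp (-(ν ^ 2 / 128 * Lp)) := by
    refine Real.exp_le_exp.2 (neg_le_neg ?_)
    rw [le_div_iff₀ hQ]
    have := mul_le_mul_of_nonneg_left hL1 (show 0 ≤ ν ^ 2 * N by positivity)
    nlinarith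
  refine le_trans (pr_mono fun ε h => ?_) ((pr_or_le _ _).trans
    ((add_le_add (p1.trans ex) (p2.trans ex)).trans_eq (two_mul _).symm))
  rw [mean_neg]
  rw [abs_le] at mn
  have h1 : ν * N < |4 * f ε - D.card| := h
  rcases lt_abs.1 h1 with h2 | h2
  · left; linarith [mn.2]
  · right; linarith [mn.1]

theorem cubeBP (hA : AgreeP) : CubeBP := by
  intro R M δ ν hδ hν
  obtain ⟨U, hU⟩ := ev_exp (256 * (R : ℝ) ^ 2) (ν ^ 2 / 128) δ 0 (by positivity) hδ
  obtain ⟨W, hW⟩ := exists_nat_ge (16 * (M : ℝ) / ν)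
  refine ⟨U + W, fun k V _ m lab poor S g σ0 σ1 hm hL hS => ?_⟩
  have hM : 16 * (M : ℝ) ≤ ν * (U + W : ℕ) := by
    rw [div_le_iff₀ hν] at hW
    have : 0 ≤ ν * U := by positivity
    push_cast
    linarith
  let I := Bool × Fin R × Fin R × Bool × Bool × Bool × Bool × Bool × Bool
  let D : I → Finset (Fin k × V) := fun i => univ.filter fun e => rty m lab σ0 σ1 i.1 i.2.1
    i.2.2.1 i.2.2.2.1 i.2.2.2.2.1 i.2.2.2.2.2.1 i.2.2.2.2.2.2.1 e.1 e.2
  let P : I → (V → Bool) → Prop := fun i ε => ¬ poor i.2.1 i.2.2.1 ∧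
    ν * NN m lab i.2.1 i.2.2.1 < |4 * (∑ e ∈ D i, if ovr S g ε e.2 = i.2.2.2.2.2.2.2.1 ∧
      ovr S g ε (m e.1 e.2) = i.2.2.2.2.2.2.2.2 then (1 : ℝ) else 0) - (D i).card|
  have h1 : ∀ i, pr (P i) ≤ 2 * Real.exp (-(ν ^ 2 / 128 * (U + W : ℕ))) := by
    intro i
    by_cases hp : poor i.2.1 i.2.2.1
    · rw [pr_false fun ε h => h.1 hp]
      positivity
    refine (pr_mono fun ε h => h.2).trans (core_FCubeB hA hm _ hν S g _ _ hS ?_ (hL _ _ hp) hM)
    refine card_le_card fun e he => ?_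
    simp only [mem_filter, mem_univ, true_and]
    exact (mem_filter.1 he).2.1.2
  refine le_trans (pr_mono (Q := fun ε => ∃ i, P i ε) fun ε h => ?_)
    ((pr_exists_le P).trans ((sum_le_card_nsmul _ _ _ fun i _ => h1 i).trans
      (le_of_eq_of_le ?_ (hU (U + W) le_self_add))))
  · simp only [Gb, not_forall, not_le] at h
    obtain ⟨o, a, b, hp, s0, s1, s0', s1', s, s', h⟩ := h
    refine ⟨(o, a, b, s0, s1, s0', s1', s, s'), hp, ?_⟩
    simp only [D, sum_boole, filter_filter]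
    unfold nd cnt at h
    convert h <;> rfl
  · simp only [I, card_univ, Fintype.card_prod, Fintype.card_bool, Fintype.card_fin, nsmul_eq_mul]
    push_cast
    ring

end Pool.Agent.MP_d20a68_co.T

end

section

/-! The set of good pairs. -/

set_option autoImplicit false
set_option linter.unusedSectionVars false
set_option linter.unusedVariables false
open Finset
open scoped Classical

namespace Pool.Agent.MP_d20a68_co.T

open Pool.Agent.MP_d20a68_co.Poly

/-- The indicator. -/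
noncomputable def ind_FSmp (p : Prop) : ℝ := if p then 1 else 0

theorem pos_FSmp {p : Prop} (h : p) : ind_FSmp p = 1 := if_pos h

theorem neg_FSmp {p : Prop} (h : ¬ p) : ind_FSmp p = 0 := if_neg h

theorem nn_FSmp (p : Prop) : 0 ≤ ind_FSmp p := by
  unfold ind_FSmp
  split_ifs <;> norm_num

theorem cnt_FSmp {α : Type} [Fintype α] (P : α → Prop) : (cnt P : ℝ) = ∑ a, ind_FSmp (P a) := by
  rw [cnt, card_filter]
  push_cast
  rfl

theorem sub_FSmp {α : Type} [Fintype α] {P Q R : α → Prop} (h : ∀ a, P a → Q a ∨ R a) :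
    (cnt P : ℝ) ≤ cnt Q + cnt R := by
  rw [cnt_FSmp, cnt_FSmp, cnt_FSmp, ← sum_add_distrib]
  refine sum_le_sum fun a _ => ?_
  have h1 := nn_FSmp (Q a)
  have h2 := nn_FSmp (R a)
  by_cases hP : P a
  · rw [pos_FSmp hP]
    rcases h a hP with g | g <;> linarith [pos_FSmp g]
  · linarith [neg_FSmp hP]

theorem prod_FSmp {T : ℕ} {V : Type} [Fintype V] (P : Fin T × (V → Bool) → Prop) :
    (cnt P : ℝ) = ∑ o, pr (fun ε => P (o, ε)) * Fintype.card (V → Bool) := by
  rw [cnt_FSmp, Fintype.sum_prod_type]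
  refine sum_congr rfl fun o _ => ?_
  rw [pr, mean, div_mul_cancel₀ _ card_pos'.ne']
  rfl

theorem le_FSmp {T : ℕ} {V : Type} [Fintype V] {P : Fin T × (V → Bool) → Prop} {δ : ℝ}
    (h : ∀ o, pr (fun ε => P (o, ε)) ≤ δ) : (cnt P : ℝ) ≤ δ * (T * Fintype.card (V → Bool)) := by
  rw [prod_FSmp]
  refine (sum_le_sum fun o _ => mul_le_mul_of_nonneg_right (h o) (Nat.cast_nonneg _)).trans_eq ?_
  rw [sum_const, card_univ, Fintype.card_fin, nsmul_eq_mul]
  ring

theorem band_FSmp {α : Type} [Fintype α] (X : α → ℝ) {J : ℕ} (hJ : 0 < J) {d : ℝ} (hd : 0 ≤ d)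
    (x : ℝ) : ∃ j < J, (cnt fun a => x + (j + 1) * d - d ≤ X a ∧ X a < x + (j + 1) * d : ℝ) ≤
      1 / J * Fintype.card α := by
  have hJ' : (J : ℝ) ≠ 0 := Nat.cast_ne_zero.2 hJ.ne'
  have h : ∑ j ∈ range J, (cnt fun a => x + (j + 1) * d - d ≤ X a ∧ X a < x + (j + 1) * d : ℝ) ≤
      ∑ j ∈ range J, 1 / (J : ℝ) * Fintype.card α := by
    rw [sum_const, card_range, nsmul_eq_mul, ← mul_assoc, mul_one_div_cancel hJ', one_mul]
    simp only [cnt]
    rw [← Nat.cast_sum, ← card_biUnion, Nat.cast_le]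
    · exact card_le_univ _
    · intro i _ j _ hij
      refine disjoint_left.2 fun a h1 h2 => ?_
      simp only [mem_filter] at h1 h2
      rcases lt_or_gt_of_ne hij with l | l
      · have : ((i : ℝ) + 1) * d ≤ j * d := mul_le_mul_of_nonneg_right (by exact_mod_cast l) hd
        linarith [h1.2.2, h2.2.1]
      · have : ((j : ℝ) + 1) * d ≤ i * d := mul_le_mul_of_nonneg_right (by exact_mod_cast l) hd
        linarith [h1.2.1, h2.2.2]
  obtain ⟨j, h1, h2⟩ := exists_le_of_sum_le (nonempty_range_iff.2 hJ.ne') h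
  exact ⟨j, mem_range.1 h1, h2⟩

theorem canc_FSmp {α : Type} [Fintype α] {φ : α → α} (hφ : Function.Involutive φ)
    {C G : α → Prop} {X f : α → ℝ} {a d : ℝ} (hC : ∀ w, C w → C (φ w)) (hf : ∀ w, f (φ w) = -f w)
    (h1 : ∀ w, |f w| ≤ 1) (hX : ∀ w, X w - d ≤ X (φ w)) :
    |∑ w, ind_FSmp ((G w ∧ a ≤ X w) ∧ C w) * f w| ≤
      (cnt fun w => ¬ G w : ℝ) + (cnt fun w => a - d ≤ X w ∧ X w < a : ℝ) := by
  have e0 : ∑ w, ind_FSmp (C w ∧ a ≤ X w ∧ a ≤ X (φ w)) * f w = 0 := by
    refine sum_ninvolution φ (fun w => ?_) (fun w hw e => hw ?_) (fun _ => mem_univ _) hφ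
    · rw [hφ w, hf]
      by_cases h : C w ∧ a ≤ X w ∧ a ≤ X (φ w)
      · rw [pos_FSmp h, pos_FSmp ⟨hC w h.1, h.2.2, h.2.1⟩]
        ring
      · rw [neg_FSmp h, neg_FSmp fun h' => h ⟨hφ w ▸ hC _ h'.1, h'.2.2, h'.2.1⟩]
        ring
    · have := hf w
      rw [e] at this
      exact mul_eq_zero_of_right _ (by linarith)
  have e1 : ∑ w, ind_FSmp ((G w ∧ a ≤ X w) ∧ C w) * f w = ∑ w,
      (ind_FSmp ((G w ∧ a ≤ X w) ∧ C w) - ind_FSmp (C w ∧ a ≤ X w ∧ a ≤ X (φ w))) * f w := by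
    simp only [sub_mul, sum_sub_distrib, e0, sub_zero]
  rw [e1, cnt_FSmp, cnt_FSmp,
    ← Equiv.sum_comp hφ.toPerm fun w => ind_FSmp (a - d ≤ X w ∧ X w < a), ← sum_add_distrib]
  refine (abs_sum_le_sum_abs _ _).trans (sum_le_sum fun w _ => ?_)
  rw [Function.Involutive.coe_toPerm, abs_mul]
  refine (mul_le_of_le_one_right (abs_nonneg _) (h1 w)).trans ?_
  have n1 := nn_FSmp (¬ G w)
  have n2 := nn_FSmp (a - d ≤ X (φ w) ∧ X (φ w) < a)
  by_cases g1 : (G w ∧ a ≤ X w) ∧ C w <;> by_cases g2 : C w ∧ a ≤ X w ∧ a ≤ X (φ w)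
  · rw [pos_FSmp g1, pos_FSmp g2, sub_self, abs_zero]
    linarith
  · rw [pos_FSmp g1, neg_FSmp g2, sub_zero, abs_one]
    have := pos_FSmp (p := a - d ≤ X (φ w) ∧ X (φ w) < a)
      ⟨by linarith [hX w, g1.1.2], not_le.1 fun h => g2 ⟨g1.2, g1.1.2, h⟩⟩
    linarith
  · rw [neg_FSmp g1, pos_FSmp g2, zero_sub, abs_neg, abs_one]
    have := pos_FSmp (p := ¬ G w) fun h => g1 ⟨⟨h, g2.2.1⟩, g2.1⟩
    linarith
  · rw [neg_FSmp g1, neg_FSmp g2, sub_self, abs_zero]
    linarith

theorem ovr_FSmp {V : Type} {S : Finset V} {y : V} (hy : y ∉ S) (g ε : V → Bool) (w : V) :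
    ovr S g (Function.update ε y (!ε y)) w = if w = y then !ovr S g ε w else ovr S g ε w := by
  unfold ovr
  by_cases h : w = y
  · subst h
    simp [hy]
  · simp [h]

theorem smpP (hA : AgreeP) : SmpP := by
  intro k M T J V _ E S Lt g s fit Q G δ δ' d x hT hJ hd hx hδ hE hfit hker hLt hG hX
  obtain ⟨X, eX⟩ : ∃ X : Fin T × (V → Bool) → ℝ, ∀ ω,
    X ω = (cnt fun c => c ∈ Q ∧ cmp fit s E c ω.1 (ovr S (g ω.1) ω.2) : ℝ) := ⟨_, fun _ => rfl⟩
  obtain ⟨j, hj, hb⟩ := band_FSmp X hJ hd x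
  have a1 : x ≤ x + (j + 1) * d := le_add_of_nonneg_right (by positivity)
  have a2 : x + (j + 1) * d ≤ 2 * x := by
    have : ((j : ℝ) + 1) * d ≤ J * d := mul_le_mul_of_nonneg_right (by exact_mod_cast hj) hd
    linarith
  generalize x + (j + 1) * d = a at hb a1 a2
  have hc : (Fintype.card (Fin T × (V → Bool)) : ℝ) = T * Fintype.card (V → Bool) := by
    rw [Fintype.card_prod, Fintype.card_fin, Nat.cast_mul]
  have g1 := le_FSmp (P := fun ω => ¬ G (ovr S (g ω.1) ω.2)) hG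
  have g2 := le_FSmp (P := fun ω => X ω < 2 * x) (δ := δ') fun o => by simpa only [eX] using hX o
  refine ⟨univ.filter fun ω => G (ovr S (g ω.1) ω.2) ∧ a ≤ X ω, fun ω hω => ?_, fun c => ?_,
    fun c y hy hyc v hv => ?_⟩
  · rw [mem_filter] at hω
    exact ⟨hω.2.1, eX ω ▸ a1.trans hω.2.2⟩
  · obtain ⟨o, ho⟩ := hfit c
    have h1 : (1 / 2 : ℝ) ^ M ≤ pr fun ε => cmp fit s E c o (ovr S (g o) ε) := by
      refine le_trans ?_ (pr_mono (P := fun ε => ∀ v ∈ E c \ S, ε v = s c o v)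
        fun ε h => ⟨ho, fun v hv => ?_⟩)
      · rw [hA]
        exact pow_le_pow_of_le_one (by norm_num) (by norm_num)
          ((card_le_card sdiff_subset).trans (hE c))
      · unfold ovr
        split_ifs with hS
        · exact (hker c o ho v hv hS).symm
        · exact h v (mem_sdiff.2 ⟨hv, hS⟩)
    have hN : (0 : ℝ) ≤ Fintype.card (V → Bool) := Nat.cast_nonneg _
    have h2 : (1 / 2 : ℝ) ^ M * Fintype.card (V → Bool) ≤
        (cnt fun ω : Fin T × (V → Bool) => cmp fit s E c ω.1 (ovr S (g ω.1) ω.2) : ℝ) := by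
      rw [prod_FSmp]
      exact (mul_le_mul_of_nonneg_right h1 hN).trans (single_le_sum (f := fun o => pr (fun ε =>
        cmp fit s E c o (ovr S (g o) ε)) * Fintype.card (V → Bool))
        (fun o _ => mul_nonneg (pr_nonneg _) hN) (mem_univ o))
    have h3 := sub_FSmp (P := fun ω : Fin T × (V → Bool) => cmp fit s E c ω.1 (ovr S (g ω.1) ω.2))
      (Q := fun ω => (G (ovr S (g ω.1) ω.2) ∧ a ≤ X ω) ∧ cmp fit s E c ω.1 (ovr S (g ω.1) ω.2))
      (R := fun ω => ¬ G (ovr S (g ω.1) ω.2) ∨ X ω < 2 * x) fun ω h => by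
        by_cases b1 : G (ovr S (g ω.1) ω.2)
        · by_cases b2 : a ≤ X ω
          · exact Or.inl ⟨⟨b1, b2⟩, h⟩
          · exact Or.inr (Or.inr ((not_le.1 b2).trans_le a2))
        · exact Or.inr (Or.inl b1)
    have h4 := sub_FSmp (P := fun ω : Fin T × (V → Bool) =>
      ¬ G (ovr S (g ω.1) ω.2) ∨ X ω < 2 * x) fun ω h => h
    have hT' : (0 : ℝ) < T := Nat.cast_pos.2 hT
    have h5 := mul_le_mul_of_nonneg_right hδ (mul_nonneg hT'.le hN)
    have h6 : (1 / 2 : ℝ) ^ (M + 1) / T * (T * Fintype.card (V → Bool)) =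
        (1 / 2 : ℝ) ^ M * Fintype.card (V → Bool) / 2 := by
      field_simp
      ring
    rw [filter_filter, hc]
    refine le_of_le_of_eq (b := (cnt fun ω : Fin T × (V → Bool) => (G (ovr S (g ω.1) ω.2) ∧
      a ≤ X ω) ∧ cmp fit s E c ω.1 (ovr S (g ω.1) ω.2) : ℝ)) (by linarith) ?_
    unfold cnt
    congr
  · have hS := (hLt y hy).1
    have inv : ∀ c' (ω : Fin T × (V → Bool)), y ∉ E c' → cmp fit s E c' ω.1 (ovr S (g ω.1) ω.2) →
        cmp fit s E c' ω.1 (ovr S (g ω.1) (Function.update ω.2 y (!ω.2 y))) :=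
      fun c' ω h1 h2 => ⟨h2.1, fun w hw => by
        rw [ovr_FSmp hS, if_neg fun e : w = y => h1 (e ▸ hw), h2.2 w hw]⟩
    have h1 := canc_FSmp (φ := fun ω : Fin T × (V → Bool) => (ω.1, Function.update ω.2 y (!ω.2 y)))
      (fun ω => by simp) (C := fun ω => cmp fit s E c ω.1 (ovr S (g ω.1) ω.2))
      (G := fun ω => G (ovr S (g ω.1) ω.2)) (X := X)
      (f := fun ω => sg (ovr S (g ω.1) ω.2 y) * sg (ovr S (g ω.1) ω.2 v)) (a := a) (d := d)
      (fun ω => inv c ω hyc)
      (fun ω => by simp only [ovr_FSmp hS, if_true, if_neg hv, sg_not, neg_mul])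
      (fun ω => by rw [abs_mul, abs_sg, abs_sg, mul_one]) fun ω => by
        have h2 := (hLt y hy).2
        have h3 := sub_FSmp (P := fun c' => c' ∈ Q ∧ cmp fit s E c' ω.1 (ovr S (g ω.1) ω.2))
          (Q := fun c' => c' ∈ Q ∧ cmp fit s E c' ω.1
            (ovr S (g ω.1) (Function.update ω.2 y (!ω.2 y))))
          (R := fun c' => c' ∈ Q ∧ y ∈ E c') fun c' h => by
            by_cases b : y ∈ E c'
            · exact Or.inr ⟨h.1, b⟩
            · exact Or.inl ⟨h.1, inv c' ω b h.2⟩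
        rw [eX, eX]
        linarith
    rw [filter_filter, sum_filter]
    refine le_trans (le_of_eq ?_) (h1.trans ?_)
    · congr 1
      refine sum_congr rfl fun ω _ => ?_
      split_ifs with h
      · rw [pos_FSmp h, one_mul]
      · rw [neg_FSmp h, zero_mul]
    · rw [← hc] at g1
      linarith

end Pool.Agent.MP_d20a68_co.T

end

section

/-! The family of labellings. -/

set_option autoImplicit false
set_option linter.unusedSectionVars false
set_option linter.unusedVariables false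
open Finset
open scoped Classical

namespace Pool.Agent.MP_d20a68_co.T

open Pool.Agent.MP_d20a68_co.Poly

theorem pr_and_FFam {V : Type} [Fintype V] (A B : (V → Bool) → Prop) {a b : ℝ}
    (hA : pr (fun ε => ¬ A ε) ≤ a) (hB : pr (fun ε => ¬ B ε) ≤ b) :
    pr (fun ε => ¬ (A ε ∧ B ε)) ≤ a + b :=
  (pr_mono fun ε h => not_and_or.1 h).trans
    ((pr_or_le (fun ε => ¬ A ε) fun ε => ¬ B ε).trans (add_le_add hA hB))

theorem good_FFam {V : Type} [Fintype V] (A C : (V → Bool) → Prop) {a c : ℝ}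
    (hA : pr (fun ε => ¬ A ε) ≤ a) (hC : pr C ≤ c) (h : a + c < 1) : ∃ ε, A ε ∧ ¬ C ε := by
  by_contra hn
  have h1 : pr (fun ε : V → Bool => ¬ A ε ∨ C ε) = 1 := pr_true fun ε => by
    by_contra h2
    rw [not_or, not_not] at h2
    exact hn ⟨ε, h2⟩
  have h2 := pr_or_le (fun ε => ¬ A ε) C
  linarith

theorem small_FFam (u : ℕ) : small (Sum.inr false : Fin u ⊕ Bool) (Sum.inr true) =
    univ.map ⟨Sum.inl, Sum.inl_injective⟩ := by
  ext l
  rcases l with j | b
  · simp [small]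
  · cases b <;> simp [small]

theorem filt_FFam (u : ℕ) (P : Fin u ⊕ Bool → Prop) :
    (small (Sum.inr false : Fin u ⊕ Bool) (Sum.inr true)).filter P =
      (univ.filter fun j => P (Sum.inl j)).map ⟨Sum.inl, Sum.inl_injective⟩ := by
  rw [small_FFam]
  ext l
  rcases l with j | b
  · simp
  · simp

theorem cnt_FFam (u : ℕ) (P : Fin u ⊕ Bool → Prop) :
    (cnt fun l => l ∈ small (Sum.inr false : Fin u ⊕ Bool) (Sum.inr true) ∧ P l) =
      cnt fun j => P (Sum.inl j) := by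
  unfold cnt
  rw [← card_map ⟨Sum.inl, Sum.inl_injective⟩ (β := Fin u ⊕ Bool), ← filt_FFam u P]
  congr 1
  ext l
  simp

theorem famP (hA : CubeAP) (hB : CubeBP) (hP : PoolP) (hS : SmpP) (hL : SlotP) (hE : Eq3P) :
    FamP := by
  intro C R M T κ hT hκ
  have hT' : (0 : ℝ) < T := by exact_mod_cast hT
  obtain ⟨x0, hx0⟩ : ∃ x0 : ℝ, x0 = (1 / 2) ^ (M + 2) := ⟨_, rfl⟩
  obtain ⟨p0, hp0⟩ : ∃ p0 : ℝ, p0 = (1 / 2) ^ (M + 1) / T := ⟨_, rfl⟩
  have x0p : 0 < x0 := by rw [hx0]; positivity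
  have x01 : x0 ≤ 1 := by rw [hx0]; exact pow_le_one₀ (by norm_num) (by norm_num)
  have x02 : 2 * x0 = (1 / 2) ^ (M + 1) := by rw [hx0]; ring
  have p0p : 0 < p0 := by rw [hp0]; positivity
  have p02 : p0 / 2 = x0 / T := by rw [hp0, hx0]; ring
  rw [← hx0]
  obtain ⟨τs, hτs, hP⟩ := hP M (min (p0 / 2) (1 / 4)) (lt_min (by positivity) (by norm_num))
  obtain ⟨κ1, hκ1⟩ : ∃ κ1 : ℝ, κ1 = min x0 (κ / 2) := ⟨_, rfl⟩
  have k1p : 0 < κ1 := by rw [hκ1]; exact lt_min x0p (by positivity)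
  have k1a : κ1 ≤ x0 := by rw [hκ1]; exact min_le_left _ _
  have k1b : κ1 ≤ κ / 2 := by rw [hκ1]; exact min_le_right _ _
  refine ⟨τs * κ1 / 2, by positivity, fun cP hcP => ⟨κ1 * cP / 2, by positivity, fun ν hν => ?_⟩⟩
  obtain ⟨δ, hδ⟩ : ∃ δ : ℝ, δ = min (min (p0 / 2) (1 / 4)) (ν * p0 ^ 2 / 8) := ⟨_, rfl⟩
  have dp : 0 < δ := by
    rw [hδ]; exact lt_min (lt_min (by positivity) (by norm_num)) (by positivity)
  have d1 : δ ≤ p0 / 2 := by rw [hδ]; exact (min_le_left _ _).trans (min_le_left _ _)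
  have d2 : δ ≤ 1 / 4 := by rw [hδ]; exact (min_le_left _ _).trans (min_le_right _ _)
  have d3 : δ ≤ ν * p0 ^ 2 / 8 := by rw [hδ]; exact min_le_right _ _
  obtain ⟨J, hJ⟩ := exists_nat_ge (8 / (ν * p0 ^ 2))
  have Jp : (0 : ℝ) < J := lt_of_lt_of_le (by positivity) hJ
  have J1 : 1 / (J : ℝ) ≤ ν * p0 ^ 2 / 8 := by
    rw [div_le_iff₀ (by positivity)] at hJ
    rw [div_le_iff₀ Jp]
    linarith
  obtain ⟨UA, hA⟩ := hA C R M (δ / 2) (by positivity)
  obtain ⟨Lp, hB⟩ := hB R M (δ / 2) (ν / 21) (by positivity) (by positivity)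
  obtain ⟨UL, hL⟩ := hL C p0 ν p0p hν
  obtain ⟨U7, h7⟩ := ev_pow 7 ν 5 (by norm_num) hν
  obtain ⟨U8, h8⟩ := ev_pow 1 (κ1 * cP) 0 (by norm_num) (by positivity)
  refine ⟨x0 * (κ1 * cP / 2) / J, by positivity, Lp, UA + UL + U7 + U8, ?_⟩
  intro u hu k hk V _ m lab fl poor r E e S g nt s fit P Lt hV hm hbig hM hess hLt
  have hG : ∀ (o : Fin T) (σ0 σ1 : V → Bool), pr (fun ε : V → Bool =>
      ¬ (Ga m lab σ0 σ1 (ovr S (g o) ε) ((u : ℝ) ^ 5) ∧
        Gb m lab poor σ0 σ1 (ovr S (g o) ε) (ν / 21))) ≤ δ := fun o σ0 σ1 => by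
    have := pr_and_FFam _ _ (hA u (by omega) k hk V m lab S (g o) σ0 σ1 hV hess.scard)
      (hB k V m lab poor S (g o) σ0 σ1 hm hbig hess.scard)
    linarith
  have hX : ∀ (Q : Finset (Fin k)), Q ⊆ P →
      (∀ w, w ∉ S → (cnt fun c => c ∈ Q ∧ w ∈ E c : ℝ) ≤ τs * Q.card) → ∀ o : Fin T,
      pr (fun ε : V → Bool => (cnt fun c => c ∈ Q ∧ cmp fit s E c o (ovr S (g o) ε) : ℝ) <
        2 * (x0 * Q.card)) ≤ min (p0 / 2) (1 / 4) := fun Q hQ hsp o => by
    refine le_trans (pr_mono fun ε hε => ?_) (hP k V E (fun c => s c o) S (g o) Q hM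
      (fun c hc v hv hvS => hess.ker c o (hess.pfit c (hQ hc) o) v hv hvS) hsp)
    have e1 : (cnt fun c => c ∈ Q ∧ ∀ v ∈ E c, ovr S (g o) ε v = s c o v) =
        cnt fun c => c ∈ Q ∧ cmp fit s E c o (ovr S (g o) ε) := by
      congr 1
      ext c
      exact ⟨fun h => ⟨h.1, hess.pfit c (hQ h.1) o, h.2⟩, fun h => ⟨h.1, h.2.2⟩⟩
    rw [e1, ← x02, mul_assoc]
    exact hε
  have hd4 : δ + min (p0 / 2) (1 / 4) < 1 := by
    have := min_le_right (p0 / 2) (1 / 4)
    linarith
  let o0 : Fin T := ⟨0, hT⟩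
  have Pn : (0 : ℝ) ≤ P.card := Nat.cast_nonneg _
  have Pk : (P.card : ℝ) ≤ k := by
    have := card_le_univ P
    rw [Fintype.card_fin] at this
    exact_mod_cast this
  obtain ⟨εz, gz, xz⟩ := good_FFam _ _ (hG o0 (fun _ => true) fun _ => true)
    (hX P subset_rfl (fun w hw => (hess.spread w hw).trans (mul_le_mul_of_nonneg_right
      (by nlinarith) Pn)) o0) hd4
  have P1 : 1 ≤ κ1 * P.card := by
    have a1 := h8 u (by omega) k hk
    have a2 := mul_le_mul_of_nonneg_left hess.pbig k1p.le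
    rw [pow_zero] at a1
    nlinarith
  obtain ⟨Q, hQ, Qc⟩ := exists_subset_card_eq (n := ⌊κ1 * P.card⌋₊)
    (s := univ.filter fun c => c ∈ P ∧ cmp fit s E c o0 (ovr S (g o0) εz)) (by
      have a1 : ((⌊κ1 * P.card⌋₊ : ℕ) : ℝ) ≤ κ1 * P.card := Nat.floor_le (by positivity)
      have a2 := not_lt.1 xz
      have a3 := mul_le_mul_of_nonneg_right k1a Pn
      have a4 : 0 ≤ x0 * P.card := by positivity
      have a5 : ((⌊κ1 * P.card⌋₊ : ℕ) : ℝ) ≤
          (cnt fun c => c ∈ P ∧ cmp fit s E c o0 (ovr S (g o0) εz) : ℝ) := by linarith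
      have a6 : ⌊κ1 * P.card⌋₊ ≤ cnt fun c => c ∈ P ∧ cmp fit s E c o0 (ovr S (g o0) εz) := by
        exact_mod_cast a5
      unfold cnt at a6
      convert a6)
  have hQ' : ∀ c ∈ Q, c ∈ P ∧ cmp fit s E c o0 (ovr S (g o0) εz) := fun c hc =>
    (mem_filter.1 (hQ hc)).2
  have Q1 : (Q.card : ℝ) ≤ κ1 * P.card := by rw [Qc]; exact Nat.floor_le (by positivity)
  have Q2 : κ1 * P.card / 2 ≤ Q.card := by
    rw [Qc]
    have a1 := Nat.lt_floor_add_one (κ1 * P.card)
    have a2 : (1 : ℝ) ≤ (⌊κ1 * P.card⌋₊ : ℕ) := by exact_mod_cast Nat.le_floor (by simpa using P1)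
    linarith
  have Q3 : κ1 * cP / 2 * k ≤ Q.card := by
    have a2 := mul_le_mul_of_nonneg_left hess.pbig k1p.le
    nlinarith
  have Qsp : ∀ w, w ∉ S → (cnt fun c => c ∈ Q ∧ w ∈ E c : ℝ) ≤ τs * Q.card := fun w hw => by
    have a1 : (cnt fun c => c ∈ Q ∧ w ∈ E c) ≤ cnt fun c => c ∈ P ∧ w ∈ E c := by
      unfold cnt
      exact card_le_card fun c hc => by
        simp only [mem_filter, mem_univ, true_and] at hc ⊢
        exact ⟨(hQ' c hc.1).1, hc.2⟩
    have a2 : (cnt fun c => c ∈ Q ∧ w ∈ E c : ℝ) ≤ (cnt fun c => c ∈ P ∧ w ∈ E c : ℝ) := by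
      exact_mod_cast a1
    have a3 := hess.spread w hw
    have a4 := mul_le_mul_of_nonneg_left Q2 hτs.le
    nlinarith
  have hXQ := hX Q (fun c hc => (hQ' c hc).1) Qsp
  obtain ⟨εh, gh, xh⟩ := good_FFam _ _ (hG o0 (ovr S (g o0) εz) fun _ => true) (hXQ o0) hd4
  obtain ⟨Gd, G1, G2, G3⟩ := hS k M T J V E S Lt g s fit Q
    (fun σ => Ga m lab (ovr S (g o0) εz) (ovr S (g o0) εh) σ ((u : ℝ) ^ 5) ∧
      Gb m lab poor (ovr S (g o0) εz) (ovr S (g o0) εh) σ (ν / 21))
    δ (min (p0 / 2) (1 / 4)) (x0 * (κ1 * cP / 2) / J * k) (x0 * Q.card) hT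
    (by exact_mod_cast Jp) (by positivity)
    (by
      have : (J : ℝ) * (x0 * (κ1 * cP / 2) / J * k) = x0 * (κ1 * cP / 2 * k) := by field_simp
      rw [this]
      exact mul_le_mul_of_nonneg_left Q3 x0p.le)
    (by
      have := min_le_left (p0 / 2) (1 / 4)
      rw [← hp0]
      linarith)
    hM hess.ex hess.ker
    (fun v hv => ⟨(hLt v hv).1, le_trans (by
      have a1 : (cnt fun c => c ∈ Q ∧ v ∈ E c) ≤ cnt fun c => v ∈ E c := by
        unfold cnt
        exact card_le_card fun c hc => by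
          simp only [mem_filter, mem_univ, true_and] at hc ⊢
          exact hc.2
      exact_mod_cast a1) (hLt v hv).2⟩)
    (fun o => hG o _ _) hXQ
  obtain ⟨ω, w1, w2, w3⟩ := hL u (by omega) k hk V (Fin T × (V → Bool)) E Lt Gd
    (fun ω => ovr S (g ω.1) ω.2) (fun c ω => cmp fit s E c ω.1 (ovr S (g ω.1) ω.2)) hV
    ⟨(o0, fun _ => true)⟩ (by rw [hp0]; exact G2) (fun c y hy hyE v hv =>
      (G3 c y hy hyE v hv).trans (mul_le_mul_of_nonneg_right (by linarith) (Nat.cast_nonneg _)))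
  let σ : Fin u ⊕ Bool → V → Bool := Sum.elim (fun j => ovr S (g (ω j).1) (ω j).2)
    fun b => if b then ovr S (g o0) εh else ovr S (g o0) εz
  let ol : Fin u ⊕ Bool → Fin T := Sum.elim (fun j => (ω j).1) fun _ => o0
  have hE' := hE k R V (Fin u ⊕ Bool) m lab poor (Sum.inr false) (Sum.inr true) σ (u ^ 5) ν
    (by push_cast; exact h7 u (by omega) k hk) (by push_cast; exact gz) (by push_cast; exact gh)
    (fun l hl => by
      rw [small_FFam] at hl
      obtain ⟨j, -, rfl⟩ := mem_map.1 hl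
      push_cast
      exact (G1 _ (w1 j)).1)
  refine ⟨Fin u ⊕ Bool, inferInstance, Sum.inr false, Sum.inr true, σ, ol, Q,
    ⟨by simp, by rw [small_FFam]; simp, fun c hc => (hQ' c hc).2, Q3, by nlinarith, ?_, ?_, ?_⟩,
    hE'.1, hE'.2⟩
  · rintro (j | b) hl
    · exact (G1 _ (w1 j)).2
    · cases b
      · exact absurd rfl hl
      · have a1 := not_lt.1 xh
        have a2 : 0 ≤ x0 * Q.card := by positivity
        exact le_trans (by linarith) a1
  · intro c
    rw [cnt_FFam, ← p02]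
    exact w2 c
  · intro c x hx hxE v hv
    rw [cnt_FFam, filt_FFam, sum_map]
    exact w3 c x hx hxE v hv

end Pool.Agent.MP_d20a68_co.T

end

section

/-! The numbers after the adjustment of the levels. -/

set_option autoImplicit false
set_option linter.unusedSectionVars false
set_option linter.unusedVariables false
open Finset
open scoped Classical

namespace Pool.Agent.MP_d20a68_co.T

open Pool.Agent.MP_d20a68_co.Poly

theorem cnt_mono_FLevA {α : Type} [Fintype α] {P Q : α → Prop} (H : ∀ x, P x → Q x) :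
    cnt P ≤ cnt Q := by
  unfold cnt
  refine card_le_card fun x hx => ?_
  simp only [mem_filter, mem_univ, true_and] at hx ⊢
  exact H x hx

theorem cnt_or_FLevA {α : Type} [Fintype α] {P Q S : α → Prop} (H : ∀ x, P x → Q x ∨ S x) :
    cnt P ≤ cnt Q + cnt S := by
  unfold cnt
  refine le_trans (card_le_card fun x hx => ?_) (card_union_le _ _)
  simp only [mem_filter, mem_univ, true_and, mem_union] at hx ⊢
  exact H x hx

theorem moved_FLevA {k s : ℕ} {Lv : Type} [Fintype Lv] {z h : Lv} {lc lc' : Fin k → Lv}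
    (hzh : z ≠ h) (hm : ∀ c, lc' c ≠ lc c → lc c = z)
    (hs : ∀ l, l ≠ z → (cnt fun c => lc' c = l ∧ lc c ≠ l) ≤ s) :
    (cnt fun c => lc' c ≠ lc c) ≤ ((small z h).card + 1) * s := by
  have h1 : (univ.filter fun c => lc' c ≠ lc c) ⊆
      (univ.erase z).biUnion fun l => univ.filter fun c => lc' c = l ∧ lc c ≠ l := by
    intro c hc
    simp only [mem_filter, mem_univ, true_and] at hc
    simp only [mem_biUnion, mem_erase, mem_univ, and_true, mem_filter, true_and]
    refine ⟨lc' c, ?_, rfl, fun e => hc e.symm⟩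
    rw [← hm c hc]
    exact hc
  have h2 : (univ.erase z).card = (small z h).card + 1 := by
    rw [card_erase_of_mem (mem_univ z), card_univ, card_small hzh]
    omega
  have h3 : ((univ.erase z).biUnion fun l => univ.filter fun c => lc' c = l ∧ lc c ≠ l).card ≤
      (univ.erase z).card * s := by
    refine card_biUnion_le_card_mul _ _ _ fun l hl => ?_
    have := hs l (ne_of_mem_erase hl)
    unfold cnt at this
    refine le_trans (le_of_eq ?_) this
    congr 1
    ext c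
    simp only [mem_filter, mem_univ, true_and]
  rw [← h2]
  refine le_trans ?_ h3
  refine le_trans (le_of_eq ?_) (card_le_card h1)
  unfold cnt
  congr 1
  ext c
  simp only [mem_filter, mem_univ, true_and]

theorem cor_FLevA {k : ℕ} {V Lv : Type} [Fintype V] [Fintype Lv] (E : Fin k → Finset V)
    {z h : Lv} (σ : Lv → V → Bool) {lc lc' : Fin k → Lv} (hm : ∀ c, lc' c ≠ lc c → lc c = z)
    (w : Option V) (x v : V) :
    |cor E z h σ lc' w x v| ≤ |cor E z h σ lc w x v| + (cnt fun c => lc' c ≠ lc c : ℝ) := by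
  have h1 : |cor E z h σ lc' w x v - cor E z h σ lc w x v| ≤ (cnt fun c => lc' c ≠ lc c : ℝ) := by
    unfold cor cnt
    rw [sum_filter, sum_filter, ← sum_sub_distrib, card_filter]
    push_cast
    refine (abs_sum_le_sum_abs _ _).trans (sum_le_sum fun c _ => ?_)
    by_cases hc : lc' c = lc c
    · rw [hc, sub_self, abs_zero]
      split_ifs <;> norm_num
    · have hz : lc c ∉ small z h := by
        rw [hm c hc]
        simp [small]
      rw [if_neg (fun H : lc c ∈ small z h ∧ _ => hz H.1), sub_zero, if_pos hc]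
      split_ifs
      · rw [abs_mul, abs_sg, abs_sg, mul_one]
      · norm_num
  have h2 := abs_sub_abs_le_abs_sub (cor E z h σ lc' w x v) (cor E z h σ lc w x v)
  linarith

theorem levAP : LevAP := by
  intro ν κ a A θ hν hκ ha hA hθ
  obtain ⟨U1, hU1⟩ := ev_pow 1 a 7 le_rfl ha
  obtain ⟨U2, hU2⟩ := ev_pow 2 (a / 2) 6 (by norm_num) (by positivity)
  obtain ⟨U3, hU3⟩ := ev_pow 1 (κ / 2) 5 (by norm_num) (by positivity)
  obtain ⟨U4, hU4⟩ := ev_pow 1 (ν / 2) 5 (by norm_num) (by positivity)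
  obtain ⟨U5, hU5⟩ := ev_pow 2 (ν / 4) 6 (by norm_num) (by positivity)
  obtain ⟨U6, hU6⟩ := ev_pow 1 (ν * a / 2) 6 (by norm_num) (by positivity)
  obtain ⟨U7, hU7⟩ := exists_nat_ge (2 * A / κ)
  obtain ⟨U8, hU8⟩ := exists_nat_ge (2 * A / ν)
  refine ⟨U1 + U2 + U3 + U4 + U5 + U6 + U7 + U8 + 1, ?_⟩
  intro u hu k hk V Lv _ _ E Lt z h σ cm lc lc' hzh hcard H hth hm hs
  have e1 := hU1 u (by omega) k hk
  have e2 := hU2 u (by omega) k hk
  have e3 := hU3 u (by omega) k hk
  have e4 := hU4 u (by omega) k hk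
  have e5 := hU5 u (by omega) k hk
  have e6 := hU6 u (by omega) k hk
  have hu1 : (1 : ℝ) ≤ u := by exact_mod_cast (show 1 ≤ u by omega)
  have hu0 : (0 : ℝ) < u := by linarith
  have hk0 : (0 : ℝ) ≤ k := Nat.cast_nonneg k
  have e7 : 2 * A ≤ κ * u := by
    have : (U7 : ℝ) ≤ u := by exact_mod_cast (show U7 ≤ u by omega)
    rw [div_le_iff₀ hκ] at hU7
    nlinarith
  have e8 : 2 * A ≤ ν * u := by
    have : (U8 : ℝ) ≤ u := by exact_mod_cast (show U8 ≤ u by omega)
    rw [div_le_iff₀ hν] at hU8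
    nlinarith
  have hp6 : (0 : ℝ) ≤ (u : ℝ) ^ 6 := by positivity
  have keep : ∀ l, l ≠ z → ∀ c, lc c = l → lc' c = l := by
    intro l hl c hc
    by_contra hne
    exact hl (hc ▸ hm c (hc ▸ hne))
  have f1 : ∀ l, l ≠ z → (cnt fun c => lc c = l : ℝ) ≤ (cnt fun c => lc' c = l : ℝ) := by
    intro l hl
    exact_mod_cast cnt_mono_FLevA (keep l hl)
  have f2 : ∀ l, l ≠ z →
      (cnt fun c => lc' c = l : ℝ) ≤ (cnt fun c => lc c = l : ℝ) + (u : ℝ) ^ 5 := by
    intro l hl
    have h1 : (cnt fun c => lc' c = l) ≤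
        (cnt fun c => lc c = l) + cnt fun c => lc' c = l ∧ lc c ≠ l :=
      cnt_or_FLevA fun c hc => by
        by_cases e : lc c = l
        · exact Or.inl e
        · exact Or.inr ⟨hc, e⟩
    exact_mod_cast h1.trans (Nat.add_le_add_left (hs l hl) _)
  have f2' : ∀ l, l ≠ z → ∀ v, (cnt fun c => lc' c = l ∧ v ∈ E c : ℝ) ≤
      (cnt fun c => lc c = l ∧ v ∈ E c : ℝ) + (u : ℝ) ^ 5 := by
    intro l hl v
    have h1 : (cnt fun c => lc' c = l ∧ v ∈ E c) ≤
        (cnt fun c => lc c = l ∧ v ∈ E c) + cnt fun c => lc' c = l ∧ lc c ≠ l :=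
      cnt_or_FLevA fun c hc => by
        by_cases e : lc c = l
        · exact Or.inl ⟨e, hc.2⟩
        · exact Or.inr ⟨hc.1, e⟩
    exact_mod_cast h1.trans (Nat.add_le_add_left (hs l hl) _)
  have f3 : (cnt fun c => lc' c ≠ lc c : ℝ) ≤ 2 * (u : ℝ) ^ 6 := by
    have h1 := moved_FLevA hzh hm hs
    rw [hcard] at h1
    have h2 : (cnt fun c => lc' c ≠ lc c : ℝ) ≤ ((u : ℝ) + 1) * (u : ℝ) ^ 5 := by
      exact_mod_cast h1
    have h3 : (0 : ℝ) ≤ (u : ℝ) ^ 5 := by positivity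
    calc _ ≤ ((u : ℝ) + 1) * (u : ℝ) ^ 5 := h2
      _ ≤ ((u : ℝ) + u) * (u : ℝ) ^ 5 := mul_le_mul_of_nonneg_right (by linarith) h3
      _ = 2 * (u : ℝ) ^ 6 := by ring
  have f4 : a * k ≤ (cnt fun c => lc c = z : ℝ) := by
    refine (H.stay h hzh.symm).trans ?_
    have h1 : (cnt fun c => lc c = z ∧ cm c h) ≤ cnt fun c => lc c = z :=
      cnt_mono_FLevA fun c hc => hc.1
    exact_mod_cast h1
  have f5 : (cnt fun c => lc c = z : ℝ) ≤
      (cnt fun c => lc' c = z : ℝ) + (cnt fun c => lc' c ≠ lc c : ℝ) := by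
    exact_mod_cast cnt_or_FLevA fun c hc => by
      by_cases e : lc' c = lc c
      · exact Or.inl (e.trans hc)
      · exact Or.inr e
  have f6 : (cnt fun c => lc' c = z : ℝ) ≤ (cnt fun c => lc c = z : ℝ) := by
    exact_mod_cast cnt_mono_FLevA fun c hc => by
      by_cases e : lc' c = lc c
      · exact e.symm.trans hc
      · exact hm c e
  have gz : a / 2 * k ≤ (cnt fun c => lc' c = z : ℝ) := by linarith
  have hak : (0 : ℝ) ≤ a * k := by positivity
  have gh : a / 2 * k ≤ (cnt fun c => lc' c = h : ℝ) := by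
    have := f1 h hzh.symm
    have := H.hlo
    linarith
  have cases3 : ∀ l, l = z ∨ l = h ∨ l ∈ small z h := by
    intro l
    by_cases h1 : l = z
    · exact Or.inl h1
    · by_cases h2 : l = h
      · exact Or.inr (Or.inl h2)
      · exact Or.inr (Or.inr (by simp [small, h1, h2]))
  have nz : ∀ l ∈ small z h, l ≠ z := by
    intro l hl
    simp only [small, mem_filter, mem_univ, true_and] at hl
    exact hl.1
  have glo : ∀ l ∈ small z h, a * k ≤ u * (cnt fun c => lc' c = l : ℝ) := fun l hl =>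
    (H.lo l hl).trans (mul_le_mul_of_nonneg_left (f1 l (nz l hl)) hu0.le)
  have ghi : ∀ (b : ℝ), 0 < b → 2 * A ≤ b * u → 1 * (u : ℝ) ^ 5 ≤ b / 2 * k →
      ∀ l ∈ small z h, (cnt fun c => lc' c = l : ℝ) ≤ b * k := by
    intro b hb h1 h2 l hl
    have h3 := H.hi l hl
    have h4 : u * (cnt fun c => lc c = l : ℝ) ≤ u * (b / 2 * k) := by
      have := mul_le_mul_of_nonneg_right h1 hk0
      nlinarith
    have h5 := le_of_mul_le_mul_left h4 hu0
    have h6 := f2 l (nz l hl)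
    linarith
  refine ⟨fun l => ?_, gz, gh, fun l => ?_, ghi ν hν e8 e4, fun w x hx v hv => ?_,
    fun v hv l => ?_⟩
  · have : (u : ℝ) ^ 6 ≤ (cnt fun c => lc' c = l : ℝ) := by
      rcases cases3 l with rfl | rfl | hl
      · linarith
      · linarith
      · refine le_of_mul_le_mul_left ?_ hu0
        have h1 := glo l hl
        have h2 : (u : ℝ) * (u : ℝ) ^ 6 = 1 * (u : ℝ) ^ 7 := by ring
        linarith
    exact_mod_cast this
  · have hkk : (0 : ℝ) ≤ κ * k := by positivity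
    rcases cases3 l with rfl | rfl | hl
    · have := H.zhi
      linarith
    · have := H.hhi
      have := f2 l hzh.symm
      linarith
    · exact ghi κ hκ e7 e3 l hl
  · have h1 := cor_FLevA E (h := h) σ hm w x v
    have h2 := H.w1 w x hx v hv
    linarith
  · have big : a / 2 * k ≤ (cnt fun c => lc' c = l : ℝ) →
        (cnt fun c => lc' c = l ∧ v ∈ E c : ℝ) ≤ ν * (cnt fun c => lc' c = l : ℝ) := by
      intro hb
      have h1 : (cnt fun c => lc' c = l ∧ v ∈ E c : ℝ) ≤ (cnt fun c => v ∈ E c : ℝ) := by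
        have h0 : (cnt fun c => lc' c = l ∧ v ∈ E c) ≤ cnt fun c => v ∈ E c :=
          cnt_mono_FLevA fun c hc => hc.2
        exact_mod_cast h0
      have h2 := hth v hv
      have h3 := mul_le_mul_of_nonneg_right hθ hk0
      have h4 := mul_le_mul_of_nonneg_left hb hν.le
      nlinarith
    rcases cases3 l with rfl | rfl | hl
    · exact big gz
    · exact big gh
    · refine le_of_mul_le_mul_left ?_ hu0
      have h1 := mul_le_mul_of_nonneg_left (f2' l (nz l hl) v) hu0.le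
      have h2 := H.ld v hv l hl
      have h3 := mul_le_mul_of_nonneg_left (glo l hl) hν.le
      have h4 : (u : ℝ) * (u : ℝ) ^ 5 = 1 * (u : ℝ) ^ 6 := by ring
      nlinarith

end Pool.Agent.MP_d20a68_co.T

end

section

/-! The levels after the flips, and the supply of vertices that may be flipped. -/

set_option autoImplicit false
set_option linter.unusedSectionVars false
set_option linter.unusedVariables false
open Finset
open scoped Classical

namespace Pool.Agent.MP_d20a68_co.T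

open Pool.Agent.MP_d20a68_co.Poly

theorem flp_out_FFlev {V : Type} (F : Finset V) (σ : V → Bool) (v : V) (h : v ∉ F) :
    flp F σ v = σ v := by
  simp [flp, h]

theorem term_FFlev {V : Type} (F : Finset V) (σ : V → Bool) (x v : V) :
    |sg (flp F σ x) * sg (flp F σ v) - sg (σ x) * sg (σ v)| ≤
      2 * (if x ∈ F then (1 : ℝ) else 0) + 2 * (if v ∈ F then (1 : ℝ) else 0) := by
  unfold flp
  by_cases hx : x ∈ F <;> by_cases hv : v ∈ F <;> cases σ x <;> cases σ v <;>
    simp [hx, hv, sg] <;> norm_num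

theorem hit_FFlev {k : ℕ} {V Lv : Type} [Fintype Lv] (z h : Lv) (lc : Fin k → Lv)
    (F : Lv → Finset V) (ν : ℝ) (hν : 0 ≤ ν) (hd : ∀ l l', l ≠ l' → Disjoint (F l) (F l'))
    (hs : ∀ l ∈ small z h, (cnt fun c => lc c = l : ℝ) ≤ ν * k) (A : Finset (Fin k))
    (hA : ∀ c ∈ A, lc c ∈ small z h) (x : V) :
    ∑ c ∈ A, (if x ∈ F (lc c) then (1 : ℝ) else 0) ≤ ν * k := by
  rw [sum_boole]
  by_cases hx : ∃ l ∈ small z h, x ∈ F l
  · obtain ⟨l, hl, hxl⟩ := hx
    refine le_trans ?_ (hs l hl)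
    unfold cnt
    refine Nat.cast_le.2 (card_le_card fun c hc => ?_)
    rw [mem_filter] at hc ⊢
    refine ⟨mem_univ _, ?_⟩
    by_contra hne
    exact disjoint_left.1 (hd _ _ hne) hc.2 hxl
  · have : A.filter (fun c => x ∈ F (lc c)) = ∅ := by
      refine filter_eq_empty_iff.2 fun c hc hx' => hx ⟨_, hA c hc, hx'⟩
    rw [this, card_empty, Nat.cast_zero]
    positivity

theorem flevP : FlevP := by
  intro k R u t t' V Lv _ _ m lab fl poor r E e Lt z h σ y lc ntl ν η κ F hν hcl H hd hFE h3 hb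
  have hk : (0 : ℝ) ≤ k := Nat.cast_nonneg _
  have hout : ∀ c, ∀ v ∈ E c, flp (F (lc c)) (σ (lc c)) v = σ (lc c) v :=
    fun c v hv => flp_out_FFlev _ _ _ fun hF => hFE c v hF hv
  have hs : ∀ l ∈ small z h, (cnt fun c => lc c = l : ℝ) ≤ ν * k := fun l hl => by
    rw [← H.ycard l]; exact H.ysm l hl
  refine ⟨H.zh, H.card, H.ycard, H.ylo, H.yz, H.yh, H.yhi, fun l hl => ?_, fun c v hv => ?_,
    fun c a => ?_, fun w x hx v hv => ?_, fun v hv l => ?_, h3.mono (by linarith), hb⟩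
  · have := H.ysm l hl
    nlinarith [mul_nonneg hν hk]
  · show flp (F (lc c)) (σ (lc c)) (e c v) = !flp (F (lc c)) (σ (lc c)) v
    rw [hout c v hv, hout c _ (hcl c v hv)]
    exact H.cutE c v hv
  · rw [← H.netE c a]
    refine sum_congr rfl fun v hv => ?_
    show nu r fl a (lab v) (flp (F (lc c)) (σ (lc c)) v) = _
    rw [hout c v hv]
  · have h0 := H.w1 w x hx v hv
    set A := univ.filter (fun c => lc c ∈ small z h ∧ ∀ w', w = some w' → w' ∉ E c) with hA
    have hAs : ∀ c ∈ A, lc c ∈ small z h := fun c hc => (mem_filter.1 hc).2.1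
    have h1 := hit_FFlev z h lc F ν hν hd hs A hAs x
    have h2 := hit_FFlev z h lc F ν hν hd hs A hAs v
    have hdiff : |cor E z h (fun l => flp (F l) (σ l)) lc w x v - cor E z h σ lc w x v| ≤
        4 * (ν * k) := by
      unfold cor
      rw [← hA, ← sum_sub_distrib]
      refine (abs_sum_le_sum_abs _ _).trans ?_
      refine (sum_le_sum fun c _ => term_FFlev (F (lc c)) (σ (lc c)) x v).trans ?_
      rw [sum_add_distrib, ← mul_sum, ← mul_sum]
      linarith
    have := abs_sub_abs_le_abs_sub (cor E z h (fun l => flp (F l) (σ l)) lc w x v)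
      (cor E z h σ lc w x v)
    linarith
  · have := H.ld v hv l
    have h0 : (0 : ℝ) ≤ y l := Nat.cast_nonneg _
    nlinarith [mul_nonneg hν h0]

theorem nb_FFlev {k R : ℕ} {V : Type} [Fintype V] {m : Fin k → V → V} (hm : Fac m)
    (lab : V → Fin R) (v : V) (b : Fin R) :
    (cnt fun c => lab (m c v) = b) ≤ (Vl lab b).card := by
  unfold cnt Vl
  refine card_le_card_of_injOn (fun c => m c v) (fun c hc => ?_) fun c _ c' _ h => hm.inj c c' v h
  simpa using hc

theorem side_FFlev {R : ℕ} {V : Type} [Fintype V] (lab : V → Fin R) (σ : V → Bool) (b : Fin R)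
    (t : ℕ) (ht : |∑ v ∈ Vl lab b, sgz (σ v)| ≤ (t : ℤ)) (s : Bool) :
    (Vl lab b).card ≤ 2 * (cnt fun v => lab v = b ∧ σ v = s) + t := by
  have e1 : ∀ s', ((cnt fun v => lab v = b ∧ σ v = s' : ℕ) : ℤ) =
      ∑ v ∈ Vl lab b, (if σ v = s' then (1 : ℤ) else 0) := by
    intro s'
    rw [sum_boole]
    unfold cnt Vl
    rw [filter_filter]
    congr
  have e2 : ((Vl lab b).card : ℤ) = ∑ v ∈ Vl lab b, (1 : ℤ) := by simp
  have e3 : ((Vl lab b).card : ℤ) - 2 * ((cnt fun v => lab v = b ∧ σ v = s : ℕ) : ℤ) =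
      -(sgz s) * ∑ v ∈ Vl lab b, sgz (σ v) := by
    rw [e1, e2, mul_sum, mul_sum, ← sum_sub_distrib]
    refine sum_congr rfl fun v _ => ?_
    cases s <;> cases σ v <;> simp [sgz]
  have h4 := abs_le.1 ht
  have : ((Vl lab b).card : ℤ) ≤ 2 * ((cnt fun v => lab v = b ∧ σ v = s : ℕ) : ℤ) + t := by
    cases s <;> simp only [sgz] at e3 h4 <;> simp at e3 <;> simp only [sgz] at * <;> omega
  exact_mod_cast this

theorem fokP (hT : FtypP) : FokP := by
  intro R M δ hδ
  obtain ⟨K0, hK0⟩ := exists_nat_ge (8 * R / δ)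
  obtain ⟨U, hU⟩ := ev_pow (3 * R * (4 + M + R) + 2) (δ / 4) 6 (by norm_num) (by positivity)
  refine ⟨δ / (8 * (M + 1)), K0 + 1, by positivity, U + 1, ?_⟩
  intro u hu k hk V Lv _ _ m lab fl E σ lc l hm hfl hdeg hE hl hbal b hb s
  have hu1 : 1 ≤ u := by omega
  have hu1' : (1 : ℝ) ≤ u := by exact_mod_cast hu1
  have hk1 : 1 ≤ k := le_trans (Nat.one_le_pow _ _ hu1) hk.1
  have hk0 : (0 : ℝ) < k := by exact_mod_cast hk1
  have hdk : 0 < δ * k := mul_pos hδ hk0
  -- the class is large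
  obtain ⟨v0, hv0⟩ := nonempty_iff_ne_empty.2 hb
  have hv0' : lab v0 = b := by simpa [Vl] using hv0
  have hpos : 0 < cnt fun c => lab (m c v0) = fl (lab v0) := by
    have := lt_of_lt_of_le hdk (hdeg v0)
    exact_mod_cast this
  obtain ⟨c0, hc0⟩ := card_pos.1 hpos
  have hc0' : lab (m c0 v0) = fl b := by simpa [hv0'] using hc0
  have hbig : δ * k ≤ ((Vl lab b).card : ℝ) := by
    have h1 := hdeg (m c0 v0)
    rw [hc0', hfl] at h1
    exact h1.trans (Nat.cast_le.2 (nb_FFlev hm lab _ b))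
  have hside : ((Vl lab b).card : ℝ) ≤
      2 * (cnt fun v => lab v = b ∧ σ v = s : ℝ) + 4 * (u : ℝ) ^ 5 := by
    have := side_FFlev lab σ b (4 * u ^ 5) (hbal b) s
    exact_mod_cast this
  -- the ends of the colours of the level
  set B1 := (univ.filter fun c => lc c = l).biUnion E with hB1
  have hB1c : (B1.card : ℝ) ≤ δ * k / 8 := by
    have h1 : B1.card ≤ (cnt fun c => lc c = l) * M := by
      refine card_biUnion_le.trans ?_
      unfold cnt
      rw [← smul_eq_mul]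
      exact sum_le_card_nsmul _ _ _ fun c _ => hE c
    have h2 : (B1.card : ℝ) ≤ (cnt fun c => lc c = l : ℝ) * M := by exact_mod_cast h1
    have hM : (0 : ℝ) ≤ M := Nat.cast_nonneg _
    have h3 : (cnt fun c => lc c = l : ℝ) * M ≤ δ / (8 * (M + 1)) * k * (M + 1) :=
      mul_le_mul hl (by linarith) hM (by positivity)
    have h4 : δ / (8 * (M + 1)) * k * (M + 1) = δ * k / 8 := by field_simp
    linarith
  -- the atypical vertices
  have hB2c : (cnt fun v => lab v = b ∧ ¬ Tpc m lab (K0 + 1) v : ℝ) ≤ δ * k / 8 := by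
    have h1 : (cnt fun v => lab v = b ∧ ¬ Tpc m lab (K0 + 1) v : ℝ) * (K0 + 1) ≤ R * k := by
      exact_mod_cast hT k R (K0 + 1) V m lab b
    rw [div_le_iff₀ hδ] at hK0
    have hK : (0 : ℝ) < K0 + 1 := by positivity
    refine le_of_mul_le_mul_right (h1.trans ?_) hK
    nlinarith
  have hsub : (cnt fun v => lab v = b ∧ σ v = s) ≤
      (cnt fun v => (Tpc m lab (K0 + 1) v ∧ ∀ c, lc c = l → v ∉ E c) ∧ lab v = b ∧ σ v = s) +
        (B1.card + cnt fun v => lab v = b ∧ ¬ Tpc m lab (K0 + 1) v) := by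
    unfold cnt
    refine le_trans (card_le_card ?_) ((card_union_le _ _).trans
      (Nat.add_le_add_left (card_union_le _ _) _))
    intro v hv
    simp only [mem_filter, mem_univ, true_and, mem_union, hB1, mem_biUnion] at hv ⊢
    by_cases h1 : Tpc m lab (K0 + 1) v
    · by_cases h2 : ∀ c, lc c = l → v ∉ E c
      · exact Or.inl ⟨⟨h1, h2⟩, hv⟩
      · push Not at h2
        exact Or.inr (Or.inl h2)
    · exact Or.inr (Or.inr ⟨hv.1, h1⟩)
  have hsub' : (cnt fun v => lab v = b ∧ σ v = s : ℝ) ≤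
      (cnt fun v => (Tpc m lab (K0 + 1) v ∧ ∀ c, lc c = l → v ∉ E c) ∧ lab v = b ∧ σ v = s : ℝ) +
        (B1.card + (cnt fun v => lab v = b ∧ ¬ Tpc m lab (K0 + 1) v : ℝ)) := by
    exact_mod_cast hsub
  have hev := hU u (by omega) k hk
  have h5 : (1 : ℝ) ≤ (u : ℝ) ^ 5 := one_le_pow₀ hu1'
  have hM : (0 : ℝ) ≤ M := Nat.cast_nonneg _
  have hR : (0 : ℝ) ≤ R := Nat.cast_nonneg _
  have h6 : ((u : ℝ) + 2) * R * (4 * (u : ℝ) ^ 5 + M + R) ≤
      3 * u * R * ((4 + M + R) * (u : ℝ) ^ 5) := by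
    refine mul_le_mul (mul_le_mul_of_nonneg_right (by linarith) hR) ?_ (by positivity)
      (by positivity)
    nlinarith
  have h7 : (u : ℝ) ^ 5 ≤ (u : ℝ) ^ 6 := pow_le_pow_right₀ hu1' (by norm_num)
  have h8 : 3 * u * R * ((4 + M + R) * (u : ℝ) ^ 5) = 3 * R * (4 + M + R) * (u : ℝ) ^ 6 := by ring
  have : (((u + 2) * R * (4 * u ^ 5 + M + R) : ℕ) : ℝ) ≤
      (cnt fun v => (Tpc m lab (K0 + 1) v ∧ ∀ c, lc c = l → v ∉ E c) ∧ lab v = b ∧ σ v = s : ℝ) := by
    push_cast
    nlinarith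
  exact_mod_cast this

end Pool.Agent.MP_d20a68_co.T

end

section

/-! The other darts at the heavy vertices are placed with exact degrees. -/

set_option autoImplicit false
set_option linter.unusedSectionVars false
set_option linter.unusedVariables false
open Finset
open scoped Classical

namespace Pool.Agent.MP_d20a68_co.T

open Pool.Agent.MP_d20a68_co.Poly

theorem cnt_not_FMed {α : Type} [Fintype α] (P : α → Prop) :
    cnt P + cnt (fun a => ¬ P a) = Fintype.card α := by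
  unfold cnt
  rw [← card_univ]
  convert card_filter_add_card_filter_not (s := (univ : Finset α)) P

theorem cnt_mono_FMed {α : Type} [Fintype α] {P Q : α → Prop} (h : ∀ a, P a → Q a) :
    cnt P ≤ cnt Q := by
  unfold cnt
  refine card_le_card fun a ha => ?_
  simp only [mem_filter, mem_univ, true_and] at ha ⊢
  exact h a ha

theorem cnt_or_FMed {α : Type} [Fintype α] {P Q S : α → Prop} (h : ∀ a, P a → Q a ∨ S a) :
    cnt P ≤ cnt Q + cnt S := by
  unfold cnt
  refine le_trans (card_le_card fun a ha => ?_) (card_union_le _ _)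
  simp only [mem_filter, mem_univ, true_and, mem_union] at ha ⊢
  exact h a ha

theorem cnt_sum_FMed {α : Type} [Fintype α] (P : α → Prop) :
    cnt P = ∑ a, if P a then 1 else 0 := by
  unfold cnt
  rw [card_filter]

theorem cnt_fib_FMed {α β : Type} [Fintype α] (s : Finset β) (f : α → β) (P : α → Prop) :
    ∑ b ∈ s, cnt (fun a => f a = b ∧ P a) = cnt (fun a => f a ∈ s ∧ P a) := by
  simp only [cnt_sum_FMed]
  rw [sum_comm]
  refine sum_congr rfl fun a _ => ?_
  by_cases hp : P a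
  · simp [hp]
  · simp [hp]

theorem sp_FMed {k : ℕ} {V : Type} [Fintype V] {m : Fin k → V → V} {Sp : Fin k → V → Prop}
    {vc : Fin k → V → Fin k} {E : Fin k → Finset V} {e : Fin k → V → V}
    (H : Vir m Sp vc E e) (w : V) : cnt (fun c => ¬ Sp c w) = cnt fun a => w ∉ E a := by
  have h1 := cnt_not_FMed (fun c => Sp c w)
  have h2 := cnt_not_FMed (fun a => w ∈ E a)
  have h3 : cnt (fun c => Sp c w) = cnt fun a => w ∈ E a := by
    unfold cnt
    refine card_bij (fun c _ => vc c w) ?_ ?_ ?_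
    · intro c hc
      simp only [mem_filter, mem_univ, true_and] at hc ⊢
      exact (H.mem _ _).2 ⟨c, hc, rfl⟩
    · intro c hc c' hc' h
      simp only [mem_filter, mem_univ, true_and] at hc hc'
      exact H.mat c c' w hc hc' h
    · intro a ha
      simp only [mem_filter, mem_univ, true_and] at ha
      obtain ⟨c, hc, rfl⟩ := (H.mem _ _).1 ha
      exact ⟨c, by simp only [mem_filter, mem_univ, true_and]; exact hc, rfl⟩
  omega

theorem heavy_FMed {k : ℕ} {V : Type} [Fintype V] {m : Fin k → V → V} (hm : Fac m)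
    (Lt : Finset V) (w : V) : cnt (fun c => m c w ∉ Lt) ≤ cnt fun v => v ∉ Lt := by
  unfold cnt
  refine card_le_card_of_injOn (fun c => m c w) ?_ ?_
  · intro c hc
    simp only [coe_filter, mem_univ, true_and, Set.mem_ofPred_eq] at hc ⊢
    exact hc
  · intro c _ c' _ h
    exact hm.inj c c' w h

theorem medP (hH : HallP) (h1 : HoneP) (hW : MedWP) : MedP := by
  intro R δ hδ
  have hR : (0 : ℝ) < (R : ℝ) + 6 := by positivity
  refine ⟨δ / (16 * (R + 6)), by positivity, fun B => ?_⟩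
  obtain ⟨U, hU⟩ := ev_pow B (δ / 8) 0 (by norm_num) (by positivity)
  refine ⟨U + 1, fun u hu k hk V Lv _ _ m lab fl poor r vc E e Lt z h σ y lc ntl ν η κ' t hν hκ' hm
    hpin hδk hB hV hL => ?_⟩
  set κ : ℝ := δ / (16 * (R + 6)) with hκ
  have hκ0 : 0 < κ := by positivity
  have hκδ : 16 * (R + 6) * κ = δ := by rw [hκ]; field_simp
  have hBk : (B : ℝ) ≤ δ / 8 * k := by simpa using hU u (by omega) k hk
  have hk0 : (0 : ℝ) < k := by
    have : 1 ≤ u ^ 8 := Nat.one_le_pow _ _ (by omega)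
    exact_mod_cast lt_of_lt_of_le (lt_of_lt_of_le Nat.one_pos this) hk.1
  have hsm : (small z h).Nonempty := card_pos.1 (by rw [hL.card]; omega)
  have heq : Eq3 m lab poor z h σ κ := hL.eq3.mono hν
  have hy : ∀ l, (cnt fun c => lc c = l : ℝ) ≤ κ * k := fun l => by
    have := hL.yhi l
    rw [hL.ycard l] at this
    exact this.trans (mul_le_mul_of_nonneg_right hκ' hk0.le)
  have hw1 : ∀ w, ∀ x ∈ Lt, ∀ v, v ≠ x → |cor E z h σ lc w x v| ≤ κ * k := fun w x hx v hv =>
    (hL.w1 w x hx v hv).trans (mul_le_mul_of_nonneg_right hν hk0.le)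
  have hne : Nonempty Lv := ⟨z⟩
  have key : ∀ w, w ∉ Lt → ∃ f : Fin k → Lv,
      (∀ c, ¬ SpW m lab poor Lt c w → σ (f c) w ≠ σ (f c) (m c w)) ∧
      ∀ l, (cnt fun c => ¬ SpW m lab poor Lt c w ∧ f c = l) = cnt fun c => lc c = l ∧ w ∉ E c := by
    intro w hw
    have hD : (univ.filter fun c => ¬ SpW m lab poor Lt c w).card = cnt fun a => w ∉ E a := by
      rw [← sp_FMed hV w]
      unfold cnt
      congr
    have hlt : ∀ c, ¬ SpW m lab poor Lt c w → m c w ∈ Lt := fun c hc => by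
      by_contra hh
      exact hc (Or.inr ⟨hw, hh⟩)
    have hnp : (cnt fun c => ¬ poor (lab w) (lab (m c w)) : ℝ) ≤ (cnt fun a => w ∉ E a : ℝ) + B := by
      have a1 : cnt (fun c => ¬ poor (lab w) (lab (m c w))) ≤
          cnt (fun c => ¬ SpW m lab poor Lt c w) + cnt fun c => m c w ∉ Lt :=
        cnt_or_FMed fun c hc => by
          by_cases hh : m c w ∈ Lt
          · exact Or.inl fun hs => hs.elim hc fun h2 => h2.2 hh
          · exact Or.inr hh
      have a2 := heavy_FMed hm Lt w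
      rw [sp_FMed hV w] at a1
      exact_mod_cast (show cnt (fun c => ¬ poor (lab w) (lab (m c w))) ≤
        cnt (fun a => w ∉ E a) + B by omega)
    have hbig : δ * k ≤ (cnt fun a => w ∉ E a : ℝ) + B := by
      refine (hδk w).trans (le_trans ?_ hnp)
      exact_mod_cast cnt_mono_FMed fun c hc => by rw [hc]; exact hpin _
    have hκk : 0 < κ * k := by positivity
    have hδk' : δ * k = 16 * (R + 6) * (κ * k) := by rw [← hκδ]; ring
    have hRk : 0 ≤ (R : ℝ) * (κ * k) := by positivity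
    obtain ⟨f, hf1, hf2⟩ := hH (Fin k) Lv (univ.filter fun c => ¬ SpW m lab poor Lt c w)
      (fun c l => σ l w ≠ σ l (m c w)) (fun l => cnt fun c => lc c = l ∧ w ∉ E c)
      (((cnt fun c => w ∉ E c : ℝ) + 3 * κ * k) / 4 + 2 * κ * k)
      (((cnt fun c => w ∉ E c : ℝ) + B + R * (κ * k)) / 2)
      (by
        rw [hD, cnt_fib_FMed univ lc fun c => w ∉ E c]
        simp only [mem_univ, true_and])
      (by
        intro c hc
        have hc' := (mem_filter.1 hc).2
        have a1 := (hW k V Lv E z h σ lc w (m c w) w κ κ hy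
          (hw1 _ _ (hlt c hc') w (hm.ne c w).symm)).1
        rw [hD]
        have a2 : ((∑ l ∈ univ.filter (fun l => σ l w = σ l (m c w)),
            cnt fun c => lc c = l ∧ w ∉ E c : ℕ) : ℝ) < (cnt fun a => w ∉ E a : ℝ) := by
          refine lt_of_le_of_lt a1 ?_
          nlinarith
        have a3 : (∑ l ∈ univ.filter (fun l => σ l w = σ l (m c w)),
            cnt fun c => lc c = l ∧ w ∉ E c) < cnt fun a => w ∉ E a := by exact_mod_cast a2
        convert a3 using 3
        simp only [not_not])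
      (by
        intro c hc c' hc' hne
        have g1 := (mem_filter.1 hc).2
        have g2 := (mem_filter.1 hc').2
        have a1 := (hW k V Lv E z h σ lc w (m c w) (m c' w) κ κ hy
          (hw1 _ _ (hlt c g1) w (hm.ne c w).symm)).2 (hw1 _ _ (hlt c' g2) w (hm.ne c' w).symm)
          (hw1 _ _ (hlt c g1) _ fun hh => hne (hm.inj _ _ _ hh).symm)
        convert a1 using 4
        simp only [not_not])
      (by
        intro l
        have a1 : (cnt fun c => c ∈ (univ.filter fun c => ¬ SpW m lab poor Lt c w) ∧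
            ¬ σ l w ≠ σ l (m c w)) ≤ ∑ b ∈ univ.filter (fun b => ¬ poor (lab w) b),
              cnt fun c => lab (m c w) = b ∧ σ l (m c w) = σ l w := by
          rw [cnt_fib_FMed _ (fun c => lab (m c w)) fun c => σ l (m c w) = σ l w]
          refine cnt_mono_FMed fun c hc => ⟨?_, (not_not.1 hc.2).symm⟩
          simp only [mem_filter, mem_univ, true_and] at hc ⊢
          exact fun hp => hc.1 (Or.inl hp)
        have a2 : ∑ b ∈ univ.filter (fun b => ¬ poor (lab w) b),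
            cnt (fun c => lab (m c w) = b ∧ True) = cnt fun c => ¬ poor (lab w) (lab (m c w)) := by
          rw [cnt_fib_FMed _ (fun c => lab (m c w)) fun c => True]
          simp only [mem_filter, mem_univ, true_and, and_true]
        simp only [and_true] at a2
        have a3 : ∑ b ∈ univ.filter (fun b => ¬ poor (lab w) b),
            (cnt fun c => lab (m c w) = b ∧ σ l (m c w) = σ l w : ℝ) ≤
            ∑ b ∈ univ.filter (fun b => ¬ poor (lab w) b),
              ((cnt fun c => lab (m c w) = b : ℝ) + κ * k) / 2 := sum_le_sum fun b _ => by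
          have := (abs_le.1 (h1 k R V Lv m lab poor z h σ κ hm hsm heq l w b (σ l w))).2
          linarith
        rw [← sum_div, sum_add_distrib, sum_const, nsmul_eq_mul, ← Nat.cast_sum, ← Nat.cast_sum,
          a2] at a3
        have a4 : ((univ.filter fun b => ¬ poor (lab w) b).card : ℝ) ≤ R := by
          exact_mod_cast (card_le_univ _).trans (by simp)
        have a5 := mul_le_mul_of_nonneg_right a4 hκk.le
        have a6 : ((cnt fun c => c ∈ (univ.filter fun c => ¬ SpW m lab poor Lt c w) ∧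
            ¬ σ l w ≠ σ l (m c w) : ℕ) : ℝ) ≤ _ := Nat.cast_le.2 a1
        linarith)
      (by
        rw [hD]
        nlinarith)
    refine ⟨f, fun c hc => hf1 c (mem_filter.2 ⟨mem_univ _, hc⟩), fun l => ?_⟩
    rw [← hf2 l]
    simp only [mem_filter, mem_univ, true_and]
  choose! hl hhl using key
  exact ⟨hl, fun w hw => hhl w hw⟩

end Pool.Agent.MP_d20a68_co.T

end

section

/-! The probabilities of the rounding. -/

set_option autoImplicit false
set_option linter.unusedSectionVars false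
set_option linter.unusedVariables false
open Finset
open scoped Classical

namespace Pool.Agent.MP_d20a68_co.T

open Pool.Agent.MP_d20a68_co.Poly

lemma pos_SProb {a : ℝ} {P : Prop} (h : a * ind P ≠ 0) : P := by
  by_contra hP
  exact h (by rw [indS_neg hP, mul_zero])

lemma bd_SProb {a b : ℝ} (P : Prop) (h0 : 0 ≤ a) (h1 : a ≤ b) : 0 ≤ a * ind P ∧ a * ind P ≤ b :=
  ⟨mul_nonneg h0 (indS_nonneg P), (mul_le_of_le_one_right h0 (indS_le_one P)).trans h1⟩

lemma split_SProb {Lv : Type} [Fintype Lv] {z h : Lv} (hz : z ≠ h) (f : Lv → ℝ) :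
    ∑ l, f l = f z + f h + ∑ l ∈ small z h, f l := by
  have h2 : small z h = (univ.erase z).erase h := by
    ext l; simp [small, and_comm]
  rw [h2, ← add_sum_erase univ _ (mem_univ z),
    ← add_sum_erase (univ.erase z) _ (mem_erase.2 ⟨hz.symm, mem_univ h⟩), add_assoc]

variable {V Lv : Type} [Fintype V] [Fintype Lv] {k R : ℕ} {D : Dat V Lv k R} {C : ℕ} {φ η ν : ℝ}
  {u B S Lp : ℕ}

lemma kap_SProb (H : D.Hyp C φ η ν u B S Lp) (c : Fin k) (v : V) :
    63 / 64 ≤ D.kap (η / 4) c v ∧ D.kap (η / 4) c v ≤ 1 := by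
  have h1 := H.eta_le
  have h2 := H.η0
  unfold Dat.kap
  split_ifs <;> constructor <;> linarith

lemma yk_SProb (H : D.Hyp C φ η ν u B S Lp) (l : Lv) :
    0 ≤ (D.y l : ℝ) / k ∧ (D.y l : ℝ) / k ≤ 1 / 16 := by
  have h1 := H.yhi l
  refine ⟨by positivity, ?_⟩
  rw [div_le_iff₀ H.kpos]
  linarith

lemma xh_SProb (H : D.Hyp C φ η ν u B S Lp) (c : Fin k) (v : V) :
    0 ≤ D.xh (η / 4) c v ∧ D.xh (η / 4) c v ≤ 1 / 8 := by
  obtain ⟨h1, h2⟩ := kap_SProb H c v
  obtain ⟨h3, h4⟩ := yk_SProb H D.h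
  unfold Dat.xh
  rw [mul_div_assoc]
  exact bd_SProb _ (by positivity) (by nlinarith)

lemma xz_SProb (H : D.Hyp C φ η ν u B S Lp) (c : Fin k) (v : V) :
    0 ≤ D.xz (η / 4) c v ∧ D.xz (η / 4) c v ≤ 5 / 32 := by
  obtain ⟨h1, h2⟩ := kap_SProb H c v
  obtain ⟨h3, h4⟩ := yk_SProb H D.z
  unfold Dat.xz
  rw [mul_div_assoc, sub_div, div_self H.kpos.ne']
  exact bd_SProb _ (by nlinarith) (by nlinarith)

lemma xt_SProb (H : D.Hyp C φ η ν u B S Lp) (c : Fin k) (v : V) (l : Lv) :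
    0 ≤ D.xt (η / 4) c v l ∧ D.xt (η / 4) c v l ≤ 8 * (η / 4) * D.y l / k := by
  have h1 := H.η0
  exact bd_SProb _ (by positivity) le_rfl

lemma sum_SProb (H : D.Hyp C φ η ν u B S Lp) (c : Fin k) (v : V) :
    ∑ l, D.xt (η / 4) c v l ≤ D.xz (η / 4) c v := by
  by_cases h : D.Ins c v ∧ D.Cut D.z c v
  · refine (sum_le_sum fun l _ => (xt_SProb H c v l).2).trans ?_
    have h1 : (∑ l, (D.y l : ℝ)) = k := by exact_mod_cast H.pre.sumy
    have h2 : η ≤ (D.y D.z : ℝ) / k := (le_div_iff₀ H.kpos).2 H.pre.yz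
    have h3 := H.eta_le
    have h4 := H.η0
    rw [← sum_div, ← mul_sum, h1, mul_div_assoc, div_self H.kpos.ne', Dat.xz, Dat.kap, if_pos h.1,
      indS_pos h.2, mul_div_assoc, sub_div, div_self H.kpos.ne']
    nlinarith
  · rw [sum_eq_zero fun l _ => by rw [Dat.xt, indS_neg fun h' => h ⟨h'.1, h'.2.1⟩, mul_zero]]
    exact (xz_SProb H c v).1

lemma ye_SProb (H : D.Hyp C φ η ν u B S Lp) {c : Fin k} {v : V} (h : ¬ D.Fx c v) :
    |((k : ℝ) - D.y D.z - D.y D.h) - 2 * D.Ye c v| ≤ ν * k := by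
  refine le_of_eq_of_le ?_ (H.pre.w1 v (H.lt_of_mv h) _ (H.fac.ne c v))
  rw [← H.sum_small, Dat.Ye, mul_sum, ← sum_sub_distrib]
  refine congrArg _ (sum_congr rfl fun l _ => ?_)
  unfold Dat.Cut ind sg
  cases D.σ l v <;> cases D.σ l (D.m c v) <;> simp <;> ring

lemma ye2_SProb (H : D.Hyp C φ η ν u B S Lp) {c : Fin k} {v : V} (h : ¬ D.Fx c v) :
    7 / 8 * (k : ℝ) ≤ k - D.y D.z - D.y D.h ∧ 2 / 5 * (k : ℝ) ≤ D.Ye c v := by
  have h1 := (abs_le.1 (ye_SProb H h)).2
  have h2 := H.yhi D.z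
  have h3 := H.yhi D.h
  have h4 := mul_le_mul_of_nonneg_right H.ν1 H.kpos.le
  have h5 := H.kpos
  constructor <;> linarith

lemma app_SProb {A y i E T ν k : ℝ} (hA : 0 ≤ A) (hA' : A ≤ 1) (hy : 0 ≤ y) (hi : 0 ≤ i)
    (hi' : i ≤ 1) (hk : 0 < k) (hT : 7 / 8 * k ≤ T) (hE : 2 / 5 * k ≤ E)
    (h : |T - 2 * E| ≤ ν * k) : |A * (y * i) / E - A * (2 * y / T) * i| ≤ 4 * ν * y / k := by
  have h1 : 0 < E := by linarith
  have h2 : 0 < T := by linarith
  have h3 : 0 ≤ ν * k := (abs_nonneg _).trans h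
  have e : A * (y * i) / E - A * (2 * y / T) * i = A * i * y * (T - 2 * E) / (E * T) := by
    field_simp
  have h4 : 2 / 5 * k * (7 / 8 * k) ≤ E * T := mul_le_mul hE hT (by positivity) h1.le
  have h5 : A * i * y * |T - 2 * E| ≤ 1 * y * (ν * k) :=
    mul_le_mul (mul_le_mul_of_nonneg_right (mul_le_one₀ hA' hi hi') hy) h (abs_nonneg _)
      (by positivity)
  rw [e, abs_div, abs_mul, abs_of_nonneg (by positivity : 0 ≤ A * i * y),
    abs_of_pos (mul_pos h1 h2)]
  refine (div_le_div₀ (by positivity) h5 (by positivity) h4).trans ?_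
  have e2 : 1 * y * (ν * k) / (2 / 5 * k * (7 / 8 * k)) = 20 / 7 * (ν * k * y / k ^ 2) := by
    field_simp
    ring
  have e3 : 4 * ν * y / k = 4 * (ν * k * y / k ^ 2) := by field_simp
  have h6 : 0 ≤ ν * k * y / k ^ 2 := by positivity
  rw [e2, e3]
  linarith

theorem probS : ProbP := by
  intro V Lv _ _ k R D C φ η ν u B S Lp H
  have hs : ∀ l, l ≠ D.z → l ≠ D.h → l ∈ small D.z D.h := fun l h1 h2 =>
    mem_filter.2 ⟨mem_univ _, h1, h2⟩
  have hA : ∀ c v, 0 ≤ 1 - D.xz (η / 4) c v - D.xh (η / 4) c v ∧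
      1 - D.xz (η / 4) c v - D.xh (η / 4) c v ≤ 1 := fun c v => by
    have h1 := xh_SProb H c v
    have h2 := xz_SProb H c v
    constructor <;> linarith [h1.1, h1.2, h2.1, h2.2]
  have hk := H.kpos
  have hE : ∀ {c v}, ¬ D.Fx c v → 0 < D.Ye c v := fun h => by linarith [(ye2_SProb H h).2]
  have hF : ∀ {c v}, D.Fx c v → ∀ ω, D.prob (η / 4) c v ω = ind (ω = Sum.inl (D.l0 c v)) :=
    fun h ω => if_pos h
  have hF' : ∀ c v ω, 0 < D.prob (η / 4) c v ω → D.Fx c v → ω = Sum.inl (D.l0 c v) :=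
    fun c v ω h0 h => pos_SProb (a := 1) (by rw [one_mul, ← hF h]; exact h0.ne')
  refine ⟨fun c v => ?_, fun c v ω => ?_, fun c v => ?_, hF', fun c v l h0 => ?_,
    fun c v l h0 => ?_, fun c v h l hl => ?_⟩
  · funext ω
    by_cases h : D.Fx c v
    · rw [hF h, hF (H.pre.cl c v h), H.pre.sym c v h]
    · simp only [Dat.prob, Dat.xh, Dat.xz, Dat.xt, Dat.Ye, Dat.kap, H.fx_mate, H.ins_mate,
        H.cut_mate, if_neg h]
  · by_cases h : D.Fx c v
    · rw [hF h]
      exact indS_nonneg _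
    · rcases ω with l | l
      · by_cases h1 : l = D.h
        · rw [h1, D.prob_h _ h]
          exact (xh_SProb H c v).1
        · by_cases h2 : l = D.z
          · rw [h2, D.prob_z _ h H.pre.zh]
            exact sub_nonneg.2 (sum_SProb H c v)
          · rw [D.prob_small _ h (hs l h2 h1)]
            exact div_nonneg (mul_nonneg (hA c v).1 (mul_nonneg (Nat.cast_nonneg _)
              (indS_nonneg _))) (hE h).le
      · rw [D.prob_tag _ h]
        exact (xt_SProb H c v l).1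
  · by_cases h : D.Fx c v
    · simp [hF h, ind]
    · rw [Fintype.sum_sum_type, split_SProb H.pre.zh, D.prob_h _ h, D.prob_z _ h H.pre.zh,
        sum_congr rfl fun l hl => D.prob_small _ h hl, sum_congr rfl fun l _ => D.prob_tag _ h l,
        ← sum_div, ← mul_sum, ← Dat.Ye, mul_div_assoc, div_self (hE h).ne']
      ring
  · by_cases h : D.Fx c v
    · rw [Sum.inl.inj (hF' c v _ h0 h)]
      exact H.pre.cut c v h
    · by_cases h1 : l = D.h
      · rw [h1, D.prob_h _ h] at h0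
        exact h1 ▸ pos_SProb h0.ne'
      · by_cases h2 : l = D.z
        · rw [h2, D.prob_z _ h H.pre.zh] at h0
          have h3 : 0 ≤ ∑ l, D.xt (η / 4) c v l := sum_nonneg fun l _ => (xt_SProb H c v l).1
          have h4 : 0 < D.xz (η / 4) c v := by linarith
          exact h2 ▸ pos_SProb h4.ne'
        · rw [D.prob_small _ h (hs l h2 h1)] at h0
          exact pos_SProb (right_ne_zero_of_mul (div_ne_zero_iff.1 h0.ne').1)
  · have h : ¬ D.Fx c v := fun h => Sum.inr_ne_inl (hF' c v _ h0 h)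
    rw [D.prob_tag _ h] at h0
    have h1 := pos_SProb h0.ne'
    exact ⟨⟨h, h1.1⟩, h1.2⟩
  · rw [D.prob_small _ h hl]
    exact app_SProb (hA c v).1 (hA c v).2 (Nat.cast_nonneg _) (indS_nonneg _) (indS_le_one _) hk
      (ye2_SProb H h).1 (ye2_SProb H h).2 (ye_SProb H h)

end Pool.Agent.MP_d20a68_co.T

end

section

/-! Filling all levels. -/

set_option autoImplicit false
set_option linter.unusedSectionVars false
set_option linter.unusedVariables false
open Finset
open scoped Classical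

namespace Pool.Agent.MP_d20a68_co.T

open Pool.Agent.MP_d20a68_co.Poly

variable {V Lv : Type} [Fintype V] [Fintype Lv] {k R : ℕ} {D : Dat V Lv k R} {C : ℕ} {φ η ν : ℝ}
  {u B S Lp : ℕ}

lemma fx_SFinal (H : D.Hyp C φ η ν u B S Lp) (l : Lv) (U : Finset V)
    (h : ∀ v ∈ U, (cnt fun c => D.Fx c v : ℝ) ≤ ν * k) :
    (nd fun c v => D.Fx c v ∧ D.Sd l true false c v ∧ D.Xr U c v : ℝ) ≤ ν * k * U.card := by
  have h1 : (nd fun c v => D.Fx c v ∧ D.Sd l true false c v ∧ D.Xr U c v) ≤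
      nd fun c v => v ∈ U ∧ D.Fx c v := by
    have e1 : (nd fun c v => v ∈ U ∧ D.Fx c v) =
        (nd fun c v => (v ∈ U ∧ D.Fx c v) ∧ D.σ l v = true) +
          nd fun c v => (v ∈ U ∧ D.Fx c v) ∧ ¬ D.σ l v = true :=
      cntS_split _ fun e : Fin k × V => D.σ l e.2 = true
    rw [e1, ← ndS_mate H.fac fun c v => (v ∈ U ∧ D.Fx c v) ∧ ¬ D.σ l v = true]
    refine le_trans (cntS_mono fun e he => ?_) (cntS_or_le _ _)
    obtain ⟨a1, ⟨a2, a3⟩, a4⟩ := he
    by_cases hv : e.2 ∈ U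
    · exact Or.inl ⟨⟨hv, a1⟩, a2⟩
    · refine Or.inr ⟨⟨by_contra fun h' => hv (a4.2 h'), H.pre.cl _ _ a1⟩, ?_⟩
      rw [a3]
      exact Bool.false_ne_true
  have h2 : ((nd fun c v => v ∈ U ∧ D.Fx c v : ℕ) : ℝ) ≤ ν * k * U.card := by
    rw [ndS_sum_in D.Fx (· ∈ U), filter_univ_mem]
    push_cast
    refine (sum_le_card_nsmul U _ _ h).trans_eq ?_
    rw [nsmul_eq_mul, mul_comm]
  exact le_trans (by exact_mod_cast h1) h2

lemma cls_SFinal (H : D.Hyp C φ η ν u B S Lp) {l : Lv} {c : Fin k} {v : V} (h1 : D.Ins c v)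
    (h2 : D.Cut D.z c v) (h3 : D.Cut l c v) :
    cls2 D.lab D.fl (D.σ l) (D.σ D.z) (D.m c v) = cls2 D.lab D.fl (D.σ l) (D.σ D.z) v := by
  unfold Dat.Ins at h1
  unfold Dat.Cut at h2 h3
  unfold cls2
  rw [h1, H.typ.inv]
  revert h2 h3
  cases D.σ l v <;> cases D.σ l (D.m c v) <;> cases D.σ D.z v <;> cases D.σ D.z (D.m c v) <;> simp

lemma bal_SFinal {lab : V → Fin R} {fl : Fin R → Fin R} (hi : ∀ a, fl (fl a) = a)
    {τ τ₀ : V → Bool} {f : V → ℤ} (h0 : ∀ v, 0 ≤ f v) (h : ∀ a β, sgs2 lab fl τ τ₀ f a β = 0)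
    (κ : Fin R × Bool) :
    ∑ v ∈ univ.filter (fun v => cls2 lab fl τ τ₀ v = κ ∧ τ v = true), (f v).toNat =
      ∑ v ∈ univ.filter (fun v => cls2 lab fl τ τ₀ v = κ ∧ τ v = false), (f v).toNat := by
  obtain ⟨a, β⟩ := κ
  have h1 := sub_eq_zero.1 (h a β)
  refine Int.natCast_inj.1 ?_
  push_cast
  simp only [Int.toNat_of_nonneg (h0 _)]
  convert h1 using 2
  · ext v
    simp only [mem_filter, mem_univ, true_and, cls2]
    cases τ v <;> simp
  · ext v
    have h2 : fl (lab v) = a ↔ lab v = fl a :=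
      ⟨fun e => by rw [← e, hi], fun e => by rw [e, hi]⟩
    simp only [mem_filter, mem_univ, true_and, cls2]
    cases τ v <;> simp [h2]

theorem finalS (hF : FillP) (hD : DegP) : FinalP := by
  intro V Lv _ _ k R D C φ η ν u B S Lp H μ ν₁ a a' γ om lam r0 r5 hn hr h0 hb hx hμ hγ hν hν₁
  have hdeg := (hD V Lv k R D C φ η ν u B S Lp H).2.1
  have key : ∀ l, ∃ F : Fin k → V → Prop, (∀ c v, F c v → om c v = Sum.inr l ∧ F c (D.m c v)) ∧
      (l ≠ D.z → ∀ v, (cnt fun c => F c v) = (res D.y lam l v).toNat) := by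
    intro l
    by_cases hl : l = D.z
    · exact ⟨fun _ _ => False, fun _ _ h => h.elim, fun h => absurd hl h⟩
    have hy : (0 : ℝ) ≤ D.y l := Nat.cast_nonneg _
    obtain ⟨F, f1, f2⟩ := hF V (Fin R × Bool) k D.m (fun c v => om c v = Sum.inr l) (D.σ l)
      (cls2 D.lab D.fl (D.σ l) (D.σ D.z)) D.Lt (fun v => (res D.y lam l v).toNat)
      (4 * μ * γ * D.y l) H.fac (by positivity)
      (fun c v h => by
        obtain ⟨t1, t2, t3, -⟩ := r0.tag c v l h
        exact ⟨(r0.sym c v).trans h, t3, cls_SFinal H t1.2 t2 t3, H.lt_of_mv t1.1⟩)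
      (fun v hv => by rw [hr.out v hv l]; rfl)
      (fun κ => by convert bal_SFinal H.typ.inv (fun v => h0 v l hl) (hb l hl) κ)
      (fun v hv => by
        have e : (((res D.y lam l v).toNat : ℕ) : ℝ) = (res D.y lam l v : ℝ) := by
          rw [← Int.cast_natCast, Int.toNat_of_nonneg (h0 v l hl)]
        rw [e]
        exact hr.app v hv l hl)
      (fun κ U hU hc => by
        have a1 := hx l hl κ U (fun v hv => (hU v hv).2) (hc.trans (cntS_mono fun v h => h.2))
        have a2 := fx_SFinal H l U fun v hv => hdeg v (hU v hv).1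
        have a3 : (nd fun c v => D.Ins c v ∧ D.Cut D.z c v ∧ D.Sd l true false c v ∧ D.Xr U c v) ≤
            (nd fun c v => D.MI c v ∧ D.Cut D.z c v ∧ D.Sd l true false c v ∧ D.Xr U c v) +
              nd fun c v => D.Fx c v ∧ D.Sd l true false c v ∧ D.Xr U c v := by
          refine le_trans (cntS_mono fun e he => ?_) (cntS_or_le _ _)
          by_cases hf : D.Fx e.1 e.2
          · exact Or.inr ⟨hf, he.2.2⟩
          · exact Or.inl ⟨⟨hf, he.1⟩, he.2⟩
        have a4 := r5.ex l hl U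
        have a5 := (Nat.cast_le (α := ℝ)).2 a3
        rw [Nat.cast_add] at a5
        have hk := H.kpos
        have hU0 : (0 : ℝ) ≤ U.card := Nat.cast_nonneg _
        refine le_trans ?_ a4
        generalize ((nd fun c v => D.MI c v ∧ D.Cut D.z c v ∧ D.Sd l true false c v ∧
          D.Xr U c v : ℕ) : ℝ) = M at a5 ⊢
        have a6 : 3 / 4 * γ * k * U.card ≤ M := by
          have : 0 ≤ (γ - 4 * ν) * (k * U.card) := mul_nonneg (by linarith) (by positivity)
          linarith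
        have a7 : 8 * μ * D.y l / k * (3 / 4 * γ * k * U.card) ≤ 8 * μ * D.y l / k * M :=
          mul_le_mul_of_nonneg_left a6 (by positivity)
        have a8 : 8 * μ * D.y l / k * (3 / 4 * γ * k * U.card) = 6 * μ * γ * D.y l * U.card := by
          field_simp
          ring
        have a9 : 0 ≤ (2 * μ * γ - ν₁) * (D.y l * U.card) :=
          mul_nonneg (by linarith) (by positivity)
        linarith)
    exact ⟨F, f1, fun _ => f2⟩
  choose F f1 f2 using key
  obtain ⟨lam2, hA, hB⟩ : ∃ lam2 : Fin k → V → Lv, (∀ c v l, F l c v → lam2 c v = l) ∧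
      ∀ c v, (¬ ∃ l, F l c v) → lam2 c v = lam c v := by
    refine ⟨fun c v => if h : ∃ l, F l c v then h.choose else lam c v, fun c v l h => ?_,
      fun c v h => dif_neg h⟩
    have h1 : ∃ l, F l c v := ⟨l, h⟩
    refine (dif_pos h1).trans ?_
    exact Sum.inr_injective ((f1 _ c v h1.choose_spec).1.symm.trans (f1 l c v h).1)
  have hsym : ∀ c v, lam2 c (D.m c v) = lam2 c v := fun c v => by
    by_cases h : ∃ l, F l c v
    · obtain ⟨l, h⟩ := h
      rw [hA c v l h, hA c _ l (f1 l c v h).2]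
    · rw [hB c v h, hB c _ fun ⟨l, h'⟩ => h ⟨l, by
        have := (f1 l c _ h').2
        rwa [H.fac.inv] at this⟩, hn.val.1]
  have hc : ∀ l, l ≠ D.z → ∀ v, (cnt fun c => lam2 c v = l) = D.y l := fun l hl v => by
    have e : ∀ c, lam2 c v = l ↔ lam c v = l ∨ F l c v := fun c => by
      by_cases h : ∃ l, F l c v
      · obtain ⟨l', h⟩ := h
        rw [hA c v l' h, hn.tag c v l' (f1 l' c v h).1]
        refine ⟨fun e => Or.inr (e ▸ h), fun e => ?_⟩
        rcases e with e | e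
        · exact absurd e.symm hl
        · exact (hA c v l' h).symm.trans (hA c v l e)
      · rw [hB c v h]
        exact ⟨Or.inl, fun e => e.resolve_right fun e' => h ⟨l, e'⟩⟩
    rw [cntS_congr e, cntS_or fun c h h' => hl (h.symm.trans (hn.tag c v l (f1 l c v h').1)),
      f2 l hl v]
    have := h0 v l hl
    unfold res at this ⊢
    omega
  refine ⟨lam2, hsym, fun c v => ?_, fun l v => ?_⟩
  · by_cases h : ∃ l, F l c v
    · obtain ⟨l, h⟩ := h
      rw [hA c v l h]
      exact (r0.tag c v l (f1 l c v h).1).2.2.1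
    · rw [hB c v h]
      exact hn.val.2 c v
  · by_cases hl : l = D.z
    · have e1 := cntS_fiber (fun _ : Fin k => True) fun c => lam2 c v
      simp only [true_and] at e1
      rw [cntS_true, Fintype.card_fin, ← add_sum_erase univ _ (mem_univ D.z),
        sum_congr rfl fun l hl => hc l (mem_erase.1 hl).1 v] at e1
      have e2 := H.pre.sumy
      rw [← add_sum_erase univ _ (mem_univ D.z)] at e2
      rw [hl]
      exact Nat.add_right_cancel (e1.symm.trans e2.symm)
    · exact hc l hl v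

end Pool.Agent.MP_d20a68_co.T

end
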