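import Pool.Agent.Mg.Xd20a68.Ge7e6f2
import Pool.Agent.Mg.Xd20a68.G7633c2

section

/-! Exchanging two virtual colours on a closed set. -/

set_option autoImplicit false
open Finset
open scoped Classical

namespace Pool.Agent.MP_d20a68_co.T

open Pool.Agent.MP_d20a68_co.Poly

theorem mem_FVir1 {V : Type} [Fintype V] {R : ℕ} {lab : V → Fin R} {fl : Fin R → Fin R}
    {r : Fin R → Fin R → Prop} {E K : Finset V} {e : V → V} (H : Mat lab fl r E e)
    (hK : ∀ v ∈ K, v ∈ E → e v ∈ K) {v : V} (hv : v ∈ E) : e v ∈ K ↔ v ∈ K :=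
  ⟨fun h => by simpa only [H.inv v hv] using hK _ h (H.cl v hv), fun h => hK v h hv⟩

theorem cnt_FVir1 {V : Type} [Fintype V] (P : V → Prop) :
    cnt P = ∑ v, if P v then 1 else 0 := by
  rw [cnt, card_filter]

theorem mix_FVir1 {V : Type} [Fintype V] {R : ℕ} {lab : V → Fin R} {fl : Fin R → Fin R}
    {r : Fin R → Fin R → Prop} {E₁ E₂ K : Finset V} {e₁ e₂ : V → V} (H₁ : Mat lab fl r E₁ e₁)
    (H₂ : Mat lab fl r E₂ e₂) (h₁ : ∀ v ∈ K, v ∈ E₁ → e₁ v ∈ K) (h₂ : ∀ v ∈ K, v ∈ E₂ → e₂ v ∈ K)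
    (hd : ∀ x, ∑ v ∈ E₁ ∩ K, dl r fl x (lab v) = ∑ v ∈ E₂ ∩ K, dl r fl x (lab v))
    (hp : ∀ x, Even ((cnt fun v => v ∈ E₁ ∩ K ∧ orb r fl x (lab v)) +
      cnt fun v => v ∈ E₂ ∩ K ∧ orb r fl x (lab v))) :
    Mat lab fl r ((E₁ \ K) ∪ (E₂ ∩ K)) fun v => if v ∈ K then e₂ v else e₁ v := by
  refine ⟨fun v hv => ?_, fun v hv => ?_, fun v hv => ?_, fun x => ?_, fun x => ?_⟩
  · simp only [mem_union, mem_sdiff, mem_inter] at hv ⊢
    rcases hv with ⟨h, h'⟩ | ⟨h, h'⟩
    · rw [if_neg h']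
      exact Or.inl ⟨H₁.cl v h, fun h3 => h' ((mem_FVir1 H₁ h₁ h).1 h3)⟩
    · rw [if_pos h']
      exact Or.inr ⟨H₂.cl v h, h₂ v h' h⟩
  · simp only [mem_union, mem_sdiff, mem_inter] at hv ⊢
    rcases hv with ⟨h, h'⟩ | ⟨h, h'⟩
    · rw [if_neg h']
      exact H₁.ne v h
    · rw [if_pos h']
      exact H₂.ne v h
  · simp only [mem_union, mem_sdiff, mem_inter] at hv ⊢
    rcases hv with ⟨h, h'⟩ | ⟨h, h'⟩
    · rw [if_neg h', if_neg fun h3 => h' ((mem_FVir1 H₁ h₁ h).1 h3)]
      exact H₁.inv v h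
    · rw [if_pos h', if_pos (h₂ v h' h)]
      exact H₂.inv v h
  · rw [sum_union (disjoint_left.2 fun v h h' => (mem_sdiff.1 h).2 (mem_inter.1 h').2), ← hd x,
      ← H₁.dif x, add_comm, sum_inter_add_sum_sdiff]
  · have e : (cnt fun v => v ∉ (E₁ \ K) ∪ (E₂ ∩ K) ∧ orb r fl x (lab v)) +
        (cnt fun v => v ∈ E₂ ∩ K ∧ orb r fl x (lab v)) =
        (cnt fun v => v ∉ E₁ ∧ orb r fl x (lab v)) +
        cnt fun v => v ∈ E₁ ∩ K ∧ orb r fl x (lab v) := by
      simp only [cnt_FVir1, ← sum_add_distrib]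
      refine sum_congr rfl fun v _ => ?_
      by_cases a1 : v ∈ E₁ <;> by_cases a2 : v ∈ E₂ <;> by_cases a3 : v ∈ K <;>
        simp [a1, a2, a3]
    obtain ⟨s, hs⟩ := hp x
    obtain ⟨t, ht⟩ := H₁.par x
    rw [Nat.even_iff]
    omega

theorem vir1P : Vir1P := by
  intro k R V _ m lab fl r Sp vc E e a b K _ _ HV HM hab ha hb hd hp
  let π : V → Fin k → Fin k := fun v c => if v ∈ K then Equiv.swap a b c else c
  have hπ : ∀ v c, π v (π v c) = c := fun v c => by
    simp only [π]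
    split_ifs <;> simp
  have key : ∀ c, ∀ v ∈ E c, π (e c v) c = π v c := fun c v hv => by
    by_cases h1 : c = a
    · subst h1
      simp only [π, mem_FVir1 (HM c) ha hv]
    by_cases h2 : c = b
    · subst h2
      simp only [π, mem_FVir1 (HM c) hb hv]
    simp only [π, Equiv.swap_apply_of_ne_of_ne h1 h2, ite_self]
  have hEa : (univ.filter fun v => v ∈ E (π v a)) = (E a \ K) ∪ (E b ∩ K) := by
    ext v
    by_cases h : v ∈ K <;> simp [π, h]
  have hEb : (univ.filter fun v => v ∈ E (π v b)) = (E b \ K) ∪ (E a ∩ K) := by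
    ext v
    by_cases h : v ∈ K <;> simp [π, h]
  have hEc : ∀ c, c ≠ a → c ≠ b → (univ.filter fun v => v ∈ E (π v c)) = E c := fun c h1 h2 => by
    ext v
    simp [π, Equiv.swap_apply_of_ne_of_ne h1 h2]
  refine ⟨fun c v => π v (vc c v), fun c => univ.filter fun v => v ∈ E (π v c),
    fun c v => e (π v c) v, ⟨fun c v h => ?_, fun c c' v h h' h3 => ?_, fun c v => ?_,
    fun c v h => ?_⟩, fun c => ?_, hEa, hEb, hEc⟩
  · rw [HV.sym c v h, ← HV.mate c v h]
    exact key _ v ((HV.mem _ v).2 ⟨c, h, rfl⟩)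
  · refine HV.mat c c' v h h' ?_
    rw [← hπ v (vc c v), h3, hπ]
  · rw [mem_filter, HV.mem]
    constructor
    · rintro ⟨-, c', h1, h2⟩
      exact ⟨c', h1, by rw [h2, hπ]⟩
    · rintro ⟨c', h1, h2⟩
      exact ⟨mem_univ _, c', h1, by rw [← h2, hπ]⟩
  · rw [hπ, HV.mate c v h]
  · beta_reduce
    by_cases h1 : c = a
    · subst h1
      have h3 : (fun v => e (π v c) v) = fun v => if v ∈ K then e b v else e c v := by
        funext v
        by_cases h : v ∈ K <;> simp [π, h]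
      rw [hEa, h3]
      exact mix_FVir1 (HM c) (HM b) ha hb hd hp
    by_cases h2 : c = b
    · subst h2
      have h3 : (fun v => e (π v c) v) = fun v => if v ∈ K then e a v else e c v := by
        funext v
        by_cases h : v ∈ K <;> simp [π, h]
      rw [hEb, h3]
      exact mix_FVir1 (HM c) (HM a) hb ha (fun x => (hd x).symm) fun x => by
        rw [add_comm]
        exact hp x
    · have h3 : (fun v => e (π v c) v) = e c := by
        funext v
        simp [π, Equiv.swap_apply_of_ne_of_ne h1 h2]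
      rw [hEc c h1 h2, h3]
      exact HM c

end Pool.Agent.MP_d20a68_co.T

end

section

/-! A random labelling halves all common neighbourhoods. -/

set_option autoImplicit false
set_option linter.unusedSectionVars false
set_option linter.unusedVariables false
open Finset
open scoped Classical

namespace Pool.Agent.MP_d20a68_co.T

open Pool.Agent.MP_d20a68_co.Poly

theorem lip_FCubeA {V : Type} [Fintype V] (A S : Finset V) (g : V → Bool) (i : V)
    (ω ω' : V → Bool) (h : ∀ j, j ≠ i → ω j = ω' j) :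
    |∑ w ∈ A, sg (ovr S g ω w) - ∑ w ∈ A, sg (ovr S g ω' w)| ≤ 2 := by
  rw [← sum_sub_distrib]
  refine (abs_sum_le_sum_abs _ _).trans
    ((sum_le_sum (g := fun w => if w = i then (2 : ℝ) else 0) fun w _ => ?_).trans ?_)
  · split_ifs with hw
    · have h1 := abs_sub (sg (ovr S g ω w)) (sg (ovr S g ω' w))
      rw [abs_sg, abs_sg] at h1
      linarith
    · rw [ovr, ovr, h w hw, sub_self, abs_zero]
  · rw [sum_ite_eq']
    split_ifs <;> norm_num

theorem mean_FCubeA {V : Type} [Fintype V] (A S : Finset V) (g : V → Bool) :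
    |mean fun ε : V → Bool => ∑ w ∈ A, sg (ovr S g ε w)| ≤ S.card := by
  rw [mean_sum]
  refine (abs_sum_le_sum_abs _ _).trans
    ((sum_le_sum (g := fun w => if w ∈ S then (1 : ℝ) else 0) fun w _ => ?_).trans ?_)
  · split_ifs with hw
    · exact mean_abs_le fun ω => (abs_sg _).le
    · rw [mean_eq_zero_of_anti (fun ω v => !ω v) (fun ω => by simp) _ fun ω => by
        simp only [ovr, if_neg hw, sg_not], abs_zero]
  · rw [sum_ite_mem, sum_const, nsmul_eq_mul, mul_one]
    exact_mod_cast card_le_card inter_subset_right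

theorem one_FCubeA {V : Type} [Fintype V] (A S : Finset V) (g : V → Bool) {Q t : ℝ} (hQ : 0 < Q)
    (ht : 0 ≤ t) (h : 4 * (Fintype.card V : ℝ) ≤ Q) :
    pr (fun ε : V → Bool => S.card + t ≤ |∑ w ∈ A, sg (ovr S g ε w)|) ≤
      2 * Real.exp (-(2 * t ^ 2 / Q)) := by
  have h0 : ∑ _i : V, (2 : ℝ) ^ 2 ≤ Q := by
    rw [sum_const, card_univ, nsmul_eq_mul]
    linarith
  have h1 := mcd V (fun ε => ∑ w ∈ A, sg (ovr S g ε w)) (fun _ => 2) Q t hQ ht
    (lip_FCubeA A S g) h0
  have h2 := mcd V (fun ε => -∑ w ∈ A, sg (ovr S g ε w)) (fun _ => 2) Q t hQ ht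
    (fun i ω ω' e => by
      rw [neg_sub_neg, abs_sub_comm]
      exact lip_FCubeA A S g i ω ω' e) h0
  rw [mean_neg] at h2
  have h3 := abs_le.1 (mean_FCubeA A S g)
  refine le_trans (pr_mono fun ε e => ?_) ((pr_or_le _ _).trans
    ((add_le_add h1 h2).trans_eq (two_mul _).symm))
  rcases le_abs.1 e with e | e
  · exact Or.inl (by linarith [h3.2])
  · exact Or.inr (by linarith [h3.1])

theorem cubeAP : CubeAP := by
  intro C R M δ hδ
  obtain ⟨U, hU⟩ := ev_exp (((256 * C) ^ 2 + 1) * (4 * R) * 2) (1 / (8 * (256 * C + 1))) δ 16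
    (by positivity) hδ
  refine ⟨U + 2 * M + 1, fun u hu k hk V _ m lab S g σ0 σ1 hV hS => ?_⟩
  have u1 : (1 : ℝ) ≤ u := by exact_mod_cast (show 1 ≤ u by omega)
  have u2 : (2 * M : ℝ) ≤ u := by exact_mod_cast (show 2 * M ≤ u by omega)
  have u3 : (u : ℝ) ≤ u ^ 5 := le_self_pow₀ u1 (by norm_num)
  have u4 : (S.card : ℝ) ≤ M := by exact_mod_cast hS
  have v1 : (Fintype.card V : ℝ) ≤ 256 * C * u ^ 8 := by
    have := hV.trans (Nat.mul_le_mul_left C hk.2)
    calc (Fintype.card V : ℝ) ≤ C * (256 * u ^ 8) := by exact_mod_cast this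
      _ = _ := by ring
  let A : Option (V × V) × Fin R × Bool × Bool → Finset V := fun i => univ.filter fun w =>
    (∀ p ∈ i.1, adj m p.1 w ∧ adj m p.2 w) ∧ lab w = i.2.1 ∧ σ0 w = i.2.2.1 ∧ σ1 w = i.2.2.2
  have h1 : ∀ ε : V → Bool, ¬ Ga m lab σ0 σ1 (ovr S g ε) ((u : ℝ) ^ 5) →
      ∃ i, S.card + (u : ℝ) ^ 5 / 2 ≤ |∑ w ∈ A i, sg (ovr S g ε w)| := by
    intro ε h
    by_contra h2
    push Not at h2
    refine h ⟨fun x x' b s0 s1 => ?_, fun b s0 s1 => ?_⟩
    · have h3 := h2 (some (x, x'), b, s0, s1)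
      rw [show A (some (x, x'), b, s0, s1) = univ.filter fun w => adj m x w ∧ adj m x' w ∧
        lab w = b ∧ σ0 w = s0 ∧ σ1 w = s1 by ext w; simp [A, and_assoc]] at h3
      linarith
    · have h3 := h2 (none, b, s0, s1)
      rw [show A (none, b, s0, s1) = univ.filter fun w =>
        lab w = b ∧ σ0 w = s0 ∧ σ1 w = s1 by ext w; simp [A]] at h3
      linarith
  have h2 : ∀ i, pr (fun ε : V → Bool => S.card + (u : ℝ) ^ 5 / 2 ≤
      |∑ w ∈ A i, sg (ovr S g ε w)|) ≤ 2 * Real.exp (-(1 / (8 * (256 * C + 1)) * u)) := by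
    intro i
    refine (one_FCubeA (A i) S g (Q := 4 * (256 * C + 1) * (u : ℝ) ^ 8) (by positivity)
      (by positivity) (by nlinarith [pow_pos (lt_of_lt_of_le one_pos u1) 8])).trans ?_
    have e : 2 * ((u : ℝ) ^ 5 / 2) ^ 2 / (4 * (256 * C + 1) * (u : ℝ) ^ 8) =
        1 / (8 * (256 * C + 1)) * u ^ 2 := by
      field_simp
      ring
    rw [e]
    gcongr
    exact le_self_pow₀ u1 (by norm_num)
  refine (pr_mono h1).trans ((pr_exists_le _).trans ((sum_le_sum fun i _ => h2 i).trans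
    (le_trans ?_ (hU u (by omega)))))
  rw [sum_const, card_univ, nsmul_eq_mul, ← mul_assoc]
  refine mul_le_mul_of_nonneg_right ?_ (Real.exp_pos _).le
  simp only [Fintype.card_prod, Fintype.card_option, Fintype.card_fin, Fintype.card_bool]
  push_cast
  have w1 : (Fintype.card V : ℝ) * Fintype.card V ≤ (256 * C) ^ 2 * u ^ 16 :=
    (mul_le_mul v1 v1 (by positivity) (by positivity)).trans_eq (by ring)
  have w2 : (1 : ℝ) ≤ u ^ 16 := one_le_pow₀ u1
  calc _ ≤ ((256 * C) ^ 2 * u ^ 16 + u ^ 16) * ((R : ℝ) * 4) * 2 := by gcongr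
    _ = _ := by ring

end Pool.Agent.MP_d20a68_co.T

end

section

/-! The distribution of the level of each colour. -/

set_option autoImplicit false
open Finset
open scoped Classical

namespace Pool.Agent.MP_d20a68_co.T

open Pool.Agent.MP_d20a68_co.Poly

theorem sum_FColX {Lv : Type} [Fintype Lv] {z h : Lv} (hzh : z ≠ h) (f : Lv → ℝ) :
    ∑ l, f l = f z + (f h + ∑ l ∈ small z h, f l) := by
  have e : (univ : Finset Lv) = insert z (insert h (small z h)) := by
    ext l
    by_cases h1 : l = z <;> by_cases h2 : l = h <;> simp [small, h1, h2]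
  rw [e, sum_insert (by simp [small, hzh]), sum_insert (by simp [small])]

theorem low_FColX {α : Type} [Fintype α] (P : α → Prop) (f : α → ℝ) (a : ℝ) (h0 : ∀ c, 0 ≤ f c)
    (h1 : ∀ c, P c → a ≤ f c) : a * (cnt P : ℝ) ≤ ∑ c, f c := by
  refine le_trans ?_ (sum_le_sum_of_subset_of_nonneg (filter_subset P univ) fun c _ _ => h0 c)
  have := card_nsmul_le_sum (univ.filter P) f a fun c hc => h1 c (mem_filter.1 hc).2
  rwa [nsmul_eq_mul, mul_comm] at this

theorem colXP : ColXP := by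
  intro k u V Lv _ _ E Lt z h σ cm Q ν η κ x0 p1 hu hν hx hp F
  have u0 : (0 : ℝ) < u := by exact_mod_cast hu
  obtain ⟨n, hn⟩ : ∃ n : Fin k → ℝ, ∀ c, n c = (cnt fun l => l ∈ small z h ∧ cm c l : ℝ) :=
    ⟨_, fun _ => rfl⟩
  have n1 : ∀ c, p1 * u ≤ n c := fun c => hn c ▸ F.nc c
  have n0 : ∀ c, 0 < n c := fun c => (mul_pos hp u0).trans_le (n1 c)
  have n3 : ∀ c, n c = ((small z h).filter fun l => cm c l).card := fun c => by
    rw [hn, cnt]
    congr 2
    ext l
    simp
  have n2 : ∀ c, n c ≤ u := fun c => by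
    rw [n3, ← F.card]
    exact_mod_cast card_filter_le _ _
  obtain ⟨w, hw⟩ : ∃ w : Fin k → ℝ, ∀ c, w c = if c ∈ Q then 1 / 4 else 1 := ⟨_, fun _ => rfl⟩
  have w1 : ∀ c, 1 / 4 ≤ w c ∧ w c ≤ 1 := fun c => by
    rw [hw]
    split_ifs <;> norm_num
  obtain ⟨x, xz, xh, xs⟩ : ∃ x : Fin k → Lv → ℝ,
      (∀ c, x c z = if c ∈ Q then (if cm c h then 1 / 2 else 3 / 4) else 0) ∧
      (∀ c, x c h = if c ∈ Q ∧ cm c h then 1 / 4 else 0) ∧
      ∀ c, ∀ l ∈ small z h, x c l = if cm c l then w c / n c else 0 := by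
    refine ⟨fun c l => if l = z then (if c ∈ Q then (if cm c h then 1 / 2 else 3 / 4) else 0)
      else if l = h then (if c ∈ Q ∧ cm c h then 1 / 4 else 0)
      else if cm c l then w c / n c else 0, fun c => if_pos rfl, fun c => ?_, fun c l hl => ?_⟩
    · beta_reduce
      rw [if_neg F.zh.symm, if_pos rfl]
    · obtain ⟨a, b⟩ := (mem_filter.1 hl).2
      beta_reduce
      rw [if_neg a, if_neg b]
  have tri : ∀ l, l = z ∨ l = h ∨ l ∈ small z h := fun l => by
    by_cases h1 : l = z <;> by_cases h2 : l = h <;> simp [small, h1, h2]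
  have x0' : ∀ c l, 0 ≤ x c l := fun c l => by
    have := n0 c
    have := (w1 c).1
    rcases tri l with rfl | rfl | hl
    · rw [xz]
      split_ifs <;> norm_num
    · rw [xh]
      split_ifs <;> norm_num
    · rw [xs c l hl]
      split_ifs
      · exact div_nonneg (by linarith) (by linarith)
      · exact le_rfl
  have hs : ∀ c (g : Lv → ℝ), ∑ l ∈ small z h, x c l * g l =
      w c / n c * ∑ l ∈ (small z h).filter (fun l => cm c l), g l := fun c g => by
    rw [mul_sum, sum_filter]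
    refine sum_congr rfl fun l hl => ?_
    rw [xs c l hl]
    split_ifs
    · rfl
    · exact zero_mul _
  have hq : ∀ l, l ≠ z → x0 * η * k ≤ (cnt fun c => c ∈ Q ∧ cm c l : ℝ) := fun l hl => by
    rw [mul_assoc]
    exact (mul_le_mul_of_nonneg_left F.qlo hx).trans (F.xq l hl)
  refine ⟨x, x0', fun c => ?_, fun c l hl => ?_, fun c l hl => ?_, fun l hl => ?_, ?_,
    fun l hl => ?_, fun c y hy hE v hv => ?_⟩
  · have h1 := hs c fun _ => 1
    simp only [mul_one, sum_const, nsmul_eq_mul] at h1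
    rw [← n3, div_mul_cancel₀ _ (n0 c).ne'] at h1
    rw [sum_FColX F.zh, h1, xz, xh, hw]
    by_cases a : c ∈ Q <;> by_cases b : cm c h <;> simp [a, b] <;> norm_num
  · rcases tri l with rfl | rfl | h1
    · rw [xz] at hl
      have a : c ∈ Q := by_contra fun a => by simp [a] at hl
      exact ⟨F.qz c a, fun _ => a⟩
    · rw [xh] at hl
      have a : c ∈ Q ∧ cm c l := by_contra fun a => by simp [a] at hl
      exact ⟨a.2, fun _ => a.1⟩
    · rw [xs c l h1] at hl
      exact ⟨by_contra fun a => by simp [a] at hl, fun a => absurd h1 a⟩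
  · rw [xs c l hl]
    split_ifs
    · exact div_le_div₀ zero_le_one (w1 c).2 (mul_pos hp u0) (n1 c)
    · positivity
  · refine le_trans ?_ (low_FColX (fun c => c ∈ Q ∧ cm c l) (fun c => x c l) (1 / 4 / u)
      (fun c => x0' c l) fun c hc => ?_)
    · refine le_trans (le_of_eq ?_)
        (mul_le_mul_of_nonneg_left (hq l (mem_filter.1 hl).2.1) (by positivity))
      field_simp
    · rw [xs c l hl, if_pos hc.2]
      exact div_le_div₀ (by linarith [(w1 c).1]) (w1 c).1 (n0 c) (n2 c)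
  · refine le_trans ?_ (low_FColX (fun c => c ∈ Q ∧ cm c h) (fun c => x c h) (1 / 4)
      (fun c => x0' c h) fun c hc => by rw [xh, if_pos hc])
    linarith [hq h F.zh.symm]
  · rw [sum_filter]
    refine le_trans ?_ (low_FColX (fun c => c ∈ Q ∧ cm c l)
      (fun c => if cm c l then x c z else 0) (1 / 2) (fun c => ?_) fun c hc => ?_)
    · linarith [hq l hl]
    · split_ifs
      · exact x0' c z
      · exact le_rfl
    · rw [if_pos hc.2, xz, if_pos hc.1]
      split_ifs <;> norm_num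
  · have h1 := F.f2 c y hy hE v hv
    have h2 := n0 c
    have h3 := w1 c
    rw [← hn] at h1
    rw [hs, abs_mul, abs_of_nonneg (div_nonneg (by linarith) h2.le)]
    refine (mul_le_mul (div_le_div_of_nonneg_right h3.2 h2.le) h1 (abs_nonneg _)
      (by positivity)).trans_eq ?_
    field_simp

end Pool.Agent.MP_d20a68_co.T

end

section

/-! The colours are put on levels by independent rounding. -/

set_option autoImplicit false
set_option linter.unusedSectionVars false
set_option linter.unusedVariables false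
open Finset
open scoped Classical

namespace Pool.Agent.MP_d20a68_co.T

open Pool.Agent.MP_d20a68_co.Poly

/-- Rounding with tests that take values in `[-1, 1]`. -/
theorem round_FCol (hR : RoundP) (k : ℕ) (Λ J : Type) [Fintype Λ] [Fintype J]
    (x : Fin k → Λ → ℝ) (g : J → Fin k → Λ → ℝ) (t : ℝ) (hk : (0 : ℝ) < k)
    (hx0 : ∀ c l, 0 ≤ x c l) (hx1 : ∀ c, ∑ l, x c l = 1) (hg : ∀ j c l, |g j c l| ≤ 1)
    (ht : 0 ≤ t) (hs : (Fintype.card J : ℝ) * (2 * Real.exp (-(2 * t ^ 2 / k))) < 1) :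
    ∃ lam : Fin k → Λ, (∀ c, 0 < x c (lam c)) ∧
      ∀ j, |∑ c, g j c (lam c) - ∑ c, ∑ l, x c l * g j c l| ≤ 2 * t := by
  obtain ⟨lam, h1, h2⟩ := hR (Fin k) Λ J x (fun j c l => (1 + g j c l) / 2) (fun _ => univ)
    (fun _ => k) (fun _ => t) hx0 hx1
    (fun j c l => by have := abs_le.1 (hg j c l); constructor <;> linarith [this.1, this.2])
    (fun j c hc => absurd (mem_univ c) hc) (fun j => ⟨hk, by simp⟩) (fun _ => ht)
    (by rw [sum_const, card_univ, nsmul_eq_mul]; exact hs)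
  refine ⟨lam, h1, fun j => ?_⟩
  have e1 : ∀ c, ∑ l, x c l * ((1 + g j c l) / 2) = (1 + ∑ l, x c l * g j c l) / 2 := by
    intro c
    have : (1 + ∑ l, x c l * g j c l) / 2 = (∑ l, x c l + ∑ l, x c l * g j c l) / 2 := by
      rw [hx1 c]
    rw [this, ← sum_add_distrib, sum_div]
    exact sum_congr rfl fun l _ => by ring
  have h3 := h2 j
  simp only [e1] at h3
  rw [← sum_sub_distrib] at h3 ⊢
  have e2 : ∑ c, (g j c (lam c) - ∑ l, x c l * g j c l) =
      2 * ∑ c, ((1 + g j c (lam c)) / 2 - (1 + ∑ l, x c l * g j c l) / 2) := by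
    rw [mul_sum]
    exact sum_congr rfl fun c _ => by ring
  rw [e2, abs_mul, abs_two]
  linarith

/-- The indicator of a level and a set of colours. -/
noncomputable def ind_FCol {k : ℕ} {Λ : Type} (l1 : Λ) (B : Fin k → Prop) (c : Fin k) (l : Λ) :
    ℝ := if l = l1 ∧ B c then 1 else 0

theorem ind_abs_FCol {k : ℕ} {Λ : Type} (l1 : Λ) (B : Fin k → Prop) (c : Fin k) (l : Λ) :
    |ind_FCol l1 B c l| ≤ 1 := by
  unfold ind_FCol
  split_ifs <;> simp

theorem ind_dev_FCol {k : ℕ} {Λ : Type} [Fintype Λ] (x : Fin k → Λ → ℝ) (lam : Fin k → Λ)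
    (l1 : Λ) (B : Fin k → Prop) [DecidablePred B] (t : ℝ)
    (H : |∑ c, ind_FCol l1 B c (lam c) - ∑ c, ∑ l, x c l * ind_FCol l1 B c l| ≤ t) :
    |(cnt fun c => lam c = l1 ∧ B c : ℝ) - ∑ c, if B c then x c l1 else 0| ≤ t := by
  have e1 : ∑ c, ind_FCol l1 B c (lam c) = (cnt fun c => lam c = l1 ∧ B c : ℝ) := by
    unfold ind_FCol cnt
    rw [card_filter]
    push_cast
    exact sum_congr rfl fun c _ => by congr
  have e2 : ∀ c, ∑ l, x c l * ind_FCol l1 B c l = if B c then x c l1 else 0 := by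
    intro c
    unfold ind_FCol
    by_cases h : B c <;> simp [h]
  simp only [e1, e2] at H
  exact H

/-- The correlation test. -/
noncomputable def cg_FCol {k : ℕ} {V Lv : Type} [Fintype Lv] (E : Fin k → Finset V) (z h : Lv)
    (σ : Lv → V → Bool) (w : Option V) (x v : V) (c : Fin k) (l : Lv) : ℝ :=
  if l ∈ small z h ∧ ∀ w', w = some w' → w' ∉ E c then sg (σ l x) * sg (σ l v) else 0

theorem cg_abs_FCol {k : ℕ} {V Lv : Type} [Fintype Lv] (E : Fin k → Finset V) (z h : Lv)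
    (σ : Lv → V → Bool) (w : Option V) (x v : V) (c : Fin k) (l : Lv) :
    |cg_FCol E z h σ w x v c l| ≤ 1 := by
  unfold cg_FCol
  split_ifs
  · rw [abs_mul, abs_sg, abs_sg, mul_one]
  · simp

theorem cnt_sum_FCol {k : ℕ} (B : Fin k → Prop) [DecidablePred B] (a : ℝ) :
    ∑ c, (if B c then a else 0) = (cnt B : ℝ) * a := by
  unfold cnt
  rw [← sum_filter, sum_const, nsmul_eq_mul]
  congr

theorem exp_FCol (C : ℕ) : ∃ U : ℕ, ∀ u, U ≤ u → ∀ k, Sc k u → ∀ n : ℕ, n ≤ C * k →
    (((u + 2) + ((u + 2) + ((n + 1) * (n * n) + n * (u + 2))) : ℕ) : ℝ) *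
      (2 * Real.exp (-(2 * ((u : ℝ) ^ 5) ^ 2 / k))) < 1 := by
  obtain ⟨U, hU⟩ := ev_exp (8 * (256 * C + 2) ^ 3) (1 / 128) (1 / 2) 24 (by norm_num)
    (by norm_num)
  refine ⟨U + 2, fun u hu k hk n hn => ?_⟩
  have h0 := hU u (by omega)
  have hu2 : 2 ≤ u := by omega
  have hu8 : u ≤ u ^ 8 := Nat.le_self_pow (by norm_num) u
  have hW : ((u + 2) + ((u + 2) + ((n + 1) * (n * n) + n * (u + 2))) : ℕ) ≤
      4 * ((256 * C + 2) * u ^ 8) ^ 3 := by
    have a1 : n + 1 ≤ (256 * C + 2) * u ^ 8 := by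
      have := Nat.mul_le_mul_left C hk.2
      nlinarith
    have a2 : u + 2 ≤ (256 * C + 2) * u ^ 8 := by nlinarith
    generalize (256 * C + 2) * u ^ 8 = W at a1 a2
    have a3 : n ≤ W := by omega
    have a4 : W ≤ W ^ 3 := Nat.le_self_pow (by norm_num) W
    have a5 : (n + 1) * (n * n) ≤ W ^ 3 := by
      calc (n + 1) * (n * n) ≤ W * (W * W) := Nat.mul_le_mul a1 (Nat.mul_le_mul a3 a3)
        _ = W ^ 3 := by ring
    have a6 : n * (u + 2) ≤ W ^ 3 := by
      calc n * (u + 2) ≤ W * W := Nat.mul_le_mul a3 a2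
        _ = W ^ 2 := by ring
        _ ≤ W ^ 3 := Nat.pow_le_pow_right (by omega) (by norm_num)
    omega
  have hW' : (((u + 2) + ((u + 2) + ((n + 1) * (n * n) + n * (u + 2))) : ℕ) : ℝ) ≤
      4 * ((256 * C + 2) * (u : ℝ) ^ 8) ^ 3 := by exact_mod_cast hW
  have hu1 : (1 : ℝ) ≤ u := by exact_mod_cast (show 1 ≤ u by omega)
  have hk1 : (u : ℝ) ^ 8 ≤ k := by exact_mod_cast hk.1
  have hk2 : (k : ℝ) ≤ 256 * (u : ℝ) ^ 8 := by exact_mod_cast hk.2
  have hk0 : (0 : ℝ) < k := lt_of_lt_of_le (by positivity) hk1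
  have he : Real.exp (-(2 * ((u : ℝ) ^ 5) ^ 2 / k)) ≤ Real.exp (-(1 / 128 * u)) := by
    refine Real.exp_le_exp.2 (neg_le_neg ?_)
    rw [le_div_iff₀ hk0]
    have b1 : (u : ℝ) ^ 9 ≤ (u : ℝ) ^ 10 := pow_le_pow_right₀ hu1 (by norm_num)
    calc 1 / 128 * (u : ℝ) * k ≤ 1 / 128 * (u : ℝ) * (256 * (u : ℝ) ^ 8) :=
          mul_le_mul_of_nonneg_left hk2 (by positivity)
      _ = 2 * (u : ℝ) ^ 9 := by ring
      _ ≤ 2 * (u : ℝ) ^ 10 := by linarith
      _ = 2 * ((u : ℝ) ^ 5) ^ 2 := by ring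
  calc _ ≤ 4 * ((256 * C + 2) * (u : ℝ) ^ 8) ^ 3 * (2 * Real.exp (-(1 / 128 * u))) :=
        mul_le_mul hW' (by linarith) (by positivity) (by positivity)
    _ = 8 * (256 * C + 2) ^ 3 * (u : ℝ) ^ 24 * Real.exp (-(1 / 128 * u)) := by ring
    _ < 1 := by linarith

theorem colP (hR : RoundP) (hX : ColXP) : ColP := by
  intro C ν η κ x0 p1 θ hν hη hx0 hp1 hθ
  obtain ⟨U1, hU1⟩ := exp_FCol C
  obtain ⟨U2, hU2⟩ := ev_pow 2 (x0 * η / 8) 6 (by norm_num) (by positivity)
  obtain ⟨U3, hU3⟩ := ev_pow 2 (1 / p1) 6 (by norm_num) (by positivity)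
  obtain ⟨U4, hU4⟩ := ev_pow 2 ν 6 (by norm_num) hν
  obtain ⟨U5, hU5⟩ := ev_pow 2 (θ / p1) 6 (by norm_num) (by positivity)
  refine ⟨U1 + U2 + U3 + U4 + U5 + 1, fun u hu k hk V Lv _ _ E Lt z h σ cm Q hV hF hE => ?_⟩
  have g2 := hU2 u (by omega) k hk
  have g3 := hU3 u (by omega) k hk
  have g4 := hU4 u (by omega) k hk
  have g5 := hU5 u (by omega) k hk
  have hu1 : (1 : ℝ) ≤ u := by exact_mod_cast (show 1 ≤ u by omega)
  have hu0 : (0 : ℝ) < u := by linarith
  have hk1 : (u : ℝ) ^ 8 ≤ k := by exact_mod_cast hk.1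
  have hk0 : (0 : ℝ) < k := lt_of_lt_of_le (by positivity) hk1
  have h56 : (u : ℝ) ^ 5 ≤ (u : ℝ) ^ 6 := pow_le_pow_right₀ hu1 (by norm_num)
  have hak : 0 ≤ x0 * η * k := by positivity
  obtain ⟨x, x0', x1, xs, xu, xl, xh, xz, xc⟩ :=
    hX k u V Lv E Lt z h σ cm Q ν η κ x0 p1 (by omega) hν.le hx0.le hp1 hF
  obtain ⟨lc, hpos, hdev⟩ := round_FCol hR k Lv (Lv ⊕ Lv ⊕ (Option V × V × V) ⊕ (V × Lv)) x
    (fun j => match j with
      | Sum.inl l => ind_FCol l fun _ => True
      | Sum.inr (Sum.inl l) => ind_FCol z fun c => cm c l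
      | Sum.inr (Sum.inr (Sum.inl q)) => cg_FCol E z h σ q.1 q.2.1 q.2.2
      | Sum.inr (Sum.inr (Sum.inr q)) => ind_FCol q.2 fun c => q.1 ∈ E c)
    ((u : ℝ) ^ 5) hk0 x0' x1
    (by
      rintro (l | l | q | q) c l'
      · exact ind_abs_FCol _ _ _ _
      · exact ind_abs_FCol _ _ _ _
      · exact cg_abs_FCol _ _ _ _ _ _ _ _ _
      · exact ind_abs_FCol _ _ _ _)
    (by positivity)
    (by
      have := hU1 u (by omega) k hk (Fintype.card V) hV
      simp only [Fintype.card_sum, Fintype.card_prod, Fintype.card_option, card_small hF.zh,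
        hF.card]
      exact this)
  have d1 : ∀ l, |(cnt fun c => lc c = l : ℝ) - ∑ c, x c l| ≤ 2 * (u : ℝ) ^ 5 := by
    intro l
    have := ind_dev_FCol x lc l (fun _ => True) _ (hdev (Sum.inl l))
    simpa using this
  have hQ : ∀ l, l ∉ small z h → 2 * (cnt fun c => lc c = l : ℝ) ≤ κ * k := by
    intro l hl
    have : (cnt fun c => lc c = l) ≤ Q.card := by
      refine card_le_card fun c hc => (xs c _ (hpos c)).2 ?_
      rw [(mem_filter.1 hc).2]
      exact hl
    have h2 : (cnt fun c => lc c = l : ℝ) ≤ Q.card := by exact_mod_cast this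
    linarith [hF.qhi]
  have e6 : (u : ℝ) * (2 * (u : ℝ) ^ 5) = 2 * (u : ℝ) ^ 6 := by ring
  refine ⟨lc, fun c => (xs c _ (hpos c)).1, fun l hl => ?_, fun l hl => ?_, ?_,
    hQ h (by simp [small]), hQ z (by simp [small]), fun l hl => ?_, fun w y hy v hv => ?_,
    fun v hv l hl => ?_⟩
  · have a1 := mul_le_mul_of_nonneg_left (abs_le.1 (d1 l)).1 hu0.le
    have a2 := xl l hl
    rw [div_le_iff₀ (by positivity)] at a2
    nlinarith
  · have a1 := mul_le_mul_of_nonneg_left (abs_le.1 (d1 l)).2 hu0.le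
    have a2 : ∑ c, x c l ≤ k * (1 / (p1 * u)) := by
      calc ∑ c, x c l ≤ ∑ c : Fin k, 1 / (p1 * u) := sum_le_sum fun c _ => xu c l hl
        _ = k * (1 / (p1 * u)) := by simp
    have a3 := mul_le_mul_of_nonneg_left a2 hu0.le
    have a4 : (u : ℝ) * (k * (1 / (p1 * u))) = 1 / p1 * k := by field_simp
    have a5 : 2 / p1 * (k : ℝ) = 2 * (1 / p1 * k) := by ring
    rw [mul_sub] at a1
    linarith
  · have a1 := (abs_le.1 (d1 h)).1
    linarith
  · have a1 := (abs_le.1 (ind_dev_FCol x lc z (fun c => cm c l) _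
      (hdev (Sum.inr (Sum.inl l))))).1
    have a2 := xz l hl
    rw [sum_filter] at a2
    linarith
  · have a1 := hdev (Sum.inr (Sum.inr (Sum.inl (w, y, v))))
    have a2 : ∑ c, cg_FCol E z h σ w y v c (lc c) = cor E z h σ lc w y v := by
      unfold cor cg_FCol
      rw [sum_filter]
      exact sum_congr rfl fun c _ => by congr
    have a3 : ∀ c, |∑ l, x c l * cg_FCol E z h σ w y v c l| ≤ ν + if y ∈ E c then 1 else 0 := by
      intro c
      by_cases hc : y ∈ E c
      · rw [if_pos hc]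
        refine (abs_sum_le_sum_abs _ _).trans ?_
        have : ∑ l, |x c l * cg_FCol E z h σ w y v c l| ≤ ∑ l, x c l :=
          sum_le_sum fun l _ => by
            rw [abs_mul, abs_of_nonneg (x0' c l)]
            exact mul_le_of_le_one_right (x0' c l) (cg_abs_FCol _ _ _ _ _ _ _ _ _)
        linarith [x1 c]
      · rw [if_neg hc, add_zero]
        by_cases hw : ∀ w', w = some w' → w' ∉ E c
        · have : ∑ l, x c l * cg_FCol E z h σ w y v c l =
              ∑ l ∈ small z h, x c l * (sg (σ l y) * sg (σ l v)) := by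
            rw [← sum_filter_add_sum_filter_not univ (fun l => l ∈ small z h), filter_univ_mem,
              sum_eq_zero (s := univ.filter fun l => l ∉ small z h) fun l hl => by
                rw [cg_FCol, if_neg fun H => (mem_filter.1 hl).2 H.1, mul_zero], add_zero]
            exact sum_congr rfl fun l hl => by rw [cg_FCol, if_pos ⟨hl, hw⟩]
          rw [this]
          exact xc c y hy hc v hv
        · rw [sum_eq_zero fun l _ => by rw [cg_FCol, if_neg fun H => hw H.2, mul_zero], abs_zero]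
          exact hν.le
    have a4 : |∑ c, ∑ l, x c l * cg_FCol E z h σ w y v c l| ≤ ν * k + θ * k := by
      refine (abs_sum_le_sum_abs _ _).trans ((sum_le_sum fun c _ => a3 c).trans ?_)
      have b1 := cnt_sum_FCol (fun c => y ∈ E c) 1
      have b2 := hE y hy
      rw [sum_add_distrib, sum_const, card_univ, Fintype.card_fin, nsmul_eq_mul]
      linarith
    dsimp only at a1
    rw [a2] at a1
    have a5 := abs_le.1 a1
    have a6 := abs_le.1 a4
    rw [abs_le]
    constructor <;> linarith [a5.1, a5.2, a6.1, a6.2]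
  · have a0 := (abs_le.1 (ind_dev_FCol x lc l (fun c => v ∈ E c) _
      (hdev (Sum.inr (Sum.inr (Sum.inr (v, l))))))).2
    have a1 := mul_le_mul_of_nonneg_left a0 hu0.le
    have a2 : ∑ c, (if v ∈ E c then x c l else 0) ≤ θ * k * (1 / (p1 * u)) := by
      calc ∑ c, (if v ∈ E c then x c l else 0) ≤ ∑ c, if v ∈ E c then 1 / (p1 * u) else 0 :=
            sum_le_sum fun c _ => by
              split_ifs
              · exact xu c l hl
              · exact le_rfl
        _ = (cnt fun c => v ∈ E c : ℝ) * (1 / (p1 * u)) := by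
            rw [← cnt_sum_FCol]
        _ ≤ _ := mul_le_mul_of_nonneg_right (hE v hv) (by positivity)
    have a3 := mul_le_mul_of_nonneg_left a2 hu0.le
    have a4 : (u : ℝ) * (θ * k * (1 / (p1 * u))) = θ / p1 * k := by field_simp
    have a5 : 2 * θ / p1 * (k : ℝ) = 2 * (θ / p1 * k) := by ring
    rw [mul_sub] at a1
    linarith

end Pool.Agent.MP_d20a68_co.T

end

section

/-! Targets for the labels. -/

set_option autoImplicit false
set_option linter.unusedSectionVars false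
set_option linter.unusedVariables false
open Finset
open scoped Classical

namespace Pool.Agent.MP_d20a68_co.T

open Pool.Agent.MP_d20a68_co.Poly

theorem tgtP : TgtP := by
  intro R M o nn n ho hc hp h0 hM
  obtain ⟨ld, l1, l2⟩ : ∃ ld : Fin R → Fin R, (∀ x b, o x b → ld b = ld x) ∧
      ∀ x, (∃ b, o x b ∧ nn b ≠ 0) → o x (ld x) ∧ nn (ld x) ≠ 0 := by
    refine ⟨fun x => @Classical.epsilon _ ⟨x⟩ fun b => o x b ∧ nn b ≠ 0, fun x b h => ?_,
      fun x h => Classical.epsilon_spec h⟩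
    have : (fun c => o b c ∧ nn c ≠ 0) = fun c => o x c ∧ nn c ≠ 0 := funext fun c =>
      propext (and_congr_left' ⟨ho.trans h, ho.trans (ho.symm h)⟩)
    simp only [this]
  obtain ⟨P, hP⟩ : ∃ P : Fin R → ℤ, ∀ x, P x = ∑ b ∈ univ.filter (fun b => o x b), (nn b : ℤ) % 2 :=
    ⟨_, fun _ => rfl⟩
  have P1 : ∀ x b, o x b → P b = P x := fun x b h => by
    rw [hP, hP, filter_congr fun c _ => (⟨ho.trans h, ho.trans (ho.symm h)⟩ : o b c ↔ o x c)]
  have P2 : ∀ x, Even (n x - P x) := fun x => by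
    have : Even (∑ b ∈ univ.filter (fun b => o x b), ((nn b : ℤ) - nn b % 2)) :=
      even_sum _ fun b _ => ⟨nn b / 2, by omega⟩
    rw [sum_sub_distrib, ← hP] at this
    simpa using (hp x).add this
  have P3 : ∀ x, (nn x : ℤ) % 2 ≤ P x ∧ P x ≤ R := fun x => by
    rw [hP]
    refine ⟨single_le_sum (f := fun b => (nn b : ℤ) % 2) (fun b _ => by omega)
      (mem_filter.2 ⟨mem_univ _, ho.refl x⟩), ?_⟩
    refine (sum_le_card_nsmul _ _ 1 fun b _ => by omega).trans ?_
    simpa using (card_le_univ (univ.filter fun b => o x b)).trans_eq (Fintype.card_fin R)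
  refine ⟨fun b => nn b % 2 + if ld b = b ∧ nn b ≠ 0 then n b - P b else 0, fun b => ?_,
    fun b h => by simp [h], fun b => ?_, fun x => ?_⟩
  · obtain ⟨c, hc⟩ := P2 b
    rw [Int.even_iff]
    dsimp only
    split_ifs <;> omega
  · have := P3 b
    have := abs_le.1 (hM b)
    have := b.2
    rw [abs_le]
    dsimp only
    split_ifs <;> omega
  · rw [sum_add_distrib, ← hP]
    by_cases h : ∃ b, o x b ∧ nn b ≠ 0
    · have h1 := l2 x h
      rw [sum_eq_single_of_mem (ld x) (mem_filter.2 ⟨mem_univ _, h1.1⟩) fun b hb e =>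
        if_neg fun k => e (k.1.symm.trans (l1 x b (mem_filter.1 hb).2)),
        if_pos ⟨l1 _ _ h1.1, h1.2⟩, P1 _ _ h1.1, ← hc _ _ h1.1, add_sub_cancel]
    · simp only [not_exists, not_and, not_not] at h
      rw [h0 x h, hP, sum_eq_zero fun b hb => by simp [h b (mem_filter.1 hb).2],
        sum_eq_zero fun b hb => by simp [h b (mem_filter.1 hb).2], add_zero]

theorem fib_FTgt {R : ℕ} {V : Type} [Fintype V] (lab : V → Fin R) (p : Fin R → Prop) (f : V → ℤ) :
    ∑ v ∈ univ.filter (fun v => p (lab v)), f v = ∑ b ∈ univ.filter p, ∑ v ∈ Vl lab b, f v := by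
  rw [← sum_fiberwise_of_maps_to (s := univ.filter fun v => p (lab v)) (t := univ.filter p)
    (g := lab) fun v hv => by simpa using hv]
  refine sum_congr rfl fun b hb => sum_congr ?_ fun _ _ => rfl
  ext v
  simp only [Vl, mem_filter, mem_univ, true_and, and_iff_right_iff_imp] at hb ⊢
  rintro rfl
  exact hb

theorem tgbP (hT : TgtP) (hN : NuP) : TgbP := by
  intro R M V _ lab fl r E e σ hr hE hM
  obtain ⟨ho, -, h3⟩ := hN R fl r hr
  obtain ⟨tg, t1, t2, t3, t4⟩ := hT R M (orb r fl) (fun b => (Vl lab b).card)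
    (fun x => ∑ v ∈ E.filter (fun v => orb r fl x (lab v)), sgz (σ v)) ho
    (fun x x' h => by
      rw [filter_congr fun v _ => (⟨ho.trans (ho.symm h), ho.trans h⟩ :
        orb r fl x (lab v) ↔ orb r fl x' (lab v))])
    (fun x => by
      have e1 := fib_FTgt lab (orb r fl x) fun _ => 1
      simp only [sum_const, nsmul_eq_mul, mul_one] at e1
      have e2 : Even (∑ v ∈ E.filter (fun v => orb r fl x (lab v)), (sgz (σ v) - 1)) :=
        even_sum _ fun v _ => by cases σ v <;> decide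
      have e3 := card_filter_add_card_filter_not (s := univ.filter fun v => orb r fl x (lab v))
        fun v => v ∈ E
      have e4 : (univ.filter fun v => orb r fl x (lab v)).filter (fun v => v ∈ E) =
          E.filter fun v => orb r fl x (lab v) := by
        ext v
        simp [and_comm]
      have e5 : ((univ.filter fun v => orb r fl x (lab v)).filter fun v => v ∉ E).card =
          cnt fun v => v ∉ E ∧ orb r fl x (lab v) := by
        unfold cnt
        congr 1
        ext v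
        simp [and_comm]
      obtain ⟨c, hc⟩ := hE.par x
      rw [e4, e5, hc] at e3
      rw [sum_sub_distrib, sum_const, nsmul_eq_mul, mul_one, Int.even_iff] at e2
      rw [← e1, ← e3, Int.even_iff]
      omega)
    (fun x h => sum_eq_zero fun v hv => by
      have := card_eq_zero.1 (h _ (mem_filter.1 hv).2)
      exact absurd (this ▸ (by simp [Vl] : v ∈ Vl lab (lab v))) (notMem_empty v))
    fun x => by
      refine (abs_sum_le_sum_abs _ _).trans
        ((sum_le_card_nsmul _ _ 1 fun v _ => by cases σ v <;> decide).trans ?_)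
      simpa using (card_filter_le E _).trans hM
  refine ⟨tg, t1, fun b h => t2 b (by simp [h]), t3, fun σ' h =>
    h3 V lab univ E σ' σ (fun a => (hE.dif a).symm) fun a => ?_⟩
  rw [fib_FTgt, ← t4 a]
  exact sum_congr rfl fun b _ => h b

end Pool.Agent.MP_d20a68_co.T

end

section

/-! The cross degrees after the rounding. -/

set_option autoImplicit false
set_option linter.unusedSectionVars false
set_option linter.unusedVariables false
open Finset
open scoped Classical

namespace Pool.Agent.MP_d20a68_co.T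

open Pool.Agent.MP_d20a68_co.Poly

lemma core_SRd1b {k : ℕ} (P : Fin k → Prop) [DecidablePred P] (b : Fin k → Bool × Bool × Bool)
    (p : Fin k → ℝ) (w : Bool × Bool × Bool → ℝ) (ε δ t : ℝ)
    (h : ∀ x, |8 * (cnt fun c => P c ∧ b c = x : ℝ) - (cnt P : ℝ)| ≤ ε) (hδ : 0 ≤ δ)
    (hp : ∀ c, P c → |p c - w (b c)| ≤ δ) (hw : ∑ x, w x = 8 * t) (hw' : ∀ x, 0 ≤ w x) :
    |∑ c ∈ univ.filter P, p c - t * cnt P| ≤ ε * t + δ * k := by
  have h1 := cellS P b w 8 (cnt P) ε (by norm_num) h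
  simp only [abs_of_nonneg (hw' _), hw] at h1
  have h2 : |∑ c ∈ univ.filter P, p c - ∑ c ∈ univ.filter P, w (b c)| ≤ δ * k := by
    rw [← sum_sub_distrib]
    refine (abs_sum_le_sum_abs _ _).trans ((sum_le_card_nsmul _ _ δ fun c hc =>
      hp c (mem_filter.1 hc).2).trans ?_)
    have h3 : (((univ.filter P).card : ℕ) : ℝ) ≤ k := by
      exact_mod_cast (card_le_univ _).trans (Fintype.card_fin k).le
    rw [nsmul_eq_mul, mul_comm]
    exact mul_le_mul_of_nonneg_left h3 hδ
  rw [abs_le] at h1 h2 ⊢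
  constructor <;> linarith [h1.1, h1.2, h2.1, h2.2]

theorem rd1bS : Rd1bP := by
  intro V Lv _ _ k R D C φ η ν u B S Lp H ν' ν₁ om PF EM AC hν' hν₁ v hv l
  have hk := H.kpos
  have hν := H.ν0
  have hy : ∀ l, (0 : ℝ) ≤ D.y l := fun l => Nat.cast_nonneg _
  have hcell : ∀ l' ∈ small D.z D.h, ∀ x : Bool × Bool × Bool,
      |8 * (cnt fun c => D.MC c v ∧
        (D.σ l' (D.m c v), D.σ D.z (D.m c v), D.σ D.h (D.m c v)) = x : ℝ) -
        (cnt fun c => D.MC c v : ℝ)| ≤ (R + 9) * ν * k := by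
    rintro l' hl' ⟨s, s0, s1⟩
    simpa only [Prod.mk.injEq] using EM.hC v hv l' hl' s s0 s1
  have hxh : ∀ c, D.MC c v → D.xh (η / 4) c v = 2 * D.y D.h / k * ind (D.Cut D.h c v) := by
    intro c hc
    rw [Dat.xh, Dat.kap, if_neg hc.2, mul_one]
  have hxz : ∀ c, D.MC c v → D.xz (η / 4) c v = 2 * D.y D.z / k * ind (D.Cut D.z c v) := by
    intro c hc
    rw [Dat.xz, Dat.kap, if_neg hc.2]
    congr 1
    field_simp
    ring
  have main : |∑ c ∈ univ.filter (fun c => D.MC c v), D.prob (η / 4) c v (Sum.inl l) -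
      D.y l / k * (cnt fun c => D.MC c v : ℝ)| ≤
      (R + 9) * ν * k * (D.y l / k) + 4 * ν * D.y l / k * k := by
    have hδ : 0 ≤ 4 * ν * D.y l / k := by positivity
    obtain ⟨l0, hl0⟩ := EM.sm
    by_cases h1 : l = D.h
    · subst h1
      refine core_SRd1b _ _ _ (fun x => 2 * D.y D.h / k * ind (D.σ D.h v ≠ x.2.2)) _ _ _
        (hcell l0 hl0) hδ (fun c hc => ?_) ?_ fun x => mul_nonneg (by positivity) (indS_nonneg _)
      · rw [D.prob_h _ hc.1, hxh c hc]
        simpa [Dat.Cut] using hδ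
      · cases D.σ D.h v <;> simp [Fintype.sum_prod_type, ind] <;> ring
    by_cases h2 : l = D.z
    · subst h2
      refine core_SRd1b _ _ _ (fun x => 2 * D.y D.z / k * ind (D.σ D.z v ≠ x.2.1)) _ _ _
        (hcell l0 hl0) hδ (fun c hc => ?_) ?_ fun x => mul_nonneg (by positivity) (indS_nonneg _)
      · rw [D.prob_z _ hc.1 h1, hxz c hc]
        simpa [Dat.Cut, D.xt_cross _ hc.2] using hδ
      · cases D.σ D.z v <;> simp [Fintype.sum_prod_type, ind] <;> ring
    have hl : l ∈ small D.z D.h := mem_filter.2 ⟨mem_univ _, h2, h1⟩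
    have hz := H.yhi D.z
    have hh := H.yhi D.h
    have hY : (0 : ℝ) < k - D.y D.z - D.y D.h := by linarith
    refine core_SRd1b _ _ _ (fun x => (1 - 2 * D.y D.z / k * ind (D.σ D.z v ≠ x.2.1) -
        2 * D.y D.h / k * ind (D.σ D.h v ≠ x.2.2)) * (2 * D.y l / ((k : ℝ) - D.y D.z - D.y D.h)) *
        ind (D.σ l v ≠ x.1)) _ _ _ (hcell l hl) hδ (fun c hc => ?_) ?_ fun x => ?_
    · have h3 := PF.app c v hc.1 l hl
      rw [hxh c hc, hxz c hc] at h3
      exact h3
    · cases D.σ D.z v <;> cases D.σ D.h v <;> cases D.σ l v <;>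
        simp [Fintype.sum_prod_type, ind] <;> field_simp <;> ring
    · refine mul_nonneg (mul_nonneg ?_ (div_nonneg (by positivity) hY.le)) (indS_nonneg _)
      have a1 : 2 * (D.y D.z : ℝ) / k ≤ 1 / 8 := by rw [div_le_iff₀ hk]; linarith
      have a2 : 2 * (D.y D.h : ℝ) / k ≤ 1 / 8 := by rw [div_le_iff₀ hk]; linarith
      have a3 := mul_le_of_le_one_right (show 0 ≤ 2 * (D.y D.z : ℝ) / k by positivity)
        (indS_le_one (D.σ D.z v ≠ x.2.1))
      have a4 := mul_le_of_le_one_right (show 0 ≤ 2 * (D.y D.h : ℝ) / k by positivity)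
        (indS_le_one (D.σ D.h v ≠ x.2.2))
      linarith
  have e1 : (R + 9) * ν * k * (D.y l / k) + 4 * ν * D.y l / k * k = (R + 13) * ν * D.y l := by
    field_simp
    ring
  have e2 : (D.y l : ℝ) / k * (cnt fun c => D.MC c v : ℝ) =
      D.y l * (cnt fun c => D.MC c v : ℝ) / k := by ring
  rw [e1, e2] at main
  have h1 := AC.aC v (Sum.inl l)
  have h2 : ν' * (u : ℝ) ^ 6 ≤ ν' * D.y l := mul_le_mul_of_nonneg_left (H.u6 l) hν'
  have h3 : ((2 * R + 30) * ν + ν') * D.y l ≤ ν₁ * D.y l :=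
    mul_le_mul_of_nonneg_right hν₁ (hy l)
  have h4 : 0 ≤ (R + 17) * ν * D.y l := by positivity
  rw [abs_le] at main h1 ⊢
  constructor <;> linarith [main.1, main.2, h1.1, h1.2]

end Pool.Agent.MP_d20a68_co.T

end

section

/-! The tagged degrees after the rounding. -/

set_option autoImplicit false
set_option linter.unusedSectionVars false
set_option linter.unusedVariables false
open Finset
open scoped Classical

namespace Pool.Agent.MP_d20a68_co.T

open Pool.Agent.MP_d20a68_co.Poly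

theorem rd1dS : Rd1cP := by
  intro V Lv _ _ k R D C φ η ν u B S Lp H ν' ν₁ om PF EM AC hν' hν₁ v hv l hl
  have hk := H.kpos
  have hν := H.ν0
  have hη := H.η0
  have hη1 := H.eta_le
  have hy : (0 : ℝ) ≤ D.y l := Nat.cast_nonneg _
  have hcell : ∀ l' ∈ small D.z D.h, ∀ x : Bool × Bool × Bool,
      |8 * (cnt fun c => D.MI c v ∧
        (D.σ l' (D.m c v), D.σ D.z (D.m c v), D.σ D.h (D.m c v)) = x : ℝ) -
        (cnt fun c => D.MI c v : ℝ)| ≤ (R + 9) * ν * k := by
    rintro l' hl' ⟨s, s0, s1⟩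
    simpa only [Prod.mk.injEq] using EM.hI v hv l' hl' s s0 s1
  have hxt : ∀ c, D.MI c v → D.prob (η / 4) c v (Sum.inr l) =
      8 * (η / 4) * D.y l / k * ind (D.Cut D.z c v ∧ D.Cut l c v) := fun c hc => by
    rw [D.prob_tag _ hc.1, Dat.xt]
    simp only [hc.2, true_and, ne_eq, hl, not_false_eq_true, and_true]
  have main : |∑ c ∈ univ.filter (fun c => D.MI c v), D.prob (η / 4) c v (Sum.inr l) -
      2 * (η / 4) * D.y l / k * (cnt fun c => D.MI c v : ℝ)| ≤
      (R + 9) * ν * k * (2 * (η / 4) * D.y l / k) + 0 * k := by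
    obtain ⟨l0, hl0⟩ := EM.sm
    by_cases h1 : l = D.h
    · subst h1
      refine core_SRd1b _ _ _ (fun x => 8 * (η / 4) * D.y D.h / k *
        ind (D.σ D.z v ≠ x.2.1 ∧ D.σ D.h v ≠ x.2.2)) _ _ _
        (hcell l0 hl0) le_rfl (fun c hc => ?_) ?_ fun x =>
          mul_nonneg (by positivity) (indS_nonneg _)
      · rw [hxt c hc]
        simp [Dat.Cut]
      · cases D.σ D.z v <;> cases D.σ D.h v <;> simp [Fintype.sum_prod_type, ind] <;> ring
    refine core_SRd1b _ _ _ (fun x => 8 * (η / 4) * D.y l / k *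
      ind (D.σ D.z v ≠ x.2.1 ∧ D.σ l v ≠ x.1)) _ _ _
      (hcell l (mem_filter.2 ⟨mem_univ _, hl, h1⟩)) le_rfl (fun c hc => ?_) ?_ fun x =>
        mul_nonneg (by positivity) (indS_nonneg _)
    · rw [hxt c hc]
      simp [Dat.Cut]
    · cases D.σ D.z v <;> cases D.σ l v <;> simp [Fintype.sum_prod_type, ind] <;> ring
  have e1 : (R + 9) * ν * k * (2 * (η / 4) * D.y l / k) + 0 * k =
      η / 2 * ((R + 9) * ν * D.y l) := by
    field_simp
    ring
  have e2 : 2 * (η / 4) * (D.y l : ℝ) / k * (cnt fun c => D.MI c v : ℝ) =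
      2 * (η / 4) * D.y l * (cnt fun c => D.MI c v : ℝ) / k := by ring
  rw [e1, e2] at main
  have h1 := AC.aI v (Sum.inr l)
  rw [cntS_congr (P := fun c => om c v = Sum.inr l) (Q := fun c => D.MI c v ∧ om c v = Sum.inr l)
    fun c => ⟨fun h => ⟨(PF.tag c v l (h ▸ AC.pos c v)).1, h⟩, fun h => h.2⟩]
  have h2 : ν' * (u : ℝ) ^ 6 ≤ ν' * D.y l := mul_le_mul_of_nonneg_left (H.u6 l) hν'
  have h3 : ((2 * R + 30) * ν + ν') * D.y l ≤ ν₁ * D.y l := mul_le_mul_of_nonneg_right hν₁ hy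
  have h4 : 0 ≤ (R + 9) * ν * D.y l := by positivity
  have h5 : η / 2 * ((R + 9) * ν * D.y l) ≤ (R + 9) * ν * D.y l :=
    mul_le_of_le_one_left h4 (by linarith)
  have h6 : 0 ≤ (R + 21) * ν * D.y l := by positivity
  rw [abs_le] at main h1 ⊢
  constructor <;> linarith [main.1, main.2, h1.1, h1.2]

end Pool.Agent.MP_d20a68_co.T

end
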