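import Pool.Agent.Mg.Xd20a68.G7633c2

section

/-! The assembly of the second half. -/

set_option autoImplicit false
set_option linter.unusedSectionVars false
set_option linter.unusedVariables false
open Finset Filter Topology
open scoped Classical

namespace Pool.Agent.MP_d20a68_co.T

open Pool.Agent.MP_d20a68_co.Poly

lemma ev_small (A b : ℝ) (hb : 0 < b) : ∀ᶠ x in 𝓝[>] (0 : ℝ), A * x ≤ b := by
  have h : Tendsto (fun x : ℝ => A * x) (𝓝[>] 0) (𝓝 0) := by
    have : Tendsto (fun x : ℝ => A * x) (𝓝 0) (𝓝 (A * 0)) :=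
      (continuous_const.mul continuous_id).tendsto 0
    rw [mul_zero] at this
    exact this.mono_left nhdsWithin_le_nhds
  exact (h.eventually (gt_mem_nhds hb)).mono fun x hx => hx.le

lemma ev_pos : ∀ᶠ x in 𝓝[>] (0 : ℝ), 0 < x := self_mem_nhdsWithin

lemma ev_big (a b : ℝ) (ha : 0 < a) : ∀ᶠ n : ℕ in atTop, b ≤ a * n :=
  (tendsto_natCast_atTop_atTop.const_mul_atTop ha).eventually_ge_atTop b

lemma Dat.ResOk.mono {V Lv : Type} [Fintype V] [Fintype Lv] {k R : ℕ} {D : Dat V Lv k R}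
    {om : Fin k → V → Lv ⊕ Lv} {lam : Fin k → V → Lv} {e e' : ℝ} (h : D.ResOk om lam e)
    (he : e ≤ e') : D.ResOk om lam e' :=
  ⟨fun v hv l hl => (h.app v hv l hl).trans (mul_le_mul_of_nonneg_right he (Nat.cast_nonneg _)),
    h.out⟩

theorem secondOf (hdeg : DegP) (hprob : ProbP) (hacc : AccP) (heq : EqMP) (h1a : Rd1aP)
    (h1b : Rd1bP) (h1c : Rd1cP) (h2 : Rd2P) (h3 : Rd3P) (h4 : Rd4P) (h05 : Rd05P)
    (hs1 : Stage1P) (hres : ResP) (hs2 : Stage2P) (hexp : ExpGP) (hfin : FinalP) : SecondP := by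
  intro C R φ η hφ hη
  set γ : ℝ := φ ^ 5 / (2 ^ 34 * (C + 1)) with hγ
  have hγ0 : 0 < γ := by positivity
  set T : ℝ := min (4 * (η / 4) * γ) (η / 4 * φ / 4) with hT
  have hT0 : 0 < T := lt_min (by positivity) (by positivity)
  have hT1 : T ≤ 4 * (η / 4) * γ := min_le_left _ _
  have hT2 : T ≤ η / 4 * φ / 4 := min_le_right _ _
  obtain ⟨ρ₂, p0, p1, p2⟩ := (ev_pos.and ((ev_small 1 1 one_pos).and
    (ev_small (2 * (R : ℝ) ^ 2) (T / 2) (by positivity)))).exists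
  obtain ⟨E, e0, e1, e2⟩ := (ev_pos.and ((ev_small 1 (T / 2) (by positivity)).and
    (ev_small (10 ^ 5 * (8 * ((C : ℝ) + 1) / φ ^ 2)) (ρ₂ * η) (by positivity)))).exists
  obtain ⟨ρ₁, q0, q1, q2⟩ := (ev_pos.and ((ev_small 1 1 one_pos).and
    (ev_small (2 * (R : ℝ) ^ 2) (E / 2) (by positivity)))).exists
  obtain ⟨ν₁, n0, n1, n2, n3, n4⟩ := (ev_pos.and ((ev_small 1 (1 / 10 ^ 4) (by positivity)).and
    ((ev_small 9 (E / 2) (by positivity)).and ((ev_small 40000 (ρ₁ * η) (by positivity)).and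
      (ev_small 1 (2 * (η / 4) * γ) (by positivity)))))).exists
  obtain ⟨ν, m0, m1, m2, m3, m4⟩ := (ev_pos.and
    ((ev_small (2 * (R : ℝ) + 100) (ν₁ / 2) (by positivity)).and ((ev_small 8 φ hφ).and
      ((ev_small (2 ^ 31 * (C : ℝ) ^ 2) (φ ^ 5) (by positivity)).and (ev_small 4 γ hγ0))))).exists
  refine ⟨ν, m0, fun S B => ?_⟩
  obtain ⟨M, hM⟩ := hs1 R B
  obtain ⟨U₁, hU₁⟩ := hacc C R (ν₁ / 4) (by positivity)
  obtain ⟨Lp, l1, l2, l3, l4⟩ := ((eventually_ge_atTop 1).and ((ev_big ν B m0).and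
    ((ev_big ν₁ (M + 1) n0).and
      (ev_big (8 * ((C : ℝ) + 1) * E / φ ^ 2) 1 (by positivity))))).exists
  obtain ⟨U₂, hU₂⟩ := eventually_atTop.1 ((eventually_ge_atTop 16).and ((eventually_ge_atTop U₁).and
    ((ev_big ρ₁ 2 q0).and (ev_big ρ₂ 2 p0))))
  refine ⟨Lp, U₂, fun u hu k hsc V _ m lab fl poor r hc hf hb ht Lv _ z h σ y Lt Fx l0 hp => ?_⟩
  obtain ⟨u1, u2, u3, u4⟩ := hU₂ u hu
  have hR : (0 : ℝ) ≤ R := Nat.cast_nonneg _
  have hRν : 0 ≤ (R : ℝ) * ν := by positivity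
  have u6 : (u : ℝ) ≤ (u : ℝ) ^ 6 := by
    have : (1 : ℝ) ≤ u := by exact_mod_cast (by omega : 1 ≤ u)
    exact le_self_pow₀ this (by norm_num)
  let D : Dat V Lv k R := ⟨m, lab, fl, poor, r, z, h, σ, y, Lt, Fx, l0⟩
  have H : D.Hyp C φ η ν u B S Lp :=
    ⟨hc, hsc, u1, hf, hb, ht, hp, hφ, hη, m0, by nlinarith, l1, l2⟩
  have hη1 : η ≤ 1 / 16 := (hdeg V Lv k R D C φ η ν u B S Lp H).2.2.1
  have PF := hprob V Lv k R D C φ η ν u B S Lp H
  have EQ := heq V Lv k R D C φ η ν u B S Lp H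
  obtain ⟨om, A⟩ := hU₁ V Lv k D φ η ν u B S Lp H u2 (η / 4) PF
  have z4 : 0 ≤ ν₁ / 4 := by positivity
  obtain ⟨R0, R5⟩ := h05 V Lv k R D C φ η ν u B S Lp H (ν₁ / 4) ν₁ om PF A z4 (by linarith)
  have c1 : (2 * (R : ℝ) + 30) * ν + ν₁ / 4 ≤ ν₁ := by nlinarith
  have R1 : D.RD1 (η / 4) ν₁ om :=
    ⟨h1a V Lv k R D C φ η ν u B S Lp H _ _ om PF EQ A z4 c1,
      h1b V Lv k R D C φ η ν u B S Lp H _ _ om PF EQ A z4 c1,
      h1c V Lv k R D C φ η ν u B S Lp H _ _ om PF EQ A z4 c1⟩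
  have R2 := h2 V Lv k R D C φ η ν u B S Lp H (ν₁ / 4) ν₁ om PF EQ A R0 z4 (by nlinarith)
  have R3 := h3 V Lv k R D C φ η ν u B S Lp H (ν₁ / 4) om PF EQ A R0 z4 (by linarith)
  have R4 := h4 V Lv k R D C φ η ν u B S Lp H (ν₁ / 4) om PF EQ A R0 z4 (by linarith)
  obtain ⟨lam, a1, a2, a3⟩ := hM V Lv k D C φ η ν u S Lp H (η / 4) ν₁ ρ₁ om R0 R1 R2 R3 n0
    (by linarith) q0 (by linarith) n3 l3 (u3.trans (mul_le_mul_of_nonneg_left u6 q0.le))
  have μ0 : 0 ≤ η / 4 := by positivity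
  have μ1 : η / 4 ≤ 1 := by linarith
  have νle : ν ≤ ν₁ := by nlinarith
  have b1 := (hres V Lv k R D C φ η ν u B S Lp H (η / 4) ν₁ 0 _ om lam R0 R1 a1 μ0 μ1).1
  have b2 : D.ResOk om lam E := b1.mono (by linarith)
  obtain ⟨lam', d1, d2⟩ := hs2 V Lv k R D C φ η ν u B S Lp H (η / 4) ν₁ _ E ρ₂ om lam R0 R1 R4 a1
    a2 a3 b2 μ0 μ1 (by linarith) e0 p0 (by linarith)
    (by rw [show 10 ^ 5 * (8 * ((C : ℝ) + 1) * E / φ ^ 2) =
      10 ^ 5 * (8 * ((C : ℝ) + 1) / φ ^ 2) * E by ring]; exact e2) l4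
    (u4.trans (mul_le_mul_of_nonneg_left u6 p0.le))
  obtain ⟨f1, f2⟩ := hres V Lv k R D C φ η ν u B S Lp H (η / 4) ν₁ _ _ om lam' R0 R1 d1 μ0 μ1
  exact hfin V Lv k R D C φ η ν u B S Lp H (η / 4) ν₁ _ _ γ om lam' R0 R5 d1
    (f1.mono (by linarith)) (f2 m2 (by linarith)) d2
    (hexp V Lv k R D C φ η ν u B S Lp H m2 m3) μ0 hγ0.le m4 (by linarith)

theorem blkOf (h1 : BlkMinP) (h2 : BlkBigP) (h3 : BlkLabP) : BlkP := by
  intro C
  refine ⟨4 * (C + 1), 1 / (60 * ((C + 1 : ℕ) : ℝ) ^ 3) / 2, by positivity, fun k V _ m hc hf => ?_⟩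
  have hc' : Fintype.card V ≤ (C + 1) * k := hc.trans (Nat.mul_le_mul_right _ (Nat.le_succ _))
  obtain ⟨r, hr⟩ := h1 V k m (1 / (60 * ((C + 1 : ℕ) : ℝ) ^ 3)) hf (by positivity)
  exact h3 V k (C + 1) m r _ hf hc' hr (h2 V k (C + 1) m r hf (Nat.le_add_left _ _) hc' hr)

end Pool.Agent.MP_d20a68_co.T

end

section

/-! The choice of the gap and the splitting theorem. -/

set_option autoImplicit false
set_option linter.unusedSectionVars false
set_option linter.unusedVariables false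
open Finset Filter Topology
open scoped Classical

namespace Pool.Agent.MP_d20a68_co.T

open Pool.Agent.MP_d20a68_co.Poly

variable {V : Type} [Fintype V] {k R : ℕ}

lemma Typ.mono {m : Fin k → V → V} {lab : V → Fin R} {fl : Fin R → Fin R}
    {poor r : Fin R → Fin R → Prop} {S Lp Lp' : ℕ} (h : Typ m lab fl poor r S Lp) (hl : Lp' ≤ Lp) :
    Typ m lab fl poor r S Lp' :=
  { h with
    big := fun a b hp => (h.big a b hp).imp id fun e => (Nat.mul_le_mul_right _ hl).trans e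
    rich := fun a b hp hb => (Nat.mul_le_mul_right _ hl).trans (h.rich a b hp hb) }

lemma NN_symm {m : Fin k → V → V} (hf : Fac m) (lab : V → Fin R) (a b : Fin R) :
    NN m lab a b = NN m lab b a := by
  unfold NN
  rw [← ndS_mate hf]
  exact ndS_congr fun c v => by rw [hf.inv]; exact and_comm

lemma Blk.deg {m : Fin k → V → V} {lab : V → Fin R} {fl : Fin R → Fin R} {φ : ℝ}
    (hb : Blk m lab fl φ) (hφ : 0 ≤ φ) (hk : 4 ≤ k) (v : V) :
    φ / 4 * k ≤ (cnt fun c => lab (m c v) = fl (lab v) : ℝ) := by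
  have hv : v ∈ Vl lab (lab v) := by simp [Vl]
  have h1 := hb.exp (lab v) {v} (singleton_subset_iff.2 hv) ∅ (empty_subset _)
  have h2 := hb.big v
  have h3 : (Vl lab (lab v) \ {v}).card + 1 = (Vl lab (lab v)).card := by
    rw [sdiff_singleton_eq_erase, card_erase_add_one hv]
  have h4 : eb m (Vl lab (lab v) \ {v}) ∅ = 0 := by simp [eb, nd, cnt]
  have h5 : eb m {v} (Vl lab (fl (lab v)) \ ∅) = cnt fun c => lab (m c v) = fl (lab v) := by
    unfold eb
    rw [ndS_sum_in (fun c w => m c w ∈ Vl lab (fl (lab v)) \ ∅) (fun w => w ∈ ({v} : Finset V)),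
      show univ.filter (fun w => w ∈ ({v} : Finset V)) = {v} by ext; simp, sum_singleton]
    exact cntS_congr fun c => by simp [Vl]
  rw [h4, h5, add_zero] at h1
  simp only [card_singleton, card_empty, add_zero, Nat.cast_one, mul_one, sdiff_empty] at h1
  refine le_trans ?_ h1
  have h6 : k ≤ 4 * ((Vl lab (lab v) \ {v}).card + (Vl lab (fl (lab v))).card) := by omega
  have h7 : (k : ℝ) ≤ 4 * (((Vl lab (lab v) \ {v}).card + (Vl lab (fl (lab v))).card : ℕ) : ℝ) := by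
    exact_mod_cast h6
  nlinarith

lemma cnt_le_Vl {m : Fin k → V → V} (hf : Fac m) (lab : V → Fin R) (b : Fin R) (v : V) :
    (cnt fun c => lab (m c v) = b) ≤ (Vl lab b).card :=
  card_le_card_of_injOn (fun c => m c v) (fun c hc => by simpa [Vl] using hc)
    fun c _ c' _ h => hf.inj c c' v h

lemma NN_inside {m : Fin k → V → V} (hf : Fac m) {lab : V → Fin R} {fl : Fin R → Fin R}
    (hi : ∀ a, fl (fl a) = a) {d : ℝ} (hd0 : 0 ≤ d)
    (hd : ∀ v, d ≤ (cnt fun c => lab (m c v) = fl (lab v) : ℝ)) (a : Fin R) :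
    NN m lab a (fl a) = 0 ∨ d ^ 2 ≤ NN m lab a (fl a) := by
  by_cases h0 : NN m lab a (fl a) = 0
  · exact Or.inl h0
  right
  obtain ⟨e, he'⟩ : ∃ e : Fin k × V, lab e.2 = a ∧ lab (m e.1 e.2) = fl a := by
    by_contra hn
    exact h0 (cntS_zero fun e he => hn ⟨e, he⟩)
  have h1 : d ≤ ((Vl lab a).card : ℝ) := by
    refine (hd (m e.1 e.2)).trans ?_
    rw [he'.2, hi]
    exact_mod_cast cnt_le_Vl hf lab a _
  have h2 : NN m lab a (fl a) = ∑ v ∈ Vl lab a, cnt fun c => lab (m c v) = fl (lab v) := by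
    unfold NN
    rw [ndS_sum_in (fun c v => lab (m c v) = fl a) (fun v => lab v = a)]
    refine sum_congr (by ext; simp [Vl]) fun v hv => ?_
    have hv' : lab v = a := by simpa [Vl] using hv
    rw [hv']
  rw [h2, Nat.cast_sum]
  have h3 := card_nsmul_le_sum (Vl lab a) (fun v => ((cnt fun c => lab (m c v) = fl (lab v) : ℕ) : ℝ))
    d fun v _ => hd v
  rw [nsmul_eq_mul] at h3
  nlinarith

lemma exists_gap {ι : Type} [Fintype ι] (N : ι → ℕ) (s : ℕ → ℕ) (hs : Monotone s) :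
    ∃ i ≤ Fintype.card ι, ∀ j, N j ≤ s i ∨ s (i + 1) ≤ N j := by
  by_contra hn
  push Not at hn
  choose f hf using fun i : Fin (Fintype.card ι + 1) => hn i (Nat.lt_succ_iff.1 i.2)
  have hinj : Function.Injective f := fun i j hij => by
    have a := hf i
    have b := hf j
    rw [hij] at a
    by_contra hne
    rcases lt_or_gt_of_ne (fun e => hne (Fin.ext e) : (i : ℕ) ≠ j) with h | h
    · have := hs (show (i : ℕ) + 1 ≤ j from h); omega
    · have := hs (show (j : ℕ) + 1 ≤ i from h); omega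
  have := Fintype.card_le_of_injective f hinj
  simp at this

lemma exists_scale (U : ℕ) (hU : 1 ≤ U) (k : ℕ) (hk : U ^ 8 ≤ k) : ∃ u, U ≤ u ∧ Sc k u := by
  have hb : ∀ u, u ^ 8 ≤ k → u ≤ k := fun u hu => (Nat.le_self_pow (by norm_num) u).trans hu
  refine ⟨Nat.findGreatest (fun u => u ^ 8 ≤ k) k, Nat.le_findGreatest (hb U hk) hk,
    Nat.findGreatest_spec (P := fun u => u ^ 8 ≤ k) (hb U hk) hk, ?_⟩
  set u := Nat.findGreatest (fun u => u ^ 8 ≤ k) k with hu
  have h1 : U ≤ u := Nat.le_findGreatest (hb U hk) hk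
  have h2 : ¬ (u + 1) ^ 8 ≤ k := fun h =>
    absurd (Nat.le_findGreatest (P := fun u => u ^ 8 ≤ k) (hb _ h) h) (by omega)
  have h3 : (u + 1) ^ 8 ≤ (2 * u) ^ 8 := Nat.pow_le_pow_left (by omega) 8
  rw [mul_pow] at h3
  omega

theorem mainOf (hb : BlkP) (h1 : FirstP) (h2 : SecondP) : MainP := by
  intro C
  obtain ⟨R, φ, hφ, hB⟩ := hb C
  have key : ∀ S : ℕ, ∃ Lp U : ℕ, ∀ u, U ≤ u → ∀ k, Sc k u → ∀ (V : Type) [Fintype V]
      (m : Fin k → V → V) (lab : V → Fin R) (fl : Fin R → Fin R) (poor r : Fin R → Fin R → Prop),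
      Fintype.card V ≤ C * k → Fac m → Blk m lab fl φ → Typ m lab fl poor r S Lp →
      (∀ v, φ / 4 * k ≤ (cnt fun c => lab (m c v) = fl (lab v) : ℝ)) →
      ∀ (q : ℕ) (p : Fin q → ℕ), (∀ i, p i ≤ u ^ 5) → ∑ i, p i = k → Dec m p := fun S => by
    obtain ⟨η, hη, a1⟩ := h1 C R S (φ / 4) (by positivity)
    obtain ⟨ν, hν, a2⟩ := h2 C R φ η hφ hη
    obtain ⟨B, L₁, U₁, a3⟩ := a1 ν hν
    obtain ⟨L₂, U₂, a4⟩ := a2 S B
    refine ⟨max L₁ L₂, max U₁ U₂, fun u hu k hsc V _ m lab fl poor r hc hf hbl ht hd q p hp hs => ?_⟩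
    obtain ⟨Lv, _, z, h, σ, y, Lt, Fx, l0, g1, g2⟩ := a3 u (le_of_max_le_left hu) k hsc V m lab fl
      poor r hc hf (ht.mono (le_max_left _ _)) hd q p hp hs
    exact ⟨Lv, inferInstance, σ, y, g1, a4 u (le_of_max_le_right hu) k hsc V m lab fl poor r hc hf
      hbl (ht.mono (le_max_right _ _)) Lv z h σ y Lt Fx l0 g2⟩
  choose F U hF using key
  let s : ℕ → ℕ := fun i => Nat.rec 0 (fun _ x => max x (F x)) i
  have s1 : ∀ i, s (i + 1) = max (s i) (F (s i)) := fun i => rfl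
  have hs : Monotone s := monotone_nat_of_le_succ fun i => by rw [s1]; exact le_max_left _ _
  set U₀ := 16 + ∑ i ∈ range (R * R + 1), U (s i) with hU₀
  obtain ⟨K₁, hK₁⟩ := eventually_atTop.1 (ev_big ((φ / 4) ^ 2) (s (R * R + 1)) (by positivity))
  refine ⟨max (U₀ ^ 8) K₁, fun k hk V _ m hc hf q p hp hsum => ?_⟩
  obtain ⟨u, hu, hsc⟩ := exists_scale U₀ (by omega) k (le_of_max_le_left hk)
  have u16 : 16 ≤ u := by omega
  have k4 : 4 ≤ k := le_trans (by norm_num) ((Nat.pow_le_pow_left u16 8).trans hsc.1)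
  obtain ⟨lab, fl, hbl⟩ := hB k V m hc hf
  have hd := hbl.deg hφ.le k4
  obtain ⟨i, hi, hg⟩ := exists_gap (fun t : Fin R × Fin R => NN m lab t.1 t.2) (fun i => s i * k)
    fun i j h => Nat.mul_le_mul_right _ (hs h)
  rw [Fintype.card_prod, Fintype.card_fin] at hi
  have hFi : F (s i) ≤ s (i + 1) := by rw [s1]; exact le_max_right _ _
  let poor : Fin R → Fin R → Prop := fun a b => b ≠ fl a ∧ NN m lab a b ≤ s i * k
  have psym : ∀ a b, poor a b → poor b a := fun a b h =>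
    ⟨fun e => h.1 (by rw [e, hbl.inv]), by rw [NN_symm hf]; exact h.2⟩
  have rich : ∀ a b, ¬ poor a b → b ≠ fl a → F (s i) * k ≤ NN m lab a b := fun a b h hb =>
    ((hg (a, b)).resolve_left fun e => h ⟨hb, e⟩).trans' (Nat.mul_le_mul_right _ hFi)
  have ht : Typ m lab fl poor (Relation.EqvGen fun x y => ¬ poor x (fl y)) (s i) (F (s i)) :=
    { inv := hbl.inv
      psym := psym
      pin := fun a h => h.1 rfl
      psm := fun a b h => h.2
      big := fun a b h => by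
        by_cases hb : b = fl a
        · subst hb
          refine (NN_inside hf hbl.inv (by positivity) hd a).imp id fun e => ?_
          have e1 := hK₁ k (le_of_max_le_right hk)
          have e2 : (F (s i) : ℝ) ≤ s (R * R + 1) := by
            exact_mod_cast hFi.trans (hs (Nat.succ_le_succ hi))
          have e3 : (0 : ℝ) ≤ k := Nat.cast_nonneg _
          have : ((F (s i) * k : ℕ) : ℝ) ≤ NN m lab a (fl a) := by
            push_cast
            nlinarith [mul_le_mul_of_nonneg_right (e2.trans e1) e3]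
          exact_mod_cast this
        · exact Or.inr (rich a b h hb)
      rich := rich
      eqv := Relation.EqvGen.is_equivalence _
      rfl' := fun a b h => by
        induction h with
        | rel x y h =>
          refine Relation.EqvGen.symm _ _ (Relation.EqvGen.rel _ _ fun e => h (psym _ _ ?_))
          rwa [hbl.inv] at e
        | refl x => exact Relation.EqvGen.refl _
        | symm x y _ ih => exact Relation.EqvGen.symm _ _ ih
        | trans x y w _ _ ih ih' => exact Relation.EqvGen.trans _ _ _ ih ih'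
      neu := fun a b h => Relation.EqvGen.rel _ _ (by rwa [hbl.inv])
      gen := fun a b h => h }
  have hUi : U (s i) ≤ u := by
    have := single_le_sum (f := fun i => U (s i)) (fun _ _ => Nat.zero_le _)
      (mem_range.2 (show i < R * R + 1 by omega))
    omega
  refine hF (s i) u hUi k hsc V m lab fl poor _ hc hf hbl ht hd q p (fun j => ?_) hsum
  refine (Nat.pow_le_pow_iff_left (n := 2) (by norm_num)).1 ((hp j).trans (hsc.2.trans ?_))
  have : 16 ^ 2 ≤ u ^ 2 := Nat.pow_le_pow_left u16 2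
  calc 256 * u ^ 8 ≤ u ^ 2 * u ^ 8 := Nat.mul_le_mul_right _ this
    _ = (u ^ 5) ^ 2 := by ring

/-- The final statement from its parts. -/
theorem denseOf (hm : MainP) (hr : RegP) (hf : FinP) :
    ∀ C : ℕ, ∃ K : ℕ, ∀ k : ℕ, K ≤ k →
      ∀ (V : Type) [Fintype V] (G : SimpleGraph V), Fintype.card V ≤ C * k →
        (∃ f : G.edgeSet → Fin k, ∀ e₁ e₂ : G.edgeSet, e₁ ≠ e₂ →
            (∃ v : V, v ∈ e₁.1 ∧ v ∈ e₂.1) → f e₁ ≠ f e₂) →
        ∀ (q : ℕ) (p : Fin q → ℕ), (∀ i, p i ^ 2 ≤ k) → (∑ i, p i) = k →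
          ∀ (c : ℕ → Fin q) (L : G.edgeSet → Finset ℕ),
            (∀ e i, p i ≤ ((L e).filter (fun x => c x = i)).card) →
            ∃ f : G.edgeSet → ℕ, (∀ e, f e ∈ L e) ∧
              ∀ e₁ e₂ : G.edgeSet, e₁ ≠ e₂ →
                (∃ v : V, v ∈ e₁.1 ∧ v ∈ e₂.1) → f e₁ ≠ f e₂ := by
  intro C
  obtain ⟨K, hK⟩ := hm (4 * C + 12)
  refine ⟨max K 1, fun k hk V _ G hc hcol q p hp hs c L hL => ?_⟩
  obtain ⟨W, _, m, ι, a1, a2, a3, a4⟩ := hr V G k hcol
  have k1 : 1 ≤ k := le_of_max_le_right hk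
  refine hf V W G k m ι q p a1 a3 a4 (hK k (le_of_max_le_left hk) W m (a2.trans ?_) a1 q p hp hs)
    c L hL
  nlinarith

end Pool.Agent.MP_d20a68_co.T

end

section

/-! One stage of moves through the hub. -/

set_option autoImplicit false
set_option linter.unusedSectionVars false
set_option linter.unusedVariables false
open Finset
open scoped Classical

namespace Pool.Agent.MP_d20a68_co.T

open Pool.Agent.MP_d20a68_co.Poly

variable {V Lv : Type} [Fintype V] [Fintype Lv] {k R : ℕ}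

/-- Kinds of moves: direction, side at the hub, level, type. -/
abbrev TT_SStage (Lv : Type) (R : ℕ) := (Bool × Bool) × Lv × Fin R × Fin R

/-- The level before the move. -/
def src_SStage (h : Lv) (t : TT_SStage Lv R) : Lv := if t.1.1 = true then t.2.1 else h

/-- The level after the move. -/
def dst_SStage (h : Lv) (t : TT_SStage Lv R) : Lv := if t.1.1 = true then h else t.2.1

/-- The darts available for a move. -/
def av_SStage (D : Dat V Lv k R) (Mv : Fin k → V → Prop) (lam : Fin k → V → Lv)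
    (t : TT_SStage Lv R) (c : Fin k) (v : V) : Prop :=
  Mv c v ∧ lam c v = src_SStage D.h t ∧ D.Ty t.2.2.1 t.2.2.2 c v ∧ D.Sd t.2.1 true false c v ∧
    D.Sd D.h t.1.2 (!t.1.2) c v

lemma cardF_SStage {α : Type} [Fintype α] (P : α → Prop) {i : DecidablePred P} :
    (@filter α P i univ).card = cnt P := by
  unfold cnt; congr

lemma cntJ_SStage {T : Type} [Fintype T] (nn : T → ℕ) (P : T → Prop) :
    (cnt fun j : (Σ t : T, Fin (nn t)) => P j.1) = ∑ t, if P t then nn t else 0 := by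
  rw [cntS_sum, Fintype.sum_sigma]
  refine sum_congr rfl fun t _ => ?_
  by_cases h : P t <;> simp [h]

lemma cntX_SStage (nn : TT_SStage Lv R → ℕ) (P : Bool × Bool → Prop) (w : Lv × Fin R × Fin R) :
    (cnt fun j : (Σ t, Fin (nn t)) => P j.1.1 ∧ j.1.2 = w) =
      ∑ x, if P x then nn (x, w) else 0 := by
  rw [cntJ_SStage nn (fun t => P t.1 ∧ t.2 = w), Fintype.sum_prod_type]
  refine sum_congr rfl fun x _ => ?_
  refine (sum_eq_single w (fun b _ hb => if_neg fun h => hb h.2) (by simp)).trans ?_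
  by_cases h : P x <;> simp [h]

lemma ndv_SStage (P : Fin k → V → Prop) (v : V) :
    nd (fun c w => w = v ∧ P c w) = cnt fun c => P c v := by
  rw [ndS_sum_in P (fun w => w = v), filter_eq' univ v]
  simp

lemma ineq_SStage {m1 m2 c1 c2 y1 y2 n ε α ρ η : ℝ} (hε : 0 < ε) (hρ : 0 < ρ) (hρ1 : ρ ≤ 1)
    (hη : 0 < η) (hα : 1000 * ε ≤ α * ρ * η) (hn : 0 < n) (hy1 : 0 < y1) (hy2 : 0 < y2)
    (h1 : m1 ≤ 22 * (ε / η) * y1 * n) (h2 : m2 ≤ 22 * (ε / η) * y2 * n) (k1 : ρ * y1 / 2 ≤ c1)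
    (k2 : ρ * y2 / 2 ≤ c2) : 2 * m1 + 4 * y1 * (2 * m1 / c1 + 2 * m2 / c2) < α * y1 * n := by
  set θ := ε / (ρ * η) with hθ
  have θ0 : 0 < θ := by positivity
  have e1 : ε / η = θ * ρ := by rw [hθ]; field_simp
  have e2 : 1000 * θ ≤ α := by
    rw [hθ, ← mul_div_assoc, div_le_iff₀ (by positivity)]
    linarith
  have key : ∀ m c y : ℝ, 0 < y → m ≤ 22 * (ε / η) * y * n → ρ * y / 2 ≤ c →
      2 * m / c ≤ 88 * θ * n := fun m c y hy a b => by
    have c0 : 0 < c := lt_of_lt_of_le (by positivity) b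
    rw [div_le_iff₀ c0]
    rw [e1] at a
    have := mul_le_mul_of_nonneg_left b (by positivity : 0 ≤ 88 * θ * n)
    nlinarith
  have a1 := key m1 c1 y1 hy1 h1 k1
  have a2 := key m2 c2 y2 hy2 h2 k2
  have z : 0 < θ * (y1 * n) := by positivity
  have a3 : m1 ≤ 22 * (θ * (y1 * n)) := by
    rw [e1] at h1
    nlinarith
  have a4 : 4 * y1 * (2 * m1 / c1 + 2 * m2 / c2) ≤ 4 * y1 * (176 * θ * n) :=
    mul_le_mul_of_nonneg_left (by linarith) (by positivity)
  have a5 := mul_le_mul_of_nonneg_right e2 (by positivity : 0 ≤ y1 * n)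
  nlinarith

lemma keys_SStage (nn : TT_SStage Lv R → ℕ) (l : Lv) (a b : Fin R) :
    (cnt fun j : (Σ t, Fin (nn t)) => s(j.1.2.2.1, j.1.2.2.2) = s(a, b) ∧ j.1.2.1 = l) ≤
      ∑ x, nn (x, l, a, b) + ∑ x, nn (x, l, b, a) := by
  have e : ∀ w, (cnt fun j : (Σ t, Fin (nn t)) => True ∧ j.1.2 = w) = ∑ x, nn (x, w) := fun w => by
    rw [cntX_SStage nn (fun _ => True) w]
    simp
  rw [← e, ← e]
  refine le_trans (cntS_mono fun j hj => ?_) (cntS_or_le _ _)
  obtain ⟨⟨x, l', a', b'⟩, i⟩ := j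
  obtain ⟨h1, h2⟩ := hj
  dsimp only at h1 h2 ⊢
  rcases Sym2.eq_iff.1 h1 with h | h
  · exact Or.inl ⟨trivial, by rw [h2, h.1, h.2]⟩
  · exact Or.inr ⟨trivial, by rw [h2, h.1, h.2]⟩

lemma pick_SStage (hG : GreedyP) (D : Dat V Lv k R) (Mv : Fin k → V → Prop)
    (lam : Fin k → V → Lv) (Ls : Finset Lv) (act : Fin R → Fin R → Prop) (N : Fin R → Fin R → ℝ)
    (ε α ρ η : ℝ) (nn : TT_SStage Lv R → ℕ) (hf : Fac D.m) (hv : Val D.m D.σ lam)
    (hM : ∀ c v, Mv c v → Mv c (D.m c v)) (hh : D.h ∉ Ls) (hk : 0 < k) (hε : 0 < ε) (hρ : 0 < ρ)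
    (hρ1 : ρ ≤ 1) (hη : 0 < η) (hη1 : η ≤ 1) (hα : 1000 * ε ≤ α * ρ * η)
    (hact : ∀ a b, act a b → act b a) (hN : ∀ a b, N a b = N b a)
    (hpos : ∀ a b, act a b → ∀ l ∈ Ls, 1 ≤ ε * D.y l * N a b / k)
    (hs : ∑ l ∈ Ls, D.y l ≤ k) (hyh : η * k ≤ D.y D.h) (hy : ∀ l, 2 ≤ ρ * D.y l)
    (hdeg : ∀ v, ∀ l ∈ insert D.h Ls, (cnt fun c => Mv c v ∧ lam c v = l) ≤ 2 * D.y l)
    (h0 : ∀ t, nn t ≠ 0 → t.2.1 ∈ Ls ∧ act t.2.2.1 t.2.2.2 ∧
      α * D.y (src_SStage D.h t) * N t.2.2.1 t.2.2.2 / k ≤ (nd (av_SStage D Mv lam t) : ℝ))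
    (hb : ∀ l ∈ Ls, ∀ a b, act a b →
      ((∑ x, nn (x, l, a, b) : ℕ) : ℝ) ≤ 11 * ε * D.y l * N a b / k) :
    ∃ pick : (Σ t, Fin (nn t)) → Fin k × V,
      (∀ j, av_SStage D Mv lam j.1 (pick j).1 (pick j).2) ∧
      (∀ j j', pick j = pick j' ∨ pick j = ((pick j').1, D.m (pick j').1 (pick j').2) → j = j') ∧
      ∀ v l, (cnt fun j : (Σ t, Fin (nn t)) =>
        (src_SStage D.h j.1 = l ∨ dst_SStage D.h j.1 = l) ∧
          ((pick j).2 = v ∨ D.m (pick j).1 (pick j).2 = v) : ℝ) ≤ (R : ℝ) ^ 2 * ρ * D.y l := by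
  have k0 : (0 : ℝ) < k := by exact_mod_cast hk
  have y0 : ∀ l, (0 : ℝ) < D.y l := fun l => by
    have := hy l
    by_contra hn
    nlinarith [not_lt.1 hn]
  have hj : ∀ j : (Σ t, Fin (nn t)), nn j.1 ≠ 0 := fun j => by have := j.2.2; omega
  have cap0 : ∀ l, ρ * D.y l / 2 ≤ (⌊ρ * D.y l⌋₊ : ℝ) := fun l => by
    have := Nat.lt_floor_add_one (ρ * D.y l)
    have := hy l
    linarith
  have n0 : ∀ l ∈ Ls, ∀ a b, act a b → 0 < N a b / k := fun l hl a b h => by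
    have h1 := hpos a b h l hl
    rw [mul_div_assoc] at h1
    by_contra hn
    have := mul_nonneg (mul_pos hε (y0 l)).le (neg_nonneg.2 (not_lt.1 hn))
    linarith
  have hb2 : ∀ l ∈ Ls, ∀ a b, act a b →
      (cnt fun j : (Σ t, Fin (nn t)) => s(j.1.2.2.1, j.1.2.2.2) = s(a, b) ∧ j.1.2.1 = l : ℝ) ≤
        22 * ε * D.y l * (N a b / k) := fun l hl a b h => by
    have h1 : (cnt fun j : (Σ t, Fin (nn t)) =>
        s(j.1.2.2.1, j.1.2.2.2) = s(a, b) ∧ j.1.2.1 = l : ℝ) ≤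
        ((∑ x, nn (x, l, a, b) : ℕ) : ℝ) + ((∑ x, nn (x, l, b, a) : ℕ) : ℝ) := by
      exact_mod_cast keys_SStage nn l a b
    have h2 := hb l hl a b h
    have h3 := hb l hl b a (hact _ _ h)
    rw [hN b a] at h3
    rw [mul_div_assoc] at h2 h3
    linarith
  have hmm : ∀ l ∈ Ls, ∀ a b, act a b → ∀ l', l' = l ∨ l' = D.h →
      (cnt fun j : (Σ t, Fin (nn t)) =>
        (src_SStage D.h j.1, s(j.1.2.2.1, j.1.2.2.2)) = (l', s(a, b)) ∨
        (dst_SStage D.h j.1, s(j.1.2.2.1, j.1.2.2.2)) = (l', s(a, b)) : ℝ) ≤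
        22 * (ε / η) * D.y l' * (N a b / k) := fun l hl a b h l' hl' => by
    have p0 := n0 l hl a b h
    have e1 : ε ≤ ε / η := by rw [le_div_iff₀ hη]; nlinarith
    rcases hl' with rfl | rfl
    · refine le_trans ?_ ((hb2 l' hl a b h).trans ?_)
      · refine Nat.cast_le.2 (cntS_mono fun j hj' => ?_)
        have ne : D.h ≠ l' := fun e => hh (e ▸ hl)
        unfold src_SStage dst_SStage at hj'
        rcases hj' with e | e <;> obtain ⟨e1, e2⟩ := Prod.mk.inj e <;> refine ⟨e2, ?_⟩ <;>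
          split_ifs at e1 <;> first | exact e1 | exact absurd e1 ne
      · have := y0 l'
        gcongr
    · have h1 : (cnt fun j : (Σ t, Fin (nn t)) =>
          (src_SStage D.h j.1, s(j.1.2.2.1, j.1.2.2.2)) = (D.h, s(a, b)) ∨
          (dst_SStage D.h j.1, s(j.1.2.2.1, j.1.2.2.2)) = (D.h, s(a, b))) ≤
          ∑ l ∈ Ls, cnt fun j : (Σ t, Fin (nn t)) =>
            s(j.1.2.2.1, j.1.2.2.2) = s(a, b) ∧ j.1.2.1 = l := by
        rw [← cntS_fiber_in (fun j : (Σ t, Fin (nn t)) => s(j.1.2.2.1, j.1.2.2.2) = s(a, b))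
          (fun j => j.1.2.1) Ls]
        refine cntS_mono fun j hj' => ⟨?_, (h0 _ (hj j)).1⟩
        rcases hj' with e | e <;> exact (Prod.mk.inj e).2
      refine (Nat.cast_le.2 h1).trans ?_
      rw [Nat.cast_sum]
      refine (sum_le_sum fun l hl => hb2 l hl a b h).trans ?_
      rw [← sum_mul, ← mul_sum]
      have h2 : ∑ l ∈ Ls, (D.y l : ℝ) ≤ k := by exact_mod_cast hs
      have h3 : ε * ∑ l ∈ Ls, (D.y l : ℝ) ≤ ε / η * D.y D.h := by
        rw [div_mul_eq_mul_div, le_div_iff₀ hη]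
        have := mul_le_mul_of_nonneg_left h2 hη.le
        nlinarith
      nlinarith
  have key : ∀ (t : TT_SStage Lv R) c v, av_SStage D Mv lam t c v →
      (src_SStage D.h t, s(t.2.2.1, t.2.2.2)) = (lam c v, s(D.lab v, D.lab (D.m c v))) :=
    fun t c v h => by rw [h.2.1, h.2.2.1.1, h.2.2.1.2]
  obtain ⟨pick, q1, q2, q3⟩ := hG (Fin k × V) V (Σ t, Fin (nn t)) (Lv × Sym2 (Fin R))
    (fun d => (d.1, D.m d.1 d.2)) (fun d => d.2)
    (fun j => univ.filter fun d => av_SStage D Mv lam j.1 d.1 d.2)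
    (fun j => (src_SStage D.h j.1, s(j.1.2.2.1, j.1.2.2.2)))
    (fun j => (dst_SStage D.h j.1, s(j.1.2.2.1, j.1.2.2.2))) (fun κ => ⌊ρ * D.y κ.1⌋₊)
    (fun j => 4 * D.y (src_SStage D.h j.1))
    (fun κ => (cnt fun j : (Σ t, Fin (nn t)) =>
      (src_SStage D.h j.1, s(j.1.2.2.1, j.1.2.2.2)) = κ ∨
      (dst_SStage D.h j.1, s(j.1.2.2.1, j.1.2.2.2)) = κ : ℝ))
    (fun d => by simp only [hf.inv])
    (fun κ => Nat.floor_pos.2 (by have := hy κ.1; linarith)) (fun j => by positivity)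
    (fun κ => by rw [cardF_SStage]) (fun j v => by
      have hs : src_SStage D.h j.1 ∈ insert D.h Ls := by
        unfold src_SStage
        split_ifs
        · exact mem_insert_of_mem (h0 _ (hj j)).1
        · exact mem_insert_self _ _
      have h1 := hdeg v _ hs
      rw [← ndv_SStage (fun c w => Mv c w ∧ lam c w = src_SStage D.h j.1) v] at h1
      have h2 := h1
      rw [← ndS_mate hf] at h2
      rw [filter_filter, cardF_SStage]
      have h3 : (cnt fun d : Fin k × V => av_SStage D Mv lam j.1 d.1 d.2 ∧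
          (d.2 = v ∨ D.m d.1 d.2 = v)) ≤ 2 * D.y (src_SStage D.h j.1) +
          2 * D.y (src_SStage D.h j.1) := by
        refine le_trans (le_trans (cntS_mono fun d hd => ?_) (cntS_or_le _ _)) (add_le_add h1 h2)
        exact hd.2.imp (fun e => ⟨e, hd.1.1, hd.1.2.1⟩)
          fun e => ⟨e, hM _ _ hd.1.1, (hv.1 _ _).trans hd.1.2.1⟩
      have h4 : ((cnt fun d : Fin k × V => av_SStage D Mv lam j.1 d.1 d.2 ∧
          (d.2 = v ∨ D.m d.1 d.2 = v) : ℕ) : ℝ) ≤ 2 * D.y (src_SStage D.h j.1) +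
          2 * D.y (src_SStage D.h j.1) := by exact_mod_cast h3
      exact h4.trans (by linarith))
    (fun j j' hne d hd => by
      have a1 := key _ _ _ (mem_filter.1 hd).2
      refine ⟨fun h => hne (a1.trans (key _ _ _ (mem_filter.1 h).2).symm), fun h => hne ?_⟩
      have a2 := key _ _ _ (mem_filter.1 h).2
      dsimp only at a2
      rw [hv.1, hf.inv, Sym2.eq_swap (a := D.lab (D.m d.1 d.2))] at a2
      exact a1.trans a2.symm)
    (fun j => by
      obtain ⟨b1, b2, b3⟩ := h0 _ (hj j)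
      have b4 : src_SStage D.h j.1 = j.1.2.1 ∨ src_SStage D.h j.1 = D.h := by
        unfold src_SStage; split_ifs <;> simp
      have b5 : dst_SStage D.h j.1 = j.1.2.1 ∨ dst_SStage D.h j.1 = D.h := by
        unfold dst_SStage; split_ifs <;> simp
      refine (ineq_SStage hε hρ hρ1 hη hα (n0 _ b1 _ _ b2) (y0 _) (y0 _) (hmm _ b1 _ _ b2 _ b4)
        (hmm _ b1 _ _ b2 _ b5) (cap0 _) (cap0 _)).trans_le ?_
      rw [← mul_div_assoc, cardF_SStage]
      exact b3)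
  refine ⟨pick, fun j => (mem_filter.1 (q1 j)).2, q2, fun v l => ?_⟩
  rw [cntS_fiber _ (fun j : (Σ t, Fin (nn t)) => s(j.1.2.2.1, j.1.2.2.2)), Nat.cast_sum]
  have c1 : (Fintype.card (Sym2 (Fin R)) : ℝ) ≤ (R : ℝ) ^ 2 := by
    have := Fintype.card_le_of_surjective (fun p : Fin R × Fin R => s(p.1, p.2))
      (fun e => Sym2.inductionOn e fun a b => ⟨(a, b), rfl⟩)
    rw [Fintype.card_prod, Fintype.card_fin, ← sq] at this
    exact_mod_cast this
  refine (sum_le_card_nsmul _ _ (ρ * D.y l) fun e _ => ?_).trans ?_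
  · refine le_trans ?_ (Nat.floor_le (mul_pos hρ (y0 l)).le)
    refine Nat.cast_le.2 (le_trans ?_ (q3 v (l, e)))
    rw [cardF_SStage]
    exact cntS_mono fun j h => ⟨h.1.1.imp (fun e' => Prod.ext e' h.2) fun e' => Prod.ext e' h.2,
      h.1.2⟩
  · rw [card_univ, nsmul_eq_mul, mul_assoc]
    exact mul_le_mul_of_nonneg_right c1 (mul_pos hρ (y0 l)).le

lemma cntY_SStage (nn : TT_SStage Lv R → ℕ) (x : Bool × Bool) (a b : Fin R) :
    (cnt fun j : (Σ t, Fin (nn t)) => j.1.1 = x ∧ j.1.2.2 = (a, b)) = ∑ l, nn (x, l, a, b) := by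
  rw [cntS_fiber _ (fun j : (Σ t, Fin (nn t)) => j.1.2.1)]
  refine sum_congr rfl fun l _ => ?_
  have h := (cntX_SStage nn (fun x' => x' = x) (l, a, b)).trans
    ((sum_eq_single x (fun b _ hb => if_neg hb) (by simp)).trans (if_pos rfl))
  rw [← h]
  exact cntS_congr fun j => ⟨fun e => ⟨e.1.1, Prod.ext e.2 e.1.2⟩,
    fun e => ⟨⟨e.1, by rw [e.2]⟩, by rw [e.2]⟩⟩

lemma dstH_SStage {h : Lv} {t : TT_SStage Lv R} (ht : t.2.1 ≠ h) :
    dst_SStage h t = h ↔ t.1.1 = true := by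
  unfold dst_SStage
  by_cases e : t.1.1 = true <;> simp [e, ht]

lemma srcH_SStage {h : Lv} {t : TT_SStage Lv R} (ht : t.2.1 ≠ h) :
    src_SStage h t = h ↔ t.1.1 = false := by
  unfold src_SStage
  by_cases e : t.1.1 = true <;> simp [e, ht]

lemma dstL_SStage {h l : Lv} (hl : h ≠ l) (t : TT_SStage Lv R) :
    dst_SStage h t = l ↔ t.1.1 = false ∧ t.2.1 = l := by
  unfold dst_SStage
  by_cases e : t.1.1 = true <;> simp [e, hl]

lemma srcL_SStage {h l : Lv} (hl : h ≠ l) (t : TT_SStage Lv R) :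
    src_SStage h t = l ↔ t.1.1 = true ∧ t.2.1 = l := by
  unfold src_SStage
  by_cases e : t.1.1 = true <;> simp [e, hl]

lemma abs_SStage {x y a b c d : ℕ} {r : ℝ} (h : (x : ℤ) = y + a + b - c - d)
    (h1 : ((a + b : ℕ) : ℝ) ≤ r) (h2 : ((c + d : ℕ) : ℝ) ≤ r) : |(x : ℝ) - y| ≤ r := by
  have h' := congrArg (fun z : ℤ => (z : ℝ)) h
  push_cast at h' h1 h2
  rw [h', abs_le]
  constructor <;> linarith [Nat.cast_nonneg (α := ℝ) a, Nat.cast_nonneg (α := ℝ) b,
    Nat.cast_nonneg (α := ℝ) c, Nat.cast_nonneg (α := ℝ) d]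

theorem stageS (hP : PlanP) (hG : GreedyP) (hA : ApplyP) : StageP := by
  intro V Lv _ _ k R D Mv lam Ls act N δ ε α ρ η hf hv hM hh hk hε hρ hρ1 hη hη1 hα hact hN hδ0
    hδ1 hsum hb1 hb2 hs1 hs2 hyh hy hdeg hav1 hav2
  obtain ⟨n1, n2, n3, p0, p1, p2, p3⟩ := hP Lv (Fin R) D.h Ls D.y k act N δ ε hh hk hε hact hN hδ0
    hδ1 hsum hb1 hb2 hs1 hs2
  obtain ⟨nn, e1, e0, e2, e3⟩ : ∃ nn : TT_SStage Lv R → ℕ,
      (∀ l a b, nn ((true, true), l, a, b) = n1 l a b) ∧ (∀ w, nn ((true, false), w) = 0) ∧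
      (∀ l a b, nn ((false, true), l, a, b) = n2 l a b) ∧
      ∀ l a b, nn ((false, false), l, a, b) = n3 l a b :=
    ⟨fun t => if t.1.1 = true then (if t.1.2 = true then n1 t.2.1 t.2.2.1 t.2.2.2 else 0) else
      if t.1.2 = true then n2 t.2.1 t.2.2.1 t.2.2.2 else n3 t.2.1 t.2.2.1 t.2.2.2,
      fun _ _ _ => by simp, fun _ => by simp, fun _ _ _ => by simp, fun _ _ _ => by simp⟩
  have h0 : ∀ t, nn t ≠ 0 → t.2.1 ∈ Ls ∧ act t.2.2.1 t.2.2.2 ∧
      α * D.y (src_SStage D.h t) * N t.2.2.1 t.2.2.2 / k ≤ (nd (av_SStage D Mv lam t) : ℝ) := by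
    rintro ⟨⟨x, s⟩, l, a, b⟩ ht
    have h1 : l ∈ Ls ∧ act a b := by
      by_contra hn
      obtain ⟨z1, z2, z3⟩ := p0 l a b (not_and_or.1 hn)
      cases x <;> cases s <;> simp [e0, e1, e2, e3, z1, z2, z3] at ht
    refine ⟨h1.1, h1.2, ?_⟩
    cases x
    · exact hav2 a b h1.2 l h1.1 s
    · cases s
      · exact absurd (e0 _) ht
      · exact hav1 a b h1.2 l h1.1
  obtain ⟨pick, q1, q2, q3⟩ := pick_SStage hG D Mv lam Ls act N ε α ρ η nn hf hv hM hh hk hε hρ hρ1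
    hη hη1 hα hact hN (fun a b h l hl => (hb1 a b h l hl).2) hs1 hyh hy hdeg h0
    (fun l hl a b h => by
      refine le_trans (le_of_eq ?_) (p3 l hl a b h)
      congr 1
      simp only [Fintype.sum_prod_type, Fintype.sum_bool, e0, e1, e2, e3]
      ring)
  obtain ⟨lam', r1, r2, r3, r4⟩ := hA (Fin k × V) (Σ t, Fin (nn t)) Lv
    (fun d => (d.1, D.m d.1 d.2)) (fun d => lam d.1 d.2) pick (fun j => dst_SStage D.h j.1)
    (fun d => by simp only [hf.inv]) (fun d e => hf.ne d.1 d.2 (Prod.mk.inj e).2)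
    (fun d => hv.1 d.1 d.2) q2
  have hj : ∀ j : (Σ t, Fin (nn t)), j.1.2.1 ≠ D.h := fun j e =>
    hh (e ▸ (h0 j.1 (by have := j.2.2; omega)).1)
  have cutj : ∀ j, D.σ (dst_SStage D.h j.1) (pick j).2 ≠
      D.σ (dst_SStage D.h j.1) (D.m (pick j).1 (pick j).2) := fun j => by
    obtain ⟨-, -, -, a1, a2⟩ := q1 j
    unfold dst_SStage
    split_ifs
    · rw [a2.1, a2.2]; simp
    · rw [a1.1, a1.2]; simp
  refine ⟨fun c v => lam' (c, v), ⟨fun c v => r1 (c, v), fun c v => ?_⟩, fun c v hn => ?_,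
    fun l a b => ?_, fun v l => ?_⟩
  · by_cases h : ∀ j, (c, v) ≠ pick j ∧ (c, v) ≠ ((pick j).1, D.m (pick j).1 (pick j).2)
    · beta_reduce
      rw [r3 _ h]
      exact hv.2 c v
    · obtain ⟨j, hj⟩ := not_forall.1 h
      rcases not_and_or.1 hj with e | e
      · have e := not_not.1 e
        have := cutj j
        rw [← r2 j, ← e] at this
        exact this
      · obtain ⟨rfl, rfl⟩ := Prod.mk.inj (not_not.1 e)
        beta_reduce
        rw [r1 (pick j), r2, hf.inv]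
        exact (cutj j).symm
  · refine r3 _ fun j => ⟨fun e => hn ?_, fun e => hn ?_⟩
    · have := (q1 j).1
      rwa [← e] at this
    · obtain ⟨rfl, rfl⟩ := Prod.mk.inj e
      exact hM _ _ (q1 j).1
  · have h := r4 fun d l' => Mv d.1 d.2 ∧ l' = l ∧ D.σ l d.2 = true ∧ D.lab d.2 = a ∧
      D.lab (D.m d.1 d.2) = b
    have c1 : ∀ j l', (Mv (pick j).1 (pick j).2 ∧ l' = l ∧ D.σ l (pick j).2 = true ∧
        D.lab (pick j).2 = a ∧ D.lab (D.m (pick j).1 (pick j).2) = b) ↔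
        (l' = l ∧ D.σ l (pick j).2 = true) ∧ j.1.2.2 = (a, b) := fun j l' => by
      obtain ⟨a0, -, a1, -, -⟩ := q1 j
      rw [a1.1, a1.2, Prod.ext_iff]
      tauto
    have c2 : ∀ j l', (Mv (pick j).1 (D.m (pick j).1 (pick j).2) ∧ l' = l ∧
        D.σ l (D.m (pick j).1 (pick j).2) = true ∧ D.lab (D.m (pick j).1 (pick j).2) = a ∧
        D.lab (D.m (pick j).1 (D.m (pick j).1 (pick j).2)) = b) ↔
        (l' = l ∧ D.σ l (D.m (pick j).1 (pick j).2) = true) ∧ j.1.2.2 = (b, a) := fun j l' => by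
      obtain ⟨a0, -, a1, -, -⟩ := q1 j
      have := hM _ _ a0
      rw [hf.inv, a1.1, a1.2, Prod.ext_iff]
      tauto
    have c3 : ∀ j, lam (pick j).1 (pick j).2 = src_SStage D.h j.1 := fun j => (q1 j).2.1
    simp only [c1, c2, c3] at h
    unfold cA nd
    rw [h]
    by_cases hl : l = D.h
    · subst hl
      have s1 : ∀ j, D.σ D.h (pick j).2 = j.1.1.2 := fun j => (q1 j).2.2.2.2.1
      have s2 : ∀ j, D.σ D.h (D.m (pick j).1 (pick j).2) = !j.1.1.2 := fun j => (q1 j).2.2.2.2.2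
      have d1 := fun j => dstH_SStage (hj j)
      have d2 := fun j => srcH_SStage (hj j)
      have g : ∀ (x s : Bool) (a b : Fin R), (cnt fun j : (Σ t, Fin (nn t)) =>
          (j.1.1.1 = x ∧ j.1.1.2 = s) ∧ j.1.2.2 = (a, b)) = ∑ l, nn ((x, s), l, a, b) :=
        fun x s a b => by
          rw [← cntY_SStage nn (x, s) a b]
          exact cntS_congr fun j => by rw [Prod.ext_iff (x := j.1.1)]
      simp only [s1, s2, d1, d2, Bool.not_eq_true', g, e0, e1, e2, e3]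
      rw [p2 a b, sum_sub_distrib, sum_sub_distrib]
      push_cast
      simp only [sum_const_zero]
      ring
    · have s1 : ∀ j : (Σ t, Fin (nn t)), j.1.2.1 = l → D.σ l (pick j).2 = true ∧
          D.σ l (D.m (pick j).1 (pick j).2) = false := fun j e => e ▸ (q1 j).2.2.2.1
      have d1 := dstL_SStage (R := R) (Ne.symm hl)
      have d2 := srcL_SStage (R := R) (Ne.symm hl)
      have g1 : ∀ x : Bool, (cnt fun j : (Σ t, Fin (nn t)) => ((j.1.1.1 = x ∧ j.1.2.1 = l) ∧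
          D.σ l (pick j).2 = true) ∧ j.1.2.2 = (a, b)) =
          nn ((x, true), l, a, b) + nn ((x, false), l, a, b) := fun x => by
        have h := cntX_SStage nn (fun x' => x'.1 = x) (l, a, b)
        rw [cntS_congr (Q := fun j : (Σ t, Fin (nn t)) => j.1.1.1 = x ∧ j.1.2 = (l, a, b))
          fun j => ⟨fun e => ⟨e.1.1.1, Prod.ext e.1.1.2 e.2⟩,
            fun e => ⟨⟨⟨e.1, by rw [e.2]⟩, (s1 j (by rw [e.2])).1⟩, by rw [e.2]⟩⟩, h]
        cases x <;> simp [Fintype.sum_prod_type]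
      have g2 : ∀ x : Bool, (cnt fun j : (Σ t, Fin (nn t)) => ((j.1.1.1 = x ∧ j.1.2.1 = l) ∧
          D.σ l (D.m (pick j).1 (pick j).2) = true) ∧ j.1.2.2 = (b, a)) = 0 := fun x =>
        cntS_zero fun j e => by
          have := (s1 j e.1.1.2).2
          rw [e.1.2] at this
          exact absurd this (by simp)
      simp only [d1, d2, g1, g2, e0, e1, e2, e3]
      by_cases hl' : l ∈ Ls
      · rw [p1 l hl' a b]
        push_cast
        ring
      · obtain ⟨z1, z2, z3⟩ := p0 l a b (Or.inl hl')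
        rw [hδ1 l a b hl' hl, z1, z2, z3]
        simp
  · have h := r4 fun d l' => d.2 = v ∧ Mv d.1 d.2 ∧ l' = l
    have w := q3 v l
    have b1 : ∀ f : (Σ t, Fin (nn t)) → Lv, (∀ j, f j = l →
        src_SStage D.h j.1 = l ∨ dst_SStage D.h j.1 = l) →
        (((cnt fun j => (pick j).2 = v ∧ Mv (pick j).1 (pick j).2 ∧ f j = l) +
          (cnt fun j => D.m (pick j).1 (pick j).2 = v ∧
            Mv (pick j).1 (D.m (pick j).1 (pick j).2) ∧ f j = l) : ℕ) : ℝ) ≤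
          (R : ℝ) ^ 2 * ρ * D.y l := fun f hf' => by
      rw [← cntS_or fun j a b => hf.ne (pick j).1 (pick j).2 (b.1.trans a.1.symm)]
      refine le_trans (Nat.cast_le.2 (cntS_mono fun j e => ?_)) w
      exact ⟨hf' j (e.elim (fun e => e.2.2) fun e => e.2.2), e.imp (fun e => e.1) fun e => e.1⟩
    have b2 := b1 (fun j => dst_SStage D.h j.1) fun j e => Or.inr e
    have b3 := b1 (fun j => lam (pick j).1 (pick j).2) fun j e => Or.inl ((q1 j).2.1.symm.trans e)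
    rw [← ndv_SStage (fun c w => Mv c w ∧ lam' (c, w) = l) v,
      ← ndv_SStage (fun c w => Mv c w ∧ lam c w = l) v]
    exact abs_SStage h b2 b3

end Pool.Agent.MP_d20a68_co.T

end

section

/-! Inside degrees. -/

set_option autoImplicit false
set_option linter.unusedSectionVars false
set_option linter.unusedVariables false
open Finset
open scoped Classical

namespace Pool.Agent.MP_d20a68_co.T

open Pool.Agent.MP_d20a68_co.Poly

theorem degS : DegP := by
  intro V Lv _ _ k R D C φ η ν u B S Lp H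
  have k4 : 4 ≤ k := le_trans (by norm_num) H.kbig
  have hpos : 0 < φ * k / 4 := by have := H.φ0; have := H.kpos; positivity
  have h1 : ∀ v, φ * k / 4 ≤ (cnt fun c => D.lab (D.m c v) = D.fl (D.lab v) : ℝ) := fun v =>
    le_trans (le_of_eq (by ring)) (H.blk.deg H.φ0.le k4 v)
  have h5 : ∀ a, D.N a (D.fl a) = 0 → ∀ v, D.lab v ≠ a := by
    intro a ha v hv
    have h2 := h1 v
    rw [cntS_zero fun c hc => cntS_eq_zero.1 ha (c, v) ⟨hv, hv ▸ hc⟩, Nat.cast_zero] at h2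
    linarith
  have h6 : ∀ a b, D.N a b = D.N b a := NN_symm H.fac D.lab
  refine ⟨h1, fun v hv => ?_, H.eta_le, NN_inside H.fac H.typ.inv hpos.le h1,
    fun a ha v => ⟨h5 a ha v, h5 _ (by rw [H.typ.inv, h6, ha]) v⟩, h6, ?_⟩
  · have h2 : (k : ℝ) = ∑ l, (D.y l : ℝ) := by exact_mod_cast H.pre.sumy.symm
    rw [cntS_fiber _ fun c => D.l0 c v, h2, mul_sum, Nat.cast_sum]
    exact sum_le_sum fun l _ => H.pre.load v hv l
  · have h2 : nd D.Fx = ∑ l, nd fun c v => D.Fx c v ∧ D.l0 c v = l :=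
      cntS_fiber _ fun e : Fin k × V => D.l0 e.1 e.2
    have h3 : ∑ l, B * D.y l = B * k := by rw [← mul_sum, H.pre.sumy]
    rw [h2, ← h3]
    exact sum_le_sum fun l _ => H.pre.tot l

end Pool.Agent.MP_d20a68_co.T

end
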