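import Pool.Agent.Mg.Fd20a68.Gf90942
import Mathlib

section

/-! The tight case for dense graphs: darts, blocks, types, and the interface of the two halves. -/

set_option autoImplicit false
set_option linter.unusedSectionVars false
set_option linter.unusedVariables false
open Finset
open scoped Classical

namespace Pool.Agent.MP_d20a68_co.T

open Pool.Agent.MP_d20a68_co.Poly

/-- The number of elements with a property. -/
noncomputable def cnt {α : Type} [Fintype α] (P : α → Prop) : ℕ := (univ.filter P).card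

/-- The integer sign of a boolean. -/
def sgz (b : Bool) : ℤ := if b then 1 else -1

/-- The scale: `u` is about the eighth root of `k`. -/
def Sc (k u : ℕ) : Prop := u ^ 8 ≤ k ∧ k ≤ 256 * u ^ 8

/-- The small levels. -/
noncomputable def small {Lv : Type} [Fintype Lv] (z h : Lv) : Finset Lv :=
  univ.filter fun l => l ≠ z ∧ l ≠ h

variable {V : Type} [Fintype V] {k R : ℕ}

/-- A one-factorisation of a simple `k`-regular graph: `m c v` is the `c`-neighbour of `v`.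
A dart is a pair `(c, v)`; its mate is `(c, m c v)`. -/
structure Fac (m : Fin k → V → V) : Prop where
  inv : ∀ c v, m c (m c v) = v
  ne : ∀ c v, m c v ≠ v
  inj : ∀ c c' v, m c v = m c' v → c = c'

/-- Adjacency. -/
def adj (m : Fin k → V → V) (x w : V) : Prop := ∃ c, m c x = w

/-- The number of darts with a property. -/
noncomputable def nd (P : Fin k → V → Prop) : ℕ := cnt fun e : Fin k × V => P e.1 e.2

/-- The number of darts from `X` to `Y`. -/
noncomputable def eb (m : Fin k → V → V) (X Y : Finset V) : ℕ :=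
  nd fun c v => v ∈ X ∧ m c v ∈ Y

/-- The vertices with a given label. -/
noncomputable def Vl (lab : V → Fin R) (a : Fin R) : Finset V := univ.filter fun v => lab v = a

/-- The number of darts of type `(a, b)`. -/
noncomputable def NN (m : Fin k → V → V) (lab : V → Fin R) (a b : Fin R) : ℕ :=
  nd fun c v => lab v = a ∧ lab (m c v) = b

/-- All darts (`o = false`), or one dart of each edge (`o = true`). -/
def od (m : Fin k → V → V) (o : Bool) (c : Fin k) (v : V) : Prop :=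
  o = true → idx v < idx (m c v)

/-- The blocks `Vl a × {true} ∪ Vl (fl a) × {false}` of the double cover are cut-dense. -/
structure Blk (m : Fin k → V → V) (lab : V → Fin R) (fl : Fin R → Fin R) (φ : ℝ) : Prop where
  inv : ∀ a, fl (fl a) = a
  big : ∀ v, k ≤ 2 * ((Vl lab (lab v)).card + (Vl lab (fl (lab v))).card)
  exp : ∀ a, ∀ S ⊆ Vl lab a, ∀ T ⊆ Vl lab (fl a),
    φ * ((S.card + T.card : ℕ) : ℝ) * (((Vl lab a \ S).card + (Vl lab (fl a) \ T).card : ℕ) : ℝ) ≤
      ((eb m S (Vl lab (fl a) \ T) + eb m (Vl lab a \ S) T : ℕ) : ℝ)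

/-- Poor and rich types; `r` is the relation of being in the same cluster. -/
structure Typ (m : Fin k → V → V) (lab : V → Fin R) (fl : Fin R → Fin R)
    (poor r : Fin R → Fin R → Prop) (S Lp : ℕ) : Prop where
  inv : ∀ a, fl (fl a) = a
  psym : ∀ a b, poor a b → poor b a
  pin : ∀ a, ¬ poor a (fl a)
  psm : ∀ a b, poor a b → NN m lab a b ≤ S * k
  big : ∀ a b, ¬ poor a b → NN m lab a b = 0 ∨ Lp * k ≤ NN m lab a b
  rich : ∀ a b, ¬ poor a b → b ≠ fl a → Lp * k ≤ NN m lab a b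
  eqv : Equivalence r
  rfl' : ∀ a b, r a b → r (fl a) (fl b)
  neu : ∀ a b, ¬ poor a b → r a (fl b)
  gen : ∀ a b, r a b → Relation.EqvGen (fun x y => ¬ poor x (fl y)) a b

/-- The contribution of a vertex with label `x` on side `b` to the net of the class of `a`. -/
noncomputable def nu (r : Fin R → Fin R → Prop) (fl : Fin R → Fin R) (a x : Fin R) (b : Bool) : ℤ :=
  if b then (if r a x then 1 else 0) else -(if r a (fl x) then 1 else 0)

/-- Joint equidistribution of a small level with the two large levels. -/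
structure Eq3 {Lv : Type} [Fintype Lv] (m : Fin k → V → V) (lab : V → Fin R)
    (poor : Fin R → Fin R → Prop) (z h : Lv) (σ : Lv → V → Bool) (ν : ℝ) : Prop where
  h3 : ∀ l ∈ small z h, ∀ (x x' : V) (b : Fin R) (s s0 s1 : Bool),
    |8 * (cnt fun w => adj m x w ∧ adj m x' w ∧ lab w = b ∧
        σ l w = s ∧ σ z w = s0 ∧ σ h w = s1 : ℝ) -
      (cnt fun w => adj m x w ∧ adj m x' w ∧ lab w = b : ℝ)| ≤ ν * k
  q6 : ∀ l ∈ small z h, ∀ (o : Bool) (a b : Fin R), ¬ poor a b →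
    ∀ s s0 s1 s' s0' s1' : Bool,
    |64 * (nd fun c v => (od m o c v ∧ lab v = a ∧ lab (m c v) = b) ∧
        (σ l v = s ∧ σ z v = s0 ∧ σ h v = s1) ∧
        (σ l (m c v) = s' ∧ σ z (m c v) = s0' ∧ σ h (m c v) = s1') : ℝ) -
      (nd fun c v => od m o c v ∧ lab v = a ∧ lab (m c v) = b : ℝ)| ≤ ν * NN m lab a b

/-- The output of the first half: levels, sides, and the darts that are already placed. -/
structure Pre {Lv : Type} [Fintype Lv] (m : Fin k → V → V) (lab : V → Fin R) (fl : Fin R → Fin R)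
    (poor r : Fin R → Fin R → Prop) (z h : Lv) (σ : Lv → V → Bool) (y : Lv → ℕ) (Lt : Finset V)
    (Fx : Fin k → V → Prop) (l0 : Fin k → V → Lv) (u : ℕ) (ν η : ℝ) (B : ℕ) : Prop where
  zh : z ≠ h
  sumy : ∑ l, y l = k
  ylo : ∀ l, u ^ 6 ≤ y l
  yz : η * k ≤ y z
  yh : η * k ≤ y h
  yhi : ∀ l, 16 * y l ≤ k
  cl : ∀ c v, Fx c v → Fx c (m c v)
  sym : ∀ c v, Fx c v → l0 c (m c v) = l0 c v
  cut : ∀ c v, Fx c v → σ (l0 c v) v ≠ σ (l0 c v) (m c v)
  hfx : ∀ v, v ∉ Lt → ∀ c, Fx c v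
  hdeg : ∀ v, v ∉ Lt → ∀ l, (cnt fun c => l0 c v = l) = y l
  hcard : (cnt fun v => v ∉ Lt) ≤ B
  load : ∀ v ∈ Lt, ∀ l, (cnt fun c => Fx c v ∧ l0 c v = l : ℝ) ≤ ν * y l
  tot : ∀ l, (nd fun c v => Fx c v ∧ l0 c v = l) ≤ B * y l
  free : ∀ c v, ¬ Fx c v → ¬ poor (lab v) (lab (m c v))
  clu : ∀ l a, (y l : ℤ) * ∑ v, nu r fl a (lab v) (σ l v) =
    ∑ e ∈ univ.filter (fun e : Fin k × V => Fx e.1 e.2 ∧ l0 e.1 e.2 = l),
      nu r fl a (lab e.2) (σ l e.2)
  lbal : ∀ l a, |∑ v ∈ Vl lab a, sgz (σ l v)| ≤ B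
  w1 : ∀ v ∈ Lt, ∀ w, w ≠ v →
    |∑ l ∈ small z h, (y l : ℝ) * (sg (σ l v) * sg (σ l w))| ≤ ν * k
  eq3 : Eq3 m lab poor z h σ ν

/-- A splitting in bipartite regular graphs of degrees `y l`. -/
def Spl {Lv : Type} [Fintype Lv] (m : Fin k → V → V) (σ : Lv → V → Bool) (y : Lv → ℕ) : Prop :=
  ∃ lam : Fin k → V → Lv, (∀ c v, lam c (m c v) = lam c v) ∧
    (∀ c v, σ (lam c v) v ≠ σ (lam c v) (m c v)) ∧ ∀ l v, (cnt fun c => lam c v = l) = y l

/-- The degrees are sums of groups of parts. -/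
def Grp {Lv : Type} [Fintype Lv] {q : ℕ} (p : Fin q → ℕ) (y : Lv → ℕ) : Prop :=
  ∃ grp : Fin q → Lv, ∀ l, y l = ∑ i ∈ univ.filter (fun i => grp i = l), p i

/-- The target. -/
def Dec (m : Fin k → V → V) {q : ℕ} (p : Fin q → ℕ) : Prop :=
  ∃ (Lv : Type) (_ : Fintype Lv) (σ : Lv → V → Bool) (y : Lv → ℕ), Grp p y ∧ Spl m σ y

/-! ### Interface -/

/-- Independent rounding with Hoeffding's bound. -/
def RoundP : Prop :=
  ∀ (E Λ J : Type) [Fintype E] [Fintype Λ] [Fintype J] (x : E → Λ → ℝ) (f : J → E → Λ → ℝ)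
    (N : J → Finset E) (n t : J → ℝ), (∀ e l, 0 ≤ x e l) → (∀ e, ∑ l, x e l = 1) →
    (∀ j e l, 0 ≤ f j e l ∧ f j e l ≤ 1) → (∀ j e, e ∉ N j → ∀ l, f j e l = 0) →
    (∀ j, 0 < n j ∧ ((N j).card : ℝ) ≤ n j) → (∀ j, 0 ≤ t j) →
    ∑ j, 2 * Real.exp (-(2 * t j ^ 2 / n j)) < 1 →
    ∃ lam : E → Λ, (∀ e, 0 < x e (lam e)) ∧
      ∀ j, |∑ e, f j e (lam e) - ∑ e, ∑ l, x e l * f j e l| ≤ t j

/-- The same with a common choice for `e` and `μ e`. -/
def Round2P : Prop :=
  ∀ (E Λ J : Type) [Fintype E] [Fintype Λ] [Fintype J] (μ : E → E) (x : E → Λ → ℝ)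
    (f : J → E → Λ → ℝ) (N : J → Finset E) (n t : J → ℝ), (∀ e, μ (μ e) = e) →
    (∀ e, x (μ e) = x e) → (∀ e l, 0 ≤ x e l) → (∀ e, ∑ l, x e l = 1) →
    (∀ j e l, 0 ≤ f j e l ∧ f j e l ≤ 1) → (∀ j e, e ∉ N j → ∀ l, f j e l = 0) →
    (∀ j, 0 < n j ∧ ((N j).card : ℝ) ≤ n j) → (∀ j, 0 ≤ t j) →
    ∑ j, 2 * Real.exp (-(t j ^ 2 / (2 * n j))) < 1 →
    ∃ lam : E → Λ, (∀ e, lam (μ e) = lam e) ∧ (∀ e, 0 < x e (lam e)) ∧
      ∀ j, |∑ e, f j e (lam e) - ∑ e, ∑ l, x e l * f j e l| ≤ t j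

/-- The first half. -/
def FirstP : Prop :=
  ∀ (C R S : ℕ) (δ : ℝ), 0 < δ → ∃ η : ℝ, 0 < η ∧ ∀ ν : ℝ, 0 < ν → ∃ B Lp U : ℕ, ∀ u, U ≤ u →
    ∀ k, Sc k u → ∀ (V : Type) [Fintype V] (m : Fin k → V → V) (lab : V → Fin R)
      (fl : Fin R → Fin R) (poor r : Fin R → Fin R → Prop), Fintype.card V ≤ C * k → Fac m →
      Typ m lab fl poor r S Lp → (∀ v, δ * k ≤ (cnt fun c => lab (m c v) = fl (lab v) : ℝ)) →
      ∀ (q : ℕ) (p : Fin q → ℕ), (∀ i, p i ≤ u ^ 5) → ∑ i, p i = k →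
      ∃ (Lv : Type) (_ : Fintype Lv) (z h : Lv) (σ : Lv → V → Bool) (y : Lv → ℕ) (Lt : Finset V)
        (Fx : Fin k → V → Prop) (l0 : Fin k → V → Lv),
        Grp p y ∧ Pre m lab fl poor r z h σ y Lt Fx l0 u ν η B

/-- The second half. -/
def SecondP : Prop :=
  ∀ (C R : ℕ) (φ η : ℝ), 0 < φ → 0 < η → ∃ ν : ℝ, 0 < ν ∧ ∀ S B : ℕ, ∃ Lp U : ℕ, ∀ u, U ≤ u →
    ∀ k, Sc k u → ∀ (V : Type) [Fintype V] (m : Fin k → V → V) (lab : V → Fin R)
      (fl : Fin R → Fin R) (poor r : Fin R → Fin R → Prop), Fintype.card V ≤ C * k → Fac m →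
      Blk m lab fl φ → Typ m lab fl poor r S Lp →
      ∀ (Lv : Type) [Fintype Lv] (z h : Lv) (σ : Lv → V → Bool) (y : Lv → ℕ) (Lt : Finset V)
        (Fx : Fin k → V → Prop) (l0 : Fin k → V → Lv),
        Pre m lab fl poor r z h σ y Lt Fx l0 u ν η B → Spl m σ y

/-- The block structure. -/
def BlkP : Prop :=
  ∀ C : ℕ, ∃ (R : ℕ) (φ : ℝ), 0 < φ ∧ ∀ (k : ℕ) (V : Type) [Fintype V] (m : Fin k → V → V),
    Fintype.card V ≤ C * k → Fac m → ∃ (lab : V → Fin R) (fl : Fin R → Fin R), Blk m lab fl φ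

/-- The splitting theorem. -/
def MainP : Prop :=
  ∀ C : ℕ, ∃ K : ℕ, ∀ k, K ≤ k → ∀ (V : Type) [Fintype V] (m : Fin k → V → V),
    Fintype.card V ≤ C * k → Fac m → ∀ (q : ℕ) (p : Fin q → ℕ), (∀ i, p i ^ 2 ≤ k) →
    ∑ i, p i = k → Dec m p

end Pool.Agent.MP_d20a68_co.T

end

section

/-! General statements used in the second half of the dense case. -/

set_option autoImplicit false
set_option linter.unusedSectionVars false
set_option linter.unusedVariables false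
open Finset
open scoped Classical

namespace Pool.Agent.MP_d20a68_co.T

/-- Integer flows with prescribed divergence. -/
def TreeP : Prop :=
  ∀ (L A : Type) [Fintype L] [Fintype A] (s t : A → L) (β : L → ℤ),
    (∀ K : Finset L, (∀ e, s e ∈ K ↔ t e ∈ K) → ∑ a ∈ K, β a = 0) →
    ∃ w : A → ℤ, (∀ a, ∑ e ∈ univ.filter (fun e => s e = a), w e -
        ∑ e ∈ univ.filter (fun e => t e = a), w e = β a) ∧
      ∑ e, |w e| ≤ (Fintype.card L : ℤ) * ∑ a, |β a|

/-- Integer targets close to the proportional share. -/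
def TargetP : Prop :=
  ∀ R M : ℕ, ∃ M' : ℕ, ∀ (L Lv : Type) [Fintype L] [Fintype Lv], Fintype.card L ≤ R →
    ∀ (fl : L → L) (rich : L → L → Prop) (N : L → L → ℕ) (h : Lv) (y : Lv → ℕ) (k : ℕ)
      (g : Lv → L → ℤ), (∀ a, fl (fl a) = a) → (∀ a b, rich a b → rich b a) →
      (∀ a b, N a b = N b a) → (∀ a, Even (N a a)) → (∀ a b, ¬ rich a b → N a b = 0) →
      ∑ l, y l = k → (∀ l, 1 ≤ y l) →
      (∀ l (K : Finset L), (∀ a b, rich a b → (a ∈ K ↔ fl b ∈ K)) → ∑ a ∈ K, g l a = 0) →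
      (∀ l a, |2 * (k : ℤ) * g l a - y l * (∑ b, (N a b : ℤ) - ∑ b, (N (fl a) b : ℤ))| ≤
        2 * k * M * y l) →
      (∀ a, ∑ l, (g l a - g l (fl a)) = ∑ b, (N a b : ℤ) - ∑ b, (N (fl a) b : ℤ)) →
      (∀ a, fl a = a → Even (∑ l, g l a + ∑ b, (N a b : ℤ))) →
      ∃ z : Lv → L → L → ℤ, (∀ l a b, ¬ rich a b → z l a b = 0) ∧
        (∀ a b, ∑ l, (z l a b + z l b a) = N a b) ∧
        (∀ l a, ∑ b, z l a b - ∑ a', z l a' (fl a) = g l a) ∧
        (∀ l a b, l ≠ h → |2 * (k : ℤ) * z l a b - y l * N a b| ≤ 2 * k * M' * y l) ∧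
        ∀ a b, |2 * (k : ℤ) * z h a b - y h * N a b| ≤ 2 * k * M' * k

/-- Splitting a number almost proportionally. -/
def SplitP : Prop :=
  ∀ (ι : Type) (S : Finset ι) (w : ι → ℕ) (X : ℕ), 0 < ∑ i ∈ S, w i →
    ∃ n : ι → ℕ, ∑ i ∈ S, n i = X ∧ ∀ i ∈ S, n i * ∑ i ∈ S, w i ≤ X * w i + ∑ i ∈ S, w i

/-- Greedy choice of distinct edges with small loads. An edge is a pair `d, φ d` of darts. -/
def GreedyP : Prop :=
  ∀ (E V J K : Type) [Fintype E] [Fintype V] [Fintype J] [Fintype K] (φ : E → E) (src : E → V)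
    (Av : J → Finset E) (k1 k2 : J → K) (cap : K → ℕ) (Δ : J → ℝ) (mm : K → ℝ),
    (∀ d, φ (φ d) = d) → (∀ κ, 0 < cap κ) → (∀ j, 0 ≤ Δ j) →
    (∀ κ, ((univ.filter fun j => k1 j = κ ∨ k2 j = κ).card : ℝ) ≤ mm κ) →
    (∀ j v, (((Av j).filter fun d => src d = v ∨ src (φ d) = v).card : ℝ) ≤ Δ j) →
    (∀ j j', k1 j ≠ k1 j' → ∀ d ∈ Av j, d ∉ Av j' ∧ φ d ∉ Av j') →
    (∀ j, 2 * mm (k1 j) + Δ j * (2 * mm (k1 j) / cap (k1 j) + 2 * mm (k2 j) / cap (k2 j)) <
      (Av j).card) →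
    ∃ pick : J → E, (∀ j, pick j ∈ Av j) ∧
      (∀ j j', pick j = pick j' ∨ pick j = φ (pick j') → j = j') ∧
      ∀ v κ, (univ.filter fun j => (k1 j = κ ∨ k2 j = κ) ∧
        (src (pick j) = v ∨ src (φ (pick j)) = v)).card ≤ cap κ

/-- The number of related pairs between two sets. -/
noncomputable def ee {V : Type} (A : V → V → Prop) (X Y : Finset V) : ℕ :=
  ((X ×ˢ Y).filter fun e => A e.1 e.2).card

/-- Counting walks of length three through a selected part. -/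
def WalkP : Prop :=
  ∀ (V : Type) [Fintype V] (A : V → V → Prop) (X Y P Q S T : Finset V) (k t n : ℝ),
    (∀ u v, A u v → A v u) → P ⊆ X → Q ⊆ Y → S ⊆ P → T ⊆ Q → 0 ≤ t → 0 ≤ k →
    (∀ v, ((univ.filter fun w => A v w).card : ℝ) ≤ k) → (X.card : ℝ) ≤ n → (Y.card : ℝ) ≤ n →
    (∀ u ∈ X, ∀ u' ∈ X, ((Y.filter fun w => A u w ∧ A u' w).card : ℝ) ≤
      4 * (Q.filter fun w => A u w ∧ A u' w).card + t) →
    (∀ v ∈ Y, ∀ v' ∈ Y, ((X.filter fun w => A v w ∧ A v' w).card : ℝ) ≤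
      4 * (P.filter fun w => A v w ∧ A v' w).card + t) →
    ∑ e ∈ (X ×ˢ Y).filter (fun e => A e.1 e.2),
        ((T.filter fun w => A e.1 w).card : ℝ) * (((P \ S).filter fun w => A e.2 w).card : ℝ) ≤
      32 * k ^ 2 * (ee A S (Q \ T) + ee A (P \ S) T) + 5 * t * n ^ 2 * k

/-- Expansion passes to a selected part that keeps degrees and codegrees. -/
def InhP : Prop :=
  ∀ (V : Type) [Fintype V] (A : V → V → Prop) (X Y P Q : Finset V) (k d t n φ g Γ : ℝ),
    (∀ u v, A u v → A v u) → P ⊆ X → Q ⊆ Y → 0 ≤ t → 0 < d → 0 ≤ φ → 0 ≤ Γ →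
    (∀ v, ((univ.filter fun w => A v w).card : ℝ) ≤ k) → (X.card : ℝ) ≤ n → (Y.card : ℝ) ≤ n →
    (∀ u ∈ X, d ≤ ((Q.filter fun w => A u w).card : ℝ)) →
    (∀ v ∈ Y, d ≤ ((P.filter fun w => A v w).card : ℝ)) →
    (∀ u ∈ X, ∀ u' ∈ X, ((Y.filter fun w => A u w ∧ A u' w).card : ℝ) ≤
      4 * (Q.filter fun w => A u w ∧ A u' w).card + t) →
    (∀ v ∈ Y, ∀ v' ∈ Y, ((X.filter fun w => A v w ∧ A v' w).card : ℝ) ≤
      4 * (P.filter fun w => A v w ∧ A v' w).card + t) →
    (∀ X' ⊆ X, ∀ Y' ⊆ Y, φ * ((X'.card : ℝ) + Y'.card) * (((X \ X').card : ℝ) + (Y \ Y').card) ≤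
      (ee A X' (Y \ Y') : ℝ) + ee A (X \ X') Y') →
    8 * g ≤ d ^ 2 → 256 * k ^ 2 * g + 40 * t * n ^ 2 * k ≤ φ * d ^ 4 / 16 →
    2 * Γ ≤ d → 2 * n * Γ ≤ g →
    ∀ S ⊆ P, ∀ T ⊆ Q, S.card + T.card ≤ (P \ S).card + (Q \ T).card →
      Γ * ((S.card : ℝ) + T.card) ≤ (ee A S (Q \ T) : ℝ) + ee A (P \ S) T

end Pool.Agent.MP_d20a68_co.T

end

section

/-! Integer flows with prescribed divergence. -/

set_option autoImplicit false
set_option linter.unusedSectionVars false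
set_option linter.unusedVariables false
open Finset
open scoped Classical

namespace Pool.Agent.MP_d20a68_co.T

/-- The divergence of a unit flow from `x` to `y`. -/
noncomputable def d_STree {L : Type} (x y a : L) : ℤ :=
  (if x = a then 1 else 0) - if y = a then 1 else 0

lemma walk_STree {L A : Type} [Fintype A] (s t : A → L) {x y : L}
    (p : (SimpleGraph.fromRel fun x y => ∃ e, s e = x ∧ t e = y).Walk x y) :
    ∃ w : A → ℤ, (∀ a, ∑ e, d_STree (s e) (t e) a * w e = d_STree x y a) ∧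
      ∑ e, |w e| ≤ p.length := by
  induction p with
  | nil => exact ⟨0, fun a => by simp [d_STree], by simp⟩
  | @cons x z y h p ih =>
    obtain ⟨w, h1, h2⟩ := ih
    obtain ⟨e, c, hc, he⟩ : ∃ (e : A) (c : ℤ), |c| = 1 ∧
        ∀ a, d_STree (s e) (t e) a * c = d_STree x z a := by
      rcases ((SimpleGraph.fromRel_adj _ _ _).1 h).2 with ⟨e, rfl, rfl⟩ | ⟨e, rfl, rfl⟩
      · exact ⟨e, 1, rfl, fun a => mul_one _⟩
      · exact ⟨e, -1, rfl, fun a => by unfold d_STree; ring⟩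
    refine ⟨fun f => w f + if f = e then c else 0, fun a => ?_, ?_⟩
    · simp only [mul_add, sum_add_distrib, h1, mul_ite, mul_zero, sum_ite_eq', mem_univ, if_true,
        he]
      unfold d_STree
      ring
    · refine (sum_le_sum fun f _ => abs_add_le _ _).trans ?_
      simp only [sum_add_distrib, apply_ite abs, abs_zero, sum_ite_eq', mem_univ, if_true, hc,
        SimpleGraph.Walk.length_cons]
      push_cast
      linarith

theorem treeS : TreeP := by
  intro L A _ _ s t β hβ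
  set G := SimpleGraph.fromRel fun x y => ∃ e, s e = x ∧ t e = y with hG
  let ρ : L → L := fun a => (G.connectedComponentMk a).out
  have h1 : ∀ a, G.Reachable a (ρ a) := fun a =>
    (SimpleGraph.ConnectedComponent.exact (Quot.out_eq _)).symm
  have h2 : ∀ e, ρ (s e) = ρ (t e) := fun e => by
    by_cases h : s e = t e
    · rw [h]
    · exact congrArg Quot.out (SimpleGraph.ConnectedComponent.sound (SimpleGraph.Adj.reachable
        ((SimpleGraph.fromRel_adj _ _ _).2 ⟨h, Or.inl ⟨e, rfl, rfl⟩⟩)))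
  have h3 : ∀ x, ∃ w : A → ℤ, (∀ a, ∑ e, d_STree (s e) (t e) a * w e = d_STree x (ρ x) a) ∧
      ∑ e, |w e| ≤ Fintype.card L := fun x => by
    obtain ⟨p, hp⟩ := (h1 x).exists_isPath
    obtain ⟨w, h4, h5⟩ := walk_STree s t p
    exact ⟨w, h4, h5.trans (by exact_mod_cast hp.length_lt.le)⟩
  choose W hW hW' using h3
  refine ⟨fun e => ∑ x, β x * W x e, fun a => ?_, ?_⟩
  · have h4 := hβ (univ.filter fun x => ρ x = a) fun e => by simp [h2]
    calc _ = ∑ e, d_STree (s e) (t e) a * ∑ x, β x * W x e := by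
          simp only [sum_filter, d_STree, sub_mul, ite_mul, one_mul, zero_mul, sum_sub_distrib]
      _ = ∑ x, β x * d_STree x (ρ x) a := by
          simp only [← hW, mul_sum]
          rw [sum_comm]
          exact sum_congr rfl fun x _ => sum_congr rfl fun e _ => by ring
      _ = _ := by
          rw [sum_filter] at h4
          simp only [d_STree, mul_sub, mul_ite, mul_one, mul_zero, sum_sub_distrib, h4,
            sum_ite_eq', mem_univ, if_true, sub_zero]
  · refine (sum_le_sum fun e _ => abs_sum_le_sum_abs _ _).trans ?_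
    rw [sum_comm, mul_sum]
    refine sum_le_sum fun x _ => ?_
    simp only [abs_mul, ← mul_sum]
    rw [mul_comm]
    exact mul_le_mul_of_nonneg_right (hW' x) (abs_nonneg _)

end Pool.Agent.MP_d20a68_co.T

end

section

/-! Integer targets close to the proportional share. -/

set_option autoImplicit false
set_option linter.unusedSectionVars false
set_option linter.unusedVariables false
open Finset
open scoped Classical

namespace Pool.Agent.MP_d20a68_co.T

theorem tree_STarget (hT : TreeP) {L V : Type} [Fintype L] [Fintype V] (rich : L → L → Prop)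
    (σ τ : L → V) (β : V → ℤ)
    (h : ∀ K : Finset V, (∀ a b, rich a b → (σ a ∈ K ↔ τ b ∈ K)) → ∑ c ∈ K, β c = 0) :
    ∃ w : L → L → ℤ, (∀ a b, ¬ rich a b → w a b = 0) ∧
      (∀ c, ∑ a, (if σ a = c then ∑ b, w a b else 0) -
        ∑ b, (if τ b = c then ∑ a, w a b else 0) = β c) ∧
      ∀ a b, |w a b| ≤ (Fintype.card V : ℤ) * ∑ c, |β c| := by
  obtain ⟨w, h1, h2⟩ := hT V {p : L × L // rich p.1 p.2} (fun e => σ e.1.1) (fun e => τ e.1.2) β
    fun K hK => h K fun a b hab => hK ⟨(a, b), hab⟩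
  obtain ⟨W, hW1, hW2⟩ : ∃ W : L → L → ℤ, (∀ a b, ¬ rich a b → W a b = 0) ∧
      ∀ e : {p : L × L // rich p.1 p.2}, W e.1.1 e.1.2 = w e :=
    ⟨fun a b => if h : rich a b then w ⟨(a, b), h⟩ else 0, fun a b hab => dif_neg hab,
      fun e => dif_pos e.2⟩
  have key : ∀ f : L × L → Prop, ∑ e ∈ univ.filter (fun e : {p : L × L // rich p.1 p.2} => f e.1),
      w e = ∑ a, ∑ b, if f (a, b) then W a b else 0 := fun f => by
    rw [← Fintype.sum_prod_type' fun a b => if f (a, b) then W a b else 0,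
      ← Fintype.sum_subtype_add_sum_subtype (fun p : L × L => rich p.1 p.2), sum_filter,
      sum_eq_zero (s := (univ : Finset {p : L × L // ¬ rich p.1 p.2})) fun e _ => by
        rw [hW1 _ _ e.2, ite_self], add_zero]
    exact sum_congr rfl fun e _ => by rw [hW2]
  refine ⟨W, hW1, fun c => ?_, fun a b => ?_⟩
  · rw [← h1 c, key fun p => σ p.1 = c, key fun p => τ p.2 = c, sum_comm (f := fun a b =>
      if τ b = c then W a b else 0)]
    congr 1 <;> exact sum_congr rfl fun a _ => by split_ifs <;> simp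
  · by_cases hab : rich a b
    · rw [hW2 ⟨(a, b), hab⟩]
      exact (single_le_sum (f := fun e => |w e|) (fun e _ => abs_nonneg _) (mem_univ _)).trans h2
    · rw [hW1 a b hab, abs_zero]
      exact mul_nonneg (Nat.cast_nonneg _) (sum_nonneg fun c _ => abs_nonneg _)

/-- The divergence of a flow. -/
def dv_STarget {L : Type} [Fintype L] (fl : L → L) (z : L → L → ℤ) (a : L) : ℤ :=
  ∑ b, z a b - ∑ a', z a' (fl a)

section
variable {L : Type} [Fintype L] {fl : L → L} {rich : L → L → Prop} {R : ℕ}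

theorem closed_STarget (hfl : ∀ a, fl (fl a) = a) (z : L → L → ℤ)
    (hz : ∀ a b, ¬ rich a b → z a b = 0) (K : Finset L)
    (hK : ∀ a b, rich a b → (a ∈ K ↔ fl b ∈ K)) : ∑ a ∈ K, dv_STarget fl z a = 0 := by
  have h1 : ∀ f : L → ℤ, ∑ a ∈ K, f a = ∑ a, if a ∈ K then f a else 0 := fun f => by
    rw [← sum_filter, filter_mem_eq_inter, univ_inter]
  unfold dv_STarget
  rw [sum_sub_distrib, sub_eq_zero, h1, h1, ← Equiv.sum_comp (Function.Involutive.toPerm fl hfl)
    fun a => if a ∈ K then ∑ a', z a' (fl a) else 0]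
  have h2 : ∀ (c : L) (f : L → ℤ),
      (if c ∈ K then ∑ a, f a else 0) = ∑ a, if c ∈ K then f a else 0 :=
    fun p f => by split_ifs <;> simp
  simp only [Function.Involutive.coe_toPerm, hfl, h2]
  rw [sum_comm]
  refine sum_congr rfl fun b _ => sum_congr rfl fun a _ => ?_
  by_cases hab : rich a b
  · simp only [hK a b hab]
  · rw [hz a b hab, ite_self, ite_self]

theorem sumle_STarget (hR : Fintype.card L ≤ R) (f : L → ℤ) (B : ℤ) (hB : 0 ≤ B)
    (hf : ∀ a, f a ≤ B) : ∑ a, f a ≤ R * B := by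
  refine (sum_le_card_nsmul _ _ B fun a _ => hf a).trans ?_
  rw [card_univ, nsmul_eq_mul]
  exact mul_le_mul_of_nonneg_right (by exact_mod_cast hR) hB

theorem approx_STarget (hR : Fintype.card L ≤ R) (k y B C g : ℤ) (hk : 0 < k) (hB : 0 ≤ B)
    (N x : L → L → ℤ) (hN : ∀ a b, N a b = N b a)
    (hx : ∀ a b, |2 * k * x a b - y * N a b| ≤ 2 * k * B) (a : L)
    (hg : |2 * k * g - y * (∑ b, N a b - ∑ b, N (fl a) b)| ≤ 2 * k * C) :
    |g - dv_STarget fl x a| ≤ C + 2 * R * B := by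
  have h0 : 0 ≤ 2 * k * B := by positivity
  have h1 := abs_le.1 ((abs_sum_le_sum_abs _ _).trans
    (sumle_STarget hR (fun b => |2 * k * x a b - y * N a b|) _ h0 fun b => hx a b))
  have h2 := abs_le.1 ((abs_sum_le_sum_abs _ _).trans
    (sumle_STarget hR (fun b => |2 * k * x b (fl a) - y * N (fl a) b|) _ h0
      fun b => hN b (fl a) ▸ hx b (fl a)))
  rw [sum_sub_distrib, ← mul_sum, ← mul_sum] at h1 h2
  have h3 := abs_le.1 hg
  unfold dv_STarget
  refine abs_le.2 ⟨?_, ?_⟩ <;> refine le_of_mul_le_mul_left (a := 2 * k) ?_ (by positivity) <;>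
    linarith [h1.1, h1.2, h2.1, h2.2, h3.1, h3.2]

theorem add_STarget (x w : L → L → ℤ) (a : L) :
    dv_STarget fl (fun a b => x a b + w a b) a = dv_STarget fl x a + dv_STarget fl w a := by
  simp only [dv_STarget, sum_add_distrib]
  ring

theorem one_STarget (hT : TreeP) (hR : Fintype.card L ≤ R) (hfl : ∀ a, fl (fl a) = a)
    (β : L → ℤ) (B : ℤ) (hB : 0 ≤ B) (hβ : ∀ a, |β a| ≤ B)
    (h : ∀ K : Finset L, (∀ a b, rich a b → (a ∈ K ↔ fl b ∈ K)) → ∑ a ∈ K, β a = 0) :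
    ∃ w : L → L → ℤ, (∀ a b, ¬ rich a b → w a b = 0) ∧ (∀ a, dv_STarget fl w a = β a) ∧
      ∀ a b, |w a b| ≤ R * (R * B) := by
  obtain ⟨w, h1, h2, h3⟩ := tree_STarget hT rich id fl β h
  refine ⟨w, h1, fun c => ?_, fun a b => (h3 a b).trans ?_⟩
  · have h4 : ∀ b, fl b = c ↔ b = fl c :=
      fun b => ⟨fun e => by rw [← e, hfl], fun e => by rw [e, hfl]⟩
    rw [← h2 c]
    simp only [id, h4, sum_ite_eq', mem_univ, if_true, dv_STarget]
  · exact mul_le_mul (by exact_mod_cast hR) (sumle_STarget hR _ B hB hβ)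
      (sum_nonneg fun c _ => abs_nonneg _) (Nat.cast_nonneg _)

theorem level_STarget (hT : TreeP) (hR : Fintype.card L ≤ R) (hfl : ∀ a, fl (fl a) = a)
    (k y M : ℤ) (hk : 0 < k) (hy : 1 ≤ y) (hM : 0 ≤ M) (N : L → L → ℤ)
    (hN : ∀ a b, N a b = N b a) (hN0 : ∀ a b, ¬ rich a b → N a b = 0) (g : L → ℤ)
    (h : ∀ K : Finset L, (∀ a b, rich a b → (a ∈ K ↔ fl b ∈ K)) → ∑ a ∈ K, g a = 0)
    (hg : ∀ a, |2 * k * g a - y * (∑ b, N a b - ∑ b, N (fl a) b)| ≤ 2 * k * M * y) :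
    ∃ z : L → L → ℤ, (∀ a b, ¬ rich a b → z a b = 0) ∧ (∀ a, dv_STarget fl z a = g a) ∧
      ∀ a b, |2 * k * z a b - y * N a b| ≤ 2 * k * (1 + R * (R * (M + 2 * R))) * y := by
  obtain ⟨x, hx0, hx⟩ : ∃ x : L → L → ℤ, (∀ a b, ¬ rich a b → x a b = 0) ∧
      ∀ a b, |2 * k * x a b - y * N a b| ≤ 2 * k * 1 := by
    refine ⟨fun a b => y * N a b / (2 * k), fun a b hab => by simp [hN0 a b hab], fun a b => ?_⟩
    have h1 := Int.emod_add_mul_ediv (y * N a b) (2 * k)
    have h2 := Int.emod_nonneg (y * N a b) (b := 2 * k) (by omega)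
    have h3 := Int.emod_lt_of_pos (y * N a b) (b := 2 * k) (by omega)
    exact abs_le.2 ⟨by linarith, by linarith⟩
  have hR0 : (0 : ℤ) ≤ R := Nat.cast_nonneg _
  obtain ⟨w, h1, h2, h3⟩ := one_STarget (rich := rich) hT hR hfl
    (fun a => g a - dv_STarget fl x a) ((M + 2 * R) * y) (by positivity)
    (fun a => (approx_STarget hR k y 1 (M * y) (g a) hk zero_le_one N x hN hx a
      ((hg a).trans_eq (mul_assoc _ _ _))).trans (by nlinarith))
    fun K hK => by rw [sum_sub_distrib, h K hK, closed_STarget hfl x hx0 K hK, sub_zero]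
  refine ⟨fun a b => x a b + w a b, fun a b hab => by simp [hx0 a b hab, h1 a b hab],
    fun a => by rw [add_STarget, h2]; ring, fun a b => ?_⟩
  have h4 := abs_le.1 (h3 a b)
  have h5 := abs_le.1 (hx a b)
  have h6 := mul_le_mul_of_nonneg_left h4.1 (show 0 ≤ 2 * k by omega)
  have h7 := mul_le_mul_of_nonneg_left h4.2 (show 0 ≤ 2 * k by omega)
  have h8 := mul_le_mul_of_nonneg_left hy (show 0 ≤ 2 * k by omega)
  exact abs_le.2 ⟨by linarith [h5.1], by linarith [h5.2]⟩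

theorem half_STarget (P : L → L → ℤ) (hP : ∀ a b, P a b = P b a) (hP2 : ∀ a, Even (P a a))
    (hP0 : ∀ a b, ¬ rich a b → P a b = 0) :
    ∃ z : L → L → ℤ, (∀ a b, ¬ rich a b → z a b = 0) ∧ (∀ a b, z a b + z b a = P a b) ∧
      ∀ a b, |2 * z a b - P a b| ≤ 1 := by
  let i := Fintype.equivFin L
  refine ⟨fun a b => if i a ≤ i b then P a b / 2 else P a b - P a b / 2,
    fun a b hab => by simp [hP0 a b hab], fun a b => ?_, fun a b => ?_⟩
  · have := hP a b
    dsimp only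
    split_ifs with h1 h2 h2
    · obtain rfl : a = b := i.injective (le_antisymm h1 h2)
      obtain ⟨r, hr⟩ := hP2 a
      omega
    · omega
    · omega
    · exact absurd (le_of_not_ge h1) h2
  · dsimp only
    split_ifs <;> exact abs_le.2 ⟨by omega, by omega⟩

theorem hub_STarget (hT : TreeP) (hR : Fintype.card L ≤ R) (hfl : ∀ a, fl (fl a) = a)
    (hr : ∀ a b, rich a b → rich b a) {V : Type} [Fintype V] (σ : L → V)
    (hσ : ∀ a b, σ b = σ a ↔ b = a ∨ b = fl a)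
    (β : L → ℤ) (B : ℤ) (hB : 0 ≤ B) (hβ : ∀ a, |β a| ≤ B) (hs : ∀ a, β (fl a) = β a)
    (he : ∀ a, fl a = a → Even (β a))
    (h : ∀ K : Finset L, (∀ a b, rich a b → (a ∈ K ↔ fl b ∈ K)) → ∑ a ∈ K, β a = 0) :
    ∃ u : L → L → ℤ, (∀ a b, ¬ rich a b → u a b = 0) ∧ (∀ a b, u a b + u b a = 0) ∧
      (∀ a, dv_STarget fl u a = β a) ∧
      ∀ a b, |u a b| ≤ 2 * (Fintype.card V * (Fintype.card V * (R * B))) := by
  have hf : ∀ (f : L → ℤ) (a : L), ∑ b, (if σ b = σ a then f b else 0) =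
      if fl a = a then f a else f a + f (fl a) := fun f a => by
    rw [← sum_filter, show univ.filter (fun b => σ b = σ a) = {a, fl a} by ext b; simp [hσ]]
    split_ifs with h1
    · rw [h1]; simp
    · rw [sum_pair (Ne.symm h1)]
  have h2 : ∀ c, ∃ r, ∑ b, (if σ b = c then β b else 0) = 2 * r := fun c => by
    by_cases hc : ∃ a, σ a = c
    · obtain ⟨a, rfl⟩ := hc
      rw [hf]
      split_ifs with h1
      · obtain ⟨r, hr⟩ := he a h1
        exact ⟨r, by omega⟩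
      · exact ⟨β a, by rw [hs]; ring⟩
    · exact ⟨0, sum_eq_zero fun b _ => if_neg fun e => hc ⟨b, e⟩⟩
  choose γ hγ using h2
  obtain ⟨w, h1, h2, h3⟩ := tree_STarget hT rich σ σ γ fun K hK => by
    have h4 := h (univ.filter fun a => σ a ∈ K) fun a b hab => by
      simp only [mem_filter, mem_univ, true_and]
      rw [hK a b hab, (hσ b (fl b)).2 (Or.inr rfl)]
    have h5 : 2 * ∑ c ∈ K, γ c = 0 := by
      rw [mul_sum, ← h4, sum_filter, ← sum_congr rfl fun c _ => hγ c, sum_comm]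
      exact sum_congr rfl fun a _ => sum_ite_eq _ _ _
    omega
  have h6 : ∀ a b, |w a b| ≤ Fintype.card V * (Fintype.card V * (R * B)) := fun a b => by
    refine (h3 a b).trans (mul_le_mul_of_nonneg_left ?_ (Nat.cast_nonneg _))
    refine sumle_STarget le_rfl _ _ (by positivity) fun c => ?_
    have h7 := (abs_sum_le_sum_abs _ _).trans (sumle_STarget hR
      (fun b => |if σ b = c then β b else 0|) B hB fun b => by
        split_ifs
        · exact hβ b
        · rwa [abs_zero])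
    rw [hγ, abs_mul, abs_two] at h7
    linarith [abs_nonneg (γ c)]
  refine ⟨fun a b => w a b - w b a, fun a b hab => ?_, fun a b => by ring, fun a => ?_,
    fun a b => ?_⟩
  · simp [h1 a b hab, h1 b a fun e => hab (hr _ _ e)]
  · have h7 := h2 (σ a)
    have h8 := hγ (σ a)
    rw [hf, hf] at h7
    rw [hf, hs] at h8
    simp only [dv_STarget, sum_sub_distrib]
    split_ifs at h7 h8 with h9
    · rw [h9]; omega
    · omega
  · exact (abs_sub _ _).trans (by linarith [h6 a b, h6 b a])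

end

theorem targetS (hT : TreeP) : TargetP := by
  intro R M
  obtain ⟨M1, hM1⟩ : ∃ M1 : ℕ, M1 = 1 + R * (R * (M + 2 * R)) := ⟨_, rfl⟩
  obtain ⟨M2, hM2⟩ : ∃ M2 : ℕ, M2 = 2 * (2 ^ R * (2 ^ R * (R * (M + 2 * R * (M1 + 1))))) :=
    ⟨_, rfl⟩
  refine ⟨M1 + 1 + M2, fun L Lv _ _ hR fl rich N h y k g hfl hr hN hN2 hN0 hk hy hg0 hg hs he => ?_⟩
  have hk' : ∑ l, (y l : ℤ) = k := by exact_mod_cast hk
  have hy' : ∀ l, (1 : ℤ) ≤ y l := fun l => by exact_mod_cast hy l
  have hyk : (y h : ℤ) ≤ k := hk' ▸ single_le_sum (f := fun l => (y l : ℤ))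
    (fun l _ => Nat.cast_nonneg _) (mem_univ h)
  have hk0 : (0 : ℤ) < k := by linarith [hy' h]
  have hN' : ∀ a b, (N a b : ℤ) = N b a := fun a b => by rw [hN]
  have hN0' : ∀ a b, ¬ rich a b → (N a b : ℤ) = 0 := fun a b hab => by simp [hN0 a b hab]
  choose z z0 z1 z2 using fun l => level_STarget hT hR hfl k (y l) M hk0 (hy' l)
    (Nat.cast_nonneg _) (fun a b => N a b) hN' hN0' (g l) (hg0 l) (hg l)
  have z3 : ∀ l a b, |2 * (k : ℤ) * z l a b - y l * N a b| ≤ 2 * k * M1 * y l := fun l a b => by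
    rw [hM1]; push_cast; exact z2 l a b
  obtain ⟨x, x0, x1, x2⟩ := half_STarget (rich := rich)
    (fun a b => (N a b : ℤ) - ∑ l ∈ univ.erase h, (z l a b + z l b a))
    (fun a b => by simp only [hN' a b, add_comm (z _ a b)])
    (fun a => ((Int.even_coe_nat _).2 (hN2 a)).sub (even_sum _ fun l _ => ⟨_, rfl⟩))
    fun a b hab => by simp [hN0 a b hab, z0 _ a b hab, z0 _ b a fun e => hab (hr _ _ e)]
  have hM10 : (0 : ℤ) ≤ M1 := Nat.cast_nonneg _
  have hM20 : (0 : ℤ) ≤ M2 := Nat.cast_nonneg _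
  have x3 : ∀ a b, |2 * (k : ℤ) * x a b - y h * N a b| ≤ 2 * k * ((M1 + 1) * k) := fun a b => by
    have h1 := abs_le.1 ((abs_sum_le_sum_abs _ _).trans (sum_le_sum (s := univ.erase h)
      (f := fun l => |2 * (k : ℤ) * (z l a b + z l b a) - y l * (2 * N a b)|)
      (g := fun l => 4 * (k : ℤ) * M1 * y l) fun l _ => by
        have h2 := abs_le.1 (z3 l a b)
        have h3 := abs_le.1 (z3 l b a)
        rw [← hN' a b] at h3
        exact abs_le.2 ⟨by linarith [h2.1, h3.1], by linarith [h2.2, h3.2]⟩))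
    have h4 : ∑ l ∈ univ.erase h, (y l : ℤ) = k - y h := by
      rw [← hk', ← add_sum_erase _ _ (mem_univ h)]; ring
    rw [sum_sub_distrib, ← mul_sum, ← mul_sum, ← sum_mul, h4] at h1
    have h5 := abs_le.1 (x2 a b)
    have h6 := mul_le_mul_of_nonneg_left h5.1 hk0.le
    have h7 := mul_le_mul_of_nonneg_left h5.2 hk0.le
    have h8 : 0 ≤ (k : ℤ) * M1 * y h := by positivity
    have h9 : (k : ℤ) * 1 ≤ k * k := mul_le_mul_of_nonneg_left (by omega) hk0.le
    exact abs_le.2 ⟨by linarith [h1.1, h1.2], by linarith [h1.1, h1.2]⟩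
  have hsum : ∀ (f : Lv → ℤ), ∑ l, f l = f h + ∑ l ∈ univ.erase h, f l :=
    fun f => (add_sum_erase _ _ (mem_univ h)).symm
  have x4 : ∀ a, ∑ b, x a b + ∑ b, x b a = ∑ b, (N a b : ℤ) -
      ∑ l ∈ univ.erase h, (∑ b, z l a b + ∑ b, z l b a) := fun a => by
    rw [← sum_add_distrib, sum_congr rfl fun b _ => x1 a b, sum_sub_distrib, sum_comm]
    simp only [sum_add_distrib]
  have z4 : ∀ a, ∑ l ∈ univ.erase h, g l a =
      ∑ l ∈ univ.erase h, ∑ b, z l a b - ∑ l ∈ univ.erase h, ∑ b, z l b (fl a) := fun a => by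
    rw [← sum_sub_distrib]
    exact sum_congr rfl fun l _ => (z1 l a).symm
  obtain ⟨u, u0, u1, u2, u3⟩ := hub_STarget (rich := rich) hT hR hfl hr
    (fun a => ({a, fl a} : Finset L))
    (fun a b => ⟨fun e => by
      have : b ∈ ({a, fl a} : Finset L) := e ▸ mem_insert_self _ _
      simpa using this, by
      rintro (rfl | rfl)
      · rfl
      · rw [hfl, pair_comm]⟩)
    (fun a => g h a - dv_STarget fl x a) ((M + 2 * R * (M1 + 1)) * k) (by positivity)
    (fun a => (approx_STarget hR k (y h) ((M1 + 1) * k) (M * k) (g h a) hk0 (by positivity)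
      (fun a b => N a b) x hN' x3 a ((hg h a).trans (by
        rw [mul_assoc]
        exact mul_le_mul_of_nonneg_left (mul_le_mul_of_nonneg_left hyk (Nat.cast_nonneg _))
          (by positivity)))).trans_eq (by ring))
    (fun a => by
      have h1 := hs a
      have h2 := x4 a
      have h3 := x4 (fl a)
      have h4 := z4 a
      have h5 := z4 (fl a)
      rw [sum_sub_distrib, hsum, hsum fun l => g l (fl a)] at h1
      rw [sum_add_distrib] at h2 h3
      simp only [dv_STarget, hfl] at h5 ⊢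
      linarith)
    (fun a ha => by
      obtain ⟨r, h1⟩ := he a ha
      have h2 := x4 a
      have h4 := z4 a
      rw [hsum] at h1
      rw [sum_add_distrib] at h2
      simp only [dv_STarget, ha] at h4 ⊢
      exact ⟨r - ∑ b, (N a b : ℤ) + ∑ b, x b a + ∑ l ∈ univ.erase h, ∑ b, z l b a, by linarith⟩)
    fun K hK => by rw [sum_sub_distrib, hg0 h K hK, closed_STarget hfl x x0 K hK, sub_zero]
  have u4 : ∀ a b, |u a b| ≤ M2 * k := fun a b => by
    refine (u3 a b).trans ?_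
    have h1 : (Fintype.card (Finset L) : ℤ) ≤ 2 ^ R := by
      rw [Fintype.card_finset]
      exact_mod_cast Nat.pow_le_pow_right two_pos hR
    rw [hM2]
    push_cast
    refine le_trans ?_ (le_of_eq (show 2 * ((2 : ℤ) ^ R * (2 ^ R *
      (R * ((M + 2 * R * (M1 + 1)) * k)))) = _ by ring))
    gcongr
  obtain ⟨Z, Z1, Z2⟩ : ∃ Z : Lv → L → L → ℤ, (Z h = fun a b => x a b + u a b) ∧
      ∀ l, l ≠ h → Z l = z l :=
    ⟨Function.update z h fun a b => x a b + u a b, Function.update_self _ _ _,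
      fun l hl => Function.update_of_ne hl _ _⟩
  refine ⟨Z, fun l a b hab => ?_, fun a b => ?_, fun l a => ?_, fun l a b hl => ?_, fun a b => ?_⟩
  · by_cases hl : l = h
    · simp [hl, Z1, x0 a b hab, u0 a b hab]
    · rw [Z2 l hl, z0 l a b hab]
  · rw [hsum, sum_congr rfl fun l hl => by rw [Z2 l (ne_of_mem_erase hl)], Z1]
    linarith [x1 a b, u1 a b]
  · by_cases hl : l = h
    · have := add_STarget (fl := fl) x u a
      rw [u2] at this
      rw [hl, Z1]
      exact this.trans (by ring)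
    · rw [Z2 l hl]
      exact z1 l a
  · rw [Z2 l hl]
    refine (z3 l a b).trans ?_
    push_cast
    gcongr
    linarith
  · rw [Z1]
    have h1 := abs_le.1 (x3 a b)
    have h2 := abs_le.1 (u4 a b)
    have h3 := mul_le_mul_of_nonneg_left h2.1 (show 0 ≤ 2 * (k : ℤ) by omega)
    have h4 := mul_le_mul_of_nonneg_left h2.2 (show 0 ≤ 2 * (k : ℤ) by omega)
    push_cast
    exact abs_le.2 ⟨by linarith [h1.1], by linarith [h1.2]⟩

end Pool.Agent.MP_d20a68_co.T

end

section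

/-! Splitting a number in proportion to given weights. -/

set_option autoImplicit false
open Finset
open scoped Classical

namespace Pool.Agent.MP_d20a68_co.T

theorem splitS : SplitP := by
  intro ι S w X hW
  obtain ⟨W, eW⟩ : ∃ W, W = ∑ i ∈ S, w i := ⟨_, rfl⟩
  rw [← eW] at hW ⊢
  have h1 : ∑ i ∈ S, X * w i / W ≤ X := by
    refine Nat.le_of_mul_le_mul_right ?_ hW
    rw [sum_mul, eW, mul_sum]
    exact sum_le_sum fun i _ => Nat.div_mul_le_self _ _
  have h2 : X ≤ ∑ i ∈ S, X * w i / W + S.card := by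
    refine Nat.le_of_mul_le_mul_left ?_ hW
    rw [card_eq_sum_ones, ← sum_add_distrib, mul_sum, mul_comm, eW, mul_sum, ← eW]
    exact sum_le_sum fun i _ => (Nat.lt_mul_div_succ _ hW).le
  obtain ⟨T, hT, hc⟩ := exists_subset_card_eq (s := S) (n := X - ∑ i ∈ S, X * w i / W) (by omega)
  refine ⟨fun i => X * w i / W + if i ∈ T then 1 else 0, ?_, fun i _ => ?_⟩
  · rw [sum_add_distrib, ← card_filter, filter_mem_eq_inter, inter_eq_right.2 hT, hc]
    omega
  · have := Nat.div_mul_le_self (X * w i) W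
    rw [add_mul]
    split_ifs <;> omega

end Pool.Agent.MP_d20a68_co.T

end

section

set_option autoImplicit false
open Finset
open scoped Classical

namespace Pool.Agent.MP_d20a68_co.T

theorem full_SGreedy {E V J : Type} [Fintype V] (a b : E → V) (T : Finset J) (pick : J → E)
    (A : Finset E) {cap : ℕ} {Δ m : ℝ} (hc : 0 < cap) (hΔ : 0 ≤ Δ) (hm : (T.card : ℝ) ≤ m)
    (hA : ∀ v, ((A.filter fun d => a d = v ∨ b d = v).card : ℝ) ≤ Δ) :
    ∃ B : Finset E, (B.card : ℝ) ≤ Δ * (2 * m / cap) ∧ ∀ d ∈ A, d ∉ B → ∀ v, a d = v ∨ b d = v →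
      (T.filter fun j => a (pick j) = v ∨ b (pick j) = v).card < cap := by
  set F : Finset V := univ.filter fun v =>
    cap ≤ (T.filter fun j => a (pick j) = v ∨ b (pick j) = v).card with hF
  have h1 : F.card * cap ≤ T.card * 2 := by
    refine card_mul_le_card_mul (fun v j => a (pick j) = v ∨ b (pick j) = v)
      (fun v hv => (mem_filter.1 hv).2) fun j _ => ?_
    refine (card_le_card (t := {a (pick j), b (pick j)}) fun v hv => ?_).trans card_le_two
    have := (mem_filter.1 hv).2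
    rw [mem_insert, mem_singleton]
    exact this.imp Eq.symm Eq.symm
  have hc' : (0 : ℝ) < cap := by exact_mod_cast hc
  have h2 : (F.card : ℝ) ≤ 2 * m / cap := by
    rw [le_div_iff₀ hc']
    have : (F.card : ℝ) * cap ≤ T.card * 2 := by exact_mod_cast h1
    linarith
  refine ⟨F.biUnion fun v => A.filter fun d => a d = v ∨ b d = v, ?_, fun d hd hB v hv => ?_⟩
  · calc ((F.biUnion fun v => A.filter fun d => a d = v ∨ b d = v).card : ℝ)
        ≤ ∑ v ∈ F, ((A.filter fun d => a d = v ∨ b d = v).card : ℝ) := by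
          exact_mod_cast card_biUnion_le
      _ ≤ ∑ _v ∈ F, Δ := sum_le_sum fun v _ => hA v
      _ = Δ * F.card := by rw [sum_const, nsmul_eq_mul, mul_comm]
      _ ≤ _ := mul_le_mul_of_nonneg_left h2 hΔ
  · by_contra hn
    exact hB (mem_biUnion.2 ⟨v, mem_filter.2 ⟨mem_univ _, not_lt.1 hn⟩, mem_filter.2 ⟨hd, hv⟩⟩)

theorem greedyS : GreedyP := by
  intro E V J K _ _ _ _ φ src Av k1 k2 cap Δ mm hφ hc hΔ hm hA hD hL
  have key : ∀ S : Finset J, ∃ pick : J → E, (∀ j, pick j ∈ Av j) ∧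
      (∀ j ∈ S, ∀ j' ∈ S, pick j = pick j' ∨ pick j = φ (pick j') → j = j') ∧
      ∀ v κ, (S.filter fun j => (k1 j = κ ∨ k2 j = κ) ∧
        (src (pick j) = v ∨ src (φ (pick j)) = v)).card ≤ cap κ := by
    intro S
    induction S using Finset.induction_on with
    | empty =>
      have ne : ∀ j, ∃ d, d ∈ Av j := fun j => by
        have m0 : ∀ κ, 0 ≤ mm κ := fun κ => (Nat.cast_nonneg _).trans (hm κ)
        have h1 := m0 (k1 j)
        have h2 := m0 (k2 j)
        have h3 := hΔ j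
        have : (0 : ℝ) < (Av j).card := lt_of_le_of_lt (by positivity) (hL j)
        exact card_pos.1 (by exact_mod_cast this)
      choose pick hp using ne
      exact ⟨pick, hp, by simp, by simp⟩
    | insert j S hj ih =>
      obtain ⟨pick, h1, h2, h3⟩ := ih
      have hT : ∀ κ, ((S.filter fun j => k1 j = κ ∨ k2 j = κ).card : ℝ) ≤ mm κ := fun κ =>
        le_trans (by exact_mod_cast card_le_card (filter_subset_filter _ (subset_univ S))) (hm κ)
      obtain ⟨B1, b1, c1⟩ := full_SGreedy src (fun d => src (φ d)) _ pick (Av j) (hc (k1 j)) (hΔ j)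
        (hT (k1 j)) (hA j)
      obtain ⟨B2, b2, c2⟩ := full_SGreedy src (fun d => src (φ d)) _ pick (Av j) (hc (k2 j)) (hΔ j)
        (hT (k2 j)) (hA j)
      set T := S.filter fun j' => k1 j' = k1 j ∨ k2 j' = k1 j with hT'
      have b0 : ((T.image pick ∪ T.image (fun i => φ (pick i)) ∪ (B1 ∪ B2)).card : ℝ) ≤
          T.card + T.card + (B1.card + B2.card) := by
        exact_mod_cast (card_union_le _ _).trans (add_le_add ((card_union_le _ _).trans
          (add_le_add card_image_le card_image_le)) (card_union_le _ _))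
      have b3 : (T.image pick ∪ T.image (fun i => φ (pick i)) ∪ (B1 ∪ B2)).card < (Av j).card := by
        have e1 := hL j
        have e2 : (T.card : ℝ) ≤ _ := hT (k1 j)
        rw [mul_add] at e1
        exact_mod_cast (show ((T.image pick ∪ T.image (fun i => φ (pick i)) ∪
          (B1 ∪ B2)).card : ℝ) < (Av j).card by linarith)
      obtain ⟨d, hd, hn⟩ := exists_mem_notMem_of_card_lt_card b3
      simp only [mem_union, not_or] at hn
      have hne : ∀ i ∈ S, d ≠ pick i ∧ d ≠ φ (pick i) := fun i hi => by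
        by_cases e : k1 i = k1 j
        · have hi' : i ∈ T := mem_filter.2 ⟨hi, Or.inl e⟩
          exact ⟨fun e => hn.1.1 (mem_image.2 ⟨i, hi', e.symm⟩),
            fun e => hn.1.2 (mem_image.2 ⟨i, hi', e.symm⟩)⟩
        · have := hD i j e _ (h1 i)
          exact ⟨fun e => this.1 (e ▸ hd), fun e => this.2 (e ▸ hd)⟩
      have up : ∀ i ∈ S, Function.update pick j d i = pick i := fun i hi =>
        Function.update_of_ne (fun e : i = j => hj (e ▸ hi)) _ _
      refine ⟨Function.update pick j d, fun i => ?_, fun i hi i' hi' e => ?_, fun v κ => ?_⟩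
      · by_cases e : i = j
        · rw [e, Function.update_self]
          exact hd
        · rw [Function.update_of_ne e]
          exact h1 i
      · rcases mem_insert.1 hi with a | a
        · rcases mem_insert.1 hi' with a' | a'
          · rw [a, a']
          · rw [a, Function.update_self, up i' a'] at e
            exact (e.elim (hne i' a').1 (hne i' a').2).elim
        · rcases mem_insert.1 hi' with a' | a'
          · rw [a', Function.update_self, up i a] at e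
            refine (e.elim (hne i a).1.symm fun e => (hne i a).2 ?_).elim
            rw [e, hφ]
          · rw [up i a, up i' a'] at e
            exact h2 i a i' a' e
      · have e : (S.filter fun i => (k1 i = κ ∨ k2 i = κ) ∧ (src (Function.update pick j d i) = v ∨
            src (φ (Function.update pick j d i)) = v)) = S.filter fun i => (k1 i = κ ∨ k2 i = κ) ∧
              (src (pick i) = v ∨ src (φ (pick i)) = v) :=
          filter_congr fun i hi => by rw [up i hi]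
        rw [filter_insert, e, Function.update_self]
        split_ifs with h
        · refine (card_insert_le _ _).trans (Nat.succ_le_of_lt ?_)
          rcases h.1 with rfl | rfl
          · simpa only [hT', filter_filter] using c1 d hd hn.2.1 v h.2
          · simpa only [filter_filter] using c2 d hd hn.2.2 v h.2
        · exact h3 v κ
  obtain ⟨pick, h1, h2, h3⟩ := key univ
  exact ⟨pick, h1, fun j j' => h2 j (mem_univ _) j' (mem_univ _), h3⟩

end Pool.Agent.MP_d20a68_co.T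

end

section

set_option autoImplicit false
open Finset
open scoped Classical

namespace Pool.Agent.MP_d20a68_co.T

theorem step_SWalk {V : Type} (a : V → V → ℝ) (X P Y T : Finset V) (D : V → ℝ) {k t n : ℝ}
    (ht : 0 ≤ t) (hk : 0 ≤ k) (hY : (Y.card : ℝ) ≤ n) (hT : (T.card : ℝ) ≤ n)
    (hD : ∀ v, 0 ≤ D v ∧ D v ≤ k)
    (h : ∀ v ∈ Y, ∀ w ∈ T, ∑ u ∈ X, a v u * a w u ≤ 4 * ∑ u ∈ P, a v u * a w u + t) :
    ∑ v ∈ Y, ∑ u ∈ X, a v u * D v * ∑ w ∈ T, a w u ≤
      4 * ∑ v ∈ Y, ∑ u ∈ P, a v u * D v * ∑ w ∈ T, a w u + t * n ^ 2 * k := by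
  have e : ∀ (Z : Finset V) v, ∑ u ∈ Z, a v u * D v * ∑ w ∈ T, a w u =
      ∑ w ∈ T, (∑ u ∈ Z, a v u * a w u) * D v := fun Z v => by
    simp only [mul_sum, sum_mul]
    rw [sum_comm]
    exact sum_congr rfl fun w _ => sum_congr rfl fun u _ => by ring
  have b : ∑ _v ∈ Y, ∑ _w ∈ T, t * k ≤ t * n ^ 2 * k := by
    rw [sum_const, sum_const, nsmul_eq_mul, nsmul_eq_mul, ← mul_assoc]
    have := mul_le_mul_of_nonneg_right
      (mul_le_mul hY hT (Nat.cast_nonneg _) ((Nat.cast_nonneg _).trans hY)) (mul_nonneg ht hk)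
    linarith
  simp only [e]
  refine le_trans ?_ (add_le_add_right b _)
  rw [mul_sum, ← sum_add_distrib]
  refine sum_le_sum fun v hv => ?_
  rw [mul_sum, ← sum_add_distrib]
  refine sum_le_sum fun w hw => ?_
  have h1 := mul_le_mul_of_nonneg_right (h v hv w hw) (hD v).1
  have h2 := mul_le_mul_of_nonneg_left (hD v).2 ht
  linarith

theorem bnd_SWalk {V : Type} (a : V → V → ℝ) (X Y : Finset V) (C D : V → ℝ) {k : ℝ} (hk : 0 ≤ k)
    (ha : ∀ u v, 0 ≤ a u v) (hd : ∀ u, ∑ v ∈ Y, a u v ≤ k) (hC : ∀ u, 0 ≤ C u)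
    (hD : ∀ v, D v ≤ k) : ∑ u ∈ X, ∑ v ∈ Y, a u v * C u * D v ≤ k ^ 2 * ∑ u ∈ X, C u := by
  rw [mul_sum]
  refine sum_le_sum fun u _ => (sum_le_sum fun v _ =>
    mul_le_mul_of_nonneg_left (hD v) (mul_nonneg (ha u v) (hC u))).trans ?_
  rw [← sum_mul, ← sum_mul]
  have := mul_le_mul_of_nonneg_right (hd u) (mul_nonneg (hC u) hk)
  linarith

theorem walkS : WalkP := by
  intro V _ A X Y P Q S T k t n hs hP hQ hS hT ht hk hd hX hY h1 h2
  obtain ⟨a, ea⟩ : ∃ a : V → V → ℝ, ∀ u v, a u v = if A u v then 1 else 0 := ⟨_, fun _ _ => rfl⟩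
  have a0 : ∀ u v, 0 ≤ a u v := fun u v => by
    rw [ea]
    split_ifs <;> norm_num
  have a1 : ∀ u v, a u v = a v u := fun u v => by
    rw [ea, ea, if_congr ⟨hs u v, hs v u⟩ rfl rfl]
  have c1 : ∀ (Z : Finset V) u, ((Z.filter fun w => A u w).card : ℝ) = ∑ w ∈ Z, a u w :=
    fun Z u => by simp only [ea, sum_boole]
  have c2 : ∀ (Z : Finset V) u u', ((Z.filter fun w => A u w ∧ A u' w).card : ℝ) =
      ∑ w ∈ Z, a u w * a u' w := fun Z u u' => by
    simp only [ea, ite_zero_mul_ite_zero, mul_one, sum_boole]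
  have c3 : ∀ Z W : Finset V, (ee A Z W : ℝ) = ∑ u ∈ Z, ∑ w ∈ W, a u w := fun Z W => by
    rw [← sum_product']
    simp only [ea, sum_boole, ee]
  have d1 : ∀ (Z : Finset V) u, 0 ≤ ∑ w ∈ Z, a u w ∧ ∑ w ∈ Z, a u w ≤ k := fun Z u =>
    ⟨sum_nonneg fun _ _ => a0 _ _, (sum_le_sum_of_subset_of_nonneg (subset_univ _)
      fun _ _ _ => a0 _ _).trans ((c1 _ _).symm.trans_le (hd u))⟩
  have sw : ∀ Z W : Finset V, ∑ u ∈ Z, ∑ v ∈ W, a u v * (∑ w ∈ T, a u w) * ∑ w ∈ P \ S, a w v =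
      ∑ v ∈ W, ∑ u ∈ Z, a v u * (∑ w ∈ P \ S, a v w) * ∑ w ∈ T, a w u := fun Z W => by
    rw [sum_comm]
    refine sum_congr rfl fun v _ => sum_congr rfl fun u _ => ?_
    simp only [a1 u, a1 _ v]
    ring
  have n1 : ∀ {Z W : Finset V}, Z ⊆ W → (W.card : ℝ) ≤ n → (Z.card : ℝ) ≤ n := fun e e' =>
    (Nat.cast_le.2 (card_le_card e)).trans e'
  have d2 : ∀ (Z : Finset V) u, ∑ w ∈ Z, a w u ≤ k := fun Z u => by
    simpa only [a1 u] using (d1 Z u).2
  simp only [c2] at h1 h2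
  have s1 := step_SWalk a X P Y T _ ht hk hY (n1 (hT.trans hQ) hY) (d1 (P \ S))
    fun v hv w hw => h2 v hv w (hQ (hT hw))
  have s2 := step_SWalk a Y Q P (P \ S) _ ht hk (n1 hP hX) (n1 (sdiff_subset.trans hP) hX) (d1 T)
    fun v hv w hw => h1 v (hP hv) w (hP (sdiff_subset hw))
  have s3 := bnd_SWalk a (P \ S) Q _ _ hk a0 (fun u => (d1 Q u).2) (fun u => (d1 T u).1)
    (d2 (P \ S))
  have s4 := bnd_SWalk a T S _ _ hk a0 (fun u => (d1 S u).2) (fun u => (d1 (P \ S) u).1) (d2 T)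
  have s5 : ∑ u ∈ S, ∑ v ∈ Q \ T, a u v * (∑ w ∈ T, a u w) * ∑ w ∈ P \ S, a w v ≤
      k ^ 2 * ∑ u ∈ S, ∑ v ∈ Q \ T, a u v := by
    simp only [mul_sum _ _ (k ^ 2)]
    refine sum_le_sum fun u _ => sum_le_sum fun v _ => ?_
    rw [mul_assoc, mul_comm, sq]
    exact mul_le_mul_of_nonneg_right (mul_le_mul (d1 T u).2 (d2 _ v)
      (sum_nonneg fun _ _ => a0 _ _) hk) (a0 u v)
  have s6 : ∑ v ∈ T, ∑ w ∈ P \ S, a v w = ∑ w ∈ P \ S, ∑ v ∈ T, a w v := by
    rw [sum_comm]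
    simp only [a1]
  have s7 : 0 ≤ k ^ 2 * ∑ u ∈ S, ∑ v ∈ Q \ T, a u v :=
    mul_nonneg (sq_nonneg k) (sum_nonneg fun u _ => (d1 _ u).1)
  rw [← sw, ← sw] at s1
  rw [← sw, s6] at s4
  rw [← sum_sdiff hS (f := fun u => ∑ v ∈ Q, _)] at s2
  simp only [← sum_sdiff hT (f := fun v => a _ v * _ * ∑ w ∈ P \ S, a w v),
    sum_add_distrib] at s2 s3
  have e : ∑ e ∈ (X ×ˢ Y).filter (fun e => A e.1 e.2),
      ((T.filter fun w => A e.1 w).card : ℝ) * (((P \ S).filter fun w => A e.2 w).card : ℝ) =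
      ∑ u ∈ X, ∑ v ∈ Y, a u v * (∑ w ∈ T, a u w) * ∑ w ∈ P \ S, a w v := by
    rw [sum_filter, sum_product]
    refine sum_congr rfl fun u _ => sum_congr rfl fun v _ => ?_
    simp only [c1, a1 _ v]
    rw [a1 v, ea u v]
    split_ifs <;> simp
  rw [e, c3, c3]
  linarith

end Pool.Agent.MP_d20a68_co.T

end

section

/-! Expansion passes to a selected part. -/

set_option autoImplicit false
set_option linter.unusedSectionVars false
set_option linter.unusedVariables false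
open Finset
open scoped Classical

namespace Pool.Agent.MP_d20a68_co.T

theorem eel_SInh {V : Type} (A : V → V → Prop) (X Y : Finset V) :
    (ee A X Y : ℝ) = ∑ u ∈ X, ((Y.filter fun w => A u w).card : ℝ) := by
  unfold ee
  rw [Finset.card_filter, Finset.sum_product]
  push_cast
  refine Finset.sum_congr rfl fun u _ => ?_
  rw [Finset.card_filter]
  push_cast
  rfl

theorem eer_SInh {V : Type} (A : V → V → Prop) (hA : ∀ u v, A u v → A v u) (X Y : Finset V) :
    (ee A X Y : ℝ) = ∑ v ∈ Y, ((X.filter fun w => A v w).card : ℝ) := by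
  unfold ee
  rw [Finset.card_filter, Finset.sum_product_right]
  push_cast
  refine Finset.sum_congr rfl fun v _ => ?_
  rw [Finset.card_filter]
  push_cast
  refine Finset.sum_congr rfl fun u _ => ?_
  by_cases h : A u v
  · rw [if_pos h, if_pos (hA _ _ h)]
  · rw [if_neg h, if_neg fun h' => h (hA _ _ h')]

theorem low_SInh {α : Type} (B X : Finset α) (f : α → ℝ) (c : ℝ) (hB : B ⊆ X)
    (h0 : ∀ u, 0 ≤ f u) (hc : ∀ u ∈ B, c ≤ f u) : (B.card : ℝ) * c ≤ ∑ u ∈ X, f u := by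
  have h1 := Finset.card_nsmul_le_sum B f c hc
  rw [nsmul_eq_mul] at h1
  exact h1.trans (Finset.sum_le_sum_of_subset_of_nonneg hB fun u _ _ => h0 u)

theorem spl_SInh {V : Type} (A : V → V → Prop) (Q T : Finset V) (hT : T ⊆ Q) (u : V) :
    ((Q.filter fun w => A u w).card : ℝ) =
      (T.filter fun w => A u w).card + ((Q \ T).filter fun w => A u w).card := by
  rw [Finset.card_filter, Finset.card_filter, Finset.card_filter, ← Finset.sum_sdiff hT]
  push_cast
  ring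

theorem box_SInh {V : Type} (A : V → V → Prop) (X Y X' Y' : Finset V) (hX : X' ⊆ X)
    (hY : Y' ⊆ Y) (f h : V → ℝ) (c : ℝ) (hc : 0 ≤ c) (f0 : ∀ u, 0 ≤ f u) (h0 : ∀ u, 0 ≤ h u)
    (hf : ∀ u ∈ X', c ≤ f u) (hh : ∀ u ∈ Y', c ≤ h u) :
    (ee A X' Y' : ℝ) * (c * c) ≤
      ∑ e ∈ (X ×ˢ Y).filter (fun e => A e.1 e.2), f e.1 * h e.2 := by
  refine low_SInh ((X' ×ˢ Y').filter fun e => A e.1 e.2) _ (fun e => f e.1 * h e.2) (c * c)
    (Finset.filter_subset_filter _ (Finset.product_subset_product hX hY))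
    (fun e => mul_nonneg (f0 _) (h0 _)) ?_
  intro e he
  obtain ⟨h1, h2⟩ := Finset.mem_product.1 (Finset.mem_filter.1 he).1
  exact mul_le_mul (hf _ h1) (hh _ h2) hc (f0 _)

theorem cov_SInh {V : Type} (S B C : Finset V) (h : ∀ u ∈ S, u ∈ B ∨ u ∈ C) :
    (S.card : ℝ) ≤ B.card + C.card := by
  have h1 : S ⊆ B ∪ C := fun u hu => Finset.mem_union.2 (h u hu)
  exact_mod_cast (Finset.card_le_card h1).trans (Finset.card_union_le _ _)

theorem ar1_SInh {a b d Γ e1 e2 : ℝ} (ha : 0 ≤ a) (hb : 0 ≤ b) (h : 2 * Γ ≤ d)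
    (h1 : a * (d / 2) ≤ e1) (h2 : b * (d / 2) ≤ e2) : Γ * (a + b) ≤ e1 + e2 := by
  nlinarith

theorem ar2_SInh {a b n Γ g e : ℝ} (ha : a ≤ n) (hb : b ≤ n) (h0 : 0 ≤ Γ) (h : 2 * n * Γ ≤ g)
    (h1 : e < Γ * (a + b)) : e < g := by
  nlinarith

theorem ar3_SInh {a b d g e1 e2 : ℝ} (hd : 0 < d) (hg : 8 * g ≤ d ^ 2) (he : e1 + e2 < g)
    (h1 : a * (d / 2) ≤ e1) (h2 : b * (d / 2) ≤ e2) : a + b < d / 4 := by
  refine lt_of_mul_lt_mul_right (a := d / 2) ?_ (by linarith)
  nlinarith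

theorem ar4_SInh {φ d k g r r' e1 e2 E1 E2 : ℝ} (hd : 0 < d) (hdk : d ≤ k) (he : e1 + e2 < g)
    (m3 : φ * (d / 4) * (d / 4) ≤ E1 + E2)
    (c1 : E1 * (d / 2 * (d / 2)) ≤ 32 * k ^ 2 * (e1 + e2) + r)
    (c2 : E2 * (d / 2 * (d / 2)) ≤ 32 * k ^ 2 * (e2 + e1) + r)
    (hr : r' = 8 * r) (hfin : 256 * k ^ 2 * g + r' ≤ φ * d ^ 4 / 16) : False := by
  have m4 := mul_le_mul_of_nonneg_right m3 (show 0 ≤ d / 2 * (d / 2) by positivity)
  have m5 : k ^ 2 * (e1 + e2) < k ^ 2 * g :=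
    mul_lt_mul_of_pos_left he (pow_pos (by linarith) 2)
  linarith

theorem inhS (hW : WalkP) : InhP := by
  intro V _ A X Y P Q k d t n φ g Γ hA hP hQ ht hd hφ hΓ hk hX hY hdX hdY hcX hcY hexp hg hfin
    hΓd hΓg S hS T hT hST
  have n0 : ∀ (B : Finset V) (u : V), (0 : ℝ) ≤ ((B.filter fun w => A u w).card : ℝ) :=
    fun B u => Nat.cast_nonneg _
  have nle : ∀ (B : Finset V) (u : V), ((B.filter fun w => A u w).card : ℝ) ≤ B.card :=
    fun B u => by exact_mod_cast Finset.card_filter_le _ _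
  have hS0 : (0 : ℝ) ≤ S.card := Nat.cast_nonneg _
  have hT0 : (0 : ℝ) ≤ T.card := Nat.cast_nonneg _
  have hQT : ∀ u ∈ X, ((T.filter fun w => A u w).card : ℝ) ≤ d / 2 →
      d / 2 ≤ (((Q \ T).filter fun w => A u w).card : ℝ) := by
    intro u hu h
    have h1 := hdX u hu
    rw [spl_SInh A Q T hT] at h1
    linarith
  have hPS : ∀ v ∈ Y, ((S.filter fun w => A v w).card : ℝ) ≤ d / 2 →
      d / 2 ≤ (((P \ S).filter fun w => A v w).card : ℝ) := by
    intro v hv h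
    have h1 := hdY v hv
    rw [spl_SInh A P S hS] at h1
    linarith
  have e1l : ∀ B ⊆ S, (∀ u ∈ B, d / 2 ≤ (((Q \ T).filter fun w => A u w).card : ℝ)) →
      (B.card : ℝ) * (d / 2) ≤ ee A S (Q \ T) := by
    intro B hB h
    rw [eel_SInh]
    exact low_SInh B S _ _ hB (n0 _) h
  have e1r : ∀ B ⊆ Q \ T, (∀ u ∈ B, d / 2 ≤ ((S.filter fun w => A u w).card : ℝ)) →
      (B.card : ℝ) * (d / 2) ≤ ee A S (Q \ T) := by
    intro B hB h
    rw [eer_SInh A hA]
    exact low_SInh B _ _ _ hB (n0 _) h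
  have e2l : ∀ B ⊆ P \ S, (∀ u ∈ B, d / 2 ≤ ((T.filter fun w => A u w).card : ℝ)) →
      (B.card : ℝ) * (d / 2) ≤ ee A (P \ S) T := by
    intro B hB h
    rw [eel_SInh]
    exact low_SInh B _ _ _ hB (n0 _) h
  have e2r : ∀ B ⊆ T, (∀ u ∈ B, d / 2 ≤ (((P \ S).filter fun w => A u w).card : ℝ)) →
      (B.card : ℝ) * (d / 2) ≤ ee A (P \ S) T := by
    intro B hB h
    rw [eer_SInh A hA]
    exact low_SInh B _ _ _ hB (n0 _) h
  by_cases hs : (S.card : ℝ) + T.card ≤ d / 2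
  · have h1 := e1l S (Finset.Subset.refl _) fun u hu =>
      hQT u (hP (hS hu)) (by linarith [nle T u])
    have h2 := e2r T (Finset.Subset.refl _) fun u hu =>
      hPS u (hQ (hT hu)) (by linarith [nle S u])
    exact ar1_SInh hS0 hT0 hΓd h1 h2
  push Not at hs
  by_contra hcon
  push Not at hcon
  have hSn : (S.card : ℝ) ≤ n :=
    le_trans (by exact_mod_cast Finset.card_le_card (hS.trans hP)) hX
  have hTn : (T.card : ℝ) ≤ n :=
    le_trans (by exact_mod_cast Finset.card_le_card (hT.trans hQ)) hY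
  have heg : (ee A S (Q \ T) : ℝ) + ee A (P \ S) T < g := ar2_SInh hSn hTn hΓ hΓg hcon
  have hdk : d ≤ k := by
    have hle : ∀ (B : Finset V) (u : V), ((B.filter fun w => A u w).card : ℝ) ≤ k := by
      intro B u
      refine le_trans ?_ (hk u)
      exact_mod_cast Finset.card_le_card (Finset.filter_subset_filter _ (Finset.subset_univ B))
    rcases S.eq_empty_or_nonempty with h | ⟨u, hu⟩
    · rcases T.eq_empty_or_nonempty with h' | ⟨v, hv⟩
      · rw [h, h'] at hs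
        simp only [Finset.card_empty, Nat.cast_zero] at hs
        linarith
      · exact (hdY v (hQ (hT hv))).trans (hle _ _)
    · exact (hdX u (hP (hS hu))).trans (hle _ _)
  obtain ⟨X', hX'⟩ : ∃ X' : Finset V, ∀ u, u ∈ X' ↔
      u ∈ X ∧ d / 2 ≤ ((T.filter fun w => A u w).card : ℝ) :=
    ⟨X.filter fun u => d / 2 ≤ ((T.filter fun w => A u w).card : ℝ), fun u => Finset.mem_filter⟩
  obtain ⟨Y', hY'⟩ : ∃ Y' : Finset V, ∀ u, u ∈ Y' ↔
      u ∈ Y ∧ d / 2 ≤ ((S.filter fun w => A u w).card : ℝ) :=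
    ⟨Y.filter fun u => d / 2 ≤ ((S.filter fun w => A u w).card : ℝ), fun u => Finset.mem_filter⟩
  have hXs : X' ⊆ X := fun u hu => ((hX' u).1 hu).1
  have hYs : Y' ⊆ Y := fun u hu => ((hY' u).1 hu).1
  have hXn : ∀ u ∈ X, u ∉ X' → d / 2 ≤ (((Q \ T).filter fun w => A u w).card : ℝ) :=
    fun u hu h => hQT u hu (le_of_lt (lt_of_not_ge fun h' => h ((hX' u).2 ⟨hu, h'⟩)))
  have hYn : ∀ u ∈ Y, u ∉ Y' → d / 2 ≤ (((P \ S).filter fun w => A u w).card : ℝ) :=
    fun u hu h => hPS u hu (le_of_lt (lt_of_not_ge fun h' => h ((hY' u).2 ⟨hu, h'⟩)))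
  have w1 := hW V A X Y P Q S T k t n hA hP hQ hS hT ht (by linarith) hk hX hY hcX hcY
  have w2 := hW V A X Y P Q (P \ S) (Q \ T) k t n hA hP hQ Finset.sdiff_subset
    Finset.sdiff_subset ht (by linarith) hk hX hY hcX hcY
  rw [Finset.sdiff_sdiff_eq_self hS, Finset.sdiff_sdiff_eq_self hT] at w2
  have b1 := box_SInh A X Y X' (Y \ Y') hXs Finset.sdiff_subset _ _ (d / 2) (by linarith)
    (n0 T) (n0 (P \ S)) (fun u hu => ((hX' u).1 hu).2)
    (fun u hu => hYn u (Finset.mem_sdiff.1 hu).1 (Finset.mem_sdiff.1 hu).2)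
  have b2 := box_SInh A X Y (X \ X') Y' Finset.sdiff_subset hYs _ _ (d / 2) (by linarith)
    (n0 (Q \ T)) (n0 S)
    (fun u hu => hXn u (Finset.mem_sdiff.1 hu).1 (Finset.mem_sdiff.1 hu).2)
    (fun u hu => ((hY' u).1 hu).2)
  have c1 := b1.trans w1
  have c2 := b2.trans w2
  have a1 := e1l (S \ X') Finset.sdiff_subset fun u hu =>
    hXn u (hP (hS (Finset.mem_sdiff.1 hu).1)) (Finset.mem_sdiff.1 hu).2
  have a2 := e2r (T \ Y') Finset.sdiff_subset fun u hu =>
    hYn u (hQ (hT (Finset.mem_sdiff.1 hu).1)) (Finset.mem_sdiff.1 hu).2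
  have a3 := e2l ((P \ S) ∩ X') Finset.inter_subset_left fun u hu =>
    ((hX' u).1 (Finset.mem_inter.1 hu).2).2
  have a4 := e1r ((Q \ T) ∩ Y') Finset.inter_subset_left fun u hu =>
    ((hY' u).1 (Finset.mem_inter.1 hu).2).2
  have v1 := cov_SInh S (S \ X') X' fun u hu => by
    by_cases h : u ∈ X'
    · exact Or.inr h
    · exact Or.inl (Finset.mem_sdiff.2 ⟨hu, h⟩)
  have v2 := cov_SInh T (T \ Y') Y' fun u hu => by
    by_cases h : u ∈ Y'
    · exact Or.inr h
    · exact Or.inl (Finset.mem_sdiff.2 ⟨hu, h⟩)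
  have v3 := cov_SInh (P \ S) ((P \ S) ∩ X') (X \ X') fun u hu => by
    by_cases h : u ∈ X'
    · exact Or.inl (Finset.mem_inter.2 ⟨hu, h⟩)
    · exact Or.inr (Finset.mem_sdiff.2 ⟨hP (Finset.mem_sdiff.1 hu).1, h⟩)
  have v4 := cov_SInh (Q \ T) ((Q \ T) ∩ Y') (Y \ Y') fun u hu => by
    by_cases h : u ∈ Y'
    · exact Or.inl (Finset.mem_inter.2 ⟨hu, h⟩)
    · exact Or.inr (Finset.mem_sdiff.2 ⟨hQ (Finset.mem_sdiff.1 hu).1, h⟩)
  have hST' : (S.card : ℝ) + T.card ≤ (P \ S).card + (Q \ T).card := by exact_mod_cast hST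
  have s1 := ar3_SInh hd hg heg a1 a2
  have s2 := ar3_SInh hd hg heg a4 a3
  have m1 : d / 4 ≤ (X'.card : ℝ) + Y'.card := by linarith
  have m2 : d / 4 ≤ ((X \ X').card : ℝ) + (Y \ Y').card := by linarith
  have m3 : φ * (d / 4) * (d / 4) ≤ (ee A X' (Y \ Y') : ℝ) + ee A (X \ X') Y' := by
    refine le_trans ?_ (hexp X' hXs Y' hYs)
    exact mul_le_mul (mul_le_mul_of_nonneg_left m1 hφ) m2 (by linarith)
      (mul_nonneg hφ (by linarith))
  exact ar4_SInh hd hdk heg m3 c1 c2 (by ring) hfin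

end Pool.Agent.MP_d20a68_co.T

end
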