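import Pool.Agent.Mg.Xd20a68.Ge7e6f2
import Pool.Agent.Mg.Xd20a68.G7633c2

section

/-! The light vertices. -/

set_option autoImplicit false
set_option linter.unusedSectionVars false
set_option linter.unusedVariables false
open Finset
open scoped Classical

namespace Pool.Agent.MP_d20a68_co.T

open Pool.Agent.MP_d20a68_co.Poly

variable {V : Type} [Fintype V] {k R : ℕ}

theorem poor_le_FLight {m : Fin k → V → V} {lab : V → Fin R} {poor : Fin R → Fin R → Prop}
    {n : ℕ} (h : ∀ a b, poor a b → NN m lab a b ≤ n) :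
    nd (fun c v => poor (lab v) (lab (m c v))) ≤ R * R * n := by
  unfold nd cnt
  rw [card_eq_sum_card_fiberwise (f := fun e : Fin k × V => (lab e.2, lab (m e.1 e.2)))
    (t := univ) (fun _ _ => mem_coe.2 (mem_univ _))]
  have h1 : R * R * n = ∑ _p : Fin R × Fin R, n := by
    simp [Fintype.card_prod]
  rw [h1]
  refine sum_le_sum fun p _ => ?_
  by_cases hp : poor p.1 p.2
  · refine le_trans (card_le_card ?_) (h _ _ hp)
    intro e he
    simp only [mem_filter, mem_univ, true_and] at he ⊢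
    exact ⟨congrArg Prod.fst he.2, congrArg Prod.snd he.2⟩
  · rw [card_eq_zero.2]
    · exact Nat.zero_le _
    · refine eq_empty_of_forall_notMem fun e he => hp ?_
      simp only [mem_filter, mem_univ, true_and] at he
      rw [← he.2]
      exact he.1

theorem nd_sum_FLight (P : Fin k → V → Prop) : nd P = ∑ v, cnt fun c => P c v := by
  unfold nd cnt
  rw [card_eq_sum_card_fiberwise (f := fun e : Fin k × V => e.2)
    (t := univ) (fun _ _ => mem_coe.2 (mem_univ _))]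
  refine sum_congr rfl fun v _ => ?_
  refine card_bij (fun e _ => e.1) ?_ ?_ ?_
  · intro e he
    simp only [mem_filter, mem_univ, true_and] at he ⊢
    rw [← he.2]
    exact he.1
  · intro e he e' he' h
    simp only [mem_filter, mem_univ, true_and] at he he'
    exact Prod.ext h (he.2.trans he'.2.symm)
  · intro c hc
    simp only [mem_filter, mem_univ, true_and] at hc
    exact ⟨(c, v), by simp only [mem_filter, mem_univ, true_and, and_true]; exact hc, rfl⟩

theorem heavy_le_FLight {m : Fin k → V → V} (hm : Fac m) (Lt : Finset V) :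
    nd (fun c v => v ∉ Lt ∧ m c v ∉ Lt) ≤ (cnt fun v => v ∉ Lt) * cnt fun v => v ∉ Lt := by
  unfold nd cnt
  rw [← card_product]
  refine card_le_card_of_injOn (fun e : Fin k × V => (e.2, m e.1 e.2)) ?_ ?_
  · intro e he
    simp only [coe_filter, mem_univ, true_and, Set.mem_ofPred_eq, coe_product, Set.mem_prod]
      at he ⊢
    exact he
  · intro e _ e' _ h
    have h1 : e.2 = e'.2 := congrArg Prod.fst h
    have h2 : m e.1 e.2 = m e'.1 e'.2 := congrArg Prod.snd h
    rw [← h1] at h2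
    exact Prod.ext (hm.inj _ _ _ h2) h1

theorem nd_or_FLight (P Q : Fin k → V → Prop) :
    nd (fun c v => P c v ∨ Q c v) ≤ nd P + nd Q := by
  unfold nd cnt
  refine le_trans (card_le_card ?_) (card_union_le _ _)
  intro e he
  simp only [mem_filter, mem_univ, true_and, mem_union] at he ⊢
  exact he

theorem few_FLight (P : Fin k → V → Prop) (Lt : Finset V) (t : ℝ)
    (h : ∀ v, v ∉ Lt → t ≤ (cnt fun c => P c v : ℝ)) :
    (cnt fun v => v ∉ Lt : ℝ) * t ≤ nd P := by
  rw [nd_sum_FLight, Nat.cast_sum]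
  calc (cnt fun v => v ∉ Lt : ℝ) * t = ∑ _v ∈ univ.filter (fun v => v ∉ Lt), t := by
        rw [sum_const, nsmul_eq_mul]
        unfold cnt
        exact congrArg (fun s : Finset V => (s.card : ℝ) * t) (by ext v; simp)
    _ ≤ ∑ v ∈ univ.filter (fun v => v ∉ Lt), (cnt fun c => P c v : ℝ) :=
        sum_le_sum fun v hv => h v (mem_filter.1 hv).2
    _ ≤ _ := sum_le_sum_of_subset_of_nonneg (subset_univ _) fun _ _ _ => Nat.cast_nonneg _

theorem vir_le_FLight {m : Fin k → V → V} {Sp : Fin k → V → Prop} {vc : Fin k → V → Fin k}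
    {E : Fin k → Finset V} {e : Fin k → V → V} (h : Vir m Sp vc E e) (v : V) :
    (cnt fun c => v ∈ E c) ≤ cnt fun c => Sp c v := by
  unfold cnt
  refine le_trans (card_le_card ?_) (card_image_le (f := fun c => vc c v))
  intro a ha
  simp only [mem_filter, mem_univ, true_and, mem_image] at ha ⊢
  exact (h.mem a v).1 ha

theorem lightP : LightP := by
  intro R S θ hθ
  obtain ⟨B, hB⟩ := exists_nat_ge ((R * R * S : ℕ) / θ)
  refine ⟨B, B + 1, fun u hu k hk V _ m lab fl poor r Lp hm ht => ?_⟩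
  have hu1 : 1 ≤ u := by omega
  have hk1 : u * u ≤ k := by
    refine le_trans ?_ hk.1
    rw [← pow_two]
    exact Nat.pow_le_pow_right hu1 (by norm_num)
  have hk0 : (0 : ℝ) < k := by
    have : 0 < k := lt_of_lt_of_le (Nat.mul_pos hu1 hu1) hk1
    exact_mod_cast this
  obtain ⟨Lt, hLt⟩ : ∃ Lt : Finset V, ∀ v, v ∈ Lt ↔
      (cnt fun c => poor (lab v) (lab (m c v)) : ℝ) ≤ θ * k :=
    ⟨univ.filter fun v => (cnt fun c => poor (lab v) (lab (m c v)) : ℝ) ≤ θ * k, by simp⟩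
  have h1 := poor_le_FLight ht.psm
  have h2 : (cnt fun v => v ∉ Lt) ≤ B := by
    have h3 := few_FLight (fun c v => poor (lab v) (lab (m c v))) Lt (θ * k)
      fun v hv => le_of_lt (not_le.1 fun h => hv ((hLt v).2 h))
    have h4 : (nd (fun c v => poor (lab v) (lab (m c v))) : ℝ) ≤ (R * R * S : ℕ) * k := by
      rw [← mul_assoc] at h1
      exact_mod_cast h1
    have h5 : (cnt fun v => v ∉ Lt : ℝ) * θ ≤ (R * R * S : ℕ) := by
      refine le_of_mul_le_mul_right ?_ hk0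
      rw [mul_assoc]
      exact h3.trans h4
    have h6 : (cnt fun v => v ∉ Lt : ℝ) ≤ B := ((le_div_iff₀ hθ).2 h5).trans hB
    exact_mod_cast h6
  refine ⟨Lt, h2, ?_, ?_, ?_, ?_⟩
  · refine le_trans (nd_or_FLight _ _) ?_
    have h3 := heavy_le_FLight hm Lt
    have h4 : (cnt fun v => v ∉ Lt) * (cnt fun v => v ∉ Lt) ≤ u * u :=
      Nat.mul_le_mul (by omega) (by omega)
    rw [add_mul, one_mul, mul_assoc (R * R)]
    omega
  · rintro c v (h | h)
    · left
      rw [hm.inv]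
      exact ht.psym _ _ h
    · right
      rw [hm.inv]
      exact h.symm
  · exact fun c v h => ht.neu _ _ fun h' => h (Or.inl h')
  · intro vc E e hv v hvl
    refine le_trans ?_ ((hLt v).1 hvl)
    refine Nat.cast_le.2 (le_trans (vir_le_FLight hv v) ?_)
    unfold cnt
    refine card_le_card fun c hc => ?_
    simp only [mem_filter, mem_univ, true_and] at hc ⊢
    exact hc.resolve_right fun h => h.1 hvl

end Pool.Agent.MP_d20a68_co.T

end

section

/-! The rounding with all tests. -/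

set_option autoImplicit false
set_option linter.unusedSectionVars false
set_option linter.unusedVariables false
open Finset
open scoped Classical

namespace Pool.Agent.MP_d20a68_co.T

open Pool.Agent.MP_d20a68_co.Poly

lemma sf_SAcc {E : Type} [Fintype E] (Q : E → Prop) [DecidablePred Q] (f : E → ℝ) :
    ∑ e ∈ univ.filter Q, f e = ∑ e, ind (Q e) * f e := by
  rw [sum_filter]
  refine sum_congr rfl fun e _ => ?_
  by_cases h : Q e
  · rw [if_pos h, indS_pos h, one_mul]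
  · rw [if_neg h, indS_neg h, zero_mul]

lemma gen_SAcc (hR : Round2P) {E Λ J : Type} [Fintype E] [Fintype Λ] [Fintype J] (μ : E → E)
    (x : E → Λ → ℝ) (Q : J → E → Prop) (w : J → Λ) (s : J → ℝ) {ν k u : ℝ} (hν : 0 < ν)
    (hk : 0 < k) (hu : 1 ≤ u) (hku : k ≤ 256 * u ^ 8) (h1 : ∀ e, μ (μ e) = e)
    (h2 : ∀ e, x (μ e) = x e) (h3 : ∀ e l, 0 ≤ x e l) (h4 : ∀ e, ∑ l, x e l = 1)
    (hs : ∀ j, 0 < s j) (hc : ∀ j, (cnt (Q j) : ℝ) ≤ 2 * k * s j)
    (hsum : ∑ j, 2 * Real.exp (-(ν ^ 2 / 1024 * u * s j)) < 1) :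
    ∃ lam : E → Λ, (∀ e, lam (μ e) = lam e) ∧ (∀ e, 0 < x e (lam e)) ∧
      ∀ j, |(cnt fun e => Q j e ∧ lam e = w j : ℝ) - ∑ e, ind (Q j e) * x e (w j)| ≤
        ν * u ^ 6 * s j := by
  have hu0 : 0 < u := by linarith
  have key : ∀ j, 2 * Real.exp (-((ν * u ^ 6 * s j) ^ 2 / (2 * (2 * k * s j)))) ≤
      2 * Real.exp (-(ν ^ 2 / 1024 * u * s j)) := fun j => by
    have hj := hs j
    refine mul_le_mul_of_nonneg_left (Real.exp_le_exp.2 (neg_le_neg ?_)) (by norm_num)
    rw [le_div_iff₀ (by positivity)]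
    have h9 : u ^ 9 ≤ u ^ 12 := pow_le_pow_right₀ hu (by norm_num)
    have h5 : u * k ≤ 256 * u ^ 12 := by nlinarith [mul_le_mul_of_nonneg_left hku hu0.le]
    have h6 : 0 ≤ ν ^ 2 * s j ^ 2 := by positivity
    nlinarith [mul_le_mul_of_nonneg_left h5 h6]
  obtain ⟨lam, a1, a2, a3⟩ := hR E Λ J μ x (fun j e l => ind (Q j e ∧ l = w j))
    (fun j => univ.filter (Q j)) (fun j => 2 * k * s j) (fun j => ν * u ^ 6 * s j) h1 h2 h3 h4
    (fun j e l => ⟨indS_nonneg _, indS_le_one _⟩)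
    (fun j e he l => indS_neg fun h => he (mem_filter.2 ⟨mem_univ _, h.1⟩))
    (fun j => ⟨by have := hs j; positivity, hc j⟩) (fun j => by have := hs j; positivity)
    (lt_of_le_of_lt (sum_le_sum fun j _ => key j) hsum)
  refine ⟨lam, a1, a2, fun j => ?_⟩
  have e : ∑ e, ∑ l, x e l * ind (Q j e ∧ l = w j) = ∑ e, ind (Q j e) * x e (w j) := by
    refine sum_congr rfl fun e _ => ?_
    rw [sum_eq_single (w j) (fun l _ hl => by
      rw [indS_neg fun h' => hl h'.2, mul_zero]) (by simp), mul_comm]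
    simp only [and_true]
  rw [cntS_real, ← e]
  exact a3 j

lemma sub_SAcc {V : Type} [Fintype V] {a : ℝ} (h : Fintype.card V * Real.exp (-a) ≤ 1) :
    ∑ U : Finset V, Real.exp (-(a * ((max 1 U.card : ℕ) : ℝ))) ≤
      (1 + 2 * Fintype.card V) * Real.exp (-a) := by
  set q := Real.exp (-a) with hq
  have q0 : 0 < q := Real.exp_pos _
  have e1 : ∀ n : ℕ, Real.exp (-(a * n)) = q ^ n := fun n => by
    rw [hq, ← Real.exp_nat_mul]; congr 1; ring
  have e2 : ∑ U : Finset V, q ^ U.card = (1 + q) ^ Fintype.card V := by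
    have := Finset.prod_one_add (s := (univ : Finset V)) (f := fun _ => q)
    simp only [prod_const, card_univ, powerset_univ] at this
    exact this.symm
  have e3 : (1 + q) ^ Fintype.card V ≤ Real.exp (Fintype.card V * q) := by
    rw [Real.exp_nat_mul]
    exact pow_le_pow_left₀ (by positivity) (by linarith [Real.add_one_le_exp q]) _
  have e4 := Real.abs_exp_sub_one_le (x := Fintype.card V * q)
    (by rw [abs_of_nonneg (by positivity)]; exact h)
  rw [abs_of_nonneg (a := Fintype.card V * q) (by positivity)] at e4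
  have e5 := (abs_le.1 e4).2
  rw [← add_sum_erase univ _ (mem_univ ∅)] at e2 ⊢
  have e6 : ∑ U ∈ (univ : Finset (Finset V)).erase ∅, Real.exp (-(a * ((max 1 U.card : ℕ) : ℝ))) =
      ∑ U ∈ (univ : Finset (Finset V)).erase ∅, q ^ U.card :=
    sum_congr rfl fun U hU => by
      rw [e1, max_eq_right (card_pos.2 (nonempty_iff_ne_empty.2 (mem_erase.1 hU).1))]
  rw [e6, e1]
  simp only [card_empty, pow_zero, zero_le, max_eq_left, pow_one] at e2 ⊢
  linarith

lemma const_SAcc {J : Type} [Fintype J] {a M : ℝ} (ha : 0 ≤ a) (s : J → ℝ) (hs : ∀ j, 1 ≤ s j)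
    (hM : (Fintype.card J : ℝ) ≤ M) :
    ∑ j, 2 * Real.exp (-(a * s j)) ≤ M * (2 * Real.exp (-a)) := by
  refine (sum_le_card_nsmul _ _ (2 * Real.exp (-a)) fun j _ => ?_).trans ?_
  · exact mul_le_mul_of_nonneg_left (Real.exp_le_exp.2 (by nlinarith [hs j])) (by norm_num)
  · rw [nsmul_eq_mul, card_univ]
    exact mul_le_mul_of_nonneg_right hM (by positivity)

section

variable {V Lv : Type} [Fintype V] [Fintype Lv] {k R : ℕ}

lemma at_SAcc (v : V) (P : Fin k → V → Prop) :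
    (cnt fun e : Fin k × V => e.2 = v ∧ P e.1 e.2) = cnt fun c => P c v := by
  have := ndS_sum_in P (fun x => x = v)
  rw [filter_eq' univ v, if_pos (mem_univ v), sum_singleton] at this
  exact this

lemma atS_SAcc (v : V) (P : Fin k → V → Prop) (f : Fin k → V → ℝ) :
    ∑ e : Fin k × V, ind (e.2 = v ∧ P e.1 e.2) * f e.1 e.2 = ∑ c, ind (P c v) * f c v := by
  rw [Fintype.sum_prod_type]
  refine sum_congr rfl fun c _ => ?_
  rw [sum_eq_single v (fun x _ hx => by rw [indS_neg fun h => hx h.1, zero_mul]) (by simp)]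
  simp only [true_and]

lemma in_SAcc (U : Finset V) : (nd fun (_ : Fin k) v => v ∈ U) ≤ U.card * k := by
  have := ndS_sum_in (fun (_ : Fin k) (_ : V) => True) (fun v => v ∈ U)
  simp only [and_true, filter_mem_eq_inter, univ_inter] at this
  rw [this]
  exact sum_le_card_nsmul _ _ k fun v _ => cntS_le_k _

lemma xr_SAcc (D : Dat V Lv k R) (hf : Fac D.m) (U : Finset V) :
    nd (D.Xr U) ≤ 2 * (U.card * k) := by
  have h1 : nd (D.Xr U) ≤ nd fun c v => v ∈ U ∨ D.m c v ∈ U :=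
    ndS_mono fun c v h => by unfold Dat.Xr at h; tauto
  have h2 : (nd fun c v => v ∈ U ∨ D.m c v ∈ U) ≤
      (nd fun (_ : Fin k) v => v ∈ U) + nd fun c v => D.m c v ∈ U :=
    cntS_or_le (fun e : Fin k × V => e.2 ∈ U) fun e => D.m e.1 e.2 ∈ U
  have h3 : (nd fun c v => D.m c v ∈ U) = _ := ndS_mate hf fun (_ : Fin k) v => v ∈ U
  have h4 := in_SAcc (k := k) U
  omega

/-- The six sides. -/
abbrev B6_SAcc := Finset ((Bool × Bool × Bool) × (Bool × Bool × Bool))

/-- The tests. -/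
abbrev J_SAcc (V Lv : Type) (R : ℕ) :=
  ((V × (Lv ⊕ Lv)) ⊕ (V × (Lv ⊕ Lv))) ⊕
    (((Fin R × Fin R × B6_SAcc) × Lv × (Lv ⊕ Lv)) ⊕ (Lv × Finset V))

/-- The darts of a test. -/
def Q_SAcc (D : Dat V Lv k R) : J_SAcc V Lv R → Fin k × V → Prop :=
  Sum.elim (Sum.elim (fun j e => e.2 = j.1 ∧ D.MI e.1 e.2) fun j e => e.2 = j.1 ∧ D.MC e.1 e.2)
    (Sum.elim (fun j e => ¬ D.Fx e.1 e.2 ∧ D.Ty j.1.1 j.1.2.1 e.1 e.2 ∧
        D.bits j.2.1 e.1 e.2 ∈ j.1.2.2)
      fun j e => ¬ D.Fx e.1 e.2 ∧ D.σ j.1 e.2 = true ∧ D.Xr j.2 e.1 e.2)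

/-- The value of a test. -/
def w_SAcc : J_SAcc V Lv R → Lv ⊕ Lv :=
  Sum.elim (Sum.elim (fun j => j.2) fun j => j.2)
    (Sum.elim (fun j => j.2.2) fun j => Sum.inr j.1)

/-- The size of a test. -/
noncomputable def s_SAcc (D : Dat V Lv k R) : J_SAcc V Lv R → ℝ :=
  Sum.elim (Sum.elim (fun _ => 1) fun _ => 1)
    (Sum.elim (fun j => (D.N j.1.1 j.1.2.1 + k) / k) fun j => ((max 1 j.2.card : ℕ) : ℝ))

end

theorem accS (hR : Round2P) : AccP := by
  intro C R ν' hν
  obtain ⟨A, hA⟩ : ∃ A : ℕ, A = Fintype.card (Fin R × Fin R × B6_SAcc) := ⟨_, rfl⟩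
  obtain ⟨U0, hU⟩ := ev_exp (65536 * (2 * (6 * C + 2 * A + 1))) (ν' ^ 2 / 1024) (1 / 2) 16
    (by positivity) (by norm_num)
  refine ⟨U0, fun V Lv _ _ k D φ η ν u B S Lp H hu μ P => ?_⟩
  have k0 := H.kpos
  have k1 : (1 : ℝ) ≤ k := by
    have := H.kbig
    exact_mod_cast (by omega : 1 ≤ k)
  have u1 : (1 : ℝ) ≤ u := by
    have := H.u16
    exact_mod_cast (by omega : 1 ≤ u)
  have ku : (k : ℝ) ≤ 256 * (u : ℝ) ^ 8 := by exact_mod_cast H.sc.2
  have cV : (Fintype.card V : ℝ) ≤ C * k := by exact_mod_cast H.card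
  have cL : (Fintype.card Lv : ℝ) ≤ k := by
    have : Fintype.card Lv ≤ k := by
      rw [← H.pre.sumy, ← card_univ, card_eq_sum_ones]
      exact sum_le_sum fun l _ => H.ypos l
    exact_mod_cast this
  have s2 : ∀ a b, 1 ≤ ((D.N a b : ℝ) + k) / k := fun a b =>
    (one_le_div k0).2 (le_add_of_nonneg_left (Nat.cast_nonneg _))
  have s3 : ∀ U : Finset V, (1 : ℝ) ≤ ((max 1 U.card : ℕ) : ℝ) := fun U => by
    exact_mod_cast le_max_left _ _
  refine (gen_SAcc hR (fun e : Fin k × V => (e.1, D.m e.1 e.2))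
    (fun e => D.prob μ e.1 e.2) (Q_SAcc D) w_SAcc (s_SAcc D) hν k0 u1 ku
    (fun e => by simp only [H.fac.inv]) (fun e => P.sym e.1 e.2) (fun e => P.nn e.1 e.2)
    (fun e => P.one e.1 e.2) ?_ ?_ ?_).elim fun lam ⟨a1, a2, a3⟩ => ?_
  rotate_right
  · refine ⟨fun c v => lam (c, v), fun c v => a1 (c, v), fun c v => a2 (c, v), fun v ω => ?_,
      fun v ω => ?_, fun a b l X ω => ?_, fun l U => ?_⟩
    · rw [sf_SAcc, ← at_SAcc v fun c v => D.MI c v ∧ lam (c, v) = ω,
        ← atS_SAcc v D.MI fun c v => D.prob μ c v ω, cntS_congr fun e => and_assoc.symm]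
      exact (a3 (.inl (.inl (v, ω)))).trans_eq (mul_one _)
    · rw [sf_SAcc, ← at_SAcc v fun c v => D.MC c v ∧ lam (c, v) = ω,
        ← atS_SAcc v D.MC fun c v => D.prob μ c v ω, cntS_congr fun e => and_assoc.symm]
      exact (a3 (.inl (.inr (v, ω)))).trans_eq (mul_one _)
    · rw [mul_div_assoc, sf_SAcc]
      exact a3 (.inr (.inl ((a, b, X), l, ω)))
    · rcases U.eq_empty_or_nonempty with rfl | hn
      · rw [filter_false_of_mem fun e _ h => by simpa [Dat.Xr] using h.2.2]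
        simp
      · have := (abs_le.1 (a3 (.inr (.inr (l, U))))).1
        have e : s_SAcc D (.inr (.inr (l, U))) = U.card := by
          simp only [s_SAcc, Sum.elim_inr, max_eq_right (one_le_card.2 hn)]
        rw [e, le_sub_iff_add_le, neg_add_eq_sub] at this
        rw [sf_SAcc]
        exact this
  · rintro ((j | j) | (j | j))
    exacts [one_pos, one_pos, one_pos.trans_le (s2 _ _), one_pos.trans_le (s3 _)]
  · rintro ((j | j) | (j | j))
    · have : (cnt (Q_SAcc D (.inl (.inl j))) : ℝ) ≤ k := by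
        exact_mod_cast (at_SAcc j.1 D.MI).trans_le (cntS_le_k _)
      exact this.trans (show (k : ℝ) ≤ 2 * k * 1 by linarith)
    · have : (cnt (Q_SAcc D (.inl (.inr j))) : ℝ) ≤ k := by
        exact_mod_cast (at_SAcc j.1 D.MC).trans_le (cntS_le_k _)
      exact this.trans (show (k : ℝ) ≤ 2 * k * 1 by linarith)
    · have : (cnt (Q_SAcc D (.inr (.inl j))) : ℝ) ≤ D.N j.1.1 j.1.2.1 :=
        Nat.cast_le.2 (cntS_mono fun e h => h.2.1)
      refine this.trans (show _ ≤ 2 * (k : ℝ) * ((D.N j.1.1 j.1.2.1 + k) / k) from ?_)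
      rw [mul_assoc, mul_div_cancel₀ _ k0.ne']
      linarith [Nat.cast_nonneg (α := ℝ) (D.N j.1.1 j.1.2.1)]
    · have h0 : cnt (Q_SAcc D (.inr (.inr j))) ≤ nd (D.Xr j.2) := cntS_mono fun e h => h.2.2
      have : (cnt (Q_SAcc D (.inr (.inr j))) : ℝ) ≤ 2 * (j.2.card * k) := by
        exact_mod_cast h0.trans (xr_SAcc D H.fac j.2)
      refine this.trans (show _ ≤ 2 * (k : ℝ) * ((max 1 j.2.card : ℕ) : ℝ) from ?_)
      have : (j.2.card : ℝ) ≤ ((max 1 j.2.card : ℕ) : ℝ) := by exact_mod_cast le_max_right _ _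
      nlinarith
  · have hW := hU u hu
    set a := ν' ^ 2 / 1024 * (u : ℝ) with ha
    have a0 : 0 ≤ a := by positivity
    set q := Real.exp (-a) with hq
    have q0 : 0 < q := Real.exp_pos _
    have kk : (k : ℝ) ^ 2 ≤ 65536 * (u : ℝ) ^ 16 := by
      have := pow_le_pow_left₀ k0.le ku 2
      calc _ ≤ _ := this
        _ = _ := by ring
    have hW2 : (k : ℝ) ^ 2 * (2 * (6 * C + 2 * A + 1) * q) ≤ 1 / 2 :=
      (mul_le_mul_of_nonneg_right kk (by positivity)).trans (le_of_eq_of_le (by ring) hW)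
    have c1 : (Fintype.card (V × (Lv ⊕ Lv)) : ℝ) ≤ C * k * (k + k) := by
      rw [Fintype.card_prod, Fintype.card_sum]
      push_cast
      gcongr
    have c2 : (Fintype.card ((Fin R × Fin R × B6_SAcc) × Lv × (Lv ⊕ Lv)) : ℝ) ≤
        A * (k * (k + k)) := by
      rw [Fintype.card_prod, ← hA, Fintype.card_prod, Fintype.card_sum]
      push_cast
      gcongr
    have kq : (k : ℝ) * q ≤ k ^ 2 * q := mul_le_mul_of_nonneg_right (by nlinarith) q0.le
    have Ck : 0 ≤ C * ((k : ℝ) ^ 2 * q) := by positivity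
    have Ak : 0 ≤ A * ((k : ℝ) ^ 2 * q) := by positivity
    have kq0 : 0 ≤ (k : ℝ) ^ 2 * q := by positivity
    have vq : (Fintype.card V : ℝ) * q ≤ C * (k * q) :=
      (mul_le_mul_of_nonneg_right cV q0.le).trans_eq (by ring)
    have vq2 : (C : ℝ) * (k * q) ≤ C * (k ^ 2 * q) :=
      mul_le_mul_of_nonneg_left kq (Nat.cast_nonneg _)
    have b1 := const_SAcc a0 (fun _ : V × (Lv ⊕ Lv) => 1) (fun _ => le_rfl) c1
    have b2 := const_SAcc a0 (fun j : (Fin R × Fin R × B6_SAcc) × Lv × (Lv ⊕ Lv) =>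
      ((D.N j.1.1 j.1.2.1 : ℝ) + k) / k) (fun j => s2 _ _) c2
    have b3 := sub_SAcc (V := V) (a := a) (by nlinarith)
    have b4 : ∑ j : Lv × Finset V, 2 * Real.exp (-(a * ((max 1 j.2.card : ℕ) : ℝ))) ≤
        k * (2 * ((1 + 2 * (C * k)) * q)) := by
      rw [Fintype.sum_prod_type]
      refine (sum_le_card_nsmul _ _ (2 * ((1 + 2 * (C * k)) * q)) fun l _ => ?_).trans ?_
      · rw [← mul_sum]
        refine mul_le_mul_of_nonneg_left (b3.trans ?_) (by norm_num)
        gcongr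
      · rw [nsmul_eq_mul, card_univ]
        gcongr
    simp only [Fintype.sum_sum_type, s_SAcc, Sum.elim_inl, Sum.elim_inr]
    nlinarith

end Pool.Agent.MP_d20a68_co.T

end

section

/-! Equidistribution on the movable darts. -/

set_option autoImplicit false
set_option linter.unusedSectionVars false
set_option linter.unusedVariables false
open Finset
open scoped Classical

namespace Pool.Agent.MP_d20a68_co.T

open Pool.Agent.MP_d20a68_co.Poly

lemma rem_SEqM {α : Type} [Fintype α] (F Q S : α → Prop) {n ε δ : ℝ} (hn : 1 ≤ n)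
    (h : |n * (cnt fun x => Q x ∧ S x : ℝ) - (cnt Q : ℝ)| ≤ ε)
    (hF : (cnt fun x => F x ∧ Q x : ℝ) ≤ δ) :
    |n * (cnt fun x => (¬ F x ∧ Q x) ∧ S x : ℝ) - (cnt fun x => ¬ F x ∧ Q x : ℝ)| ≤ ε + n * δ := by
  have e1 : (cnt fun x => Q x ∧ S x : ℝ) =
      (cnt fun x => (F x ∧ Q x) ∧ S x : ℝ) + (cnt fun x => (¬ F x ∧ Q x) ∧ S x : ℝ) := by
    rw [cntS_split (fun x => Q x ∧ S x) F, Nat.cast_add]
    congr 2 <;> exact cntS_congr fun x => by tauto
  have e2 : (cnt Q : ℝ) = (cnt fun x => F x ∧ Q x : ℝ) + (cnt fun x => ¬ F x ∧ Q x : ℝ) := by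
    rw [cntS_split Q F, Nat.cast_add]
    congr 2 <;> exact cntS_congr fun x => by tauto
  have h1 : (cnt fun x => (F x ∧ Q x) ∧ S x : ℝ) ≤ (cnt fun x => F x ∧ Q x : ℝ) :=
    Nat.cast_le.2 (cntS_mono fun x hx => hx.1)
  have h2 : (0 : ℝ) ≤ (cnt fun x => (F x ∧ Q x) ∧ S x : ℝ) := Nat.cast_nonneg _
  rw [e1, e2, abs_le] at h
  have h3 := mul_le_mul_of_nonneg_left (h1.trans hF) (zero_le_one.trans hn)
  have h4 := mul_nonneg (zero_le_one.trans hn) h2
  have h5 := le_mul_of_one_le_left (h2.trans (h1.trans hF)) hn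
  rw [abs_le]
  constructor <;> linarith [h.1, h.2]

variable {V Lv : Type} [Fintype V] [Fintype Lv] {k R : ℕ} {D : Dat V Lv k R} {C : ℕ} {φ η ν : ℝ}
  {u B S Lp : ℕ}

lemma nb_SEqM (H : D.Hyp C φ η ν u B S Lp) (v : V) {l : Lv} (hl : l ∈ small D.z D.h) (b : Fin R)
    (s s0 s1 : Bool) :
    |8 * (cnt fun c => D.lab (D.m c v) = b ∧ D.σ l (D.m c v) = s ∧ D.σ D.z (D.m c v) = s0 ∧
      D.σ D.h (D.m c v) = s1 : ℝ) - (cnt fun c => D.lab (D.m c v) = b : ℝ)| ≤ ν * k := by
  have h := H.pre.eq3.h3 l hl v v b s s0 s1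
  simp only [and_self_left] at h
  rwa [cntS_adj H.fac v fun w => D.lab w = b ∧ D.σ l w = s ∧ D.σ D.z w = s0 ∧ D.σ D.h w = s1,
    cntS_adj H.fac v fun w => D.lab w = b] at h

lemma cr_SEqM (H : D.Hyp C φ η ν u B S Lp) (v : V) {l : Lv} (hl : l ∈ small D.z D.h)
    (s s0 s1 : Bool) :
    |8 * (cnt fun c => ¬ D.Ins c v ∧ D.σ l (D.m c v) = s ∧ D.σ D.z (D.m c v) = s0 ∧
      D.σ D.h (D.m c v) = s1 : ℝ) - (cnt fun c => ¬ D.Ins c v : ℝ)| ≤ R * (ν * k) := by
  have key : ∀ P : Fin k → Prop, (cnt fun c => ¬ D.Ins c v ∧ P c) =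
      ∑ b ∈ univ.erase (D.fl (D.lab v)), cnt fun c => D.lab (D.m c v) = b ∧ P c := by
    intro P
    simp only [and_comm (b := P _)]
    rw [← cntS_fiber_in P fun c => D.lab (D.m c v)]
    exact cntS_congr fun c => by simp [Dat.Ins]
  have e := key fun _ => True
  simp only [and_true] at e
  rw [key, e, Nat.cast_sum, Nat.cast_sum, mul_sum, ← sum_sub_distrib]
  refine (abs_sum_le_sum_abs _ _).trans
    ((sum_le_card_nsmul _ _ _ fun b _ => nb_SEqM H v hl b s s0 s1).trans ?_)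
  rw [nsmul_eq_mul]
  refine mul_le_mul_of_nonneg_right (Nat.cast_le.2 ?_) (mul_pos H.ν0 H.kpos).le
  exact (card_le_univ _).trans (Fintype.card_fin R).le

lemma fx_SEqM (H : D.Hyp C φ η ν u B S Lp) (hB : nd D.Fx ≤ B * k) {a b : Fin R}
    (h : ¬ D.poor a b) : (nd fun c v => D.Fx c v ∧ D.Ty a b c v : ℝ) ≤ ν * D.N a b := by
  rcases H.typ.big a b h with e | e
  · have h1 : (nd fun c v => D.Fx c v ∧ D.Ty a b c v) ≤ NN D.m D.lab a b :=
      ndS_mono fun c v h => h.2
    rw [e, Nat.le_zero] at h1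
    rw [h1, Nat.cast_zero]
    exact mul_nonneg H.ν0.le (Nat.cast_nonneg _)
  · have h1 : (nd fun c v => D.Fx c v ∧ D.Ty a b c v : ℝ) ≤ B * k := by
      exact_mod_cast (ndS_mono (P := fun c v => D.Fx c v ∧ D.Ty a b c v)
        fun c v h => h.1).trans hB
    have h2 : (Lp : ℝ) * k ≤ D.N a b := by exact_mod_cast e
    have h3 := mul_le_mul_of_nonneg_right H.BLp H.kpos.le
    have h4 := mul_le_mul_of_nonneg_left h2 H.ν0.le
    linarith

theorem eqMS (hD : DegP) : EqMP := by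
  intro V Lv _ _ k R D C φ η ν u B S Lp H
  obtain ⟨-, d2, -, -, -, -, d7⟩ := hD V Lv k R D C φ η ν u B S Lp H
  have hp := mul_pos H.ν0 H.kpos
  have hR : (0 : ℝ) ≤ R * (ν * k) := mul_nonneg (Nat.cast_nonneg _) hp.le
  have hF : ∀ v ∈ D.Lt, ∀ Q : Fin k → Prop, (cnt fun c => D.Fx c v ∧ Q c : ℝ) ≤ ν * k :=
    fun v hv Q => (Nat.cast_le.2 (cntS_mono fun c h => h.1)).trans (d2 v hv)
  refine ⟨fun v hv l hl s s0 s1 => ?_, fun v hv l hl s s0 s1 => ?_, fun a b h l hl x => ?_,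
    fun a b h => ⟨?_, ndS_mono (P := fun c v => ¬ D.Fx c v ∧ D.Ty a b c v) (Q := D.Ty a b)
      fun c v h => h.2⟩, ?_⟩
  · refine (rem_SEqM (fun c => D.Fx c v) (fun c => D.Ins c v) _ (by norm_num)
      (nb_SEqM H v hl _ s s0 s1) (hF v hv _)).trans ?_
    linarith
  · refine (rem_SEqM (fun c => D.Fx c v) (fun c => ¬ D.Ins c v) _ (by norm_num)
      (cr_SEqM H v hl s s0 s1) (hF v hv _)).trans ?_
    linarith
  · obtain ⟨⟨s, s0, s1⟩, s', s0', s1'⟩ := x
    have h1 := H.pre.eq3.q6 l hl false a b h s s0 s1 s' s0' s1'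
    simp only [od, Bool.false_eq_true, false_imp_iff, true_and] at h1
    have h2 := rem_SEqM (fun e : Fin k × V => D.Fx e.1 e.2) (fun e => D.Ty a b e.1 e.2) _
      (by norm_num) h1 (fx_SEqM H d7 h)
    rw [ndS_congr (Q := fun c v => (¬ D.Fx c v ∧ D.Ty a b c v) ∧
      (D.σ l v = s ∧ D.σ D.z v = s0 ∧ D.σ D.h v = s1) ∧ D.σ l (D.m c v) = s' ∧
        D.σ D.z (D.m c v) = s0' ∧ D.σ D.h (D.m c v) = s1') fun c v => by
      simp only [Dat.bits, Prod.mk.injEq, and_assoc]]
    refine h2.trans (le_of_eq ?_)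
    unfold Dat.N
    ring
  · have h1 : D.N a b = (nd fun c v => D.Fx c v ∧ D.Ty a b c v) + D.NM a b := by
      refine (cntS_split _ fun e : Fin k × V => D.Fx e.1 e.2).trans ?_
      congr 1 <;> exact cntS_congr fun e => and_comm
    have h2 := fx_SEqM H d7 h
    have h3 : (D.N a b : ℝ) = (nd fun c v => D.Fx c v ∧ D.Ty a b c v : ℝ) + D.NM a b := by
      exact_mod_cast h1
    linarith
  · by_contra h
    have h1 := H.sum_small
    rw [not_nonempty_iff_eq_empty.1 h, sum_empty] at h1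
    linarith [H.yhi D.z, H.yhi D.h, H.kpos]

end Pool.Agent.MP_d20a68_co.T

end

section

/-! The inside degrees after the rounding. -/

set_option autoImplicit false
set_option linter.unusedSectionVars false
set_option linter.unusedVariables false
open Finset
open scoped Classical

namespace Pool.Agent.MP_d20a68_co.T

open Pool.Agent.MP_d20a68_co.Poly

lemma core_SRd1a {V Lv : Type} [Fintype V] [Fintype Lv] {k R : ℕ} (D : Dat V Lv k R) {ν : ℝ}
    (hk : (0 : ℝ) < k) (hν : 0 ≤ ν) (E : D.EqM ν) {v : V} (hv : v ∈ D.Lt) {l : Lv}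
    (hl : l ∈ small D.z D.h) (w : Bool × Bool × Bool → ℝ) (hw : ∀ x, 0 ≤ w x) {t y : ℝ}
    (hs : ∑ x, w x = 8 * t / k) (ht : t ≤ y) :
    |∑ c ∈ univ.filter (fun c => D.MI c v),
      w (D.σ l (D.m c v), D.σ D.z (D.m c v), D.σ D.h (D.m c v)) -
        t * (cnt fun c => D.MI c v : ℝ) / k| ≤ (R + 9) * ν * y := by
  have h := cellS (fun c => D.MI c v)
    (fun c => (D.σ l (D.m c v), D.σ D.z (D.m c v), D.σ D.h (D.m c v))) w 8
    (cnt fun c => D.MI c v : ℝ) ((R + 9) * ν * k) (by norm_num) (fun x => by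
      have e := E.hI v hv l hl x.1 x.2.1 x.2.2
      rwa [cntS_congr (Q := fun c => D.MI c v ∧
        (D.σ l (D.m c v), D.σ D.z (D.m c v), D.σ D.h (D.m c v)) = x) fun c => by
          simp only [Prod.ext_iff]] at e)
  have e1 : ∑ x, |w x| = 8 * t / k := by
    rw [← hs]
    exact sum_congr rfl fun x _ => abs_of_nonneg (hw x)
  rw [e1, hs] at h
  have e2 : (cnt fun c => D.MI c v : ℝ) / 8 * (8 * t / k) =
      t * (cnt fun c => D.MI c v : ℝ) / k := by ring
  have e3 : (R + 9) * ν * k / 8 * (8 * t / k) = (R + 9) * ν * t := by field_simp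
  rw [e2, e3] at h
  exact h.trans (mul_le_mul_of_nonneg_left ht (by positivity))

lemma sum_h_SRd1a (s : Bool) (A : ℝ) :
    ∑ x : Bool × Bool × Bool, A * ind (s ≠ x.2.2) = 4 * A := by
  cases s <;> simp [Fintype.sum_prod_type, ind] <;> ring

lemma sum_s_SRd1a (s s0 s1 : Bool) (a b B : ℝ) :
    ∑ x : Bool × Bool × Bool, (1 - a * ind (s0 ≠ x.2.1) - b * ind (s1 ≠ x.2.2)) * B *
      ind (s ≠ x.1) = B * (4 - 2 * a - 2 * b) := by
  cases s <;> cases s0 <;> cases s1 <;> simp [Fintype.sum_prod_type, ind] <;> ring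

theorem rd1aS : Rd1aP := by
  intro V Lv _ _ k R D C φ η ν u B S Lp H ν' ν₁ om PF E A h0 h1 v hv l hl
  have hk := H.kpos
  have hν := H.ν0.le
  have hη := H.η0
  have hη' := H.eta_le
  have hy : (0 : ℝ) ≤ D.y l := Nat.cast_nonneg _
  have hR : (0 : ℝ) ≤ R := Nat.cast_nonneg _
  have a1 := (A.aI v (Sum.inl l)).trans (mul_le_mul_of_nonneg_left (H.u6 l) h0)
  have ht : (1 - η / 4) * (D.y l : ℝ) ≤ D.y l := by nlinarith
  have key : |∑ c ∈ univ.filter (fun c => D.MI c v), D.prob (η / 4) c v (Sum.inl l) -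
      (1 - η / 4) * D.y l * (cnt fun c => D.MI c v : ℝ) / k| ≤ (R + 13) * ν * D.y l := by
    by_cases hh : l = D.h
    · obtain ⟨l', hl'⟩ := E.sm
      have hA : 0 ≤ 2 * (1 - η / 4) * (D.y l : ℝ) / k :=
        div_nonneg (mul_nonneg (by linarith) hy) hk.le
      have h2 := core_SRd1a D hk hν E hv hl'
        (fun x => 2 * (1 - η / 4) * D.y l / k * ind (D.σ D.h v ≠ x.2.2))
        (fun x => mul_nonneg hA (indS_nonneg _)) (t := (1 - η / 4) * D.y l)
        (by rw [sum_h_SRd1a]; ring) ht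
      rw [sum_congr rfl (g := fun c => 2 * (1 - η / 4) * D.y l / k *
        ind (D.σ D.h v ≠ D.σ D.h (D.m c v))) fun c hc => by
          have hc' := (mem_filter.1 hc).2
          rw [hh, D.prob_h _ hc'.1, Dat.xh, Dat.kap, if_pos hc'.2]
          rfl]
      refine h2.trans ?_
      nlinarith [mul_nonneg hν hy]
    · have hs : l ∈ small D.z D.h := mem_filter.2 ⟨mem_univ _, hl, hh⟩
      have hz := H.yhi D.z
      have hh' := H.yhi D.h
      have hz0 : (0 : ℝ) ≤ D.y D.z := Nat.cast_nonneg _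
      have hh0 : (0 : ℝ) ≤ D.y D.h := Nat.cast_nonneg _
      have hY : (0 : ℝ) < k - D.y D.z - D.y D.h := by linarith
      set a : ℝ := 2 - 2 * (1 - η / 4) * (k - D.y D.z) / k with ha
      set b : ℝ := 2 * (1 - η / 4) * D.y D.h / k with hb
      have a0 : 0 ≤ a := by
        rw [ha, sub_nonneg, div_le_iff₀ hk]
        nlinarith
      have a2 : a ≤ 1 / 2 := by
        rw [ha, sub_le_comm, le_div_iff₀ hk]
        nlinarith
      have b0 : 0 ≤ b := div_nonneg (mul_nonneg (by linarith) hh0) hk.le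
      have b2 : b ≤ 1 / 2 := by
        rw [hb, div_le_iff₀ hk]
        nlinarith
      have hB : 0 ≤ 2 * (D.y l : ℝ) / (k - D.y D.z - D.y D.h) := by positivity
      have h2 := core_SRd1a D hk hν E hv hs
        (fun x => (1 - a * ind (D.σ D.z v ≠ x.2.1) - b * ind (D.σ D.h v ≠ x.2.2)) *
          (2 * D.y l / (k - D.y D.z - D.y D.h)) * ind (D.σ l v ≠ x.1))
        (fun x => mul_nonneg (mul_nonneg (by
          have i1 := mul_le_mul_of_nonneg_left (indS_le_one (D.σ D.z v ≠ x.2.1)) a0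
          have i2 := mul_le_mul_of_nonneg_left (indS_le_one (D.σ D.h v ≠ x.2.2)) b0
          linarith) hB) (indS_nonneg _)) (t := (1 - η / 4) * D.y l)
        (by rw [sum_s_SRd1a, ha, hb]; field_simp; ring) ht
      have h3 : |∑ c ∈ univ.filter (fun c => D.MI c v), D.prob (η / 4) c v (Sum.inl l) -
          ∑ c ∈ univ.filter (fun c => D.MI c v),
            (1 - a * ind (D.σ D.z v ≠ D.σ D.z (D.m c v)) -
              b * ind (D.σ D.h v ≠ D.σ D.h (D.m c v))) *
            (2 * D.y l / (k - D.y D.z - D.y D.h)) * ind (D.σ l v ≠ D.σ l (D.m c v))| ≤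
          4 * ν * D.y l := by
        rw [← sum_sub_distrib]
        refine (abs_sum_le_sum_abs _ _).trans ((sum_le_card_nsmul _ _ (4 * ν * D.y l / k)
          fun c hc => ?_).trans ?_)
        · have hc' := (mem_filter.1 hc).2
          have e := PF.app c v hc'.1 l hs
          rw [Dat.xz, Dat.xh, Dat.kap, if_pos hc'.2] at e
          exact e
        · have hc : ((univ.filter fun c => D.MI c v).card : ℝ) ≤ k := by
            exact_mod_cast (card_le_univ _).trans (Fintype.card_fin k).le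
          rw [nsmul_eq_mul]
          refine (mul_le_mul_of_nonneg_right hc (by positivity)).trans (le_of_eq ?_)
          field_simp
      refine (abs_sub_le _ _ _).trans ((add_le_add h3 h2).trans (le_of_eq (by ring)))
  refine (abs_sub_le _ _ _).trans ((add_le_add a1 key).trans ?_)
  have h4 := mul_le_mul_of_nonneg_right h1 hy
  nlinarith [mul_nonneg hν hy, mul_nonneg hR (mul_nonneg hν hy)]

end Pool.Agent.MP_d20a68_co.T

end

section

/-! The nets are close to the proportional share. -/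

set_option autoImplicit false
set_option linter.unusedSectionVars false
set_option linter.unusedVariables false
open Finset
open scoped Classical

namespace Pool.Agent.MP_d20a68_co.T

open Pool.Agent.MP_d20a68_co.Poly

variable {V Lv : Type} [Fintype V] [Fintype Lv] {k R : ℕ}

lemma deg_SG2 {D : Dat V Lv k R} {C : ℕ} {φ η ν : ℝ} {u B S Lp : ℕ}
    (H : D.Hyp C φ η ν u B S Lp) (a : Fin R) :
    k * cnt (fun v => D.lab v = a) = D.N a (D.fl a) + ∑ b, D.NR a b +
      nd fun c v => (D.lab v = a ∧ ¬ D.Ins c v) ∧ D.Fx c v := by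
  have h1 : nd (fun (c : Fin k) v => D.lab v = a ∧ True) = k * cnt (fun v => D.lab v = a) := by
    rw [ndS_sum_in (fun (c : Fin k) (v : V) => True) (fun v => D.lab v = a)]
    simp only [cntS_true, Fintype.card_fin, sum_const, smul_eq_mul]
    rw [cntS_eq, mul_comm]
  have h2 : nd (fun (c : Fin k) v => D.lab v = a ∧ True) =
      D.N a (D.fl a) + nd fun c v => D.lab v = a ∧ ¬ D.Ins c v := by
    unfold nd
    rw [cntS_split _ (fun e : Fin k × V => D.Ins e.1 e.2)]
    congr 1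
    · unfold Dat.N NN nd Dat.Ins
      refine cntS_congr fun e => ⟨fun h => ⟨h.1.1, by rw [h.2, h.1.1]⟩, fun h => ?_⟩
      exact ⟨⟨h.1, trivial⟩, by rw [h.2, h.1]⟩
    · exact cntS_congr fun e => by simp only [and_true]
  have h3 : nd (fun c v => D.lab v = a ∧ ¬ D.Ins c v) =
      (nd fun c v => (D.lab v = a ∧ ¬ D.Ins c v) ∧ D.Fx c v) +
        nd fun c v => (D.lab v = a ∧ ¬ D.Ins c v) ∧ ¬ D.Fx c v :=
    cntS_split _ (fun e : Fin k × V => D.Fx e.1 e.2)
  have h4 : (nd fun c v => (D.lab v = a ∧ ¬ D.Ins c v) ∧ ¬ D.Fx c v) = ∑ b, D.NR a b := by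
    unfold nd
    rw [cntS_fiber _ (fun e : Fin k × V => D.lab (D.m e.1 e.2))]
    refine sum_congr rfl fun b _ => ?_
    unfold Dat.NR
    split_ifs with hr
    · unfold Dat.NM nd Dat.Ty Dat.Ins
      refine cntS_congr fun e => ⟨fun h => ⟨h.1.2, h.1.1.1, h.2⟩, fun h => ?_⟩
      exact ⟨⟨⟨h.2.1, fun hi => hr.2 (by rw [← h.2.2, hi, h.2.1])⟩, h.1⟩, h.2.2⟩
    · refine cntS_zero fun e h => hr ⟨?_, fun hb => h.1.1.2 ?_⟩
      · have := H.pre.free _ _ h.1.2
        rwa [h.1.1.1, h.2] at this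
      · unfold Dat.Ins
        rw [h.2, hb, h.1.1.1]
  omega

lemma side_SG2 (lab : V → Fin R) (τ : V → Bool) (a : Fin R) :
    ∑ v ∈ Vl lab a, sgz (τ v) = (cnt fun v => lab v = a ∧ τ v = true : ℕ) -
      (cnt fun v => lab v = a ∧ τ v = false : ℕ) ∧
    cnt (fun v => lab v = a) = (cnt fun v => lab v = a ∧ τ v = true) +
      cnt fun v => lab v = a ∧ τ v = false := by
  constructor
  · unfold Vl
    rw [cntS_sum, cntS_sum, sum_filter]
    push_cast
    rw [← sum_sub_distrib]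
    refine sum_congr rfl fun v _ => ?_
    by_cases h : lab v = a <;> cases h' : τ v <;> simp [h, sgz]
  · rw [cntS_split _ (fun v => τ v = true)]
    congr 1
    exact cntS_congr fun v => by simp

lemma net_SG2 (y : ℕ) (Q : V → Prop) [DecidablePred Q] (P : Fin k → V → Prop) :
    ∑ v ∈ univ.filter Q, ((y : ℤ) - ((cnt fun c => P c v : ℕ) : ℤ)) =
      y * (cnt Q : ℕ) - (nd fun c v => Q v ∧ P c v : ℕ) := by
  rw [sum_sub_distrib, ndS_sum_in P Q, cntS_eq Q, sum_const, nsmul_eq_mul, mul_comm]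
  push_cast
  rfl

theorem g2S (hD : DegP) : G2P := by
  intro V Lv _ _ k R D C φ η ν u B S Lp H l a
  obtain ⟨-, -, -, -, -, hN, hF⟩ := hD V Lv k R D C φ η ν u B S Lp H
  have d1 := deg_SG2 H a
  have d2 := deg_SG2 H (D.fl a)
  rw [H.typ.inv, hN (D.fl a) a] at d2
  obtain ⟨s1, t1⟩ := side_SG2 D.lab (D.σ l) a
  obtain ⟨s2, t2⟩ := side_SG2 D.lab (D.σ l) (D.fl a)
  have b1 := abs_le.1 (H.pre.lbal l a)
  have b2 := abs_le.1 (H.pre.lbal l (D.fl a))
  have g1 : (nd fun c v => (D.lab v = a ∧ ¬ D.Ins c v) ∧ D.Fx c v) ≤ B * k :=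
    (ndS_mono fun c v h => h.2).trans hF
  have g2 : (nd fun c v => (D.lab v = D.fl a ∧ ¬ D.Ins c v) ∧ D.Fx c v) ≤ B * k :=
    (ndS_mono fun c v h => h.2).trans hF
  have f1 : (nd fun c v => (D.lab v = a ∧ D.σ l v = true) ∧ D.Fx c v ∧ D.l0 c v = l) ≤
      B * D.y l := (ndS_mono fun c v h => h.2).trans (H.pre.tot l)
  have f2 : (nd fun c v => (D.lab v = D.fl a ∧ D.σ l v = false) ∧ D.Fx c v ∧ D.l0 c v = l) ≤
      B * D.y l := (ndS_mono fun c v h => h.2).trans (H.pre.tot l)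
  unfold Dat.gI sgs
  rw [net_SG2 (D.y l) _ (fun c v => D.Fx c v ∧ D.l0 c v = l),
    net_SG2 (D.y l) _ (fun c v => D.Fx c v ∧ D.l0 c v = l)]
  rw [s1] at b1
  rw [s2] at b2
  rw [t1] at d1
  rw [t2] at d2
  zify at d1 d2 g1 g2 f1 f2
  generalize (nd fun c v => (D.lab v = a ∧ ¬ D.Ins c v) ∧ D.Fx c v) = G1 at *
  generalize (nd fun c v => (D.lab v = D.fl a ∧ ¬ D.Ins c v) ∧ D.Fx c v) = G2 at *
  generalize (nd fun c v => (D.lab v = a ∧ D.σ l v = true) ∧ D.Fx c v ∧ D.l0 c v = l) = F1 at *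
  generalize (nd fun c v => (D.lab v = D.fl a ∧ D.σ l v = false) ∧ D.Fx c v ∧ D.l0 c v = l) =
    F2 at *
  generalize (cnt fun v => D.lab v = a ∧ D.σ l v = true) = n1 at *
  generalize (cnt fun v => D.lab v = a ∧ D.σ l v = false) = n1' at *
  generalize (cnt fun v => D.lab v = D.fl a ∧ D.σ l v = true) = n2' at *
  generalize (cnt fun v => D.lab v = D.fl a ∧ D.σ l v = false) = n2 at *
  generalize ∑ b, (D.NR a b : ℤ) = A1 at *
  generalize ∑ b, (D.NR (D.fl a) b : ℤ) = A2 at *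
  generalize D.y l = y at *
  have e : 2 * (k : ℤ) * (y * n1 - F1 - (y * n2 - F2)) - y * (A1 - A2) =
      y * k * ((n1 - n1') + (n2' - n2)) - 2 * k * (F1 - F2) + y * (G1 - G2) := by
    linear_combination (y : ℤ) * d1 - (y : ℤ) * d2
  rw [e]
  have hy : (0 : ℤ) ≤ y := Int.natCast_nonneg y
  have hk : (0 : ℤ) ≤ k := Int.natCast_nonneg k
  have hB : (0 : ℤ) ≤ B := Int.natCast_nonneg B
  have hyk := mul_nonneg hy hk
  have p1 : (0 : ℤ) ≤ F1 := Int.natCast_nonneg _
  have p2 : (0 : ℤ) ≤ F2 := Int.natCast_nonneg _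
  have q1 : (0 : ℤ) ≤ G1 := Int.natCast_nonneg _
  have q2 : (0 : ℤ) ≤ G2 := Int.natCast_nonneg _
  have hBy := mul_nonneg hyk hB
  push_cast
  rw [abs_le]
  constructor
  · have a1 := mul_le_mul_of_nonneg_left (show -(2 * (B : ℤ)) ≤ (n1 - n1') + (n2' - n2) by
      linarith [b1.1, b2.1]) hyk
    have a2 := mul_le_mul_of_nonneg_left (show (F1 : ℤ) - F2 ≤ B * y by linarith) hk
    have a3 := mul_le_mul_of_nonneg_left (show -((B : ℤ) * k) ≤ G1 - G2 by linarith) hy
    nlinarith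
  · have a1 := mul_le_mul_of_nonneg_left (show ((n1 : ℤ) - n1') + (n2' - n2) ≤ 2 * B by
      linarith [b1.2, b2.2]) hyk
    have a2 := mul_le_mul_of_nonneg_left (show -((B : ℤ) * y) ≤ F1 - F2 by linarith) hk
    have a3 := mul_le_mul_of_nonneg_left (show (G1 : ℤ) - G2 ≤ B * k by linarith) hy
    nlinarith

end Pool.Agent.MP_d20a68_co.T

end

section

/-! The deficit of a block in terms of the movable cross edges. -/

set_option autoImplicit false
set_option linter.unusedSectionVars false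
set_option linter.unusedVariables false
open Finset
open scoped Classical

namespace Pool.Agent.MP_d20a68_co.T

open Pool.Agent.MP_d20a68_co.Poly

section

variable {V Lv : Type} [Fintype V] [Fintype Lv] {k R : ℕ}

lemma nd_fiber_SDfc {β : Type} [Fintype β] (P : Fin k → V → Prop) (f : Fin k → V → β) :
    nd P = ∑ b, nd fun c v => P c v ∧ f c v = b :=
  cntS_fiber (fun e : Fin k × V => P e.1 e.2) fun e => f e.1 e.2

lemma nd_split_SDfc (P Q : Fin k → V → Prop) :
    nd P = nd (fun c v => P c v ∧ Q c v) + nd fun c v => P c v ∧ ¬ Q c v :=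
  cntS_split (fun e : Fin k × V => P e.1 e.2) fun e => Q e.1 e.2

lemma deg_SDfc (D : Dat V Lv k R) (lam : Fin k → V → Lv)
    (hf : ∀ c v, D.Fx c v → lam c v = D.l0 c v) (l : Lv) (v : V) :
    (cnt fun c => lam c v = l) = (cnt fun c => D.Fx c v ∧ D.l0 c v = l) +
      ((cnt fun c => D.MI c v ∧ lam c v = l) + cnt fun c => D.MC c v ∧ lam c v = l) := by
  rw [cntS_split (fun c => lam c v = l) fun c => D.Fx c v,
    cntS_split (fun c => lam c v = l ∧ ¬ D.Fx c v) fun c => D.Ins c v]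
  congr 1
  · exact cntS_congr fun c =>
      ⟨fun h => ⟨h.2, hf c v h.2 ▸ h.1⟩, fun h => ⟨(hf c v h.1).trans h.2, h.1⟩⟩
  · congr 1
    · exact cntS_congr fun c => by unfold Dat.MI; tauto
    · exact cntS_congr fun c => by unfold Dat.MC; tauto

lemma sum_res_SDfc (D : Dat V Lv k R) (lam : Fin k → V → Lv)
    (hf : ∀ c v, D.Fx c v → lam c v = D.l0 c v) (l : Lv) (Q : V → Prop) [DecidablePred Q] :
    ∑ v ∈ univ.filter Q, res D.y lam l v =
      ∑ v ∈ univ.filter Q, ((D.y l : ℤ) - ((cnt fun c => D.Fx c v ∧ D.l0 c v = l : ℕ) : ℤ)) -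
        (nd (fun c v => Q v ∧ (D.MI c v ∧ lam c v = l)) : ℕ) -
        (nd (fun c v => Q v ∧ (D.MC c v ∧ lam c v = l)) : ℕ) := by
  rw [ndS_sum_in (fun c v => D.MI c v ∧ lam c v = l) Q,
    ndS_sum_in (fun c v => D.MC c v ∧ lam c v = l) Q]
  push_cast
  rw [← sum_sub_distrib, ← sum_sub_distrib]
  refine sum_congr rfl fun v _ => ?_
  unfold res
  rw [deg_SDfc D lam hf l v]
  push_cast
  ring

variable {D : Dat V Lv k R} {C : ℕ} {φ η ν : ℝ} {u B S Lp : ℕ}

lemma mi_mate_SDfc (H : D.Hyp C φ η ν u B S Lp) (c : Fin k) (v : V) :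
    D.MI c (D.m c v) ↔ D.MI c v := by
  unfold Dat.MI
  rw [H.fx_mate, H.ins_mate]

lemma mc_mate_SDfc (H : D.Hyp C φ η ν u B S Lp) (c : Fin k) (v : V) :
    D.MC c (D.m c v) ↔ D.MC c v := by
  unfold Dat.MC
  rw [H.fx_mate, H.ins_mate]

lemma flip_SDfc {lam : Fin k → V → Lv} (hv : Val D.m D.σ lam) {c : Fin k} {v : V} {l : Lv}
    (h : lam c v = l) : D.σ l (D.m c v) = false ↔ D.σ l v = true := by
  have := hv.2 c v
  rw [h] at this
  revert this
  cases D.σ l (D.m c v) <;> cases D.σ l v <;> simp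

lemma rich_symm_SDfc (H : D.Hyp C φ η ν u B S Lp) {a b : Fin R} (h : D.Rich a b) :
    D.Rich b a :=
  ⟨fun h' => h.1 (H.typ.psym _ _ h'), fun h' => h.2 (by rw [h', H.typ.inv])⟩

lemma zero_SDfc (H : D.Hyp C φ η ν u B S Lp) (lam : Fin k → V → Lv) (l : Lv) {a b : Fin R}
    (h : ¬ D.Rich a b) : cA D.m D.lab D.σ D.MC lam l a b = 0 := by
  refine cntS_zero fun e he => h ?_
  obtain ⟨⟨h1, h2⟩, -, -, h3, h4⟩ := he
  rw [← h3, ← h4]
  exact ⟨H.pre.free _ _ h1, h2⟩

lemma ins_SDfc (H : D.Hyp C φ η ν u B S Lp) {lam : Fin k → V → Lv} (hv : Val D.m D.σ lam)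
    (l : Lv) (a : Fin R) :
    nd (fun c v => (D.lab v = a ∧ D.σ l v = true) ∧ (D.MI c v ∧ lam c v = l)) =
      nd fun c v => (D.lab v = D.fl a ∧ D.σ l v = false) ∧ (D.MI c v ∧ lam c v = l) := by
  rw [← ndS_mate H.fac fun c v => (D.lab v = D.fl a ∧ D.σ l v = false) ∧ (D.MI c v ∧ lam c v = l)]
  refine ndS_congr fun c v => ?_
  rw [mi_mate_SDfc H, hv.1]
  refine and_congr_left fun h => ?_
  rw [flip_SDfc hv h.2, show D.lab (D.m c v) = D.fl (D.lab v) from h.1.2]
  refine and_congr_left fun _ => ⟨fun e => by rw [e], fun e => ?_⟩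
  rw [← H.typ.inv (D.lab v), e, H.typ.inv]

lemma out_SDfc (lam : Fin k → V → Lv) (l : Lv) (a : Fin R) :
    nd (fun c v => (D.lab v = a ∧ D.σ l v = true) ∧ (D.MC c v ∧ lam c v = l)) =
      ∑ b, cA D.m D.lab D.σ D.MC lam l a b := by
  rw [nd_fiber_SDfc _ fun c v => D.lab (D.m c v)]
  refine sum_congr rfl fun b _ => ndS_congr fun c v => ?_
  tauto

lemma inn_SDfc (H : D.Hyp C φ η ν u B S Lp) {lam : Fin k → V → Lv} (hv : Val D.m D.σ lam)
    (l : Lv) (b : Fin R) :
    nd (fun c v => (D.lab v = b ∧ D.σ l v = false) ∧ (D.MC c v ∧ lam c v = l)) =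
      ∑ a, cA D.m D.lab D.σ D.MC lam l a b := by
  rw [← ndS_mate H.fac fun c v => (D.lab v = b ∧ D.σ l v = false) ∧ (D.MC c v ∧ lam c v = l),
    nd_fiber_SDfc _ fun c v => D.lab v]
  refine sum_congr rfl fun a _ => ndS_congr fun c v => ?_
  rw [mc_mate_SDfc H, hv.1]
  constructor
  · rintro ⟨⟨⟨h1, h2⟩, h3, h4⟩, h5⟩
    exact ⟨h3, h4, (flip_SDfc hv h4).1 h2, h5, h1⟩
  · rintro ⟨h3, h4, h2, h5, h1⟩
    exact ⟨⟨⟨h1, (flip_SDfc hv h4).2 h2⟩, h3, h4⟩, h5⟩

lemma pair_SDfc (H : D.Hyp C φ η ν u B S Lp) {lam : Fin k → V → Lv} (hv : Val D.m D.σ lam)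
    (l : Lv) (a b : Fin R) :
    cA D.m D.lab D.σ D.MC lam l a b + cA D.m D.lab D.σ D.MC lam l b a =
      nd fun c v => (D.MC c v ∧ D.Ty a b c v) ∧ lam c v = l := by
  rw [nd_split_SDfc (fun c v => (D.MC c v ∧ D.Ty a b c v) ∧ lam c v = l)
    fun c v => D.σ l v = true]
  unfold cA
  congr 1
  · refine ndS_congr fun c v => ?_
    unfold Dat.Ty
    tauto
  · rw [← ndS_mate H.fac fun c v => D.MC c v ∧ lam c v = l ∧ D.σ l v = true ∧ D.lab v = b ∧
      D.lab (D.m c v) = a]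
    refine ndS_congr fun c v => ?_
    rw [mc_mate_SDfc H, hv.1, H.fac.inv]
    unfold Dat.Ty
    constructor
    · rintro ⟨h1, h2, h3, h4, h5⟩
      refine ⟨⟨⟨h1, h5, h4⟩, h2⟩, fun h => ?_⟩
      rw [(flip_SDfc hv h2).2 h] at h3
      exact Bool.false_ne_true h3
    · rintro ⟨⟨⟨h1, h5, h4⟩, h2⟩, h3⟩
      refine ⟨h1, h2, ?_, h4, h5⟩
      by_contra h
      exact h3 ((flip_SDfc hv h2).1 (by simpa using h))

end

theorem dfcS : DfcP := by
  intro V Lv _ _ k R D C φ η ν u B S Lp H lam hv hf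
  refine ⟨fun l a => ?_, fun l a b h => zero_SDfc H lam l h, fun a b => ?_⟩
  · unfold Dat.gI sgs
    rw [sum_res_SDfc D lam hf l, sum_res_SDfc D lam hf l, ins_SDfc H hv l a, out_SDfc lam l a,
      inn_SDfc H hv l (D.fl a)]
    push_cast
    ring
  · unfold Dat.NR
    by_cases h : D.Rich a b
    · rw [if_pos h, sum_congr rfl fun l _ => pair_SDfc H hv l a b,
        ← nd_fiber_SDfc (fun c v => D.MC c v ∧ D.Ty a b c v) lam]
      refine ndS_congr fun c v => ⟨fun h' => ⟨h'.1.1, h'.2⟩, fun h' => ⟨⟨h'.1, fun hi => ?_⟩, h'.2⟩⟩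
      apply h.2
      rw [← h'.2.1, ← h'.2.2]
      exact hi
    · rw [if_neg h]
      refine sum_eq_zero fun l _ => ?_
      rw [zero_SDfc H lam l h, zero_SDfc H lam l fun h' => h (rich_symm_SDfc H h'), add_zero]

end Pool.Agent.MP_d20a68_co.T

end

section

/-! The first stage. -/

set_option autoImplicit false
set_option linter.unusedSectionVars false
set_option linter.unusedVariables false
open Finset
open scoped Classical

namespace Pool.Agent.MP_d20a68_co.T

open Pool.Agent.MP_d20a68_co.Poly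

variable {V Lv : Type} [Fintype V] [Fintype Lv] {k R : ℕ} {D : Dat V Lv k R}
  {om : Fin k → V → Lv ⊕ Lv}

lemma val_SStage1 (h : D.RD0 om) : Val D.m D.σ (D.lamOf om) := by
  refine ⟨fun c v => by unfold Dat.lamOf; rw [h.sym], fun c v => ?_⟩
  unfold Dat.lamOf
  cases e : om c v with
  | inl l => exact h.cutl c v l e
  | inr l => exact (h.tag c v l e).2.1

lemma mc_SStage1 (h : D.RD0 om) {c : Fin k} {v : V} (hm : D.MC c v) (l : Lv) :
    D.lamOf om c v = l ↔ om c v = Sum.inl l := by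
  unfold Dat.lamOf
  cases e : om c v with
  | inl l' => simp
  | inr l' => exact absurd (h.tag c v l' e).1.2 hm.2

lemma mi_SStage1 (c : Fin k) (v : V) {l : Lv} (hl : l ≠ D.z) :
    D.lamOf om c v = l ↔ om c v = Sum.inl l := by
  unfold Dat.lamOf
  cases e : om c v with
  | inl l' => simp
  | inr l' => simp [hl.symm]

lemma ar_SStage1 {k z c x w t : ℝ} (hk : 0 < k) (h1 : |2 * k * z - x| ≤ 2 * k * w)
    (h2 : |c - x / (2 * k)| ≤ t) : |z - c| ≤ w + t := by
  have e : z - c = (2 * k * z - x) / (2 * k) - (c - x / (2 * k)) := by field_simp; ring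
  rw [e]
  refine (abs_sub _ _).trans (add_le_add ?_ h2)
  rw [abs_div, abs_of_pos (by positivity : 0 < 2 * k), div_le_iff₀ (by positivity)]
  linarith

theorem stage1S (hT : TargetP) (hS : StageP) (h1 : G1P) (h2 : G2P) (h3 : G3P) (h4 : DfcP) :
    Stage1P := by
  intro R B
  obtain ⟨M, hM⟩ := hT R (3 * B)
  refine ⟨M, fun V Lv _ _ k D C φ η ν u S Lp H μ ν₁ ρ om R0 R1 R2 R3 n0 n1 p0 p1 c1 c2 c3 => ?_⟩
  obtain ⟨g1, g2, g3, g4⟩ := h3 V Lv k R D C φ η ν u B S Lp H
  have rs : ∀ a b, D.Rich a b → D.Rich b a := fun a b h =>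
    ⟨fun e => h.1 (H.typ.psym _ _ e), fun e => h.2 (by rw [e, H.typ.inv])⟩
  obtain ⟨zt, z1, z2, z3, z4, z5⟩ := hM (Fin R) Lv (by simp) D.fl D.Rich D.NR D.h D.y k D.gI
    H.typ.inv rs g1 g2 (fun a b h => if_neg h) H.pre.sumy H.ypos
    (h1 V Lv k R D C φ η ν u B S Lp H) (h2 V Lv k R D C φ η ν u B S Lp H) g3 g4
  have hk := H.kpos
  have hk' : 0 < k := by exact_mod_cast hk
  have v0 := val_SStage1 R0
  have f0 : ∀ c v, D.Fx c v → D.lamOf om c v = D.l0 c v := fun c v h => by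
    unfold Dat.lamOf; rw [R0.fx c v h]; rfl
  obtain ⟨-, d2, d3⟩ := h4 V Lv k R D C φ η ν u B S Lp H _ v0 f0
  have hy : ∀ l, (1 : ℝ) ≤ D.y l := fun l => by exact_mod_cast H.ypos l
  have hN : ∀ a b, D.Rich a b → (M : ℝ) + 1 ≤ ν₁ * (D.N a b / k) := fun a b h => by
    refine c2.trans (mul_le_mul_of_nonneg_left ?_ n0.le)
    rw [le_div_iff₀ hk]
    exact_mod_cast H.typ.rich a b h.1 h.2
  have hsum : ∑ l ∈ univ.erase D.h, D.y l + D.y D.h = k := by
    rw [sum_erase_add _ _ (mem_univ _), H.pre.sumy]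
  have hyh := H.pre.yhi D.h
  have mcm : ∀ c v, D.MC c v → D.MC c (D.m c v) := fun c v h =>
    ⟨fun e => h.1 ((H.fx_mate c v).1 e), fun e => h.2 ((H.ins_mate c v).1 e)⟩
  obtain ⟨lam, a1, a2, a3, a4⟩ := hS V Lv k R D D.MC (D.lamOf om) (univ.erase D.h) D.Rich
    (fun a b => (D.N a b : ℝ))
    (fun l a b => zt l a b - cA D.m D.lab D.σ D.MC (D.lamOf om) l a b) (2 * ν₁) (1 / 20) ρ η
    H.fac v0 mcm (notMem_erase _ _) hk' (by positivity) p0 p1 H.η0
    (H.eta_le.trans (by norm_num)) (by linarith) rs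
    (fun a b => by
      have : D.N a b = D.N b a := by
        unfold Dat.N NN
        rw [← ndS_mate H.fac]
        exact ndS_congr fun c v => by rw [H.fac.inv]; exact and_comm
      rw [this])
    (fun l a b h => by simp only [z1 l a b h, d2 l a b h]; simp)
    (fun l a b h h' => absurd (mem_erase.2 ⟨h', mem_univ _⟩) h)
    (fun a b => by
      have e1 := z2 a b
      have e2 : ∑ l, ((cA D.m D.lab D.σ D.MC (D.lamOf om) l a b : ℤ) +
          cA D.m D.lab D.σ D.MC (D.lamOf om) l b a) = D.NR a b := by exact_mod_cast d3 a b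
      rw [← sub_eq_zero.2 (e1.trans e2.symm), ← sum_sub_distrib]
      exact sum_congr rfl fun l _ => by ring)
    (fun a b h l hl => by
      have e1 : |2 * (k : ℝ) * (zt l a b : ℝ) - D.y l * D.NM a b| ≤ 2 * k * (M * D.y l) := by
        have := z4 l a b (mem_erase.1 hl).1
        rw [Dat.NR, if_pos h, mul_assoc _ (M : ℤ)] at this
        exact_mod_cast this
      have e2 := ar_SStage1 hk e1 (R2.cn a b h l)
      have e3 := hN a b h
      have e4 := hy l
      have e5 : 2 * ν₁ * D.y l * D.N a b / k = 2 * (D.y l * (ν₁ * (D.N a b / k))) := by ring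
      have e6 : ν₁ * D.y l * D.N a b / k = D.y l * (ν₁ * (D.N a b / k)) := by ring
      have e7 : (0 : ℝ) ≤ M := Nat.cast_nonneg _
      rw [e6] at e2
      rw [e5]
      push_cast
      constructor <;> nlinarith)
    (fun a b h => by
      have e1 : |2 * (k : ℝ) * (zt D.h a b : ℝ) - D.y D.h * D.NM a b| ≤ 2 * k * (M * k) := by
        have := z5 a b
        rw [Dat.NR, if_pos h, mul_assoc _ (M : ℤ)] at this
        exact_mod_cast this
      have e2 := ar_SStage1 hk e1 (R2.cn a b h D.h)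
      have e3 := hN a b h
      have e4 := H.yhi D.h
      have e5 : 2 * ν₁ * D.N a b = 2 * (k * (ν₁ * (D.N a b / k))) := by field_simp
      have e6 : ν₁ * D.y D.h * D.N a b / k = D.y D.h * (ν₁ * (D.N a b / k)) := by ring
      have e7 : (0 : ℝ) ≤ M := Nat.cast_nonneg _
      rw [e6] at e2
      rw [e5]
      push_cast
      nlinarith)
    (by omega) (by omega) H.pre.yh
    (fun l => c3.trans (mul_le_mul_of_nonneg_left (H.u6 l) p0.le))
    (fun v l _ => by
      by_cases hv : v ∈ D.Lt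
      · have e1 := (abs_le.1 (R1.dC v hv l)).2
        have e2 : (cnt fun c => D.MC c v : ℝ) ≤ k := by exact_mod_cast cntS_le_k _
        have e3 : D.y l * (cnt fun c => D.MC c v : ℝ) / k ≤ D.y l := by
          rw [div_le_iff₀ hk]
          exact mul_le_mul_of_nonneg_left e2 (Nat.cast_nonneg _)
        rw [cntS_congr fun c => and_congr_right fun h => mc_SStage1 R0 h l]
        have e4 := hy l
        have : (cnt fun c => D.MC c v ∧ om c v = Sum.inl l : ℝ) ≤ 2 * D.y l := by nlinarith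
        exact_mod_cast this
      · rw [cntS_zero fun c h => hv (H.lt_of_mv h.1.1)]
        exact Nat.zero_le _)
    (fun a b h l hl => R3.av1 a b h l (mem_erase.1 hl).1)
    (fun a b h l hl s => R3.av2 a b h l (mem_erase.1 hl).1 s)
  have f1 : ∀ c v, D.Fx c v → lam c v = D.l0 c v := fun c v h =>
    (a2 c v fun e => e.1 h).trans (f0 c v h)
  refine ⟨lam, ⟨a1, f1, fun c v l e => ?_, fun v l hl => ?_, fun v l => ?_⟩,
    fun c v h => a2 c v fun e => e.2 h, fun l a => ?_⟩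
  · rw [a2 c v fun e' => e'.2 (R0.tag c v l e).1.2]
    unfold Dat.lamOf
    rw [e]
    rfl
  · rw [cntS_congr fun c => and_congr_right fun (h : D.MI c v) =>
      (by rw [a2 c v fun e => e.2 h.2]; exact mi_SStage1 c v hl :
        lam c v = l ↔ om c v = Sum.inl l)]
    simp
  · rw [← cntS_congr fun c => and_congr_right fun h => mc_SStage1 R0 h l]
    exact a4 v l
  · rw [(h4 V Lv k R D C φ η ν u B S Lp H lam a1 f1).1 l a, ← z3 l a]
    simp only [a3]
    simp

end Pool.Agent.MP_d20a68_co.T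

end
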