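import Pool.Agent.Mg.Xd20a68.Ge7e6f2
import Pool.Agent.Mg.Xd20a68.G279f60
import Pool.Agent.Mg.Xd20a68.G5b1084
import Pool.Agent.Mg.Xd20a68.G8442c6
import Pool.Agent.Mg.Xd20a68.G73b344
import Pool.Agent.Mg.Xd20a68.Ge600bf
import Pool.Agent.Mg.Xd20a68.G7633c2
import Pool.Agent.Mg.Fd20a68.Ga54f30
import Pool.Agent.Mg.Xd20a68.G8bfc8a
import Pool.Agent.Mg.Xd20a68.Ga7920e

section

/-! The components of the union of two matchings have at most two ends. -/

set_option autoImplicit false
open Finset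
open scoped Classical

namespace Pool.Agent.MP_d20a68_co.T

open Pool.Agent.MP_d20a68_co.Poly

theorem ends_FOrb {V : Type} [Finite V] (a b : Equiv.Perm V) (ha : a * a = 1) (hb : b * b = 1)
    {y : V} (hy : b y = y) (S : V → Prop)
    (hS : ∀ T : V → Prop, T y → (∀ z, T z → T (a z) ∧ T (b z)) → ∀ z, S z → T z) :
    ∃ y', ∀ z, S z → a z = z ∨ b z = z → z = y ∨ z = y' := by
  have ia : a⁻¹ = a := inv_eq_of_mul_eq_one_right ha
  have ib : b⁻¹ = b := inv_eq_of_mul_eq_one_right hb
  have c : ∀ g : Equiv.Perm V, g * (b * a) * g⁻¹ = (b * a)⁻¹ → ∀ n : ℤ,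
      g * (b * a) ^ n = (b * a) ^ (-n) * g := fun g h n => by
    rw [zpow_neg, ← inv_zpow, ← h, conj_zpow, inv_mul_cancel_right]
  have h1 : ∀ n : ℤ, a (((b * a) ^ n) y) = ((b * a) ^ (-n - 1)) y := fun n => by
    rw [← Equiv.Perm.mul_apply, c a (by rw [mul_inv_rev, ia, ib, ← mul_assoc, mul_assoc, ha, mul_one]),
      zpow_sub_one, mul_inv_rev, ia, ib, Equiv.Perm.mul_apply, Equiv.Perm.mul_apply,
      Equiv.Perm.mul_apply, hy]
  have h2 : ∀ n : ℤ, b (((b * a) ^ n) y) = ((b * a) ^ (-n)) y := fun n => by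
    rw [← Equiv.Perm.mul_apply, c b (by rw [mul_inv_rev, ia, ib, ← mul_assoc, hb, one_mul]),
      Equiv.Perm.mul_apply, hy]
  have hp : (0 : ℤ) < MulAction.period (b * a) y := by
    exact_mod_cast MulAction.period_pos_of_orderOf_pos (orderOf_pos (b * a)) y
  have d : ∀ m n : ℤ, ((b * a) ^ m) y = ((b * a) ^ n) y →
      (MulAction.period (b * a) y : ℤ) ∣ n - m := fun m n h => by
    rw [← MulAction.zpow_smul_eq_iff_period_dvd, sub_eq_neg_add, zpow_add, mul_smul, zpow_neg,
      inv_smul_eq_iff]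
    exact h.symm
  refine ⟨((b * a) ^ ((MulAction.period (b * a) y : ℤ) / 2)) y, fun z hz hf => ?_⟩
  obtain ⟨n, rfl⟩ := hS (fun z => ∃ n : ℤ, z = ((b * a) ^ n) y) ⟨0, rfl⟩
    (by rintro _ ⟨n, rfl⟩; exact ⟨⟨_, h1 n⟩, _, h2 n⟩) z hz
  have e : ((b * a) ^ (n % (MulAction.period (b * a) y : ℤ))) y = ((b * a) ^ n) y :=
    MulAction.zpow_mod_period_smul n (g := b * a) (a := y)
  rw [← e] at hf ⊢
  have k1 := Int.emod_nonneg n hp.ne'
  have k2 := Int.emod_lt_of_pos n hp
  rw [h1, h2] at hf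
  have k3 := hf.imp (d _ _) (d _ _)
  generalize n % (MulAction.period (b * a) y : ℤ) = m at *
  generalize (MulAction.period (b * a) y : ℤ) = p at *
  have k4 : m = 0 ∨ m = p / 2 := by
    rcases k3 with ⟨t, ht⟩ | ⟨t, ht⟩
    all_goals
      have t0 : -1 < t := by nlinarith
      have t2 : t < 2 := by nlinarith
      interval_cases t <;> omega
  rcases k4 with rfl | rfl
  · exact Or.inl rfl
  · exact Or.inr rfl

theorem orbP : OrbP := by
  intro V _ i j hi hj
  let r : V → V → Prop := Relation.EqvGen fun a b => b = i a ∨ b = j a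
  have hr : Equivalence r := Relation.EqvGen.is_equivalence _
  refine ⟨fun x => univ.filter (r x), fun x => by simpa using hr.refl x, fun x y hy => ?_,
    fun x y hy => ?_, fun x => ?_⟩
  · rw [mem_filter] at hy
    exact filter_congr fun z _ => ⟨hr.trans hy.2, hr.trans (hr.symm hy.2)⟩
  · simp only [mem_filter, mem_univ, true_and] at hy ⊢
    exact ⟨hr.trans hy (.rel _ _ (.inl rfl)), hr.trans hy (.rel _ _ (.inr rfl))⟩
  have hT : ∀ T : V → Prop, (∀ z, T z → T (i z) ∧ T (j z)) → ∀ y z, r y z → (T y ↔ T z) := by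
    intro T h y z e
    induction e with
    | rel u v e =>
      rcases e with rfl | rfl
      · exact ⟨fun k => (h _ k).1, fun k => hi u ▸ (h _ k).1⟩
      · exact ⟨fun k => (h _ k).2, fun k => hj u ▸ (h _ k).2⟩
    | refl => rfl
    | symm _ _ _ ih => exact ih.symm
    | trans _ _ _ _ _ ih ih' => exact ih.trans ih'
  have key : ∀ y, r x y → i y = y ∨ j y = y →
      ∃ y', ∀ z, r x z → i z = z ∨ j z = z → z = y ∨ z = y' := by
    rintro y hy (h | h)
    · obtain ⟨y', h'⟩ := ends_FOrb (Function.Involutive.toPerm j hj) (Function.Involutive.toPerm i hi)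
        (Equiv.ext hj) (Equiv.ext hi) h (r x) fun T h1 h2 z hz =>
          (hT T (fun z k => (h2 z k).symm) y z (hr.trans (hr.symm hy) hz)).1 h1
      exact ⟨y', fun z hz k => h' z hz k.symm⟩
    · exact ends_FOrb (Function.Involutive.toPerm i hi) (Function.Involutive.toPerm j hj)
        (Equiv.ext hi) (Equiv.ext hj) h (r x) fun T h1 h2 z hz =>
          (hT T h2 y z (hr.trans (hr.symm hy) hz)).1 h1
  unfold cnt
  by_cases h : ∃ y, r x y ∧ (i y = y ∨ j y = y)
  · obtain ⟨y, h1, h2⟩ := h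
    obtain ⟨y', h3⟩ := key y h1 h2
    refine (card_le_card fun z hz => ?_).trans (card_le_two (a := y) (b := y'))
    simp only [mem_filter, mem_univ, true_and] at hz
    simpa using h3 z hz.1 hz.2
  · refine (card_le_card fun z hz => ?_).trans (card_le_two (a := x) (b := x))
    simp only [mem_filter, mem_univ, true_and] at hz
    exact absurd ⟨z, hz⟩ h

end Pool.Agent.MP_d20a68_co.T

end

section

set_option autoImplicit false
open Finset
open scoped Classical

namespace Pool.Agent.MP_d20a68_co.T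

open Pool.Agent.MP_d20a68_co.Poly

theorem sum_FVirt {V : Type} [Fintype V] {k : ℕ} {m : Fin k → V → V} {Sp : Fin k → V → Prop}
    {vc : Fin k → V → Fin k} {E : Fin k → Finset V} {e : Fin k → V → V} (h : Vir m Sp vc E e) :
    ∑ a, (E a).card ≤ nd Sp := by
  unfold nd cnt
  rw [Finset.card_eq_sum_card_fiberwise (f := fun x : Fin k × V => vc x.1 x.2) (t := univ)
    fun _ _ => Finset.mem_coe.2 (mem_univ _)]
  refine Finset.sum_le_sum fun a _ => ?_
  refine le_trans (Finset.card_le_card fun v hv => ?_) (Finset.card_image_le (f := Prod.snd))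
  obtain ⟨c, h1, h2⟩ := (h.mem a v).1 hv
  exact Finset.mem_image.2 ⟨(c, v), by simp [h1, h2], rfl⟩

theorem drop_FVirt {k : ℕ} (f g : Fin k → ℕ) {a b : Fin k} (hab : a ≠ b)
    (h : ∀ c, c ≠ a → c ≠ b → g c = f c) (hlt : g a + g b < f a + f b) : ∑ c, g c < ∑ c, f c := by
  have hb : b ∈ (univ : Finset (Fin k)).erase a := by simp [hab.symm]
  rw [← Finset.add_sum_erase _ f (mem_univ a), ← Finset.add_sum_erase _ g (mem_univ a),
    ← Finset.add_sum_erase _ f hb, ← Finset.add_sum_erase _ g hb,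
    Finset.sum_congr rfl fun c hc => h c (Finset.ne_of_mem_erase (Finset.mem_of_mem_erase hc))
      (Finset.ne_of_mem_erase hc), ← add_assoc, ← add_assoc]
  exact Nat.add_lt_add_right hlt _

theorem virtP (hS : SwapP) (h0 : Vir0P) (h1 : Vir1P) : VirtP := by
  intro R S
  obtain ⟨D, hD⟩ := hS R
  refine ⟨S + D, fun k V _ m lab fl r Sp hF hR hcl hn hnd => ?_⟩
  have key : ∀ (n : ℕ) (vc : Fin k → V → Fin k) (E : Fin k → Finset V) (e : Fin k → V → V),
      ∑ c, (E c).card ^ 2 = n → Vir m Sp vc E e → (∀ c, Mat lab fl r (E c) (e c)) →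
      ∃ (vc : Fin k → V → Fin k) (E : Fin k → Finset V) (e : Fin k → V → V),
        Vir m Sp vc E e ∧ ∀ c, Mat lab fl r (E c) (e c) ∧ (E c).card ≤ S + D := by
    intro n
    induction n using Nat.strong_induction_on with
    | _ n ih =>
      intro vc E e hsum hV hM
      by_cases hall : ∀ c, (E c).card ≤ S + D
      · exact ⟨vc, E, e, hV, fun c => ⟨hM c, hall c⟩⟩
      obtain ⟨a, ha⟩ := not_forall.1 hall
      obtain ⟨b, hb⟩ : ∃ b, (E b).card ≤ S := by
        by_contra hne
        have h2 : ∑ _c : Fin k, (S + 1) ≤ ∑ c, (E c).card :=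
          Finset.sum_le_sum fun c _ => Nat.succ_le_of_lt (not_le.1 fun h => hne ⟨c, h⟩)
        have h3 := (h2.trans (sum_FVirt hV)).trans hnd
        have h4 := a.pos
        rw [Finset.sum_const, Finset.card_univ, Fintype.card_fin, smul_eq_mul, mul_add, mul_one,
          mul_comm] at h3
        omega
      have hab : a ≠ b := by
        rintro rfl
        omega
      obtain ⟨K, k1, k2, k3, k4, k5, k6⟩ := hD V lab fl r (E a) (E b) (e a) (e b) (hM a) (hM b)
        (by omega)
      obtain ⟨vc', E', e', hV', hM', ea, eb', ec⟩ :=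
        h1 k R V m lab fl r Sp vc E e a b K hF hcl hV hM hab k1 k2 k5 k6
      refine ih _ (hsum ▸ drop_FVirt _ _ hab (fun c c1 c2 => by rw [ec c c1 c2]) ?_) vc' E' e' rfl
        hV' hM'
      have d1 : ∀ A B : Finset V, ((A \ K) ∪ (B ∩ K)).card = (A \ K).card + (B ∩ K).card :=
        fun A B => Finset.card_union_of_disjoint (Finset.disjoint_left.2 fun v h h' =>
          (Finset.mem_sdiff.1 h).2 (Finset.mem_inter.1 h').2)
      have d2 := Finset.card_sdiff_add_card_inter (E a) K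
      have d3 := Finset.card_sdiff_add_card_inter (E b) K
      rw [ea, eb', d1, d1]
      rw [← d2] at ha ⊢
      rw [← d3] at hb ⊢
      generalize (E a \ K).card = x at *
      generalize (E b \ K).card = y at *
      generalize (E a ∩ K).card = p at *
      generalize (E b ∩ K).card = q at *
      have hxy : y < x := by omega
      nlinarith [mul_pos (Nat.sub_pos_of_lt hxy) (Nat.sub_pos_of_lt k3), Nat.sub_add_cancel hxy.le,
        Nat.sub_add_cancel k3.le]
  obtain ⟨g1, g2⟩ := h0 k R V m lab fl r Sp hF hR hcl hn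
  exact key _ _ _ _ rfl g1 g2

end Pool.Agent.MP_d20a68_co.T

end

section

set_option autoImplicit false
open Finset
open scoped Classical

namespace Pool.Agent.MP_d20a68_co.T

open Pool.Agent.MP_d20a68_co.Poly

theorem par_FShare {V : Type} (A : Finset V) (f : V → Bool) :
    (∑ v ∈ A, sgz (f v) + A.card) % 2 = 0 := by
  induction A using Finset.induction_on with
  | empty => simp
  | insert a A ha ih =>
    rw [sum_insert ha, card_insert_of_notMem ha]
    unfold sgz at ih ⊢
    push_cast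
    split_ifs <;> omega

theorem neg_FShare (b : Bool) : sgz (!b) = -sgz b := by cases b <;> simp [sgz]

theorem cnt_FShare {V : Type} [Fintype V] (E₁ E₂ : Finset V) (P : V → Prop) :
    (E₁.filter fun v => v ∉ E₂ ∧ P v).card + (cnt fun v => (v ∉ E₁ ∧ v ∉ E₂) ∧ P v) =
      cnt fun v => v ∉ E₂ ∧ P v := by
  unfold cnt
  rw [← card_union_of_disjoint (disjoint_left.2 fun v h1 h2 => by
    simp only [mem_filter] at h1 h2
    exact h2.2.1.1 h1.1)]
  congr 1
  ext v
  simp only [mem_union, mem_filter, mem_univ, true_and]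
  tauto

theorem spl_FShare {V : Type} (E₁ E₂ : Finset V) (P : V → Prop) (f : V → ℤ) :
    ∑ v ∈ E₁.filter P, f v = ∑ v ∈ E₁.filter (fun v => v ∉ E₂ ∧ P v), f v +
      ∑ v ∈ (E₁ ∩ E₂).filter P, f v := by
  rw [← sum_union (disjoint_left.2 fun v h1 h2 => by
    simp only [mem_filter, mem_inter] at h1 h2
    exact h1.2.1 h2.1.2)]
  congr 1
  ext v
  simp only [mem_union, mem_filter, mem_inter]
  tauto

theorem shareP (hE : EulerP) (hN : NuP) : ShareP := by
  intro R V _ lab fl r E₁ E₂ e₁ e₂ hr h1 h2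
  obtain ⟨ho, -, hN3⟩ := hN R fl r hr
  obtain ⟨g, hg1, hg2⟩ : ∃ g : V → V ⊕ (Fin R → Prop),
      (∀ v, v ∈ E₁ ∧ v ∈ E₂ → g v = Sum.inl v) ∧
      ∀ v, ¬ (v ∈ E₁ ∧ v ∈ E₂) → g v = Sum.inr (orb r fl (lab v)) :=
    ⟨fun v => if v ∈ E₁ ∧ v ∈ E₂ then Sum.inl v else Sum.inr (orb r fl (lab v)),
      fun v h => if_pos h, fun v h => if_neg h⟩
  obtain ⟨s, hs1, hs2⟩ := hE (V ⊕ V) (V ⊕ (Fin R → Prop)) (E₁.disjSum E₂) (Sum.map e₁ e₂)
    (fun d => g (Sum.elim id id d)) (by
      rintro (v | v) hv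
      · rw [inl_mem_disjSum] at hv
        simp [h1.cl v hv, h1.ne v hv, h1.inv v hv]
      · rw [inr_mem_disjSum] at hv
        simp [h2.cl v hv, h2.ne v hv, h2.inv v hv])
  have hs3 : ∀ x, |∑ v ∈ E₁.filter (fun v => g v = x), sgz (s (Sum.inl v)) +
      ∑ v ∈ E₂.filter (fun v => g v = x), sgz (s (Sum.inr v))| ≤ 1 := fun x => by
    have := hs2 x
    rw [sum_filter, sum_disjSum] at this
    rw [sum_filter, sum_filter]
    convert this using 3 <;> exact sum_congr rfl fun v _ => by by_cases h : g v = x <;> simp [h]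
  have hc : ∀ v ∈ E₁, v ∈ E₂ → s (Sum.inl v) = !s (Sum.inr v) := by
    intro v a1 a2
    have key : ∀ E : Finset V, v ∈ E → E.filter (fun w => g w = Sum.inl v) = {v} := by
      intro E hv
      ext w
      simp only [mem_filter, mem_singleton]
      refine ⟨fun h => ?_, fun h => by rw [h]; exact ⟨hv, hg1 v ⟨a1, a2⟩⟩⟩
      by_cases hw : w ∈ E₁ ∧ w ∈ E₂
      · simpa [hg1 w hw] using h.2
      · simpa [hg2 w hw] using h.2
    have := hs3 (Sum.inl v)
    rw [key _ a1, key _ a2, sum_singleton, sum_singleton] at this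
    revert this
    cases s (Sum.inl v) <;> cases s (Sum.inr v) <;> simp [sgz]
  refine ⟨fun v => s (Sum.inl v), fun v => !s (Sum.inr v),
    fun v hv => hs1 (Sum.inl v) (inl_mem_disjSum.2 hv),
    fun v hv => congrArg (!·) (hs1 (Sum.inr v) (inr_mem_disjSum.2 hv)), hc,
    hN3 V lab E₁ E₂ _ _ (fun a => (h1.dif a).trans (h2.dif a).symm) fun a => ?_⟩
  have hoe : ∀ x, orb r fl x = orb r fl a ↔ orb r fl a x := fun x =>
    ⟨fun h => h ▸ ho.refl x, fun h => funext fun y => propext
      ⟨fun b => ho.trans h b, fun b => ho.trans (ho.symm h) b⟩⟩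
  have key : ∀ E E' : Finset V, (∀ v ∈ E, v ∈ E₁ ∧ v ∈ E₂ ↔ v ∈ E') →
      E.filter (fun w => g w = Sum.inr (orb r fl a)) =
        E.filter fun v => v ∉ E' ∧ orb r fl a (lab v) := by
    intro E E' h
    refine filter_congr fun w hw => ?_
    by_cases b : w ∈ E₁ ∧ w ∈ E₂
    · simp [hg1 w b, (h w hw).1 b]
    · rw [hg2 w b, Sum.inr.injEq, hoe, ← h w hw]
      exact ⟨fun c => ⟨b, c⟩, fun c => c.2⟩
  have h3 := hs3 (Sum.inr (orb r fl a))
  rw [key E₁ E₂ (fun v hv => by simp [hv]), key E₂ E₁ (fun v hv => by simp [hv])] at h3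
  have p1 := par_FShare (E₁.filter fun v => v ∉ E₂ ∧ orb r fl a (lab v)) fun v => s (Sum.inl v)
  have p2 := par_FShare (E₂.filter fun v => v ∉ E₁ ∧ orb r fl a (lab v)) fun v => s (Sum.inr v)
  have c1 := cnt_FShare E₁ E₂ fun v => orb r fl a (lab v)
  have c2 := cnt_FShare E₂ E₁ fun v => orb r fl a (lab v)
  simp only [and_comm (a := _ ∉ E₂) (b := _ ∉ E₁)] at c2
  obtain ⟨j1, q1⟩ := h1.par a
  obtain ⟨j2, q2⟩ := h2.par a
  rw [spl_FShare E₁ E₂, spl_FShare E₂ E₁, inter_comm E₂,
    sum_congr rfl (s₂ := (E₁ ∩ E₂).filter _) fun v hv => congrArg sgz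
      (hc v (mem_inter.1 (mem_filter.1 hv).1).1 (mem_inter.1 (mem_filter.1 hv).1).2)]
  simp only [neg_FShare, sum_neg_distrib]
  rw [abs_le] at h3
  omega

end Pool.Agent.MP_d20a68_co.T

end

section

/-! Many colours realise the same set of patterns. -/

set_option autoImplicit false
set_option linter.unusedSectionVars false
set_option linter.unusedVariables false
open Finset
open scoped Classical

namespace Pool.Agent.MP_d20a68_co.T

open Pool.Agent.MP_d20a68_co.Poly

theorem code_FPat {V : Type} (M : ℕ) (S : Finset V) (hS : S.card ≤ M) :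
    ∃ gg : (Fin M → Bool) → V → Bool, ∀ s : V → Bool, ∃ b, ∀ v ∈ S, s v = gg b v := by
  obtain ⟨num⟩ : Nonempty (S ↪ Fin M) :=
    Function.Embedding.nonempty_of_card_le (by simpa using hS)
  refine ⟨fun b v => if h : v ∈ S then b (num ⟨v, h⟩) else false, fun s =>
    ⟨Function.extend num (fun v => s v.1) (fun _ => false), fun v hv => ?_⟩⟩
  simp only [dif_pos hv]
  rw [num.injective.extend_apply]

theorem nu_FPat {R : ℕ} (r : Fin R → Fin R → Prop) (fl : Fin R → Fin R) (a x : Fin R)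
    (b : Bool) : |nu r fl a x b| ≤ 1 := by
  unfold nu
  split_ifs <;> simp

theorem net_FPat {V : Type} {R : ℕ} (M : ℕ) (lab : V → Fin R) (fl : Fin R → Fin R)
    (r : Fin R → Fin R → Prop) (E : Finset V) (hE : E.card ≤ M) (s : V → Bool) :
    ∃ n : Fin R → Fin (2 * M + 1), ∀ a,
      ∑ v ∈ E, nu r fl a (lab v) (s v) = ((n a : ℕ) : ℤ) - M := by
  have h : ∀ a, ∃ n : Fin (2 * M + 1), ∑ v ∈ E, nu r fl a (lab v) (s v) = ((n : ℕ) : ℤ) - M := by
    intro a
    have h1 : |∑ v ∈ E, nu r fl a (lab v) (s v)| ≤ M := by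
      refine (Finset.abs_sum_le_sum_abs _ _).trans ?_
      refine (Finset.sum_le_card_nsmul _ _ 1 fun v _ => nu_FPat r fl a _ _).trans ?_
      simpa using hE
    obtain ⟨h2, h3⟩ := abs_le.1 h1
    refine ⟨⟨(∑ v ∈ E, nu r fl a (lab v) (s v) + M).toNat, by omega⟩, ?_⟩
    simp only
    omega
  choose n hn using h
  exact ⟨n, hn⟩

theorem anti_FPat {V : Type} [Fintype V] (E : Finset V) (e : V → V)
    (hne : ∀ v ∈ E, e v ≠ v) (hinv : ∀ v ∈ E, e (e v) = v) :
    ∃ s : V → Bool, ∀ v ∈ E, s (e v) = !s v := by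
  refine ⟨fun v => decide (idx v < idx (e v)), fun v hv => ?_⟩
  have h1 : idx (e v) ≠ idx v := fun h => hne v hv (idx_inj h)
  simp only [hinv v hv]
  by_cases h : idx v < idx (e v)
  · have : ¬ idx (e v) < idx v := by omega
    simp [h, this]
  · have : idx (e v) < idx v := by omega
    simp [h, this]

theorem pig_FPat {α β : Type} [Fintype β] (F : Finset α) (hF : F.Nonempty) (f : α → β) :
    ∃ c0 ∈ F, ∃ P ⊆ F, F.card ≤ Fintype.card β * P.card ∧ ∀ c ∈ P, f c = f c0 := by
  obtain ⟨y, hy, hmax⟩ := Finset.exists_max_image (F.image f)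
    (fun y => (F.filter fun c => f c = y).card) (hF.image f)
  obtain ⟨c0, hc0, rfl⟩ := Finset.mem_image.1 hy
  refine ⟨c0, hc0, F.filter fun c => f c = f c0, Finset.filter_subset _ _, ?_,
    fun c hc => (Finset.mem_filter.1 hc).2⟩
  refine (Finset.card_le_mul_card_image F _ hmax).trans ?_
  rw [mul_comm]
  exact Nat.mul_le_mul_right _ (Finset.card_le_univ _)

theorem patP : PatP := by
  intro R M
  refine ⟨Fintype.card ((Fin M → Bool) × (Fin R → Fin (2 * M + 1))), Fintype.card_pos, ?_⟩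
  intro k V _ lab fl r E e S F hS hF hE
  obtain ⟨gg, hgg⟩ := code_FPat M S hS
  let Pt := (Fin M → Bool) × (Fin R → Fin (2 * M + 1))
  let Re : Fin k → (V → Bool) → Pt → Prop := fun c s p =>
    (∀ v ∈ S, s v = gg p.1 v) ∧ ∀ a, ∑ v ∈ E c, nu r fl a (lab v) (s v) = ((p.2 a : ℕ) : ℤ) - M
  have hRe : ∀ c s, ∃ p, Re c s p := by
    intro c s
    obtain ⟨b, hb⟩ := hgg s
    obtain ⟨n, hn⟩ := net_FPat M lab fl r (E c) (hE c).2 s
    exact ⟨(b, n), hb, hn⟩
  let Om : Fin k → Finset Pt := fun c =>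
    univ.filter fun p => ∃ s : V → Bool, (∀ v ∈ E c, s (e c v) = !s v) ∧ Re c s p
  have hOm : ∀ c p, p ∈ Om c ↔ ∃ s : V → Bool, (∀ v ∈ E c, s (e c v) = !s v) ∧ Re c s p := by
    intro c p
    simp only [Om, Finset.mem_filter, Finset.mem_univ, true_and]
  obtain ⟨c0, hc0, P, hPF, hcard, hP⟩ := pig_FPat F hF Om
  obtain ⟨s0, hs0⟩ := anti_FPat (E c0) (e c0) (hE c0).1.ne (hE c0).1.inv
  obtain ⟨p0, hp0⟩ := hRe c0 s0
  have hp0' : p0 ∈ Om c0 := (hOm c0 p0).2 ⟨s0, hs0, hp0⟩
  let π : Fin (Fintype.card Pt) → Pt := fun o =>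
    if (Fintype.equivFin Pt).symm o ∈ Om c0 then (Fintype.equivFin Pt).symm o else p0
  have hπ : ∀ o, π o ∈ Om c0 := by
    intro o
    simp only [π]
    split_ifs with h
    · exact h
    · exact hp0'
  have hπ' : ∀ p ∈ Om c0, ∃ o, π o = p := by
    intro p hp
    refine ⟨Fintype.equivFin Pt p, ?_⟩
    simp only [π, Equiv.symm_apply_apply, if_pos hp]
  refine ⟨P, hPF, ?_,
    fun o => gg (π o).1, fun o a => (((π o).2 a : ℕ) : ℤ) - M, ?_⟩
  · rw [Fintype.card_finset] at hcard
    exact hcard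
  · intro c hc
    have hc' : Om c = Om c0 := hP c hc
    constructor
    · intro o
      obtain ⟨s, hs, h1, h2⟩ := (hOm c (π o)).1 (hc' ▸ hπ o)
      exact ⟨s, hs, h1, h2⟩
    · intro s hs
      obtain ⟨p, hp⟩ := hRe c s
      obtain ⟨o, ho⟩ := hπ' p (hc' ▸ (hOm c p).2 ⟨s, hs, hp⟩)
      refine ⟨o, ?_⟩
      simp only [ho]
      exact hp

end Pool.Agent.MP_d20a68_co.T

end

section

set_option autoImplicit false
open Finset
open scoped Classical

namespace Pool.Agent.MP_d20a68_co.T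

open Pool.Agent.MP_d20a68_co.Poly

lemma cnt_FPool {α : Type} [Fintype α] (Q : Finset α) (P : α → Prop) [DecidablePred P] :
    (cnt fun c => c ∈ Q ∧ P c : ℝ) = ∑ c ∈ Q, if P c then (1 : ℝ) else 0 := by
  rw [sum_boole, cnt]
  congr 2
  ext c
  simp

theorem poolP (hA : AgreeP) : PoolP := by
  intro M δ hδ
  obtain ⟨L, hL, hLδ⟩ : ∃ L : ℝ, 0 < L ∧ Real.exp (-L) ≤ δ :=
    ⟨max 1 (-Real.log δ), lt_max_of_lt_left one_pos,
      (Real.le_log_iff_exp_le hδ).1 (neg_le.1 (le_max_right _ _))⟩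
  obtain ⟨a, ha⟩ : ∃ a : ℝ, a = (1 / 2 : ℝ) ^ (M + 1) := ⟨_, rfl⟩
  have ha0 : 0 < a := by rw [ha]; positivity
  obtain ⟨τ, hτ⟩ : ∃ τ : ℝ, τ = 2 * a ^ 2 / ((M + 1) * L) := ⟨_, rfl⟩
  have hτ0 : 0 < τ := by rw [hτ]; positivity
  refine ⟨τ, hτ0, fun k V _ E s S g Q hE hS hc => ?_⟩
  rw [← ha]
  rcases Q.eq_empty_or_nonempty with rfl | hQ
  · rw [pr_false fun ε => by simp]
    exact hδ.le
  have hq : (0 : ℝ) < Q.card := by exact_mod_cast hQ.card_pos
  let f : (V → Bool) → ℝ := fun ε =>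
    -∑ c ∈ Q, if ∀ v ∈ E c, ovr S g ε v = s c v then (1 : ℝ) else 0
  let d : V → ℝ := fun i => ∑ c ∈ Q, if i ∉ S ∧ i ∈ E c then (1 : ℝ) else 0
  have hm : mean f ≤ -(2 * a * Q.card) := by
    rw [mean_neg, mean_sum, neg_le_neg_iff, mul_comm, ← nsmul_eq_mul]
    refine card_nsmul_le_sum _ _ _ fun c hcQ => ?_
    have h1 := pr_mono (P := fun ε : V → Bool => ∀ v ∈ E c \ S, ε v = s c v)
      (Q := fun ε : V → Bool => ∀ v ∈ E c, ovr S g ε v = s c v) fun ε h v hv => by
        by_cases hv' : v ∈ S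
        · simp [ovr, hv', hS c hcQ v hv hv']
        · simp [ovr, hv', h v (mem_sdiff.2 ⟨hv, hv'⟩)]
    rw [hA] at h1
    have h2 : (1 / 2 : ℝ) ^ M ≤ (1 / 2 : ℝ) ^ (E c \ S).card :=
      pow_le_pow_of_le_one (by norm_num) (by norm_num) ((card_le_card sdiff_subset).trans (hE c))
    have h3 : 2 * a = (1 / 2 : ℝ) ^ M := by rw [ha, pow_succ]; ring
    rw [h3]
    refine (h2.trans h1).trans (le_of_eq ?_)
    exact congrArg mean (funext fun ε => by congr)
  have hd : ∀ i ω ω', (∀ j, j ≠ i → ω j = ω' j) → |f ω - f ω'| ≤ d i := fun i ω ω' h => by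
    simp only [f, d]
    rw [neg_sub_neg, ← sum_sub_distrib]
    refine (abs_sum_le_sum_abs _ _).trans (sum_le_sum fun c _ => ?_)
    by_cases hi : i ∉ S ∧ i ∈ E c
    · rw [if_pos hi]
      split_ifs <;> norm_num
    · have e : ∀ v ∈ E c, ovr S g ω v = ovr S g ω' v := fun v hv => by
        by_cases hv' : v ∈ S
        · simp [ovr, hv']
        · have : v ≠ i := fun e => hi (e ▸ ⟨hv', hv⟩)
          simp [ovr, hv', h v this]
      have e' : (∀ v ∈ E c, ovr S g ω' v = s c v) ↔ ∀ v ∈ E c, ovr S g ω v = s c v :=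
        forall₂_congr fun v hv => by rw [e v hv]
      rw [if_neg hi, if_congr e' rfl rfl, sub_self, abs_zero]
  have hd0 : ∀ i, 0 ≤ d i := fun i => sum_nonneg fun c _ => by split_ifs <;> norm_num
  have hd1 : ∀ i, d i ≤ τ * Q.card := fun i => by
    by_cases hi : i ∈ S
    · simp only [d, hi, not_true, false_and, if_false, sum_const_zero]
      positivity
    · have := hc i hi
      rw [cnt_FPool] at this
      simpa only [d, hi, not_false_iff, true_and] using this
  have hd2 : ∑ i, d i ≤ (M + 1) * Q.card := by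
    simp only [d]
    rw [sum_comm, mul_comm, ← nsmul_eq_mul]
    refine sum_le_card_nsmul _ _ _ fun c _ => ?_
    rw [sum_boole]
    have : (univ.filter fun i => i ∉ S ∧ i ∈ E c).card ≤ M + 1 :=
      ((card_le_card fun i hi => (mem_filter.1 hi).2.2).trans (hE c)).trans (Nat.le_succ M)
    exact_mod_cast this
  have hd3 : ∑ i, d i ^ 2 ≤ τ * Q.card * ((M + 1) * Q.card) := by
    refine le_trans (sum_le_sum fun i _ => ?_)
      ((mul_sum _ _ _).ge.trans (mul_le_mul_of_nonneg_left hd2 (by positivity)))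
    rw [sq]
    exact mul_le_mul_of_nonneg_right (hd1 i) (hd0 i)
  have h := mcd V f d _ (a * Q.card) (by positivity) (by positivity) hd hd3
  have e : 2 * (a * Q.card) ^ 2 / (τ * Q.card * ((M + 1) * Q.card)) = L := by
    rw [hτ]
    field_simp
  rw [e] at h
  refine (pr_mono fun ε hε => ?_).trans (h.trans hLδ)
  rw [cnt_FPool] at hε
  have e2 : f ε = -∑ c ∈ Q, if ∀ v ∈ E c, ovr S g ε v = s c v then (1 : ℝ) else 0 := rfl
  linarith

end Pool.Agent.MP_d20a68_co.T

end

section

set_option autoImplicit false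
open Finset
open scoped Classical

namespace Pool.Agent.MP_d20a68_co.T

open Pool.Agent.MP_d20a68_co.Poly

theorem cnt_FEq3 {α : Type} [Fintype α] {P Q : α → Prop} (h : ∀ w, P w ↔ Q w) : cnt P = cnt Q := by
  rw [show P = Q from funext fun w => propext (h w)]

theorem half_FEq3 {α : Type} [Fintype α] {P : α → Prop} [DecidablePred P] {σ : α → Bool} {t : ℝ}
    (h : |∑ w ∈ univ.filter P, sg (σ w)| ≤ t) (s : Bool) (Q Q' : α → Prop)
    (hQ : ∀ w, Q w ↔ P w) (hQ' : ∀ w, Q' w ↔ P w ∧ σ w = s) :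
    |2 * (cnt Q' : ℝ) - cnt Q| ≤ t := by
  have e : 2 * (cnt Q' : ℝ) - cnt Q = sg s * ∑ w ∈ univ.filter P, sg (σ w) := by
    simp only [cnt, card_filter, sum_filter, Nat.cast_sum, mul_sum, ← sum_sub_distrib, hQ, hQ']
    refine sum_congr rfl fun w _ => ?_
    by_cases hw : P w <;> cases s <;> cases σ w <;> simp [hw, sg] <;> norm_num
  rw [e, abs_mul, show |sg s| = 1 by cases s <;> simp [sg], one_mul]
  exact h

theorem split_FEq3 {α : Type} [Fintype α] (P : α → Prop) [DecidablePred P] (σ : α → Bool)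
    (f : α → ℝ) : ∑ w ∈ univ.filter P, f w = ∑ w ∈ univ.filter (fun w => P w ∧ σ w = true), f w +
      ∑ w ∈ univ.filter (fun w => P w ∧ σ w = false), f w := by
  simp only [sum_filter, ← sum_add_distrib]
  refine sum_congr rfl fun w _ => ?_
  by_cases hw : P w <;> cases σ w <;> simp [hw]

theorem siz_FEq3 {k R : ℕ} {V : Type} [Fintype V] {m : Fin k → V → V} {lab : V → Fin R}
    {σ0 σ1 σ : V → Bool} {t : ℕ} (h : Ga m lab σ0 σ1 σ t) (a : Fin R) :
    |∑ v ∈ Vl lab a, sgz (σ v)| ≤ ((4 * t : ℕ) : ℤ) := by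
  have e : ((∑ v ∈ Vl lab a, sgz (σ v) : ℤ) : ℝ) = ∑ v ∈ Vl lab a, sg (σ v) := by
    push_cast
    exact sum_congr rfl fun v _ => by cases σ v <;> simp [sg, sgz]
  have : |((∑ v ∈ Vl lab a, sgz (σ v) : ℤ) : ℝ)| ≤ 4 * t := by
    rw [e, Vl, split_FEq3 _ σ0, split_FEq3 (fun w => lab w = a ∧ σ0 w = true) σ1,
      split_FEq3 (fun w => lab w = a ∧ σ0 w = false) σ1]
    simp only [and_assoc]
    have h1 := abs_le.1 (h.siz a true true)
    have h2 := abs_le.1 (h.siz a true false)
    have h3 := abs_le.1 (h.siz a false true)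
    have h4 := abs_le.1 (h.siz a false false)
    rw [abs_le]
    constructor <;> linarith [h1.1, h1.2, h2.1, h2.2, h3.1, h3.2, h4.1, h4.2]
  exact_mod_cast this

theorem eq3P : Eq3P := by
  intro k R V Lv _ _ m lab poor z h σ t ν ht hz hh hl
  refine ⟨⟨fun l hs x x' b s s0 s1 => ?_, fun l hs o a b hab s s0 s1 s' s0' s1' => ?_⟩,
    fun l a => ?_⟩
  · have h1 := abs_le.1 (half_FEq3 (hz.1.cod x x' b true true) s0
      (fun w => adj m x w ∧ adj m x' w ∧ lab w = b)
      (fun w => adj m x w ∧ adj m x' w ∧ lab w = b ∧ σ z w = s0) (by simp) (by simp [and_assoc]))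
    have h2 := abs_le.1 (half_FEq3 (hh.1.cod x x' b s0 true) s1
      (fun w => adj m x w ∧ adj m x' w ∧ lab w = b ∧ σ z w = s0)
      (fun w => adj m x w ∧ adj m x' w ∧ lab w = b ∧ σ z w = s0 ∧ σ h w = s1) (by simp)
      (by simp [and_assoc]))
    have h3 := abs_le.1 (half_FEq3 ((hl l hs).1.cod x x' b s0 s1) s
      (fun w => adj m x w ∧ adj m x' w ∧ lab w = b ∧ σ z w = s0 ∧ σ h w = s1)
      (fun w => adj m x w ∧ adj m x' w ∧ lab w = b ∧ σ l w = s ∧ σ z w = s0 ∧ σ h w = s1)
      (by simp) (fun w => by tauto))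
    rw [abs_le]
    constructor <;> linarith [h1.1, h1.2, h2.1, h2.2, h3.1, h3.2]
  · have h1 := abs_le.1 (hz.2 o a b hab true true true true s0 s0')
    have h2 := abs_le.1 (hh.2 o a b hab s0 true s0' true s1 s1')
    have h3 := abs_le.1 ((hl l hs).2 o a b hab s0 s1 s0' s1' s s')
    have e0 : nd (rty m lab (fun _ => true) (fun _ => true) o a b true true true true) =
        nd fun c v => od m o c v ∧ lab v = a ∧ lab (m c v) = b := cnt_FEq3 fun w => by simp [rty]
    have e1 : nd (rty m lab (σ z) (fun _ => true) o a b s0 true s0' true) =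
        nd fun c v => rty m lab (fun _ => true) (fun _ => true) o a b true true true true c v ∧
          σ z v = s0 ∧ σ z (m c v) = s0' := cnt_FEq3 fun w => by simp [rty]
    have e2 : nd (rty m lab (σ z) (σ h) o a b s0 s1 s0' s1') =
        nd fun c v => rty m lab (σ z) (fun _ => true) o a b s0 true s0' true c v ∧
          σ h v = s1 ∧ σ h (m c v) = s1' := cnt_FEq3 fun w => by
      simp only [rty]
      tauto
    have e3 : (nd fun c v => rty m lab (σ z) (σ h) o a b s0 s1 s0' s1' c v ∧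
          σ l v = s ∧ σ l (m c v) = s') =
        nd fun c v => (od m o c v ∧ lab v = a ∧ lab (m c v) = b) ∧
          (σ l v = s ∧ σ z v = s0 ∧ σ h v = s1) ∧
          (σ l (m c v) = s' ∧ σ z (m c v) = s0' ∧ σ h (m c v) = s1') := cnt_FEq3 fun w => by
      simp only [rty]
      tauto
    rw [e0] at h1
    rw [e1] at h2
    rw [e2, e3] at h3
    rw [abs_le]
    constructor <;> linarith [h1.1, h1.2, h2.1, h2.2, h3.1, h3.2]
  · by_cases h1 : l = z
    · exact h1 ▸ siz_FEq3 hz.1 a
    by_cases h2 : l = h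
    · exact h2 ▸ siz_FEq3 hh.1 a
    · exact siz_FEq3 (hl l (by simp [small, h1, h2])).1 a

end Pool.Agent.MP_d20a68_co.T

end

section

set_option autoImplicit false
open Finset
open scoped Classical

namespace Pool.Agent.MP_d20a68_co.T

open Pool.Agent.MP_d20a68_co.Poly

lemma dsel_FDsel {I α : Type} [Fintype I] (A : I → Finset α) (n : I → ℕ)
    (h : ∀ i, n i = 0 ∨ ∑ j, n j ≤ (A i).card) (s : Finset I) :
    ∃ B : I → Finset α, (∀ i ∈ s, B i ⊆ A i ∧ (B i).card = n i) ∧ (∀ i, i ∉ s → B i = ∅) ∧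
      ∀ i j, i ≠ j → Disjoint (B i) (B j) := by
  induction s using Finset.induction_on with
  | empty => exact ⟨fun _ => ∅, by simp, fun _ _ => rfl, fun _ _ _ => by simp⟩
  | insert i s hi ih =>
    obtain ⟨B, h1, h2, h3⟩ := ih
    have hT : ∃ T ⊆ A i \ s.biUnion B, T.card = n i := by
      apply Finset.exists_subset_card_eq
      rcases h i with h0 | h0
      · omega
      · have c1 : (s.biUnion B).card ≤ ∑ j ∈ s, n j :=
          card_biUnion_le.trans (le_of_eq (sum_congr rfl fun j hj => (h1 j hj).2))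
        have c2 : ∑ j ∈ insert i s, n j ≤ ∑ j, n j := sum_le_sum_of_subset (subset_univ _)
        rw [sum_insert hi] at c2
        have c3 := Finset.le_card_sdiff (s.biUnion B) (A i)
        omega
    obtain ⟨T, hT1, hT2⟩ := hT
    have hd : ∀ j, j ≠ i → Disjoint T (B j) := by
      intro j _
      by_cases hj : j ∈ s
      · refine Finset.disjoint_left.2 fun x hx hx' => ?_
        exact (mem_sdiff.1 (hT1 hx)).2 (mem_biUnion.2 ⟨j, hj, hx'⟩)
      · rw [h2 j hj]; simp
    refine ⟨Function.update B i T, fun j hj => ?_, fun j hj => ?_, fun j l hjl => ?_⟩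
    · by_cases e : j = i
      · subst e
        rw [Function.update_self]
        exact ⟨hT1.trans sdiff_subset, hT2⟩
      · rw [Function.update_of_ne e]
        exact h1 j ((mem_insert.1 hj).resolve_left e)
    · have e : j ≠ i := fun e => hj (e ▸ mem_insert_self _ _)
      rw [Function.update_of_ne e]
      exact h2 j fun hs => hj (mem_insert_of_mem hs)
    · by_cases e : j = i
      · subst e
        rw [Function.update_self, Function.update_of_ne hjl.symm]
        exact hd l hjl.symm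
      · rw [Function.update_of_ne e]
        by_cases e' : l = i
        · subst e'
          rw [Function.update_self]
          exact (hd j e).symm
        · rw [Function.update_of_ne e']
          exact h3 j l hjl

theorem dselP : DselP := by
  intro I α _ A n h
  obtain ⟨B, h1, -, h3⟩ := dsel_FDsel A n h univ
  exact ⟨B, fun i => h1 i (mem_univ i), h3⟩

lemma group_FDsel {Lv : Type} (z : Lv) {q : ℕ} (s : ℕ) (p : Fin q → ℕ) (n : Lv → ℕ)
    (hp : ∀ i, p i ≤ s) (L : Finset Lv) (hz : z ∉ L) (J : Finset (Fin q))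
    (hJ : ∑ l ∈ L, (n l + s) ≤ ∑ i ∈ J, p i) :
    ∃ grp : Fin q → Lv, (∀ i, grp i = z ∨ grp i ∈ L) ∧ (∀ i, i ∉ J → grp i = z) ∧
      ∀ l ∈ L, n l ≤ ∑ i ∈ univ.filter (fun i => grp i = l), p i ∧
        ∑ i ∈ univ.filter (fun i => grp i = l), p i ≤ n l + s := by
  induction L using Finset.induction_on generalizing J with
  | empty => exact ⟨fun _ => z, fun _ => Or.inl rfl, fun _ _ => rfl, by simp⟩
  | insert l L hl ih =>
    rw [sum_insert hl] at hJ
    obtain ⟨I, hI, hI1, hI2⟩ := exists_group p s hp J (n l) (by omega)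
    have hs : ∑ i ∈ J \ I, p i + ∑ i ∈ I, p i = ∑ i ∈ J, p i := sum_sdiff hI
    have hzl : z ≠ l := fun e => hz (e ▸ mem_insert_self _ _)
    have hzL : z ∉ L := fun h => hz (mem_insert_of_mem h)
    obtain ⟨grp, g1, g2, g3⟩ := ih hzL (J \ I) (by omega)
    refine ⟨fun i => if i ∈ I then l else grp i, fun i => ?_, fun i hi => ?_, fun l' hl' => ?_⟩
    · by_cases h : i ∈ I
      · simp [h]
      · rcases g1 i with e | e
        · simp [h, e]
        · simp [h, e]
    · have h : i ∉ I := fun h => hi (hI h)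
      simp only [if_neg h]
      exact g2 i fun h' => hi (mem_sdiff.1 h').1
    · rcases mem_insert.1 hl' with e | e
      · subst e
        have : univ.filter (fun i => (if i ∈ I then l' else grp i) = l') = I := by
          ext i
          by_cases h : i ∈ I
          · simp [h]
          · simp only [mem_filter, mem_univ, true_and, if_neg h, h, iff_false]
            intro e
            rcases g1 i with e' | e'
            · exact hzl (e'.symm.trans e)
            · exact hl (e ▸ e')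
        rw [this]
        exact ⟨hI1, hI2⟩
      · have : univ.filter (fun i => (if i ∈ I then l else grp i) = l') =
            univ.filter (fun i => grp i = l') := by
          ext i
          by_cases h : i ∈ I
          · simp only [mem_filter, mem_univ, true_and, if_pos h]
            have e1 : grp i = z := g2 i fun h' => (mem_sdiff.1 h').2 h
            constructor
            · intro e2
              exact absurd (e2 ▸ e) hl
            · intro e2
              exact absurd ((e1.symm.trans e2) ▸ e) hzL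
          · simp [h]
        rw [this]
        exact g3 l' e

theorem groupP : GroupP := by
  intro Lv _ z q s p n hp h
  obtain ⟨grp, -, -, g3⟩ := group_FDsel z s p n hp (univ.erase z) (notMem_erase _ _) univ h
  exact ⟨grp, fun l hl => g3 l (mem_erase.2 ⟨hl, mem_univ _⟩)⟩

end Pool.Agent.MP_d20a68_co.T

end

section

set_option autoImplicit false
open Finset
open scoped Classical

namespace Pool.Agent.MP_d20a68_co.T

open Pool.Agent.MP_d20a68_co.Poly

theorem adjP (hD : DselP) (hG : GroupP) : AdjP := by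
  intro k q s Lv _ z h cm lc p zh hc hp hk hz
  have sm : ∀ f : Fin k → Lv,
      (cnt fun c => f c = z) + ∑ l ∈ univ.erase z, (cnt fun c => f c = l) = k := fun f => by
    rw [add_sum_erase univ (fun l => cnt fun c => f c = l) (mem_univ z)]
    exact (card_eq_sum_card_fiberwise (s := univ) (t := univ) (f := f)
      fun _ _ => mem_univ _).symm.trans (card_fin k)
  have h1 : Fintype.card Lv * s ≤ cnt fun c => lc c = z :=
    (hz h zh.symm).trans (card_le_card fun c hc => by
      simp only [mem_filter, mem_univ, true_and] at hc ⊢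
      exact hc.1)
  have h2 : ∑ _l ∈ univ.erase z, s ≤ Fintype.card Lv * s := by
    rw [sum_const, smul_eq_mul]
    exact Nat.mul_le_mul_right _ (card_le_univ _)
  obtain ⟨grp, hg⟩ := hG Lv z q s p (fun l => cnt fun c => lc c = l) hp (by
    have := sm lc
    rw [sum_add_distrib, hk]
    omega)
  obtain ⟨g, eg⟩ : ∃ g : Lv → ℕ, ∀ l, ∑ i ∈ univ.filter (fun i => grp i = l), p i = g l :=
    ⟨_, fun _ => rfl⟩
  simp only [eg] at hg
  have h3 : ∀ l, (if l = z then 0 else g l - cnt fun c => lc c = l) ≤ s := fun l => by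
    split_ifs with e
    · exact Nat.zero_le _
    · have := (hg l e).2
      omega
  obtain ⟨B, hB, hd⟩ := hD Lv (Fin k) (fun l => univ.filter fun c => lc c = z ∧ cm c l)
    (fun l => if l = z then 0 else g l - cnt fun c => lc c = l) fun l => by
      by_cases e : l = z
      · exact Or.inl (if_pos e)
      · refine Or.inr ((sum_le_card_nsmul _ _ s fun l _ => h3 l).trans ?_)
        refine (hz l e).trans (card_le_card fun c a => ?_)
        simpa only [mem_filter] using a
  have hA : ∀ c l, c ∈ B l → lc c = z ∧ cm c l := fun c l e => (mem_filter.1 ((hB l).1 e)).2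
  have ex : ∀ c, ∃ l, c ∈ B l ∨ (∀ l, c ∉ B l) ∧ l = lc c := fun c => by
    by_cases e : ∃ l, c ∈ B l
    · exact e.imp fun _ => Or.inl
    · exact ⟨_, Or.inr ⟨not_exists.1 e, rfl⟩⟩
  choose lc' hl using ex
  have k1 : ∀ c l, c ∈ B l → lc' c = l := fun c l e => by
    rcases hl c with a | a
    · by_contra b
      exact disjoint_left.1 (hd _ _ b) a e
    · exact absurd e (a.1 l)
  have k2 : ∀ c, lc' c ≠ lc c → c ∈ B (lc' c) := fun c e => (hl c).resolve_right fun a => e a.2
  have k3 : ∀ l, l ≠ z → (cnt fun c => lc' c = l) = g l := fun l e => by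
    have a1 : univ.filter (fun c => lc' c = l) = univ.filter (fun c => lc c = l) ∪ B l := by
      ext c
      simp only [mem_union, mem_filter, mem_univ, true_and]
      constructor
      · rintro rfl
        by_cases a : lc' c = lc c
        · exact Or.inl a.symm
        · exact Or.inr (k2 c a)
      · rintro (rfl | a)
        · by_contra b
          exact e (hA _ _ (k2 c b)).1
        · exact k1 c l a
    have a2 : Disjoint (univ.filter (fun c => lc c = l)) (B l) :=
      disjoint_left.2 fun c a b => e ((mem_filter.1 a).2.symm.trans (hA c l b).1)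
    have a3 := (hB l).2
    have a4 := (hg l e).1
    rw [if_neg e] at a3
    rw [cnt, a1, card_union_of_disjoint a2, a3]
    exact Nat.add_sub_cancel' a4
  refine ⟨lc', fun c => ?_, ⟨grp, fun l => ?_⟩, fun c e => (hA _ _ (k2 c e)).1, fun l e => ?_⟩
  · rcases hl c with a | a
    · exact (hA _ _ a).2
    · exact a.2 ▸ hc c
  · rw [eg]
    by_cases e : l = z
    · have a1 := sm lc'
      have a2 := add_sum_erase univ g (mem_univ z)
      rw [sum_congr rfl fun l a => k3 l (ne_of_mem_erase a)] at a1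
      have a3 : ∑ l, g l = k := by
        simp only [← eg]
        exact (sum_fiberwise _ _ _).trans hk
      rw [e]
      exact Nat.add_right_cancel (a1.trans (a2.trans a3).symm)
    · exact k3 l e
  · refine le_trans (card_le_card fun c a => ?_) ((hB l).2.le.trans (h3 l))
    simp only [mem_filter] at a
    obtain ⟨-, rfl, b⟩ := a
    exact k2 c b.symm

end Pool.Agent.MP_d20a68_co.T

end

section

/-! Levels with their virtual colours: the assembly. -/

set_option autoImplicit false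
set_option linter.unusedSectionVars false
set_option linter.unusedVariables false
open Finset
open scoped Classical

namespace Pool.Agent.MP_d20a68_co.T

open Pool.Agent.MP_d20a68_co.Poly

theorem col_mono_FLev {V : Type} [Fintype V] {k : ℕ} {Lv : Type} [Fintype Lv]
    {E : Fin k → Finset V} {Lt : Finset V} {z h : Lv} {σ : Lv → V → Bool}
    {cm : Fin k → Lv → Prop} {lc : Fin k → Lv} {u : ℕ} {ν ν' κ a A ρ ρ' : ℝ}
    (H : Col E Lt z h σ cm lc u ν κ a A ρ) (hν : ν ≤ ν') (hρ : ρ ≤ ρ') :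
    Col E Lt z h σ cm lc u ν' κ a A ρ' :=
  ⟨H.cmp, H.lo, H.hi, H.hlo, H.hhi, H.zhi, H.stay,
    fun w x hx v hv => (H.w1 w x hx v hv).trans
      (mul_le_mul_of_nonneg_right hν (Nat.cast_nonneg _)),
    fun v hv l hl => (H.ld v hv l hl).trans
      (mul_le_mul_of_nonneg_right hρ (Nat.cast_nonneg _))⟩

theorem levP (hF : FamP) (hC : ColP) (hJ : AdjP) (hA : LevAP) : LevP := by
  intro C R M T κ hT hκ
  obtain ⟨τ, hτ, hF1⟩ := hF C R M T κ hT hκ
  refine ⟨τ, hτ, fun cP hcP => ?_⟩
  obtain ⟨η, hη, hF2⟩ := hF1 cP hcP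
  obtain ⟨x0, hx0⟩ : ∃ x0 : ℝ, x0 = (1 / 2) ^ (M + 2) := ⟨_, rfl⟩
  have x0p : 0 < x0 := by rw [hx0]; positivity
  have Tp : (0 : ℝ) < T := by exact_mod_cast hT
  obtain ⟨p1, hp1⟩ : ∃ p1 : ℝ, p1 = x0 / T := ⟨_, rfl⟩
  have p1p : 0 < p1 := by rw [hp1]; positivity
  obtain ⟨a, ha⟩ : ∃ a : ℝ, a = x0 * η / 8 := ⟨_, rfl⟩
  have ap : 0 < a := by rw [ha]; positivity
  refine ⟨a / 2, by positivity, fun ν hν => ?_⟩
  obtain ⟨θF, hθF, Lp, U1, hF3⟩ := hF2 (ν / 4) (by positivity)
  obtain ⟨θ, θp, θ1, θ2, θ3, θ4⟩ : ∃ θ : ℝ, 0 < θ ∧ θ ≤ θF ∧ θ ≤ ν / 4 ∧ θ ≤ ν * a * p1 / 4 ∧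
      θ ≤ ν * (a / 2) :=
    ⟨min θF (min (ν / 4) (min (ν * a * p1 / 4) (ν * (a / 2)))), by positivity, min_le_left _ _,
      (min_le_right _ _).trans (min_le_left _ _),
      (min_le_right _ _).trans ((min_le_right _ _).trans (min_le_left _ _)),
      (min_le_right _ _).trans ((min_le_right _ _).trans (min_le_right _ _))⟩
  obtain ⟨U2, hC1⟩ := hC C (ν / 4) η κ x0 p1 θ (by positivity) hη x0p p1p θp
  obtain ⟨U3, hA1⟩ := hA ν κ a (2 / p1) θ hν hκ ap (by positivity) θ4
  obtain ⟨U4, hU4⟩ := ev_pow 3 a 6 (by norm_num) ap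
  refine ⟨θ, θp, Lp, U1 + U2 + U3 + U4 + 1, ?_⟩
  intro u hu k hk V _ m lab fl poor r E e S g nt s fit P Lt hV hm hbig hE hEss hLt q p hp hsum
  have k0 : (0 : ℝ) ≤ k := Nat.cast_nonneg _
  obtain ⟨Lv, iLv, z, h, σ, ol, Q, hFam, hEq, hbal⟩ := hF3 u (by omega) k hk V m lab fl poor r E e
    S g nt s fit P Lt hV hm hbig hE hEss
    (fun v hv => ⟨(hLt v hv).1, (hLt v hv).2.trans (mul_le_mul_of_nonneg_right θ1 k0)⟩)
  rw [← hx0, ← hp1] at hFam
  obtain ⟨lc, hCol⟩ := hC1 u (by omega) k hk V Lv E Lt z h σ _ Q hV hFam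
    (fun v hv => (hLt v hv).2)
  rw [← ha] at hCol
  have hCol' := col_mono_FLev (ν' := 3 * ν / 4) (ρ' := ν * a / 2) hCol (by linarith)
    (by rw [div_le_iff₀ p1p]; linarith)
  obtain ⟨lc', hcm, hgrp, hmv, hfew⟩ := hJ k q (u ^ 5) Lv z h _ lc p hFam.zh hCol.cmp hp hsum
    (fun l hl => by
      have h1 := hCol.stay l hl
      have h2 := hU4 u (by omega) k hk
      have h3 : (u + 2) * u ^ 5 ≤ 3 * u ^ 6 := by
        have : u + 2 ≤ 3 * u := by omega
        calc (u + 2) * u ^ 5 ≤ 3 * u * u ^ 5 := Nat.mul_le_mul_right _ this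
          _ = 3 * u ^ 6 := by ring
      rw [card_small hFam.zh, hFam.card]
      refine h3.trans ?_
      exact_mod_cast h2.trans h1)
  obtain ⟨n1, n2, n3, n4, n5, n6, n7⟩ := hA1 u (by omega) k hk V Lv E Lt z h σ _ lc lc' hFam.zh
    hFam.card hCol' (fun v hv => (hLt v hv).2) hmv hfew
  refine ⟨Lv, iLv, z, h, σ, fun l => cnt fun c => lc' c = l, lc', fun l => nt (ol l), hgrp,
    hFam.zh, hFam.card, fun _ => rfl, n1, n2, n3, n4, n5, ?_, ?_, n6, n7,
    hEq.mono (by linarith), hbal⟩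
  · intro c v hv
    rw [(hcm c).2 v hv, (hcm c).2 _ (hEss.cl c v hv)]
    exact hEss.anti c _ (hcm c).1 v hv
  · intro c b
    rw [← hEss.net c _ (hcm c).1 b]
    exact sum_congr rfl fun v hv => by rw [(hcm c).2 v hv]

end Pool.Agent.MP_d20a68_co.T

end

section

/-! The loads of the placed darts. -/

set_option autoImplicit false
open Finset
open scoped Classical

namespace Pool.Agent.MP_d20a68_co.T

open Pool.Agent.MP_d20a68_co.Poly

theorem inj_FPreB {α β : Type} [Fintype α] [Fintype β] {P : α → Prop} {Q : β → Prop} (f : α → β)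
    (h : ∀ a, P a → Q (f a)) (i : ∀ a b, P a → P b → f a = f b → a = b) : cnt P ≤ cnt Q :=
  card_le_card_of_injOn f (fun a ha => by simpa using h a (by simpa using ha))
    fun a ha b hb => i a b (by simpa using ha) (by simpa using hb)

theorem or_FPreB {α : Type} [Fintype α] {P Q S : α → Prop} (h : ∀ a, P a → Q a ∨ S a) :
    cnt P ≤ cnt Q + cnt S := by
  refine le_trans (card_le_card fun a ha => ?_) (card_union_le _ _)
  simpa using h a (by simpa using ha)

theorem fib_FPreB {α β : Type} [Fintype α] [Fintype β] {P : α × β → Prop} {Q : α → Prop} {n : ℕ}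
    (h : ∀ a b, P (a, b) → Q a) (k : ∀ a, Q a → (cnt fun b => P (a, b)) ≤ n) :
    cnt P ≤ n * cnt Q := by
  refine card_le_mul_card_image_of_maps_to (f := Prod.fst) (fun x hx => ?_) n fun a ha => ?_
  · simpa using h x.1 x.2 (by simpa using hx)
  · refine le_trans (card_le_card_of_injOn Prod.snd (fun x hx => ?_) fun x hx y hy e => ?_)
      (k a (by simpa using ha))
    · simp only [coe_filter, mem_filter, mem_univ, true_and, Set.mem_ofPred_eq] at hx ⊢
      rw [← hx.2]
      exact hx.1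
    · simp only [coe_filter, mem_filter, mem_univ, true_and, Set.mem_ofPred_eq] at hx hy
      exact Prod.ext (hx.2.trans hy.2.symm) e

theorem preBP : PreBP := by
  intro k R M B V Lv _ _ m lab poor vc E e Lt σ lc hl F ps H D hM hB
  have sy : ∀ c v, SpW m lab poor Lt c (m c v) → SpW m lab poor Lt c v := fun c v h => by
    rw [SpW, F.inv] at h
    exact h.imp (ps _ _) And.symm
  constructor
  · intro v hv l
    refine (or_FPreB (Q := fun c => SpW m lab poor Lt c v ∧ lc (vc c v) = l)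
      (S := fun c => m c v ∉ Lt) fun c h => ?_).trans (add_le_add
        (inj_FPreB (vc · v) (fun c h => ⟨h.2, (H.mem _ v).2 ⟨c, h.1, rfl⟩⟩)
          fun c c' h h' => H.mat c c' v h.1 h'.1)
        ((inj_FPreB (m · v) (fun _ h => h) fun c c' _ _ => F.inj c c' v).trans hB))
    by_cases s : SpW m lab poor Lt c v
    · exact .inl ⟨s, by simpa [lW, s] using h.2⟩
    · rcases h.1 with p | p | p
      exacts [absurd (.inl p) s, absurd hv p, .inr p]
  · intro l
    have h1 : (cnt fun d : Fin k × V => SpW m lab poor Lt d.1 d.2 ∧ lc (vc d.1 d.2) = l) ≤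
        M * cnt fun c => lc c = l :=
      (inj_FPreB (Q := fun d : Fin k × V => lc d.1 = l ∧ d.2 ∈ E d.1) (fun d => (vc d.1 d.2, d.2))
        (fun d h => ⟨h.2, (H.mem _ _).2 ⟨_, h.1, rfl⟩⟩) fun d d' h h' q => by
          obtain ⟨c, v⟩ := d
          obtain ⟨c', v'⟩ := d'
          obtain ⟨q1, rfl⟩ := Prod.mk.inj q
          rw [H.mat c c' v h.1 h'.1 q1]).trans
        (fib_FPreB (fun _ _ h => h.1) fun c hc => le_trans (le_of_eq (by simp [cnt, hc])) (hM c))
    have h2 : (cnt fun d : V × Fin k => d.1 ∉ Lt ∧ ¬ SpW m lab poor Lt d.2 d.1 ∧ hl d.1 d.2 = l) ≤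
        B * cnt fun c => lc c = l := by
      refine (fib_FPreB (Q := fun v => v ∉ Lt) (n := cnt fun c => lc c = l) (fun _ _ h => h.1)
        fun v hv => ?_).trans (by rw [mul_comm]; exact Nat.mul_le_mul_right _ hB)
      exact (inj_FPreB id (fun _ h => h.2) fun _ _ _ _ h => h).trans (((D v hv).2 l).trans_le
        (inj_FPreB id (fun _ h => h.1) fun _ _ _ _ h => h))
    refine (or_FPreB (Q := fun d : Fin k × V => SpW m lab poor Lt d.1 d.2 ∧ lc (vc d.1 d.2) = l)
      (S := fun d => ¬ SpW m lab poor Lt d.1 d.2 ∧ FxW m lab poor Lt d.1 d.2 ∧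
        lW m lab poor Lt vc lc hl d.1 d.2 = l) fun d h => ?_).trans ((add_le_add h1
      ((or_FPreB (Q := fun d => d.2 ∉ Lt ∧ ¬ SpW m lab poor Lt d.1 d.2 ∧ hl d.2 d.1 = l)
        (S := fun d => m d.1 d.2 ∉ Lt ∧ ¬ SpW m lab poor Lt d.1 (m d.1 d.2) ∧
          hl (m d.1 d.2) d.1 = l) fun d h => ?_).trans (add_le_add
        ((inj_FPreB Prod.swap (fun _ h => h) fun _ _ _ _ h => Prod.swap_injective h).trans h2)
        ((inj_FPreB (fun d : Fin k × V => (m d.1 d.2, d.1)) (fun _ h => h)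
          fun d d' _ _ q => ?_).trans h2)))).trans_eq (by ring))
    · by_cases s : SpW m lab poor Lt d.1 d.2
      · exact .inl ⟨s, by simpa [lW, s] using h.2⟩
      · exact .inr ⟨s, h⟩
    · by_cases p : d.2 ∈ Lt
      · refine .inr ⟨?_, fun s => h.1 (sy _ _ s), by simpa [lW, h.1, p] using h.2.2⟩
        rcases h.2.1 with q | q | q
        exacts [absurd (.inl q) h.1, absurd p q, q]
      · exact .inl ⟨p, h.1, by simpa [lW, h.1, p] using h.2.2⟩
    · obtain ⟨c, v⟩ := d
      obtain ⟨c', v'⟩ := d'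
      obtain ⟨q1, rfl⟩ := Prod.mk.inj q
      rw [← F.inv c v, show m c v = m c v' from q1, F.inv]

end Pool.Agent.MP_d20a68_co.T

end

section

/-! The placed darts: nets. -/

set_option autoImplicit false
set_option linter.unusedSectionVars false
set_option linter.unusedVariables false
open Finset
open scoped Classical

namespace Pool.Agent.MP_d20a68_co.T

open Pool.Agent.MP_d20a68_co.Poly

theorem sp_sum_FPreC {V Lv : Type} [Fintype V] {k : ℕ} (m : Fin k → V → V)
    (Sp : Fin k → V → Prop) (vc : Fin k → V → Fin k) (E : Fin k → Finset V)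
    (e : Fin k → V → V) (lc : Fin k → Lv) (l : Lv) (f : V → ℤ) (H : Vir m Sp vc E e) :
    ∑ d ∈ univ.filter (fun d : Fin k × V => Sp d.1 d.2 ∧ lc (vc d.1 d.2) = l), f d.2 =
      ∑ c ∈ univ.filter (fun c => lc c = l), ∑ v ∈ E c, f v := by
  rw [sum_sigma' (univ.filter (fun c => lc c = l)) (fun c => E c) (fun _ v => f v)]
  refine sum_bij (fun d _ => (⟨vc d.1 d.2, d.2⟩ : Σ _ : Fin k, V)) ?_ ?_ ?_ ?_
  · rintro ⟨c, v⟩ hd
    simp only [mem_filter, mem_univ, true_and] at hd
    simp only [mem_sigma, mem_filter, mem_univ, true_and]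
    exact ⟨hd.2, (H.mem _ _).2 ⟨c, hd.1, rfl⟩⟩
  · rintro ⟨c, v⟩ hd ⟨c', v'⟩ hd' h
    simp only [mem_filter, mem_univ, true_and] at hd hd'
    simp only [Sigma.mk.injEq, heq_eq_eq] at h
    obtain ⟨h1, rfl⟩ := h
    rw [H.mat c c' v hd.1 hd'.1 h1]
  · rintro ⟨a, v⟩ hb
    simp only [mem_sigma, mem_filter, mem_univ, true_and] at hb
    obtain ⟨c, hc, hca⟩ := (H.mem _ _).1 hb.2
    refine ⟨(c, v), ?_, ?_⟩
    · simp only [mem_filter, mem_univ, true_and]
      exact ⟨hc, by rw [hca]; exact hb.1⟩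
    · simp only [hca]
  · intro d _
    rfl

theorem preCP (hA : PreAP) (hN : NuP) : PreCP := by
  intro k R V Lv _ _ m lab fl poor r vc E e Lt σ lc ntl hl hF hR hps hne hV hcut hnet hM l a
  obtain ⟨A1, A2, A3, -⟩ := hA k R V Lv m lab poor vc E e Lt σ lc hl hF hps hV hcut hM
  obtain ⟨-, N2, -⟩ := hN R fl r hR
  have hsym : ∀ c v, SpW m lab poor Lt c (m c v) → SpW m lab poor Lt c v := by
    intro c v h
    unfold SpW at h ⊢
    rw [hF.inv] at h
    rcases h with h | h
    · exact Or.inl (hps _ _ h)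
    · exact Or.inr h.symm
  rw [← sum_filter_add_sum_filter_not _ (fun d : Fin k × V => SpW m lab poor Lt d.1 d.2),
    filter_filter, filter_filter]
  have e1 : univ.filter (fun d : Fin k × V =>
      (FxW m lab poor Lt d.1 d.2 ∧ lW m lab poor Lt vc lc hl d.1 d.2 = l) ∧
        SpW m lab poor Lt d.1 d.2) =
      univ.filter (fun d : Fin k × V => SpW m lab poor Lt d.1 d.2 ∧ lc (vc d.1 d.2) = l) := by
    refine filter_congr fun d _ => ⟨fun h => ⟨h.2, ?_⟩, fun h => ⟨⟨?_, ?_⟩, h.1⟩⟩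
    · have := h.1.2
      unfold lW at this
      rwa [if_pos h.2] at this
    · rcases h.1 with h' | h'
      · exact Or.inl h'
      · exact Or.inr (Or.inl h'.1)
    · unfold lW
      rw [if_pos h.1]
      exact h.2
  have e2 : ∑ d ∈ univ.filter (fun d : Fin k × V =>
      (FxW m lab poor Lt d.1 d.2 ∧ lW m lab poor Lt vc lc hl d.1 d.2 = l) ∧
        ¬ SpW m lab poor Lt d.1 d.2), nu r fl a (lab d.2) (σ l d.2) = 0 := by
    refine sum_involution (fun d _ => (d.1, m d.1 d.2)) ?_ ?_ ?_ ?_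
    · rintro ⟨c, v⟩ hd
      simp only [mem_filter, mem_univ, true_and] at hd
      obtain ⟨⟨h1, h2⟩, h3⟩ := hd
      have h4 := A3 c v h1
      rw [h2] at h4
      have h5 : σ l (m c v) = !σ l v := by
        cases h6 : σ l v <;> cases h7 : σ l (m c v) <;> simp_all
      show nu r fl a (lab v) (σ l v) + nu r fl a (lab (m c v)) (σ l (m c v)) = 0
      rw [h5]
      exact N2 a _ _ _ (hne _ _ fun hp => h3 (Or.inl hp))
    · rintro ⟨c, v⟩ _ _ h
      exact hF.ne c v (congrArg Prod.snd h)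
    · rintro ⟨c, v⟩ hd
      simp only [mem_filter, mem_univ, true_and] at hd ⊢
      obtain ⟨⟨h1, h2⟩, h3⟩ := hd
      exact ⟨⟨A1 c v h1, by rw [A2 c v h1, h2]⟩, fun h => h3 (hsym c v h)⟩
    · rintro ⟨c, v⟩ _
      show (c, m c (m c v)) = (c, v)
      rw [hF.inv]
  rw [e1, e2, add_zero, sp_sum_FPreC m _ vc E e lc l (fun v => nu r fl a (lab v) (σ l v)) hV]
  rw [sum_congr rfl (g := fun _ => ntl l a)]
  · rw [sum_const, nsmul_eq_mul]
    unfold cnt
    congr!
  · intro c hc
    have hc' : lc c = l := (mem_filter.1 hc).2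
    have := hnet c a
    rw [hc'] at this
    exact this

end Pool.Agent.MP_d20a68_co.T

end

section

/-! The first half, unconditionally. -/

namespace Pool.Agent.MP_d20a68_co.T

theorem round2 : Round2P := round2P roundP

theorem first : FirstP :=
  firstP (virtP (swapP zsP orbP) vir0P vir1P) (essP spreadP patP (shareP eulerP nuP))
    (levP (famP cubeAP (cubeBP agreeP) (poolP agreeP) (smpP agreeP) (slotP (sampP roundP)) eq3P)
      (colP roundP colXP) (adjP dselP groupP) levAP)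
    (flipP (tgbP tgtP nuP) (fselP dselP) frobP flevP (fokP ftypP))
    (preP (medP hallP honeP medWP) preAP preBP (preCP preAP nuP)) lightP

end Pool.Agent.MP_d20a68_co.T

end

section

/-! Filling: a subgraph with prescribed degrees of a bipartite graph that expands in classes. -/

set_option autoImplicit false
set_option linter.unusedSectionVars false
set_option linter.unusedVariables false
open Finset
open scoped Classical

namespace Pool.Agent.MP_d20a68_co.T

open Pool.Agent.MP_d20a68_co.Poly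

variable {V : Type} [Fintype V] {k : ℕ} {m : Fin k → V → V}

lemma split_SFill (P Q : Fin k → V → Prop) :
    nd P = nd (fun c v => P c v ∧ Q c v) + nd (fun c v => P c v ∧ ¬ Q c v) :=
  cntS_split (fun e : Fin k × V => P e.1 e.2) fun e => Q e.1 e.2

lemma mate_SFill (hf : Fac m) {P Q : Fin k → V → Prop} (h : ∀ c v, P c v ↔ Q c (m c v)) :
    nd P = nd Q := by
  rw [← ndS_mate hf Q]; exact ndS_congr h

lemma sumd_SFill (X : Fin k → V → Prop) (S : Finset V) :
    ∑ v ∈ S, (cnt fun c => X c v) = nd fun c v => v ∈ S ∧ X c v := by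
  rw [ndS_sum_in X (fun v => v ∈ S)]
  refine sum_congr ?_ fun _ _ => rfl
  ext v; simp

lemma key_SFill (hf : Fac m) {X : Fin k → V → Prop} {τ : V → Bool} {f : V → ℕ} {H : ℝ}
    (hX : ∀ c v, X c v → X c (m c v) ∧ τ v ≠ τ (m c v)) (U : Finset V) (s : Bool)
    (hU : ∀ v ∈ U, |2 * (f v : ℝ) - (cnt fun c => X c v : ℝ)| ≤ H)
    (hc : H * U.card ≤ (nd fun c v => X c v ∧ τ v = true ∧ (v ∈ U ↔ m c v ∉ U) : ℝ)) :
    ∑ v ∈ U.filter (fun v => τ v = s), f v ≤ ∑ v ∈ U.filter (fun v => ¬ τ v = s), f v +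
      nd fun c v => X c v ∧ τ v = s ∧ v ∈ U ∧ m c v ∉ U := by
  have hx : ∀ c v, X c (m c v) ↔ X c v := fun c v =>
    ⟨fun h => by have := (hX c _ h).1; rwa [hf.inv] at this, fun h => (hX c v h).1⟩
  have ht : ∀ c v, X c v → (τ (m c v) = s ↔ ¬ τ v = s) := fun c v h => by
    have := (hX c v h).2
    revert this
    cases τ v <;> cases τ (m c v) <;> cases s <;> simp
  have h0 : (nd fun c v => X c v ∧ τ v = true ∧ (v ∈ U ↔ m c v ∉ U)) =
      nd fun c v => X c v ∧ τ v = s ∧ (v ∈ U ↔ m c v ∉ U) := by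
    cases s
    · refine mate_SFill hf fun c v => ?_
      rw [hx, hf.inv]
      refine and_congr_right fun h => ?_
      rw [ht c v h]
      refine and_congr (by simp) ?_
      tauto
    · rfl
  have h1 := split_SFill (fun c v => X c v ∧ τ v = s ∧ (v ∈ U ↔ m c v ∉ U)) fun c v => v ∈ U
  have h2 : (nd fun c v => (X c v ∧ τ v = s ∧ (v ∈ U ↔ m c v ∉ U)) ∧ v ∈ U) =
      nd fun c v => X c v ∧ τ v = s ∧ v ∈ U ∧ m c v ∉ U := ndS_congr fun c v => by tauto
  have h3 : (nd fun c v => (X c v ∧ τ v = s ∧ (v ∈ U ↔ m c v ∉ U)) ∧ ¬ v ∈ U) =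
      nd fun c v => (v ∈ U.filter (fun v => ¬ τ v = s) ∧ X c v) ∧ ¬ m c v ∈ U := by
    symm
    refine mate_SFill hf fun c v => ?_
    rw [hx, hf.inv, mem_filter]
    have := ht c v
    tauto
  have h4 := split_SFill (fun c v => v ∈ U.filter (fun v => τ v = s) ∧ X c v)
    fun c v => m c v ∈ U
  have h5 := split_SFill (fun c v => v ∈ U.filter (fun v => ¬ τ v = s) ∧ X c v)
    fun c v => m c v ∈ U
  have h6 : (nd fun c v => (v ∈ U.filter (fun v => τ v = s) ∧ X c v) ∧ ¬ m c v ∈ U) =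
      nd fun c v => X c v ∧ τ v = s ∧ v ∈ U ∧ m c v ∉ U := ndS_congr fun c v => by
    rw [mem_filter]; tauto
  have h7 : (nd fun c v => (v ∈ U.filter (fun v => ¬ τ v = s) ∧ X c v) ∧ m c v ∈ U) =
      nd fun c v => (v ∈ U.filter (fun v => τ v = s) ∧ X c v) ∧ m c v ∈ U := by
    refine mate_SFill hf fun c v => ?_
    rw [hx, hf.inv, mem_filter, mem_filter]
    have := ht c v
    tauto
  rw [← sumd_SFill] at h4 h5
  have a1 : ∑ v ∈ U.filter (fun v => τ v = s), (2 * (f v : ℝ) - (cnt fun c => X c v : ℝ)) ≤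
      ∑ v ∈ U.filter (fun v => τ v = s), H :=
    sum_le_sum fun v hv => (abs_le.1 (hU v (mem_filter.1 hv).1)).2
  have a2 : ∑ v ∈ U.filter (fun v => ¬ τ v = s), (-H) ≤
      ∑ v ∈ U.filter (fun v => ¬ τ v = s), (2 * (f v : ℝ) - (cnt fun c => X c v : ℝ)) :=
    sum_le_sum fun v hv => (abs_le.1 (hU v (mem_filter.1 hv).1)).1
  rw [sum_sub_distrib, ← mul_sum, sum_const, nsmul_eq_mul] at a1 a2
  have a3 := card_filter_add_card_filter_not (s := U) fun v => τ v = s
  rw [h0, h1, h2, h3, ← a3] at hc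
  rw [h6] at h4
  rw [h7] at h5
  have b4 := congrArg (Nat.cast : ℕ → ℝ) h4
  have b5 := congrArg (Nat.cast : ℕ → ℝ) h5
  push_cast at b4 b5 hc
  have : ((∑ v ∈ U.filter (fun v => τ v = s), f v : ℕ) : ℝ) ≤
      ((∑ v ∈ U.filter (fun v => ¬ τ v = s), f v +
        nd (fun c v => X c v ∧ τ v = s ∧ v ∈ U ∧ m c v ∉ U) : ℕ) : ℝ) := by
    push_cast
    linarith
  exact_mod_cast this

lemma cls_SFill (hf : Fac m) {X : Fin k → V → Prop} {τ : V → Bool} {f : V → ℕ} {H : ℝ}
    (hX : ∀ c v, X c v → X c (m c v) ∧ τ v ≠ τ (m c v)) (W : Finset V)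
    (hW : ∀ c v, X c v → v ∈ W → m c v ∈ W)
    (hb : ∑ v ∈ W.filter (fun v => τ v = true), f v = ∑ v ∈ W.filter (fun v => τ v = false), f v)
    (hU : ∀ v ∈ W, |2 * (f v : ℝ) - (cnt fun c => X c v : ℝ)| ≤ H)
    (hc : ∀ U ⊆ W, 2 * U.card ≤ W.card →
      H * U.card ≤ (nd fun c v => X c v ∧ τ v = true ∧ (v ∈ U ↔ m c v ∉ U) : ℝ))
    (U : Finset V) (hUW : U ⊆ W) (s : Bool) :
    ∑ v ∈ U.filter (fun v => τ v = s), f v ≤ ∑ v ∈ U.filter (fun v => ¬ τ v = s), f v +
      nd fun c v => X c v ∧ τ v = s ∧ v ∈ U ∧ m c v ∉ U := by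
  by_cases h : 2 * U.card ≤ W.card
  · exact key_SFill hf hX U s (fun v hv => hU v (hUW hv)) (hc U hUW h)
  have hcard := card_sdiff_add_card_eq_card hUW
  have a := key_SFill hf hX (W \ U) (!s) (fun v hv => hU v (mem_sdiff.1 hv).1)
    (hc _ sdiff_subset (by omega))
  have hx : ∀ c v, X c (m c v) ↔ X c v := fun c v =>
    ⟨fun h => by have := (hX c _ h).1; rwa [hf.inv] at this, fun h => (hX c v h).1⟩
  have e1 : (nd fun c v => X c v ∧ τ v = s ∧ v ∈ U ∧ m c v ∉ U) =
      nd fun c v => X c v ∧ τ v = (!s) ∧ v ∈ W \ U ∧ m c v ∉ W \ U := by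
    refine mate_SFill hf fun c v => ?_
    rw [hx, hf.inv, mem_sdiff, mem_sdiff]
    refine and_congr_right fun hcv => ?_
    have t1 : τ (m c v) = (!s) ↔ τ v = s := by
      have := (hX c v hcv).2
      revert this
      cases τ v <;> cases τ (m c v) <;> cases s <;> simp
    have t2 := hW c v hcv
    have t3 := hW c _ ((hx c v).2 hcv)
    rw [hf.inv] at t3
    have t4 : v ∈ U → v ∈ W := fun hv => hUW hv
    rw [t1]
    tauto
  have e2 : (W \ U).filter (fun v => τ v = (!s)) = (W \ U).filter fun v => ¬ τ v = s :=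
    filter_congr fun v _ => by cases τ v <;> cases s <;> simp
  have e3 : (W \ U).filter (fun v => ¬ τ v = (!s)) = (W \ U).filter fun v => τ v = s :=
    filter_congr fun v _ => by cases τ v <;> cases s <;> simp
  have e4 : ∀ (p : V → Prop) [DecidablePred p], ∑ v ∈ W.filter p, f v =
      ∑ v ∈ (W \ U).filter p, f v + ∑ v ∈ U.filter p, f v := fun p _ => by
    rw [sum_filter, sum_filter, sum_filter, sum_sdiff hUW]
  have e5 : ∑ v ∈ W.filter (fun v => τ v = s), f v = ∑ v ∈ W.filter (fun v => ¬ τ v = s), f v := by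
    cases s
    · rw [← hb]; exact sum_congr (filter_congr fun v _ => by simp) fun _ _ => rfl
    · rw [hb]; exact sum_congr (filter_congr fun v _ => by simp) fun _ _ => rfl
  rw [e4, e4] at e5
  rw [e2, e3, ← e1] at a
  omega

theorem fillS : FillP := by
  intro V K _ k m X τ cls Lt f H hf hH hX h0 hb hU hc
  have hX' : ∀ c v, X c v → X c (m c v) ∧ τ v ≠ τ (m c v) := fun c v h =>
    ⟨(hX c v h).1, (hX c v h).2.1⟩
  let B : SimpleGraph V :=
    { Adj := fun u v => ∃ c, X c u ∧ m c u = v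
      symm := ⟨fun u v ⟨c, h, e⟩ => ⟨c, e ▸ (hX c u h).1, by rw [← e, hf.inv]⟩⟩
      loopless := ⟨fun u ⟨c, _, e⟩ => hf.ne c u e⟩ }
  have hB : ∀ c v, B.Adj v (m c v) ↔ X c v := fun c v =>
    ⟨fun ⟨c', h, e⟩ => hf.inj c' c v e ▸ h, fun h => ⟨c, h, rfl⟩⟩
  have hcnt : ∀ (v : V) (Q : V → Prop), (∀ w, Q w → B.Adj v w) →
      cnt Q = cnt fun c => Q (m c v) := fun v Q hQ => by
    rw [← cntS_adj hf v Q]
    exact cntS_congr fun w => ⟨fun h => ⟨(hQ w h).imp fun c h => h.2, h⟩, fun h => h.2⟩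
  obtain ⟨F, hFB, hF⟩ := factorX1 B τ f (fun u v ⟨c, h, e⟩ => e ▸ (hX c u h).2.1)
    fun s X0 Y0 hX0 hY0 => by
      have hz : ∀ (S : Finset V), ∑ v ∈ S, f v = ∑ v ∈ S.filter (· ∈ Lt), f v := fun S =>
        (sum_filter_of_ne fun v _ hv => by by_contra h; exact hv (h0 v h)).symm
      have hcl : ∀ κ ∈ univ.image cls,
          ∑ v ∈ (X0.filter (· ∈ Lt)).filter (fun v => cls v = κ), f v ≤
          ∑ v ∈ (Y0.filter (· ∈ Lt)).filter (fun v => cls v = κ), f v +
          ∑ v ∈ X0.filter (fun v => cls v = κ),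
            (univ.filter fun y => B.Adj v y ∧ y ∉ Y0).card := fun κ _ => by
        have a := cls_SFill hf hX' (univ.filter fun v => v ∈ Lt ∧ cls v = κ)
          (fun c v h hv => mem_filter.2 ⟨mem_univ _, (hX c _ (hX c v h).1).2.2.2,
            (hX c v h).2.2.1.trans (mem_filter.1 hv).2.2⟩)
          (by
            have b := (hz _).symm.trans ((hb κ).trans (hz _))
            simp only [filter_filter] at b ⊢
            refine Eq.trans ?_ (b.trans ?_) <;>
              exact sum_congr (filter_congr fun v _ => by tauto) fun _ _ => rfl)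
          (fun v hv => hU v (mem_filter.1 hv).2.1)
          (fun U hUW h => hc κ U (fun v hv => (mem_filter.1 (hUW hv)).2)
            (by rw [cntS_eq]; exact h))
          ((X0 ∪ Y0).filter fun v => v ∈ Lt ∧ cls v = κ)
          (fun v hv => mem_filter.2 ⟨mem_univ _, (mem_filter.1 hv).2⟩) s
        have e1 : ((X0 ∪ Y0).filter fun v => v ∈ Lt ∧ cls v = κ).filter (fun v => τ v = s) =
            (X0.filter (· ∈ Lt)).filter fun v => cls v = κ := by
          ext v
          simp only [mem_filter, mem_union]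
          have := hX0 v
          have := hY0 v
          tauto
        have e2 : ((X0 ∪ Y0).filter fun v => v ∈ Lt ∧ cls v = κ).filter (fun v => ¬ τ v = s) =
            (Y0.filter (· ∈ Lt)).filter fun v => cls v = κ := by
          ext v
          simp only [mem_filter, mem_union]
          have := hX0 v
          have := hY0 v
          tauto
        rw [e1, e2] at a
        refine a.trans (Nat.add_le_add_left ?_ _)
        have e3 : ∀ v, (univ.filter fun y => B.Adj v y ∧ y ∉ Y0).card =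
            cnt fun c => X c v ∧ m c v ∉ Y0 := fun v => by
          rw [← cntS_eq, hcnt v _ fun w h => h.1]
          exact cntS_congr fun c => by rw [hB]
        simp only [e3]
        rw [sumd_SFill fun c v => X c v ∧ m c v ∉ Y0]
        refine ndS_mono fun c v ⟨h1, h2, h3, h4⟩ => ?_
        simp only [mem_filter, mem_union] at h3 h4 ⊢
        have t1 := hY0 v
        have t2 := (hX c _ (hX c v h1).1).2.2.2
        have t3 := (hX c v h1).2.2.1.trans h3.2.2
        tauto
      have hs := sum_le_sum hcl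
      rw [sum_add_distrib, sum_fiberwise_of_maps_to fun v _ => mem_image_of_mem cls (mem_univ v),
        sum_fiberwise_of_maps_to fun v _ => mem_image_of_mem cls (mem_univ v),
        sum_fiberwise_of_maps_to fun v _ => mem_image_of_mem cls (mem_univ v), ← hz, ← hz] at hs
      refine hs.trans (Nat.add_le_add_left (sum_le_sum fun v _ => card_le_card fun y hy => ?_) _)
      simpa only [mem_filter] using hy
  refine ⟨fun c v => F.Adj v (m c v), fun c v h => ⟨(hB c v).1 (hFB h), ?_⟩, fun v => ?_⟩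
  · show F.Adj (m c v) (m c (m c v))
    rw [hf.inv]; exact h.symm
  · rw [← hF v, ← hcnt v (F.Adj v) fun w h => hFB h]
    exact cntS_eq _

end Pool.Agent.MP_d20a68_co.T

end

section

/-! Sums of the nets over all levels. -/

set_option autoImplicit false
set_option linter.unusedSectionVars false
set_option linter.unusedVariables false
open Finset
open scoped Classical

namespace Pool.Agent.MP_d20a68_co.T

open Pool.Agent.MP_d20a68_co.Poly

section

variable {V Lv : Type} [Fintype V] [Fintype Lv] {k R : ℕ} {D : Dat V Lv k R} {C : ℕ}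
  {φ η ν : ℝ} {u B S Lp : ℕ}

lemma nm_symm_SG3 (H : D.Hyp C φ η ν u B S Lp) (a b : Fin R) : D.NM a b = D.NM b a := by
  unfold Dat.NM
  rw [← ndS_mate H.fac]
  refine ndS_congr fun c v => ?_
  unfold Dat.Ty
  rw [H.fx_mate, H.fac.inv]
  tauto

lemma rich_symm_SG3 (H : D.Hyp C φ η ν u B S Lp) {a b : Fin R} (h : D.Rich a b) :
    D.Rich b a :=
  ⟨fun hp => h.1 (H.typ.psym _ _ hp), fun e => h.2 (by rw [e, H.typ.inv])⟩

lemma nm_even_SG3 (H : D.Hyp C φ η ν u B S Lp) (a : Fin R) : Even (D.NM a a) := by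
  unfold Dat.NM nd
  refine cntS_even (fun e : Fin k × V => (e.1, D.m e.1 e.2)) (fun e => by simp only [H.fac.inv])
    (fun e he => H.fac.ne e.1 e.2 (congrArg Prod.snd he)) fun e he => ?_
  obtain ⟨h1, h2, h3⟩ := he
  refine ⟨fun h => h1 ((H.fx_mate _ _).1 h), h3, ?_⟩
  show D.lab (D.m e.1 (D.m e.1 e.2)) = a
  rw [H.fac.inv]; exact h2

/-- The missing degree after the fixed darts. -/
noncomputable def g_SG3 (D : Dat V Lv k R) (l : Lv) (v : V) : ℤ :=
  (D.y l : ℤ) - ((cnt fun c => D.Fx c v ∧ D.l0 c v = l : ℕ) : ℤ)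

lemma sum_g_SG3 (H : D.Hyp C φ η ν u B S Lp) (v : V) :
    ∑ l, g_SG3 D l v = ((cnt fun c => ¬ D.Fx c v : ℕ) : ℤ) := by
  unfold g_SG3
  rw [sum_sub_distrib, ← Nat.cast_sum, ← Nat.cast_sum, H.pre.sumy,
    ← cntS_fiber (fun c => D.Fx c v) (fun c => D.l0 c v)]
  have h1 := cntS_split (fun _ : Fin k => True) (fun c => D.Fx c v)
  rw [cntS_true, Fintype.card_fin] at h1
  simp only [true_and] at h1
  omega

lemma tot_SG3 (H : D.Hyp C φ η ν u B S Lp) (a : Fin R) :
    ∑ l, ∑ v ∈ univ.filter (fun v => D.lab v = a), g_SG3 D l v =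
      (D.NM a (D.fl a) : ℤ) + ∑ b, (D.NR a b : ℤ) := by
  rw [sum_comm]
  simp only [sum_g_SG3 H]
  rw [← Nat.cast_sum, ← ndS_sum_in (fun c v => ¬ D.Fx c v) (fun v => D.lab v = a),
    ← Nat.cast_sum, ← Nat.cast_add]
  congr 1
  have h1 : nd (fun c v => D.lab v = a ∧ ¬ D.Fx c v) = ∑ b, D.NM a b := by
    unfold Dat.NM nd
    rw [cntS_fiber _ (fun e : Fin k × V => D.lab (D.m e.1 e.2))]
    refine sum_congr rfl fun b _ => cntS_congr fun e => ?_
    unfold Dat.Ty
    tauto
  rw [h1, ← add_sum_erase univ _ (mem_univ (D.fl a)),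
    ← add_sum_erase univ (fun b => D.NR a b) (mem_univ (D.fl a))]
  have h2 : D.NR a (D.fl a) = 0 := if_neg fun h => h.2 rfl
  rw [h2, zero_add]
  congr 1
  refine sum_congr rfl fun b hb => ?_
  unfold Dat.NR
  split_ifs with h
  · rfl
  · have hp : D.poor a b := by
      by_contra hp
      exact h ⟨hp, (mem_erase.1 hb).1⟩
    unfold Dat.NM nd
    refine cntS_zero fun e he => ?_
    obtain ⟨h1, h2, h3⟩ := he
    have := H.pre.free e.1 e.2 h1
    rw [h2, h3] at this
    exact this hp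

lemma split_SG3 (lab : V → Fin R) (τ : V → Bool) (f : V → ℤ) (a : Fin R) :
    ∑ v ∈ univ.filter (fun v => lab v = a), f v =
      ∑ v ∈ univ.filter (fun v => lab v = a ∧ τ v = true), f v +
        ∑ v ∈ univ.filter (fun v => lab v = a ∧ τ v = false), f v := by
  simp only [sum_filter]
  rw [← sum_add_distrib]
  refine sum_congr rfl fun v _ => ?_
  by_cases h : lab v = a <;> cases τ v <;> simp [h]

end

theorem g3S : G3P := by
  intro V Lv _ _ k R D C φ η ν u B S Lp H
  refine ⟨fun a b => ?_, fun a => ?_, fun a => ?_, fun a ha => ?_⟩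
  · unfold Dat.NR
    by_cases h : D.Rich a b
    · rw [if_pos h, if_pos (rich_symm_SG3 H h), nm_symm_SG3 H]
    · rw [if_neg h, if_neg fun h' => h (rich_symm_SG3 H h')]
  · unfold Dat.NR
    split_ifs
    · exact nm_even_SG3 H a
    · exact Even.zero
  · have h1 : ∀ l, D.gI l a - D.gI l (D.fl a) =
        ∑ v ∈ univ.filter (fun v => D.lab v = a), g_SG3 D l v -
          ∑ v ∈ univ.filter (fun v => D.lab v = D.fl a), g_SG3 D l v := by
      intro l
      rw [split_SG3 D.lab (D.σ l) _ a, split_SG3 D.lab (D.σ l) _ (D.fl a)]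
      unfold Dat.gI sgs g_SG3
      rw [H.typ.inv]
      ring
    simp only [h1]
    rw [sum_sub_distrib, tot_SG3 H, tot_SG3 H, H.typ.inv, nm_symm_SG3 H (D.fl a) a]
    ring
  · have h1 : ∀ l, D.gI l a = ∑ v ∈ univ.filter (fun v => D.lab v = a), g_SG3 D l v -
        2 * ∑ v ∈ univ.filter (fun v => D.lab v = a ∧ D.σ l v = false), g_SG3 D l v := by
      intro l
      rw [split_SG3 D.lab (D.σ l) _ a]
      unfold Dat.gI sgs g_SG3
      rw [ha]
      ring
    simp only [h1]
    rw [sum_sub_distrib, tot_SG3 H, ha, ← mul_sum]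
    obtain ⟨t, ht⟩ := nm_even_SG3 H a
    rw [ht]
    refine ⟨(t : ℤ) + ∑ b, (D.NR a b : ℤ) -
      ∑ l, ∑ v ∈ univ.filter (fun v => D.lab v = a ∧ D.σ l v = false), g_SG3 D l v, ?_⟩
    push_cast
    ring

end Pool.Agent.MP_d20a68_co.T

end

section

/-! The splitting theorem, unconditionally. -/

namespace Pool.Agent.MP_d20a68_co.T

theorem stageAll : StageP := stageS (planS splitS) greedyS applyS

theorem second : SecondP :=
  secondOf degS probS (accS round2) (eqMS degS) rd1aS rd1bS rd1dS rd2S rd3S rd4S rd05S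
    (stage1S (targetS treeS) stageAll g1S (g2S degS) g3S dfcS) (resS degS)
    (stage2S stageAll degS id2S bd2S dfc2S) (expGS (inhS walkS) degS) (finalS fillS degS)

theorem mainAll : MainP := mainOf (blkOf blkMinS blkBigS blkLabS) first second

end Pool.Agent.MP_d20a68_co.T

end
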