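import Pool.Agent.Mg.Xd20a68.Ga7920e

section

/-! The first half of the dense tight case: definitions and statements. -/

set_option autoImplicit false
set_option linter.unusedSectionVars false
set_option linter.unusedVariables false
open Finset
open scoped Classical

namespace Pool.Agent.MP_d20a68_co.T

open Pool.Agent.MP_d20a68_co.Poly

variable {V : Type} [Fintype V] {k R : ℕ}

/-- `nu a x b - nu (fl a) x b`, which does not depend on `b`. -/
noncomputable def dl (r : Fin R → Fin R → Prop) (fl : Fin R → Fin R) (a x : Fin R) : ℤ :=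
  (if r a x then 1 else 0) - (if r a (fl x) then 1 else 0)

/-- `x` lies in the class of `a` or in the flipped class. -/
def orb (r : Fin R → Fin R → Prop) (fl : Fin R → Fin R) (a x : Fin R) : Prop :=
  r a x ∨ r a (fl x)

/-- An equivalence that is compatible with the involution. -/
structure Rl (fl : Fin R → Fin R) (r : Fin R → Fin R → Prop) : Prop where
  inv : ∀ a, fl (fl a) = a
  eqv : Equivalence r
  rfl' : ∀ a b, r a b → r (fl a) (fl b)

/-- `E` is the set of ends of a matching `e` with the invariants of a colour class. -/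
structure Mat (lab : V → Fin R) (fl : Fin R → Fin R) (r : Fin R → Fin R → Prop) (E : Finset V)
    (e : V → V) : Prop where
  cl : ∀ v ∈ E, e v ∈ E
  ne : ∀ v ∈ E, e v ≠ v
  inv : ∀ v ∈ E, e (e v) = v
  dif : ∀ a, ∑ v ∈ E, dl r fl a (lab v) = ∑ v, dl r fl a (lab v)
  par : ∀ a, Even (cnt fun v => v ∉ E ∧ orb r fl a (lab v))

/-- Virtual colours of the special darts. -/
structure Vir (m : Fin k → V → V) (Sp : Fin k → V → Prop) (vc : Fin k → V → Fin k)
    (E : Fin k → Finset V) (e : Fin k → V → V) : Prop where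
  sym : ∀ c v, Sp c v → vc c (m c v) = vc c v
  mat : ∀ c c' v, Sp c v → Sp c' v → vc c v = vc c' v → c = c'
  mem : ∀ a v, v ∈ E a ↔ ∃ c, Sp c v ∧ vc c v = a
  mate : ∀ c v, Sp c v → e (vc c v) v = m c v

/-- Orientations of the virtual colours that fit the patterns of one spread group `P`. -/
structure Ess (lab : V → Fin R) (fl : Fin R → Fin R) (r : Fin R → Fin R → Prop)
    (E : Fin k → Finset V) (e : Fin k → V → V) (M : ℕ) {T : ℕ} (τ cP : ℝ) (S : Finset V)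
    (g : Fin T → V → Bool) (nt : Fin T → Fin R → ℤ) (s : Fin k → Fin T → V → Bool)
    (fit : Fin k → Fin T → Prop) (P : Finset (Fin k)) : Prop where
  scard : S.card ≤ M
  cl : ∀ c, ∀ v ∈ E c, e c v ∈ E c
  ex : ∀ c, ∃ o, fit c o
  pfit : ∀ c ∈ P, ∀ o, fit c o
  psub : ∀ c ∈ P, S ⊆ E c
  anti : ∀ c o, fit c o → ∀ v ∈ E c, s c o (e c v) = !s c o v
  ker : ∀ c o, fit c o → ∀ v ∈ E c, v ∈ S → s c o v = g o v
  net : ∀ c o, fit c o → ∀ a, ∑ v ∈ E c, nu r fl a (lab v) (s c o v) = nt o a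
  pbig : cP * k ≤ P.card
  spread : ∀ w, w ∉ S → (cnt fun c => c ∈ P ∧ w ∈ E c : ℝ) ≤ τ * P.card

/-- The labelling `ε` with the values on `S` replaced by `g`. -/
noncomputable def ovr (S : Finset V) (g ε : V → Bool) : V → Bool :=
  fun v => if v ∈ S then g v else ε v

/-- The labelling `σ` flipped on `F`. -/
noncomputable def flp (F : Finset V) (σ : V → Bool) : V → Bool :=
  fun v => if v ∈ F then !σ v else σ v

/-- Colour `c` is compatible with the pattern `o` and the labelling `σ`. -/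
def cmp {T : ℕ} (fit : Fin k → Fin T → Prop) (s : Fin k → Fin T → V → Bool)
    (E : Fin k → Finset V) (c : Fin k) (o : Fin T) (σ : V → Bool) : Prop :=
  fit c o ∧ ∀ v ∈ E c, σ v = s c o v

/-- `σ` halves common neighbourhoods and classes. -/
structure Ga (m : Fin k → V → V) (lab : V → Fin R) (σ0 σ1 σ : V → Bool) (t : ℝ) : Prop where
  cod : ∀ (x x' : V) (b : Fin R) (s0 s1 : Bool), |∑ w ∈ univ.filter (fun w =>
    adj m x w ∧ adj m x' w ∧ lab w = b ∧ σ0 w = s0 ∧ σ1 w = s1), sg (σ w)| ≤ t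
  siz : ∀ (b : Fin R) (s0 s1 : Bool),
    |∑ w ∈ univ.filter (fun w => lab w = b ∧ σ0 w = s0 ∧ σ1 w = s1), sg (σ w)| ≤ t

/-- The darts of a refined type. -/
def rty (m : Fin k → V → V) (lab : V → Fin R) (σ0 σ1 : V → Bool) (o : Bool) (a b : Fin R)
    (s0 s1 s0' s1' : Bool) (c : Fin k) (v : V) : Prop :=
  (od m o c v ∧ lab v = a ∧ lab (m c v) = b) ∧ (σ0 v = s0 ∧ σ1 v = s1) ∧
    (σ0 (m c v) = s0' ∧ σ1 (m c v) = s1')

/-- `σ` quarters the refined types. -/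
def Gb (m : Fin k → V → V) (lab : V → Fin R) (poor : Fin R → Fin R → Prop) (σ0 σ1 σ : V → Bool)
    (ν : ℝ) : Prop :=
  ∀ (o : Bool) (a b : Fin R), ¬ poor a b → ∀ s0 s1 s0' s1' s s' : Bool,
    |4 * (nd fun c v => rty m lab σ0 σ1 o a b s0 s1 s0' s1' c v ∧ σ v = s ∧ σ (m c v) = s' : ℝ) -
      (nd (rty m lab σ0 σ1 o a b s0 s1 s0' s1') : ℝ)| ≤ ν * NN m lab a b

/-- A family of labellings, and which colours are compatible with them. -/
structure Fam {Lv : Type} [Fintype Lv] (E : Fin k → Finset V) (Lt : Finset V) (z h : Lv)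
    (σ : Lv → V → Bool) (cm : Fin k → Lv → Prop) (Q : Finset (Fin k)) (u : ℕ)
    (ν η κ x0 p1 : ℝ) : Prop where
  zh : z ≠ h
  card : (small z h).card = u
  qz : ∀ c ∈ Q, cm c z
  qlo : η * k ≤ Q.card
  qhi : 2 * (Q.card : ℝ) ≤ κ * k
  xq : ∀ l, l ≠ z → x0 * Q.card ≤ (cnt fun c => c ∈ Q ∧ cm c l : ℝ)
  nc : ∀ c, p1 * u ≤ (cnt fun l => l ∈ small z h ∧ cm c l : ℝ)
  f2 : ∀ c, ∀ x ∈ Lt, x ∉ E c → ∀ v, v ≠ x →
    |∑ l ∈ (small z h).filter (fun l => cm c l), sg (σ l x) * sg (σ l v)| ≤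
      ν * (cnt fun l => l ∈ small z h ∧ cm c l : ℝ)

/-- The correlation of two vertices over the colours on small levels that miss `w`. -/
noncomputable def cor {Lv : Type} [Fintype Lv] (E : Fin k → Finset V) (z h : Lv)
    (σ : Lv → V → Bool) (lc : Fin k → Lv) (w : Option V) (x v : V) : ℝ :=
  ∑ c ∈ univ.filter (fun c => lc c ∈ small z h ∧ ∀ w', w = some w' → w' ∉ E c),
    sg (σ (lc c) x) * sg (σ (lc c) v)

/-- The colours are put on levels. -/
structure Col {Lv : Type} [Fintype Lv] (E : Fin k → Finset V) (Lt : Finset V) (z h : Lv)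
    (σ : Lv → V → Bool) (cm : Fin k → Lv → Prop) (lc : Fin k → Lv) (u : ℕ)
    (ν κ a A ρ : ℝ) : Prop where
  cmp : ∀ c, cm c (lc c)
  lo : ∀ l ∈ small z h, a * k ≤ u * (cnt fun c => lc c = l : ℝ)
  hi : ∀ l ∈ small z h, u * (cnt fun c => lc c = l : ℝ) ≤ A * k
  hlo : a * k ≤ (cnt fun c => lc c = h : ℝ)
  hhi : 2 * (cnt fun c => lc c = h : ℝ) ≤ κ * k
  zhi : 2 * (cnt fun c => lc c = z : ℝ) ≤ κ * k
  stay : ∀ l, l ≠ z → a * k ≤ (cnt fun c => lc c = z ∧ cm c l : ℝ)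
  w1 : ∀ w, ∀ x ∈ Lt, ∀ v, v ≠ x → |cor E z h σ lc w x v| ≤ ν * k
  ld : ∀ v ∈ Lt, ∀ l ∈ small z h, u * (cnt fun c => lc c = l ∧ v ∈ E c : ℝ) ≤ ρ * k

/-- Levels with their virtual colours. -/
structure Lev {Lv : Type} [Fintype Lv] (m : Fin k → V → V) (lab : V → Fin R) (fl : Fin R → Fin R)
    (poor r : Fin R → Fin R → Prop) (E : Fin k → Finset V) (e : Fin k → V → V) (Lt : Finset V)
    (z h : Lv) (σ : Lv → V → Bool) (y : Lv → ℕ) (lc : Fin k → Lv) (ntl : Lv → Fin R → ℤ) (u : ℕ)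
    (ν η κ : ℝ) (t : ℕ) : Prop where
  zh : z ≠ h
  card : (small z h).card = u
  ycard : ∀ l, y l = cnt fun c => lc c = l
  ylo : ∀ l, u ^ 6 ≤ y l
  yz : η * k ≤ y z
  yh : η * k ≤ y h
  yhi : ∀ l, (y l : ℝ) ≤ κ * k
  ysm : ∀ l ∈ small z h, (y l : ℝ) ≤ ν * k
  cutE : ∀ c, ∀ v ∈ E c, σ (lc c) (e c v) = !σ (lc c) v
  netE : ∀ c a, ∑ v ∈ E c, nu r fl a (lab v) (σ (lc c) v) = ntl (lc c) a
  w1 : ∀ w, ∀ x ∈ Lt, ∀ v, v ≠ x → |cor E z h σ lc w x v| ≤ ν * k
  ld : ∀ v ∈ Lt, ∀ l, (cnt fun c => lc c = l ∧ v ∈ E c : ℝ) ≤ ν * y l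
  eq3 : Eq3 m lab poor z h σ ν
  lbal : ∀ l a, |∑ v ∈ Vl lab a, sgz (σ l v)| ≤ t

/-- Special darts: poor types and the edges between heavy vertices. -/
def SpW (m : Fin k → V → V) (lab : V → Fin R) (poor : Fin R → Fin R → Prop) (Lt : Finset V)
    (c : Fin k) (v : V) : Prop :=
  poor (lab v) (lab (m c v)) ∨ (v ∉ Lt ∧ m c v ∉ Lt)

/-- The darts that are placed in the first half. -/
def FxW (m : Fin k → V → V) (lab : V → Fin R) (poor : Fin R → Fin R → Prop) (Lt : Finset V)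
    (c : Fin k) (v : V) : Prop :=
  poor (lab v) (lab (m c v)) ∨ v ∉ Lt ∨ m c v ∉ Lt

/-- Their levels. -/
noncomputable def lW {Lv : Type} (m : Fin k → V → V) (lab : V → Fin R)
    (poor : Fin R → Fin R → Prop) (Lt : Finset V) (vc : Fin k → V → Fin k) (lc : Fin k → Lv)
    (hl : V → Fin k → Lv) (c : Fin k) (v : V) : Lv :=
  if SpW m lab poor Lt c v then lc (vc c v) else if v ∉ Lt then hl v c else hl (m c v) c

/-- The other darts at the heavy vertices are placed with exact degrees. -/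
def Med {Lv : Type} (m : Fin k → V → V) (lab : V → Fin R) (poor : Fin R → Fin R → Prop)
    (Lt : Finset V) (E : Fin k → Finset V) (σ : Lv → V → Bool) (lc : Fin k → Lv)
    (hl : V → Fin k → Lv) : Prop :=
  ∀ w, w ∉ Lt → (∀ c, ¬ SpW m lab poor Lt c w → σ (hl w c) w ≠ σ (hl w c) (m c w)) ∧
    ∀ l, (cnt fun c => ¬ SpW m lab poor Lt c w ∧ hl w c = l) = cnt fun c => lc c = l ∧ w ∉ E c

/-! ### Small facts -/

theorem Eq3.mono {Lv : Type} [Fintype Lv] {m : Fin k → V → V} {lab : V → Fin R}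
    {poor : Fin R → Fin R → Prop} {z h : Lv} {σ : Lv → V → Bool} {ν ν' : ℝ}
    (H : Eq3 m lab poor z h σ ν) (hν : ν ≤ ν') : Eq3 m lab poor z h σ ν' :=
  ⟨fun l hl x x' b s s0 s1 => (H.h3 l hl x x' b s s0 s1).trans
      (mul_le_mul_of_nonneg_right hν (Nat.cast_nonneg _)),
    fun l hl o a b hab s s0 s1 s' s0' s1' => (H.q6 l hl o a b hab s s0 s1 s' s0' s1').trans
      (mul_le_mul_of_nonneg_right hν (Nat.cast_nonneg _))⟩

theorem card_small {Lv : Type} [Fintype Lv] {z h : Lv} (hzh : z ≠ h) :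
    Fintype.card Lv = (small z h).card + 2 := by
  have e : (univ : Finset Lv) = insert z (insert h (small z h)) := by
    ext l
    by_cases h1 : l = z <;> by_cases h2 : l = h <;> simp [small, h1, h2]
  rw [← card_univ, e, card_insert_of_notMem (by simp [small, hzh]),
    card_insert_of_notMem (by simp [small])]

theorem Typ.rl {m : Fin k → V → V} {lab : V → Fin R} {fl : Fin R → Fin R}
    {poor r : Fin R → Fin R → Prop} {S Lp : ℕ} (H : Typ m lab fl poor r S Lp) : Rl fl r :=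
  ⟨H.inv, H.eqv, H.rfl'⟩

/-- Polynomials times a decaying exponential are eventually small. -/
theorem ev_exp (A c δ : ℝ) (d : ℕ) (hc : 0 < c) (hδ : 0 < δ) :
    ∃ U : ℕ, ∀ u : ℕ, U ≤ u → A * (u : ℝ) ^ d * Real.exp (-(c * u)) ≤ δ := by
  have h1 := (Real.tendsto_pow_mul_exp_neg_atTop_nhds_zero d).comp
    (Filter.Tendsto.const_mul_atTop hc tendsto_natCast_atTop_atTop)
  have h2 := h1.const_mul (A / c ^ d)
  rw [mul_zero] at h2
  obtain ⟨U, hU⟩ := Filter.eventually_atTop.1 (h2.eventually (gt_mem_nhds hδ))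
  refine ⟨U, fun u hu => le_of_lt (lt_of_eq_of_lt ?_ (hU u hu))⟩
  have : c ^ d ≠ 0 := by positivity
  simp only [Function.comp, mul_pow]
  field_simp

/-- A constant times `u ^ d` with `d < 8` is eventually at most `c * k`. -/
theorem ev_pow (A c : ℝ) (d : ℕ) (hd : d ≤ 7) (hc : 0 < c) :
    ∃ U : ℕ, ∀ u : ℕ, U ≤ u → ∀ k, Sc k u → A * (u : ℝ) ^ d ≤ c * k := by
  obtain ⟨U, hU⟩ := exists_nat_ge (|A| / c)
  refine ⟨U + 1, fun u hu k hk => ?_⟩
  have h1 : (1 : ℝ) ≤ u := by exact_mod_cast (show 1 ≤ u by omega)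
  have h2 : (U : ℝ) ≤ u := by exact_mod_cast (show U ≤ u by omega)
  have h3 : |A| ≤ c * u := by
    rw [div_le_iff₀ hc] at hU
    nlinarith
  have h4 : (u : ℝ) ^ d ≤ (u : ℝ) ^ 7 := pow_le_pow_right₀ h1 hd
  have h5 : (u : ℝ) ^ 8 ≤ k := by exact_mod_cast hk.1
  have h6 : (0 : ℝ) ≤ (u : ℝ) ^ d := by positivity
  calc A * (u : ℝ) ^ d ≤ |A| * (u : ℝ) ^ d := mul_le_mul_of_nonneg_right (le_abs_self A) h6
    _ ≤ c * u * (u : ℝ) ^ 7 := mul_le_mul h3 h4 h6 (by positivity)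
    _ = c * (u : ℝ) ^ 8 := by ring
    _ ≤ c * k := mul_le_mul_of_nonneg_left h5 hc.le

/-- The union bound. -/
theorem pr_exists_le {ι Ω I : Type} [Fintype ι] [Fintype Ω] [Fintype I]
    (P : I → (ι → Ω) → Prop) : pr (fun ω => ∃ i, P i ω) ≤ ∑ i, pr (P i) := by
  unfold pr
  rw [← mean_sum]
  refine mean_mono fun ω => ?_
  by_cases h : ∃ i, P i ω
  · obtain ⟨i, hi⟩ := h
    rw [if_pos ⟨i, hi⟩]
    refine le_trans ?_ (single_le_sum (f := fun i => if P i ω then (1 : ℝ) else 0)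
      (fun j _ => by split_ifs <;> norm_num) (mem_univ i))
    simp [hi]
  · rw [if_neg h]
    exact sum_nonneg fun j _ => by split_ifs <;> norm_num

/-! ### Virtual colours and patterns -/

/-- Balanced orientations. -/
def EulerP : Prop :=
  ∀ (E N : Type) (X : Finset E) (μ : E → E) (node : E → N),
    (∀ e ∈ X, μ e ∈ X ∧ μ e ≠ e ∧ μ (μ e) = e) →
    ∃ s : E → Bool, (∀ e ∈ X, s (μ e) = !s e) ∧
      ∀ x, |∑ e ∈ X.filter (fun e => node e = x), sgz (s e)| ≤ 1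

/-- Short zero-sum subfamilies of positive weight. -/
def ZsP : Prop :=
  ∀ (T A : Type) [Fintype T] [AddCommGroup A] (vec : T → A), ∃ D : ℕ,
    ∀ (I : Type) (s : Finset I) (ty : I → T) (wt : I → ℤ), ∑ i ∈ s, vec (ty i) = 0 →
      0 < ∑ i ∈ s, wt i → ∃ J ⊆ s, J.card ≤ D ∧ ∑ i ∈ J, vec (ty i) = 0 ∧ 0 < ∑ i ∈ J, wt i

/-- The components of the union of two matchings have at most two ends. -/
def OrbP : Prop :=
  ∀ (V : Type) [Fintype V] (i j : V → V), (∀ v, i (i v) = v) → (∀ v, j (j v) = v) →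
    ∃ K : V → Finset V, (∀ x, x ∈ K x) ∧ (∀ x, ∀ y ∈ K x, K y = K x) ∧
      (∀ x, ∀ y ∈ K x, i y ∈ K x ∧ j y ∈ K x) ∧
      ∀ x, (cnt fun y => y ∈ K x ∧ (i y = y ∨ j y = y)) ≤ 2

/-- A small exchange between two matchings that keeps the invariants. -/
def SwapP : Prop :=
  ∀ R : ℕ, ∃ D : ℕ, ∀ (V : Type) [Fintype V] (lab : V → Fin R) (fl : Fin R → Fin R)
    (r : Fin R → Fin R → Prop) (E₁ E₂ : Finset V) (e₁ e₂ : V → V), Mat lab fl r E₁ e₁ →
    Mat lab fl r E₂ e₂ → E₂.card < E₁.card → ∃ K : Finset V,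
      (∀ v ∈ K, v ∈ E₁ → e₁ v ∈ K) ∧ (∀ v ∈ K, v ∈ E₂ → e₂ v ∈ K) ∧
      (E₂ ∩ K).card < (E₁ ∩ K).card ∧ (E₁ ∩ K).card ≤ (E₂ ∩ K).card + D ∧
      (∀ a, ∑ v ∈ E₁ ∩ K, dl r fl a (lab v) = ∑ v ∈ E₂ ∩ K, dl r fl a (lab v)) ∧
      ∀ a, Even ((cnt fun v => v ∈ E₁ ∩ K ∧ orb r fl a (lab v)) +
        cnt fun v => v ∈ E₂ ∩ K ∧ orb r fl a (lab v))

/-- The true colours are virtual colours. -/
def Vir0P : Prop :=
  ∀ (k R : ℕ) (V : Type) [Fintype V] (m : Fin k → V → V) (lab : V → Fin R) (fl : Fin R → Fin R)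
    (r : Fin R → Fin R → Prop) (Sp : Fin k → V → Prop), Fac m → Rl fl r →
    (∀ c v, Sp c v → Sp c (m c v)) → (∀ c v, ¬ Sp c v → r (lab v) (fl (lab (m c v)))) →
    Vir m Sp (fun c _ => c) (fun c => univ.filter fun v => Sp c v) m ∧
      ∀ c, Mat lab fl r (univ.filter fun v => Sp c v) (m c)

/-- Exchanging two virtual colours on a closed set. -/
def Vir1P : Prop :=
  ∀ (k R : ℕ) (V : Type) [Fintype V] (m : Fin k → V → V) (lab : V → Fin R) (fl : Fin R → Fin R)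
    (r : Fin R → Fin R → Prop) (Sp : Fin k → V → Prop) (vc : Fin k → V → Fin k)
    (E : Fin k → Finset V) (e : Fin k → V → V) (a b : Fin k) (K : Finset V), Fac m →
    (∀ c v, Sp c v → Sp c (m c v)) → Vir m Sp vc E e → (∀ c, Mat lab fl r (E c) (e c)) → a ≠ b →
    (∀ v ∈ K, v ∈ E a → e a v ∈ K) → (∀ v ∈ K, v ∈ E b → e b v ∈ K) →
    (∀ x, ∑ v ∈ E a ∩ K, dl r fl x (lab v) = ∑ v ∈ E b ∩ K, dl r fl x (lab v)) →
    (∀ x, Even ((cnt fun v => v ∈ E a ∩ K ∧ orb r fl x (lab v)) +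
      cnt fun v => v ∈ E b ∩ K ∧ orb r fl x (lab v))) →
    ∃ (vc' : Fin k → V → Fin k) (E' : Fin k → Finset V) (e' : Fin k → V → V),
      Vir m Sp vc' E' e' ∧ (∀ c, Mat lab fl r (E' c) (e' c)) ∧
      E' a = (E a \ K) ∪ (E b ∩ K) ∧ E' b = (E b \ K) ∪ (E a ∩ K) ∧
      ∀ c, c ≠ a → c ≠ b → E' c = E c

/-- Virtual colours of bounded size. -/
def VirtP : Prop :=
  ∀ R S : ℕ, ∃ M : ℕ, ∀ (k : ℕ) (V : Type) [Fintype V] (m : Fin k → V → V) (lab : V → Fin R)
    (fl : Fin R → Fin R) (r : Fin R → Fin R → Prop) (Sp : Fin k → V → Prop), Fac m → Rl fl r →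
    (∀ c v, Sp c v → Sp c (m c v)) → (∀ c v, ¬ Sp c v → r (lab v) (fl (lab (m c v)))) →
    nd Sp ≤ S * k → ∃ (vc : Fin k → V → Fin k) (E : Fin k → Finset V) (e : Fin k → V → V),
      Vir m Sp vc E e ∧ ∀ c, Mat lab fl r (E c) (e c) ∧ (E c).card ≤ M

/-- Basic facts on nets. -/
def NuP : Prop :=
  ∀ (R : ℕ) (fl : Fin R → Fin R) (r : Fin R → Fin R → Prop), Rl fl r →
    Equivalence (orb r fl) ∧
    (∀ a x y s, r x (fl y) → nu r fl a x s + nu r fl a y (!s) = 0) ∧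
    ∀ (V : Type) (lab : V → Fin R) (E E' : Finset V) (σ σ' : V → Bool),
      (∀ a, ∑ v ∈ E, dl r fl a (lab v) = ∑ v ∈ E', dl r fl a (lab v)) →
      (∀ a, ∑ v ∈ E.filter (fun v => orb r fl a (lab v)), sgz (σ v) =
        ∑ v ∈ E'.filter (fun v => orb r fl a (lab v)), sgz (σ' v)) →
      ∀ a, ∑ v ∈ E, nu r fl a (lab v) (σ v) = ∑ v ∈ E', nu r fl a (lab v) (σ' v)

/-- Any two virtual colours have orientations with the same nets that agree on common ends. -/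
def ShareP : Prop :=
  ∀ (R : ℕ) (V : Type) [Fintype V] (lab : V → Fin R) (fl : Fin R → Fin R)
    (r : Fin R → Fin R → Prop) (E₁ E₂ : Finset V) (e₁ e₂ : V → V), Rl fl r →
    Mat lab fl r E₁ e₁ → Mat lab fl r E₂ e₂ → ∃ s₁ s₂ : V → Bool,
      (∀ v ∈ E₁, s₁ (e₁ v) = !s₁ v) ∧ (∀ v ∈ E₂, s₂ (e₂ v) = !s₂ v) ∧
      (∀ v ∈ E₁, v ∈ E₂ → s₁ v = s₂ v) ∧
      ∀ a, ∑ v ∈ E₁, nu r fl a (lab v) (s₁ v) = ∑ v ∈ E₂, nu r fl a (lab v) (s₂ v)

/-- A kernel outside which a large subfamily is spread. -/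
def SpreadP : Prop :=
  ∀ (V : Type) (k M : ℕ) (E : Fin k → Finset V) (τ : ℝ), 0 < τ → τ ≤ 1 → 0 < k →
    (∀ c, (E c).card ≤ M) → ∃ S : Finset V, S.card ≤ M ∧
      τ ^ M * k ≤ (cnt fun c => S ⊆ E c : ℝ) ∧
      ∀ w, w ∉ S → (cnt fun c => S ⊆ E c ∧ w ∈ E c : ℝ) ≤ τ * (cnt fun c => S ⊆ E c : ℝ)

/-- Among the colours of `F` many realise the same set of patterns. -/
def PatP : Prop :=
  ∀ R M : ℕ, ∃ T : ℕ, 0 < T ∧ ∀ (k : ℕ) (V : Type) [Fintype V] (lab : V → Fin R)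
    (fl : Fin R → Fin R) (r : Fin R → Fin R → Prop) (E : Fin k → Finset V) (e : Fin k → V → V)
    (S : Finset V) (F : Finset (Fin k)), S.card ≤ M → F.Nonempty →
    (∀ c, Mat lab fl r (E c) (e c) ∧ (E c).card ≤ M) →
    ∃ P ⊆ F, F.card ≤ 2 ^ T * P.card ∧ ∃ (g : Fin T → V → Bool) (nt : Fin T → Fin R → ℤ),
      ∀ c ∈ P, (∀ o, ∃ s : V → Bool, (∀ v ∈ E c, s (e c v) = !s v) ∧ (∀ v ∈ S, s v = g o v) ∧
          ∀ a, ∑ v ∈ E c, nu r fl a (lab v) (s v) = nt o a) ∧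
        ∀ s : V → Bool, (∀ v ∈ E c, s (e c v) = !s v) → ∃ o, (∀ v ∈ S, s v = g o v) ∧
          ∀ a, ∑ v ∈ E c, nu r fl a (lab v) (s v) = nt o a

def EssP : Prop :=
  ∀ R M : ℕ, ∃ T : ℕ, 0 < T ∧ ∀ τ : ℝ, 0 < τ → ∃ cP : ℝ, 0 < cP ∧ ∀ (k : ℕ) (V : Type)
    [Fintype V] (lab : V → Fin R) (fl : Fin R → Fin R) (r : Fin R → Fin R → Prop)
    (E : Fin k → Finset V) (e : Fin k → V → V), 0 < k → Rl fl r →
    (∀ c, Mat lab fl r (E c) (e c) ∧ (E c).card ≤ M) →
    ∃ (S : Finset V) (g : Fin T → V → Bool) (nt : Fin T → Fin R → ℤ)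
      (s : Fin k → Fin T → V → Bool) (fit : Fin k → Fin T → Prop) (P : Finset (Fin k)),
      Ess lab fl r E e M τ cP S g nt s fit P

/-! ### Random labellings -/

def AgreeP : Prop :=
  ∀ (V : Type) [Fintype V] (A : Finset V) (t : V → Bool),
    pr (fun ε : V → Bool => ∀ v ∈ A, ε v = t v) = (1 / 2 : ℝ) ^ A.card

def CubeAP : Prop :=
  ∀ (C R M : ℕ) (δ : ℝ), 0 < δ → ∃ U : ℕ, ∀ u, U ≤ u → ∀ k, Sc k u → ∀ (V : Type) [Fintype V]
    (m : Fin k → V → V) (lab : V → Fin R) (S : Finset V) (g σ0 σ1 : V → Bool),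
    Fintype.card V ≤ C * k → S.card ≤ M →
    pr (fun ε : V → Bool => ¬ Ga m lab σ0 σ1 (ovr S g ε) ((u : ℝ) ^ 5)) ≤ δ

def CubeBP : Prop :=
  ∀ (R M : ℕ) (δ ν : ℝ), 0 < δ → 0 < ν → ∃ Lp : ℕ, ∀ (k : ℕ) (V : Type) [Fintype V]
    (m : Fin k → V → V) (lab : V → Fin R) (poor : Fin R → Fin R → Prop) (S : Finset V)
    (g σ0 σ1 : V → Bool), Fac m →
    (∀ a b, ¬ poor a b → NN m lab a b = 0 ∨ Lp * k ≤ NN m lab a b) → S.card ≤ M →
    pr (fun ε : V → Bool => ¬ Gb m lab poor σ0 σ1 (ovr S g ε) ν) ≤ δ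

def PoolP : Prop :=
  ∀ (M : ℕ) (δ : ℝ), 0 < δ → ∃ τ : ℝ, 0 < τ ∧ ∀ (k : ℕ) (V : Type) [Fintype V]
    (E : Fin k → Finset V) (s : Fin k → V → Bool) (S : Finset V) (g : V → Bool)
    (Q : Finset (Fin k)), (∀ c, (E c).card ≤ M) →
    (∀ c ∈ Q, ∀ v ∈ E c, v ∈ S → s c v = g v) →
    (∀ w, w ∉ S → (cnt fun c => c ∈ Q ∧ w ∈ E c : ℝ) ≤ τ * Q.card) →
    pr (fun ε : V → Bool => (cnt fun c => c ∈ Q ∧ ∀ v ∈ E c, ovr S g ε v = s c v : ℝ) <
      (1 / 2 : ℝ) ^ (M + 1) * Q.card) ≤ δ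

/-- The set of good pairs (pattern, labelling). -/
def SmpP : Prop :=
  ∀ (k M T J : ℕ) (V : Type) [Fintype V] (E : Fin k → Finset V) (S Lt : Finset V)
    (g : Fin T → V → Bool) (s : Fin k → Fin T → V → Bool) (fit : Fin k → Fin T → Prop)
    (Q : Finset (Fin k)) (G : (V → Bool) → Prop) (δ δ' d x : ℝ), 0 < T → 0 < J → 0 ≤ d →
    J * d ≤ x → δ + δ' ≤ (1 / 2 : ℝ) ^ (M + 1) / T → (∀ c, (E c).card ≤ M) →
    (∀ c, ∃ o, fit c o) → (∀ c o, fit c o → ∀ v ∈ E c, v ∈ S → s c o v = g o v) →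
    (∀ v ∈ Lt, v ∉ S ∧ (cnt fun c => c ∈ Q ∧ v ∈ E c : ℝ) ≤ d) →
    (∀ o, pr (fun ε : V → Bool => ¬ G (ovr S (g o) ε)) ≤ δ) →
    (∀ o, pr (fun ε : V → Bool =>
      (cnt fun c => c ∈ Q ∧ cmp fit s E c o (ovr S (g o) ε) : ℝ) < 2 * x) ≤ δ') →
    ∃ Gd : Finset (Fin T × (V → Bool)),
      (∀ ω ∈ Gd, G (ovr S (g ω.1) ω.2) ∧
        x ≤ (cnt fun c => c ∈ Q ∧ cmp fit s E c ω.1 (ovr S (g ω.1) ω.2) : ℝ)) ∧
      (∀ c, (1 / 2 : ℝ) ^ (M + 1) / T * Fintype.card (Fin T × (V → Bool)) ≤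
        ((Gd.filter fun ω => cmp fit s E c ω.1 (ovr S (g ω.1) ω.2)).card : ℝ)) ∧
      ∀ c, ∀ y ∈ Lt, y ∉ E c → ∀ v, v ≠ y →
        |∑ ω ∈ Gd.filter (fun ω => cmp fit s E c ω.1 (ovr S (g ω.1) ω.2)),
          sg (ovr S (g ω.1) ω.2 y) * sg (ovr S (g ω.1) ω.2 v)| ≤
          (δ + 1 / J) * Fintype.card (Fin T × (V → Bool))

/-- A sample that reproduces many means. -/
def SampP : Prop :=
  ∀ (Ω I : Type) [Fintype Ω] [Fintype I] (Gd : Finset Ω) (A : I → Ω → ℝ) (u : ℕ) (ε : ℝ),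
    Gd.Nonempty → 0 < u → 0 < ε → (∀ i ω, |A i ω| ≤ 1) →
    2 * Fintype.card I * Real.exp (-(ε ^ 2 * u / 2)) < 1 →
    ∃ ω : Fin u → Ω, (∀ j, ω j ∈ Gd) ∧
      ∀ i, |∑ j, A i (ω j) - u * ((∑ a ∈ Gd, A i a) / Gd.card)| ≤ ε * u

/-- The small levels, sampled from the good pairs. -/
def SlotP : Prop :=
  ∀ (C : ℕ) (p0 ν : ℝ), 0 < p0 → 0 < ν → ∃ U : ℕ, ∀ u, U ≤ u → ∀ k, Sc k u →
    ∀ (V Ω : Type) [Fintype V] [Fintype Ω] (E : Fin k → Finset V) (Lt : Finset V)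
      (Gd : Finset Ω) (σ : Ω → V → Bool) (cm : Fin k → Ω → Prop), Fintype.card V ≤ C * k →
      Nonempty Ω → (∀ c, p0 * Fintype.card Ω ≤ ((Gd.filter fun ω => cm c ω).card : ℝ)) →
      (∀ c, ∀ y ∈ Lt, y ∉ E c → ∀ v, v ≠ y →
        |∑ ω ∈ Gd.filter (fun ω => cm c ω), sg (σ ω y) * sg (σ ω v)| ≤
          ν * p0 ^ 2 / 4 * Fintype.card Ω) →
      ∃ ω : Fin u → Ω, (∀ j, ω j ∈ Gd) ∧ (∀ c, p0 / 2 * u ≤ (cnt fun j => cm c (ω j) : ℝ)) ∧
        ∀ c, ∀ y ∈ Lt, y ∉ E c → ∀ v, v ≠ y →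
          |∑ j ∈ univ.filter (fun j => cm c (ω j)), sg (σ (ω j) y) * sg (σ (ω j) v)| ≤
            ν * (cnt fun j => cm c (ω j) : ℝ)

/-- From the successive halvings to the joint equidistribution. -/
def Eq3P : Prop :=
  ∀ (k R : ℕ) (V Lv : Type) [Fintype V] [Fintype Lv] (m : Fin k → V → V) (lab : V → Fin R)
    (poor : Fin R → Fin R → Prop) (z h : Lv) (σ : Lv → V → Bool) (t : ℕ) (ν : ℝ),
    7 * (t : ℝ) ≤ ν * k →
    (Ga m lab (fun _ => true) (fun _ => true) (σ z) t ∧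
      Gb m lab poor (fun _ => true) (fun _ => true) (σ z) (ν / 21)) →
    (Ga m lab (σ z) (fun _ => true) (σ h) t ∧ Gb m lab poor (σ z) (fun _ => true) (σ h) (ν / 21)) →
    (∀ l ∈ small z h, Ga m lab (σ z) (σ h) (σ l) t ∧ Gb m lab poor (σ z) (σ h) (σ l) (ν / 21)) →
    Eq3 m lab poor z h σ ν ∧ ∀ l a, |∑ v ∈ Vl lab a, sgz (σ l v)| ≤ ((4 * t : ℕ) : ℤ)

def FamP : Prop :=
  ∀ (C R M T : ℕ) (κ : ℝ), 0 < T → 0 < κ → ∃ τ : ℝ, 0 < τ ∧ ∀ cP : ℝ, 0 < cP → ∃ η : ℝ, 0 < η ∧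
    ∀ ν : ℝ, 0 < ν → ∃ θ : ℝ, 0 < θ ∧ ∃ Lp U : ℕ, ∀ u, U ≤ u → ∀ k, Sc k u →
    ∀ (V : Type) [Fintype V] (m : Fin k → V → V) (lab : V → Fin R) (fl : Fin R → Fin R)
      (poor r : Fin R → Fin R → Prop) (E : Fin k → Finset V) (e : Fin k → V → V) (S : Finset V)
      (g : Fin T → V → Bool) (nt : Fin T → Fin R → ℤ) (s : Fin k → Fin T → V → Bool)
      (fit : Fin k → Fin T → Prop) (P : Finset (Fin k)) (Lt : Finset V),
      Fintype.card V ≤ C * k → Fac m →
      (∀ a b, ¬ poor a b → NN m lab a b = 0 ∨ Lp * k ≤ NN m lab a b) → (∀ c, (E c).card ≤ M) →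
      Ess lab fl r E e M τ cP S g nt s fit P →
      (∀ v ∈ Lt, v ∉ S ∧ (cnt fun c => v ∈ E c : ℝ) ≤ θ * k) →
      ∃ (Lv : Type) (_ : Fintype Lv) (z h : Lv) (σ : Lv → V → Bool) (ol : Lv → Fin T)
        (Q : Finset (Fin k)),
        Fam E Lt z h σ (fun c l => cmp fit s E c (ol l) (σ l)) Q u ν η κ ((1 / 2) ^ (M + 2))
          ((1 / 2) ^ (M + 2) / T) ∧ Eq3 m lab poor z h σ ν ∧
        ∀ l a, |∑ v ∈ Vl lab a, sgz (σ l v)| ≤ ((4 * u ^ 5 : ℕ) : ℤ)

/-! ### Colours on levels -/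

/-- The distribution of the level of each colour. -/
def ColXP : Prop :=
  ∀ (k u : ℕ) (V Lv : Type) [Fintype V] [Fintype Lv] (E : Fin k → Finset V) (Lt : Finset V)
    (z h : Lv) (σ : Lv → V → Bool) (cm : Fin k → Lv → Prop) (Q : Finset (Fin k))
    (ν η κ x0 p1 : ℝ), 0 < u → 0 ≤ ν → 0 ≤ x0 → 0 < p1 → Fam E Lt z h σ cm Q u ν η κ x0 p1 →
    ∃ x : Fin k → Lv → ℝ, (∀ c l, 0 ≤ x c l) ∧ (∀ c, ∑ l, x c l = 1) ∧
      (∀ c l, 0 < x c l → cm c l ∧ (l ∉ small z h → c ∈ Q)) ∧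
      (∀ c, ∀ l ∈ small z h, x c l ≤ 1 / (p1 * u)) ∧
      (∀ l ∈ small z h, x0 * η * k / (4 * u) ≤ ∑ c, x c l) ∧ x0 * η * k / 4 ≤ ∑ c, x c h ∧
      (∀ l, l ≠ z → x0 * η * k / 2 ≤ ∑ c ∈ univ.filter (fun c => cm c l), x c z) ∧
      ∀ c, ∀ y ∈ Lt, y ∉ E c → ∀ v, v ≠ y →
        |∑ l ∈ small z h, x c l * (sg (σ l y) * sg (σ l v))| ≤ ν

def ColP : Prop :=
  ∀ (C : ℕ) (ν η κ x0 p1 θ : ℝ), 0 < ν → 0 < η → 0 < x0 → 0 < p1 → 0 < θ → ∃ U : ℕ,
    ∀ u, U ≤ u → ∀ k, Sc k u → ∀ (V Lv : Type) [Fintype V] [Fintype Lv] (E : Fin k → Finset V)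
      (Lt : Finset V) (z h : Lv) (σ : Lv → V → Bool) (cm : Fin k → Lv → Prop)
      (Q : Finset (Fin k)), Fintype.card V ≤ C * k → Fam E Lt z h σ cm Q u ν η κ x0 p1 →
      (∀ v ∈ Lt, (cnt fun c => v ∈ E c : ℝ) ≤ θ * k) →
      ∃ lc : Fin k → Lv, Col E Lt z h σ cm lc u (2 * ν + θ) κ (x0 * η / 8) (2 / p1) (2 * θ / p1)

/-- Disjoint subsets of prescribed sizes. -/
def DselP : Prop :=
  ∀ (I α : Type) [Fintype I] (A : I → Finset α) (n : I → ℕ),
    (∀ i, n i = 0 ∨ ∑ j, n j ≤ (A i).card) →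
    ∃ B : I → Finset α, (∀ i, B i ⊆ A i ∧ (B i).card = n i) ∧
      ∀ i j, i ≠ j → Disjoint (B i) (B j)

/-- Grouping the parts. -/
def GroupP : Prop :=
  ∀ (Lv : Type) [Fintype Lv] (z : Lv) (q s : ℕ) (p : Fin q → ℕ) (n : Lv → ℕ), (∀ i, p i ≤ s) →
    ∑ l ∈ univ.erase z, (n l + s) ≤ ∑ i, p i →
    ∃ grp : Fin q → Lv, ∀ l, l ≠ z → n l ≤ ∑ i ∈ univ.filter (fun i => grp i = l), p i ∧
      ∑ i ∈ univ.filter (fun i => grp i = l), p i ≤ n l + s

/-- Moving a few colours from the master so that all sizes are sums of parts. -/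
def AdjP : Prop :=
  ∀ (k q s : ℕ) (Lv : Type) [Fintype Lv] (z h : Lv) (cm : Fin k → Lv → Prop) (lc : Fin k → Lv)
    (p : Fin q → ℕ), z ≠ h → (∀ c, cm c (lc c)) → (∀ i, p i ≤ s) → ∑ i, p i = k →
    (∀ l, l ≠ z → Fintype.card Lv * s ≤ cnt fun c => lc c = z ∧ cm c l) →
    ∃ lc' : Fin k → Lv, (∀ c, cm c (lc' c)) ∧ Grp p (fun l => cnt fun c => lc' c = l) ∧
      (∀ c, lc' c ≠ lc c → lc c = z) ∧ ∀ l, l ≠ z → (cnt fun c => lc' c = l ∧ lc c ≠ l) ≤ s

/-- The numbers after the adjustment. -/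
def LevAP : Prop :=
  ∀ ν κ a A θ : ℝ, 0 < ν → 0 < κ → 0 < a → 0 < A → θ ≤ ν * (a / 2) → ∃ U : ℕ, ∀ u, U ≤ u →
    ∀ k, Sc k u → ∀ (V Lv : Type) [Fintype V] [Fintype Lv] (E : Fin k → Finset V)
      (Lt : Finset V) (z h : Lv) (σ : Lv → V → Bool) (cm : Fin k → Lv → Prop)
      (lc lc' : Fin k → Lv), z ≠ h → (small z h).card = u →
      Col E Lt z h σ cm lc u (3 * ν / 4) κ a A (ν * a / 2) →
      (∀ v ∈ Lt, (cnt fun c => v ∈ E c : ℝ) ≤ θ * k) → (∀ c, lc' c ≠ lc c → lc c = z) →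
      (∀ l, l ≠ z → (cnt fun c => lc' c = l ∧ lc c ≠ l) ≤ u ^ 5) →
      (∀ l, u ^ 6 ≤ cnt fun c => lc' c = l) ∧ a / 2 * k ≤ (cnt fun c => lc' c = z : ℝ) ∧
      a / 2 * k ≤ (cnt fun c => lc' c = h : ℝ) ∧ (∀ l, (cnt fun c => lc' c = l : ℝ) ≤ κ * k) ∧
      (∀ l ∈ small z h, (cnt fun c => lc' c = l : ℝ) ≤ ν * k) ∧
      (∀ w, ∀ x ∈ Lt, ∀ v, v ≠ x → |cor E z h σ lc' w x v| ≤ ν * k) ∧
      ∀ v ∈ Lt, ∀ l, (cnt fun c => lc' c = l ∧ v ∈ E c : ℝ) ≤ ν * (cnt fun c => lc' c = l : ℝ)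

def LevP : Prop :=
  ∀ (C R M T : ℕ) (κ : ℝ), 0 < T → 0 < κ → ∃ τ : ℝ, 0 < τ ∧ ∀ cP : ℝ, 0 < cP → ∃ η : ℝ, 0 < η ∧
    ∀ ν : ℝ, 0 < ν → ∃ θ : ℝ, 0 < θ ∧ ∃ Lp U : ℕ, ∀ u, U ≤ u → ∀ k, Sc k u →
    ∀ (V : Type) [Fintype V] (m : Fin k → V → V) (lab : V → Fin R) (fl : Fin R → Fin R)
      (poor r : Fin R → Fin R → Prop) (E : Fin k → Finset V) (e : Fin k → V → V) (S : Finset V)
      (g : Fin T → V → Bool) (nt : Fin T → Fin R → ℤ) (s : Fin k → Fin T → V → Bool)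
      (fit : Fin k → Fin T → Prop) (P : Finset (Fin k)) (Lt : Finset V),
      Fintype.card V ≤ C * k → Fac m →
      (∀ a b, ¬ poor a b → NN m lab a b = 0 ∨ Lp * k ≤ NN m lab a b) → (∀ c, (E c).card ≤ M) →
      Ess lab fl r E e M τ cP S g nt s fit P →
      (∀ v ∈ Lt, v ∉ S ∧ (cnt fun c => v ∈ E c : ℝ) ≤ θ * k) →
      ∀ (q : ℕ) (p : Fin q → ℕ), (∀ i, p i ≤ u ^ 5) → ∑ i, p i = k →
      ∃ (Lv : Type) (_ : Fintype Lv) (z h : Lv) (σ : Lv → V → Bool) (y : Lv → ℕ)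
        (lc : Fin k → Lv) (ntl : Lv → Fin R → ℤ),
        Grp p y ∧ Lev m lab fl poor r E e Lt z h σ y lc ntl u ν η κ (4 * u ^ 5)

/-! ### Flips -/

def TgtP : Prop :=
  ∀ (R M : ℕ) (o : Fin R → Fin R → Prop) (nn : Fin R → ℕ) (n : Fin R → ℤ), Equivalence o →
    (∀ x x', o x x' → n x = n x') →
    (∀ x, Even (n x - ∑ b ∈ univ.filter (fun b => o x b), (nn b : ℤ))) →
    (∀ x, (∀ b, o x b → nn b = 0) → n x = 0) → (∀ x, |n x| ≤ M) →
    ∃ tg : Fin R → ℤ, (∀ b, Even (tg b - nn b)) ∧ (∀ b, nn b = 0 → tg b = 0) ∧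
      (∀ b, |tg b| ≤ ((M + R : ℕ) : ℤ)) ∧ ∀ x, ∑ b ∈ univ.filter (fun b => o x b), tg b = n x

/-- Targets for the labels that give the nets of a given oriented matching. -/
def TgbP : Prop :=
  ∀ (R M : ℕ) (V : Type) [Fintype V] (lab : V → Fin R) (fl : Fin R → Fin R)
    (r : Fin R → Fin R → Prop) (E : Finset V) (e : V → V) (σ : V → Bool), Rl fl r →
    Mat lab fl r E e → E.card ≤ M →
    ∃ tg : Fin R → ℤ, (∀ b, Even (tg b - (Vl lab b).card)) ∧ (∀ b, Vl lab b = ∅ → tg b = 0) ∧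
      (∀ b, |tg b| ≤ ((M + R : ℕ) : ℤ)) ∧
      ∀ σ' : V → Bool, (∀ b, ∑ v ∈ Vl lab b, sgz (σ' v) = tg b) →
        ∀ a, ∑ v, nu r fl a (lab v) (σ' v) = ∑ v ∈ E, nu r fl a (lab v) (σ v)

def FselP : Prop :=
  ∀ (R n : ℕ) (V Lv : Type) [Fintype V] [Fintype Lv] (lab : V → Fin R) (σ : Lv → V → Bool)
    (Ok : Lv → Finset V) (tg : Lv → Fin R → ℤ), (∀ l b, Even (tg l b - (Vl lab b).card)) →
    (∀ l b, |∑ v ∈ Vl lab b, sgz (σ l v) - tg l b| ≤ ((2 * n : ℕ) : ℤ)) →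
    (∀ l b, (Vl lab b = ∅ ∧ tg l b = 0) ∨
      ∀ s, Fintype.card Lv * R * n ≤ cnt fun v => v ∈ Ok l ∧ lab v = b ∧ σ l v = s) →
    ∃ F : Lv → Finset V, (∀ l, F l ⊆ Ok l ∧ (F l).card ≤ R * n) ∧
      (∀ l l', l ≠ l' → Disjoint (F l) (F l')) ∧
      ∀ l b, ∑ v ∈ Vl lab b, sgz (flp (F l) (σ l) v) = tg l b

/-- A vertex without unusually many darts of any type. -/
def Tpc (m : Fin k → V → V) (lab : V → Fin R) (K : ℕ) (v : V) : Prop :=
  ∀ b, (cnt fun c => lab (m c v) = b) * k ≤ K * NN m lab (lab v) b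

def FtypP : Prop :=
  ∀ (k R K : ℕ) (V : Type) [Fintype V] (m : Fin k → V → V) (lab : V → Fin R) (a : Fin R),
    (cnt fun v => lab v = a ∧ ¬ Tpc m lab K v) * K ≤ R * k

def FrobP : Prop :=
  ∀ (k R K f : ℕ) (V Lv : Type) [Fintype V] [Fintype Lv] (m : Fin k → V → V) (lab : V → Fin R)
    (poor : Fin R → Fin R → Prop) (z h : Lv) (σ : Lv → V → Bool) (F : Lv → Finset V) (ν : ℝ),
    Fac m → 0 < k → Eq3 m lab poor z h σ ν → (∀ l, (F l).card ≤ f) →
    (∀ l, ∀ v ∈ F l, Tpc m lab K v) → 24 * (f : ℝ) ≤ ν * k → 384 * (f : ℝ) * K ≤ ν * k →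
    Eq3 m lab poor z h (fun l => flp (F l) (σ l)) (2 * ν)

/-- The levels after flipping disjoint sets that miss the ends of their colours. -/
def FlevP : Prop :=
  ∀ (k R u t t' : ℕ) (V Lv : Type) [Fintype V] [Fintype Lv] (m : Fin k → V → V)
    (lab : V → Fin R) (fl : Fin R → Fin R) (poor r : Fin R → Fin R → Prop)
    (E : Fin k → Finset V) (e : Fin k → V → V) (Lt : Finset V) (z h : Lv) (σ : Lv → V → Bool)
    (y : Lv → ℕ) (lc : Fin k → Lv) (ntl : Lv → Fin R → ℤ) (ν η κ : ℝ) (F : Lv → Finset V),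
    0 ≤ ν → (∀ c, ∀ v ∈ E c, e c v ∈ E c) →
    Lev m lab fl poor r E e Lt z h σ y lc ntl u ν η κ t →
    (∀ l l', l ≠ l' → Disjoint (F l) (F l')) → (∀ c, ∀ v ∈ F (lc c), v ∉ E c) →
    Eq3 m lab poor z h (fun l => flp (F l) (σ l)) (2 * ν) →
    (∀ l a, |∑ v ∈ Vl lab a, sgz (flp (F l) (σ l) v)| ≤ t') →
    Lev m lab fl poor r E e Lt z h (fun l => flp (F l) (σ l)) y lc ntl u (5 * ν) η κ t'

/-- Many vertices may be flipped. -/
def FokP : Prop :=
  ∀ (R M : ℕ) (δ : ℝ), 0 < δ → ∃ (κ : ℝ) (K : ℕ), 0 < κ ∧ ∃ U : ℕ, ∀ u, U ≤ u →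
    ∀ k, Sc k u → ∀ (V Lv : Type) [Fintype V] [Fintype Lv] (m : Fin k → V → V) (lab : V → Fin R)
      (fl : Fin R → Fin R) (E : Fin k → Finset V) (σ : V → Bool) (lc : Fin k → Lv) (l : Lv),
      Fac m → (∀ a, fl (fl a) = a) →
      (∀ v, δ * k ≤ (cnt fun c => lab (m c v) = fl (lab v) : ℝ)) → (∀ c, (E c).card ≤ M) →
      (cnt fun c => lc c = l : ℝ) ≤ κ * k →
      (∀ a, |∑ v ∈ Vl lab a, sgz (σ v)| ≤ ((4 * u ^ 5 : ℕ) : ℤ)) →
      ∀ b, Vl lab b ≠ ∅ → ∀ s, (u + 2) * R * (4 * u ^ 5 + M + R) ≤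
        cnt fun v => (Tpc m lab K v ∧ ∀ c, lc c = l → v ∉ E c) ∧ lab v = b ∧ σ v = s

def FlipP : Prop :=
  ∀ (R M : ℕ) (δ : ℝ), 0 < δ → ∃ κ : ℝ, 0 < κ ∧ ∀ ν : ℝ, 0 < ν → ∃ U : ℕ, ∀ u, U ≤ u →
    ∀ k, Sc k u → ∀ (V Lv : Type) [Fintype V] [Fintype Lv] (m : Fin k → V → V) (lab : V → Fin R)
      (fl : Fin R → Fin R) (poor r : Fin R → Fin R → Prop) (E : Fin k → Finset V)
      (e : Fin k → V → V) (Lt : Finset V) (z h : Lv) (σ : Lv → V → Bool) (y : Lv → ℕ)
      (lc : Fin k → Lv) (ntl : Lv → Fin R → ℤ) (η κ' : ℝ), κ' ≤ κ → Fac m → Rl fl r →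
      (∀ v, δ * k ≤ (cnt fun c => lab (m c v) = fl (lab v) : ℝ)) →
      (∀ c, Mat lab fl r (E c) (e c) ∧ (E c).card ≤ M) →
      Lev m lab fl poor r E e Lt z h σ y lc ntl u ν η κ' (4 * u ^ 5) →
      ∃ σ' : Lv → V → Bool, Lev m lab fl poor r E e Lt z h σ' y lc ntl u (5 * ν) η κ' (M + R) ∧
        ∀ l a, ∑ v, nu r fl a (lab v) (σ' l v) = ntl l a

/-! ### Heavy vertices -/

def HallP : Prop :=
  ∀ (X Λ : Type) [Fintype X] [Fintype Λ] [Nonempty Λ] (D : Finset X) (al : X → Λ → Prop)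
    (dem : Λ → ℕ) (a b : ℝ), ∑ l, dem l = D.card →
    (∀ x ∈ D, ∑ l ∈ univ.filter (fun l => ¬ al x l), dem l < D.card) →
    (∀ x ∈ D, ∀ x' ∈ D, x ≠ x' →
      ((∑ l ∈ univ.filter (fun l => ¬ al x l ∧ ¬ al x' l), dem l : ℕ) : ℝ) ≤ a) →
    (∀ l, (cnt fun x => x ∈ D ∧ ¬ al x l : ℝ) ≤ b) → a + b ≤ D.card →
    ∃ f : X → Λ, (∀ x ∈ D, al x (f x)) ∧ ∀ l, (cnt fun x => x ∈ D ∧ f x = l) = dem l

/-- Every level halves the neighbourhoods. -/
def HoneP : Prop :=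
  ∀ (k R : ℕ) (V Lv : Type) [Fintype V] [Fintype Lv] (m : Fin k → V → V) (lab : V → Fin R)
    (poor : Fin R → Fin R → Prop) (z h : Lv) (σ : Lv → V → Bool) (ν : ℝ), Fac m →
    (small z h).Nonempty → Eq3 m lab poor z h σ ν → ∀ (l : Lv) (x : V) (b : Fin R) (s : Bool),
      |2 * (cnt fun c => lab (m c x) = b ∧ σ l (m c x) = s : ℝ) -
        (cnt fun c => lab (m c x) = b : ℝ)| ≤ ν * k

/-- The weights of the levels that do not cut one or two given pairs. -/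
def MedWP : Prop :=
  ∀ (k : ℕ) (V Lv : Type) [Fintype V] [Fintype Lv] (E : Fin k → Finset V) (z h : Lv)
    (σ : Lv → V → Bool) (lc : Fin k → Lv) (w x x' : V) (ν κ : ℝ),
    (∀ l, (cnt fun c => lc c = l : ℝ) ≤ κ * k) → |cor E z h σ lc (some w) x w| ≤ ν * k →
    ((∑ l ∈ univ.filter (fun l => σ l w = σ l x), cnt fun c => lc c = l ∧ w ∉ E c : ℕ) : ℝ) ≤
      ((cnt fun c => w ∉ E c : ℝ) + ν * k) / 2 + 2 * κ * k ∧
    (|cor E z h σ lc (some w) x' w| ≤ ν * k → |cor E z h σ lc (some w) x x'| ≤ ν * k →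
      ((∑ l ∈ univ.filter (fun l => σ l w = σ l x ∧ σ l w = σ l x'),
        cnt fun c => lc c = l ∧ w ∉ E c : ℕ) : ℝ) ≤
        ((cnt fun c => w ∉ E c : ℝ) + 3 * ν * k) / 4 + 2 * κ * k)

def MedP : Prop :=
  ∀ (R : ℕ) (δ : ℝ), 0 < δ → ∃ κ : ℝ, 0 < κ ∧ ∀ B : ℕ, ∃ U : ℕ, ∀ u, U ≤ u → ∀ k, Sc k u →
    ∀ (V Lv : Type) [Fintype V] [Fintype Lv] (m : Fin k → V → V) (lab : V → Fin R)
      (fl : Fin R → Fin R) (poor r : Fin R → Fin R → Prop) (vc : Fin k → V → Fin k)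
      (E : Fin k → Finset V) (e : Fin k → V → V) (Lt : Finset V) (z h : Lv) (σ : Lv → V → Bool)
      (y : Lv → ℕ) (lc : Fin k → Lv) (ntl : Lv → Fin R → ℤ) (ν η κ' : ℝ) (t : ℕ),
      ν ≤ κ → κ' ≤ κ → Fac m → (∀ a, ¬ poor a (fl a)) →
      (∀ v, δ * k ≤ (cnt fun c => lab (m c v) = fl (lab v) : ℝ)) → (cnt fun v => v ∉ Lt) ≤ B →
      Vir m (SpW m lab poor Lt) vc E e → Lev m lab fl poor r E e Lt z h σ y lc ntl u ν η κ' t →
      ∃ hl : V → Fin k → Lv, Med m lab poor Lt E σ lc hl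

/-- The placed darts: symmetry, cuts, exact degrees at heavy vertices. -/
def PreAP : Prop :=
  ∀ (k R : ℕ) (V Lv : Type) [Fintype V] [Fintype Lv] (m : Fin k → V → V) (lab : V → Fin R)
    (poor : Fin R → Fin R → Prop) (vc : Fin k → V → Fin k) (E : Fin k → Finset V)
    (e : Fin k → V → V) (Lt : Finset V) (σ : Lv → V → Bool) (lc : Fin k → Lv)
    (hl : V → Fin k → Lv), Fac m → (∀ a b, poor a b → poor b a) →
    Vir m (SpW m lab poor Lt) vc E e → (∀ c, ∀ v ∈ E c, σ (lc c) (e c v) = !σ (lc c) v) →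
    Med m lab poor Lt E σ lc hl →
    (∀ c v, FxW m lab poor Lt c v → FxW m lab poor Lt c (m c v)) ∧
    (∀ c v, FxW m lab poor Lt c v →
      lW m lab poor Lt vc lc hl c (m c v) = lW m lab poor Lt vc lc hl c v) ∧
    (∀ c v, FxW m lab poor Lt c v →
      σ (lW m lab poor Lt vc lc hl c v) v ≠ σ (lW m lab poor Lt vc lc hl c v) (m c v)) ∧
    ∀ v, v ∉ Lt → ∀ l, (cnt fun c => lW m lab poor Lt vc lc hl c v = l) = cnt fun c => lc c = l

/-- The placed darts: loads. -/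
def PreBP : Prop :=
  ∀ (k R M B : ℕ) (V Lv : Type) [Fintype V] [Fintype Lv] (m : Fin k → V → V) (lab : V → Fin R)
    (poor : Fin R → Fin R → Prop) (vc : Fin k → V → Fin k) (E : Fin k → Finset V)
    (e : Fin k → V → V) (Lt : Finset V) (σ : Lv → V → Bool) (lc : Fin k → Lv)
    (hl : V → Fin k → Lv), Fac m → (∀ a b, poor a b → poor b a) →
    Vir m (SpW m lab poor Lt) vc E e → Med m lab poor Lt E σ lc hl → (∀ c, (E c).card ≤ M) →
    (cnt fun v => v ∉ Lt) ≤ B →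
    (∀ v ∈ Lt, ∀ l, (cnt fun c => FxW m lab poor Lt c v ∧ lW m lab poor Lt vc lc hl c v = l) ≤
      (cnt fun c => lc c = l ∧ v ∈ E c) + B) ∧
    ∀ l, (nd fun c v => FxW m lab poor Lt c v ∧ lW m lab poor Lt vc lc hl c v = l) ≤
      (M + 2 * B) * cnt fun c => lc c = l

/-- The placed darts: nets. -/
def PreCP : Prop :=
  ∀ (k R : ℕ) (V Lv : Type) [Fintype V] [Fintype Lv] (m : Fin k → V → V) (lab : V → Fin R)
    (fl : Fin R → Fin R) (poor r : Fin R → Fin R → Prop) (vc : Fin k → V → Fin k)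
    (E : Fin k → Finset V) (e : Fin k → V → V) (Lt : Finset V) (σ : Lv → V → Bool)
    (lc : Fin k → Lv) (ntl : Lv → Fin R → ℤ) (hl : V → Fin k → Lv), Fac m → Rl fl r →
    (∀ a b, poor a b → poor b a) → (∀ a b, ¬ poor a b → r a (fl b)) →
    Vir m (SpW m lab poor Lt) vc E e → (∀ c, ∀ v ∈ E c, σ (lc c) (e c v) = !σ (lc c) v) →
    (∀ c a, ∑ v ∈ E c, nu r fl a (lab v) (σ (lc c) v) = ntl (lc c) a) →
    Med m lab poor Lt E σ lc hl → ∀ l a,
      ((cnt fun c => lc c = l : ℕ) : ℤ) * ntl l a =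
        ∑ d ∈ univ.filter (fun d : Fin k × V =>
          FxW m lab poor Lt d.1 d.2 ∧ lW m lab poor Lt vc lc hl d.1 d.2 = l),
          nu r fl a (lab d.2) (σ l d.2)

def PreP : Prop :=
  ∀ (R M : ℕ) (δ : ℝ), 0 < δ → ∃ κ : ℝ, 0 < κ ∧ ∀ (B : ℕ) (ν : ℝ), 0 < ν → ν ≤ κ → ∃ U : ℕ,
    ∀ u, U ≤ u → ∀ k, Sc k u → ∀ (V Lv : Type) [Fintype V] [Fintype Lv] (m : Fin k → V → V)
      (lab : V → Fin R) (fl : Fin R → Fin R) (poor r : Fin R → Fin R → Prop)
      (vc : Fin k → V → Fin k) (E : Fin k → Finset V) (e : Fin k → V → V) (Lt : Finset V)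
      (z h : Lv) (σ : Lv → V → Bool) (y : Lv → ℕ) (lc : Fin k → Lv) (ntl : Lv → Fin R → ℤ)
      (η κ' : ℝ) (S Lp : ℕ), κ' ≤ κ → Fac m → Typ m lab fl poor r S Lp →
      (∀ v, δ * k ≤ (cnt fun c => lab (m c v) = fl (lab v) : ℝ)) → (cnt fun v => v ∉ Lt) ≤ B →
      (∀ c, (E c).card ≤ M) → Vir m (SpW m lab poor Lt) vc E e →
      Lev m lab fl poor r E e Lt z h σ y lc ntl u ν η κ' (M + R) →
      (∀ l a, ∑ v, nu r fl a (lab v) (σ l v) = ntl l a) →
      ∃ (Fx : Fin k → V → Prop) (l0 : Fin k → V → Lv),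
        Pre m lab fl poor r z h σ y Lt Fx l0 u (2 * ν) η (M + R + 2 * B)

/-- The light vertices. -/
def LightP : Prop :=
  ∀ (R S : ℕ) (θ : ℝ), 0 < θ → ∃ B U : ℕ, ∀ u, U ≤ u → ∀ k, Sc k u → ∀ (V : Type) [Fintype V]
    (m : Fin k → V → V) (lab : V → Fin R) (fl : Fin R → Fin R) (poor r : Fin R → Fin R → Prop)
    (Lp : ℕ), Fac m → Typ m lab fl poor r S Lp → ∃ Lt : Finset V, (cnt fun v => v ∉ Lt) ≤ B ∧
      nd (SpW m lab poor Lt) ≤ (R * R * S + 1) * k ∧
      (∀ c v, SpW m lab poor Lt c v → SpW m lab poor Lt c (m c v)) ∧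
      (∀ c v, ¬ SpW m lab poor Lt c v → r (lab v) (fl (lab (m c v)))) ∧
      ∀ (vc : Fin k → V → Fin k) (E : Fin k → Finset V) (e : Fin k → V → V),
        Vir m (SpW m lab poor Lt) vc E e → ∀ v ∈ Lt, (cnt fun c => v ∈ E c : ℝ) ≤ θ * k

end Pool.Agent.MP_d20a68_co.T

end

section

set_option autoImplicit false
open Finset
open scoped Classical

namespace Pool.Agent.MP_d20a68_co.T

open Pool.Agent.MP_d20a68_co.Poly

lemma rep_FRound2 {E : Type} [Fintype E] {μ : E → E} (hμ : ∀ e, μ (μ e) = e) :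
    ∃ r : E → E, (∀ e, r (μ e) = r e) ∧ ∀ e, r e = e ∨ r e = μ e := by
  let c := Fintype.equivFin E
  refine ⟨fun e => if c e ≤ c (μ e) then e else μ e, fun e => ?_, fun e => ?_⟩
  · simp only [hμ]
    by_cases h : c e ≤ c (μ e)
    · rw [if_pos h]
      split_ifs with h'
      · exact c.injective (le_antisymm h' h)
      · rfl
    · rw [if_neg h, if_pos (le_of_not_ge h)]
  · dsimp only
    split_ifs <;> simp

theorem round2P (hR : RoundP) : Round2P := by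
  intro E Λ J _ _ _ μ x f N n t hμ hx x0 x1 hf hN hn ht hs
  obtain ⟨r, r1, r2⟩ := rep_FRound2 hμ
  have xr : ∀ e, x (r e) = x e := fun e => by rcases r2 e with h | h <;> simp [h, hx]
  have fib : ∀ g : E → E → ℝ, ∑ e, ∑ e' with r e' = e, g e' e = ∑ e', g e' (r e') := fun g => by
    rw [← sum_fiberwise univ r fun e' => g e' (r e')]
    exact sum_congr rfl fun e _ => sum_congr rfl fun e' he => by rw [(mem_filter.1 he).2]
  obtain ⟨lam, h1, h2⟩ := hR E Λ J x (fun j e l => (∑ e' with r e' = e, f j e' l) / 2)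
    (fun j => (N j).image r) n (fun j => t j / 2) x0 x1
    (fun j e l => ⟨div_nonneg (sum_nonneg fun e' _ => (hf j e' l).1) zero_le_two, by
      have hc : (univ.filter fun e' => r e' = e).card ≤ 2 := by
        refine (card_le_card (t := {e, μ e}) fun e' he => ?_).trans card_le_two
        have := (mem_filter.1 he).2
        rcases r2 e' with h | h
        · simp [← this, h]
        · simp [← this, h, hμ]
      have := sum_le_card_nsmul (univ.filter fun e' => r e' = e) (fun e' => f j e' l) 1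
        fun e' _ => (hf j e' l).2
      rw [nsmul_one] at this
      have hc' : ((univ.filter fun e' => r e' = e).card : ℝ) ≤ 2 := by exact_mod_cast hc
      linarith⟩)
    (fun j e he l => by
      rw [sum_eq_zero, zero_div]
      exact fun e' he' => hN j e' (fun h => he (mem_image.2 ⟨e', h, (mem_filter.1 he').2⟩)) l)
    (fun j => ⟨(hn j).1, le_trans (by exact_mod_cast card_image_le) (hn j).2⟩)
    (fun j => div_nonneg (ht j) zero_le_two)
    (by
      convert hs using 5 with j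
      ring)
  refine ⟨fun e => lam (r e), fun e => congrArg lam (r1 e), fun e => xr e ▸ h1 (r e), fun j => ?_⟩
  have a := h2 j
  have e1 : ∑ e, (∑ e' with r e' = e, f j e' (lam e)) / 2 = (∑ e, f j e (lam (r e))) / 2 := by
    rw [← sum_div, fib fun e' e => f j e' (lam e)]
  have e2 : ∑ e, ∑ l, x e l * ((∑ e' with r e' = e, f j e' l) / 2) =
      (∑ e, ∑ l, x e l * f j e l) / 2 := by
    have := fib fun e' e => ∑ l, x e l * f j e' l
    simp only [xr] at this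
    rw [← this, sum_div]
    refine sum_congr rfl fun e _ => ?_
    rw [sum_comm, sum_div]
    exact sum_congr rfl fun l _ => by rw [← mul_sum, mul_div_assoc]
  rw [e1, e2, ← sub_div, abs_div, abs_two] at a
  linarith

end Pool.Agent.MP_d20a68_co.T

end

section

set_option autoImplicit false
open Finset
open scoped Classical

namespace Pool.Agent.MP_d20a68_co.T

open Pool.Agent.MP_d20a68_co.Poly

theorem eulerP : EulerP := by
  intro E N X μ node
  induction X using Finset.strongInduction generalizing μ with | H X ih =>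
  intro h
  by_cases hc : ∃ e ∈ X, ∃ e' ∈ X, e' ≠ e ∧ node e' = node e
  · obtain ⟨e, he, e', he', ne, hn⟩ := hc
    have m' := mem_erase.2 ⟨ne, he'⟩
    have key : ∀ μ' : E → E, (∀ f ∈ (X.erase e).erase e', μ' f ∈ (X.erase e).erase e' ∧
        μ' f ≠ f ∧ μ' (μ' f) = f) → (∀ s' : E → Bool,
          (∀ f ∈ (X.erase e).erase e', s' (μ' f) = !s' f) → ∃ s : E → Bool,
            (∀ f ∈ X, s (μ f) = !s f) ∧ s e' = (!s e) ∧ ∀ f, f ≠ e → f ≠ e' → s f = s' f) →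
        ∃ s : E → Bool, (∀ e ∈ X, s (μ e) = !s e) ∧
          ∀ x, |∑ e ∈ X.filter (fun e => node e = x), sgz (s e)| ≤ 1 := fun μ' h1 h2 => by
      obtain ⟨s', a1, a2⟩ := ih _ ((erase_subset _ _).trans_ssubset (erase_ssubset he)) μ' h1
      obtain ⟨s, b1, b2, b3⟩ := h2 s' a1
      refine ⟨s, b1, fun x => ?_⟩
      have k := a2 x
      rw [sum_filter] at k ⊢
      rw [← add_sum_erase _ _ he, ← add_sum_erase _ _ m', ← add_assoc, b2, hn,
        sum_congr rfl fun f hf => by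
          rw [b3 f (mem_erase.1 (mem_erase.1 hf).2).1 (mem_erase.1 hf).1]]
      convert k using 2
      cases s e <;> split_ifs <;> simp [sgz]
    have h1 := h e he
    have h2 := h e' he'
    by_cases hm : μ e = e'
    · refine key μ (fun f hf => ?_) fun s' hs =>
        ⟨fun f => if f = e then true else if f = e' then false else s' f, fun f hf => ?_,
          by simp [ne], fun f a b => by simp [a, b]⟩
      · have := h f (mem_erase.1 (mem_erase.1 hf).2).2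
        simp only [mem_erase] at hf ⊢
        grind
      · have := h f hf
        have := hs f
        simp only [mem_erase] at this
        grind
    · refine key (fun f => if f = μ e then μ e' else if f = μ e' then μ e else μ f)
        (fun f hf => ?_) fun s' hs =>
        ⟨fun f => if f = e then !s' (μ e) else if f = e' then !s' (μ e') else s' f,
          fun f hf => ?_, ?_, fun f a b => by simp [a, b]⟩
      · have := h f (mem_erase.1 (mem_erase.1 hf).2).2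
        simp only [mem_erase] at hf ⊢
        grind
      · have := h f hf
        have := hs f
        simp only [mem_erase] at this
        grind
      · have := hs (μ e)
        simp only [mem_erase] at this
        grind
  · obtain ⟨_, -⟩ := exists_wellFoundedLT E
    refine ⟨fun e => decide (e < μ e), fun e he => ?_, fun x => ?_⟩
    · beta_reduce
      rw [(h e he).2.2, ← decide_not, decide_eq_decide, not_lt]
      exact ⟨le_of_lt, (h e he).2.1.lt_of_le⟩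
    · refine (abs_sum_le_sum_abs _ _).trans ((sum_le_card_nsmul _ _ 1 fun e _ => ?_).trans ?_)
      · rw [sgz]
        split_ifs <;> simp
      · rw [nsmul_one, Nat.cast_le_one, card_le_one]
        intro a ha b hb
        rw [mem_filter] at ha hb
        by_contra k
        exact hc ⟨b, hb.1, a, ha.1, k, ha.2.trans hb.2.symm⟩

end Pool.Agent.MP_d20a68_co.T

end

section

/-! Short zero-sum subfamilies of positive weight. -/

set_option autoImplicit false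
set_option linter.unusedSectionVars false
set_option linter.unusedVariables false
open Finset
open scoped Classical

namespace Pool.Agent.MP_d20a68_co.T

open Pool.Agent.MP_d20a68_co.Poly

theorem sum_FZs {T A I : Type} [Fintype T] [AddCommMonoid A] (vec : T → A) (ty : I → T)
    (J : Finset I) : ∑ i ∈ J, vec (ty i) = ∑ t, (J.filter fun i => ty i = t).card • vec t := by
  rw [← Finset.sum_fiberwise J ty]
  refine Finset.sum_congr rfl fun t _ => ?_
  rw [← Finset.sum_const]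
  exact Finset.sum_congr rfl fun i hi => by rw [(Finset.mem_filter.1 hi).2]

theorem sub_FZs {T I : Type} [Fintype T] (ty : I → T) (J : Finset I) (n : T → ℕ)
    (h : ∀ t, n t ≤ (J.filter fun i => ty i = t).card) :
    ∃ J' ⊆ J, ∀ t, (J'.filter fun i => ty i = t).card = n t := by
  choose f f1 f2 using fun t => Finset.exists_subset_card_eq (h t)
  refine ⟨J.filter fun i => i ∈ f (ty i), Finset.filter_subset _ _, fun t => ?_⟩
  rw [← f2 t]
  congr 1
  ext i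
  simp only [Finset.mem_filter]
  constructor
  · rintro ⟨⟨-, h1⟩, rfl⟩
    exact h1
  · intro hi
    obtain ⟨h1, rfl⟩ := Finset.mem_filter.1 (f1 t hi)
    exact ⟨⟨h1, hi⟩, rfl⟩

theorem short_FZs (T A : Type) [Fintype T] [AddCommGroup A] (vec : T → A) : ∃ D : ℕ,
    ∀ (I : Type) (s : Finset I) (ty : I → T), s.Nonempty → ∑ i ∈ s, vec (ty i) = 0 →
      ∃ J ⊆ s, J.Nonempty ∧ J.card ≤ D ∧ ∑ i ∈ J, vec (ty i) = 0 := by
  let Z : (T → ℕ) → Prop := fun n => ∑ t, n t ≠ 0 ∧ ∑ t, n t • vec t = 0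
  have h1 : {n | Minimal Z n}.Finite :=
    (setOfPred_minimal_antichain Z).finite_of_partiallyWellOrderedOn
      (Set.isPWO_of_wellQuasiOrderedLE _)
  obtain ⟨D, hD⟩ := (h1.image fun n => ∑ t, n t).bddAbove
  refine ⟨D, fun I s ty hs h0 => ?_⟩
  have c : ∀ J : Finset I, J.card = ∑ t, (J.filter fun i => ty i = t).card := fun J => by
    simpa using sum_FZs (fun _ : T => (1 : ℕ)) ty J
  have z : Z fun t => (s.filter fun i => ty i = t).card :=
    ⟨by rw [← c]; exact hs.card_ne_zero, by rw [← sum_FZs, h0]⟩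
  obtain ⟨n, hn, hm⟩ := exists_minimal_le_of_wellFoundedLT Z _ z
  obtain ⟨J, hJ, e⟩ := sub_FZs ty s n hn
  have e1 : J.card = ∑ t, n t := by rw [c]; simp only [e]
  refine ⟨J, hJ, Finset.card_ne_zero.1 (e1 ▸ hm.1.1), e1 ▸ hD ⟨n, hm, rfl⟩, ?_⟩
  rw [sum_FZs]
  simp only [e, hm.1.2]

theorem zsP : ZsP := by
  intro T A _ _ vec
  obtain ⟨D, hD⟩ := short_FZs T A vec
  refine ⟨D, fun I s ty wt => ?_⟩
  induction s using Finset.strongInduction with
  | H s ih =>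
    intro h0 hw
    have hs : s.Nonempty := Finset.nonempty_iff_ne_empty.2 fun e => by simp [e] at hw
    obtain ⟨J, hJ, j1, j2, j3⟩ := hD I s ty hs h0
    by_cases h : 0 < ∑ i ∈ J, wt i
    · exact ⟨J, hJ, j2, j3, h⟩
    · obtain ⟨J', h1, h2⟩ := ih (s \ J) (Finset.sdiff_ssubset hJ j1)
        (by rw [Finset.sum_sdiff_eq_sub hJ, h0, j3, sub_zero])
        (by rw [Finset.sum_sdiff_eq_sub hJ]; omega)
      exact ⟨J', h1.trans Finset.sdiff_subset, h2⟩

end Pool.Agent.MP_d20a68_co.T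

end

section

/-! The true colours are virtual colours. -/

set_option autoImplicit false
set_option linter.unusedSectionVars false
set_option linter.unusedVariables false
open Finset
open scoped Classical

namespace Pool.Agent.MP_d20a68_co.T

open Pool.Agent.MP_d20a68_co.Poly

theorem iff1_FVir0 {R : ℕ} {fl : Fin R → Fin R} {r : Fin R → Fin R → Prop} (h : Rl fl r)
    {x y : Fin R} (hxy : r x (fl y)) (a : Fin R) : r a x ↔ r a (fl y) :=
  ⟨fun h1 => h.eqv.trans h1 hxy, fun h1 => h.eqv.trans h1 (h.eqv.symm hxy)⟩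

theorem iff2_FVir0 {R : ℕ} {fl : Fin R → Fin R} {r : Fin R → Fin R → Prop} (h : Rl fl r)
    {x y : Fin R} (hxy : r x (fl y)) (a : Fin R) : r a (fl x) ↔ r a y := by
  have h2 : r (fl x) y := by
    have := h.rfl' _ _ hxy
    rwa [h.inv] at this
  exact ⟨fun h1 => h.eqv.trans h1 h2, fun h1 => h.eqv.trans h1 (h.eqv.symm h2)⟩

theorem even_FVir0 {V : Type} (s : Finset V) (g : V → V) (h1 : ∀ v ∈ s, g v ∈ s)
    (h2 : ∀ v, g v ≠ v) (h3 : ∀ v, g (g v) = v) : Even s.card := by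
  have h : ∑ v ∈ s, (1 : ZMod 2) = 0 :=
    Finset.sum_involution (fun v _ => g v) (fun _ _ => by decide) (fun v _ _ => h2 v)
      (fun v hv => h1 v hv) (fun v _ => h3 v)
  rw [sum_const, nsmul_eq_mul, mul_one] at h
  exact (ZMod.natCast_eq_zero_iff_even).mp h

theorem vir0P : Vir0P := by
  intro k R V _ m lab fl r Sp hF hR hcl hn
  have hcl' : ∀ c v, ¬ Sp c v → ¬ Sp c (m c v) := fun c v hv hs => by
    have := hcl c _ hs
    rw [hF.inv] at this
    exact hv this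
  refine ⟨⟨fun _ _ _ => rfl, fun _ _ _ _ _ h => h, fun a v => ?_, fun _ _ _ => rfl⟩, fun c => ?_⟩
  · simp only [mem_filter, mem_univ, true_and]
    exact ⟨fun h => ⟨a, h, rfl⟩, fun ⟨c, h, hc⟩ => hc ▸ h⟩
  refine ⟨fun v hv => ?_, fun v _ => hF.ne c v, fun v _ => hF.inv c v, fun a => ?_, fun a => ?_⟩
  · simp only [mem_filter, mem_univ, true_and] at hv ⊢
    exact hcl c v hv
  · have h0 : ∑ v ∈ univ.filter (fun v => ¬ Sp c v), dl r fl a (lab v) = 0 := by
      refine Finset.sum_involution (fun v _ => m c v) (fun v hv => ?_) (fun v _ _ => hF.ne c v)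
        (fun v hv => ?_) (fun v _ => hF.inv c v)
      · simp only [mem_filter, mem_univ, true_and] at hv
        have h1 := iff1_FVir0 hR (hn c v hv) a
        have h2 := iff2_FVir0 hR (hn c v hv) a
        simp only [dl, h1, h2]
        ring
      · simp only [mem_filter, mem_univ, true_and] at hv ⊢
        exact hcl' c v hv
    rw [← sum_filter_add_sum_filter_not univ (fun v => Sp c v) (fun v => dl r fl a (lab v)), h0,
      add_zero]
  · unfold cnt
    refine even_FVir0 _ (m c) (fun v hv => ?_) (hF.ne c) (hF.inv c)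
    simp only [mem_filter, mem_univ, true_and] at hv ⊢
    refine ⟨hcl' c v hv.1, ?_⟩
    have h1 := iff1_FVir0 hR (hn c v hv.1) a
    have h2 := iff2_FVir0 hR (hn c v hv.1) a
    rcases hv.2 with h | h
    · exact Or.inr (h1.mp h)
    · exact Or.inl (h2.mp h)

end Pool.Agent.MP_d20a68_co.T

end

section

/-! Basic facts on nets. -/

set_option autoImplicit false
set_option linter.unusedSectionVars false
set_option linter.unusedVariables false
open Finset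
open scoped Classical

namespace Pool.Agent.MP_d20a68_co.T

open Pool.Agent.MP_d20a68_co.Poly

variable {R : ℕ} {fl : Fin R → Fin R} {r : Fin R → Fin R → Prop}

theorem sw_FNu (h : Rl fl r) {x y : Fin R} (hxy : r x (fl y)) : r (fl x) y := by
  have := h.rfl' _ _ hxy
  rwa [h.inv] at this

theorem orb_FNu (h : Rl fl r) : Equivalence (orb r fl) := by
  refine ⟨fun x => Or.inl (h.eqv.refl x), ?_, ?_⟩
  · rintro x y (hxy | hxy)
    · exact Or.inl (h.eqv.symm hxy)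
    · exact Or.inr (h.eqv.symm (sw_FNu h hxy))
  · rintro x y z (hxy | hxy) (hyz | hyz)
    · exact Or.inl (h.eqv.trans hxy hyz)
    · exact Or.inr (h.eqv.trans hxy hyz)
    · exact Or.inr (h.eqv.trans hxy (h.rfl' _ _ hyz))
    · exact Or.inl (h.eqv.trans hxy (sw_FNu h hyz))

theorem anti_FNu (h : Rl fl r) (a x y : Fin R) (s : Bool) (hxy : r x (fl y)) :
    nu r fl a x s + nu r fl a y (!s) = 0 := by
  have h1 : r a x ↔ r a (fl y) :=
    ⟨fun h' => h.eqv.trans h' hxy, fun h' => h.eqv.trans h' (h.eqv.symm hxy)⟩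
  have h2 : r a (fl x) ↔ r a y :=
    ⟨fun h' => h.eqv.trans h' (sw_FNu h hxy),
      fun h' => h.eqv.trans h' (h.eqv.symm (sw_FNu h hxy))⟩
  cases s
  · simp [nu, h2]
  · simp [nu, h1]

theorem two_FNu (h : Rl fl r) (a x : Fin R) (b : Bool) :
    2 * nu r fl a x b = dl r fl a x +
      (if r a (fl a) then 2 else 1) * (if orb r fl a x then sgz b else 0) := by
  by_cases ha : r a (fl a)
  · have h1 : r a (fl x) ↔ r a x :=
      ⟨fun h' => h.eqv.trans ha (sw_FNu h h'), fun h' => h.eqv.trans ha (h.rfl' _ _ h')⟩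
    by_cases hx : r a x <;> cases b <;> simp [nu, dl, orb, sgz, ha, h1, hx]
  · have h1 : ¬ (r a x ∧ r a (fl x)) := fun h' =>
      ha (h.eqv.trans h'.2 (h.eqv.symm (h.rfl' _ _ h'.1)))
    by_cases hx : r a x <;> by_cases hy : r a (fl x) <;> cases b <;>
      simp_all [nu, dl, orb, sgz]

theorem sum_FNu (h : Rl fl r) {V : Type} (lab : V → Fin R) (E : Finset V) (σ : V → Bool)
    (a : Fin R) :
    2 * ∑ v ∈ E, nu r fl a (lab v) (σ v) = ∑ v ∈ E, dl r fl a (lab v) +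
      (if r a (fl a) then 2 else 1) *
        ∑ v ∈ E.filter (fun v => orb r fl a (lab v)), sgz (σ v) := by
  rw [sum_filter, mul_sum, mul_sum, ← sum_add_distrib]
  exact sum_congr rfl fun v _ => two_FNu h a (lab v) (σ v)

theorem nuP : NuP := by
  intro R fl r h
  refine ⟨orb_FNu h, anti_FNu h, ?_⟩
  intro V lab E E' σ σ' h1 h2 a
  have h3 := sum_FNu h lab E σ a
  have h4 := sum_FNu h lab E' σ' a
  rw [h1 a, h2 a, ← h4] at h3
  omega

end Pool.Agent.MP_d20a68_co.T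

end

section

set_option autoImplicit false
open Finset
open scoped Classical

namespace Pool.Agent.MP_d20a68_co.T

open Pool.Agent.MP_d20a68_co.Poly

theorem spreadP : SpreadP := by
  intro V k M E τ h0 h1 hk hE
  have hk' : (0 : ℝ) < k := by exact_mod_cast hk
  have bd : ∀ S : Finset V, τ ^ S.card * k ≤ (cnt fun c => S ⊆ E c : ℝ) → S.card ≤ M := by
    intro S hS
    have hp : (0 : ℝ) < (cnt fun c => S ⊆ E c : ℝ) := lt_of_lt_of_le (by positivity) hS
    have hp' : 0 < cnt fun c => S ⊆ E c := by exact_mod_cast hp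
    obtain ⟨c, hc⟩ := card_pos.1 hp'
    have hc' : S ⊆ E c := by simpa using hc
    exact (card_le_card hc').trans (hE c)
  have ex : ∃ j, ∃ S : Finset V, S.card + j = M ∧ τ ^ S.card * k ≤ (cnt fun c => S ⊆ E c : ℝ) :=
    ⟨M, ∅, by simp, by simp [cnt]⟩
  obtain ⟨S, hS, hS'⟩ := Nat.find_spec ex
  refine ⟨S, by omega, le_trans ?_ hS', fun w hw => ?_⟩
  · exact mul_le_mul_of_nonneg_right (pow_le_pow_of_le_one h0.le h1 (by omega)) hk'.le
  · have e : (fun c => S ⊆ E c ∧ w ∈ E c) = fun c => insert w S ⊆ E c := by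
      funext c
      rw [insert_subset_iff, and_comm]
    rw [e]
    by_contra hc
    have h2 : τ ^ (insert w S).card * k ≤ (cnt fun c => insert w S ⊆ E c : ℝ) := by
      rw [card_insert_of_notMem hw, pow_succ', mul_assoc]
      exact (mul_le_mul_of_nonneg_left hS' h0.le).trans (not_le.1 hc).le
    have h3 := bd _ h2
    have h4 := card_insert_of_notMem hw
    exact Nat.find_min ex (m := M - (insert w S).card) (by omega) ⟨_, by omega, h2⟩

theorem agreeP : AgreeP := by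
  intro V _ A t
  have h1 : ∀ ε : V → Bool, (if ∀ v ∈ A, ε v = t v then (1 : ℝ) else 0) =
      ∏ v, (if v ∈ A then (if ε v = t v then 1 else 0) else 1) := fun ε => by
    rw [prod_ite_mem, univ_inter, prod_boole]
    congr
  have h2 := Finset.prod_univ_sum (fun _ : V => (univ : Finset Bool))
    (fun v a => if v ∈ A then (if a = t v then (1 : ℝ) else 0) else 1)
  rw [Fintype.piFinset_univ] at h2
  have h3 : (Fintype.card (V → Bool) : ℝ) = ∏ _v : V, (2 : ℝ) := by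
    rw [Fintype.card_fun, prod_const, card_univ, Fintype.card_bool]
    push_cast
    rfl
  unfold pr mean
  rw [sum_congr rfl fun ε _ => by convert h1 ε]
  rw [← h2, h3, ← prod_div_distrib, ← prod_const, ← univ_inter A, ← prod_ite_mem, univ_inter]
  refine prod_congr rfl fun v _ => ?_
  split_ifs with hv
  · simp
  · simp

end Pool.Agent.MP_d20a68_co.T

end

section

/-! Flipping a few vertices on each level gives the prescribed nets. -/

set_option autoImplicit false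
open Finset
open scoped Classical

namespace Pool.Agent.MP_d20a68_co.T

open Pool.Agent.MP_d20a68_co.Poly

theorem flipP (hT : TgbP) (hS : FselP) (hR : FrobP) (hL : FlevP) (hO : FokP) : FlipP := by
  intro R M δ hδ
  obtain ⟨κ, K, hκ, U0, hU0⟩ := hO R M δ hδ
  refine ⟨κ, hκ, fun ν hν => ?_⟩
  obtain ⟨U1, hU1⟩ := ev_pow (24 * (R * (4 + M + R))) ν 5 (by norm_num) hν
  obtain ⟨U2, hU2⟩ := ev_pow (384 * (R * (4 + M + R)) * K) ν 5 (by norm_num) hν
  refine ⟨U0 + U1 + U2 + 1, fun u hu k hk V Lv _ _ m lab fl poor r E e Lt z h σ y lc ntl η κ' hκ'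
    hm hrl hδ' hE H => ?_⟩
  have hu1 : 1 ≤ u := by omega
  have hk0 : 0 < k := lt_of_lt_of_le (pow_pos hu1 8) hk.1
  have hc : ∀ l, ∃ c, lc c = l := fun l => by
    have h1 := lt_of_lt_of_le (pow_pos hu1 6) (H.ylo l)
    rw [H.ycard, cnt, card_pos] at h1
    obtain ⟨c, hc⟩ := h1
    exact ⟨c, (mem_filter.1 hc).2⟩
  choose cl hcl using hc
  choose tg t1 t2 t3 t4 using fun l =>
    hT R M V lab fl r (E (cl l)) (e (cl l)) (σ l) hrl (hE _).1 (hE _).2
  obtain ⟨F, f1, f2, f3⟩ := hS R (4 * u ^ 5 + M + R) V Lv lab σ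
    (fun l => univ.filter fun v => Tpc m lab K v ∧ ∀ c, lc c = l → v ∉ E c) tg t1
    (fun l b => by
      have h1 := abs_le.1 (H.lbal l b)
      have h2 := abs_le.1 (t3 l b)
      have h3 : (0 : ℤ) ≤ (u : ℤ) ^ 5 := by positivity
      push_cast at h1 h2 ⊢
      rw [abs_le]
      constructor <;> omega)
    fun l b => by
      by_cases hb : Vl lab b = ∅
      · exact Or.inl ⟨hb, t2 l b hb⟩
      refine Or.inr fun s => ?_
      have h1 := hU0 u (by omega) k hk V Lv m lab fl E (σ l) lc l hm hrl.inv hδ'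
        (fun c => (hE c).2) (by
          rw [← H.ycard]
          exact (H.yhi l).trans (mul_le_mul_of_nonneg_right hκ' (Nat.cast_nonneg _)))
        (H.lbal l) b hb s
      rw [card_small H.zh, H.card]
      simpa only [mem_filter, mem_univ, true_and] using h1
  have hn : ((R * (4 * u ^ 5 + M + R) : ℕ) : ℝ) ≤ R * (4 + M + R) * (u : ℝ) ^ 5 := by
    have h1 : (1 : ℝ) ≤ (u : ℝ) ^ 5 := one_le_pow₀ (by exact_mod_cast hu1)
    have h2 : (0 : ℝ) ≤ (M : ℝ) + R := by positivity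
    push_cast
    rw [mul_assoc]
    exact mul_le_mul_of_nonneg_left (by nlinarith) (Nat.cast_nonneg _)
  have hq := hR k R K (R * (4 * u ^ 5 + M + R)) V Lv m lab poor z h σ F ν hm hk0 H.eq3
    (fun l => (f1 l).2) (fun l v hv => (mem_filter.1 ((f1 l).1 hv)).2.1)
    (by linarith [hU1 u (by omega) k hk])
    (by
      have h1 := mul_le_mul_of_nonneg_right hn (Nat.cast_nonneg (α := ℝ) K)
      linarith [hU2 u (by omega) k hk])
  refine ⟨fun l => flp (F l) (σ l), hL k R u _ (M + R) V Lv m lab fl poor r E e Lt z h σ y lc ntl ν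
    η κ' F hν.le (fun c => (hE c).1.cl) H f2
    (fun c v hv => (mem_filter.1 ((f1 _).1 hv)).2.2 c rfl) hq (fun l a => ?_), fun l a => ?_⟩
  · rw [f3]
    exact t3 l a
  · have h1 := H.netE (cl l) a
    rw [hcl] at h1
    rw [t4 l _ (f3 l) a, h1]

end Pool.Agent.MP_d20a68_co.T

end

section

set_option autoImplicit false
open Finset
open scoped Classical

namespace Pool.Agent.MP_d20a68_co.T

open Pool.Agent.MP_d20a68_co.Poly

theorem slot_FHall {Λ : Type} [Fintype Λ] (dem : Λ → ℕ) (P : Λ → Prop) [DecidablePred P] :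
    (univ.filter fun z : Σ l, Fin (dem l) => P z.1).card = ∑ l ∈ univ.filter P, dem l := by
  have e : (univ.filter fun z : Σ l, Fin (dem l) => P z.1) =
      (univ.filter P).sigma fun l => univ := by
    ext z
    simp
  rw [e, card_sigma]
  simp

theorem hallP : HallP := by
  intro X Λ _ _ _ D al dem a b h1 h2 h3 h4 h5
  have hS : Fintype.card (Σ l, Fin (dem l)) = D.card := by
    rw [Fintype.card_sigma, ← h1]
    simp
  obtain ⟨g, hg, hg'⟩ := (all_card_le_biUnion_card_iff_exists_injective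
      fun x : D => univ.filter fun z : Σ l, Fin (dem l) => al x.1 z.1).1 (by
    intro s
    have e : (s.biUnion fun x : D => univ.filter fun z : Σ l, Fin (dem l) => al x.1 z.1) =
        univ.filter fun z : Σ l, Fin (dem l) => ¬ ∀ x ∈ s, ¬ al x.1 z.1 := by
      ext z
      simp
    have e' := card_filter_add_card_filter_not (s := (univ : Finset (Σ l, Fin (dem l))))
      fun z => ∀ x ∈ s, ¬ al x.1 z.1
    rw [card_univ, hS, slot_FHall dem fun l => ∀ x ∈ s, ¬ al x.1 l] at e'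
    rw [e]
    have hs : s.card ≤ D.card := (card_le_univ s).trans_eq (Fintype.card_coe D)
    rcases Nat.lt_or_ge 1 s.card with h | h
    · obtain ⟨x, hx, x', hx', hne⟩ := one_lt_card.1 h
      by_cases hb : (s.card : ℝ) ≤ b
      · have i1 : ∑ l ∈ univ.filter (fun l => ∀ x ∈ s, ¬ al x.1 l), dem l ≤
            ∑ l ∈ univ.filter (fun l => ¬ al x.1 l ∧ ¬ al x'.1 l), dem l :=
          sum_le_sum_of_subset fun l hl => mem_filter.2
            ⟨mem_univ _, (mem_filter.1 hl).2 x hx, (mem_filter.1 hl).2 x' hx'⟩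
        have i2 := (Nat.cast_le.2 i1).trans (h3 x.1 x.2 x'.1 x'.2 fun e => hne (Subtype.ext e))
        have i3 := congrArg (Nat.cast : ℕ → ℝ) e'
        rw [Nat.cast_add] at i3
        exact Nat.cast_le (α := ℝ).1 (by linarith)
      · have i1 : univ.filter (fun l => ∀ x ∈ s, ¬ al x.1 l) = ∅ := by
          refine filter_eq_empty_iff.2 fun l _ hl => hb (le_trans ?_ (h4 l))
          refine Nat.cast_le.2 (card_le_card_of_injOn Subtype.val (fun x hx => ?_)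
            Subtype.val_injective.injOn)
          simpa using hl x hx
        rw [i1, sum_empty] at e'
        omega
    · rcases s.eq_empty_or_nonempty with rfl | ⟨x, hx⟩
      · exact Nat.zero_le _
      · have i1 : ∑ l ∈ univ.filter (fun l => ∀ x ∈ s, ¬ al x.1 l), dem l ≤
            ∑ l ∈ univ.filter (fun l => ¬ al x.1 l), dem l :=
          sum_le_sum_of_subset fun l hl => mem_filter.2 ⟨mem_univ _, (mem_filter.1 hl).2 x hx⟩
        have i2 := h2 x.1 x.2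
        omega)
  have hb : Function.Bijective g :=
    (Fintype.bijective_iff_injective_and_card g).2 ⟨hg, by rw [hS, Fintype.card_coe]⟩
  refine ⟨fun x => if h : x ∈ D then (g ⟨x, h⟩).1 else Classical.arbitrary Λ, fun x hx => ?_,
    fun l => ?_⟩
  · simp only [dif_pos hx]
    exact (mem_filter.1 (hg' ⟨x, hx⟩)).2
  · have e := slot_FHall dem fun l' => l' = l
    rw [sum_filter, sum_ite_eq', if_pos (mem_univ _)] at e
    rw [← e, cnt]
    symm
    obtain ⟨g', hg1, hg2⟩ := Function.bijective_iff_has_inverse.1 hb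
    refine card_bij (fun z _ => (g' z).1) (fun z hz => ?_)
      (fun x _ y _ e => hg2.injective (Subtype.ext e)) fun x hx => ?_
    · simp only [mem_filter, mem_univ, true_and, dif_pos (g' z).2] at hz ⊢
      exact ⟨(g' z).2, by rw [Subtype.coe_eta, hg2 z, hz]⟩
    · simp only [mem_filter, mem_univ, true_and] at hx
      obtain ⟨hx, hx'⟩ := hx
      rw [dif_pos hx] at hx'
      exact ⟨g ⟨x, hx⟩, mem_filter.2 ⟨mem_univ _, hx'⟩, by rw [hg1]⟩

end Pool.Agent.MP_d20a68_co.T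

end

section

/-! The placed darts: symmetry, cuts, exact degrees at heavy vertices. -/

set_option autoImplicit false
set_option linter.unusedSectionVars false
set_option linter.unusedVariables false
open Finset
open scoped Classical

namespace Pool.Agent.MP_d20a68_co.T

open Pool.Agent.MP_d20a68_co.Poly

theorem split_FPreA {α : Type} [Fintype α] (P Q : α → Prop) :
    cnt P = (cnt fun x => Q x ∧ P x) + cnt fun x => ¬ Q x ∧ P x := by
  unfold cnt
  rw [← card_union_of_disjoint]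
  · congr 1
    ext x
    by_cases h : Q x <;> simp [h]
  · rw [disjoint_left]
    intro x h h'
    simp only [mem_filter] at h h'
    exact h'.2.1 h.2.1

theorem bij_FPreA {α : Type} [Fintype α] {P Q : α → Prop} (f : α → α) (h1 : ∀ x, P x → Q (f x))
    (h2 : ∀ x y, P x → P y → f x = f y → x = y) (h3 : ∀ y, Q y → ∃ x, P x ∧ f x = y) :
    cnt P = cnt Q := by
  unfold cnt
  refine card_bij (fun x _ => f x) (fun x hx => mem_filter.2 ⟨mem_univ _, h1 x (mem_filter.1 hx).2⟩)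
    (fun x hx y hy => h2 x y (mem_filter.1 hx).2 (mem_filter.1 hy).2) fun y hy => ?_
  obtain ⟨x, p, e⟩ := h3 y (mem_filter.1 hy).2
  exact ⟨x, mem_filter.2 ⟨mem_univ _, p⟩, e⟩

theorem congr_FPreA {α : Type} [Fintype α] {P Q : α → Prop} (h : ∀ x, P x ↔ Q x) :
    cnt P = cnt Q := by
  rw [show P = Q from funext fun x => propext (h x)]

theorem preAP : PreAP := by
  intro k R V Lv _ _ m lab poor vc E e Lt σ lc hl F ps H cut M
  have sp : ∀ c v, SpW m lab poor Lt c v → SpW m lab poor Lt c (m c v) := fun c v h => by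
    unfold SpW at h ⊢
    rw [F.inv]
    exact h.imp (ps _ _) fun h => ⟨h.2, h.1⟩
  have sp' : ∀ c v, ¬ SpW m lab poor Lt c v → ¬ SpW m lab poor Lt c (m c v) := fun c v h h' => by
    have := sp c _ h'
    rw [F.inv] at this
    exact h this
  have a1 : ∀ c v, ¬ SpW m lab poor Lt c v → v ∉ Lt → m c v ∈ Lt := fun c v h h' =>
    by_contra fun h2 => h (Or.inr ⟨h', h2⟩)
  have a2 : ∀ c v, FxW m lab poor Lt c v → ¬ SpW m lab poor Lt c v → v ∈ Lt → m c v ∉ Lt :=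
    fun c v h h' h2 => h.elim (fun h => absurd (Or.inl h) h') fun h => h.resolve_left fun h => h h2
  refine ⟨fun c v h => ?_, fun c v h => ?_, fun c v h => ?_, fun v hv l => ?_⟩
  · unfold FxW at h ⊢
    rw [F.inv]
    exact h.imp (ps _ _) Or.symm
  · unfold lW
    by_cases s : SpW m lab poor Lt c v
    · rw [if_pos s, if_pos (sp c v s), H.sym c v s]
    · rw [if_neg s, if_neg (sp' c v s)]
      by_cases hv : v ∈ Lt
      · rw [if_pos (a2 c v h s hv), if_neg (not_not.2 hv)]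
      · rw [if_neg (not_not.2 (a1 c v s hv)), if_pos hv, F.inv]
  · unfold lW
    by_cases s : SpW m lab poor Lt c v
    · have := cut _ v ((H.mem _ v).2 ⟨c, s, rfl⟩)
      rw [H.mate c v s] at this
      rw [if_pos s, this]
      cases σ (lc (vc c v)) v <;> simp
    · rw [if_neg s]
      by_cases hv : v ∈ Lt
      · have := (M _ (a2 c v h s hv)).1 c (sp' c v s)
        rw [F.inv] at this
        rw [if_neg (not_not.2 hv)]
        exact this.symm
      · rw [if_pos hv]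
        exact (M v hv).1 c s
  · rw [split_FPreA _ fun c => SpW m lab poor Lt c v,
      split_FPreA (fun c => lc c = l) fun c => v ∈ E c]
    congr 1
    · refine bij_FPreA (fun c => vc c v) (fun c ⟨s, h⟩ => ?_)
        (fun c c' hc hc' => H.mat c c' v hc.1 hc'.1) fun a ⟨h1, h2⟩ => ?_
      · rw [lW, if_pos s] at h
        exact ⟨(H.mem _ v).2 ⟨c, s, rfl⟩, h⟩
      · obtain ⟨c, s, rfl⟩ := (H.mem a v).1 h1
        exact ⟨c, ⟨s, by rw [lW, if_pos s, h2]⟩, rfl⟩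
    · rw [congr_FPreA (Q := fun c => lc c = l ∧ v ∉ E c) fun c => and_comm, ← (M v hv).2 l]
      refine congr_FPreA fun c => and_congr_right fun s => ?_
      rw [lW, if_neg s, if_pos hv]

end Pool.Agent.MP_d20a68_co.T

end

section

/-! The output of the first half. -/

set_option autoImplicit false
set_option linter.unusedSectionVars false
set_option linter.unusedVariables false
open Finset
open scoped Classical

namespace Pool.Agent.MP_d20a68_co.T

open Pool.Agent.MP_d20a68_co.Poly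

theorem sum_FPre {k : ℕ} {Lv : Type} [Fintype Lv] (lc : Fin k → Lv) :
    ∑ l, (cnt fun c => lc c = l) = k := by
  have := Finset.card_eq_sum_card_fiberwise (f := lc) (s := univ) (t := univ) fun _ _ => mem_univ _
  rw [card_univ, Fintype.card_fin] at this
  conv_rhs => rw [this]
  rfl

theorem cor_FPre {k : ℕ} {V Lv : Type} [Fintype V] [Fintype Lv] (E : Fin k → Finset V) (z h : Lv)
    (σ : Lv → V → Bool) (lc : Fin k → Lv) (x v : V) : cor E z h σ lc none x v =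
      ∑ l ∈ small z h, ((cnt fun c => lc c = l : ℕ) : ℝ) * (sg (σ l x) * sg (σ l v)) := by
  rw [cor, ← sum_fiberwise_of_maps_to (g := lc) (t := small z h)
    fun c hc => (mem_filter.1 hc).2.1]
  refine sum_congr rfl fun l hl => ?_
  rw [sum_congr rfl fun c hc => by rw [(mem_filter.1 hc).2], sum_const, nsmul_eq_mul, cnt]
  congr 3
  ext c
  simp only [mem_filter, mem_univ, true_and]
  exact ⟨fun hc => hc.2, fun hc => ⟨⟨hc ▸ hl, fun _ e => by cases e⟩, hc⟩⟩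

theorem preP (hM : MedP) (hA : PreAP) (hB : PreBP) (hC : PreCP) : PreP := by
  intro R M δ hδ
  obtain ⟨κ, hκ, H⟩ := hM R δ hδ
  refine ⟨min κ (1 / 16), lt_min hκ (by norm_num), fun B ν hν hνκ => ?_⟩
  obtain ⟨U, hU⟩ := H B
  obtain ⟨U', hU'⟩ := exists_nat_ge (B / ν)
  refine ⟨max U (U' + 1), ?_⟩
  intro u hu k hk V Lv _ _ m lab fl poor r vc E e Lt z h σ y lc ntl η κ' S Lp hκ' hF hT hd hB' hE
    hV hL hn
  obtain ⟨hl, hm⟩ := hU u (le_of_max_le_left hu) k hk V Lv m lab fl poor r vc E e Lt z h σ y lc ntl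
    ν η κ' _ (hνκ.trans (min_le_left _ _)) (hκ'.trans (min_le_left _ _)) hF hT.pin hd hB' hV hL
  obtain ⟨a1, a2, a3, a4⟩ := hA k R V Lv m lab poor vc E e Lt σ lc hl hF hT.psym hV hL.cutE hm
  obtain ⟨b1, b2⟩ := hB k R M B V Lv m lab poor vc E e Lt σ lc hl hF hT.psym hV hm hE hB'
  have c1 := hC k R V Lv m lab fl poor r vc E e Lt σ lc ntl hl hF hT.rl hT.psym hT.neu hV hL.cutE
    hL.netE hm
  have hu' : U' + 1 ≤ u := le_of_max_le_right hu
  have k0 : (0 : ℝ) ≤ k := Nat.cast_nonneg k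
  refine ⟨FxW m lab poor Lt, lW m lab poor Lt vc lc hl, hL.zh, ?_, hL.ylo, hL.yz, hL.yh,
    fun l => ?_, a1, a2, a3, fun v hv c => Or.inr (Or.inl hv),
    fun v hv l => (a4 v hv l).trans (hL.ycard l).symm, hB'.trans (by omega), fun v hv l => ?_,
    fun l => (b2 l).trans ?_, fun c v hf hp => hf (Or.inl hp), fun l a => ?_,
    fun l a => (hL.lbal l a).trans (by omega), fun v hv w hw => ?_, hL.eq3.mono (by linarith)⟩
  · simp only [hL.ycard]
    exact sum_FPre lc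
  · have h1 := hL.yhi l
    have h2 : κ' * k ≤ 1 / 16 * k := mul_le_mul_of_nonneg_right (hκ'.trans (min_le_right _ _)) k0
    have h3 : 16 * (y l : ℝ) ≤ k := by linarith
    exact_mod_cast h3
  · have h1 : ((cnt fun c => FxW m lab poor Lt c v ∧ lW m lab poor Lt vc lc hl c v = l : ℕ) : ℝ) ≤
        (cnt fun c => lc c = l ∧ v ∈ E c : ℕ) + B := by exact_mod_cast b1 v hv l
    have h2 := hL.ld v hv l
    have h3 : (U' : ℝ) ≤ y l := by
      have : u ≤ u ^ 6 := Nat.le_self_pow (by norm_num) u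
      have := hL.ylo l
      exact_mod_cast (by omega : U' ≤ y l)
    have h4 := mul_le_mul_of_nonneg_left (hU'.trans h3) hν.le
    rw [mul_div_cancel₀ _ hν.ne'] at h4
    linarith
  · rw [hL.ycard]
    exact Nat.mul_le_mul_right _ (by omega)
  · rw [hn, hL.ycard]
    exact c1 l a
  · have h1 := hL.w1 none v hv w hw
    rw [cor_FPre] at h1
    simp only [hL.ycard]
    nlinarith [mul_nonneg hν.le k0]

end Pool.Agent.MP_d20a68_co.T

end

section

/-! The first half: assembly. -/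

set_option autoImplicit false
set_option linter.unusedSectionVars false
set_option linter.unusedVariables false
open Finset
open scoped Classical

namespace Pool.Agent.MP_d20a68_co.T

open Pool.Agent.MP_d20a68_co.Poly

theorem pre_mono_FFirst {V Lv : Type} [Fintype V] [Fintype Lv] {k R : ℕ} {m : Fin k → V → V}
    {lab : V → Fin R} {fl : Fin R → Fin R} {poor r : Fin R → Fin R → Prop} {z h : Lv}
    {σ : Lv → V → Bool} {y : Lv → ℕ} {Lt : Finset V} {Fx : Fin k → V → Prop}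
    {l0 : Fin k → V → Lv} {u : ℕ} {ν ν' η : ℝ} {B : ℕ}
    (H : Pre m lab fl poor r z h σ y Lt Fx l0 u ν η B) (hν : ν ≤ ν') :
    Pre m lab fl poor r z h σ y Lt Fx l0 u ν' η B :=
  { H with
    load := fun v hv l => (H.load v hv l).trans
      (mul_le_mul_of_nonneg_right hν (Nat.cast_nonneg _))
    w1 := fun v hv w hw => (H.w1 v hv w hw).trans
      (mul_le_mul_of_nonneg_right hν (Nat.cast_nonneg _))
    eq3 := H.eq3.mono hν }

theorem firstP (hV : VirtP) (hE : EssP) (hL : LevP) (hF : FlipP) (hP : PreP) (hG : LightP) :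
    FirstP := by
  intro C R S δ hδ
  obtain ⟨M, hM⟩ := hV R (R * R * S + 1)
  obtain ⟨T, hT, hE⟩ := hE R M
  obtain ⟨κF, hκF, hF⟩ := hF R M δ hδ
  obtain ⟨κP, hκP, hP⟩ := hP R M δ hδ
  obtain ⟨τ, hτ, hL⟩ := hL C R M T (min κF κP) hT (lt_min hκF hκP)
  obtain ⟨cP, hcP, hE⟩ := hE τ hτ
  obtain ⟨η, hη, hL⟩ := hL cP hcP
  refine ⟨η, hη, fun ν hν => ?_⟩
  have hν1 : 0 < min ν κP / 10 := by have := lt_min hν hκP; positivity
  obtain ⟨θ, hθ, Lp, U1, hL⟩ := hL (min ν κP / 10) hν1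
  obtain ⟨U2, hF⟩ := hF (min ν κP / 10) hν1
  obtain ⟨B, U3, hG⟩ := hG R S (min θ (cP / 2)) (lt_min hθ (by positivity))
  obtain ⟨U4, hP⟩ := hP B (5 * (min ν κP / 10)) (by positivity)
    (by have := min_le_right ν κP; linarith)
  refine ⟨M + R + 2 * B, Lp, U1 + U2 + U3 + U4 + 1, ?_⟩
  intro u hu k hk V _ m lab fl poor r hV hm hty hin q p hp hs
  have hk0 : 0 < k := lt_of_lt_of_le (pow_pos (by omega) 8) hk.1
  have hk0' : (0 : ℝ) < k := by exact_mod_cast hk0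
  obtain ⟨Lt, g1, g2, g3, g4, g5⟩ := hG u (by omega) k hk V m lab fl poor r Lp hm hty
  obtain ⟨vc, E, e, hvir, hmat⟩ := hM k V m lab fl r _ hm hty.rl g3 g4 g2
  obtain ⟨S', g, nt, s, fit, P, hess⟩ := hE k V lab fl r E e hk0 hty.rl hmat
  have hlt : ∀ v ∈ Lt, v ∉ S' ∧ (cnt fun c => v ∈ E c : ℝ) ≤ θ * k := by
    intro v hv
    have h1 := g5 vc E e hvir v hv
    refine ⟨fun hS => ?_, h1.trans (mul_le_mul_of_nonneg_right (min_le_left _ _) hk0'.le)⟩
    have h2 : P.card ≤ cnt fun c => v ∈ E c := by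
      unfold cnt
      exact card_le_card fun c hc => by simpa using hess.psub c hc hS
    have h3 : (P.card : ℝ) ≤ (cnt fun c => v ∈ E c : ℝ) := by exact_mod_cast h2
    have h4 := hess.pbig
    have h5 := mul_le_mul_of_nonneg_right (min_le_right θ (cP / 2)) hk0'.le
    have h6 : 0 < cP * k := by positivity
    linarith
  obtain ⟨Lv, iLv, z, h, σ, y, lc, ntl, hgrp, hlev⟩ := hL u (by omega) k hk V m lab fl poor r E e
    S' g nt s fit P Lt hV hm hty.big (fun c => (hmat c).2) hess hlt q p hp hs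
  obtain ⟨σ', hlev', hnet⟩ := hF u (by omega) k hk V Lv m lab fl poor r E e Lt z h σ y lc ntl η _
    (min_le_left _ _) hm hty.rl hin hmat hlev
  obtain ⟨Fx, l0, hpre⟩ := hP u (by omega) k hk V Lv m lab fl poor r vc E e Lt z h σ' y lc ntl η _
    S Lp (min_le_right _ _) hm hty hin g1 (fun c => (hmat c).2) hvir hlev' hnet
  exact ⟨Lv, iLv, z, h, σ', y, Lt, Fx, l0, hgrp,
    pre_mono_FFirst hpre (by have := min_le_left ν κP; linarith)⟩

end Pool.Agent.MP_d20a68_co.T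

end
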